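import Mathlib

/-!
# MP_ae5b4e_an, project SMOOTH: definitions

Functions of two complex variables `(t, ρ)`, of period `1` in `t`, on domains on which some of the
shifts `t + s * ρ` lie in a strip; difference quotients; Fourier coefficients in `t`; discrete
Euler-Lagrange equations.
-/

noncomputable section

namespace Pool.Agent.MP_ae5b4e_an_SM

open Complex Set Filter Topology

/-- the square of centre `0` -/
def Rq (r : ℝ) : Set ℂ := {z | |z.re| < r ∧ |z.im| < r}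

/-- the points `(t, ρ)` with `ρ` in the square and all `t + s * ρ`, `s ∈ S`, in the strip -/
def Dm (S : Finset ℤ) (c r : ℝ) : Set (ℂ × ℂ) :=
  {p | (∀ s ∈ S, |(p.1 + s * p.2).im| < c) ∧ p.2 ∈ Rq r}

/-- holomorphic, of period one in `t` -/
structure PH (S : Finset ℤ) (c r : ℝ) (f : ℂ × ℂ → ℂ) : Prop where
  diff : DifferentiableOn ℂ f (Dm S c r)
  per : ∀ p ∈ Dm S c r, f (p.1 + 1, p.2) = f p

/-- holomorphic, of period one in `t`, real on real points -/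
structure RP (S : Finset ℤ) (c r : ℝ) (f : ℂ × ℂ → ℂ) : Prop extends PH S c r f where
  real : ∀ p ∈ Dm S c r, p.1.im = 0 → p.2.im = 0 → (f p).im = 0

/-- holomorphic, of period one in `t`, bounded -/
structure HP (S : Finset ℤ) (c r : ℝ) (f : ℂ × ℂ → ℂ) (M : ℝ) : Prop extends PH S c r f where
  bd : ∀ p ∈ Dm S c r, ‖f p‖ ≤ M

/-- holomorphic, of period one in `t`, bounded and real on real points -/
structure AP (S : Finset ℤ) (c r : ℝ) (f : ℂ × ℂ → ℂ) (M : ℝ) : Prop extends RP S c r f where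
  bd : ∀ p ∈ Dm S c r, ‖f p‖ ≤ M

lemma AP.toHP {S : Finset ℤ} {c r M : ℝ} {f : ℂ × ℂ → ℂ} (h : AP S c r f M) : HP S c r f M :=
  { h.toRP.toPH with bd := h.bd }

/-- the sets of shifts which occur -/
structure Sml (S : Finset ℤ) : Prop where
  ne : S.Nonempty
  le : ∀ s ∈ S, |s| ≤ 1

/-- the `t`-derivative -/
def dt (f : ℂ × ℂ → ℂ) (p : ℂ × ℂ) : ℂ := deriv (fun s => f (s, p.2)) p.1

/-- the `ρ`-derivative -/
def dr (f : ℂ × ℂ → ℂ) (p : ℂ × ℂ) : ℂ := deriv (fun s => f (p.1, s)) p.2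

/-- the shift `t ↦ t + k * ρ` -/
def sh (k : ℤ) (f : ℂ × ℂ → ℂ) (p : ℂ × ℂ) : ℂ := f (p.1 + k * p.2, p.2)

/-- the forward difference quotient, the `t`-derivative for `ρ = 0` -/
def nab (f : ℂ × ℂ → ℂ) (p : ℂ × ℂ) : ℂ := dslope (fun s => f (s, p.2)) p.1 (p.1 + p.2)

/-- the backward difference quotient, the `t`-derivative for `ρ = 0` -/
def nabm (f : ℂ × ℂ → ℂ) (p : ℂ × ℂ) : ℂ := dslope (fun s => f (s, p.2)) p.1 (p.1 - p.2)

/-- Fourier coefficients in `t` -/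
def fc (f : ℂ × ℂ → ℂ) (m : ℤ) (ρ : ℂ) : ℂ :=
  ∫ s in (0:ℝ)..1, f ((s : ℂ), ρ) * exp (-(2 * Real.pi * I * m * s))

/-- the weight of the `m`-th coefficient on the domain `Dm S c r` -/
def Wt (S : Finset ℤ) (m : ℤ) (ρ : ℂ) : ℝ := ∑ s ∈ S, ‖exp (2 * Real.pi * I * m * s * ρ)‖

/-- the symbol of the forward difference quotient -/
def theta (m : ℤ) (ρ : ℂ) : ℂ :=
  if ρ = 0 then 2 * Real.pi * I * m else (exp (2 * Real.pi * I * m * ρ) - 1) / ρ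

/-- the loss factor -/
def lam (n : ℕ) (δ : ℝ) : ℝ := (n / δ) ^ n

/-- admissible parameters: `(c', r')` is smaller than `(c, r)`, with relative loss `δ` -/
structure Par (c r c' r' δ : ℝ) : Prop where
  δ0 : 0 < δ
  δ1 : δ ≤ 1
  c1 : c ≤ 1
  cc : c' + δ ≤ c
  r0 : 0 < r'
  rr : r' + δ * r ≤ r
  rc : r ≤ c'

/-! ### Lagrangians -/

/-- derivative in the first variable -/
def Lt (L : ℂ × ℂ × ℂ → ℂ) (P : ℂ × ℂ × ℂ) : ℂ := fderiv ℂ L P (1, 0, 0)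

/-- derivative in the second variable -/
def LD (L : ℂ × ℂ × ℂ → ℂ) (P : ℂ × ℂ × ℂ) : ℂ := fderiv ℂ L P (0, 1, 0)

/-- derivative in the third variable -/
def Lr (L : ℂ × ℂ × ℂ → ℂ) (P : ℂ × ℂ × ℂ) : ℂ := fderiv ℂ L P (0, 0, 1)

/-- the domain of a Lagrangian `L(t, D, ρ)` -/
def DL (b : ℝ) : Set (ℂ × ℂ × ℂ) := {P | |P.1.im| < b ∧ ‖P.2.1 - 1‖ < b ∧ ‖P.2.2‖ < b}

/-- Lagrangians `L(t, D, ρ) = h(t, t + ρ * D) / ρ ^ k1` (for `k1 = 0`: up to a function of `ρ`),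
normalised -/
structure Lag (L : ℂ × ℂ × ℂ → ℂ) (k1 : ℂ) (b M : ℝ) : Prop where
  b0 : 0 < b
  b1 : b ≤ 1
  diff : DifferentiableOn ℂ L (DL b)
  bd : ∀ P ∈ DL b, ‖L P‖ ≤ M
  per : ∀ P ∈ DL b, L (P.1 + 1, P.2) = L P
  real : ∀ P ∈ DL b, P.1.im = 0 → P.2.1.im = 0 → P.2.2.im = 0 → (L P).im = 0
  hom : ∃ lamb : ℂ → ℂ, ∀ P ∈ DL b, P.2.2 * Lr L P - P.2.1 * LD L P + k1 * L P = lamb P.2.2
  nd : ∀ t : ℂ, |t.im| < b → LD (LD L) (t, 1, 0) = 1

/-- `[F] = (F, ∇F, ρ)` -/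
def br (F : ℂ × ℂ → ℂ) (p : ℂ × ℂ) : ℂ × ℂ × ℂ := (F p, nab F p, p.2)

/-- the Euler-Lagrange expression of a family `F(·, ρ)` -/
def EL (L : ℂ × ℂ × ℂ → ℂ) (F : ℂ × ℂ → ℂ) (p : ℂ × ℂ) : ℂ :=
  Lt L (br F p) - nabm (fun q => LD L (br F q)) p

/-- the Euler-Lagrange expression of three consecutive points -/
def el (L : ℂ × ℂ × ℂ → ℂ) (ρ x y z : ℂ) : ℂ :=
  Lt L (y, (z - y) / ρ, ρ) - (LD L (y, (z - y) / ρ, ρ) - LD L (x, (y - x) / ρ, ρ)) / ρ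

/-- The closing property: a periodic sequence which satisfies the Euler-Lagrange equations except
at one point of the period also satisfies them there. -/
def Closing (L : ℂ × ℂ × ℂ → ℂ) (b : ℝ) : Prop :=
  ∀ (q : ℕ) (k : ℤ) (X : ℤ → ℝ), 0 < q → k ≠ 0 → |(k : ℝ) / q| < b →
    (∀ j, X (j + q) = X j + k) → (∀ j, |(X (j + 1) - X j) / ((k : ℝ) / q) - 1| < b) →
    (∀ j, ¬ ((q : ℤ) ∣ j) → el L ((k / q : ℝ) : ℂ) (X (j - 1)) (X j) (X (j + 1)) = 0) →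
    el L ((k / q : ℝ) : ℂ) (X (-1)) (X 0) (X 1) = 0

/-- families close to the identity -/
structure GF (c r κ : ℝ) (F : ℂ × ℂ → ℂ) : Prop where
  ap : AP {0} c r (fun p => F p - p.1) κ
  dt1 : ∀ p ∈ Dm {0} c r, ‖dt F p - 1‖ ≤ κ

/-- `F_ρ / F_t` -/
def uu (F : ℂ × ℂ → ℂ) (p : ℂ × ℂ) : ℂ := dr F p / dt F p

/-- the coefficient `F_t F_t⁺ (L_DD - ρ L_tD)` -/
def aa (L : ℂ × ℂ × ℂ → ℂ) (F : ℂ × ℂ → ℂ) (p : ℂ × ℂ) : ℂ :=
  dt F p * sh 1 (dt F) p * (LD (LD L) (br F p) - p.2 * LD (Lt L) (br F p))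

/-- `G = - a (1 + ρ ∇u)` -/
def Gf (a u : ℂ × ℂ → ℂ) (p : ℂ × ℂ) : ℂ := -(a p * (1 + sh 1 u p - u p))

/-- the linearisation of `EL` -/
def JJ (L : ℂ × ℂ × ℂ → ℂ) (F z : ℂ × ℂ → ℂ) (p : ℂ × ℂ) : ℂ :=
  Lt (Lt L) (br F p) * z p + LD (Lt L) (br F p) * nab z p -
    nabm (fun q => LD (Lt L) (br F q) * z q + LD (LD L) (br F q) * nab z q) p

/-! ### First facts -/

lemma isOpen_Rq (r : ℝ) : IsOpen (Rq r) := by
  have h1 : Continuous fun z : ℂ => |z.re| := continuous_abs.comp continuous_re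
  have h2 : Continuous fun z : ℂ => |z.im| := continuous_abs.comp continuous_im
  exact (isOpen_lt h1 continuous_const).inter (isOpen_lt h2 continuous_const)

lemma isOpen_Dm (S : Finset ℤ) (c r : ℝ) : IsOpen (Dm S c r) := by
  have h : Dm S c r = (⋂ s ∈ S, {p : ℂ × ℂ | |(p.1 + s * p.2).im| < c}) ∩
      {p : ℂ × ℂ | p.2 ∈ Rq r} := by
    ext p
    simp [Dm]
  rw [h]
  refine IsOpen.inter ?_ ((isOpen_Rq r).preimage continuous_snd)
  refine isOpen_biInter_finset fun s _ => ?_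
  have h1 : Continuous fun p : ℂ × ℂ => |(p.1 + s * p.2).im| :=
    continuous_abs.comp (continuous_im.comp (by fun_prop))
  exact isOpen_lt h1 continuous_const

lemma isOpen_DL (b : ℝ) : IsOpen (DL b) := by
  have h1 : Continuous fun P : ℂ × ℂ × ℂ => |P.1.im| :=
    continuous_abs.comp (continuous_im.comp (by fun_prop))
  have h2 : Continuous fun P : ℂ × ℂ × ℂ => ‖P.2.1 - 1‖ := by fun_prop
  have h3 : Continuous fun P : ℂ × ℂ × ℂ => ‖P.2.2‖ := by fun_prop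
  exact (isOpen_lt h1 continuous_const).inter
    ((isOpen_lt h2 continuous_const).inter (isOpen_lt h3 continuous_const))

lemma convex_Rq (r : ℝ) : Convex ℝ (Rq r) := by
  have h : Rq r = (re ⁻¹' Ioo (-r) r) ∩ (im ⁻¹' Ioo (-r) r) := by
    ext z
    simp [Rq, abs_lt]
  rw [h]
  exact ((convex_Ioo (-r) r).is_linear_preimage (f := re) ⟨fun _ _ => rfl, by simp⟩).inter
    ((convex_Ioo (-r) r).is_linear_preimage (f := im) ⟨fun _ _ => rfl, by simp⟩)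

lemma mem_Dm {S : Finset ℤ} {c r : ℝ} {p : ℂ × ℂ} :
    p ∈ Dm S c r ↔ (∀ s ∈ S, |p.1.im + s * p.2.im| < c) ∧ |p.2.re| < r ∧ |p.2.im| < r := by
  simp [Dm, Rq]

lemma convex_Dm (S : Finset ℤ) (c r : ℝ) : Convex ℝ (Dm S c r) := by
  have h : Dm S c r = (⋂ s ∈ S, (fun p : ℂ × ℂ => p.1.im + s * p.2.im) ⁻¹' Ioo (-c) c) ∩
      ((fun p : ℂ × ℂ => p.2) ⁻¹' Rq r) := by
    ext p
    simp [mem_Dm, Rq, abs_lt]
  rw [h]
  refine Convex.inter ?_ ((convex_Rq r).is_linear_preimage ⟨fun _ _ => rfl, fun _ _ => rfl⟩)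
  refine convex_iInter₂ fun s _ => (convex_Ioo (-c) c).is_linear_preimage
    ⟨fun x y => ?_, fun a x => ?_⟩
  · simp only [Prod.fst_add, Prod.snd_add, add_im]
    ring
  · simp only [Prod.smul_fst, Prod.smul_snd, real_smul, mul_im, ofReal_re, ofReal_im,
      smul_eq_mul]
    ring

lemma nab_of_ne {f : ℂ × ℂ → ℂ} {p : ℂ × ℂ} (h : p.2 ≠ 0) :
    nab f p = (f (p.1 + p.2, p.2) - f p) / p.2 := by
  unfold nab
  rw [dslope_of_ne _ (by simpa using h), slope_def_field]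
  simp

lemma nabm_of_ne {f : ℂ × ℂ → ℂ} {p : ℂ × ℂ} (h : p.2 ≠ 0) :
    nabm f p = (f p - f (p.1 - p.2, p.2)) / p.2 := by
  unfold nabm
  rw [dslope_of_ne _ (by simpa [sub_eq_self] using h), slope_def_field]
  have e : p.1 - p.2 - p.1 = -p.2 := by ring
  rw [e, div_neg, ← neg_div]
  simp

lemma nab_zero (f : ℂ × ℂ → ℂ) (t : ℂ) : nab f (t, 0) = dt f (t, 0) := by
  simp [nab, dt]

lemma nabm_zero (f : ℂ × ℂ → ℂ) (t : ℂ) : nabm f (t, 0) = dt f (t, 0) := by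
  simp [nabm, dt]

lemma EL_of_ne {L : ℂ × ℂ × ℂ → ℂ} {F : ℂ × ℂ → ℂ} {p : ℂ × ℂ} (h : p.2 ≠ 0) :
    EL L F p = el L p.2 (F (p.1 - p.2, p.2)) (F p) (F (p.1 + p.2, p.2)) := by
  have h1 : nab F (p.1 - p.2, p.2) = (F p - F (p.1 - p.2, p.2)) / p.2 := by
    rw [nab_of_ne (p := (p.1 - p.2, p.2)) h]
    simp
  unfold EL el
  rw [nabm_of_ne h]
  unfold br
  rw [h1, nab_of_ne h]

end Pool.Agent.MP_ae5b4e_an_SM
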