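import Mathlib
import Pool.Agent.Lib.MP_ae5b4e_an_SM.Defs

/-!
# MP_ae5b4e_an, project SMOOTH: the parametrisation of the circle (definitions)
-/

noncomputable section

namespace Pool.Agent.MP_ae5b4e_an_SM

open Complex Set Filter Topology

/-- the parametrisation `θ = ψ(t)` in which the involutions are `1/s + 1/s' = o(1)` -/
structure Psi (κ : ℝ → ℝ) (b : ℝ) (ψ : ℂ → ℂ) : Prop where
  b0 : 0 < b
  b1 : b ≤ 1
  diff : DifferentiableOn ℂ ψ {t | |t.im| < b}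
  per : ∀ t : ℂ, |t.im| < b → ψ (t + 1) = ψ t + 2 * Real.pi
  real : ∀ t : ℝ, (ψ t).im = 0
  pos : ∀ t : ℝ, 0 < (deriv ψ t).re
  ode : ∀ t : ℝ, (κ (ψ t).re : ℂ) * deriv ψ t ^ 2 = -2 * deriv (deriv ψ) t

/-- `2 sin ((ψ(t + ρ D) - ψ(t)) / 2) / ρ`, extended to `ρ = 0` -/
def Qc (ψ : ℂ → ℂ) (P : ℂ × ℂ × ℂ) : ℂ :=
  P.2.1 * dslope ψ P.1 (P.1 + P.2.2 * P.2.1) *
    dslope sin 0 (P.2.2 * P.2.1 * dslope ψ P.1 (P.1 + P.2.2 * P.2.1) / 2)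

/-- the Lagrangian -/
def Lc (ψ : ℂ → ℂ) (P : ℂ × ℂ × ℂ) : ℂ :=
  -log (Qc ψ P) + log (deriv ψ P.1) / 2 + log (deriv ψ (P.1 + P.2.2 * P.2.1)) / 2

/-- the Euler-Lagrange expression of the conic -/
def elc (ψ : ℂ → ℂ) (x y z : ℂ) : ℂ :=
  deriv ψ y / 2 * (cot ((ψ z - ψ y) / 2) - cot ((ψ y - ψ x) / 2)) + deriv (deriv ψ) y / deriv ψ y

end Pool.Agent.MP_ae5b4e_an_SM
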