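import Pool.Agent.Lib.MP_ae5b4e_an_SM.Conic
import Pool.Agent.Lib.MP_ae5b4e_an_LAT.NDGeoX
import Pool.Agent.Lib.SCV.Osgood

/-!
# MP_ae5b4e_an, project SMOOTH, module SZ: from the analytic family to the first integral
-/

noncomputable section

namespace Pool.Agent.MP_ae5b4e_an_SM

open Complex Set Filter Topology

/-- the analytic inverse function theorem -/
theorem szInv {E : Type*} [NormedAddCommGroup E] [NormedSpace ℂ E] [CompleteSpace E] {f : E → E}
    {a : E} {f' : E ≃L[ℂ] E} (hf : AnalyticAt ℂ f a) (hf' : HasFDerivAt f (f' : E →L[ℂ] E) a) :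
    ∃ g : E → E, AnalyticAt ℂ g (f a) ∧ g (f a) = a ∧ (∀ᶠ p in 𝓝 a, g (f p) = p) ∧
      ∀ᶠ q in 𝓝 (f a), f (g q) = q := by
  have hcd : ContDiffAt ℂ ⊤ f a := hf.contDiffAt
  refine ⟨hcd.localInverse hf' (by simp), ?_, ?_, ?_, ?_⟩
  · exact (hcd.to_localInverse hf' (by simp)).analyticAt
  · exact hcd.localInverse_apply_image hf' (by simp)
  · exact (hcd.hasStrictFDerivAt' hf' (by simp)).eventually_left_inverse
  · exact (hcd.hasStrictFDerivAt' hf' (by simp)).eventually_right_inverse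

theorem szInv1 {f : ℂ → ℂ} {a d : ℂ} (hf : AnalyticAt ℂ f a) (hd : HasDerivAt f d a)
    (h0 : d ≠ 0) :
    ∃ g : ℂ → ℂ, AnalyticAt ℂ g (f a) ∧ g (f a) = a ∧ (∀ᶠ p in 𝓝 a, g (f p) = p) ∧
      ∀ᶠ q in 𝓝 (f a), f (g q) = q := by
  have h1 : HasFDerivAt f
      ((ContinuousLinearEquiv.unitsEquivAut ℂ (Units.mk0 d h0) : ℂ ≃L[ℂ] ℂ) : ℂ →L[ℂ] ℂ) a := by
    convert! hd.hasFDerivAt using 1
  exact szInv hf h1

/-- the linear map `(u, v) ↦ (α u + β v, -α v)` -/
def szEquiv (α β : ℂ) (h : α ≠ 0) : (ℂ × ℂ) ≃L[ℂ] (ℂ × ℂ) :=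
  ContinuousLinearEquiv.equivOfInverse
    ((α • ContinuousLinearMap.fst ℂ ℂ ℂ + β • ContinuousLinearMap.snd ℂ ℂ ℂ).prod
      ((-α) • ContinuousLinearMap.snd ℂ ℂ ℂ))
    ((α⁻¹ • ContinuousLinearMap.fst ℂ ℂ ℂ + (β / α ^ 2) • ContinuousLinearMap.snd ℂ ℂ ℂ).prod
      ((-α⁻¹) • ContinuousLinearMap.snd ℂ ℂ ℂ))
    (by
      intro p
      ext
      · simp
        field_simp
        ring
      · simp
        field_simp)
    (by
      intro p
      ext
      · simp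
        field_simp
        ring
      · simp
        field_simp)

theorem szEquiv_apply (α β : ℂ) (h : α ≠ 0) (p : ℂ × ℂ) :
    szEquiv α β h p = (α * p.1 + β * p.2, -α * p.2) := by
  simp [szEquiv]

/-- From the one-parameter family `X(·, ρ)` of solutions of the recursion to the first integral. -/
theorem szLocal {X : ℂ × ℂ → ℂ} {t₀ α : ℂ} (hX : AnalyticAt ℂ X (t₀, 0))
    (hα : HasDerivAt (fun t => X (t, 0)) α t₀) (h0 : α ≠ 0) {kc : ℂ → ℂ} {x₀ : ℂ}
    (hx₀ : X (t₀, 0) = x₀) (hkc : AnalyticAt ℂ kc x₀)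
    (hrel : ∀ᶠ p in 𝓝 ((t₀, 0) : ℂ × ℂ), p.2 ≠ 0 → X (p.1 - p.2, p.2) ≠ X p →
      X (p.1 + p.2, p.2) ≠ X p →
      (X (p.1 + p.2, p.2) - X p)⁻¹ - (X p - X (p.1 - p.2, p.2))⁻¹ = kc (X p)) :
    Pool.Agent.MP_ae5b4e_an_ND.Good kc x₀ := by
  subst hx₀
  set a : ℂ × ℂ := (t₀, 0) with ha
  set L := fderiv ℂ X a with hL
  have hXL : HasFDerivAt X L a := hX.differentiableAt.hasFDerivAt
  set β : ℂ := L (0, 1) with hβ
  have hα' : L (1, 0) = α := by
    have h1 : HasDerivAt (fun t : ℂ => ((t, 0) : ℂ × ℂ)) (1, 0) t₀ :=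
      (hasDerivAt_id t₀).prodMk (hasDerivAt_const t₀ (0 : ℂ))
    have h2 := hXL.comp_hasDerivAt t₀ h1
    exact h2.unique hα
  let sm : ℂ × ℂ → ℂ × ℂ := fun p => (p.1 - p.2, p.2)
  let sp : ℂ × ℂ → ℂ × ℂ := fun p => (p.1 + p.2, p.2)
  have hsma : sm a = a := by simp [sm, ha]
  have hspa : sp a = a := by simp [sp, ha]
  have hsmA : AnalyticAt ℂ sm a := by
    refine AnalyticAt.prod (f := fun p : ℂ × ℂ => p.1 - p.2) (g := fun p : ℂ × ℂ => p.2) ?_ ?_
    · exact analyticAt_fst.sub analyticAt_snd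
    · exact analyticAt_snd
  have hspc : Tendsto sp (𝓝 a) (𝓝 a) := by
    have : Continuous sp := by fun_prop
    simpa [hspa] using this.tendsto a
  have hsmc : Tendsto sm (𝓝 a) (𝓝 a) := by
    have : Continuous sm := by fun_prop
    simpa [hsma] using this.tendsto a
  let Φ : ℂ × ℂ → ℂ × ℂ := fun p => (X p, X (sm p) - X p)
  have hXsm : AnalyticAt ℂ (fun p => X (sm p)) a := by
    have h1 : AnalyticAt ℂ X (sm a) := by rw [hsma]; exact hX
    exact h1.comp hsmA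
  have hΦA : AnalyticAt ℂ Φ a := hX.prod (hXsm.sub hX)
  have hΦa : Φ a = (X a, 0) := by simp [Φ, hsma]
  have hsmD : HasFDerivAt sm ((ContinuousLinearMap.fst ℂ ℂ ℂ - ContinuousLinearMap.snd ℂ ℂ ℂ).prod
      (ContinuousLinearMap.snd ℂ ℂ ℂ)) a :=
    (hasFDerivAt_fst.sub hasFDerivAt_snd).prodMk hasFDerivAt_snd
  have hΦD : HasFDerivAt Φ ((szEquiv α β h0 : (ℂ × ℂ) ≃L[ℂ] (ℂ × ℂ)) : ℂ × ℂ →L[ℂ] ℂ × ℂ) a := by
    have h1 : HasFDerivAt X L (sm a) := by rw [hsma]; exact hXL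
    have h2 := hXL.prodMk ((h1.comp a hsmD).sub hXL)
    convert! h2 using 1
    ext
    · simp [szEquiv_apply, hα']
    · simp [szEquiv_apply]
    · simp [szEquiv_apply, hβ]
    · have e : L (-1, 1) = -α + β := by
        have : ((-1, 1) : ℂ × ℂ) = (-1 : ℂ) • ((1, 0) : ℂ × ℂ) + ((0, 1) : ℂ × ℂ) := by
          ext <;> simp
        rw [this, map_add, map_smul, hα', hβ]
        simp
      simp [szEquiv_apply, e, hβ]
  obtain ⟨g, hgA, hga, hgl, hgr⟩ := szInv hΦA hΦD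
  rw [hΦa] at hgA hga hgr
  have hgc : Tendsto g (𝓝 (X a, 0)) (𝓝 a) := by
    have := hgA.continuousAt.tendsto
    rwa [hga] at this
  -- the line
  have hXl : AnalyticAt ℂ (fun t : ℂ => X (t, 0)) t₀ := by
    have h1 : AnalyticAt ℂ (fun t : ℂ => ((t, 0) : ℂ × ℂ)) t₀ := analyticAt_id.prod analyticAt_const
    exact AnalyticAt.comp (g := X) (f := fun t : ℂ => ((t, 0) : ℂ × ℂ)) hX h1
  obtain ⟨σ, hσA, hσ0, -, hσr⟩ := szInv1 hXl hα h0
  have hline : ∀ᶠ x in 𝓝 (X a), (g (x, 0)).2 = 0 := by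
    have h1 : Tendsto (fun x => ((σ x, 0) : ℂ × ℂ)) (𝓝 (X a)) (𝓝 a) := by
      have h2 := hσA.continuousAt.tendsto
      rw [hσ0] at h2
      exact h2.prodMk_nhds tendsto_const_nhds
    filter_upwards [h1.eventually hgl, hσr] with x h2 h3
    have h4 : Φ (σ x, 0) = (x, 0) := by
      simp only [Φ, sm, sub_zero, sub_self]
      rw [h3]
    rw [h4] at h2
    rw [h2]
  have hinj : ∀ᶠ p in 𝓝 a, X (sm p) = X p → p.2 = 0 := by
    have h1 : Tendsto X (𝓝 a) (𝓝 (X a)) := hX.continuousAt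
    filter_upwards [hgl, h1.eventually hline] with p h2 h3 h4
    have h5 : Φ p = (X p, 0) := by simp only [Φ, h4, sub_self]
    rw [h5] at h2
    rw [h2] at h3
    exact h3
  refine ⟨hkc, fun q => (g q).2, ?_, hline, ?_, ?_⟩
  · exact analyticAt_snd.comp hgA
  · have hS : AnalyticAt ℂ (fun q : ℂ × ℂ => (g q).2) (X a, 0) := analyticAt_snd.comp hgA
    set S : ℂ × ℂ → ℂ := fun q => (g q).2 with hSdef
    have h1 : HasFDerivAt S (fderiv ℂ S (X a, 0)) (Φ a) := by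
      rw [hΦa]
      exact hS.differentiableAt.hasFDerivAt
    have h2 := h1.comp a hΦD
    have h3 : HasFDerivAt (S ∘ Φ) (ContinuousLinearMap.snd ℂ ℂ ℂ) a := by
      refine HasFDerivAt.congr_of_eventuallyEq (f := fun p : ℂ × ℂ => p.2) hasFDerivAt_snd ?_
      filter_upwards [hgl] with p hp
      simp only [Function.comp_apply, hSdef, hp]
    have h4 := h2.unique h3
    have h5 := DFunLike.congr_fun h4 (-(β / α) * (-α⁻¹), -α⁻¹)
    have h6 : szEquiv α β h0 (-(β / α) * (-α⁻¹), -α⁻¹) = (0, 1) := by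
      rw [szEquiv_apply]
      ext
      · simp
        field_simp
        ring
      · simp [h0]
    rw [ContinuousLinearMap.comp_apply, ContinuousLinearEquiv.coe_coe, h6] at h5
    have h7 : HasDerivAt (fun y : ℂ => ((X a, y) : ℂ × ℂ)) (0, 1) 0 :=
      (hasDerivAt_const (0 : ℂ) (X a)).prodMk (hasDerivAt_id (0 : ℂ))
    have h8 : HasDerivAt (fun y => S (X a, y)) (fderiv ℂ S (X a, 0) (0, 1)) 0 :=
      hS.differentiableAt.hasFDerivAt.comp_hasDerivAt (0 : ℂ) h7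
    rw [h8.deriv, h5]
    simp [h0]
  · have h1 : ∀ᶠ p in 𝓝 a, (g (Pool.Agent.MP_ae5b4e_an_ND.TT kc (Φ p))).2 = (g (Φ p)).2 := by
      filter_upwards [hgl, hspc.eventually hgl, hrel, hinj, hspc.eventually hinj]
        with p h2 h3 h4 h5 h6
      by_cases hp : p.2 = 0
      · have h7 : Φ p = (X p, 0) := by
          have : sm p = p := by
            ext <;> simp [sm, hp]
          simp only [Φ, this, sub_self]
        have h8 : Pool.Agent.MP_ae5b4e_an_ND.TT kc (Φ p) = Φ p := by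
          rw [h7, Pool.Agent.MP_ae5b4e_an_ND.TT_apply]
          simp
        rw [h8]
      · have h7 : sm (sp p) = p := by
          ext <;> simp [sm, sp]
        have hm : X (sm p) ≠ X p := fun h => hp (h5 h)
        have hpl : X (sp p) ≠ X p := by
          intro h
          rw [h7] at h6
          exact hp (h6 h.symm)
        have h8 := h4 hp hm hpl
        have h9 : Pool.Agent.MP_ae5b4e_an_ND.TT kc (Φ p) = Φ (sp p) := by
          have hy : X (sm p) - X p ≠ 0 := sub_ne_zero.2 hm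
          have hz : X (sp p) - X p ≠ 0 := sub_ne_zero.2 hpl
          have e1 : kc (X p) = (X (sp p) - X p)⁻¹ + (X (sm p) - X p)⁻¹ := by
            rw [← h8]
            have : (X p - X (sm p))⁻¹ = -(X (sm p) - X p)⁻¹ := by
              rw [← neg_sub, inv_neg]
            change (X (sp p) - X p)⁻¹ - (X p - X (sm p))⁻¹ = _
            rw [this]
            ring
          have e2 : (X (sm p) - X p) / (1 - kc (X p) * (X (sm p) - X p)) = X p - X (sp p) := by
            have e3 : 1 - kc (X p) * (X (sm p) - X p) = -(X (sm p) - X p) / (X (sp p) - X p) := by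
              rw [e1]
              field_simp
              ring
            rw [e3, div_div_eq_mul_div, div_neg, mul_comm, mul_div_assoc, div_self hy]
            ring
          change Pool.Agent.MP_ae5b4e_an_ND.TT kc (X p, X (sm p) - X p) =
            (X (sp p), X (sm (sp p)) - X (sp p))
          rw [Pool.Agent.MP_ae5b4e_an_ND.TT_apply, e2, h7]
          ext
          · simp
          · rfl
        rw [h9, h3, h2]
    filter_upwards [hgc.eventually h1, hgr] with q h2 h3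
    rw [h3] at h2
    exact h2

/-- differences of cotangents in terms of the half angle coordinates -/
theorem szCot {A B : ℂ} (hA : cos A ≠ 0) (hB : cos B ≠ 0) (h : tan B ≠ tan A) :
    cot (B - A) = (1 + tan A * tan B) / (tan B - tan A) := by
  have h1 : sin (B - A) = cos A * cos B * (tan B - tan A) := by
    rw [sin_sub, tan_eq_sin_div_cos, tan_eq_sin_div_cos]
    field_simp
  have h2 : cos (B - A) = cos A * cos B * (1 + tan A * tan B) := by
    rw [cos_sub, tan_eq_sin_div_cos, tan_eq_sin_div_cos]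
    field_simp
  have h3 : tan B - tan A ≠ 0 := sub_ne_zero.2 h
  change cos (B - A) / sin (B - A) = _
  rw [h1, h2]
  field_simp

/-- the recursion in the half angle coordinate -/
theorem szRec {x xp xm K : ℂ} (hx : 1 + x ^ 2 ≠ 0) (hp : xp ≠ x) (hm : xm ≠ x)
    (h : (1 + x * xp) / (xp - x) - (1 + xm * x) / (x - xm) = K) :
    (xp - x)⁻¹ - (x - xm)⁻¹ = (K - 2 * x) / (1 + x ^ 2) := by
  have h1 : xp - x ≠ 0 := sub_ne_zero.2 hp
  have h2 : x - xm ≠ 0 := sub_ne_zero.2 hm.symm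
  rw [← h]
  field_simp
  ring

theorem szTanA {z : ℂ} (h : cos z ≠ 0) : AnalyticAt ℂ tan z := by
  have h1 : AnalyticAt ℂ (fun w => sin w / cos w) z :=
    (differentiable_sin.analyticAt z).div (differentiable_cos.analyticAt z) h
  refine h1.congr ?_
  filter_upwards with w
  exact (tan_eq_sin_div_cos w).symm

theorem good_conic {κ : ℝ → ℝ} {b : ℝ} {ψ : ℂ → ℂ} (h : Psi κ b ψ) {c r κ' : ℝ}
    {F : ℂ × ℂ → ℂ} (hF : GF c r κ' F) (hc : 0 < c) (hr : 0 < r) (hκ' : κ' ≤ 1 / 16)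
    (hcb : c + κ' < b) (hper : ∀ θ, κ (θ + 2 * Real.pi) = κ θ)
    (hel : ∀ p ∈ Dm {-1, 0, 1} c r, p.2 ≠ 0 →
      elc ψ (F (p.1 - p.2, p.2)) (F p) (F (p.1 + p.2, p.2)) = 0) :
    ∃ (x₀ : ℝ) (kc : ℂ → ℂ), Pool.Agent.MP_ae5b4e_an_ND.Good kc x₀ ∧
      ∀ᶠ x : ℝ in 𝓝 x₀, kc x = ((Pool.Agent.MP_ae5b4e_an_GeoX.kick κ x : ℝ) : ℂ) := by
  -- the family
  have hFd : DifferentiableOn ℂ F (Dm {0} c r) := by
    have h1 : DifferentiableOn ℂ (fun p : ℂ × ℂ => (F p - p.1) + p.1) (Dm {0} c r) :=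
      hF.ap.diff.add differentiableOn_fst
    refine h1.congr fun p _ => ?_
    ring
  have hmem0 : ∀ t : ℝ, ((t : ℂ), (0 : ℂ)) ∈ Dm {0} c r := by
    intro t
    rw [mem_Dm]
    simp [hc, hr]
  have hmem3 : ∀ t : ℝ, ((t : ℂ), (0 : ℂ)) ∈ Dm {-1, 0, 1} c r := by
    intro t
    rw [mem_Dm]
    simp [hc, hr]
  have hFreal : ∀ t : ℝ, F (t, 0) = (((F (t, 0)).re : ℝ) : ℂ) := by
    intro t
    have h1 := hF.ap.real _ (hmem0 t) (by simp) (by simp)
    apply Complex.ext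
    · simp
    · simpa using h1
  have hψreal : ∀ t : ℝ, ψ t = (((ψ t).re : ℝ) : ℂ) := by
    intro t
    apply Complex.ext
    · simp
    · simpa using h.real t
  have hstrip : IsOpen {t : ℂ | |t.im| < b} :=
    isOpen_lt (continuous_abs.comp continuous_im) continuous_const
  have hψA : ∀ t : ℝ, AnalyticAt ℂ ψ t := by
    intro t
    refine h.diff.analyticAt (hstrip.mem_nhds ?_)
    simp [h.b0]
  -- the base point
  set th : ℝ → ℝ := fun t => (ψ (F (t, 0))).re with hth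
  have hthc : Continuous th := by
    rw [continuous_iff_continuousAt]
    intro t
    have h1 : ContinuousAt F ((t : ℂ), 0) :=
      hFd.continuousOn.continuousAt ((isOpen_Dm _ _ _).mem_nhds (hmem0 t))
    have h2 : ContinuousAt (fun s : ℝ => ((s : ℂ), (0 : ℂ))) t := by fun_prop
    have h3 : ContinuousAt (fun s : ℝ => F (s, 0)) t := by
      exact ContinuousAt.comp (g := F) (f := fun s : ℝ => ((s : ℂ), (0 : ℂ))) h1 h2
    have h4 : ContinuousAt ψ (F (t, 0)) := by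
      rw [hFreal t]
      exact (hψA _).continuousAt
    exact continuous_re.continuousAt.comp
      (ContinuousAt.comp (g := ψ) (f := fun s : ℝ => F (s, 0)) h4 h3)
  have hth1 : ∀ t, th (t + 1) = th t + 2 * Real.pi := by
    intro t
    have h1 := hF.ap.per _ (hmem0 t)
    have h2 : F ((t : ℂ) + 1, 0) = F (t, 0) + 1 := by
      have h3 : F ((t : ℂ) + 1, 0) - ((t : ℂ) + 1) = F ((t : ℂ), 0) - t := h1
      linear_combination h3
    have h3 : ψ (F (t, 0) + 1) = ψ (F (t, 0)) + 2 * Real.pi := by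
      apply h.per
      rw [hFreal t]
      simp [h.b0]
    simp only [hth]
    rw [ofReal_add, ofReal_one, h2, h3]
    simp
  have hthn : ∀ n : ℕ, th n = th 0 + n * (2 * Real.pi) ∧ th (-(n : ℝ)) = th 0 - n * (2 * Real.pi) := by
    intro n
    induction n with
    | zero => simp
    | succ n ih =>
      refine ⟨?_, ?_⟩
      · push_cast
        rw [hth1, ih.1]
        ring
      · have h1 := hth1 (-((n + 1 : ℕ) : ℝ))
        have h2 : -((n + 1 : ℕ) : ℝ) + 1 = -(n : ℝ) := by push_cast; ring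
        rw [h2, ih.2] at h1
        push_cast at h1 ⊢
        linarith
  obtain ⟨t₀, ht₀⟩ : ∃ t₀, th t₀ = 0 := by
    obtain ⟨n, hn⟩ := exists_nat_ge (|th 0| / (2 * Real.pi))
    have h2π : (0 : ℝ) < 2 * Real.pi := by positivity
    have h1 : |th 0| ≤ n * (2 * Real.pi) := (div_le_iff₀ h2π).1 hn
    have h2 := abs_le.1 h1
    have h3 : (0 : ℝ) ∈ range th := by
      refine mem_range_of_exists_le_of_exists_ge hthc ⟨-(n : ℝ), ?_⟩ ⟨n, ?_⟩
      · rw [(hthn n).2]; linarith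
      · rw [(hthn n).1]; linarith
    exact h3
  set τ₀ : ℝ := (F (t₀, 0)).re with hτ₀
  have hFt₀ : F (t₀, 0) = (τ₀ : ℂ) := hFreal t₀
  have hψτ : ψ τ₀ = 0 := by
    rw [hψreal τ₀]
    have : (ψ τ₀).re = 0 := by
      rw [← hFt₀]
      exact ht₀
    rw [this]
    simp
  have hd1 : deriv ψ τ₀ ≠ 0 := by
    intro h1
    have h2 := h.pos τ₀
    rw [h1] at h2
    simp at h2
  -- the half angle coordinate
  have hcos0 : cos (ψ τ₀ / 2) ≠ 0 := by simp [hψτ]
  let hh : ℂ → ℂ := fun z => tan (ψ z / 2)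
  have hhA : AnalyticAt ℂ hh τ₀ := by
    have h1 : AnalyticAt ℂ (fun z => ψ z / 2) τ₀ := (hψA τ₀).div_const
    exact AnalyticAt.comp (g := tan) (f := fun z => ψ z / 2) (szTanA hcos0) h1
  have hhD : HasDerivAt hh (deriv ψ τ₀ / 2) τ₀ := by
    have h1 : HasDerivAt (fun z => ψ z / 2) (deriv ψ τ₀ / 2) τ₀ :=
      (hψA τ₀).differentiableAt.hasDerivAt.div_const 2
    have h2 := (hasDerivAt_tan hcos0).comp (τ₀ : ℂ) h1
    convert! h2 using 1
    simp [hψτ]
  have hhτ : hh τ₀ = 0 := by simp [hh, hψτ]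
  have hd2 : deriv ψ τ₀ / 2 ≠ 0 := div_ne_zero hd1 two_ne_zero
  obtain ⟨σ, hσA, hσ0, hσl, hσr⟩ := szInv1 hhA hhD hd2
  rw [hhτ] at hσA hσ0 hσr
  have hσc : Tendsto σ (𝓝 0) (𝓝 (τ₀ : ℂ)) := by
    have := hσA.continuousAt.tendsto
    rwa [hσ0] at this
  have hψ1A : AnalyticAt ℂ (deriv ψ) τ₀ := (hψA τ₀).deriv
  have hψ2A : AnalyticAt ℂ (deriv (deriv ψ)) τ₀ := hψ1A.deriv
  let kap : ℂ → ℂ := fun x => -2 * deriv (deriv ψ) (σ x) / deriv ψ (σ x) ^ 2
  let kc : ℂ → ℂ := fun x => (kap x - 2 * x) / (1 + x ^ 2)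
  have hkcA : AnalyticAt ℂ kc 0 := by
    have h1 : AnalyticAt ℂ (fun x => deriv ψ (σ x)) 0 := by
      refine AnalyticAt.comp (g := deriv ψ) (f := σ) ?_ hσA
      rw [hσ0]
      exact hψ1A
    have h2 : AnalyticAt ℂ (fun x => deriv (deriv ψ) (σ x)) 0 := by
      refine AnalyticAt.comp (g := deriv (deriv ψ)) (f := σ) ?_ hσA
      rw [hσ0]
      exact hψ2A
    have h3 : AnalyticAt ℂ kap 0 := by
      refine (analyticAt_const.mul h2).div (h1.pow 2) ?_
      rw [hσ0]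
      exact pow_ne_zero 2 hd1
    refine (h3.sub (analyticAt_const.mul analyticAt_id)).div
      (analyticAt_const.add (analyticAt_id.pow 2)) ?_
    simp
  -- the family in the half angle coordinate
  set a : ℂ × ℂ := ((t₀ : ℂ), 0) with ha
  have hFA : AnalyticAt ℂ F a := by
    exact Pool.Agent.SCV.differentiableOn_analyticOnNhd _ (isOpen_Dm _ _ _) F hFd a (hmem0 t₀)
  have hFa : F a = τ₀ := hFt₀
  let X : ℂ × ℂ → ℂ := fun p => hh (F p)
  have hXA : AnalyticAt ℂ X a := by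
    refine AnalyticAt.comp (g := hh) (f := F) ?_ hFA
    rw [hFa]
    exact hhA
  have hdt : dt F a ≠ 0 := by
    intro h1
    have h2 := hF.dt1 a (hmem0 t₀)
    rw [h1] at h2
    simp at h2
    linarith
  have hXD : HasDerivAt (fun t => X (t, 0)) (deriv ψ τ₀ / 2 * dt F a) t₀ := by
    have h1 : DifferentiableAt ℂ (fun s => F (s, 0)) t₀ := by
      have h2 : DifferentiableAt ℂ F ((t₀ : ℂ), 0) := hFA.differentiableAt
      have h3 : DifferentiableAt ℂ (fun s : ℂ => ((s, 0) : ℂ × ℂ)) t₀ := by fun_prop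
      exact DifferentiableAt.comp (t₀ : ℂ) (g := F) (f := fun s : ℂ => ((s, 0) : ℂ × ℂ)) h2 h3
    have h2 : HasDerivAt (fun s => F (s, 0)) (dt F a) t₀ := h1.hasDerivAt
    have h3 : HasDerivAt hh (deriv ψ τ₀ / 2) (F (t₀, 0)) := by
      rw [hFt₀]
      exact hhD
    exact h3.comp (t₀ : ℂ) h2
  have hXa : X ((t₀ : ℂ), 0) = 0 := by
    change hh (F (t₀, 0)) = 0
    rw [hFt₀, hhτ]
  have hFc : Tendsto F (𝓝 a) (𝓝 (τ₀ : ℂ)) := by
    have := hFA.continuousAt.tendsto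
    rwa [hFa] at this
  have hcosE : ∀ᶠ z in 𝓝 (τ₀ : ℂ), cos (ψ z / 2) ≠ 0 := by
    have h1 : ContinuousAt (fun z => cos (ψ z / 2)) τ₀ :=
      ContinuousAt.comp (g := cos) (f := fun z => ψ z / 2) continuous_cos.continuousAt
        ((hψA τ₀).continuousAt.div_const 2)
    exact h1.eventually_ne hcos0
  have hderE : ∀ᶠ z in 𝓝 (τ₀ : ℂ), deriv ψ z ≠ 0 := hψ1A.continuousAt.eventually_ne hd1
  refine ⟨0, kc, ?_, ?_⟩
  · have hX0 : Tendsto X (𝓝 a) (𝓝 0) := by
      have := hXA.continuousAt.tendsto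
      rwa [show X a = 0 from hXa] at this
    have hsp : Tendsto (fun p : ℂ × ℂ => (p.1 + p.2, p.2)) (𝓝 a) (𝓝 a) := by
      have h1 : Continuous (fun p : ℂ × ℂ => (p.1 + p.2, p.2)) := by fun_prop
      simpa [ha] using h1.tendsto a
    have hsm : Tendsto (fun p : ℂ × ℂ => (p.1 - p.2, p.2)) (𝓝 a) (𝓝 a) := by
      have h1 : Continuous (fun p : ℂ × ℂ => (p.1 - p.2, p.2)) := by fun_prop
      simpa [ha] using h1.tendsto a
    have h1x : ∀ᶠ x in 𝓝 (0 : ℂ), 1 + x ^ 2 ≠ 0 := by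
      have h2 : ContinuousAt (fun x : ℂ => 1 + x ^ 2) 0 := by fun_prop
      exact h2.eventually_ne (by simp)
    rw [ofReal_zero]
    refine szLocal hXA hXD (mul_ne_zero hd2 hdt) hXa hkcA ?_
    filter_upwards [(isOpen_Dm {-1, 0, 1} c r).mem_nhds (hmem3 t₀), hFc.eventually hcosE,
      (hFc.comp hsp).eventually hcosE, (hFc.comp hsm).eventually hcosE, hFc.eventually hderE,
      hFc.eventually hσl, hX0.eventually h1x] with p hp1 hp2 hp3 hp4 hp5 hp6 hp7 hρ hm hpl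
    have e1 := hel p hp1 hρ
    unfold elc at e1
    simp only [Function.comp_apply] at hp3 hp4
    have e2 : (ψ (F (p.1 + p.2, p.2)) - ψ (F p)) / 2 =
        ψ (F (p.1 + p.2, p.2)) / 2 - ψ (F p) / 2 := by ring
    have e3 : (ψ (F p) - ψ (F (p.1 - p.2, p.2))) / 2 =
        ψ (F p) / 2 - ψ (F (p.1 - p.2, p.2)) / 2 := by ring
    rw [e2, e3, szCot hp2 hp3 hpl, szCot hp4 hp2 hm.symm] at e1
    refine szRec hp7 hpl hm ?_
    change (1 + tan (ψ (F p) / 2) * tan (ψ (F (p.1 + p.2, p.2)) / 2)) /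
        (tan (ψ (F (p.1 + p.2, p.2)) / 2) - tan (ψ (F p) / 2)) -
      (1 + tan (ψ (F (p.1 - p.2, p.2)) / 2) * tan (ψ (F p) / 2)) /
        (tan (ψ (F p) / 2) - tan (ψ (F (p.1 - p.2, p.2)) / 2)) =
      -2 * deriv (deriv ψ) (σ (hh (F p))) / deriv ψ (σ (hh (F p))) ^ 2
    rw [hp6]
    set Q := (1 + tan (ψ (F p) / 2) * tan (ψ (F (p.1 + p.2, p.2)) / 2)) /
        (tan (ψ (F (p.1 + p.2, p.2)) / 2) - tan (ψ (F p) / 2)) -
      (1 + tan (ψ (F (p.1 - p.2, p.2)) / 2) * tan (ψ (F p) / 2)) /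
        (tan (ψ (F p) / 2) - tan (ψ (F (p.1 - p.2, p.2)) / 2)) with hQ
    field_simp at e1 ⊢
    linear_combination e1
  · -- real points
    have hre : HasStrictDerivAt (fun x : ℝ => (hh x).re) (deriv ψ τ₀ / 2).re τ₀ := by
      have h1 : HasStrictDerivAt hh (deriv ψ τ₀ / 2) (τ₀ : ℂ) := by
        have h2 := hhA.hasStrictDerivAt
        rwa [hhD.deriv] at h2
      exact h1.real_of_complex
    have hre0 : (deriv ψ τ₀ / 2).re ≠ 0 := by
      have h1 := h.pos τ₀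
      have h2 : (deriv ψ τ₀ / 2).re = (deriv ψ τ₀).re / 2 := by simp
      rw [h2]
      positivity
    have hmap := hre.map_nhds_eq hre0
    have h00 : (hh τ₀).re = 0 := by rw [hhτ]; simp
    rw [h00] at hmap
    have hofR : Tendsto (fun x : ℝ => (x : ℂ)) (𝓝 τ₀) (𝓝 (τ₀ : ℂ)) :=
      continuous_ofReal.tendsto τ₀
    have hbd : ∀ᶠ t : ℝ in 𝓝 τ₀, |(ψ t).re / 2| < Real.pi / 2 := by
      have h1 : ContinuousAt (fun t : ℝ => |(ψ t).re / 2|) τ₀ := by
        have h2 : ContinuousAt (fun t : ℝ => ψ (t : ℂ)) τ₀ :=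
          ContinuousAt.comp (g := ψ) (f := fun t : ℝ => (t : ℂ)) (hψA τ₀).continuousAt
            continuous_ofReal.continuousAt
        exact ((continuous_re.continuousAt.comp h2).div_const 2).abs
      have h2 : |(ψ τ₀).re / 2| < Real.pi / 2 := by
        rw [hψτ]
        simp
        positivity
      exact h1.eventually_lt_const h2
    have hP : ∀ᶠ t : ℝ in 𝓝 τ₀, σ (hh t) = t ∧ deriv ψ (t : ℂ) ≠ 0 ∧
        |(ψ t).re / 2| < Real.pi / 2 :=
      (hofR.eventually hσl).and ((hofR.eventually hderE).and hbd)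
    have hex : ∀ᶠ x : ℝ in 𝓝 0, ∃ t : ℝ, (σ (hh t) = t ∧ deriv ψ (t : ℂ) ≠ 0 ∧
        |(ψ t).re / 2| < Real.pi / 2) ∧ (hh t).re = x := by
      rw [← hmap]
      rw [eventually_map]
      filter_upwards [hP] with t ht
      exact ⟨t, ht, rfl⟩
    filter_upwards [hex] with x hx
    obtain ⟨t, ⟨ht1, ht2, ht3⟩, ht4⟩ := hx
    have h1 : hh t = ((Real.tan ((ψ t).re / 2) : ℝ) : ℂ) := by
      change tan (ψ t / 2) = _
      rw [hψreal t]
      push_cast
      simp
    have h2 : Real.tan ((ψ t).re / 2) = x := by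
      rw [← ht4, h1, ofReal_re]
    have h3 : (ψ t).re / 2 = Real.arctan x := by
      rw [← h2, Real.arctan_tan (by linarith [(abs_lt.1 ht3).1]) (abs_lt.1 ht3).2]
    have h4 : (ψ t).re = 2 * Real.arctan x := by linarith
    have h5 : σ (x : ℂ) = t := by
      rw [← h2, ← h1, ht1]
    have h6 : kap x = (κ (2 * Real.arctan x) : ℂ) := by
      change -2 * deriv (deriv ψ) (σ x) / deriv ψ (σ x) ^ 2 = _
      rw [h5, ← h4, div_eq_iff (pow_ne_zero 2 ht2), ← h.ode t]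
    change (kap x - 2 * x) / (1 + (x : ℂ) ^ 2) = _
    rw [h6]
    unfold Pool.Agent.MP_ae5b4e_an_GeoX.kick
    push_cast
    rfl

end Pool.Agent.MP_ae5b4e_an_SM
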