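import Mathlib
import Pool.Agent.Lib.MP_ae5b4e_an_SM.Defs

/-!
# MP_ae5b4e_an, project SMOOTH, module SL: contraction with a parameter, linear Dirichlet problem
-/

noncomputable section

namespace Pool.Agent.MP_ae5b4e_an_SM

open Complex Set Filter Topology

private def contrSeq {V : Type*} [NormedAddCommGroup V] (Φ : ℂ → V → V) : ℕ → ℂ → V
  | 0, _ => 0
  | n + 1, t => Φ t (contrSeq Φ n t)

theorem contr {V : Type*} [NormedAddCommGroup V] [NormedSpace ℂ V] [CompleteSpace V]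
    (U : Set ℂ) (hU : IsOpen U) (Φ : ℂ → V → V) (R : ℝ) (hR : 0 < R)
    (hmap : ∀ t ∈ U, ∀ y : V, ‖y‖ ≤ R → ‖Φ t y‖ ≤ R)
    (hlip : ∀ t ∈ U, ∀ y y' : V, ‖y‖ ≤ R → ‖y'‖ ≤ R → ‖Φ t y - Φ t y'‖ ≤ 1 / 2 * ‖y - y'‖)
    (hhol : ∀ y : ℂ → V, DifferentiableOn ℂ y U → (∀ t ∈ U, ‖y t‖ ≤ R) →
      DifferentiableOn ℂ (fun t => Φ t (y t)) U)
    (C : Set V) (hC : IsClosed C) (hC0 : (0 : V) ∈ C)
    (hreal : ∀ t ∈ U, t.im = 0 → ∀ y ∈ C, ‖y‖ ≤ R → Φ t y ∈ C) :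
    ∃ y : ℂ → V, DifferentiableOn ℂ y U ∧ (∀ t ∈ U, ‖y t‖ ≤ R ∧ Φ t (y t) = y t) ∧
      ∀ t ∈ U, t.im = 0 → y t ∈ C := by
  have hbd : ∀ n, ∀ t ∈ U, ‖contrSeq Φ n t‖ ≤ R := by
    intro n
    induction n with
    | zero => intro t _; simpa [contrSeq] using hR.le
    | succ n ih => intro t ht; exact hmap t ht _ (ih t ht)
  have hdf : ∀ n, DifferentiableOn ℂ (contrSeq Φ n) U := by
    intro n
    induction n with
    | zero => exact (differentiableOn_const (0 : V)).congr fun t _ => rfl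
    | succ n ih => exact (hhol _ ih (hbd n)).congr fun t _ => rfl
  have hre : ∀ n, ∀ t ∈ U, t.im = 0 → contrSeq Φ n t ∈ C := by
    intro n
    induction n with
    | zero => intro t _ _; exact hC0
    | succ n ih => intro t ht h0; exact hreal t ht h0 _ (ih t ht h0) (hbd n t ht)
  have hst : ∀ n, ∀ t ∈ U, dist (contrSeq Φ n t) (contrSeq Φ (n + 1) t) ≤ R * (1 / 2) ^ n := by
    intro n
    induction n with
    | zero =>
      intro t ht
      have h := hbd 1 t ht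
      have e : contrSeq Φ 0 t = 0 := rfl
      rw [dist_comm, dist_eq_norm, e, sub_zero, pow_zero, mul_one]
      exact h
    | succ n ih =>
      intro t ht
      have h := hlip t ht _ _ (hbd n t ht) (hbd (n + 1) t ht)
      have h2 := ih t ht
      rw [dist_eq_norm] at h2 ⊢
      calc ‖contrSeq Φ (n + 1) t - contrSeq Φ (n + 1 + 1) t‖
          ≤ 1 / 2 * ‖contrSeq Φ n t - contrSeq Φ (n + 1) t‖ := h
        _ ≤ 1 / 2 * (R * (1 / 2) ^ n) := by linarith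
        _ = R * (1 / 2) ^ (n + 1) := by ring
  have hlim : ∀ t ∈ U, ∃ a : V, Tendsto (fun n => contrSeq Φ n t) atTop (𝓝 a) := fun t ht =>
    cauchySeq_tendsto_of_complete
      (cauchySeq_of_le_geometric (1 / 2) R (by norm_num) fun n => hst n t ht)
  classical
  choose! y hy using hlim
  have hdist : ∀ n, ∀ t ∈ U, dist (contrSeq Φ n t) (y t) ≤ R * (1 / 2) ^ n / (1 - 1 / 2) :=
    fun n t ht => dist_le_of_le_geometric_of_tendsto (1 / 2) R (by norm_num)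
      (fun n => hst n t ht) (hy t ht) n
  have h0 : Tendsto (fun n : ℕ => R * (1 / 2 : ℝ) ^ n / (1 - 1 / 2)) atTop (𝓝 0) := by
    have h1 : Tendsto (fun n : ℕ => (1 / 2 : ℝ) ^ n) atTop (𝓝 0) :=
      tendsto_pow_atTop_nhds_zero_of_lt_one (by norm_num) (by norm_num)
    have h2 := (h1.const_mul R).div_const (1 - 1 / 2 : ℝ)
    simpa using h2
  have hunif : TendstoUniformlyOn (contrSeq Φ) y atTop U := by
    rw [Metric.tendstoUniformlyOn_iff]
    intro ε hε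
    filter_upwards [h0.eventually (gt_mem_nhds hε)] with n hn t ht
    rw [dist_comm]
    exact (hdist n t ht).trans_lt hn
  have hyR : ∀ t ∈ U, ‖y t‖ ≤ R := fun t ht =>
    le_of_tendsto (hy t ht).norm (Eventually.of_forall fun n => hbd n t ht)
  refine ⟨y, ?_, ?_, ?_⟩
  · exact hunif.tendstoLocallyUniformlyOn.differentiableOn
      (Eventually.of_forall fun n => hdf n) hU
  · intro t ht
    refine ⟨hyR t ht, ?_⟩
    have h1 : Tendsto (fun n => contrSeq Φ (n + 1) t) atTop (𝓝 (y t)) :=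
      (hy t ht).comp (tendsto_add_atTop_nat 1)
    have h2 : Tendsto (fun n => contrSeq Φ (n + 1) t) atTop (𝓝 (Φ t (y t))) := by
      rw [tendsto_iff_dist_tendsto_zero]
      refine squeeze_zero (fun n => dist_nonneg) (fun n => ?_)
        (tendsto_iff_dist_tendsto_zero.1 (hy t ht))
      have h3 := hlip t ht _ _ (hbd n t ht) (hyR t ht)
      rw [dist_eq_norm, dist_eq_norm]
      calc ‖contrSeq Φ (n + 1) t - Φ t (y t)‖ ≤ 1 / 2 * ‖contrSeq Φ n t - y t‖ := h3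
        _ ≤ ‖contrSeq Φ n t - y t‖ := by
          have := norm_nonneg (contrSeq Φ n t - y t)
          linarith
    exact tendsto_nhds_unique h2 h1
  · intro t ht him
    exact hC.mem_of_tendsto (hy t ht) (Eventually.of_forall fun n => hre n t ht him)

/-- The linear Dirichlet problem `(a ∇y)_j - (a ∇y)_{j-1} = ρ R_j` (`0 < j < q`), `y_0 = y_q = 0`,
explicitly. -/
def green (q : ℕ) (ρ : ℂ) (a R : ℕ → ℂ) (j : ℕ) : ℂ :=
  ∑ i ∈ Finset.range j, ρ * ((-ρ * (∑ l ∈ Finset.range q, (a l)⁻¹ * ∑ k ∈ Finset.Ioc 0 l, R k) /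
    (∑ l ∈ Finset.range q, (a l)⁻¹) + ρ * ∑ k ∈ Finset.Ioc 0 i, R k) / a i)

private lemma green_succ (q : ℕ) (ρ : ℂ) (a R : ℕ → ℂ) (j : ℕ) :
    green q ρ a R (j + 1) - green q ρ a R j =
      ρ * ((-ρ * (∑ l ∈ Finset.range q, (a l)⁻¹ * ∑ k ∈ Finset.Ioc 0 l, R k) /
    (∑ l ∈ Finset.range q, (a l)⁻¹) + ρ * ∑ k ∈ Finset.Ioc 0 j, R k) / a j) := by
  unfold green
  rw [Finset.sum_range_succ]
  ring

theorem green_spec {q : ℕ} (hq : 0 < q) {ρ : ℂ} (hρ : ρ ≠ 0) {a R : ℕ → ℂ} {s : ℝ}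
    (ha : ∀ j < q, ‖a j - 1‖ ≤ 1 / 4) (hR : ∀ j < q, 0 < j → ‖R j‖ ≤ s) (hs : 0 ≤ s) :
    green q ρ a R 0 = 0 ∧ green q ρ a R q = 0 ∧
    (∀ j, j + 1 < q → a (j + 1) * ((green q ρ a R (j + 2) - green q ρ a R (j + 1)) / ρ) -
      a j * ((green q ρ a R (j + 1) - green q ρ a R j) / ρ) = ρ * R (j + 1)) ∧
    (∀ j ≤ q, ‖green q ρ a R j‖ ≤ 4 * ‖ρ‖ ^ 2 * q ^ 2 * s) ∧
    (∀ j < q, ‖(green q ρ a R (j + 1) - green q ρ a R j) / ρ‖ ≤ 4 * ‖ρ‖ * q * s) := by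
  have hanorm : ∀ j < q, 3 / 4 ≤ ‖a j‖ := by
    intro j hj
    have h1 := ha j hj
    have h2 : ‖(1 : ℂ)‖ ≤ ‖a j‖ + ‖a j - 1‖ := by
      calc ‖(1 : ℂ)‖ = ‖a j - (a j - 1)‖ := by ring_nf
        _ ≤ ‖a j‖ + ‖a j - 1‖ := norm_sub_le _ _
    rw [norm_one] at h2
    linarith
  have ha0 : ∀ j < q, a j ≠ 0 := by
    intro j hj h
    have := hanorm j hj
    rw [h, norm_zero] at this
    linarith
  have hinv : ∀ j < q, ‖(a j)⁻¹‖ ≤ 4 / 3 := by
    intro j hj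
    rw [norm_inv]
    have := hanorm j hj
    calc ‖a j‖⁻¹ ≤ (3 / 4)⁻¹ := inv_anti₀ (by norm_num) this
      _ = 4 / 3 := by norm_num
  have hre : ∀ j < q, 2 / 3 ≤ ((a j)⁻¹).re := by
    intro j hj
    have h0 := ha0 j hj
    have h1 : (a j)⁻¹ - 1 = -((a j - 1) * (a j)⁻¹) := by
      field_simp
      ring
    have h2 : ‖(a j)⁻¹ - 1‖ ≤ 1 / 3 := by
      rw [h1, norm_neg, norm_mul]
      calc ‖a j - 1‖ * ‖(a j)⁻¹‖ ≤ 1 / 4 * (4 / 3) :=
            mul_le_mul (ha j hj) (hinv j hj) (norm_nonneg _) (by norm_num)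
        _ = 1 / 3 := by norm_num
    have h3 := (abs_re_le_norm ((a j)⁻¹ - 1)).trans h2
    rw [sub_re, one_re, abs_le] at h3
    linarith [h3.1]
  set A : ℂ := ∑ l ∈ Finset.range q, (a l)⁻¹ with hA
  have hAre : 2 / 3 * (q : ℝ) ≤ A.re := by
    rw [hA, re_sum]
    calc 2 / 3 * (q : ℝ) = ∑ l ∈ Finset.range q, (2 / 3 : ℝ) := by
          rw [Finset.sum_const, Finset.card_range, nsmul_eq_mul]; ring
      _ ≤ ∑ l ∈ Finset.range q, ((a l)⁻¹).re :=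
          Finset.sum_le_sum fun l hl => hre l (Finset.mem_range.1 hl)
  have hq' : (0 : ℝ) < q := by exact_mod_cast hq
  have hAn : 2 / 3 * (q : ℝ) ≤ ‖A‖ := hAre.trans ((le_abs_self _).trans (abs_re_le_norm A))
  have hA0 : A ≠ 0 := by
    intro h
    rw [h, norm_zero] at hAn
    nlinarith
  set B : ℂ := ∑ l ∈ Finset.range q, (a l)⁻¹ * ∑ k ∈ Finset.Ioc 0 l, R k with hB
  set b : ℕ → ℂ := fun i => -ρ * B / A + ρ * ∑ k ∈ Finset.Ioc 0 i, R k with hb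
  have hsucc : ∀ j, green q ρ a R (j + 1) - green q ρ a R j = ρ * (b j / a j) := fun j =>
    green_succ q ρ a R j
  have hgreen : ∀ j, green q ρ a R j = ∑ i ∈ Finset.range j, ρ * (b i / a i) := fun j => rfl
  have hS : ∀ l < q, ‖∑ k ∈ Finset.Ioc 0 l, R k‖ ≤ q * s := by
    intro l hl
    calc ‖∑ k ∈ Finset.Ioc 0 l, R k‖ ≤ ∑ k ∈ Finset.Ioc 0 l, ‖R k‖ := norm_sum_le _ _
      _ ≤ ∑ k ∈ Finset.Ioc 0 l, s := Finset.sum_le_sum fun k hk => by
          rw [Finset.mem_Ioc] at hk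
          exact hR k (by omega) hk.1
      _ = l * s := by rw [Finset.sum_const, Nat.card_Ioc, nsmul_eq_mul]; simp
      _ ≤ q * s := mul_le_mul_of_nonneg_right (by exact_mod_cast hl.le) hs
  have hBn : ‖B‖ ≤ 4 / 3 * q * (q * s) := by
    calc ‖B‖ ≤ ∑ l ∈ Finset.range q, ‖(a l)⁻¹ * ∑ k ∈ Finset.Ioc 0 l, R k‖ := norm_sum_le _ _
      _ ≤ ∑ l ∈ Finset.range q, (4 / 3 * (q * s)) := Finset.sum_le_sum fun l hl => by
          rw [Finset.mem_range] at hl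
          rw [norm_mul]
          exact mul_le_mul (hinv l hl) (hS l hl) (norm_nonneg _) (by norm_num)
      _ = 4 / 3 * q * (q * s) := by
          rw [Finset.sum_const, Finset.card_range, nsmul_eq_mul]; ring
  have hb0 : ‖-ρ * B / A‖ ≤ 2 * ‖ρ‖ * (q * s) := by
    rw [norm_div, norm_mul, norm_neg, div_le_iff₀ (norm_pos_iff.2 hA0)]
    calc ‖ρ‖ * ‖B‖ ≤ ‖ρ‖ * (4 / 3 * q * (q * s)) :=
          mul_le_mul_of_nonneg_left hBn (norm_nonneg _)
      _ = 2 * ‖ρ‖ * (q * s) * (2 / 3 * q) := by ring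
      _ ≤ 2 * ‖ρ‖ * (q * s) * ‖A‖ := mul_le_mul_of_nonneg_left hAn (by positivity)
  have hbn : ∀ j < q, ‖b j‖ ≤ 3 * ‖ρ‖ * (q * s) := by
    intro j hj
    calc ‖b j‖ ≤ ‖-ρ * B / A‖ + ‖ρ * ∑ k ∈ Finset.Ioc 0 j, R k‖ := norm_add_le _ _
      _ ≤ 2 * ‖ρ‖ * (q * s) + ‖ρ‖ * (q * s) := by
          rw [norm_mul]
          exact add_le_add hb0 (mul_le_mul_of_nonneg_left (hS j hj) (norm_nonneg _))
      _ = 3 * ‖ρ‖ * (q * s) := by ring
  have hba : ∀ j < q, ‖b j / a j‖ ≤ 4 * ‖ρ‖ * q * s := by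
    intro j hj
    rw [div_eq_mul_inv, norm_mul]
    calc ‖b j‖ * ‖(a j)⁻¹‖ ≤ 3 * ‖ρ‖ * (q * s) * (4 / 3) :=
          mul_le_mul (hbn j hj) (hinv j hj) (norm_nonneg _) (by positivity)
      _ = 4 * ‖ρ‖ * q * s := by ring
  refine ⟨by simp [green], ?_, ?_, ?_, ?_⟩
  · rw [hgreen, ← Finset.mul_sum]
    have h1 : ∑ i ∈ Finset.range q, b i / a i = -ρ * B / A * A + ρ * B := by
      have h2 : ∀ i ∈ Finset.range q, b i / a i =
          -ρ * B / A * (a i)⁻¹ + ρ * ((a i)⁻¹ * ∑ k ∈ Finset.Ioc 0 i, R k) := by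
        intro i _
        rw [hb]
        simp only
        ring
      rw [Finset.sum_congr rfl h2, Finset.sum_add_distrib, ← Finset.mul_sum, ← Finset.mul_sum]
    rw [h1, div_mul_cancel₀ _ hA0]
    ring
  · intro j hj
    have h1 := ha0 (j + 1) hj
    have h2 := ha0 j (by omega)
    have e1 : a (j + 1) * ((green q ρ a R (j + 2) - green q ρ a R (j + 1)) / ρ) = b (j + 1) := by
      rw [hsucc (j + 1)]
      field_simp
    have e2 : a j * ((green q ρ a R (j + 1) - green q ρ a R j) / ρ) = b j := by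
      rw [hsucc j]
      field_simp
    rw [e1, e2, hb]
    simp only
    have e3 : ∑ k ∈ Finset.Ioc 0 (j + 1), R k = ∑ k ∈ Finset.Ioc 0 j, R k + R (j + 1) := by
      rw [Finset.sum_Ioc_succ_top (Nat.zero_le j)]
    rw [e3]
    ring
  · intro j hj
    rw [hgreen]
    calc ‖∑ i ∈ Finset.range j, ρ * (b i / a i)‖
        ≤ ∑ i ∈ Finset.range j, ‖ρ * (b i / a i)‖ := norm_sum_le _ _
      _ ≤ ∑ i ∈ Finset.range j, ‖ρ‖ * (4 * ‖ρ‖ * q * s) := Finset.sum_le_sum fun i hi => by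
          rw [Finset.mem_range] at hi
          rw [norm_mul]
          exact mul_le_mul_of_nonneg_left (hba i (by omega)) (norm_nonneg _)
      _ = j * (‖ρ‖ * (4 * ‖ρ‖ * q * s)) := by
          rw [Finset.sum_const, Finset.card_range, nsmul_eq_mul]
      _ ≤ q * (‖ρ‖ * (4 * ‖ρ‖ * q * s)) :=
          mul_le_mul_of_nonneg_right (by exact_mod_cast hj) (by positivity)
      _ = 4 * ‖ρ‖ ^ 2 * q ^ 2 * s := by ring
  · intro j hj
    rw [hsucc j, mul_div_assoc, mul_comm ρ, div_mul_cancel₀ _ hρ]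
    exact hba j hj

end Pool.Agent.MP_ae5b4e_an_SM
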