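import Pool.Agent.Lib.MP_ae5b4e_an_SM.Defs

/-!
# MP_ae5b4e_an, project SMOOTH, module SH: derivatives of the Lagrangian
-/

noncomputable section

namespace Pool.Agent.MP_ae5b4e_an_SM

open Complex Set Filter Topology

/-- Cauchy's estimate along a line -/
private lemma LagF_cauchy {f : ℂ × ℂ × ℂ → ℂ} {P v : ℂ × ℂ × ℂ} {R K : ℝ} (hR : 0 < R)
    (hf : ∀ s : ℂ, ‖s‖ ≤ R → DifferentiableAt ℂ f (P + s • v))
    (hK : ∀ s : ℂ, ‖s‖ ≤ R → ‖f (P + s • v)‖ ≤ K) : ‖fderiv ℂ f P v‖ ≤ K / R := by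
  have h0 : DifferentiableAt ℂ f P := by simpa using hf 0 (by simpa using hR.le)
  have hl : ∀ s : ℂ, HasDerivAt (fun s : ℂ => P + s • v) v s := fun s => by
    simpa using ((hasDerivAt_id s).smul_const v).const_add P
  have hd : deriv (fun s : ℂ => f (P + s • v)) 0 = fderiv ℂ f P v := by
    have h1 : HasFDerivAt f (fderiv ℂ f P) (P + (0 : ℂ) • v) := by
      simpa using h0.hasFDerivAt
    exact (h1.comp_hasDerivAt (0 : ℂ) (hl 0)).deriv
  rw [← hd]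
  refine Complex.norm_deriv_le_of_forall_mem_sphere_norm_le hR ?_ fun z hz => hK z ?_
  · refine DifferentiableOn.diffContOnCl_ball (U := Metric.closedBall 0 R) ?_ subset_rfl
    intro s hs
    have hs' : ‖s‖ ≤ R := by simpa using hs
    exact ((hf s hs').comp s (hl s).differentiableAt).differentiableWithinAt
  · have : ‖z‖ = R := by simpa using hz
    exact this.le

private lemma LagF_cauchy_formula {f : ℂ × ℂ × ℂ → ℂ} {P v : ℂ × ℂ × ℂ} {R R' : ℝ} (hR : 0 < R)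
    (hRR : R < R')
    (hf : ∀ s : ℂ, ‖s‖ < R' → DifferentiableAt ℂ f (P + s • v)) :
    fderiv ℂ f P v = (2 * Real.pi * I : ℂ)⁻¹ • ∮ z in C(0, R), (z ^ 2)⁻¹ • f (P + z • v) := by
  have h0 : DifferentiableAt ℂ f P := by
    simpa using hf 0 (by simpa using hR.trans hRR)
  have hl : ∀ s : ℂ, HasDerivAt (fun s : ℂ => P + s • v) v s := fun s => by
    simpa using ((hasDerivAt_id s).smul_const v).const_add P
  have hd : deriv (fun s : ℂ => f (P + s • v)) 0 = fderiv ℂ f P v := by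
    have h1 : HasFDerivAt f (fderiv ℂ f P) (P + (0 : ℂ) • v) := by
      simpa using h0.hasFDerivAt
    exact (h1.comp_hasDerivAt (0 : ℂ) (hl 0)).deriv
  rw [← hd]
  have h2 := two_pi_I_inv_smul_circleIntegral_sub_sq_inv_smul_of_differentiable
    (U := Metric.ball (0 : ℂ) R') (c := 0) (w₀ := 0) (R := R) (f := fun s : ℂ => f (P + s • v))
    Metric.isOpen_ball (Metric.closedBall_subset_ball hRR) (fun s hs => by
      have hs' : ‖s‖ < R' := by simpa using hs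
      exact ((hf s hs').comp s (hl s).differentiableAt).differentiableWithinAt)
    (Metric.mem_ball_self hR)
  rw [← h2]
  simp

/-- derivatives of holomorphic functions are holomorphic -/
private lemma LagF_diff {f : ℂ × ℂ × ℂ → ℂ} {U : Set (ℂ × ℂ × ℂ)} (hU : IsOpen U)
    (hf : DifferentiableOn ℂ f U) (v : ℂ × ℂ × ℂ) :
    DifferentiableOn ℂ (fun P => fderiv ℂ f P v) U := by
  intro P₀ hP₀
  -- a ball on which `f` is bounded
  obtain ⟨ε, hε, hεU⟩ : ∃ ε > 0, Metric.ball P₀ ε ⊆ U ∩ f ⁻¹' Metric.ball (f P₀) 1 := by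
    have h1 : f ⁻¹' Metric.ball (f P₀) 1 ∈ 𝓝 P₀ :=
      (hf.differentiableAt (hU.mem_nhds hP₀)).continuousAt (Metric.ball_mem_nhds _ one_pos)
    exact Metric.mem_nhds_iff.1 (inter_mem (hU.mem_nhds hP₀) h1)
  have hd : ∀ P ∈ Metric.ball P₀ ε, DifferentiableAt ℂ f P := fun P hP =>
    hf.differentiableAt (hU.mem_nhds (hεU hP).1)
  have hb : ∀ P ∈ Metric.ball P₀ ε, ‖f P‖ ≤ ‖f P₀‖ + 1 := fun P hP => by
    have h1 : ‖f P - f P₀‖ < 1 := by simpa [dist_eq_norm] using (hεU hP).2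
    calc ‖f P‖ = ‖f P₀ + (f P - f P₀)‖ := by congr 1; ring
      _ ≤ _ := (norm_add_le _ _).trans (by linarith)
  set K : ℝ := ‖f P₀‖ + 1 with hK
  have hK0 : 0 ≤ K := by positivity
  -- bound of the derivative on the half ball
  have hb' : ∀ P ∈ Metric.ball P₀ (ε / 2), ‖fderiv ℂ f P‖ ≤ K / (ε / 4) := by
    intro P hP
    have hP' : dist P P₀ < ε / 2 := hP
    have hin : ∀ w : ℂ × ℂ × ℂ, ‖w‖ ≤ ε / 4 → P + w ∈ Metric.ball P₀ ε := fun w hw => by
      have h2 : dist (P + w) P ≤ ε / 4 := by simpa [dist_eq_norm] using hw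
      have h3 := dist_triangle (P + w) P P₀
      rw [Metric.mem_ball]
      linarith
    refine ContinuousLinearMap.opNorm_le_of_unit_norm (𝕜 := ℂ) (by positivity) fun w hw => ?_
    refine LagF_cauchy (by positivity) (fun s hs => hd _ (hin _ ?_)) (fun s hs => hb _ (hin _ ?_))
    · rw [norm_smul, hw, mul_one]; exact hs
    · rw [norm_smul, hw, mul_one]; exact hs
  set r : ℝ := ε / 4 / (‖v‖ + 1) with hr
  have hr0 : 0 < r := by positivity
  have hrv : r * ‖v‖ < ε / 4 := by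
    have h1 : r * (‖v‖ + 1) = ε / 4 := by rw [hr]; field_simp
    nlinarith
  have hmem : ∀ P ∈ Metric.ball P₀ (ε / 4), ∀ s : ℂ, ‖s‖ ≤ r →
      P + s • v ∈ Metric.ball P₀ (ε / 2) := by
    intro P hP s hs
    have hP' : dist P P₀ < ε / 4 := hP
    have h2 : dist (P + s • v) P ≤ r * ‖v‖ := by
      have : dist (P + s • v) P = ‖s‖ * ‖v‖ := by simp [dist_eq_norm, norm_smul]
      rw [this]
      gcongr
    have h3 := dist_triangle (P + s • v) P P₀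
    rw [Metric.mem_ball]
    linarith
  have hmem2 : ∀ P ∈ Metric.ball P₀ (ε / 4), ∀ s : ℂ, ‖s‖ < 2 * r →
      P + s • v ∈ Metric.ball P₀ ε := by
    intro P hP s hs
    have hP' : dist P P₀ < ε / 4 := hP
    have h2 : dist (P + s • v) P ≤ 2 * r * ‖v‖ := by
      have : dist (P + s • v) P = ‖s‖ * ‖v‖ := by simp [dist_eq_norm, norm_smul]
      rw [this]
      gcongr
    have h3 := dist_triangle (P + s • v) P P₀
    rw [Metric.mem_ball]
    nlinarith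
  have hsub : Metric.ball P₀ (ε / 2) ⊆ Metric.ball P₀ ε := Metric.ball_subset_ball (by linarith)
  have hnb : Metric.ball P₀ (ε / 4) ∈ 𝓝 P₀ := Metric.ball_mem_nhds _ (by positivity)
  have hcm : ∀ θ : ℝ, ‖circleMap 0 r θ‖ = r := fun θ => by
    rw [norm_circleMap_zero, abs_of_pos hr0]
  have hcont : ∀ P ∈ Metric.ball P₀ (ε / 4),
      Continuous fun θ : ℝ => f (P + circleMap 0 r θ • v) := by
    intro P hP
    rw [continuous_iff_continuousAt]
    intro θ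
    have h1 : ContinuousAt f (P + circleMap 0 r θ • v) :=
      (hd _ (hsub (hmem P hP _ (hcm θ).le))).continuousAt
    have h2 : ContinuousAt (fun θ : ℝ => P + circleMap 0 r θ • v) θ := by fun_prop
    exact ContinuousAt.comp (f := fun θ : ℝ => P + circleMap 0 r θ • v) h1 h2
  have hkc : Continuous fun θ : ℝ => deriv (circleMap 0 r) θ * ((circleMap 0 r θ) ^ 2)⁻¹ := by
    refine Continuous.mul ?_ (Continuous.inv₀ (by fun_prop) fun θ h => ?_)
    · have : deriv (circleMap 0 r) = fun θ => circleMap 0 r θ * I := funext (deriv_circleMap 0 r)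
      rw [this]
      fun_prop
    · have h1 := hcm θ
      rw [pow_eq_zero_iff (by norm_num)] at h
      rw [h, norm_zero] at h1
      linarith
  have hkn : ∀ θ : ℝ, ‖deriv (circleMap 0 r) θ * ((circleMap 0 r θ) ^ 2)⁻¹‖ = r⁻¹ := by
    intro θ
    rw [norm_mul, norm_inv, norm_pow, hcm, deriv_circleMap, norm_mul, hcm, norm_I]
    field_simp
  have key : HasFDerivAt (fun P : ℂ × ℂ × ℂ => ∫ θ in (0:ℝ)..2 * Real.pi,
      (deriv (circleMap 0 r) θ * ((circleMap 0 r θ) ^ 2)⁻¹) * f (P + circleMap 0 r θ • v))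
      (∫ θ in (0:ℝ)..2 * Real.pi, (deriv (circleMap 0 r) θ * ((circleMap 0 r θ) ^ 2)⁻¹) •
        fderiv ℂ f (P₀ + circleMap 0 r θ • v)) P₀ := by
    refine intervalIntegral.hasFDerivAt_integral_of_dominated_of_fderiv_le (𝕜 := ℂ)
      (F' := fun P θ => (deriv (circleMap 0 r) θ * ((circleMap 0 r θ) ^ 2)⁻¹) •
        fderiv ℂ f (P + circleMap 0 r θ • v))
      (bound := fun _ => r⁻¹ * (K / (ε / 4))) hnb ?_ ?_ ?_ ?_ ?_ ?_
    · filter_upwards [hnb] with P hP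
      exact (hkc.mul (hcont P hP)).aestronglyMeasurable
    · exact (hkc.mul (hcont P₀ (mem_of_mem_nhds hnb))).intervalIntegrable _ _
    · have hm : Measurable fun θ : ℝ => fderiv ℂ f (P₀ + circleMap 0 r θ • v) := by
        have h1 : Continuous fun θ : ℝ => P₀ + circleMap 0 r θ • v := by fun_prop
        exact (measurable_fderiv ℂ f).comp h1.measurable
      have : ProperSpace ((ℂ × ℂ × ℂ) →L[ℂ] ℂ) := FiniteDimensional.proper ℂ _
      exact (hkc.aestronglyMeasurable).smul hm.aestronglyMeasurable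
    · refine Filter.Eventually.of_forall fun θ _ P hP => ?_
      rw [norm_smul, hkn]
      gcongr
      exact hb' _ (hmem P hP _ (hcm θ).le)
    · exact intervalIntegrable_const
    · refine Filter.Eventually.of_forall fun θ _ P hP => ?_
      have h1 : HasFDerivAt f (fderiv ℂ f (P + circleMap 0 r θ • v)) (P + circleMap 0 r θ • v) :=
        (hd _ (hsub (hmem P hP _ (hcm θ).le))).hasFDerivAt
      have h2 : HasFDerivAt (fun Q : ℂ × ℂ × ℂ => f (Q + circleMap 0 r θ • v))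
          (fderiv ℂ f (P + circleMap 0 r θ • v)) P := by
        have h3 := h1.comp P ((hasFDerivAt_id P).add_const (circleMap 0 r θ • v))
        rw [ContinuousLinearMap.comp_id] at h3
        exact h3
      exact h2.const_mul _
  have heq : (fun P => fderiv ℂ f P v) =ᶠ[𝓝 P₀] fun P => (2 * Real.pi * I : ℂ)⁻¹ *
      ∫ θ in (0:ℝ)..2 * Real.pi,
      (deriv (circleMap 0 r) θ * ((circleMap 0 r θ) ^ 2)⁻¹) * f (P + circleMap 0 r θ • v) := by
    filter_upwards [hnb] with P hP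
    rw [LagF_cauchy_formula (R := r) (R' := 2 * r) hr0 (by linarith)
      fun s hs => hd _ (hmem2 P hP s hs)]
    simp only [circleIntegral, smul_eq_mul, mul_assoc]
  have hfin : DifferentiableAt ℂ (fun P => fderiv ℂ f P v) P₀ :=
    (key.differentiableAt.const_mul _).congr_of_eventuallyEq heq
  exact hfin.differentiableWithinAt

private lemma LagF_contDiffOn {U : Set (ℂ × ℂ × ℂ)} (hU : IsOpen U) (n : ℕ) :
    ∀ f : ℂ × ℂ × ℂ → ℂ, DifferentiableOn ℂ f U → ContDiffOn ℂ n f U := by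
  induction n with
  | zero =>
    intro f hf
    simpa using hf.continuousOn
  | succ n ih =>
    intro f hf
    have h1 : ContDiffOn ℂ ((n : WithTop ℕ∞) + 1) f U := by
      rw [contDiffOn_succ_iff_fderiv_of_isOpen hU]
      refine ⟨hf, fun h => ?_, ?_⟩
      · exact absurd h (by simp)
      · rw [contDiffOn_clm_apply]
        exact fun v => ih _ (LagF_diff hU hf v)
    exact_mod_cast h1

private lemma LagF_symm {f : ℂ × ℂ × ℂ → ℂ} {U : Set (ℂ × ℂ × ℂ)} (hU : IsOpen U)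
    (hf : DifferentiableOn ℂ f U) (v w : ℂ × ℂ × ℂ) {P : ℂ × ℂ × ℂ} (hP : P ∈ U) :
    fderiv ℂ (fun Q => fderiv ℂ f Q v) P w = fderiv ℂ (fun Q => fderiv ℂ f Q w) P v := by
  have h2 : ContDiffOn ℂ 2 f U := by exact_mod_cast LagF_contDiffOn hU 2 f hf
  have h3 : ContDiffAt ℂ 2 f P := h2.contDiffAt (hU.mem_nhds hP)
  have h4 : IsSymmSndFDerivAt ℂ f P := h3.isSymmSndFDerivAt (by simp)
  have h5 : DifferentiableAt ℂ (fderiv ℂ f) P :=
    (h3.fderiv_right (m := 1) (by norm_num)).differentiableAt (by norm_num)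
  have h6 : ∀ u : ℂ × ℂ × ℂ, fderiv ℂ (fun Q => fderiv ℂ f Q u) P =
      (fderiv ℂ (fderiv ℂ f) P).flip u := by
    intro u
    have := fderiv_clm_apply h5 (differentiableAt_const u)
    simpa using this
  rw [h6, h6]
  simpa using (h4 w v)

/-! ### The class of the derivatives -/

private def LagF_G (b : ℝ) (f : ℂ × ℂ × ℂ → ℂ) : Prop :=
  DifferentiableOn ℂ f (DL b) ∧ (∀ P ∈ DL b, f (P.1 + 1, P.2) = f P) ∧
    (∀ P ∈ DL b, P.1.im = 0 → P.2.1.im = 0 → P.2.2.im = 0 → (f P).im = 0)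

private lemma LagF_mem_tr {b : ℝ} {P : ℂ × ℂ × ℂ} (hP : P ∈ DL b) : (P.1 + 1, P.2) ∈ DL b := by
  simpa [DL] using hP

private lemma LagF_G_fd {b : ℝ} {f : ℂ × ℂ × ℂ → ℂ} (h : LagF_G b f) (v : ℂ × ℂ × ℂ)
    (hv1 : v.1.im = 0) (hv2 : v.2.1.im = 0) (hv3 : v.2.2.im = 0) :
    LagF_G b (fun P => fderiv ℂ f P v) := by
  obtain ⟨hd, hp, hr⟩ := h
  have hU := isOpen_DL b
  refine ⟨LagF_diff hU hd v, fun P hP => ?_, fun P hP h1 h2 h3 => ?_⟩
  · have hP' : (P.1 + 1, P.2) ∈ DL b := LagF_mem_tr hP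
    have e : ((P.1 + 1, P.2) : ℂ × ℂ × ℂ) = P + (1, 0, 0) := by
      ext <;> simp
    have h1 : HasFDerivAt f (fderiv ℂ f (P + (1, 0, 0))) (P + (1, 0, 0)) := by
      rw [← e]
      exact (hd.differentiableAt (hU.mem_nhds hP')).hasFDerivAt
    have h2 := h1.comp P ((hasFDerivAt_id P).add_const ((1, 0, 0) : ℂ × ℂ × ℂ))
    rw [ContinuousLinearMap.comp_id] at h2
    have h3 : (f ∘ fun x => id x + ((1, 0, 0) : ℂ × ℂ × ℂ)) =ᶠ[𝓝 P] f := by
      filter_upwards [hU.mem_nhds hP] with Q hQ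
      have e' : ((Q.1 + 1, Q.2) : ℂ × ℂ × ℂ) = Q + (1, 0, 0) := by
        ext <;> simp
      simp only [Function.comp_apply, id]
      rw [← e']
      exact hp Q hQ
    have h4 := (h3.hasFDerivAt_iff.1 h2).fderiv
    simp only
    rw [e, h4]
  · have hl : HasDerivAt (fun s : ℂ => P + s • v) v ((0 : ℝ) : ℂ) := by
      simpa using ((hasDerivAt_id ((0 : ℝ) : ℂ)).smul_const v).const_add P
    have h5 : HasFDerivAt f (fderiv ℂ f P) (P + ((0 : ℝ) : ℂ) • v) := by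
      simpa using (hd.differentiableAt (hU.mem_nhds hP)).hasFDerivAt
    have h6 : HasDerivAt (fun s : ℂ => f (P + s • v)) (fderiv ℂ f P v) ((0 : ℝ) : ℂ) :=
      h5.comp_hasDerivAt _ hl
    have h7 : HasDerivAt (fun s : ℝ => f (P + (s : ℂ) • v)) (fderiv ℂ f P v) 0 :=
      h6.comp_ofReal
    have h8 : HasDerivAt (fun s : ℝ => (f (P + (s : ℂ) • v)).im) (fderiv ℂ f P v).im 0 :=
      (imCLM.hasFDerivAt.comp_hasDerivAt (0 : ℝ) h7)
    have h9 : (fun s : ℝ => (f (P + (s : ℂ) • v)).im) =ᶠ[𝓝 0] fun _ => 0 := by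
      have hc : ContinuousAt (fun s : ℝ => P + (s : ℂ) • v) 0 := by fun_prop
      have hin : ∀ᶠ s : ℝ in 𝓝 0, P + (s : ℂ) • v ∈ DL b :=
        hc.eventually (by simpa using hU.mem_nhds hP)
      filter_upwards [hin] with s hs
      refine hr _ hs ?_ ?_ ?_
      · simp [h1, hv1]
      · simp [h2, hv2]
      · simp [h3, hv3]
    have h10 : HasDerivAt (fun s : ℝ => (f (P + (s : ℂ) • v)).im) 0 0 :=
      (hasDerivAt_const (0 : ℝ) (0 : ℝ)).congr_of_eventuallyEq h9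
    exact h8.unique h10

theorem Lag.mono {L : ℂ × ℂ × ℂ → ℂ} {k1 : ℂ} {b b' M : ℝ} (h : Lag L k1 b M) (h0 : 0 < b')
    (hb : b' ≤ b) : Lag L k1 b' M := by
  have hs : DL b' ⊆ DL b := fun P hP =>
    ⟨hP.1.trans_le hb, hP.2.1.trans_le hb, hP.2.2.trans_le hb⟩
  obtain ⟨lamb, hl⟩ := h.hom
  exact {
    b0 := h0
    b1 := hb.trans h.b1
    diff := h.diff.mono hs
    bd := fun P hP => h.bd P (hs hP)
    per := fun P hP => h.per P (hs hP)
    real := fun P hP => h.real P (hs hP)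
    hom := ⟨lamb, fun P hP => hl P (hs hP)⟩
    nd := fun t ht => h.nd t (ht.trans_le hb) }

/-- the derivatives which occur -/
def LL (L : ℂ × ℂ × ℂ → ℂ) : Set (ℂ × ℂ × ℂ → ℂ) :=
  {L, Lt L, LD L, Lr L, Lt (Lt L), LD (Lt L), LD (LD L), Lr (Lt L), Lr (LD L)}

private lemma LagF_line_const {H : ℂ × ℂ × ℂ → ℂ} {b : ℝ} {P v : ℂ × ℂ × ℂ}
    (hH : DifferentiableAt ℂ H P) (hP : P ∈ DL b) {lamb : ℂ → ℂ} (hv : v.2.2 = 0)
    (h : ∀ P ∈ DL b, H P = lamb P.2.2) : fderiv ℂ H P v = 0 := by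
  have hl : HasDerivAt (fun s : ℂ => P + s • v) v 0 := by
    simpa using ((hasDerivAt_id (0 : ℂ)).smul_const v).const_add P
  have h5 : HasFDerivAt H (fderiv ℂ H P) (P + (0 : ℂ) • v) := by
    simpa using hH.hasFDerivAt
  have h6 : HasDerivAt (fun s : ℂ => H (P + s • v)) (fderiv ℂ H P v) 0 :=
    h5.comp_hasDerivAt _ hl
  have hc : ContinuousAt (fun s : ℂ => P + s • v) 0 := by fun_prop
  have hin : ∀ᶠ s : ℂ in 𝓝 0, P + s • v ∈ DL b :=
    hc.eventually (by simpa using (isOpen_DL b).mem_nhds hP)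
  have h7 : (fun s : ℂ => H (P + s • v)) =ᶠ[𝓝 0] fun _ => lamb P.2.2 := by
    filter_upwards [hin] with s hs
    rw [h _ hs]
    simp [hv]
  exact h6.unique ((hasDerivAt_const (0 : ℂ) (lamb P.2.2)).congr_of_eventuallyEq h7)

theorem lag_facts {L : ℂ × ℂ × ℂ → ℂ} {k1 : ℂ} {b M : ℝ} (h : Lag L k1 b M) :
    (∀ Λ ∈ LL L, DifferentiableOn ℂ Λ (DL b) ∧ (∀ P ∈ DL b, Λ (P.1 + 1, P.2) = Λ P) ∧
      (∀ P ∈ DL b, P.1.im = 0 → P.2.1.im = 0 → P.2.2.im = 0 → (Λ P).im = 0)) ∧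
    (∀ P ∈ DL b, Lt (LD L) P = LD (Lt L) P) ∧
    (∀ P ∈ DL b, P.2.2 * Lr (Lt L) P - P.2.1 * LD (Lt L) P + k1 * Lt L P = 0) ∧
    (∀ P ∈ DL b, P.2.2 * Lr (LD L) P - P.2.1 * LD (LD L) P + (k1 - 1) * LD L P = 0) := by
  have hU := isOpen_DL b
  have g0 : LagF_G b L := ⟨h.diff, h.per, h.real⟩
  have gt : ∀ f, LagF_G b f → LagF_G b (Lt f) := fun f hf =>
    LagF_G_fd hf (1, 0, 0) (by simp) (by simp) (by simp)
  have gD : ∀ f, LagF_G b f → LagF_G b (LD f) := fun f hf =>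
    LagF_G_fd hf (0, 1, 0) (by simp) (by simp) (by simp)
  have gr : ∀ f, LagF_G b f → LagF_G b (Lr f) := fun f hf =>
    LagF_G_fd hf (0, 0, 1) (by simp) (by simp) (by simp)
  have stD : ∀ P ∈ DL b, Lt (LD L) P = LD (Lt L) P := fun P hP =>
    LagF_symm hU h.diff (0, 1, 0) (1, 0, 0) hP
  have str : ∀ P ∈ DL b, Lt (Lr L) P = Lr (Lt L) P := fun P hP =>
    LagF_symm hU h.diff (0, 0, 1) (1, 0, 0) hP
  have sDr : ∀ P ∈ DL b, LD (Lr L) P = Lr (LD L) P := fun P hP =>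
    LagF_symm hU h.diff (0, 0, 1) (0, 1, 0) hP
  obtain ⟨lamb, hl⟩ := h.hom
  -- the derivative of the homogeneity relation
  have key : ∀ P ∈ DL b, HasFDerivAt
      (fun P : ℂ × ℂ × ℂ => P.2.2 * Lr L P - P.2.1 * LD L P + k1 * L P)
      (P.2.2 • fderiv ℂ (Lr L) P + Lr L P • ((ContinuousLinearMap.snd ℂ ℂ ℂ).comp
          (ContinuousLinearMap.snd ℂ ℂ (ℂ × ℂ))) -
        (P.2.1 • fderiv ℂ (LD L) P + LD L P • ((ContinuousLinearMap.fst ℂ ℂ ℂ).comp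
          (ContinuousLinearMap.snd ℂ ℂ (ℂ × ℂ)))) + k1 • fderiv ℂ L P) P := by
    intro P hP
    have d1 : HasFDerivAt (Lr L) (fderiv ℂ (Lr L) P) P :=
      ((gr _ g0).1.differentiableAt (hU.mem_nhds hP)).hasFDerivAt
    have d2 : HasFDerivAt (LD L) (fderiv ℂ (LD L) P) P :=
      ((gD _ g0).1.differentiableAt (hU.mem_nhds hP)).hasFDerivAt
    have d3 : HasFDerivAt L (fderiv ℂ L P) P :=
      (h.diff.differentiableAt (hU.mem_nhds hP)).hasFDerivAt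
    have p1 : HasFDerivAt (fun P : ℂ × ℂ × ℂ => P.2.2) ((ContinuousLinearMap.snd ℂ ℂ ℂ).comp
        (ContinuousLinearMap.snd ℂ ℂ (ℂ × ℂ))) P :=
      ((ContinuousLinearMap.snd ℂ ℂ ℂ).comp (ContinuousLinearMap.snd ℂ ℂ (ℂ × ℂ))).hasFDerivAt
    have p2 : HasFDerivAt (fun P : ℂ × ℂ × ℂ => P.2.1) ((ContinuousLinearMap.fst ℂ ℂ ℂ).comp
        (ContinuousLinearMap.snd ℂ ℂ (ℂ × ℂ))) P :=
      ((ContinuousLinearMap.fst ℂ ℂ ℂ).comp (ContinuousLinearMap.snd ℂ ℂ (ℂ × ℂ))).hasFDerivAt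
    exact ((p1.mul d1).sub (p2.mul d2)).add (d3.const_mul k1)
  refine ⟨?_, stD, fun P hP => ?_, fun P hP => ?_⟩
  · intro Λ hΛ
    simp only [LL, mem_insert_iff, mem_singleton_iff] at hΛ
    rcases hΛ with rfl | rfl | rfl | rfl | rfl | rfl | rfl | rfl | rfl
    · exact g0
    · exact gt _ g0
    · exact gD _ g0
    · exact gr _ g0
    · exact gt _ (gt _ g0)
    · exact gD _ (gt _ g0)
    · exact gD _ (gD _ g0)
    · exact gr _ (gt _ g0)
    · exact gr _ (gD _ g0)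
  · have h1 := LagF_line_const (v := (1, 0, 0)) (key P hP).differentiableAt hP (by simp) hl
    rw [(key P hP).fderiv] at h1
    rw [← str P hP, ← stD P hP]
    simpa [Lt, LD, Lr] using h1
  · have h1 := LagF_line_const (v := (0, 1, 0)) (key P hP).differentiableAt hP (by simp) hl
    rw [(key P hP).fderiv] at h1
    rw [← sDr P hP]
    have h2 : P.2.2 * LD (Lr L) P - (P.2.1 * LD (LD L) P + LD L P) + k1 * LD L P = 0 := by
      simpa [Lt, LD, Lr] using h1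
    linear_combination h2

/-! ### Bounds -/

private lemma LagF_convex (b : ℝ) : Convex ℝ (DL b) := by
  have h : DL b = ((fun P : ℂ × ℂ × ℂ => P.1.im) ⁻¹' Ioo (-b) b) ∩
      (((fun P : ℂ × ℂ × ℂ => P.2.1) ⁻¹' Metric.ball 1 b) ∩
        ((fun P : ℂ × ℂ × ℂ => P.2.2) ⁻¹' Metric.ball 0 b)) := by
    ext P
    simp [DL, abs_lt, dist_eq_norm]
  rw [h]
  refine ((convex_Ioo (-b) b).is_linear_preimage ⟨fun _ _ => ?_, fun _ _ => ?_⟩).inter
    (((convex_ball (1 : ℂ) b).is_linear_preimage ⟨fun _ _ => rfl, fun _ _ => rfl⟩).inter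
      ((convex_ball (0 : ℂ) b).is_linear_preimage ⟨fun _ _ => rfl, fun _ _ => rfl⟩))
  · simp
  · simp

private lemma LagF_bd {f : ℂ × ℂ × ℂ → ℂ} {b b1 b2 K : ℝ} (hf : DifferentiableOn ℂ f (DL b))
    (hb : b1 ≤ b) (hK0 : 0 ≤ K) (hK : ∀ P ∈ DL b1, ‖f P‖ ≤ K) (h12 : b2 < b1) :
    ∀ P ∈ DL b2, ‖fderiv ℂ f P‖ ≤ K / (b1 - b2) := by
  intro P hP
  have hpos : 0 < b1 - b2 := by linarith
  have hin : ∀ w : ℂ × ℂ × ℂ, ‖w‖ ≤ b1 - b2 → P + w ∈ DL b1 := by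
    intro w hw
    have w1 : ‖w.1‖ ≤ b1 - b2 := (norm_fst_le w).trans hw
    have w2 : ‖w.2.1‖ ≤ b1 - b2 := ((norm_fst_le w.2).trans (norm_snd_le w)).trans hw
    have w3 : ‖w.2.2‖ ≤ b1 - b2 := ((norm_snd_le w.2).trans (norm_snd_le w)).trans hw
    obtain ⟨p1, p2, p3⟩ := hP
    refine ⟨?_, ?_, ?_⟩
    · have h1 : |(P + w).1.im| ≤ |P.1.im| + |w.1.im| := by
        simpa using abs_add_le P.1.im w.1.im
      have h2 := abs_im_le_norm w.1
      linarith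
    · have h1 : (P + w).2.1 - 1 = (P.2.1 - 1) + w.2.1 := by
        simp only [Prod.snd_add, Prod.fst_add]; ring
      rw [h1]
      have h2 := norm_add_le (P.2.1 - 1) w.2.1
      linarith
    · have h2 := norm_add_le P.2.2 w.2.2
      simp only [Prod.snd_add]
      linarith
  have hd : ∀ Q ∈ DL b1, DifferentiableAt ℂ f Q := fun Q hQ =>
    hf.differentiableAt ((isOpen_DL b).mem_nhds
      ⟨hQ.1.trans_le hb, hQ.2.1.trans_le hb, hQ.2.2.trans_le hb⟩)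
  refine ContinuousLinearMap.opNorm_le_of_unit_norm (𝕜 := ℂ) (by positivity) fun w hw => ?_
  refine LagF_cauchy hpos (fun s hs => hd _ (hin _ ?_)) (fun s hs => hK _ (hin _ ?_))
  · rw [norm_smul, hw, mul_one]; exact hs
  · rw [norm_smul, hw, mul_one]; exact hs

private lemma LagF_taylor {G : ℂ × ℂ × ℂ → ℂ} {b K : ℝ} (hG : DifferentiableOn ℂ G (DL b))
    (h1 : ∀ Q ∈ DL b, ‖fderiv ℂ (Lt G) Q‖ ≤ K)
    (h2 : ∀ Q ∈ DL b, ‖fderiv ℂ (LD G) Q‖ ≤ K) (hK : 0 ≤ K)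
    (P : ℂ × ℂ × ℂ) (z w z' w' : ℂ) (hP : P ∈ DL b) (hZ : (P.1 + z, P.2.1 + w, P.2.2) ∈ DL b)
    (hZ' : (P.1 + z', P.2.1 + w', P.2.2) ∈ DL b) :
    ‖G (P.1 + z, P.2.1 + w, P.2.2) - G (P.1 + z', P.2.1 + w', P.2.2) -
        Lt G P * (z - z') - LD G P * (w - w')‖ ≤
      K * (‖z‖ + ‖w‖ + ‖z'‖ + ‖w'‖) * (‖z - z'‖ + ‖w - w'‖) := by
  have hU := isOpen_DL b
  set S : ℝ := ‖z‖ + ‖w‖ + ‖z'‖ + ‖w'‖ with hS
  have hS0 : 0 ≤ S := by positivity
  set V : ℂ × ℂ × ℂ := (z - z', w - w', 0) with hV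
  set Q : ℝ → ℂ × ℂ × ℂ := fun x => (P.1 + z', P.2.1 + w', P.2.2) + (x : ℂ) • V with hQ
  have hQm : ∀ x ∈ Icc (0:ℝ) 1, Q x ∈ DL b := by
    intro x hx
    have hc := LagF_convex b hZ' hZ (sub_nonneg.2 hx.2) hx.1 (by ring)
    convert! hc using 1
    ext
    · simp [hQ, hV]; ring
    · simp [hQ, hV]; ring
    · simp [hQ, hV]; ring
  have hQP : ∀ x ∈ Icc (0:ℝ) 1, ‖Q x - P‖ ≤ S := by
    intro x hx
    have hx0 : ‖(x : ℂ)‖ ≤ 1 := by rw [norm_real, Real.norm_of_nonneg hx.1]; exact hx.2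
    have hx1 : ‖((1 : ℂ) - x)‖ ≤ 1 := by
      have : ((1 : ℂ) - x) = ((1 - x : ℝ) : ℂ) := by push_cast; ring
      rw [this, norm_real, Real.norm_of_nonneg (by linarith [hx.2])]
      linarith [hx.1]
    have e : Q x - P = ((1 - x) * z' + x * z, (1 - x) * w' + x * w, 0) := by
      ext
      · simp [hQ, hV]; ring
      · simp [hQ, hV]; ring
      · simp [hQ, hV]
    rw [e]
    have aux : ∀ u u' : ℂ, ‖(1 - (x : ℂ)) * u' + x * u‖ ≤ ‖u'‖ + ‖u‖ := by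
      intro u u'
      refine (norm_add_le _ _).trans ?_
      rw [norm_mul, norm_mul]
      have a1 := mul_le_mul_of_nonneg_right hx1 (norm_nonneg u')
      have a2 := mul_le_mul_of_nonneg_right hx0 (norm_nonneg u)
      linarith
    rw [Prod.norm_def, Prod.norm_def]
    have b1 := aux z z'
    have b2 := aux w w'
    have n1 := norm_nonneg z
    have n2 := norm_nonneg w
    have n3 := norm_nonneg z'
    have n4 := norm_nonneg w'
    refine max_le ?_ (max_le ?_ ?_)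
    · simp only; linarith
    · simp only; linarith
    · simp only [norm_zero]; exact hS0
  -- the derivative along the segment
  have hder : ∀ x ∈ Icc (0:ℝ) 1, HasDerivAt
      (fun x : ℝ => G (Q x) - (x : ℂ) * (Lt G P * (z - z') + LD G P * (w - w')))
      ((Lt G (Q x) - Lt G P) * (z - z') + (LD G (Q x) - LD G P) * (w - w')) x := by
    intro x hx
    have hl : HasDerivAt Q V x := by
      have h3 := ((ofRealCLM.hasDerivAt (x := x)).smul_const V).const_add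
        ((P.1 + z', P.2.1 + w', P.2.2) : ℂ × ℂ × ℂ)
      have h3' : ofRealCLM 1 • V = V := by simp
      rw [h3'] at h3
      exact h3
    have h4 : HasFDerivAt G (fderiv ℂ G (Q x)) (Q x) :=
      (hG.differentiableAt (hU.mem_nhds (hQm x hx))).hasFDerivAt
    have h5 : HasDerivAt (fun x : ℝ => G (Q x)) (fderiv ℂ G (Q x) V) x :=
      (h4.restrictScalars ℝ).comp_hasDerivAt x hl
    have h6 : HasDerivAt (fun x : ℝ => (x : ℂ) * (Lt G P * (z - z') + LD G P * (w - w')))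
        (Lt G P * (z - z') + LD G P * (w - w')) x := by
      simpa using (ofRealCLM.hasDerivAt (x := x)).mul_const
        (Lt G P * (z - z') + LD G P * (w - w'))
    have h7 : fderiv ℂ G (Q x) V = Lt G (Q x) * (z - z') + LD G (Q x) * (w - w') := by
      have e : V = (z - z') • ((1, 0, 0) : ℂ × ℂ × ℂ) + (w - w') • ((0, 1, 0) : ℂ × ℂ × ℂ) := by
        ext <;> simp [hV]
      rw [e, map_add, map_smul, map_smul]
      simp only [Lt, LD, smul_eq_mul]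
      ring
    have h8 := h5.sub h6
    rw [h7] at h8
    convert! h8 using 1
    ring
  have hbd : ∀ x ∈ Ico (0:ℝ) 1,
      ‖(Lt G (Q x) - Lt G P) * (z - z') + (LD G (Q x) - LD G P) * (w - w')‖ ≤
        K * S * (‖z - z'‖ + ‖w - w'‖) := by
    intro x hx
    have hx' : x ∈ Icc (0:ℝ) 1 := ⟨hx.1, hx.2.le⟩
    have d1 : DifferentiableOn ℂ (Lt G) (DL b) := LagF_diff hU hG (1, 0, 0)
    have d2 : DifferentiableOn ℂ (LD G) (DL b) := LagF_diff hU hG (0, 1, 0)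
    have e1 : ‖Lt G (Q x) - Lt G P‖ ≤ K * S :=
      (Convex.norm_image_sub_le_of_norm_fderiv_le (𝕜 := ℂ)
        (fun y hy => d1.differentiableAt (hU.mem_nhds hy)) h1 (LagF_convex b) hP
        (hQm x hx')).trans (mul_le_mul_of_nonneg_left (hQP x hx') hK)
    have e2 : ‖LD G (Q x) - LD G P‖ ≤ K * S :=
      (Convex.norm_image_sub_le_of_norm_fderiv_le (𝕜 := ℂ)
        (fun y hy => d2.differentiableAt (hU.mem_nhds hy)) h2 (LagF_convex b) hP
        (hQm x hx')).trans (mul_le_mul_of_nonneg_left (hQP x hx') hK)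
    refine (norm_add_le _ _).trans ?_
    rw [norm_mul, norm_mul]
    have f1 := mul_le_mul_of_nonneg_right e1 (norm_nonneg (z - z'))
    have f2 := mul_le_mul_of_nonneg_right e2 (norm_nonneg (w - w'))
    linarith
  have hmv := norm_image_sub_le_of_norm_deriv_le_segment_01'
    (fun x hx => (hder x hx).hasDerivWithinAt) hbd
  have q1 : Q 1 = (P.1 + z, P.2.1 + w, P.2.2) := by
    ext <;> simp [hQ, hV]
  have q0 : Q 0 = (P.1 + z', P.2.1 + w', P.2.2) := by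
    ext <;> simp [hQ]
  rw [q1, q0] at hmv
  convert! hmv using 2
  push_cast
  ring

theorem lag_bounds {L : ℂ × ℂ × ℂ → ℂ} {k1 : ℂ} {b M : ℝ} (h : Lag L k1 b M) :
    ∃ M' : ℝ, 1 ≤ M' ∧
    (∀ P ∈ DL (b / 2), ‖Lt L P‖ ≤ M' ∧ ‖LD L P‖ ≤ M' ∧ ‖Lt (Lt L) P‖ ≤ M' ∧
      ‖LD (Lt L) P‖ ≤ M' ∧ ‖LD (LD L) P‖ ≤ M' ∧
      ‖LD (LD L) P - 1‖ ≤ M' * (‖P.2.1 - 1‖ + ‖P.2.2‖)) ∧
    (∀ (P : ℂ × ℂ × ℂ) (z w z' w' : ℂ), P ∈ DL (b / 2) → (P.1 + z, P.2.1 + w, P.2.2) ∈ DL (b / 2) →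
      (P.1 + z', P.2.1 + w', P.2.2) ∈ DL (b / 2) →
      ‖Lt L (P.1 + z, P.2.1 + w, P.2.2) - Lt L (P.1 + z', P.2.1 + w', P.2.2) -
        Lt (Lt L) P * (z - z') - LD (Lt L) P * (w - w')‖ ≤
        M' * (‖z‖ + ‖w‖ + ‖z'‖ + ‖w'‖) * (‖z - z'‖ + ‖w - w'‖) ∧
      ‖LD L (P.1 + z, P.2.1 + w, P.2.2) - LD L (P.1 + z', P.2.1 + w', P.2.2) -
        LD (Lt L) P * (z - z') - LD (LD L) P * (w - w')‖ ≤
        M' * (‖z‖ + ‖w‖ + ‖z'‖ + ‖w'‖) * (‖z - z'‖ + ‖w - w'‖)) := by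
  have hb := h.b0
  have hU := isOpen_DL b
  have hM : 0 ≤ M := by
    have : ((0 : ℂ), (1 : ℂ), (0 : ℂ)) ∈ DL b := ⟨by simpa using hb, by simpa using hb,
      by simpa using hb⟩
    exact (norm_nonneg _).trans (h.bd _ this)
  have hsub : ∀ {b1 : ℝ}, b1 ≤ b → DL b1 ⊆ DL b := fun {b1} hb1 P hP =>
    ⟨hP.1.trans_le hb1, hP.2.1.trans_le hb1, hP.2.2.trans_le hb1⟩
  have n1 : ‖((1, 0, 0) : ℂ × ℂ × ℂ)‖ = 1 := by simp [Prod.norm_def]
  have n2 : ‖((0, 1, 0) : ℂ × ℂ × ℂ)‖ = 1 := by simp [Prod.norm_def]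
  -- first derivatives
  set K1 : ℝ := M / (b - 7 * b / 8) with hK1
  have hK1p : 0 ≤ K1 := div_nonneg hM (by linarith)
  have B1 : ∀ P ∈ DL (7 * b / 8), ‖fderiv ℂ L P‖ ≤ K1 :=
    LagF_bd h.diff le_rfl hM h.bd (by linarith)
  have B1' : ∀ v : ℂ × ℂ × ℂ, ‖v‖ = 1 → ∀ P ∈ DL (7 * b / 8), ‖fderiv ℂ L P v‖ ≤ K1 :=
    fun v hv P hP => by
      have := (fderiv ℂ L P).le_of_opNorm_le (B1 P hP) v
      rwa [hv, mul_one] at this
  -- second derivatives
  set K2 : ℝ := K1 / (7 * b / 8 - 3 * b / 4) with hK2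
  have hK2p : 0 ≤ K2 := div_nonneg hK1p (by linarith)
  have D1 : ∀ v : ℂ × ℂ × ℂ, DifferentiableOn ℂ (fun P => fderiv ℂ L P v) (DL b) := fun v =>
    LagF_diff hU h.diff v
  have B2 : ∀ v : ℂ × ℂ × ℂ, ‖v‖ = 1 → ∀ P ∈ DL (3 * b / 4),
      ‖fderiv ℂ (fun P => fderiv ℂ L P v) P‖ ≤ K2 := fun v hv =>
    LagF_bd (D1 v) (by linarith) hK1p (B1' v hv) (by linarith)
  have B2' : ∀ v : ℂ × ℂ × ℂ, ‖v‖ = 1 → ∀ w : ℂ × ℂ × ℂ, ‖w‖ = 1 → ∀ P ∈ DL (3 * b / 4),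
      ‖fderiv ℂ (fun P => fderiv ℂ L P v) P w‖ ≤ K2 := fun v hv w hw P hP => by
    have := (fderiv ℂ (fun P => fderiv ℂ L P v) P).le_of_opNorm_le (B2 v hv P hP) w
    rwa [hw, mul_one] at this
  -- third derivatives
  set K3 : ℝ := K2 / (3 * b / 4 - b / 2) with hK3
  have hK3p : 0 ≤ K3 := div_nonneg hK2p (by linarith)
  have D2 : ∀ v w : ℂ × ℂ × ℂ,
      DifferentiableOn ℂ (fun P => fderiv ℂ (fun P => fderiv ℂ L P v) P w) (DL b) := fun v w =>
    LagF_diff hU (D1 v) w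
  have B3 : ∀ v : ℂ × ℂ × ℂ, ‖v‖ = 1 → ∀ w : ℂ × ℂ × ℂ, ‖w‖ = 1 → ∀ P ∈ DL (b / 2),
      ‖fderiv ℂ (fun P => fderiv ℂ (fun P => fderiv ℂ L P v) P w) P‖ ≤ K3 := fun v hv w hw =>
    LagF_bd (D2 v w) (by linarith) hK2p (B2' v hv w hw) (by linarith)
  have s1 : DL (b / 2) ⊆ DL (7 * b / 8) := fun P hP =>
    ⟨hP.1.trans_le (by linarith), hP.2.1.trans_le (by linarith), hP.2.2.trans_le (by linarith)⟩
  have s2 : DL (b / 2) ⊆ DL (3 * b / 4) := fun P hP =>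
    ⟨hP.1.trans_le (by linarith), hP.2.1.trans_le (by linarith), hP.2.2.trans_le (by linarith)⟩
  have s0 : DL (b / 2) ⊆ DL b := hsub (by linarith)
  have stD : ∀ P ∈ DL b, Lt (LD L) P = LD (Lt L) P := (lag_facts h).2.1
  refine ⟨1 + K1 + K2 + K3, by linarith, fun P hP => ⟨?_, ?_, ?_, ?_, ?_, ?_⟩, ?_⟩
  · exact (B1' _ n1 P (s1 hP)).trans (by linarith)
  · exact (B1' _ n2 P (s1 hP)).trans (by linarith)
  · exact (B2' _ n1 _ n1 P (s2 hP)).trans (by linarith)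
  · exact (B2' _ n1 _ n2 P (s2 hP)).trans (by linarith)
  · exact (B2' _ n2 _ n2 P (s2 hP)).trans (by linarith)
  · have hP' : ((P.1, 1, 0) : ℂ × ℂ × ℂ) ∈ DL (b / 2) :=
      ⟨hP.1, by simpa using hb, by simpa using hb⟩
    have e1 : LD (LD L) (P.1, 1, 0) = 1 := h.nd P.1 (hP.1.trans (by linarith))
    have e2 : ‖LD (LD L) P - LD (LD L) (P.1, 1, 0)‖ ≤ K3 * ‖P - (P.1, 1, 0)‖ :=
      Convex.norm_image_sub_le_of_norm_fderiv_le (𝕜 := ℂ)
        (fun y hy => (D2 (0, 1, 0) (0, 1, 0)).differentiableAt (hU.mem_nhds (s0 hy)))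
        (B3 _ n2 _ n2) (LagF_convex _) hP' hP
    rw [e1] at e2
    have e3 : ‖P - (P.1, 1, 0)‖ ≤ ‖P.2.1 - 1‖ + ‖P.2.2‖ := by
      rw [Prod.norm_def, Prod.norm_def]
      have m1 := norm_nonneg (P.2.1 - 1)
      have m2 := norm_nonneg P.2.2
      refine max_le ?_ (max_le ?_ ?_)
      · simp only [Prod.fst_sub, sub_self, norm_zero]; positivity
      · simp only [Prod.snd_sub, Prod.fst_sub]; linarith
      · simp only [Prod.snd_sub, sub_zero]; linarith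
    calc ‖LD (LD L) P - 1‖ ≤ K3 * ‖P - (P.1, 1, 0)‖ := e2
      _ ≤ (1 + K1 + K2 + K3) * (‖P.2.1 - 1‖ + ‖P.2.2‖) := by
        gcongr
        linarith
  · intro P z w z' w' hP hZ hZ'
    have t1 := LagF_taylor (G := Lt L) (K := K3) ((D1 _).mono s0) (B3 _ n1 _ n1) (B3 _ n1 _ n2)
      hK3p P z w z' w' hP hZ hZ'
    have t2 := LagF_taylor (G := LD L) (K := K3) ((D1 _).mono s0) (B3 _ n2 _ n1) (B3 _ n2 _ n2)
      hK3p P z w z' w' hP hZ hZ'
    rw [stD P (s0 hP)] at t2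
    have hle : K3 * (‖z‖ + ‖w‖ + ‖z'‖ + ‖w'‖) * (‖z - z'‖ + ‖w - w'‖) ≤
        (1 + K1 + K2 + K3) * (‖z‖ + ‖w‖ + ‖z'‖ + ‖w'‖) * (‖z - z'‖ + ‖w - w'‖) := by
      gcongr
      linarith
    exact ⟨t1.trans hle, t2.trans hle⟩

end Pool.Agent.MP_ae5b4e_an_SM
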