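import Mathlib
import Pool.Agent.Lib.MP_ae5b4e_an_SM.Defs

/-!
# MP_ae5b4e_an, project SMOOTH: the loss factor
-/

noncomputable section

namespace Pool.Agent.MP_ae5b4e_an_SM

variable {δ : ℝ} {n m k : ℕ}

theorem lam_nonneg (n : ℕ) (h0 : 0 < δ) : 0 ≤ lam n δ := by
  unfold lam
  positivity

theorem one_le_div_lam (h0 : 0 < δ) (h1 : δ ≤ 1) (hn : 1 ≤ n) : 1 ≤ (n : ℝ) / δ := by
  have : (1:ℝ) ≤ n := by exact_mod_cast hn
  rw [le_div_iff₀ h0]
  linarith

theorem one_le_lam (n : ℕ) (h0 : 0 < δ) (h1 : δ ≤ 1) : 1 ≤ lam n δ := by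
  unfold lam
  rcases Nat.eq_zero_or_pos n with rfl | hn
  · simp
  · exact one_le_pow₀ (one_le_div_lam h0 h1 hn)

theorem lam_mono (h : n ≤ m) (h0 : 0 < δ) (h1 : δ ≤ 1) : lam n δ ≤ lam m δ := by
  rcases Nat.eq_zero_or_pos n with rfl | hn
  · simpa [lam] using one_le_lam m h0 h1
  · unfold lam
    have h2 : (n : ℝ) / δ ≤ m / δ := by
      have : (n:ℝ) ≤ m := by exact_mod_cast h
      gcongr
    calc ((n : ℝ) / δ) ^ n ≤ ((m : ℝ) / δ) ^ n := by gcongr
      _ ≤ ((m : ℝ) / δ) ^ m := pow_le_pow_right₀ (one_le_div_lam h0 h1 (le_trans hn h)) h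

theorem lam_mul_le (n m : ℕ) (h0 : 0 < δ) : lam n δ * lam m δ ≤ lam (n + m) δ := by
  unfold lam
  rw [pow_add]
  have h1 : (0:ℝ) ≤ n := n.cast_nonneg
  have h2 : (0:ℝ) ≤ m := m.cast_nonneg
  push_cast
  gcongr
  · linarith
  · linarith

theorem le_lam {C : ℝ} (hC : C ≤ n) (h0 : 0 < δ) (h1 : δ ≤ 1) : C ≤ lam n δ := by
  rcases Nat.eq_zero_or_pos n with rfl | hn
  · simp only [Nat.cast_zero] at hC
    exact hC.trans (lam_nonneg 0 h0)
  · have h2 := one_le_div_lam h0 h1 hn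
    have h3 : (n : ℝ) ≤ n / δ := by
      rw [le_div_iff₀ h0]
      have : (0:ℝ) ≤ n := n.cast_nonneg
      nlinarith
    unfold lam
    calc C ≤ n / δ := hC.trans h3
      _ = ((n : ℝ) / δ) ^ 1 := (pow_one _).symm
      _ ≤ _ := pow_le_pow_right₀ h2 hn

theorem inv_le_lam (hn : 1 ≤ n) (h0 : 0 < δ) (h1 : δ ≤ 1) : 1 / δ ≤ lam n δ := by
  unfold lam
  have h2 := one_le_div_lam h0 h1 hn
  have h3 : (1:ℝ) / δ ≤ n / δ := by
    have : (1:ℝ) ≤ n := by exact_mod_cast hn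
    gcongr
  calc 1 / δ ≤ ((n : ℝ) / δ) ^ 1 := by rw [pow_one]; exact h3
    _ ≤ _ := pow_le_pow_right₀ h2 hn

theorem lam_div_le (n : ℕ) (hk : 1 ≤ k) (h0 : 0 < δ) (h1 : δ ≤ 1) :
    lam n (δ / k) ≤ lam (n * k) δ := by
  rcases Nat.eq_zero_or_pos n with rfl | hn
  · simp [lam]
  · have hk0 : (0:ℝ) < k := by exact_mod_cast hk
    have h2 : (n : ℝ) / (δ / k) = ((n * k : ℕ) : ℝ) / δ := by
      push_cast
      field_simp
    unfold lam
    rw [h2]
    exact pow_le_pow_right₀ (one_le_div_lam h0 h1 (Nat.mul_pos hn hk))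
      (Nat.le_mul_of_pos_right n hk)

/-- absorption of a constant and of two losses with smaller steps into one loss -/
theorem absorb (C : ℝ) (n m k : ℕ) (hk : 1 ≤ k) : ∃ N : ℕ, ∀ δ : ℝ, 0 < δ → δ ≤ 1 →
    C * lam n (δ / k) * lam m (δ / k) ≤ lam N δ := by
  obtain ⟨j, hj⟩ := exists_nat_ge C
  refine ⟨j + (n * k + m * k), fun δ h0 h1 => ?_⟩
  have h2 := lam_div_le n hk h0 h1
  have h3 := lam_div_le m hk h0 h1
  have h4 : C ≤ lam j δ := le_lam hj h0 h1
  have hk0 : (0:ℝ) < k := by exact_mod_cast hk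
  have h5 : 0 < δ / k := by positivity
  have h6 := lam_nonneg n h5
  have h7 := lam_nonneg m h5
  have h8 := lam_nonneg j h0
  have h9 := lam_nonneg (n * k) h0
  calc C * lam n (δ / k) * lam m (δ / k) ≤ lam j δ * lam n (δ / k) * lam m (δ / k) := by
        gcongr
    _ ≤ lam j δ * lam (n * k) δ * lam (m * k) δ := by gcongr
    _ = lam j δ * (lam (n * k) δ * lam (m * k) δ) := by ring
    _ ≤ lam j δ * lam (n * k + m * k) δ := by
        gcongr
        exact lam_mul_le _ _ h0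
    _ ≤ _ := lam_mul_le _ _ h0

/-- powers are absorbed by the exponential -/
theorem pow_mul_exp_le (a : ℕ) {x : ℝ} (hx : 0 ≤ x) (h0 : 0 < δ) :
    x ^ a * Real.exp (-(2 * Real.pi * x * δ)) ≤ lam a δ := by
  have h1 := Real.pow_div_factorial_le_exp (x := 2 * Real.pi * x * δ) (by positivity) a
  have h2 : (a.factorial : ℝ) ≤ (a : ℝ) ^ a := by exact_mod_cast Nat.factorial_le_pow a
  have h3 : (0:ℝ) < a.factorial := by exact_mod_cast a.factorial_pos
  have hpi : (1:ℝ) ≤ 2 * Real.pi := by linarith [Real.pi_gt_three]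
  rw [Real.exp_neg, ← div_eq_mul_inv, div_le_iff₀ (Real.exp_pos _)]
  have h4 : x ^ a ≤ lam a δ * ((2 * Real.pi * x * δ) ^ a / a.factorial) := by
    unfold lam
    rw [div_pow, mul_pow, mul_pow, mul_pow (2 : ℝ) Real.pi]
    have h5 : (a : ℝ) ^ a / δ ^ a * (2 ^ a * Real.pi ^ a * x ^ a * δ ^ a / a.factorial) =
        (a : ℝ) ^ a / a.factorial * (2 * Real.pi) ^ a * x ^ a := by
      have : δ ^ a ≠ 0 := by positivity
      rw [mul_pow]
      field_simp
    rw [h5]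
    have h6 : 1 ≤ (a : ℝ) ^ a / a.factorial := by rwa [one_le_div h3]
    have h7 : 1 ≤ (2 * Real.pi) ^ a := one_le_pow₀ hpi
    have h8 : 0 ≤ x ^ a := by positivity
    have h9 : 1 ≤ (a : ℝ) ^ a / a.factorial * (2 * Real.pi) ^ a := one_le_mul_of_one_le_of_one_le h6 h7
    nlinarith
  exact h4.trans (mul_le_mul_of_nonneg_left h1 (lam_nonneg a h0))

/-! ### Parameters -/

variable {c r c' r' : ℝ}

theorem Par.r_pos (h : Par c r c' r' δ) : 0 < r := by
  by_contra hr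
  have := h.rr
  have h1 := h.r0
  have h2 := h.δ1
  have h3 := h.δ0
  push Not at hr
  nlinarith

theorem Par.c'_pos (h : Par c r c' r' δ) : 0 < c' := lt_of_lt_of_le h.r_pos h.rc

theorem Par.c_pos (h : Par c r c' r' δ) : 0 < c := by
  have := h.c'_pos
  have h2 := h.cc
  have h3 := h.δ0
  linarith

theorem Par.c'_le (h : Par c r c' r' δ) : c' ≤ c := by
  have h2 := h.cc
  have h3 := h.δ0
  linarith

theorem Par.r'_le (h : Par c r c' r' δ) : r' ≤ r := by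
  have h2 := h.rr
  have h3 := h.δ0
  have h4 := h.r_pos
  nlinarith [mul_pos h3 h4]

theorem Par.r_le_c (h : Par c r c' r' δ) : r ≤ c := h.rc.trans h.c'_le

theorem Par.r_le_one (h : Par c r c' r' δ) : r ≤ 1 := h.r_le_c.trans h.c1

theorem Par.r'_le_c' (h : Par c r c' r' δ) : r' ≤ c' := h.r'_le.trans h.rc

/-- the radius of the Cauchy estimates in `ρ` -/
theorem Par.δr (h : Par c r c' r' δ) : 0 < δ * r ∧ c' + δ * r ≤ c ∧ r' + δ * r ≤ r := by
  have h1 := h.δ0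
  have h2 := h.r_pos
  have h3 := h.r_le_one
  have h4 := h.cc
  refine ⟨mul_pos h1 h2, ?_, h.rr⟩
  nlinarith

/-- the `j`-th of `k` equal steps -/
theorem Par.sub (h : Par c r c' r' δ) {j : ℕ} (hj : j < k) :
    Par (c - j * (δ / k)) (r - j * (δ / k) * r) (c - (j + 1) * (δ / k)) (r - (j + 1) * (δ / k) * r)
      (δ / k) := by
  have hk0 : (0:ℝ) < k := by exact_mod_cast (Nat.zero_le j).trans_lt hj
  have hk1 : (1:ℝ) ≤ k := by exact_mod_cast (Nat.zero_le j).trans_lt hj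
  have hj0 : (0:ℝ) ≤ j := j.cast_nonneg
  have hj1 : (j:ℝ) + 1 ≤ k := by exact_mod_cast hj
  have hδ := h.δ0
  have hd : 0 < δ / k := by positivity
  have hr := h.r_pos
  have e1 : ((j:ℝ) + 1) * (δ / k) ≤ δ := by
    have : ((j:ℝ) + 1) * (δ / k) ≤ k * (δ / k) := by gcongr
    rwa [mul_div_cancel₀ _ hk0.ne'] at this
  have e2 : ((j:ℝ) + 1) * (δ / k) * r ≤ δ * r := mul_le_mul_of_nonneg_right e1 hr.le
  have e3 : 0 ≤ (j:ℝ) * (δ / k) := by positivity
  have e4 : 0 ≤ (j:ℝ) * (δ / k) * r := by positivity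
  refine ⟨hd, ?_, ?_, ?_, ?_, ?_, ?_⟩
  · rw [div_le_one hk0]
    exact h.δ1.trans hk1
  · linarith [h.c1]
  · linarith
  · linarith [h.rr, h.r0]
  · nlinarith [mul_nonneg hd.le e4]
  · linarith [h.rc, h.cc]

/-- the last of `k` equal steps is at least `(c', r')` -/
theorem Par.last (h : Par c r c' r' δ) (hk : 1 ≤ k) :
    c' ≤ c - k * (δ / k) ∧ r' ≤ r - k * (δ / k) * r := by
  have hk0 : (0:ℝ) < k := by exact_mod_cast hk
  have e : (k:ℝ) * (δ / k) = δ := by field_simp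
  rw [e]
  constructor
  · linarith [h.cc]
  · linarith [h.rr]

end Pool.Agent.MP_ae5b4e_an_SM
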