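import Mathlib
import Pool.Agent.Lib.MP_ae5b4e_an_SM.Defs

/-!
# MP_ae5b4e_an, project SMOOTH, module SA: algebra of the classes `PH`, `RP`
-/

noncomputable section

namespace Pool.Agent.MP_ae5b4e_an_SM

open Complex Set Filter Topology
open scoped ContDiff ComplexConjugate

variable {S S' : Finset ℤ} {c r c' r' M M' δ : ℝ} {f g : ℂ × ℂ → ℂ}

/-! ## SA  OpsA: algebra of the classes `PH`, `RP` (file OpsA.lean) -/

theorem Dm_mono (hS : S ⊆ S') (hc : c' ≤ c) (hr : r' ≤ r) : Dm S' c' r' ⊆ Dm S c r := by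
  intro p hp
  rw [mem_Dm] at hp ⊢
  exact ⟨fun s hs => lt_of_lt_of_le (hp.1 s (hS hs)) hc, lt_of_lt_of_le hp.2.1 hr,
    lt_of_lt_of_le hp.2.2 hr⟩

theorem PH.mono (h : PH S c r f) (hS : S ⊆ S') (hc : c' ≤ c) (hr : r' ≤ r) : PH S' c' r' f :=
  ⟨h.diff.mono (Dm_mono hS hc hr), fun p hp => h.per p (Dm_mono hS hc hr hp)⟩

theorem RP.mono (h : RP S c r f) (hS : S ⊆ S') (hc : c' ≤ c) (hr : r' ≤ r) : RP S' c' r' f :=
  { h.toPH.mono hS hc hr with
    real := fun p hp h1 h2 => h.real p (Dm_mono hS hc hr hp) h1 h2 }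

theorem HP.mono (h : HP S c r f M) (hS : S ⊆ S') (hc : c' ≤ c) (hr : r' ≤ r) (hM : M ≤ M') :
    HP S' c' r' f M' :=
  { h.toPH.mono hS hc hr with
    bd := fun p hp => (h.bd p (Dm_mono hS hc hr hp)).trans hM }

theorem AP.mono (h : AP S c r f M) (hS : S ⊆ S') (hc : c' ≤ c) (hr : r' ≤ r) (hM : M ≤ M') :
    AP S' c' r' f M' :=
  { h.toRP.mono hS hc hr with
    bd := fun p hp => (h.bd p (Dm_mono hS hc hr hp)).trans hM }

/-- the domain is invariant under `t ↦ t + 1` -/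
theorem mem_Dm_add_one {p : ℂ × ℂ} (hp : p ∈ Dm S c r) : ((p.1 + 1, p.2) : ℂ × ℂ) ∈ Dm S c r := by
  rw [mem_Dm] at hp ⊢
  simpa using hp

theorem PH.congr (h : PH S c r f) (hfg : ∀ p ∈ Dm S c r, g p = f p) : PH S c r g :=
  ⟨h.diff.congr hfg, fun p hp => by
    rw [hfg _ (mem_Dm_add_one hp), hfg _ hp, h.per p hp]⟩

theorem RP.congr (h : RP S c r f) (hfg : ∀ p ∈ Dm S c r, g p = f p) : RP S c r g :=
  { h.toPH.congr hfg with
    real := fun p hp h1 h2 => by rw [hfg p hp]; exact h.real p hp h1 h2 }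

theorem PH.ofρ {a : ℂ → ℂ} (ha : DifferentiableOn ℂ a (Rq r)) : PH S c r (fun p => a p.2) :=
  ⟨ha.comp (differentiable_snd.differentiableOn) (fun _ hp => hp.2), fun _ _ => rfl⟩

theorem RP.ofρ {a : ℂ → ℂ} (ha : DifferentiableOn ℂ a (Rq r))
    (hr : ∀ ρ ∈ Rq r, ρ.im = 0 → (a ρ).im = 0) : RP S c r (fun p => a p.2) :=
  { PH.ofρ ha with real := fun p hp _ h2 => hr p.2 hp.2 h2 }

theorem PH.const (a : ℂ) : PH S c r (fun _ => a) :=
  ⟨differentiableOn_const a, fun _ _ => rfl⟩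

theorem RP.const (a : ℝ) : RP S c r (fun _ => (a : ℂ)) :=
  { PH.const (a : ℂ) with real := fun _ _ _ _ => ofReal_im a }

theorem RP.rho : RP S c r (fun p => p.2) :=
  { PH.ofρ (S := S) (c := c) (r := r) (a := fun z => z) differentiableOn_id with
    real := fun _ _ _ h2 => h2 }

theorem PH.add (h : PH S c r f) (h' : PH S c r g) : PH S c r (fun p => f p + g p) :=
  ⟨h.diff.add h'.diff, fun p hp => by rw [h.per p hp, h'.per p hp]⟩

theorem RP.add (h : RP S c r f) (h' : RP S c r g) : RP S c r (fun p => f p + g p) :=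
  { h.toPH.add h'.toPH with
    real := fun p hp h1 h2 => by rw [add_im, h.real p hp h1 h2, h'.real p hp h1 h2, add_zero] }

theorem PH.neg (h : PH S c r f) : PH S c r (fun p => -f p) :=
  ⟨h.diff.neg, fun p hp => by rw [h.per p hp]⟩

theorem RP.neg (h : RP S c r f) : RP S c r (fun p => -f p) :=
  { h.toPH.neg with
    real := fun p hp h1 h2 => by rw [neg_im, h.real p hp h1 h2, neg_zero] }

theorem PH.sub (h : PH S c r f) (h' : PH S c r g) : PH S c r (fun p => f p - g p) :=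
  ⟨h.diff.sub h'.diff, fun p hp => by rw [h.per p hp, h'.per p hp]⟩

theorem RP.sub (h : RP S c r f) (h' : RP S c r g) : RP S c r (fun p => f p - g p) :=
  { h.toPH.sub h'.toPH with
    real := fun p hp h1 h2 => by rw [sub_im, h.real p hp h1 h2, h'.real p hp h1 h2, sub_zero] }

theorem PH.mul (h : PH S c r f) (h' : PH S c r g) : PH S c r (fun p => f p * g p) :=
  ⟨h.diff.mul h'.diff, fun p hp => by rw [h.per p hp, h'.per p hp]⟩

theorem RP.mul (h : RP S c r f) (h' : RP S c r g) : RP S c r (fun p => f p * g p) :=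
  { h.toPH.mul h'.toPH with
    real := fun p hp h1 h2 => by
      rw [mul_im, h.real p hp h1 h2, h'.real p hp h1 h2, mul_zero, zero_mul, add_zero] }

theorem PH.inv (h : PH S c r f) (h0 : ∀ p ∈ Dm S c r, f p ≠ 0) : PH S c r (fun p => (f p)⁻¹) :=
  ⟨h.diff.inv h0, fun p hp => by rw [h.per p hp]⟩

theorem RP.inv (h : RP S c r f) (h0 : ∀ p ∈ Dm S c r, f p ≠ 0) : RP S c r (fun p => (f p)⁻¹) :=
  { h.toPH.inv h0 with
    real := fun p hp h1 h2 => by rw [inv_im, h.real p hp h1 h2, neg_zero, zero_div] }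

theorem PH.div (h : PH S c r f) (h' : PH S c r g) (h0 : ∀ p ∈ Dm S c r, g p ≠ 0) :
    PH S c r (fun p => f p / g p) := by
  simpa only [div_eq_mul_inv] using h.mul (h'.inv h0)

theorem RP.div (h : RP S c r f) (h' : RP S c r g) (h0 : ∀ p ∈ Dm S c r, g p ≠ 0) :
    RP S c r (fun p => f p / g p) := by
  simpa only [div_eq_mul_inv] using h.mul (h'.inv h0)

theorem mem_sh {k : ℤ} (hS : ∀ s ∈ S, s + k ∈ S') {p : ℂ × ℂ} (hp : p ∈ Dm S' c r) :
    ((p.1 + k * p.2, p.2) : ℂ × ℂ) ∈ Dm S c r := by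
  rw [mem_Dm] at hp ⊢
  refine ⟨fun s hs => ?_, hp.2⟩
  have h := hp.1 (s + k) (hS s hs)
  have e : (p.1 + (k : ℂ) * p.2).im + s * p.2.im = p.1.im + ((s + k : ℤ) : ℝ) * p.2.im := by
    simp only [add_im, mul_im, intCast_re, intCast_im, zero_mul, add_zero, Int.cast_add]
    ring
  simpa only [e] using h

theorem PH.hsh (h : PH S c r f) (k : ℤ) (hS : ∀ s ∈ S, s + k ∈ S') : PH S' c r (sh k f) := by
  refine ⟨?_, fun p hp => ?_⟩
  · have hd : Differentiable ℂ (fun p : ℂ × ℂ => ((p.1 + k * p.2, p.2) : ℂ × ℂ)) := by fun_prop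
    exact h.diff.comp hd.differentiableOn (fun p hp => mem_sh hS hp)
  · have h1 := h.per _ (mem_sh hS hp)
    have e : p.1 + 1 + (k : ℂ) * p.2 = p.1 + (k : ℂ) * p.2 + 1 := by ring
    unfold sh
    simpa only [e] using h1

theorem RP.hsh (h : RP S c r f) (k : ℤ) (hS : ∀ s ∈ S, s + k ∈ S') : RP S' c r (sh k f) :=
  { h.toPH.hsh k hS with
    real := fun p hp h1 h2 => by
      refine h.real _ (mem_sh hS hp) ?_ h2
      simp [h1, h2] }

/-- real points of the strip -/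
theorem mem_real (hS : ∀ s ∈ S, |s| ≤ 1) (hr : r ≤ c) (x : ℝ) {ρ : ℂ} (hρ : ρ ∈ Rq r) :
    ((x : ℂ), ρ) ∈ Dm S c r := by
  rw [mem_Dm]
  refine ⟨fun s hs => ?_, hρ⟩
  have h1 : |(s : ℝ)| ≤ 1 := by exact_mod_cast hS s hs
  have h2 : |ρ.im| < r := hρ.2
  have h3 : |(s : ℝ) * ρ.im| ≤ |ρ.im| := by
    rw [abs_mul]
    exact mul_le_of_le_one_left (abs_nonneg _) h1
  simp only [ofReal_im, zero_add]
  linarith

end Pool.Agent.MP_ae5b4e_an_SM
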