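import Mathlib
import Pool.Agent.Lib.MP_ae5b4e_an_SM.OpsA
import Pool.Agent.Lib.SCV.Osgood

/-!
# MP_ae5b4e_an, project SMOOTH, module SB: derivatives and difference quotients
-/

noncomputable section

namespace Pool.Agent.MP_ae5b4e_an_SM

open Complex Set Filter Topology
open scoped ContDiff ComplexConjugate

variable {S S' : Finset ℤ} {c r c' r' M M' δ : ℝ} {f g : ℂ × ℂ → ℂ}

/-! ### auxiliary facts -/

theorem anB (h : DifferentiableOn ℂ f (Dm S c r)) : AnalyticOnNhd ℂ f (Dm S c r) :=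
  Pool.Agent.SCV.differentiableOn_analyticOnNhd _ (isOpen_Dm S c r) f h

theorem dAtB (h : DifferentiableOn ℂ f (Dm S c r)) {p : ℂ × ℂ} (hp : p ∈ Dm S c r) :
    DifferentiableAt ℂ f p := (h p hp).differentiableAt ((isOpen_Dm S c r).mem_nhds hp)

theorem hasDerivAt_fst {p : ℂ × ℂ} (h : DifferentiableAt ℂ f p) :
    HasDerivAt (fun s => f (s, p.2)) (fderiv ℂ f p (1, 0)) p.1 := by
  have h1 : HasDerivAt (fun s : ℂ => ((s, p.2) : ℂ × ℂ)) ((1, 0) : ℂ × ℂ) p.1 :=
    (hasDerivAt_id p.1).prodMk (hasDerivAt_const p.1 p.2)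
  have h2 : HasFDerivAt f (fderiv ℂ f p) (p.1, p.2) := h.hasFDerivAt
  exact h2.comp_hasDerivAt p.1 h1

theorem hasDerivAt_snd {p : ℂ × ℂ} (h : DifferentiableAt ℂ f p) :
    HasDerivAt (fun s => f (p.1, s)) (fderiv ℂ f p (0, 1)) p.2 := by
  have h1 : HasDerivAt (fun s : ℂ => ((p.1, s) : ℂ × ℂ)) ((0, 1) : ℂ × ℂ) p.2 :=
    (hasDerivAt_const p.2 p.1).prodMk (hasDerivAt_id p.2)
  have h2 : HasFDerivAt f (fderiv ℂ f p) (p.1, p.2) := h.hasFDerivAt
  exact h2.comp_hasDerivAt p.2 h1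

theorem dt_eqB {p : ℂ × ℂ} (h : DifferentiableAt ℂ f p) : dt f p = fderiv ℂ f p (1, 0) :=
  (hasDerivAt_fst h).deriv

theorem dr_eqB {p : ℂ × ℂ} (h : DifferentiableAt ℂ f p) : dr f p = fderiv ℂ f p (0, 1) :=
  (hasDerivAt_snd h).deriv

theorem diff_dt (h : DifferentiableOn ℂ f (Dm S c r)) : DifferentiableOn ℂ (dt f) (Dm S c r) := by
  have h1 : DifferentiableOn ℂ (fun p => fderiv ℂ f p (1, 0)) (Dm S c r) :=
    (anB h).fderiv.differentiableOn.clm_apply (differentiableOn_const _)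
  exact h1.congr (fun p hp => dt_eqB (dAtB h hp))

theorem diff_dr (h : DifferentiableOn ℂ f (Dm S c r)) : DifferentiableOn ℂ (dr f) (Dm S c r) := by
  have h1 : DifferentiableOn ℂ (fun p => fderiv ℂ f p (0, 1)) (Dm S c r) :=
    (anB h).fderiv.differentiableOn.clm_apply (differentiableOn_const _)
  exact h1.congr (fun p hp => dr_eqB (dAtB h hp))

theorem eventually_fst {p : ℂ × ℂ} (hp : p ∈ Dm S c r) :
    ∀ᶠ s in 𝓝 p.1, ((s, p.2) : ℂ × ℂ) ∈ Dm S c r := by
  have h1 : Continuous fun s : ℂ => ((s, p.2) : ℂ × ℂ) := by fun_prop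
  exact h1.continuousAt.eventually ((isOpen_Dm S c r).mem_nhds (by simpa using hp))

theorem eventually_snd {p : ℂ × ℂ} (hp : p ∈ Dm S c r) :
    ∀ᶠ s in 𝓝 p.2, ((p.1, s) : ℂ × ℂ) ∈ Dm S c r := by
  have h1 : Continuous fun s : ℂ => ((p.1, s) : ℂ × ℂ) := by fun_prop
  exact h1.continuousAt.eventually ((isOpen_Dm S c r).mem_nhds (by simpa using hp))

/-- a function which is real on the reals has a real derivative at real points -/
theorem real_deriv {h : ℂ → ℂ} {x : ℂ} (hx : x.im = 0) (hd : DifferentiableAt ℂ h x)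
    (hr : ∀ᶠ y in 𝓝 x, y.im = 0 → (h y).im = 0) : (deriv h x).im = 0 := by
  obtain ⟨a, rfl⟩ : ∃ a : ℝ, (a : ℂ) = x := ⟨x.re, by
    apply Complex.ext
    · simp
    · simp [hx]⟩
  have h1 : HasDerivAt (fun y : ℝ => h (y : ℂ)) (deriv h a) a := hd.hasDerivAt.comp_ofReal
  have h2 : HasDerivAt (fun y : ℝ => (h (y : ℂ)).im) (deriv h a).im a := by
    have := imCLM.hasFDerivAt.comp_hasDerivAt a h1
    exact this
  have h3 : (fun y : ℝ => (h (y : ℂ)).im) =ᶠ[𝓝 a] fun _ => 0 := by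
    have hc : ContinuousAt (fun y : ℝ => (y : ℂ)) a := continuous_ofReal.continuousAt
    filter_upwards [hc.eventually hr] with y hy
    exact hy (ofReal_im y)
  exact h2.unique ((hasDerivAt_const a (0 : ℝ)).congr_of_eventuallyEq h3)

/-- joint analyticity with a removable singularity at `ρ = 0` -/
theorem analytic_of_removable {U : Set (ℂ × ℂ)} (hU : IsOpen U) {g : ℂ × ℂ → ℂ}
    (hc : ContinuousOn g U) (hd : ∀ p ∈ U, p.2 ≠ 0 → DifferentiableAt ℂ g p)
    (h0 : ∀ p ∈ U, p.2 = 0 → DifferentiableAt ℂ (fun x => g (x, p.2)) p.1) :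
    AnalyticOnNhd ℂ g U := by
  apply Pool.Agent.SCV.osgood U hU g hc
  · intro p hp
    by_cases h : p.2 = 0
    · exact h0 p hp h
    · exact (hasDerivAt_fst (hd p hp h)).differentiableAt
  · intro p hp
    by_cases h : p.2 = 0
    · have hop : IsOpen ((fun w : ℂ => ((p.1, w) : ℂ × ℂ)) ⁻¹' U) := hU.preimage (by fun_prop)
      have hm : p.2 ∈ (fun w : ℂ => ((p.1, w) : ℂ × ℂ)) ⁻¹' U := by simpa using hp
      have hn := hop.mem_nhds hm
      refine DifferentiableOn.differentiableAt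
        ((differentiableOn_compl_singleton_and_continuousAt_iff hn).1 ⟨?_, ?_⟩) hn
      · intro w hw
        have hw0 : w ≠ 0 := by
          intro h1
          apply hw.2
          rw [h1, h]
          rfl
        exact (hasDerivAt_snd (p := (p.1, w)) (hd (p.1, w) hw.1
          hw0)).differentiableAt.differentiableWithinAt
      · have h2 : ContinuousAt g (p.1, p.2) := hc.continuousAt (hU.mem_nhds hp)
        exact ContinuousAt.comp (f := fun w : ℂ => ((p.1, w) : ℂ × ℂ)) h2 (by fun_prop)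
    · exact (hasDerivAt_snd (hd p hp h)).differentiableAt

/-- mean value inequality for the difference quotient -/
theorem nab_sub_le {p : ℂ × ℂ} {C : ℝ} {a : ℂ}
    (h : ∀ x ∈ segment ℝ p.1 (p.1 + p.2), DifferentiableAt ℂ (fun s => f (s, p.2)) x ∧
      ‖deriv (fun s => f (s, p.2)) x - a‖ ≤ C) : ‖nab f p - a‖ ≤ C := by
  by_cases h0 : p.2 = 0
  · have e : nab f p = deriv (fun s => f (s, p.2)) p.1 := by
      unfold nab
      rw [h0]
      simp
    rw [e]
    exact (h p.1 (left_mem_segment ℝ _ _)).2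
  · have hd : ∀ x ∈ segment ℝ p.1 (p.1 + p.2),
        HasDerivWithinAt (fun s => f (s, p.2) - a * s) (deriv (fun s => f (s, p.2)) x - a)
          (segment ℝ p.1 (p.1 + p.2)) x := by
      intro x hx
      have h1 := (h x hx).1.hasDerivAt.sub ((hasDerivAt_id x).const_mul a)
      rw [mul_one] at h1
      exact h1.hasDerivWithinAt
    have h2 := (convex_segment p.1 (p.1 + p.2)).norm_image_sub_le_of_norm_hasDerivWithin_le hd
      (fun x hx => (h x hx).2) (left_mem_segment ℝ _ _) (right_mem_segment ℝ _ _)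
    have e : nab f p - a = (f (p.1 + p.2, p.2) - a * (p.1 + p.2) - (f (p.1, p.2) - a * p.1)) /
        p.2 := by
      rw [nab_of_ne h0]
      field_simp
      ring
    rw [e, norm_div, div_le_iff₀ (norm_pos_iff.2 h0)]
    simpa using h2

theorem seg_Dm (hS : S ⊆ S') (hS' : ∀ s ∈ S, s + 1 ∈ S') {p : ℂ × ℂ} (hp : p ∈ Dm S' c r)
    {x : ℂ} (hx : x ∈ segment ℝ p.1 (p.1 + p.2)) : ((x, p.2) : ℂ × ℂ) ∈ Dm S c r := by
  have h1 : ((p.1, p.2) : ℂ × ℂ) ∈ Dm S c r := Dm_mono hS le_rfl le_rfl hp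
  have h2 : ((p.1 + p.2, p.2) : ℂ × ℂ) ∈ Dm S c r := by
    have := mem_sh (k := 1) hS' hp
    simpa using this
  obtain ⟨a, b, ha, hb, hab, rfl⟩ := hx
  have h3 := convex_Dm S c r h1 h2 ha hb hab
  have e : ((a • p.1 + b • (p.1 + p.2), p.2) : ℂ × ℂ) =
      a • ((p.1, p.2) : ℂ × ℂ) + b • ((p.1 + p.2, p.2) : ℂ × ℂ) := by
    ext
    · simp
    · simp only [Prod.snd_add, Prod.smul_snd]
      rw [← add_smul, hab, one_smul]
  rw [e]
  exact h3

theorem continuousOn_nab (h : DifferentiableOn ℂ f (Dm S c r)) (hS : S ⊆ S')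
    (hS' : ∀ s ∈ S, s + 1 ∈ S') : ContinuousOn (nab f) (Dm S' c r) := by
  have hdn : ∀ p ∈ Dm S' c r, p.2 ≠ 0 → DifferentiableAt ℂ (nab f) p := by
    intro p hp h0
    have h1 : p ∈ Dm S c r := Dm_mono hS le_rfl le_rfl hp
    have h2 : ((p.1 + p.2, p.2) : ℂ × ℂ) ∈ Dm S c r := by
      have := mem_sh (k := 1) hS' hp
      simpa using this
    have h3 : DifferentiableAt ℂ (fun p : ℂ × ℂ => f (p.1 + p.2, p.2)) p :=
      DifferentiableAt.comp p (g := f) (f := fun p : ℂ × ℂ => ((p.1 + p.2, p.2) : ℂ × ℂ))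
        (dAtB h h2) (by fun_prop)
    have h4 : DifferentiableAt ℂ (fun p : ℂ × ℂ => (f (p.1 + p.2, p.2) - f p) * p.2⁻¹) p :=
      (h3.sub (dAtB h h1)).mul (differentiableAt_snd.inv h0)
    refine h4.congr_of_eventuallyEq ?_
    have h5 : ∀ᶠ q : ℂ × ℂ in 𝓝 p, q.2 ≠ 0 :=
      continuous_snd.continuousAt.eventually_ne h0
    filter_upwards [h5] with q hq
    rw [nab_of_ne hq, div_eq_mul_inv]
  intro p hp
  by_cases h0 : p.2 = 0
  · apply ContinuousAt.continuousWithinAt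
    have h1 : p ∈ Dm S c r := Dm_mono hS le_rfl le_rfl hp
    have hcd : ContinuousAt (dt f) p :=
      (diff_dt h).continuousOn.continuousAt ((isOpen_Dm S c r).mem_nhds h1)
    have e0 : nab f p = dt f p := by
      have : p = (p.1, 0) := Prod.ext rfl h0
      rw [this]
      exact nab_zero f p.1
    rw [Metric.continuousAt_iff]
    intro ε hε
    obtain ⟨η, hη, hη2⟩ := Metric.continuousAt_iff.1 hcd (ε / 2) (half_pos hε)
    obtain ⟨κ, hκ, hκ2⟩ := Metric.isOpen_iff.1 (isOpen_Dm S' c r) p hp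
    refine ⟨min κ (η / 2), lt_min hκ (half_pos hη), fun {q} hq => ?_⟩
    have hq1 : q ∈ Dm S' c r := hκ2 (lt_of_lt_of_le hq (min_le_left _ _))
    have hq2 : dist q p < η / 2 := lt_of_lt_of_le hq (min_le_right _ _)
    have hq3 : ‖q.1 - p.1‖ < η / 2 ∧ ‖q.2 - p.2‖ < η / 2 := by
      rw [Prod.dist_eq, max_lt_iff, dist_eq_norm, dist_eq_norm] at hq2
      exact hq2
    rw [dist_eq_norm, e0]
    refine lt_of_le_of_lt (nab_sub_le (C := ε / 2) fun x hx => ?_) (half_lt_self hε)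
    have hxD := seg_Dm hS hS' hq1 hx
    have h2 := hasDerivAt_fst (dAtB h hxD)
    refine ⟨h2.differentiableAt, ?_⟩
    have h3 : dist ((x, q.2) : ℂ × ℂ) p < η := by
      rw [Prod.dist_eq, max_lt_iff, dist_eq_norm, dist_eq_norm]
      refine ⟨?_, by linarith [hq3.2]⟩
      have h4 : ‖x - q.1‖ ≤ ‖q.2‖ := by
        obtain ⟨a, b, ha, hb, hab, rfl⟩ := hx
        have : a • q.1 + b • (q.1 + q.2) - q.1 = b • q.2 := by
          have ha' : a = 1 - b := by linarith
          rw [ha']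
          simp only [real_smul]
          push_cast
          ring
        rw [this, norm_smul, Real.norm_eq_abs, abs_of_nonneg hb]
        exact mul_le_of_le_one_left (norm_nonneg _) (by linarith)
      have h5 : ‖q.2‖ < η / 2 := by
        have := hq3.2
        rwa [h0, sub_zero] at this
      have h6 : ‖x - p.1‖ ≤ ‖x - q.1‖ + ‖q.1 - p.1‖ := norm_sub_le_norm_sub_add_norm_sub _ _ _
      linarith [hq3.1]
    have h4 := hη2 h3
    rw [dist_eq_norm] at h4
    exact h4.le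
  · exact (hdn p hp h0).continuousAt.continuousWithinAt

theorem diffAt_nab (h : DifferentiableOn ℂ f (Dm S c r)) (hS : S ⊆ S')
    (hS' : ∀ s ∈ S, s + 1 ∈ S') {p : ℂ × ℂ} (hp : p ∈ Dm S' c r) (h0 : p.2 ≠ 0) :
    DifferentiableAt ℂ (nab f) p := by
  have h1 : p ∈ Dm S c r := Dm_mono hS le_rfl le_rfl hp
  have h2 : ((p.1 + p.2, p.2) : ℂ × ℂ) ∈ Dm S c r := by
    have := mem_sh (k := 1) hS' hp
    simpa using this
  have h3 : DifferentiableAt ℂ (fun p : ℂ × ℂ => f (p.1 + p.2, p.2)) p :=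
    DifferentiableAt.comp p (g := f) (f := fun p : ℂ × ℂ => ((p.1 + p.2, p.2) : ℂ × ℂ))
      (dAtB h h2) (by fun_prop)
  have h4 : DifferentiableAt ℂ (fun p : ℂ × ℂ => (f (p.1 + p.2, p.2) - f p) * p.2⁻¹) p :=
    (h3.sub (dAtB h h1)).mul (differentiableAt_snd.inv h0)
  refine h4.congr_of_eventuallyEq ?_
  have h5 : ∀ᶠ q : ℂ × ℂ in 𝓝 p, q.2 ≠ 0 :=
    continuous_snd.continuousAt.eventually_ne h0
  filter_upwards [h5] with q hq
  rw [nab_of_ne hq, div_eq_mul_inv]

theorem diff_nab (h : DifferentiableOn ℂ f (Dm S c r)) (hS : S ⊆ S')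
    (hS' : ∀ s ∈ S, s + 1 ∈ S') : DifferentiableOn ℂ (nab f) (Dm S' c r) := by
  refine (analytic_of_removable (isOpen_Dm S' c r) (continuousOn_nab h hS hS')
    (fun p hp h0 => diffAt_nab h hS hS' hp h0) ?_).differentiableOn
  intro p hp h0
  have h1 : p ∈ Dm S c r := Dm_mono hS le_rfl le_rfl hp
  have h2 : DifferentiableAt ℂ (fun x => dt f (x, p.2)) p.1 :=
    (hasDerivAt_fst (dAtB (diff_dt h) h1)).differentiableAt
  have e : (fun x => nab f (x, p.2)) = fun x => dt f (x, p.2) := by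
    funext x
    rw [h0]
    exact nab_zero f x
  rw [e]
  exact h2

/-! ## SB  OpsB: derivatives and difference quotients (file OpsB.lean) -/

theorem PH.hdt (h : PH S c r f) : PH S c r (dt f) := by
  refine ⟨diff_dt h.diff, fun p hp => ?_⟩
  have h1 : (fun s => f (s + 1, p.2)) =ᶠ[𝓝 p.1] fun s => f (s, p.2) := by
    filter_upwards [eventually_fst hp] with s hs
    exact h.per _ hs
  have h2 : deriv (fun s => f (s + 1, p.2)) p.1 = deriv (fun s => f (s, p.2)) (p.1 + 1) :=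
    deriv_comp_add_const (f := fun s => f (s, p.2)) 1 p.1
  unfold dt
  exact h2.symm.trans h1.deriv_eq

theorem RP.hdt (h : RP S c r f) : RP S c r (dt f) :=
  { h.toPH.hdt with
    real := fun p hp h1 h2 => by
      refine real_deriv h1 (hasDerivAt_fst (dAtB h.diff hp)).differentiableAt ?_
      filter_upwards [eventually_fst hp] with y hy h3
      exact h.real _ hy h3 h2 }

theorem PH.hdr (h : PH S c r f) : PH S c r (dr f) := by
  refine ⟨diff_dr h.diff, fun p hp => ?_⟩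
  have h1 : (fun s => f (p.1 + 1, s)) =ᶠ[𝓝 p.2] fun s => f (p.1, s) := by
    filter_upwards [eventually_snd hp] with s hs
    exact h.per _ hs
  unfold dr
  exact h1.deriv_eq

theorem RP.hdr (h : RP S c r f) : RP S c r (dr f) :=
  { h.toPH.hdr with
    real := fun p hp h1 h2 => by
      refine real_deriv h2 (hasDerivAt_snd (dAtB h.diff hp)).differentiableAt ?_
      filter_upwards [eventually_snd hp] with y hy h3
      exact h.real _ hy h1 h3 }

theorem PH.hnab (h : PH S c r f) (hS : S ⊆ S') (hS' : ∀ s ∈ S, s + 1 ∈ S') :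
    PH S' c r (nab f) := by
  refine ⟨diff_nab h.diff hS hS', fun p hp => ?_⟩
  have h1 : p ∈ Dm S c r := Dm_mono hS le_rfl le_rfl hp
  by_cases h0 : p.2 = 0
  · have e1 : ((p.1 + 1, p.2) : ℂ × ℂ) = (p.1 + 1, 0) := by rw [h0]
    have e2 : p = (p.1, 0) := Prod.ext rfl h0
    rw [e1, nab_zero]
    conv_rhs => rw [e2, nab_zero]
    have h2 := h.hdt.per p h1
    rw [h0] at h2
    rw [h2, ← e2]
  · have h2 : ((p.1 + p.2, p.2) : ℂ × ℂ) ∈ Dm S c r := by
      have := mem_sh (k := 1) hS' hp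
      simpa using this
    have e1 : nab f (p.1 + 1, p.2) = (f (p.1 + 1 + p.2, p.2) - f (p.1 + 1, p.2)) / p.2 :=
      nab_of_ne (p := (p.1 + 1, p.2)) h0
    rw [e1, nab_of_ne h0, h.per p h1]
    have h3 := h.per _ h2
    have e2 : p.1 + 1 + p.2 = p.1 + p.2 + 1 := by ring
    rw [e2, h3]

theorem RP.hnab (h : RP S c r f) (hS : S ⊆ S') (hS' : ∀ s ∈ S, s + 1 ∈ S') :
    RP S' c r (nab f) :=
  { h.toPH.hnab hS hS' with
    real := fun p hp hr1 hr2 => by
      have h1 : p ∈ Dm S c r := Dm_mono hS le_rfl le_rfl hp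
      by_cases h0 : p.2 = 0
      · have e2 : p = (p.1, 0) := Prod.ext rfl h0
        rw [e2, nab_zero, ← e2]
        exact h.hdt.real p h1 hr1 hr2
      · have h2 : ((p.1 + p.2, p.2) : ℂ × ℂ) ∈ Dm S c r := by
          have := mem_sh (k := 1) hS' hp
          simpa using this
        rw [nab_of_ne h0, div_im]
        have h3 := h.real p h1 hr1 hr2
        have h4 := h.real _ h2 (by simp [hr1, hr2]) hr2
        simp [h3, h4, hr2] }

/-- `∇⁻ f = (∇ f)⁻` -/
theorem nabm_eq_sh (f : ℂ × ℂ → ℂ) (p : ℂ × ℂ) : nabm f p = sh (-1) (nab f) p := by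
  by_cases h0 : p.2 = 0
  · have e2 : p = (p.1, 0) := Prod.ext rfl h0
    rw [e2]
    unfold sh
    rw [nabm_zero]
    simp only [mul_zero, add_zero]
    rw [nab_zero]
  · unfold sh
    rw [nabm_of_ne h0, nab_of_ne (p := (p.1 + ((-1 : ℤ) : ℂ) * p.2, p.2)) h0]
    have e : p.1 + ((-1 : ℤ) : ℂ) * p.2 = p.1 - p.2 := by
      push_cast
      ring
    rw [e]
    simp

theorem PH.hnabm (h : PH S c r f) (hS : S ⊆ S') (hS' : ∀ s ∈ S, s - 1 ∈ S') :
    PH S' c r (nabm f) := by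
  have e : nabm f = sh (-1) (nab f) := funext (nabm_eq_sh f)
  rw [e]
  have h1 : PH (S ∪ S.image (fun s => s + 1)) c r (nab f) :=
    h.hnab Finset.subset_union_left (fun s hs =>
      Finset.mem_union_right _ (Finset.mem_image_of_mem _ hs))
  refine h1.hsh (-1) (fun s hs => ?_)
  rcases Finset.mem_union.1 hs with hs | hs
  · exact hS' s hs
  · obtain ⟨a, ha, rfl⟩ := Finset.mem_image.1 hs
    have e : a + 1 + -1 = a := by ring
    rw [e]
    exact hS ha

theorem RP.hnabm (h : RP S c r f) (hS : S ⊆ S') (hS' : ∀ s ∈ S, s - 1 ∈ S') :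
    RP S' c r (nabm f) := by
  have e : nabm f = sh (-1) (nab f) := funext (nabm_eq_sh f)
  rw [e]
  have h1 : RP (S ∪ S.image (fun s => s + 1)) c r (nab f) :=
    h.hnab Finset.subset_union_left (fun s hs =>
      Finset.mem_union_right _ (Finset.mem_image_of_mem _ hs))
  refine h1.hsh (-1) (fun s hs => ?_)
  rcases Finset.mem_union.1 hs with hs | hs
  · exact hS' s hs
  · obtain ⟨a, ha, rfl⟩ := Finset.mem_image.1 hs
    have e : a + 1 + -1 = a := by ring
    rw [e]
    exact hS ha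

theorem dt_add_id (h : DifferentiableOn ℂ f (Dm S c r)) {p : ℂ × ℂ} (hp : p ∈ Dm S c r) :
    dt (fun q => f q + q.1) p = dt f p + 1 := by
  have h1 := (hasDerivAt_fst (dAtB h hp)).differentiableAt.hasDerivAt
  have h2 := h1.add (hasDerivAt_id p.1)
  exact h2.deriv

/-- difference quotients of the identity part -/
theorem nab_add_id (h : DifferentiableOn ℂ f (Dm S c r)) {p : ℂ × ℂ} (hp : p ∈ Dm S c r) :
    nab (fun q => f q + q.1) p = nab f p + 1 := by
  by_cases h0 : p.2 = 0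
  · have e2 : p = (p.1, 0) := Prod.ext rfl h0
    have h1 := dt_add_id h hp
    rw [e2] at h1 ⊢
    rw [nab_zero, nab_zero]
    exact h1
  · rw [nab_of_ne h0, nab_of_ne h0]
    field_simp
    ring

theorem rho_mul_nab (f : ℂ × ℂ → ℂ) (p : ℂ × ℂ) : p.2 * nab f p = sh 1 f p - f p := by
  unfold sh
  by_cases h0 : p.2 = 0
  · have e3 : ((p.1 + ((1 : ℤ) : ℂ) * p.2, p.2) : ℂ × ℂ) = p := by
      apply Prod.ext <;> simp [h0]
    rw [e3, h0, zero_mul, sub_self]
  · rw [nab_of_ne h0, mul_div_cancel₀ _ h0]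
    simp

theorem rho_mul_nabm (f : ℂ × ℂ → ℂ) (p : ℂ × ℂ) : p.2 * nabm f p = f p - sh (-1) f p := by
  unfold sh
  by_cases h0 : p.2 = 0
  · have e3 : ((p.1 + ((-1 : ℤ) : ℂ) * p.2, p.2) : ℂ × ℂ) = p := by
      apply Prod.ext <;> simp [h0]
    rw [e3, h0, zero_mul, sub_self]
  · rw [nabm_of_ne h0, mul_div_cancel₀ _ h0]
    have e : p.1 + ((-1 : ℤ) : ℂ) * p.2 = p.1 - p.2 := by
      push_cast
      ring
    rw [e]

/-- Cauchy estimate in `t` -/
theorem bd_dt (h : DifferentiableOn ℂ f (Dm S c r)) (hM : ∀ p ∈ Dm S c r, ‖f p‖ ≤ M)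
    (hδ : 0 < δ) (hc : c' + δ ≤ c) : ∀ p ∈ Dm S c' r, ‖dt f p‖ ≤ M / δ := by
  intro p hp
  have hmem : ∀ z ∈ Metric.closedBall p.1 δ, ((z, p.2) : ℂ × ℂ) ∈ Dm S c r := by
    intro z hz
    rw [mem_Dm] at hp ⊢
    refine ⟨fun s hs => ?_, hp.2⟩
    have h1 := hp.1 s hs
    rw [Metric.mem_closedBall, dist_eq_norm] at hz
    have h2 : |(z - p.1).im| ≤ δ := (abs_im_le_norm _).trans hz
    have e : z.im + s * p.2.im = (p.1.im + s * p.2.im) + (z - p.1).im := by
      simp only [sub_im]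
      ring
    show |z.im + s * p.2.im| < c
    rw [e]
    have h3 := abs_add_le (p.1.im + s * p.2.im) (z - p.1).im
    linarith
  have hd : DifferentiableOn ℂ (fun s => f (s, p.2)) (Metric.closedBall p.1 δ) := fun z hz =>
    (hasDerivAt_fst (dAtB h (hmem z hz))).differentiableAt.differentiableWithinAt
  exact norm_deriv_le_of_forall_mem_sphere_norm_le hδ (hd.diffContOnCl_ball Subset.rfl)
    (fun z hz => hM _ (hmem z (Metric.sphere_subset_closedBall hz)))

/-- Cauchy estimate in `ρ` -/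
theorem bd_dr (h : DifferentiableOn ℂ f (Dm S c r)) (hM : ∀ p ∈ Dm S c r, ‖f p‖ ≤ M)
    (hS : ∀ s ∈ S, |s| ≤ 1) (hδ : 0 < δ) (hc : c' + δ ≤ c) (hr : r' + δ ≤ r) :
    ∀ p ∈ Dm S c' r', ‖dr f p‖ ≤ M / δ := by
  intro p hp
  have hmem : ∀ z ∈ Metric.closedBall p.2 δ, ((p.1, z) : ℂ × ℂ) ∈ Dm S c r := by
    intro z hz
    rw [mem_Dm] at hp ⊢
    rw [Metric.mem_closedBall, dist_eq_norm] at hz
    have h2 : |(z - p.2).im| ≤ δ := (abs_im_le_norm _).trans hz
    have h2' : |(z - p.2).re| ≤ δ := (abs_re_le_norm _).trans hz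
    refine ⟨fun s hs => ?_, ?_, ?_⟩
    · have h1 := hp.1 s hs
      have hs1 : |(s : ℝ)| ≤ 1 := by exact_mod_cast hS s hs
      have e : p.1.im + s * z.im = (p.1.im + s * p.2.im) + s * (z - p.2).im := by
        simp only [sub_im]
        ring
      show |p.1.im + s * z.im| < c
      rw [e]
      have h3 := abs_add_le (p.1.im + s * p.2.im) (s * (z - p.2).im)
      have h4 : |(s : ℝ) * (z - p.2).im| ≤ δ := by
        rw [abs_mul]
        calc |(s : ℝ)| * |(z - p.2).im| ≤ 1 * δ :=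
              mul_le_mul hs1 h2 (abs_nonneg _) zero_le_one
          _ = δ := one_mul δ
      linarith
    · have e : z.re = p.2.re + (z - p.2).re := by
        simp only [sub_re]
        ring
      show |z.re| < r
      rw [e]
      have h3 := abs_add_le p.2.re (z - p.2).re
      linarith [hp.2.1]
    · have e : z.im = p.2.im + (z - p.2).im := by
        simp only [sub_im]
        ring
      show |z.im| < r
      rw [e]
      have h3 := abs_add_le p.2.im (z - p.2).im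
      linarith [hp.2.2]
  have hd : DifferentiableOn ℂ (fun s => f (p.1, s)) (Metric.closedBall p.2 δ) := fun z hz =>
    (hasDerivAt_snd (dAtB h (hmem z hz))).differentiableAt.differentiableWithinAt
  exact norm_deriv_le_of_forall_mem_sphere_norm_le hδ (hd.diffContOnCl_ball Subset.rfl)
    (fun z hz => hM _ (hmem z (Metric.sphere_subset_closedBall hz)))

theorem bd_nab (h : DifferentiableOn ℂ f (Dm S c r)) (hM : ∀ p ∈ Dm S c r, ‖dt f p‖ ≤ M)
    (hS : S ⊆ S') (hS' : ∀ s ∈ S, s + 1 ∈ S') : ∀ p ∈ Dm S' c r, ‖nab f p‖ ≤ M := by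
  intro p hp
  have h1 : ‖nab f p - 0‖ ≤ M := by
    refine nab_sub_le fun x hx => ?_
    have hxD := seg_Dm hS hS' hp hx
    refine ⟨(hasDerivAt_fst (dAtB h hxD)).differentiableAt, ?_⟩
    rw [sub_zero]
    exact hM _ hxD
  rwa [sub_zero] at h1

theorem bd_nabm (h : DifferentiableOn ℂ f (Dm S c r)) (hM : ∀ p ∈ Dm S c r, ‖dt f p‖ ≤ M)
    (hS : S ⊆ S') (hS' : ∀ s ∈ S, s - 1 ∈ S') : ∀ p ∈ Dm S' c r, ‖nabm f p‖ ≤ M := by
  intro p hp
  rw [nabm_eq_sh]
  have h1 := bd_nab (S' := S ∪ S.image (fun s => s + 1)) h hM Finset.subset_union_left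
    (fun s hs => Finset.mem_union_right _ (Finset.mem_image_of_mem _ hs))
  refine h1 _ (mem_sh (k := -1) (fun s hs => ?_) hp)
  rcases Finset.mem_union.1 hs with hs | hs
  · exact hS' s hs
  · obtain ⟨a, ha, rfl⟩ := Finset.mem_image.1 hs
    have e : a + 1 + -1 = a := by ring
    rw [e]
    exact hS ha

/-- continuous functions which agree for `ρ ≠ 0` agree -/
theorem eq_of_ne (hf : ContinuousOn f (Dm S c r)) (hg : ContinuousOn g (Dm S c r))
    (h : ∀ p ∈ Dm S c r, p.2 ≠ 0 → f p = g p) : ∀ p ∈ Dm S c r, f p = g p := by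
  intro p hp
  by_cases h0 : p.2 = 0
  · have hn := (isOpen_Dm S c r).mem_nhds hp
    have hf1 : ContinuousAt f (p.1, p.2) := hf.continuousAt hn
    have hg1 : ContinuousAt g (p.1, p.2) := hg.continuousAt hn
    have hi : ContinuousAt (fun w : ℂ => ((p.1, w) : ℂ × ℂ)) p.2 := by fun_prop
    have hf2 : Tendsto (fun w : ℂ => f (p.1, w)) (𝓝[≠] p.2) (𝓝 (f p)) :=
      (ContinuousAt.comp (f := fun w : ℂ => ((p.1, w) : ℂ × ℂ)) hf1 hi).tendsto.mono_left
        nhdsWithin_le_nhds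
    have hg2 : Tendsto (fun w : ℂ => g (p.1, w)) (𝓝[≠] p.2) (𝓝 (g p)) :=
      (ContinuousAt.comp (f := fun w : ℂ => ((p.1, w) : ℂ × ℂ)) hg1 hi).tendsto.mono_left
        nhdsWithin_le_nhds
    refine tendsto_nhds_unique (hf2.congr' ?_) hg2
    have h1 : ∀ᶠ w in 𝓝[≠] p.2, ((p.1, w) : ℂ × ℂ) ∈ Dm S c r :=
      (eventually_snd hp).filter_mono nhdsWithin_le_nhds
    have h2 : ∀ᶠ w in 𝓝[≠] p.2, w ≠ p.2 := eventually_mem_nhdsWithin
    filter_upwards [h1, h2] with w hw1 hw2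
    exact h _ hw1 (by rw [h0] at hw2; exact hw2)
  · exact h p hp h0

/-! ### conjugation -/

theorem mem_conj {p : ℂ × ℂ} (hp : p ∈ Dm S c r) :
    ((conj p.1, conj p.2) : ℂ × ℂ) ∈ Dm S c r := by
  rw [mem_Dm] at hp ⊢
  refine ⟨fun s hs => ?_, ?_, ?_⟩
  · have h1 := hp.1 s hs
    show |(conj p.1).im + s * (conj p.2).im| < c
    rw [conj_im, conj_im, mul_neg, ← neg_add, abs_neg]
    exact h1
  · show |(conj p.2).re| < r
    rw [conj_re]
    exact hp.2.1
  · show |(conj p.2).im| < r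
    rw [conj_im, abs_neg]
    exact hp.2.2

theorem diff_conj (h : DifferentiableOn ℂ f (Dm S c r)) :
    DifferentiableOn ℂ (fun p : ℂ × ℂ => conj (f (conj p.1, conj p.2))) (Dm S c r) := by
  intro p hp
  have h1 : DifferentiableAt ℂ f (star p) := dAtB h (mem_conj hp)
  have h2 := h1.star_star
  rw [_root_.star_star] at h2
  exact h2.differentiableWithinAt

/-- reality in symmetric form -/
theorem RP.conj_eq (h : RP S c r f) :
    ∀ p ∈ Dm S c r, f (conj p.1, conj p.2) = conj (f p) := by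
  intro p hp
  have h0 : ((0, 0) : ℂ × ℂ) ∈ Dm S c r := by
    rw [mem_Dm] at hp ⊢
    refine ⟨fun s hs => ?_, ?_, ?_⟩
    · simpa using lt_of_le_of_lt (abs_nonneg _) (hp.1 s hs)
    · simpa using lt_of_le_of_lt (abs_nonneg _) hp.2.1
    · simpa using lt_of_le_of_lt (abs_nonneg _) hp.2.2
  set g : ℂ × ℂ → ℂ := fun p => conj (f (conj p.1, conj p.2)) with hg
  have hgd : DifferentiableOn ℂ g (Dm S c r) := diff_conj h.diff
  have hreal : ∀ x w : ℂ, ((x, w) : ℂ × ℂ) ∈ Dm S c r → x.im = 0 → w.im = 0 →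
      f (x, w) = g (x, w) := by
    intro x w hxw hx hw
    have h1 : conj x = x := conj_eq_iff_im.2 hx
    have h2 : conj w = w := conj_eq_iff_im.2 hw
    have h3 : conj (f (x, w)) = f (x, w) := conj_eq_iff_im.2 (h.real _ hxw hx hw)
    rw [hg]
    simp only [h1, h2, h3]
  obtain ⟨ε, hε, hε2⟩ := Metric.isOpen_iff.1 (isOpen_Dm S c r) (0, 0) h0
  have hball : ∀ x w : ℂ, x ∈ Metric.ball (0 : ℂ) ε → w ∈ Metric.ball (0 : ℂ) ε →
      ((x, w) : ℂ × ℂ) ∈ Dm S c r := by
    intro x w hx hw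
    apply hε2
    rw [← ball_prod_same]
    exact ⟨hx, hw⟩
  have hfreq : ∃ᶠ x : ℂ in 𝓝[≠] (0 : ℂ), x.im = 0 ∧ x ∈ Metric.ball (0 : ℂ) ε := by
    have ht : Tendsto (fun y : ℝ => (y : ℂ)) (𝓝[≠] (0 : ℝ)) (𝓝[≠] (0 : ℂ)) := by
      apply tendsto_nhdsWithin_of_tendsto_nhds_of_eventually_within
      · have : Tendsto (fun y : ℝ => (y : ℂ)) (𝓝 (0 : ℝ)) (𝓝 ((0 : ℝ) : ℂ)) :=
          continuous_ofReal.tendsto 0
        rw [ofReal_zero] at this
        exact this.mono_left nhdsWithin_le_nhds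
      · filter_upwards [self_mem_nhdsWithin] with y hy
        simpa using hy
    refine ht.frequently (Eventually.frequently ?_)
    have h1 : ∀ᶠ y : ℝ in 𝓝[≠] (0 : ℝ), y ∈ Metric.ball (0 : ℝ) ε :=
      mem_nhdsWithin_of_mem_nhds (Metric.ball_mem_nhds _ hε)
    filter_upwards [h1] with y hy
    refine ⟨ofReal_im y, ?_⟩
    rw [Metric.mem_ball, dist_zero_right] at hy ⊢
    simpa using hy
  have step1 : ∀ w ∈ Metric.ball (0 : ℂ) ε, w.im = 0 → ∀ x ∈ Metric.ball (0 : ℂ) ε,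
      f (x, w) = g (x, w) := by
    intro w hw hwr
    have hA : ∀ F : ℂ × ℂ → ℂ, DifferentiableOn ℂ F (Dm S c r) →
        AnalyticOnNhd ℂ (fun x => F (x, w)) (Metric.ball (0 : ℂ) ε) := by
      intro F hF
      apply DifferentiableOn.analyticOnNhd _ Metric.isOpen_ball
      intro x hx
      exact (hasDerivAt_fst (p := (x, w))
        (dAtB hF (hball x w hx hw))).differentiableAt.differentiableWithinAt
    have := (hA f h.diff).eqOn_of_preconnected_of_frequently_eq (hA g hgd)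
      (convex_ball (0 : ℂ) ε).isPreconnected (Metric.mem_ball_self hε)
      (hfreq.mono fun x hx => hreal x w (hball x w hx.2 hw) hx.1 hwr)
    exact this
  have step2 : ∀ x ∈ Metric.ball (0 : ℂ) ε, ∀ w ∈ Metric.ball (0 : ℂ) ε,
      f (x, w) = g (x, w) := by
    intro x hx
    have hA : ∀ F : ℂ × ℂ → ℂ, DifferentiableOn ℂ F (Dm S c r) →
        AnalyticOnNhd ℂ (fun w => F (x, w)) (Metric.ball (0 : ℂ) ε) := by
      intro F hF
      apply DifferentiableOn.analyticOnNhd _ Metric.isOpen_ball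
      intro w hw
      exact (hasDerivAt_snd (p := (x, w))
        (dAtB hF (hball x w hx hw))).differentiableAt.differentiableWithinAt
    have := (hA f h.diff).eqOn_of_preconnected_of_frequently_eq (hA g hgd)
      (convex_ball (0 : ℂ) ε).isPreconnected (Metric.mem_ball_self hε)
      (hfreq.mono fun w hw => step1 w hw.2 hw.1 x hx)
    exact this
  have hev : f =ᶠ[𝓝 ((0, 0) : ℂ × ℂ)] g := by
    filter_upwards [Metric.ball_mem_nhds ((0, 0) : ℂ × ℂ) hε] with q hq
    rw [← ball_prod_same] at hq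
    exact step2 q.1 hq.1 q.2 hq.2
  have hall := (anB h.diff).eqOn_of_preconnected_of_eventuallyEq (anB hgd)
    (convex_Dm S c r).isPreconnected h0 hev
  have h1 : f p = conj (f (conj p.1, conj p.2)) := hall hp
  rw [h1, conj_conj]

/-- symmetrisation -/
theorem PH.symm (h : PH S c r f) :
    RP S c r (fun p => (f p + conj (f (conj p.1, conj p.2))) / 2) := by
  have hdiff : DifferentiableOn ℂ
      (fun p : ℂ × ℂ => (f p + conj (f (conj p.1, conj p.2))) / 2) (Dm S c r) := by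
    simp only [div_eq_mul_inv]
    exact (h.diff.add (diff_conj h.diff)).mul_const (2⁻¹ : ℂ)
  refine { diff := hdiff, per := ?_, real := ?_ }
  · intro p hp
    have h1 := h.per p hp
    have h2 := h.per _ (mem_conj hp)
    simp only [map_add, map_one] at h2 ⊢
    rw [h1, h2]
  · intro p hp hr1 hr2
    have h1 : conj p.1 = p.1 := conj_eq_iff_im.2 hr1
    have h2 : conj p.2 = p.2 := conj_eq_iff_im.2 hr2
    simp only [h1, h2]
    have h3 : (f p + conj (f p)) / 2 = ((f p).re : ℂ) := by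
      rw [add_conj]
      push_cast
      ring
    have h4 : f (p.1, p.2) = f p := rfl
    rw [h4, h3, ofReal_im]

end Pool.Agent.MP_ae5b4e_an_SM
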