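import Mathlib
import Pool.Agent.Lib.MP_ae5b4e_an_SM.Defs
import Pool.Agent.Lib.MP_ae5b4e_an_SM.Lam
import Pool.Agent.Lib.MP_ae5b4e_an_SM.OpsA
import Pool.Agent.Lib.MP_ae5b4e_an_SM.OpsB
import Pool.Agent.Lib.MP_ae5b4e_an_SM.LagF

/-!
# MP_ae5b4e_an, project SMOOTH, module SI: composition with the Lagrangian
-/

noncomputable section

namespace Pool.Agent.MP_ae5b4e_an_SM

open Complex Set Filter Topology
open scoped ContDiff ComplexConjugate

variable {S S' : Finset ℤ} {c r c' r' M M' δ : ℝ} {f g : ℂ × ℂ → ℂ}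

/-! ### Additivity of the difference quotients -/

private lemma slice_diff (h : DifferentiableOn ℂ f (Dm S c r)) {p : ℂ × ℂ} (hp : p ∈ Dm S c r) :
    DifferentiableAt ℂ (fun s => f (s, p.2)) p.1 := by
  have h1 : DifferentiableAt ℂ f (p.1, p.2) :=
    (h p hp).differentiableAt ((isOpen_Dm S c r).mem_nhds hp)
  exact h1.comp p.1 (differentiableAt_id.prodMk (differentiableAt_const _))

private lemma dt_add' (h : DifferentiableOn ℂ f (Dm S c r)) (h' : DifferentiableOn ℂ g (Dm S c r))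
    {p : ℂ × ℂ} (hp : p ∈ Dm S c r) : dt (fun q => f q + g q) p = dt f p + dt g p := by
  unfold dt
  exact deriv_fun_add (slice_diff h hp) (slice_diff h' hp)

private lemma dt_sub' (h : DifferentiableOn ℂ f (Dm S c r)) (h' : DifferentiableOn ℂ g (Dm S c r))
    {p : ℂ × ℂ} (hp : p ∈ Dm S c r) : dt (fun q => f q - g q) p = dt f p - dt g p := by
  unfold dt
  exact deriv_fun_sub (slice_diff h hp) (slice_diff h' hp)

private lemma nab_add' (h : DifferentiableOn ℂ f (Dm S c r)) (h' : DifferentiableOn ℂ g (Dm S c r))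
    {p : ℂ × ℂ} (hp : p ∈ Dm S c r) : nab (fun q => f q + g q) p = nab f p + nab g p := by
  by_cases h0 : p.2 = 0
  · obtain ⟨t, ρ⟩ := p
    simp only at h0
    subst h0
    rw [nab_zero, nab_zero, nab_zero]
    exact dt_add' h h' hp
  · rw [nab_of_ne h0, nab_of_ne h0, nab_of_ne h0]
    ring

private lemma nabm_sub' (h : DifferentiableOn ℂ f (Dm S c r)) (h' : DifferentiableOn ℂ g (Dm S c r))
    {p : ℂ × ℂ} (hp : p ∈ Dm S c r) : nabm (fun q => f q - g q) p = nabm f p - nabm g p := by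
  by_cases h0 : p.2 = 0
  · obtain ⟨t, ρ⟩ := p
    simp only at h0
    subst h0
    rw [nabm_zero, nabm_zero, nabm_zero]
    exact dt_sub' h h' hp
  · rw [nabm_of_ne h0, nabm_of_ne h0, nabm_of_ne h0]
    ring

section
variable {L : ℂ × ℂ × ℂ → ℂ} {k1 : ℂ} {b κ ε : ℝ} {F v : ℂ × ℂ → ℂ}

theorem GF.mono (hF : GF c r κ F) {κ' : ℝ} (hc : c' ≤ c) (hr : r' ≤ r) (hκ : κ ≤ κ') :
    GF c' r' κ' F :=
  ⟨hF.ap.mono subset_rfl hc hr hκ, fun p hp => (hF.dt1 p (Dm_mono subset_rfl hc hr hp)).trans hκ⟩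

theorem GF.diff (hF : GF c r κ F) : DifferentiableOn ℂ F (Dm {0} c r) := by
  have h := hF.ap.diff.add (differentiableOn_fst (𝕜 := ℂ) (E := ℂ) (F := ℂ) (s := Dm {0} c r))
  refine h.congr fun p _ => ?_
  simp

private lemma eq_add (F : ℂ × ℂ → ℂ) : (fun q => (F q - q.1) + q.1) = F := by
  funext q
  ring

private lemma dt_eq (hF : GF c r κ F) {p : ℂ × ℂ} (hp : p ∈ Dm {0} c r) :
    dt F p = dt (fun q => F q - q.1) p + 1 := by
  have h := dt_add_id hF.ap.diff hp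
  rwa [eq_add F] at h

private lemma nab_eq (hF : GF c r κ F) {p : ℂ × ℂ} (hp : p ∈ Dm {0} c r) :
    nab F p = nab (fun q => F q - q.1) p + 1 := by
  have h := nab_add_id hF.ap.diff hp
  rwa [eq_add F] at h

theorem GF.dt_RP (hF : GF c r κ F) : RP {0} c r (dt F) := by
  have h1 : RP {0} c r (fun p => dt (fun q => F q - q.1) p + ((1:ℝ) : ℂ)) :=
    hF.ap.toRP.hdt.add (RP.const 1)
  refine h1.congr fun p hp => ?_
  rw [dt_eq hF hp]
  simp

theorem GF.add (hF : GF c r κ F) {z : ℂ × ℂ → ℂ} {κ' κ₁ : ℝ} (hz : RP {0} c r z)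
    (h1 : ∀ p ∈ Dm {0} c r, ‖z p‖ ≤ κ') (h2 : ∀ p ∈ Dm {0} c r, ‖dt z p‖ ≤ κ')
    (h : κ + κ' ≤ κ₁) : GF c r κ₁ (fun p => F p + z p) := by
  refine ⟨?_, ?_⟩
  · have h3 : RP {0} c r (fun p => (F p - p.1) + z p) := hF.ap.toRP.add hz
    refine { h3.congr fun p _ => ?_ with bd := fun p hp => ?_ }
    · ring
    · have e : F p + z p - p.1 = (F p - p.1) + z p := by ring
      rw [e]
      exact (norm_add_le _ _).trans ((add_le_add (hF.ap.bd p hp) (h1 p hp)).trans h)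
  · intro p hp
    rw [dt_add' hF.diff hz.diff hp]
    have e : dt F p + dt z p - 1 = (dt F p - 1) + dt z p := by ring
    rw [e]
    exact (norm_add_le _ _).trans ((add_le_add (hF.dt1 p hp) (h2 p hp)).trans h)

/-! ### The bracket -/

private lemma sub01 : ({0} : Finset ℤ) ⊆ {0, 1} := by decide

private lemma sub101 : ({0, 1} : Finset ℤ) ⊆ {-1, 0, 1} := by decide

private lemma sub01' : ∀ s ∈ ({0} : Finset ℤ), s + 1 ∈ ({0, 1} : Finset ℤ) := by decide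

private lemma sub101' : ∀ s ∈ ({0, 1} : Finset ℤ), s - 1 ∈ ({-1, 0, 1} : Finset ℤ) := by decide

private lemma nab_near (hF : GF c r κ F) : ∀ p ∈ Dm {0, 1} c r, ‖nab F p - 1‖ ≤ κ := by
  intro p hp
  have hp0 : p ∈ Dm {0} c r := Dm_mono sub01 le_rfl le_rfl hp
  rw [nab_eq hF hp0, add_sub_cancel_right]
  refine bd_nab hF.ap.diff (fun q hq => ?_) sub01 sub01' p hp
  have := hF.dt1 q hq
  rwa [dt_eq hF hq, add_sub_cancel_right] at this

private lemma norm_snd {p : ℂ × ℂ} (hp : p ∈ Dm S c r) : ‖p.2‖ < 2 * r := by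
  have h := Complex.norm_le_abs_re_add_abs_im p.2
  have h1 := hp.2.1
  have h2 := hp.2.2
  linarith

private lemma im_fst {p : ℂ × ℂ} (hp : p ∈ Dm {0} c r) : |p.1.im| < c := by
  have := (mem_Dm.1 hp).1 0 (by simp)
  simpa using this

private lemma br_mem' (hF : GF c r κ F) (hb : 0 < b) (hc : c ≤ b / 16) (hr : r ≤ b / 16)
    (hκ : κ ≤ b / 8) : ∀ p ∈ Dm {0, 1} c r, br F p ∈ DL (b / 4) := by
  intro p hp
  have hp0 : p ∈ Dm {0} c r := Dm_mono sub01 le_rfl le_rfl hp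
  refine ⟨?_, ?_, ?_⟩
  · have h1 := hF.ap.bd p hp0
    have h2 := (Complex.abs_im_le_norm (F p - p.1)).trans h1
    have h3 := im_fst hp0
    have e : (F p).im = (F p - p.1).im + p.1.im := by simp
    change |(F p).im| < b / 4
    rw [e]
    have := abs_add_le (F p - p.1).im p.1.im
    linarith
  · have h1 := nab_near hF p hp
    change ‖nab F p - 1‖ < b / 4
    linarith
  · have h1 := norm_snd hp
    change ‖p.2‖ < b / 4
    linarith

theorem br_mem (hF : GF c r κ F) (hb : 0 < b) (hc : c ≤ b / 16) (hr : r ≤ b / 16)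
    (hκ : κ ≤ b / 16) : ∀ p ∈ Dm {0, 1} c r, br F p ∈ DL (b / 4) :=
  br_mem' hF hb hc hr (by linarith)

private lemma DL_mono {b b' : ℝ} (h : b' ≤ b) : DL b' ⊆ DL b := fun _ hP =>
  ⟨hP.1.trans_le h, hP.2.1.trans_le h, hP.2.2.trans_le h⟩

private lemma shift_mem {p : ℂ × ℂ} (hp : p ∈ Dm S c r) : ((p.1 + 1, p.2) : ℂ × ℂ) ∈ Dm S c r := by
  rw [mem_Dm] at hp ⊢
  simpa using hp

private lemma nab_PH (hF : GF c r κ F) : RP {0, 1} c r (nab F) := by
  have h1 : RP {0, 1} c r (fun p => nab (fun q => F q - q.1) p + ((1:ℝ) : ℂ)) :=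
    (hF.ap.toRP.hnab sub01 sub01').add (RP.const 1)
  refine h1.congr fun p hp => ?_
  rw [nab_eq hF (Dm_mono sub01 le_rfl le_rfl hp)]
  simp

private lemma br_RP' (hL : Lag L k1 b M) (hF : GF c r κ F) (hc : c ≤ b / 16) (hr : r ≤ b / 16)
    (hκ : κ ≤ b / 8) : ∀ Λ ∈ LL L, RP {0, 1} c r (fun p => Λ (br F p)) := by
  intro Λ hΛ
  obtain ⟨hd, hper, hreal⟩ := (lag_facts hL).1 Λ hΛ
  have hb := hL.b0
  have hmem : ∀ p ∈ Dm {0, 1} c r, br F p ∈ DL b := fun p hp =>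
    DL_mono (by linarith) (br_mem' hF hb hc hr hκ p hp)
  have hn := nab_PH hF
  have hsub : Dm {0, 1} c r ⊆ Dm {0} c r := Dm_mono sub01 le_rfl le_rfl
  refine { diff := ?_, per := ?_, real := ?_ }
  · have h1 : DifferentiableOn ℂ (br F) (Dm {0, 1} c r) :=
      (hF.diff.mono hsub).prodMk (hn.diff.prodMk differentiableOn_snd)
    exact hd.comp h1 hmem
  · intro p hp
    have h1 : F (p.1 + 1, p.2) = F p + 1 := by
      have := hF.ap.per p (hsub hp)
      simp only at this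
      linear_combination this
    have h2 : nab F (p.1 + 1, p.2) = nab F p := hn.per p hp
    have h3 : br F (p.1 + 1, p.2) = ((br F p).1 + 1, (br F p).2) := by
      unfold br
      rw [h1, h2]
    rw [h3]
    exact hper _ (hmem p hp)
  · intro p hp h1 h2
    refine hreal _ (hmem p hp) ?_ (hn.real p hp h1 h2) h2
    have h3 := hF.ap.real p (hsub hp) h1 h2
    have e : (F p).im = (F p - p.1).im + p.1.im := by simp
    change (F p).im = 0
    rw [e, h3, h1, add_zero]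

theorem br_RP (hL : Lag L k1 b M) (hF : GF c r κ F) (hc : c ≤ b / 16) (hr : r ≤ b / 16)
    (hκ : κ ≤ b / 16) : ∀ Λ ∈ LL L, RP {0, 1} c r (fun p => Λ (br F p)) :=
  br_RP' hL hF hc hr (by linarith [hL.b0])

theorem EL_RP (hL : Lag L k1 b M) (hF : GF c r κ F) (hc : c ≤ b / 16) (hr : r ≤ b / 16)
    (hκ : κ ≤ b / 16) : RP {-1, 0, 1} c r (EL L F) := by
  have h1 := (br_RP hL hF hc hr hκ (Lt L) (by simp [LL])).mono sub101 le_rfl le_rfl
  have h2 := (br_RP hL hF hc hr hκ (LD L) (by simp [LL])).hnabm sub101 sub101'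
  exact h1.sub h2

theorem aa_RP (hL : Lag L k1 b M) (hF : GF c r κ F) (hc : c ≤ b / 16) (hr : r ≤ b / 16)
    (hκ : κ ≤ b / 16) : RP {0, 1} c r (aa L F) := by
  have h1 := hF.dt_RP.mono sub01 le_rfl le_rfl
  have h2 := hF.dt_RP.hsh 1 sub01'
  have h3 := br_RP hL hF hc hr hκ (LD (LD L)) (by simp [LL])
  have h4 := br_RP hL hF hc hr hκ (LD (Lt L)) (by simp [LL])
  exact (h1.mul h2).mul (h3.sub (RP.rho.mul h4))

private lemma sh_near (hF : GF c r κ F) : ∀ p ∈ Dm {0, 1} c r, ‖sh 1 (dt F) p - 1‖ ≤ κ :=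
  fun p hp => hF.dt1 _ (mem_sh (k := 1) sub01' hp)

/-- the coefficient `a` is close to `1` -/
theorem aa_near (hL : Lag L k1 b M) : ∃ κ₀ : ℝ, 0 < κ₀ ∧ κ₀ ≤ b / 16 ∧ ∀ (c r : ℝ)
    (F : ℂ × ℂ → ℂ), c ≤ b / 16 → r ≤ κ₀ → GF c r κ₀ F →
    ∀ p ∈ Dm {0, 1} c r, ‖aa L F p - 1‖ ≤ 1 / 4 := by
  obtain ⟨M', hM1, hM2, -⟩ := lag_bounds hL
  have hb := hL.b0
  have hM0 : 0 < M' := by linarith
  refine ⟨min (b / 16) (1 / (100 * M')), lt_min (by positivity) (by positivity),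
    min_le_left _ _, ?_⟩
  intro c r F hc hr hF p hp
  set κ₀ := min (b / 16) (1 / (100 * M')) with hκ₀
  have hκ1 : κ₀ ≤ b / 16 := min_le_left _ _
  have hκ2 : κ₀ ≤ 1 / (100 * M') := min_le_right _ _
  have hκ3 : M' * κ₀ ≤ 1 / 100 := by
    have : M' * κ₀ ≤ M' * (1 / (100 * M')) := by gcongr
    refine this.trans (le_of_eq ?_)
    field_simp
  have hκpos : 0 < κ₀ := lt_min (by positivity) (by positivity)
  have hκ4 : κ₀ ≤ 1 / 100 := by nlinarith
  have hmem : br F p ∈ DL (b / 2) :=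
    DL_mono (by linarith) (br_mem hF hb hc (hr.trans hκ1) hκ1 p hp)
  obtain ⟨-, -, -, h4, -, h6⟩ := hM2 _ hmem
  have hA : ‖dt F p - 1‖ ≤ 1 / 100 :=
    (hF.dt1 p (Dm_mono sub01 le_rfl le_rfl hp)).trans hκ4
  have hB : ‖sh 1 (dt F) p - 1‖ ≤ 1 / 100 := (sh_near hF p hp).trans hκ4
  have hn : ‖(br F p).2.1 - 1‖ ≤ κ₀ := nab_near hF p hp
  have hρ : ‖p.2‖ ≤ 2 * κ₀ := (norm_snd hp).le.trans (by linarith)
  have hρ' : ‖(br F p).2.2‖ ≤ 2 * κ₀ := hρ
  have hC : ‖LD (LD L) (br F p) - p.2 * LD (Lt L) (br F p) - 1‖ ≤ 1 / 20 := by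
    have e : LD (LD L) (br F p) - p.2 * LD (Lt L) (br F p) - 1 =
        (LD (LD L) (br F p) - 1) - p.2 * LD (Lt L) (br F p) := by ring
    rw [e]
    refine (norm_sub_le _ _).trans ?_
    rw [norm_mul]
    have h7 : M' * (‖(br F p).2.1 - 1‖ + ‖(br F p).2.2‖) ≤ M' * (κ₀ + 2 * κ₀) := by gcongr
    have h8 : ‖p.2‖ * ‖LD (Lt L) (br F p)‖ ≤ 2 * κ₀ * M' := by gcongr
    nlinarith
  have e : aa L F p - 1 = (dt F p - 1) * (sh 1 (dt F) p *
      (LD (LD L) (br F p) - p.2 * LD (Lt L) (br F p))) + (sh 1 (dt F) p - 1) *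
      (LD (LD L) (br F p) - p.2 * LD (Lt L) (br F p)) +
      (LD (LD L) (br F p) - p.2 * LD (Lt L) (br F p) - 1) := by
    unfold aa
    ring
  set A := dt F p
  set B := sh 1 (dt F) p
  set C := LD (LD L) (br F p) - p.2 * LD (Lt L) (br F p)
  have hB' : ‖B‖ ≤ 2 := by
    have : ‖B‖ ≤ ‖B - 1‖ + ‖(1:ℂ)‖ := by simpa using norm_add_le (B - 1) 1
    rw [norm_one] at this
    linarith
  have hC' : ‖C‖ ≤ 2 := by
    have : ‖C‖ ≤ ‖C - 1‖ + ‖(1:ℂ)‖ := by simpa using norm_add_le (C - 1) 1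
    rw [norm_one] at this
    linarith
  rw [e]
  refine (norm_add_le _ _).trans ((add_le_add (norm_add_le _ _) le_rfl).trans ?_)
  rw [norm_mul, norm_mul, norm_mul]
  have h9 : ‖A - 1‖ * (‖B‖ * ‖C‖) ≤ 1 / 100 * (2 * 2) := by gcongr
  have h10 : ‖B - 1‖ * ‖C‖ ≤ 1 / 100 * 2 := by gcongr
  linarith

/-- Taylor's formula for `EL` -/
theorem EL_taylor (hL : Lag L k1 b M) : ∃ n : ℕ, ∀ (c r c' δ κ η : ℝ) (F z : ℂ × ℂ → ℂ),
    0 < δ → δ ≤ 1 → c' + δ ≤ c → c ≤ b / 16 → r ≤ b / 16 → GF c r κ F → κ ≤ b / 16 →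
    RP {0} c r z → (∀ p ∈ Dm {0} c r, ‖z p‖ ≤ η) → (∀ p ∈ Dm {0} c r, ‖dt z p‖ ≤ η) →
    η ≤ b / 16 →
    ∀ p ∈ Dm {-1, 0, 1} c' r,
      ‖EL L (fun q => F q + z q) p - EL L F p - JJ L F z p‖ ≤ lam n δ * η ^ 2 := by
  obtain ⟨M', hM1, -, hM3⟩ := lag_bounds hL
  obtain ⟨n, hn⟩ := exists_nat_ge (8 * M')
  refine ⟨n + 1, ?_⟩
  intro c r c' δ κ η F z hδ hδ1 hcc hc hr hF hκ hz hz1 hz2 hη p hp
  have hb := hL.b0
  have hc'c : c' ≤ c := by linarith
  have hZ : GF c r (κ + η) (fun q => F q + z q) := hF.add hz hz1 hz2 le_rfl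
  have hκη : κ + η ≤ b / 8 := by linarith
  -- domains
  have hs1 : Dm {0, 1} c r ⊆ Dm {0} c r := Dm_mono sub01 le_rfl le_rfl
  have hs2 : Dm {-1, 0, 1} c r ⊆ Dm {0, 1} c r := Dm_mono sub101 le_rfl le_rfl
  have hpc : p ∈ Dm {-1, 0, 1} c r := Dm_mono subset_rfl hc'c le_rfl hp
  have hη0 : 0 ≤ η := (norm_nonneg _).trans (hz1 p (hs1 (hs2 hpc)))
  -- the bracket of the sum
  have hbr : ∀ q ∈ Dm {0, 1} c r, br (fun q => F q + z q) q =
      ((br F q).1 + z q, (br F q).2.1 + nab z q, (br F q).2.2) := by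
    intro q hq
    unfold br
    rw [nab_add' hF.diff hz.diff (hs1 hq)]
  have hmF : ∀ q ∈ Dm {0, 1} c r, br F q ∈ DL (b / 2) := fun q hq =>
    DL_mono (by linarith) (br_mem hF hb hc hr hκ q hq)
  have hmZ : ∀ q ∈ Dm {0, 1} c r, br (fun q => F q + z q) q ∈ DL (b / 2) := fun q hq =>
    DL_mono (by linarith) (br_mem' hZ hb hc hr hκη q hq)
  have hnz : ∀ q ∈ Dm {0, 1} c r, ‖nab z q‖ ≤ η := bd_nab hz.diff hz2 sub01 sub01'
  have hrem : ∀ q ∈ Dm {0, 1} c r,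
      ‖Lt L (br (fun q => F q + z q) q) - Lt L (br F q) -
        (Lt (Lt L) (br F q) * z q + LD (Lt L) (br F q) * nab z q)‖ ≤ 4 * M' * η ^ 2 ∧
      ‖LD L (br (fun q => F q + z q) q) - LD L (br F q) -
        (LD (Lt L) (br F q) * z q + LD (LD L) (br F q) * nab z q)‖ ≤ 4 * M' * η ^ 2 := by
    intro q hq
    have hm2 := hmZ q hq
    rw [hbr q hq] at hm2
    obtain ⟨h1, h2⟩ := hM3 (br F q) (z q) (nab z q) 0 0 (hmF q hq) hm2
      (by simpa using hmF q hq)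
    have e0 : ((br F q).1 + 0, (br F q).2.1 + 0, (br F q).2.2) = br F q := by simp
    rw [e0, sub_zero, sub_zero, norm_zero] at h1 h2
    have h3 : M' * (‖z q‖ + ‖nab z q‖ + 0 + 0) * (‖z q‖ + ‖nab z q‖) ≤
        M' * (η + η + 0 + 0) * (η + η) := by
      have := hz1 q (hs1 hq)
      have := hnz q hq
      gcongr
    rw [hbr q hq]
    constructor
    · refine le_trans (le_of_eq ?_) (h1.trans (h3.trans (le_of_eq (by ring))))
      congr 1
      ring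
    · refine le_trans (le_of_eq ?_) (h2.trans (h3.trans (le_of_eq (by ring))))
      congr 1
      ring
  -- the remainder of the second derivative
  have hgZ := br_RP' hL hZ hc hr hκη (LD L) (by simp [LL])
  have hgF := br_RP hL hF hc hr hκ (LD L) (by simp [LL])
  have hg1 := br_RP hL hF hc hr hκ (LD (Lt L)) (by simp [LL])
  have hg2 := br_RP hL hF hc hr hκ (LD (LD L)) (by simp [LL])
  have hnz' : RP {0, 1} c r (nab z) := hz.hnab sub01 sub01'
  have hgJ : RP {0, 1} c r (fun q => LD (Lt L) (br F q) * z q + LD (LD L) (br F q) * nab z q) :=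
    (hg1.mul (hz.mono sub01 le_rfl le_rfl)).add (hg2.mul hnz')
  have hd1 : DifferentiableOn ℂ (fun q => LD L (br (fun q => F q + z q) q) - LD L (br F q))
      (Dm {0, 1} c r) := (hgZ.sub hgF).diff
  have hd2 : DifferentiableOn ℂ (fun q => LD L (br (fun q => F q + z q) q) - LD L (br F q) -
      (LD (Lt L) (br F q) * z q + LD (LD L) (br F q) * nab z q)) (Dm {0, 1} c r) :=
    hd1.sub hgJ.diff
  have hdt := bd_dt hd2 (fun q hq => (hrem q hq).2) hδ hcc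
  have hs3 : Dm {0, 1} c' r ⊆ Dm {0, 1} c r := Dm_mono subset_rfl hc'c le_rfl
  have hnm := bd_nabm (hd2.mono hs3) hdt sub101 sub101' p hp
  rw [nabm_sub' hd1 hgJ.diff (hs2 hpc), nabm_sub' hgZ.diff hgF.diff (hs2 hpc)] at hnm
  have h1 := (hrem p (hs2 hpc)).1
  have e : EL L (fun q => F q + z q) p - EL L F p - JJ L F z p =
      (Lt L (br (fun q => F q + z q) p) - Lt L (br F p) -
        (Lt (Lt L) (br F p) * z p + LD (Lt L) (br F p) * nab z p)) -
      (nabm (fun q => LD L (br (fun q => F q + z q) q)) p - nabm (fun q => LD L (br F q)) p -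
        nabm (fun q => LD (Lt L) (br F q) * z q + LD (LD L) (br F q) * nab z q) p) := by
    unfold EL JJ
    ring
  rw [e]
  refine (norm_sub_le _ _).trans ((add_le_add h1 hnm).trans ?_)
  have h5 : 8 * M' ≤ lam n δ := le_lam hn hδ hδ1
  have h6 : 1 / δ ≤ lam 1 δ := inv_le_lam le_rfl hδ hδ1
  have h7 := lam_mul_le n 1 hδ
  have h8 : 1 ≤ 1 / δ := by rwa [one_le_div hδ]
  have h9 : 0 ≤ lam n δ := lam_nonneg n hδ
  have h10 : 8 * M' * (1 / δ) ≤ lam (n + 1) δ := by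
    refine le_trans ?_ h7
    gcongr
  have hη2 : 0 ≤ η ^ 2 := sq_nonneg η
  calc 4 * M' * η ^ 2 + 4 * M' * η ^ 2 / δ
      = (4 * M' * η ^ 2) * (1 + 1 / δ) := by ring
    _ ≤ (4 * M' * η ^ 2) * (1 / δ + 1 / δ) := by
        have : 0 ≤ 4 * M' * η ^ 2 := by positivity
        gcongr
    _ = 8 * M' * (1 / δ) * η ^ 2 := by ring
    _ ≤ lam (n + 1) δ * η ^ 2 := by gcongr

end

end Pool.Agent.MP_ae5b4e_an_SM
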