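import Mathlib
import Pool.Agent.Lib.MP_ae5b4e_an_SM.Defs
import Pool.Agent.Lib.SCV.Osgood

/-!
# MP_ae5b4e_an, project SMOOTH: Fourier coefficients in the first variable
-/

noncomputable section

namespace Pool.Agent.MP_ae5b4e_an_SM

open Complex Set Filter Topology MeasureTheory

variable {S S' : Finset ℤ} {c r c' r' M M' δ : ℝ} {f g : ℂ × ℂ → ℂ}

/-! ### One variable -/

private theorem four_per (m : ℤ) (s : ℂ) :
    exp (-(2 * Real.pi * I * m * (s + 1))) = exp (-(2 * Real.pi * I * m * s)) := by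
  have e : -(2 * Real.pi * I * m * (s + 1)) =
      -(2 * Real.pi * I * m * s) + ((-m : ℤ) : ℂ) * (2 * Real.pi * I) := by
    push_cast
    ring
  rw [e]
  exact (Complex.exp_periodic.int_mul (-m)) _

private theorem four_rect {G : ℂ → ℂ} {y₁ y₂ : ℝ} (h1 : y₁ < 0) (h2 : 0 < y₂)
    (hd : DifferentiableOn ℂ G {t | y₁ < t.im ∧ t.im < y₂})
    (hp : ∀ t : ℂ, y₁ < t.im → t.im < y₂ → G (t + 1) = G t) {a : ℂ}
    (ha1 : y₁ < a.im) (ha2 : a.im < y₂) :
    ∫ s in (0:ℝ)..1, G (s + a) = ∫ s in (0:ℝ)..1, G s := by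
  have hsub : ∀ y ∈ uIcc 0 a.im, y₁ < y ∧ y < y₂ := by
    intro y hy
    rcases le_total 0 a.im with h | h
    · rw [uIcc_of_le h] at hy
      exact ⟨lt_of_lt_of_le h1 hy.1, lt_of_le_of_lt hy.2 ha2⟩
    · rw [uIcc_of_ge h] at hy
      exact ⟨lt_of_lt_of_le ha1 hy.1, lt_of_le_of_lt hy.2 h2⟩
  have hR := Complex.integral_boundary_rect_eq_zero_of_differentiableOn G 0 (1 + a.im * I)
    (hd.mono (by
      intro t ht
      have ht2 : t.im ∈ uIcc 0 a.im := by simpa using ht.2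
      exact hsub _ ht2))
  have hv : ∫ y in (0:ℝ)..a.im, G (1 + y * I) = ∫ y in (0:ℝ)..a.im, G (y * I) := by
    apply intervalIntegral.integral_congr
    intro y hy
    have h3 := hsub y hy
    have h4 := hp (y * I) (by simpa using h3.1) (by simpa using h3.2)
    simp only
    rw [← h4]
    congr 1
    ring
  have hv' : ∫ y in (0:ℝ)..a.im, G (y * I) = ∫ y in (0:ℝ)..a.im, G (((1 : ℝ) : ℂ) + y * I) := by
    rw [ofReal_one, hv]
  have hR2 : (∫ x in (0:ℝ)..1, G x) = ∫ x in (0:ℝ)..1, G (x + a.im * I) := by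
    have h5 := hR
    simp only [zero_re, zero_im, add_re, one_re, mul_re, ofReal_re, I_re, mul_zero, ofReal_im,
      I_im, mul_one, sub_self, add_zero, add_im, one_im, mul_im, zero_add, ofReal_zero, zero_mul,
      ] at h5
    rw [hv'] at h5
    linear_combination h5
  have hP : Function.Periodic (fun x : ℝ => G (x + a.im * I)) 1 := by
    intro x
    have h4 := hp (x + a.im * I) (by simpa using ha1) (by simpa using ha2)
    simp only
    rw [← h4]
    congr 1
    push_cast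
    ring
  have hS := hP.intervalIntegral_add_eq a.re 0
  have hT := intervalIntegral.integral_comp_add_right (a := 0) (b := 1)
    (fun x : ℝ => G (x + a.im * I)) a.re
  rw [hR2]
  rw [zero_add, add_comm 1 a.re, hS, zero_add] at hT
  rw [← hT]
  apply intervalIntegral.integral_congr
  intro s _
  simp only
  congr 1
  apply Complex.ext <;> simp

/-- one variable: coefficients of a translate -/
theorem strip_shift {h : ℂ → ℂ} {y₁ y₂ : ℝ}
    (hd : DifferentiableOn ℂ h {t | y₁ < t.im ∧ t.im < y₂})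
    (hp : ∀ t : ℂ, y₁ < t.im → t.im < y₂ → h (t + 1) = h t) (m : ℤ) {a : ℂ}
    (h1 : y₁ < 0) (h2 : 0 < y₂) (ha1 : y₁ < a.im) (ha2 : a.im < y₂) :
    ∫ s in (0:ℝ)..1, h (s + a) * exp (-(2 * Real.pi * I * m * s)) =
      exp (2 * Real.pi * I * m * a) * ∫ s in (0:ℝ)..1, h s * exp (-(2 * Real.pi * I * m * s)) := by
  have hG := four_rect (G := fun z => h z * exp (-(2 * Real.pi * I * m * z))) h1 h2
    (hd.mul (Differentiable.differentiableOn (by fun_prop)))
    (fun t ht1 ht2 => by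
      rw [hp t ht1 ht2, four_per]) ha1 ha2
  rw [← hG, ← intervalIntegral.integral_const_mul]
  apply intervalIntegral.integral_congr
  intro s _
  have e : exp (-(2 * Real.pi * I * m * (s + a))) =
      exp (-(2 * Real.pi * I * m * s)) * exp (-(2 * Real.pi * I * m * a)) := by
    rw [← Complex.exp_add]
    congr 1
    ring
  have e2 : exp (2 * Real.pi * I * m * a) * exp (-(2 * Real.pi * I * m * a)) = 1 := by
    rw [← Complex.exp_add]
    simp
  show h (s + a) * exp (-(2 * Real.pi * I * m * s)) =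
    exp (2 * Real.pi * I * m * a) * (h (s + a) * exp (-(2 * Real.pi * I * m * (s + a))))
  rw [e]
  linear_combination (-(h (s + a) * exp (-(2 * Real.pi * I * m * s)))) * e2

private theorem four_norm (m : ℤ) (s : ℝ) : ‖exp (-(2 * Real.pi * I * m * s))‖ = 1 := by
  rw [Complex.norm_exp]
  simp

private theorem four_norm2 (m : ℤ) (y : ℝ) :
    ‖exp (2 * Real.pi * I * m * ((y : ℂ) * I))‖ = Real.exp (-(2 * Real.pi * m * y)) := by
  rw [Complex.norm_exp]
  congr 1
  have e : 2 * Real.pi * I * m * ((y : ℂ) * I) = ((-(2 * Real.pi * m * y) : ℝ) : ℂ) := by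
    push_cast
    linear_combination (2 * Real.pi * m * y : ℂ) * I_mul_I
  rw [e, ofReal_re]

private theorem four_int_le {F : ℝ → ℂ} {M : ℝ} (h : ∀ s, ‖F s‖ ≤ M) :
    ‖∫ s in (0:ℝ)..1, F s‖ ≤ M := by
  have := intervalIntegral.norm_integral_le_of_norm_le_const (a := 0) (b := 1) (f := F) (C := M)
    (fun x _ => h x)
  simpa using this

/-- one variable: contour shift -/
theorem strip_coeff {h : ℂ → ℂ} {y₁ y₂ M : ℝ} (h1 : y₁ < 0) (h2 : 0 < y₂)
    (hd : DifferentiableOn ℂ h {t | y₁ < t.im ∧ t.im < y₂})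
    (hp : ∀ t : ℂ, y₁ < t.im → t.im < y₂ → h (t + 1) = h t)
    (hM : ∀ t : ℂ, y₁ < t.im → t.im < y₂ → ‖h t‖ ≤ M) (m : ℤ) {y : ℝ} (hy : y ∈ Icc y₁ y₂) :
    ‖∫ s in (0:ℝ)..1, h s * exp (-(2 * Real.pi * I * m * s))‖ ≤
      M * Real.exp (2 * Real.pi * m * y) := by
  have hcl : IsClosed {y : ℝ | ‖∫ s in (0:ℝ)..1, h s * exp (-(2 * Real.pi * I * m * s))‖ ≤
      M * Real.exp (2 * Real.pi * m * y)} :=
    isClosed_le continuous_const (by fun_prop)
  have hsub : Ioo y₁ y₂ ⊆ {y : ℝ | ‖∫ s in (0:ℝ)..1, h s * exp (-(2 * Real.pi * I * m * s))‖ ≤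
      M * Real.exp (2 * Real.pi * m * y)} := by
    intro y hy
    have h3 := strip_shift hd hp m (a := y * I) h1 h2 (by simpa using hy.1) (by simpa using hy.2)
    have h4 : ‖∫ s in (0:ℝ)..1, h (s + y * I) * exp (-(2 * Real.pi * I * m * s))‖ ≤ M := by
      apply four_int_le
      intro s
      rw [norm_mul, four_norm, mul_one]
      exact hM _ (by simpa using hy.1) (by simpa using hy.2)
    rw [h3, norm_mul, four_norm2] at h4
    have h5 : Real.exp (2 * Real.pi * m * y) * Real.exp (-(2 * Real.pi * m * y)) = 1 := by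
      rw [← Real.exp_add]
      simp
    have h6 : 0 < Real.exp (2 * Real.pi * m * y) := Real.exp_pos _
    show ‖∫ s in (0:ℝ)..1, h s * exp (-(2 * Real.pi * I * m * s))‖ ≤
      M * Real.exp (2 * Real.pi * m * y)
    calc ‖∫ s in (0:ℝ)..1, h s * exp (-(2 * Real.pi * I * m * s))‖
        = Real.exp (2 * Real.pi * m * y) * (Real.exp (-(2 * Real.pi * m * y)) *
          ‖∫ s in (0:ℝ)..1, h s * exp (-(2 * Real.pi * I * m * s))‖) := by
          rw [← mul_assoc, h5, one_mul]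
      _ ≤ Real.exp (2 * Real.pi * m * y) * M := by gcongr
      _ = _ := mul_comm _ _
  have h12 : y₁ ≠ y₂ := (h1.trans h2).ne
  have := hcl.closure_subset_iff.2 hsub
  rw [closure_Ioo h12] at this
  exact this hy

/-! ### Two variables -/

private theorem four_mem_real (hS : Sml S) (hr : r ≤ c) (x : ℝ) {ρ : ℂ} (hρ : ρ ∈ Rq r) :
    ((x : ℂ), ρ) ∈ Dm S c r := by
  rw [mem_Dm]
  refine ⟨fun s hs => ?_, hρ.1, hρ.2⟩
  have h1 : |(s:ℝ)| ≤ 1 := by exact_mod_cast hS.le s hs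
  have h2 : |ρ.im| < r := hρ.2
  simp only [ofReal_im, zero_add, abs_mul]
  calc |(s:ℝ)| * |ρ.im| ≤ 1 * |ρ.im| := by gcongr
    _ < c := by linarith

private theorem four_strip (hS : Sml S) (hr : r ≤ c) {ρ : ℂ} (hρ : ρ ∈ Rq r) :
    ∃ s₁ ∈ S, ∃ s₂ ∈ S, -c - s₁ * ρ.im < 0 ∧ 0 < c - s₂ * ρ.im ∧
      ∀ t : ℂ, ((t, ρ) ∈ Dm S c r ↔ -c - s₁ * ρ.im < t.im ∧ t.im < c - s₂ * ρ.im) := by
  obtain ⟨s₁, hs₁, h₁⟩ := S.exists_max_image (fun s => -c - (s:ℝ) * ρ.im) hS.ne
  obtain ⟨s₂, hs₂, h₂⟩ := S.exists_min_image (fun s => c - (s:ℝ) * ρ.im) hS.ne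
  have h0 := (mem_Dm.1 (four_mem_real hS hr 0 hρ)).1
  simp only [ofReal_zero, zero_im, zero_add] at h0
  have h01 := abs_lt.1 (h0 s₁ hs₁)
  have h02 := abs_lt.1 (h0 s₂ hs₂)
  refine ⟨s₁, hs₁, s₂, hs₂, by linarith, by linarith, fun t => ?_⟩
  rw [mem_Dm]
  constructor
  · rintro ⟨h, -⟩
    have h3 := abs_lt.1 (h s₁ hs₁)
    have h4 := abs_lt.1 (h s₂ hs₂)
    simp only at h3 h4
    exact ⟨by linarith, by linarith⟩
  · rintro ⟨h3, h4⟩
    refine ⟨fun s hs => abs_lt.2 ?_, hρ⟩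
    have h5 := h₁ s hs
    have h6 := h₂ s hs
    simp only
    exact ⟨by linarith, by linarith⟩

private theorem four_sec (h : DifferentiableOn ℂ f (Dm S c r)) {ρ : ℂ} {y₁ y₂ : ℝ}
    (hst : ∀ t : ℂ, ((t, ρ) ∈ Dm S c r ↔ y₁ < t.im ∧ t.im < y₂)) :
    DifferentiableOn ℂ (fun t => f (t, ρ)) {t | y₁ < t.im ∧ t.im < y₂} :=
  h.comp (f := fun t : ℂ => (t, ρ)) (by fun_prop) fun t ht => (hst t).2 ht

private theorem four_cont (h : ContinuousOn f (Dm S c r)) (a ρ : ℂ)
    (ha : ∀ x : ℝ, ((x : ℂ) + a, ρ) ∈ Dm S c r) : Continuous fun x : ℝ => f (x + a, ρ) := by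
  rw [← continuousOn_univ]
  exact h.comp (f := fun x : ℝ => ((x : ℂ) + a, ρ)) (by fun_prop) fun x _ => ha x

private theorem four_cont0 (h : ContinuousOn f (Dm S c r)) (hS : Sml S) (hr : r ≤ c) {ρ : ℂ}
    (hρ : ρ ∈ Rq r) : Continuous fun x : ℝ => f (x, ρ) := by
  have := four_cont h 0 ρ (by simpa using fun x => four_mem_real hS hr x hρ)
  simpa using this

private theorem four_e (m : ℤ) : Continuous fun s : ℝ => exp (-(2 * Real.pi * I * m * s)) := by
  fun_prop

theorem fc_sh (h : PH S c r f) (hS : Sml S) (hr : r ≤ c) (m k : ℤ) (hk : ∀ s ∈ S, |s + k| ≤ 1)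
    {ρ : ℂ} (hρ : ρ ∈ Rq r) : fc (sh k f) m ρ = exp (2 * Real.pi * I * m * k * ρ) * fc f m ρ := by
  obtain ⟨s₁, hs₁, s₂, hs₂, h1, h2, hst⟩ := four_strip hS hr hρ
  have hkk : ∀ s ∈ S, |((s:ℝ) + k) * ρ.im| < c := by
    intro s hs
    have h3 : |(s:ℝ) + k| ≤ 1 := by exact_mod_cast hk s hs
    have h4 : |ρ.im| < r := hρ.2
    rw [abs_mul]
    calc |(s:ℝ) + k| * |ρ.im| ≤ 1 * |ρ.im| := by gcongr
      _ < c := by linarith
  have h3 := abs_lt.1 (hkk s₁ hs₁)
  have h4 := abs_lt.1 (hkk s₂ hs₂)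
  have e : ((k : ℂ) * ρ).im = k * ρ.im := by simp
  have h5 := strip_shift (four_sec h.diff hst)
    (fun t ht1 ht2 => h.per (t, ρ) ((hst t).2 ⟨ht1, ht2⟩)) m (a := k * ρ) h1 h2
    (by rw [e]; linarith) (by rw [e]; linarith)
  have e2 : 2 * Real.pi * I * m * k * ρ = 2 * Real.pi * I * m * (k * ρ) := by ring
  rw [e2]
  exact h5

theorem fc_bound (h : HP S c r f M) (hS : Sml S) (hr : r ≤ c) (m : ℤ) {ρ : ℂ} (hρ : ρ ∈ Rq r) :
    ‖fc f m ρ‖ ≤ M * Real.exp (-(2 * Real.pi * |(m : ℝ)| * c)) * Wt S m ρ := by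
  obtain ⟨s₁, hs₁, s₂, hs₂, h1, h2, hst⟩ := four_strip hS hr hρ
  have hM0 : 0 ≤ M := (norm_nonneg _).trans (h.bd _ (four_mem_real hS hr 0 hρ))
  have hW : ∀ s ∈ S, Real.exp (-(2 * Real.pi * m * (s * ρ.im))) ≤ Wt S m ρ := by
    intro s hs
    have h3 : ‖exp (2 * Real.pi * I * m * s * ρ)‖ = Real.exp (-(2 * Real.pi * m * (s * ρ.im))) := by
      rw [Complex.norm_exp]
      congr 1
      simp
      try ring
    rw [← h3]
    exact Finset.single_le_sum (f := fun s : ℤ => ‖exp (2 * Real.pi * I * m * s * ρ)‖)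
      (fun s _ => norm_nonneg _) hs
  have hc : ∀ y ∈ Icc (-c - s₁ * ρ.im) (c - s₂ * ρ.im), ‖fc f m ρ‖ ≤
      M * Real.exp (2 * Real.pi * m * y) := fun y hy =>
    strip_coeff h1 h2 (four_sec h.diff hst)
      (fun t ht1 ht2 => h.per (t, ρ) ((hst t).2 ⟨ht1, ht2⟩))
      (fun t ht1 ht2 => h.bd (t, ρ) ((hst t).2 ⟨ht1, ht2⟩)) m hy
  have h12 : -c - s₁ * ρ.im ≤ c - s₂ * ρ.im := (h1.trans h2).le
  rcases le_total 0 m with hm | hm
  · have hm' : |(m:ℝ)| = m := abs_of_nonneg (by exact_mod_cast hm)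
    have h3 := hc _ (left_mem_Icc.2 h12)
    have e : 2 * Real.pi * m * (-c - s₁ * ρ.im) =
        -(2 * Real.pi * |(m : ℝ)| * c) + -(2 * Real.pi * m * (s₁ * ρ.im)) := by
      rw [hm']
      ring
    rw [e, Real.exp_add, ← mul_assoc] at h3
    refine h3.trans ?_
    have := hW s₁ hs₁
    gcongr
  · have hm' : |(m:ℝ)| = -m := abs_of_nonpos (by exact_mod_cast hm)
    have h3 := hc _ (right_mem_Icc.2 h12)
    have e : 2 * Real.pi * m * (c - s₂ * ρ.im) =
        -(2 * Real.pi * |(m : ℝ)| * c) + -(2 * Real.pi * m * (s₂ * ρ.im)) := by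
      rw [hm']
      ring
    rw [e, Real.exp_add, ← mul_assoc] at h3
    refine h3.trans ?_
    have := hW s₂ hs₂
    gcongr

/-- on the real line -/
theorem fc_le (h : HP S c r f M) (hS : Sml S) (hr : r ≤ c) (m : ℤ) {ρ : ℂ} (hρ : ρ ∈ Rq r) :
    ‖fc f m ρ‖ ≤ M := by
  apply four_int_le
  intro s
  rw [norm_mul, four_norm, mul_one]
  exact h.bd _ (four_mem_real hS hr s hρ)

private theorem four_int (h : PH S c r f) (hS : Sml S) (hr : r ≤ c) (m : ℤ) {ρ : ℂ}
    (hρ : ρ ∈ Rq r) : IntervalIntegrable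
      (fun s : ℝ => f ((s : ℂ), ρ) * exp (-(2 * Real.pi * I * m * s))) volume 0 1 :=
  ((four_cont0 h.diff.continuousOn hS hr hρ).mul (four_e m)).intervalIntegrable _ _

theorem fc_add (h : PH S c r f) (h' : PH S c r g) (hS : Sml S) (hr : r ≤ c) (m : ℤ) {ρ : ℂ}
    (hρ : ρ ∈ Rq r) : fc (fun p => f p + g p) m ρ = fc f m ρ + fc g m ρ := by
  unfold fc
  rw [← intervalIntegral.integral_add (four_int h hS hr m hρ) (four_int h' hS hr m hρ)]
  simp only [add_mul]

theorem fc_sub (h : PH S c r f) (h' : PH S c r g) (hS : Sml S) (hr : r ≤ c) (m : ℤ) {ρ : ℂ}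
    (hρ : ρ ∈ Rq r) : fc (fun p => f p - g p) m ρ = fc f m ρ - fc g m ρ := by
  unfold fc
  rw [← intervalIntegral.integral_sub (four_int h hS hr m hρ) (four_int h' hS hr m hρ)]
  simp only [sub_mul]

/-- functions of `ρ` are constants for the Fourier coefficients -/
theorem fc_smul (f : ℂ × ℂ → ℂ) (a : ℂ → ℂ) (m : ℤ) (ρ : ℂ) :
    fc (fun p => a p.2 * f p) m ρ = a ρ * fc f m ρ := by
  unfold fc
  rw [← intervalIntegral.integral_const_mul]
  simp only [mul_assoc]

theorem fc_ofρ (a : ℂ → ℂ) (m : ℤ) (ρ : ℂ) :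
    fc (fun p => a p.2) m ρ = if m = 0 then a ρ else 0 := by
  unfold fc
  simp only [intervalIntegral.integral_const_mul]
  split_ifs with hm
  · subst hm
    simp
  · have h1 : (-(2 * Real.pi * I * m) : ℂ) ≠ 0 := by
      have : (m : ℂ) ≠ 0 := by exact_mod_cast hm
      simp [Real.pi_ne_zero, this]
    have h2 := integral_exp_mul_complex (a := 0) (b := 1) h1
    have h3 : exp (-(2 * Real.pi * I * m)) = 1 := by
      have := four_per m 0
      simpa using this
    have h4 : ∀ s : ℝ, exp (-(2 * Real.pi * I * m * s)) = exp (-(2 * Real.pi * I * m) * s) := by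
      intro s
      congr 1
      ring
    simp only [h4, h2]
    simp [h3]

/-! ### Derivatives -/

private theorem four_an (h : DifferentiableOn ℂ f (Dm S c r)) :
    ContinuousOn (fderiv ℂ f) (Dm S c r) :=
  (Pool.Agent.SCV.differentiableOn_analyticOnNhd _ (isOpen_Dm S c r) f h).fderiv.continuousOn

private theorem four_hdt (h : DifferentiableOn ℂ f (Dm S c r)) {p : ℂ × ℂ} (hp : p ∈ Dm S c r) :
    HasDerivAt (fun s => f (s, p.2)) (fderiv ℂ f p (1, 0)) p.1 := by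
  have h1 : HasFDerivAt f (fderiv ℂ f p) (p.1, p.2) :=
    ((h p hp).differentiableAt ((isOpen_Dm S c r).mem_nhds hp)).hasFDerivAt
  have h2 : HasDerivAt (fun s : ℂ => (s, p.2)) ((1 : ℂ), (0 : ℂ)) p.1 :=
    (hasDerivAt_id p.1).prodMk (hasDerivAt_const p.1 p.2)
  exact h1.comp_hasDerivAt p.1 h2

private theorem four_hdr (h : DifferentiableOn ℂ f (Dm S c r)) {p : ℂ × ℂ} (hp : p ∈ Dm S c r) :
    HasDerivAt (fun s => f (p.1, s)) (fderiv ℂ f p (0, 1)) p.2 := by
  have h1 : HasFDerivAt f (fderiv ℂ f p) (p.1, p.2) :=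
    ((h p hp).differentiableAt ((isOpen_Dm S c r).mem_nhds hp)).hasFDerivAt
  have h2 : HasDerivAt (fun s : ℂ => (p.1, s)) ((0 : ℂ), (1 : ℂ)) p.2 :=
    (hasDerivAt_const p.2 p.1).prodMk (hasDerivAt_id p.2)
  exact h1.comp_hasDerivAt p.2 h2

private theorem four_dtc (h : DifferentiableOn ℂ f (Dm S c r)) : ContinuousOn (dt f) (Dm S c r) :=
  ((four_an h).clm_apply continuousOn_const).congr fun _ hp => (four_hdt h hp).deriv

private theorem four_drc (h : DifferentiableOn ℂ f (Dm S c r)) : ContinuousOn (dr f) (Dm S c r) :=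
  ((four_an h).clm_apply continuousOn_const).congr fun _ hp => (four_hdr h hp).deriv

theorem fc_dt (h : PH S c r f) (hS : Sml S) (hr : r ≤ c) (m : ℤ) {ρ : ℂ} (hρ : ρ ∈ Rq r) :
    fc (dt f) m ρ = 2 * Real.pi * I * m * fc f m ρ := by
  have hd : ∀ s : ℝ, HasDerivAt (fun s : ℝ => f (s, ρ) * exp (-(2 * Real.pi * I * m * s)))
      (dt f (s, ρ) * exp (-(2 * Real.pi * I * m * s)) -
        2 * Real.pi * I * m * (f (s, ρ) * exp (-(2 * Real.pi * I * m * s)))) s := by
    intro s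
    have hp := four_mem_real hS hr s hρ
    have h1 := four_hdt h.diff hp
    rw [← h1.deriv] at h1
    have h2 : HasDerivAt (fun s : ℂ => exp (-(2 * Real.pi * I * m * s)))
        (exp (-(2 * Real.pi * I * m * s)) * (-(2 * Real.pi * I * m * 1))) (s : ℂ) :=
      ((((hasDerivAt_id (s : ℂ)).const_mul (2 * Real.pi * I * m : ℂ))).neg).cexp
    have h3 := (h1.mul h2).comp_ofReal
    refine h3.congr_deriv ?_
    show dt f (s, ρ) * exp (-(2 * Real.pi * I * m * s)) +
        f (s, ρ) * (exp (-(2 * Real.pi * I * m * s)) * (-(2 * Real.pi * I * m * 1))) = _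
    ring
  have i1 : IntervalIntegrable
      (fun s : ℝ => dt f ((s : ℂ), ρ) * exp (-(2 * Real.pi * I * m * s))) volume 0 1 :=
    ((four_cont0 (four_dtc h.diff) hS hr hρ).mul (four_e m)).intervalIntegrable _ _
  have i2 := four_int h hS hr m hρ
  have h4 := intervalIntegral.integral_eq_sub_of_hasDerivAt (fun x _ => hd x)
    (i1.sub (i2.const_mul (2 * Real.pi * I * m : ℂ)))
  rw [intervalIntegral.integral_sub i1 (i2.const_mul (2 * Real.pi * I * m : ℂ)),
    intervalIntegral.integral_const_mul] at h4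
  have h5 : f (((1 : ℝ) : ℂ), ρ) * exp (-(2 * Real.pi * I * m * ((1 : ℝ) : ℂ))) -
      f (((0 : ℝ) : ℂ), ρ) * exp (-(2 * Real.pi * I * m * ((0 : ℝ) : ℂ))) = 0 := by
    have h6 := four_per m 0
    have h7 := h.per _ (four_mem_real hS hr 0 hρ)
    simp only [ofReal_zero, ofReal_one, zero_add, mul_zero, neg_zero] at h6 h7 ⊢
    rw [h6, h7, sub_self]
  rw [h5] at h4
  unfold fc
  linear_combination h4

theorem fc_nab (h : PH S c r f) (hS : Sml S) (hr : r ≤ c) (m : ℤ) (hk : ∀ s ∈ S, |s + 1| ≤ 1)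
    {ρ : ℂ} (hρ : ρ ∈ Rq r) : fc (nab f) m ρ = theta m ρ * fc f m ρ := by
  by_cases h0 : ρ = 0
  · subst h0
    have h1 := fc_dt h hS hr m hρ
    unfold fc at h1 ⊢
    simp only [nab_zero, theta, if_true]
    exact h1
  · have h1 := fc_sh h hS hr m 1 hk hρ
    have h2 : ∀ s : ℝ, nab f (s, ρ) * exp (-(2 * Real.pi * I * m * s)) =
        ρ⁻¹ * (sh 1 f (s, ρ) * exp (-(2 * Real.pi * I * m * s)) -
          f (s, ρ) * exp (-(2 * Real.pi * I * m * s))) := by
      intro s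
      rw [nab_of_ne (p := (s, ρ)) h0]
      simp only [sh, Int.cast_one, one_mul]
      field_simp
    have hmem : ∀ x : ℝ, ((x : ℂ) + ρ, ρ) ∈ Dm S c r := by
      intro x
      rw [mem_Dm]
      refine ⟨fun s hs => ?_, hρ⟩
      have h3 : |(s:ℝ) + 1| ≤ 1 := by exact_mod_cast hk s hs
      have h4 : |ρ.im| < r := hρ.2
      have e : ((x : ℂ) + ρ).im + s * ρ.im = (s + 1) * ρ.im := by
        simp
        ring
      simp only [e, abs_mul]
      calc |(s:ℝ) + 1| * |ρ.im| ≤ 1 * |ρ.im| := by gcongr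
        _ < c := by linarith
    have i1 : IntervalIntegrable
        (fun s : ℝ => sh 1 f ((s : ℂ), ρ) * exp (-(2 * Real.pi * I * m * s))) volume 0 1 := by
      have h5 := four_cont h.diff.continuousOn ρ ρ hmem
      have h6 : Continuous fun s : ℝ => sh 1 f ((s : ℂ), ρ) := by
        simpa [sh] using h5
      exact (h6.mul (four_e m)).intervalIntegrable _ _
    have h3 : fc (nab f) m ρ = ρ⁻¹ * (fc (sh 1 f) m ρ - fc f m ρ) := by
      unfold fc
      simp only [h2, intervalIntegral.integral_const_mul]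
      rw [intervalIntegral.integral_sub i1 (four_int h hS hr m hρ)]
    rw [h3, h1, theta, if_neg h0]
    simp only [Int.cast_one, mul_one]
    field_simp

theorem fc_nabm (h : PH S c r f) (hS : Sml S) (hr : r ≤ c) (m : ℤ) (hk : ∀ s ∈ S, |s - 1| ≤ 1)
    {ρ : ℂ} (hρ : ρ ∈ Rq r) : fc (nabm f) m ρ = theta m (-ρ) * fc f m ρ := by
  by_cases h0 : ρ = 0
  · subst h0
    have h1 := fc_dt h hS hr m hρ
    unfold fc at h1 ⊢
    simp only [nabm_zero, theta, neg_zero, if_true]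
    exact h1
  · have h1 := fc_sh h hS hr m (-1) (by simpa [sub_eq_add_neg] using hk) hρ
    have h2 : ∀ s : ℝ, nabm f (s, ρ) * exp (-(2 * Real.pi * I * m * s)) =
        ρ⁻¹ * (f (s, ρ) * exp (-(2 * Real.pi * I * m * s)) -
          sh (-1) f (s, ρ) * exp (-(2 * Real.pi * I * m * s))) := by
      intro s
      rw [nabm_of_ne (p := (s, ρ)) h0]
      simp only [sh, Int.cast_neg, Int.cast_one, neg_mul, one_mul, ← sub_eq_add_neg]
      field_simp
    have hmem : ∀ x : ℝ, ((x : ℂ) + -ρ, ρ) ∈ Dm S c r := by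
      intro x
      rw [mem_Dm]
      refine ⟨fun s hs => ?_, hρ⟩
      have h3 : |(s:ℝ) - 1| ≤ 1 := by exact_mod_cast hk s hs
      have h4 : |ρ.im| < r := hρ.2
      have e : ((x : ℂ) + -ρ).im + s * ρ.im = (s - 1) * ρ.im := by
        simp
        ring
      simp only [e, abs_mul]
      calc |(s:ℝ) - 1| * |ρ.im| ≤ 1 * |ρ.im| := by gcongr
        _ < c := by linarith
    have i1 : IntervalIntegrable
        (fun s : ℝ => sh (-1) f ((s : ℂ), ρ) * exp (-(2 * Real.pi * I * m * s))) volume 0 1 := by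
      have h5 := four_cont h.diff.continuousOn (-ρ) ρ hmem
      have h6 : Continuous fun s : ℝ => sh (-1) f ((s : ℂ), ρ) := by
        simpa [sh] using h5
      exact (h6.mul (four_e m)).intervalIntegrable _ _
    have h3 : fc (nabm f) m ρ = ρ⁻¹ * (fc f m ρ - fc (sh (-1) f) m ρ) := by
      unfold fc
      simp only [h2, intervalIntegral.integral_const_mul]
      rw [intervalIntegral.integral_sub (four_int h hS hr m hρ) i1]
    have e : 2 * Real.pi * I * m * ((-1 : ℤ) : ℂ) * ρ = 2 * Real.pi * I * m * -ρ := by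
      push_cast
      ring
    rw [h3, h1, theta, if_neg (neg_ne_zero.2 h0), e]
    field_simp
    ring

private theorem four_hasDeriv (h : PH S c r f) (hS : Sml S) (hr : r ≤ c) (m : ℤ) {ρ : ℂ}
    (hρ : ρ ∈ Rq r) : HasDerivAt (fc f m) (fc (dr f) m ρ) ρ := by
  obtain ⟨ε, hε, hsub⟩ := Metric.nhds_basis_closedBall.mem_iff.1 ((isOpen_Rq r).mem_nhds hρ)
  have hK : IsCompact ((ofReal '' Icc (0:ℝ) 1) ×ˢ Metric.closedBall ρ ε) :=
    (isCompact_Icc.image continuous_ofReal).prod (isCompact_closedBall ρ ε)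
  have hKD : (ofReal '' Icc (0:ℝ) 1) ×ˢ Metric.closedBall ρ ε ⊆ Dm S c r := by
    rintro ⟨x, y⟩ ⟨⟨s, _, hs⟩, hy⟩
    simp only at hs hy
    rw [← hs]
    exact four_mem_real hS hr s (hsub hy)
  obtain ⟨C, hC⟩ := hK.exists_bound_of_continuousOn ((four_drc h.diff).mono hKD)
  have h1 := (intervalIntegral.hasDerivAt_integral_of_dominated_loc_of_deriv_le (μ := volume)
    (a := 0) (b := 1) (bound := fun _ => C)
    (F := fun x (s : ℝ) => f ((s : ℂ), x) * exp (-(2 * Real.pi * I * m * s)))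
    (F' := fun x (s : ℝ) => dr f ((s : ℂ), x) * exp (-(2 * Real.pi * I * m * s)))
    (x₀ := ρ) (s := Metric.closedBall ρ ε) (Metric.closedBall_mem_nhds ρ hε) ?_
    (four_int h hS hr m hρ) ?_ ?_ intervalIntegrable_const ?_).2
  · exact h1
  · filter_upwards [(isOpen_Rq r).mem_nhds hρ] with x hx
    exact ((four_cont0 h.diff.continuousOn hS hr hx).mul (four_e m)).aestronglyMeasurable
  · exact ((four_cont0 (four_drc h.diff) hS hr hρ).mul (four_e m)).aestronglyMeasurable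
  · refine Filter.Eventually.of_forall fun s hs x hx => ?_
    rw [norm_mul, four_norm, mul_one]
    rw [uIoc_of_le zero_le_one] at hs
    exact hC (s, x) ⟨⟨s, ⟨hs.1.le, hs.2⟩, rfl⟩, hx⟩
  · refine Filter.Eventually.of_forall fun s _ x hx => ?_
    have h2 := four_hdr h.diff (four_mem_real hS hr s (hsub hx))
    rw [← h2.deriv] at h2
    exact h2.mul_const _

theorem fc_diff (h : PH S c r f) (hS : Sml S) (hr : r ≤ c) (m : ℤ) :
    DifferentiableOn ℂ (fc f m) (Rq r) := fun _ hρ =>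
  (four_hasDeriv h hS hr m hρ).differentiableAt.differentiableWithinAt

/-- the coefficients are differentiable in `ρ` under the integral sign -/
theorem fc_dr (h : PH S c r f) (hS : Sml S) (hr : r ≤ c) (m : ℤ) {ρ : ℂ} (hρ : ρ ∈ Rq r) :
    fc (dr f) m ρ = deriv (fc f m) ρ := (four_hasDeriv h hS hr m hρ).deriv.symm

end Pool.Agent.MP_ae5b4e_an_SM
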