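import Mathlib
import Pool.Agent.Lib.MP_ae5b4e_an_SM.Defs
import Pool.Agent.Lib.MP_ae5b4e_an_SM.OpsA
import Pool.Agent.Lib.MP_ae5b4e_an_SM.OpsB
import Pool.Agent.Lib.MP_ae5b4e_an_SM.FourA
import Pool.Agent.Lib.MP_ae5b4e_an_SM.LagF
import Pool.Agent.Lib.MP_ae5b4e_an_SM.IdentA

/-!
# MP_ae5b4e_an, project SMOOTH, module SJ: the identities

The mean value of `F_t EL(F)`, the `t`-derivative of `EL(F)`, and the identities (I1), (I2).
-/

noncomputable section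

namespace Pool.Agent.MP_ae5b4e_an_SM

open Complex Set Filter Topology
open scoped ContDiff ComplexConjugate

variable {S S' : Finset ℤ} {c r c' r' M M' δ : ℝ} {f g : ℂ × ℂ → ℂ}

/-! ### Chain rules -/

private lemma IB_curve0 {f : ℂ × ℂ → ℂ} {x y : ℂ → ℂ} {x' y' a : ℂ}
    (h : DifferentiableAt ℂ f (x a, y a)) (hx : HasDerivAt x x' a) (hy : HasDerivAt y y' a) :
    HasDerivAt (fun s => f (x s, y s)) (fderiv ℂ f (x a, y a) (x', y')) a :=
  h.hasFDerivAt.comp_hasDerivAt a (hx.prodMk hy)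

private lemma IB_dt {f : ℂ × ℂ → ℂ} {p : ℂ × ℂ} (h : DifferentiableAt ℂ f p) :
    fderiv ℂ f p (1, 0) = dt f p := by
  have := IB_curve0 (f := f) (x := fun s => s) (y := fun _ => p.2) (a := p.1) h
    (hasDerivAt_id p.1) (hasDerivAt_const p.1 p.2)
  exact this.deriv.symm

private lemma IB_dr {f : ℂ × ℂ → ℂ} {p : ℂ × ℂ} (h : DifferentiableAt ℂ f p) :
    fderiv ℂ f p (0, 1) = dr f p := by
  have := IB_curve0 (f := f) (x := fun _ => p.1) (y := fun s => s) (a := p.2) h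
    (hasDerivAt_const p.2 p.1) (hasDerivAt_id p.2)
  exact this.deriv.symm

private lemma IB_curve {f : ℂ × ℂ → ℂ} {x y : ℂ → ℂ} {x' y' a : ℂ}
    (h : DifferentiableAt ℂ f (x a, y a)) (hx : HasDerivAt x x' a) (hy : HasDerivAt y y' a) :
    HasDerivAt (fun s => f (x s, y s)) (x' * dt f (x a, y a) + y' * dr f (x a, y a)) a := by
  have h1 := IB_curve0 h hx hy
  have h2 : ((x', y') : ℂ × ℂ) = x' • ((1, 0) : ℂ × ℂ) + y' • ((0, 1) : ℂ × ℂ) := by
    simp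
  rw [h2, map_add, map_smul, map_smul, IB_dt h, IB_dr h] at h1
  exact h1

private lemma IB_curve3 {Λ : ℂ × ℂ × ℂ → ℂ} {x y z : ℂ → ℂ} {x' y' z' a : ℂ}
    (h : DifferentiableAt ℂ Λ (x a, y a, z a)) (hx : HasDerivAt x x' a)
    (hy : HasDerivAt y y' a) (hz : HasDerivAt z z' a) :
    HasDerivAt (fun s => Λ (x s, y s, z s)) (x' * Lt Λ (x a, y a, z a) +
      y' * LD Λ (x a, y a, z a) + z' * Lr Λ (x a, y a, z a)) a := by
  have h1 : HasDerivAt (fun s => Λ (x s, y s, z s))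
      (fderiv ℂ Λ (x a, y a, z a) (x', y', z')) a :=
    h.hasFDerivAt.comp_hasDerivAt a (hx.prodMk (hy.prodMk hz))
  have h2 : ((x', y', z') : ℂ × ℂ × ℂ) = x' • ((1, 0, 0) : ℂ × ℂ × ℂ) +
      y' • ((0, 1, 0) : ℂ × ℂ × ℂ) + z' • ((0, 0, 1) : ℂ × ℂ × ℂ) := by
    simp
  rw [h2, map_add, map_add, map_smul, map_smul, map_smul] at h1
  exact h1

/-! ### Derivatives of difference quotients -/

private lemma IB_nab_t {f : ℂ × ℂ → ℂ} {p : ℂ × ℂ} (h : DifferentiableAt ℂ f p)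
    (h' : DifferentiableAt ℂ f (p.1 + p.2, p.2)) (hp : p.2 ≠ 0) :
    HasDerivAt (fun s => nab f (s, p.2)) (nab (dt f) p) p.1 := by
  have e : (fun s => nab f (s, p.2)) = fun s => (f (s + p.2, p.2) - f (s, p.2)) / p.2 := by
    funext s
    exact nab_of_ne (p := (s, p.2)) hp
  rw [e, nab_of_ne hp]
  have h1 := IB_curve (f := f) (x := fun s => s) (y := fun _ => p.2) (a := p.1) h
    (hasDerivAt_id p.1) (hasDerivAt_const p.1 p.2)
  have h2 := IB_curve (f := f) (x := fun s => s + p.2) (y := fun _ => p.2) (a := p.1) h'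
    ((hasDerivAt_id p.1).add_const p.2) (hasDerivAt_const p.1 p.2)
  refine ((h2.fun_sub h1).div_const p.2).congr_deriv ?_
  simp

private lemma IB_nabm_t {f : ℂ × ℂ → ℂ} {p : ℂ × ℂ} (h : DifferentiableAt ℂ f p)
    (h' : DifferentiableAt ℂ f (p.1 - p.2, p.2)) (hp : p.2 ≠ 0) :
    HasDerivAt (fun s => nabm f (s, p.2)) (nabm (dt f) p) p.1 := by
  have e : (fun s => nabm f (s, p.2)) = fun s => (f (s, p.2) - f (s - p.2, p.2)) / p.2 := by
    funext s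
    exact nabm_of_ne (p := (s, p.2)) hp
  rw [e, nabm_of_ne hp]
  have h1 := IB_curve (f := f) (x := fun s => s) (y := fun _ => p.2) (a := p.1) h
    (hasDerivAt_id p.1) (hasDerivAt_const p.1 p.2)
  have h2 := IB_curve (f := f) (x := fun s => s - p.2) (y := fun _ => p.2) (a := p.1) h'
    ((hasDerivAt_id p.1).sub_const p.2) (hasDerivAt_const p.1 p.2)
  refine ((h1.fun_sub h2).div_const p.2).congr_deriv ?_
  simp

private lemma IB_nab_r {f : ℂ × ℂ → ℂ} {p : ℂ × ℂ} (h : DifferentiableAt ℂ f p)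
    (h' : DifferentiableAt ℂ f (p.1 + p.2, p.2)) (hp : p.2 ≠ 0) :
    HasDerivAt (fun s => nab f (p.1, s)) ((dt f (p.1 + p.2, p.2) + dr f (p.1 + p.2, p.2) -
      dr f p - nab f p) / p.2) p.2 := by
  have e : (fun s => nab f (p.1, s)) =ᶠ[𝓝 p.2] fun s => (f (p.1 + s, s) - f (p.1, s)) / s := by
    filter_upwards [isOpen_ne.mem_nhds hp] with s hs
    exact nab_of_ne (p := (p.1, s)) hs
  have h1 := IB_curve (f := f) (x := fun _ => p.1) (y := fun s => s) (a := p.2) h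
    (hasDerivAt_const p.2 p.1) (hasDerivAt_id p.2)
  have h2 := IB_curve (f := f) (x := fun s => p.1 + s) (y := fun s => s) (a := p.2) h'
    ((hasDerivAt_id p.2).const_add p.1) (hasDerivAt_id p.2)
  refine HasDerivAt.congr_of_eventuallyEq ?_ e
  refine ((h2.fun_sub h1).fun_div (hasDerivAt_id p.2) hp).congr_deriv ?_
  simp only [id, nab_of_ne hp]
  field_simp
  ring

private lemma IB_nabm_r {f : ℂ × ℂ → ℂ} {p : ℂ × ℂ} (h : DifferentiableAt ℂ f p)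
    (h' : DifferentiableAt ℂ f (p.1 - p.2, p.2)) (hp : p.2 ≠ 0) :
    HasDerivAt (fun s => nabm f (p.1, s)) ((dr f p - dr f (p.1 - p.2, p.2) +
      dt f (p.1 - p.2, p.2) - nabm f p) / p.2) p.2 := by
  have e : (fun s => nabm f (p.1, s)) =ᶠ[𝓝 p.2] fun s => (f (p.1, s) - f (p.1 - s, s)) / s := by
    filter_upwards [isOpen_ne.mem_nhds hp] with s hs
    exact nabm_of_ne (p := (p.1, s)) hs
  have h1 := IB_curve (f := f) (x := fun _ => p.1) (y := fun s => s) (a := p.2) h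
    (hasDerivAt_const p.2 p.1) (hasDerivAt_id p.2)
  have h2 := IB_curve (f := f) (x := fun s => p.1 - s) (y := fun s => s) (a := p.2) h'
    ((hasDerivAt_id p.2).const_sub p.1) (hasDerivAt_id p.2)
  refine HasDerivAt.congr_of_eventuallyEq ?_ e
  refine ((h1.fun_sub h2).fun_div (hasDerivAt_id p.2) hp).congr_deriv ?_
  simp only [id, nabm_of_ne hp]
  field_simp
  ring

/-! ### Membership -/

private lemma IB_mem0 {p : ℂ × ℂ} (hp : p ∈ Dm {0, 1} c r) : p ∈ Dm {0} c r := by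
  rw [mem_Dm] at hp ⊢
  exact ⟨fun s hs => hp.1 s (by simp only [Finset.mem_singleton] at hs; simp [hs]), hp.2⟩

private lemma IB_mem1 {p : ℂ × ℂ} (hp : p ∈ Dm {0, 1} c r) :
    ((p.1 + p.2, p.2) : ℂ × ℂ) ∈ Dm {0} c r := by
  rw [mem_Dm] at hp ⊢
  refine ⟨fun s hs => ?_, hp.2⟩
  simp only [Finset.mem_singleton] at hs
  have := hp.1 1 (by simp)
  simpa [hs] using this

private lemma IB_memE {p : ℂ × ℂ} (hp : p ∈ Dm {-1, 0, 1} c r) : p ∈ Dm {0, 1} c r := by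
  rw [mem_Dm] at hp ⊢
  refine ⟨fun s hs => hp.1 s ?_, hp.2⟩
  simp only [Finset.mem_insert, Finset.mem_singleton] at hs ⊢
  tauto

private lemma IB_memE' {p : ℂ × ℂ} (hp : p ∈ Dm {-1, 0, 1} c r) :
    ((p.1 - p.2, p.2) : ℂ × ℂ) ∈ Dm {0, 1} c r := by
  rw [mem_Dm] at hp ⊢
  refine ⟨fun s hs => ?_, hp.2⟩
  simp only [Finset.mem_insert, Finset.mem_singleton] at hs
  rcases hs with rfl | rfl
  · have := hp.1 (-1) (by simp)
    simpa [sub_eq_add_neg] using this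
  · have := hp.1 0 (by simp)
    simpa using this

section
variable {L : ℂ × ℂ × ℂ → ℂ} {k1 : ℂ} {b κ ε : ℝ} {F v : ℂ × ℂ → ℂ}

/-! ### Composition with the Lagrangian -/

private lemma IB_Fd0 (hF : GF c r κ F) {p : ℂ × ℂ} (hp : p ∈ Dm {0, 1} c r) :
    DifferentiableAt ℂ F p :=
  hF.diff.differentiableAt ((isOpen_Dm _ _ _).mem_nhds (IB_mem0 hp))

private lemma IB_Fd1 (hF : GF c r κ F) {p : ℂ × ℂ} (hp : p ∈ Dm {0, 1} c r) :
    DifferentiableAt ℂ F (p.1 + p.2, p.2) :=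
  hF.diff.differentiableAt ((isOpen_Dm _ _ _).mem_nhds (IB_mem1 hp))

private lemma IB_Ld (hL : Lag L k1 b M) (hF : GF c r κ F) (hc : c ≤ b / 16) (hr : r ≤ b / 16)
    (hκ : κ ≤ b / 16) {Λ : ℂ × ℂ × ℂ → ℂ} (hΛ : Λ ∈ LL L) {p : ℂ × ℂ}
    (hp : p ∈ Dm {0, 1} c r) : br F p ∈ DL b ∧ DifferentiableAt ℂ Λ (br F p) := by
  have hb := hL.b0
  have h1 := br_mem hF hb hc hr hκ p hp
  have h2 : br F p ∈ DL b := ⟨by linarith [h1.1], by linarith [h1.2.1], by linarith [h1.2.2]⟩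
  exact ⟨h2, ((lag_facts hL).1 Λ hΛ).1.differentiableAt ((isOpen_DL b).mem_nhds h2)⟩

private lemma IB_comp_t (hL : Lag L k1 b M) (hF : GF c r κ F) (hc : c ≤ b / 16)
    (hr : r ≤ b / 16) (hκ : κ ≤ b / 16) {Λ : ℂ × ℂ × ℂ → ℂ} (hΛ : Λ ∈ LL L) {p : ℂ × ℂ}
    (hp : p ∈ Dm {0, 1} c r) (h0 : p.2 ≠ 0) :
    dt (fun q => Λ (br F q)) p = Lt Λ (br F p) * dt F p + LD Λ (br F p) * nab (dt F) p := by
  have h1 := IB_curve (f := F) (x := fun s => s) (y := fun _ => p.2) (a := p.1) (IB_Fd0 hF hp)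
    (hasDerivAt_id p.1) (hasDerivAt_const p.1 p.2)
  have h2 := IB_nab_t (IB_Fd0 hF hp) (IB_Fd1 hF hp) h0
  have h3 := IB_curve3 (Λ := Λ) (x := fun s => F (s, p.2)) (y := fun s => nab F (s, p.2))
    (z := fun _ => p.2) (a := p.1) (IB_Ld hL hF hc hr hκ hΛ hp).2 h1 h2
    (hasDerivAt_const p.1 p.2)
  have h4 : dt (fun q => Λ (br F q)) p = _ := h3.deriv
  rw [h4]
  simp only [br, Prod.mk.eta]
  ring

private lemma IB_comp_r (hL : Lag L k1 b M) (hF : GF c r κ F) (hc : c ≤ b / 16)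
    (hr : r ≤ b / 16) (hκ : κ ≤ b / 16) {Λ : ℂ × ℂ × ℂ → ℂ} (hΛ : Λ ∈ LL L) {p : ℂ × ℂ}
    (hp : p ∈ Dm {0, 1} c r) (h0 : p.2 ≠ 0) :
    dr (fun q => Λ (br F q)) p = Lt Λ (br F p) * dr F p + LD Λ (br F p) *
      ((dt F (p.1 + p.2, p.2) + dr F (p.1 + p.2, p.2) - dr F p - nab F p) / p.2) +
      Lr Λ (br F p) := by
  have h1 := IB_curve (f := F) (x := fun _ => p.1) (y := fun s => s) (a := p.2) (IB_Fd0 hF hp)
    (hasDerivAt_const p.2 p.1) (hasDerivAt_id p.2)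
  have h2 := IB_nab_r (IB_Fd0 hF hp) (IB_Fd1 hF hp) h0
  have h3 := IB_curve3 (Λ := Λ) (x := fun s => F (p.1, s)) (y := fun s => nab F (p.1, s))
    (z := fun s => s) (a := p.2) (IB_Ld hL hF hc hr hκ hΛ hp).2 h1 h2 (hasDerivAt_id p.2)
  have h4 : dr (fun q => Λ (br F q)) p = _ := h3.deriv
  rw [h4]
  simp only [br, Prod.mk.eta]
  ring

private lemma IB_cd (hL : Lag L k1 b M) (hF : GF c r κ F) (hc : c ≤ b / 16)
    (hr : r ≤ b / 16) (hκ : κ ≤ b / 16) {Λ : ℂ × ℂ × ℂ → ℂ} (hΛ : Λ ∈ LL L) {p : ℂ × ℂ}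
    (hp : p ∈ Dm {0, 1} c r) : DifferentiableAt ℂ (fun q => Λ (br F q)) p :=
  (br_RP hL hF hc hr hκ Λ hΛ).diff.differentiableAt ((isOpen_Dm _ _ _).mem_nhds hp)

private lemma IB_EL_t (hL : Lag L k1 b M) (hF : GF c r κ F) (hc : c ≤ b / 16)
    (hr : r ≤ b / 16) (hκ : κ ≤ b / 16) {p : ℂ × ℂ} (hp : p ∈ Dm {-1, 0, 1} c r)
    (h0 : p.2 ≠ 0) : dt (EL L F) p =
      dt (fun q => Lt L (br F q)) p - nabm (dt (fun q => LD L (br F q))) p := by
  have h1 := IB_curve (f := fun q => Lt L (br F q)) (x := fun s => s) (y := fun _ => p.2)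
    (a := p.1) (IB_cd hL hF hc hr hκ (by simp [LL]) (IB_memE hp))
    (hasDerivAt_id p.1) (hasDerivAt_const p.1 p.2)
  have h2 := IB_nabm_t (f := fun q => LD L (br F q)) (p := p)
    (IB_cd hL hF hc hr hκ (by simp [LL]) (IB_memE hp))
    (IB_cd hL hF hc hr hκ (by simp [LL]) (IB_memE' hp)) h0
  have h3 : dt (EL L F) p = _ := (h1.fun_sub h2).deriv
  rw [h3]
  simp

private lemma IB_EL_r (hL : Lag L k1 b M) (hF : GF c r κ F) (hc : c ≤ b / 16)
    (hr : r ≤ b / 16) (hκ : κ ≤ b / 16) {p : ℂ × ℂ} (hp : p ∈ Dm {-1, 0, 1} c r)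
    (h0 : p.2 ≠ 0) : dr (EL L F) p = dr (fun q => Lt L (br F q)) p -
      (dr (fun q => LD L (br F q)) p - dr (fun q => LD L (br F q)) (p.1 - p.2, p.2) +
        dt (fun q => LD L (br F q)) (p.1 - p.2, p.2) - nabm (fun q => LD L (br F q)) p) / p.2 := by
  have h1 := IB_curve (f := fun q => Lt L (br F q)) (x := fun _ => p.1) (y := fun s => s)
    (a := p.2) (IB_cd hL hF hc hr hκ (by simp [LL]) (IB_memE hp))
    (hasDerivAt_const p.2 p.1) (hasDerivAt_id p.2)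
  have h2 := IB_nabm_r (f := fun q => LD L (br F q)) (p := p)
    (IB_cd hL hF hc hr hκ (by simp [LL]) (IB_memE hp))
    (IB_cd hL hF hc hr hκ (by simp [LL]) (IB_memE' hp)) h0
  have h3 : dr (EL L F) p = _ := (h1.fun_sub h2).deriv
  rw [h3]
  simp

private lemma IB_JJ_PH (hL : Lag L k1 b M) (hF : GF c r κ F) (hc : c ≤ b / 16)
    (hr : r ≤ b / 16) (hκ : κ ≤ b / 16) {z : ℂ × ℂ → ℂ} (hz : PH {0} c r z) :
    PH {-1, 0, 1} c r (JJ L F z) := by
  have hA : PH {0, 1} c r (fun q => Lt (Lt L) (br F q)) :=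
    (br_RP hL hF hc hr hκ _ (by simp [LL])).toPH
  have hB : PH {0, 1} c r (fun q => LD (Lt L) (br F q)) :=
    (br_RP hL hF hc hr hκ _ (by simp [LL])).toPH
  have hC : PH {0, 1} c r (fun q => LD (LD L) (br F q)) :=
    (br_RP hL hF hc hr hκ _ (by simp [LL])).toPH
  have hz1 : PH {0, 1} c r z := hz.mono (by simp) le_rfl le_rfl
  have hz2 : PH {0, 1} c r (nab z) := hz.hnab (by simp) (by simp)
  have h1 := (hA.mul hz1).add (hB.mul hz2)
  have h2 := ((hB.mul hz1).add (hC.mul hz2)).hnabm (S' := {-1, 0, 1}) (by simp) (by simp)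
  exact (h1.mono (by simp) le_rfl le_rfl).sub h2

private lemma IB_dt_EL (hL : Lag L k1 b M) (hF : GF c r κ F) (hc : c ≤ b / 16)
    (hr : r ≤ b / 16) (hκ : κ ≤ b / 16) {p : ℂ × ℂ} (hp : p ∈ Dm {-1, 0, 1} c r)
    (h0 : p.2 ≠ 0) : dt (EL L F) p = JJ L F (dt F) p := by
  have hp1 := IB_memE hp
  have hp2 := IB_memE' hp
  have hs := (lag_facts hL).2.1
  rw [IB_EL_t hL hF hc hr hκ hp h0]
  unfold JJ
  rw [IB_comp_t hL hF hc hr hκ (Λ := Lt L) (by simp [LL]) hp1 h0, nabm_of_ne h0, nabm_of_ne h0,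
    IB_comp_t hL hF hc hr hκ (Λ := LD L) (by simp [LL]) hp1 h0,
    IB_comp_t hL hF hc hr hκ (Λ := LD L) (by simp [LL]) hp2 h0,
    hs _ (IB_Ld hL hF hc hr hκ (Λ := L) (by simp [LL]) hp1).1,
    hs _ (IB_Ld hL hF hc hr hκ (Λ := L) (by simp [LL]) hp2).1]

theorem dt_EL (hL : Lag L k1 b M) (hF : GF c r κ F) (hc : c ≤ b / 16) (hr : r ≤ b / 16)
    (hκ : κ ≤ b / 16) : ∀ p ∈ Dm {-1, 0, 1} c r, dt (EL L F) p = JJ L F (dt F) p :=
  eq_of_ne (EL_RP hL hF hc hr hκ).toPH.hdt.diff.continuousOn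
    (IB_JJ_PH hL hF hc hr hκ hF.dt_RP.toPH).diff.continuousOn
    fun _ hp h0 => IB_dt_EL hL hF hc hr hκ hp h0

theorem I1_alg {ρ A B C B' C' κm κ κp ym y yp : ℂ} (hρ : ρ ≠ 0) :
    κ * (A * (κ * y) + B * ((κp * yp - κ * y) / ρ) -
        ((B * (κ * y) + C * ((κp * yp - κ * y) / ρ)) -
          (B' * (κm * ym) + C' * ((κ * y - κm * ym) / ρ))) / ρ) =
      -((κ * κp * (C - ρ * B) * ((yp - y) / ρ)) -
          (κm * κ * (C' - ρ * B') * ((y - ym) / ρ))) / ρ +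
        κ * y * (A * κ + B * ((κp - κ) / ρ) -
          ((B * κ + C * ((κp - κ) / ρ)) - (B' * κm + C' * ((κ - κm) / ρ))) / ρ) := by
  field_simp
  ring

private lemma IB_nab_m {f : ℂ × ℂ → ℂ} {p : ℂ × ℂ} (h0 : p.2 ≠ 0) :
    nab f (p.1 - p.2, p.2) = (f p - f (p.1 - p.2, p.2)) / p.2 := by
  rw [nab_of_ne (p := (p.1 - p.2, p.2)) h0]
  simp

private lemma IB_sh {f : ℂ × ℂ → ℂ} {p : ℂ × ℂ} : sh 1 f p = f (p.1 + p.2, p.2) := by
  simp [sh]

theorem EL_I1 (hL : Lag L k1 b M) (hF : GF c r κ F) (hc : c ≤ b / 16) (hr : r ≤ b / 16)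
    (hκ : κ ≤ b / 16) (hv : PH {0} c r v) : ∀ p ∈ Dm {-1, 0, 1} c r,
    dt F p * JJ L F (fun q => dt F q * v q) p =
      -nabm (fun q => aa L F q * nab v q) p + dt F p * dt (EL L F) p * v p := by
  have hk : PH {0} c r (dt F) := hF.dt_RP.toPH
  have hk' : PH {-1, 0, 1} c r (dt F) := hk.mono (by simp) le_rfl le_rfl
  have hv' : PH {-1, 0, 1} c r v := hv.mono (by simp) le_rfl le_rfl
  have hv1 : PH {0, 1} c r (nab v) := hv.hnab (by simp) (by simp)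
  have ha : PH {-1, 0, 1} c r (nabm (fun q => aa L F q * nab v q)) :=
    ((aa_RP hL hF hc hr hκ).toPH.mul hv1).hnabm (by simp) (by simp)
  refine eq_of_ne (f := fun p => dt F p * JJ L F (fun q => dt F q * v q) p)
    (g := fun p => -nabm (fun q => aa L F q * nab v q) p + dt F p * dt (EL L F) p * v p)
    (hk'.mul (IB_JJ_PH hL hF hc hr hκ (hk.mul hv))).diff.continuousOn
    (ha.neg.add ((hk'.mul (EL_RP hL hF hc hr hκ).toPH.hdt).mul hv')).diff.continuousOn ?_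
  intro p hp h0
  have hp1 := IB_memE hp
  have hp2 := IB_memE' hp
  simp only [IB_dt_EL hL hF hc hr hκ hp h0]
  have h := I1_alg (ρ := p.2) (A := Lt (Lt L) (br F p)) (B := LD (Lt L) (br F p))
    (C := LD (LD L) (br F p)) (B' := LD (Lt L) (br F (p.1 - p.2, p.2)))
    (C' := LD (LD L) (br F (p.1 - p.2, p.2))) (κm := dt F (p.1 - p.2, p.2)) (κ := dt F p)
    (κp := dt F (p.1 + p.2, p.2)) (ym := v (p.1 - p.2, p.2)) (y := v p)
    (yp := v (p.1 + p.2, p.2)) h0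
  unfold JJ aa
  simp only [nabm_of_ne h0, nab_of_ne h0, IB_nab_m h0, IB_sh, sub_add_cancel, Prod.mk.eta]
  linear_combination h

private lemma IB_I2_alg {ρ k1 A B C B' C' km k kp zm z zp D D' φ ψ ψ' R R1 R2 : ℂ} (hρ : ρ ≠ 0)
    (hk : k ≠ 0) (hkm : km ≠ 0) (hkp : kp ≠ 0) (h : ρ * R - D * B + k1 * φ = 0)
    (h1 : ρ * R1 - D * C + (k1 - 1) * ψ = 0) (h2 : ρ * R2 - D' * C' + (k1 - 1) * ψ' = 0) :
    k * (ρ * (A * z + B * ((kp + zp - z - D) / ρ) + R -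
        ((B * z + C * ((kp + zp - z - D) / ρ) + R1) -
          (B' * zm + C' * ((k + z - zm - D') / ρ) + R2) +
          (B' * km + C' * ((k - km) / ρ)) - (ψ - ψ') / ρ) / ρ) + k1 * (φ - (ψ - ψ') / ρ)) -
      ρ * z * (A * k + B * ((kp - k) / ρ) -
        ((B * k + C * ((kp - k) / ρ)) - (B' * km + C' * ((k - km) / ρ))) / ρ) =
      (-(k * kp * (C - ρ * B) * (1 + zp / kp - z / k)) -
        -(km * k * (C' - ρ * B') * (1 + z / k - zm / km))) / ρ := by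
  have e : R = (D * B - k1 * φ) / ρ := by
    rw [eq_div_iff hρ]
    linear_combination h
  have e1 : R1 = (D * C - (k1 - 1) * ψ) / ρ := by
    rw [eq_div_iff hρ]
    linear_combination h1
  have e2 : R2 = (D' * C' - (k1 - 1) * ψ') / ρ := by
    rw [eq_div_iff hρ]
    linear_combination h2
  rw [e, e1, e2]
  field_simp
  ring

private lemma IB_k_ne (hL : Lag L k1 b M) (hF : GF c r κ F) (hκ : κ ≤ b / 16) {p : ℂ × ℂ}
    (hp : p ∈ Dm {0} c r) : dt F p ≠ 0 := by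
  intro h
  have h1 := hF.dt1 p hp
  have h2 := hL.b1
  rw [h] at h1
  norm_num at h1
  linarith

theorem EL_I2 (hL : Lag L k1 b M) (hF : GF c r κ F) (hc : c ≤ b / 16) (hr : r ≤ b / 16)
    (hκ : κ ≤ b / 16) : ∀ p ∈ Dm {-1, 0, 1} c r, p.2 ≠ 0 →
    dt F p * (p.2 * dr (EL L F) p + k1 * EL L F p) - p.2 * dr F p * dt (EL L F) p =
      nabm (Gf (aa L F) (uu F)) p := by
  intro p hp h0
  have hp1 := IB_memE hp
  have hp2 := IB_memE' hp
  have hb1 := (IB_Ld hL hF hc hr hκ (Λ := L) (by simp [LL]) hp1).1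
  have hb2 := (IB_Ld hL hF hc hr hκ (Λ := L) (by simp [LL]) hp2).1
  obtain ⟨-, hs, ht, hd⟩ := lag_facts hL
  have e1 := ht _ hb1
  have e2 := hd _ hb1
  have e3 := hd _ hb2
  rw [IB_dt_EL hL hF hc hr hκ hp h0, IB_EL_r hL hF hc hr hκ hp h0,
    IB_comp_r hL hF hc hr hκ (Λ := Lt L) (by simp [LL]) hp1 h0,
    IB_comp_r hL hF hc hr hκ (Λ := LD L) (by simp [LL]) hp1 h0,
    IB_comp_r hL hF hc hr hκ (Λ := LD L) (by simp [LL]) hp2 h0,
    IB_comp_t hL hF hc hr hκ (Λ := LD L) (by simp [LL]) hp2 h0, hs _ hb1, hs _ hb2]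
  unfold JJ EL Gf aa uu
  have h := IB_I2_alg (k1 := k1) (A := Lt (Lt L) (br F p)) (B := LD (Lt L) (br F p))
    (C := LD (LD L) (br F p)) (B' := LD (Lt L) (br F (p.1 - p.2, p.2)))
    (C' := LD (LD L) (br F (p.1 - p.2, p.2))) (zm := dr F (p.1 - p.2, p.2)) (z := dr F p)
    (zp := dr F (p.1 + p.2, p.2)) h0 (IB_k_ne hL hF hκ (IB_mem0 hp1))
    (IB_k_ne hL hF hκ (IB_mem0 hp2)) (IB_k_ne hL hF hκ (IB_mem1 hp1)) e1 e2 e3
  simp only [br] at h
  simp only [nabm_of_ne h0, IB_nab_m h0, nab_of_ne h0, IB_sh, sub_add_cancel, Prod.mk.eta, br]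
    at h ⊢
  linear_combination h

theorem EL_mean (hL : Lag L k1 b M) (hF : GF c r κ F) (hc : c ≤ b / 16) (hr : r ≤ b / 16)
    (hκ : κ ≤ b / 16) (hrc : r ≤ c) : ∀ ρ ∈ Rq r, fc (fun p => dt F p * EL L F p) 0 ρ = 0 := by
  have hk : PH {0} c r (dt F) := hF.dt_RP.toPH
  have hk1 : PH {0, 1} c r (dt F) := hk.mono (by simp) le_rfl le_rfl
  have hk2 : PH {-1, 0, 1} c r (dt F) := hk.mono (by simp) le_rfl le_rfl
  have hE := (EL_RP hL hF hc hr hκ).toPH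
  have hφ : PH {0, 1} c r (fun q => Lt L (br F q)) :=
    (br_RP hL hF hc hr hκ _ (by simp [LL])).toPH
  have hψ : PH {0, 1} c r (fun q => LD L (br F q)) :=
    (br_RP hL hF hc hr hκ _ (by simp [LL])).toPH
  have hl : PH {0, 1} c r (fun q => L (br F q)) :=
    (br_RP hL hF hc hr hκ _ (by simp [LL])).toPH
  have hS : Sml {-1, 0, 1} := ⟨by simp, by simp⟩
  have hS1 : Sml {0, 1} := ⟨by simp, by simp⟩
  -- the case of non-zero `ρ`
  have key : ∀ ρ ∈ Rq r, ρ ≠ 0 → fc (fun p => dt F p * EL L F p) 0 ρ = 0 := by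
    intro ρ hρ h0
    have hg : PH {0, 1} c r (fun q => sh 1 (dt F) q * LD L (br F q)) :=
      (hk.hsh 1 (by simp)).mul hψ
    have hg1 : PH {-1, 0, 1} c r (fun q => sh 1 (dt F) q * LD L (br F q)) :=
      hg.mono (by simp) le_rfl le_rfl
    have hg2 : PH {-1, 0, 1} c r (sh (-1) (fun q => sh 1 (dt F) q * LD L (br F q))) :=
      hg.hsh (-1) (by simp)
    have hG : PH {-1, 0, 1} c r (dt (fun q => L (br F q))) :=
      hl.hdt.mono (by simp) le_rfl le_rfl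
    have e1 : fc (dt (fun q => L (br F q))) 0 ρ = 0 := by
      rw [fc_dt hl hS1 hrc 0 hρ]
      simp
    have e2 : fc (sh (-1) (fun q => sh 1 (dt F) q * LD L (br F q))) 0 ρ =
        fc (fun q => sh 1 (dt F) q * LD L (br F q)) 0 ρ := by
      rw [fc_sh hg hS1 hrc 0 (-1) (by simp) hρ]
      simp
    have e3 : fc (fun p => dt F p * EL L F p) 0 ρ =
        fc (fun p => dt (fun q => L (br F q)) p - ρ⁻¹ *
          ((fun q => sh 1 (dt F) q * LD L (br F q)) p -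
            sh (-1) (fun q => sh 1 (dt F) q * LD L (br F q)) p)) 0 ρ := by
      unfold fc
      refine intervalIntegral.integral_congr fun s _ => ?_
      simp only
      congr 1
      have hs : (((s : ℂ), ρ) : ℂ × ℂ) ∈ Dm {-1, 0, 1} c r := mem_real (by simp) hrc s hρ
      rw [IB_comp_t hL hF hc hr hκ (Λ := L) (by simp [LL]) (IB_memE hs) h0, EL,
        nabm_of_ne (p := ((s : ℂ), ρ)) h0, nab_of_ne (p := ((s : ℂ), ρ)) h0]
      simp only [sh]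
      push_cast
      rw [one_mul, neg_one_mul, ← sub_eq_add_neg, sub_add_cancel]
      field_simp
      ring
    rw [e3, fc_sub hG ((PH.const ρ⁻¹).mul (hg1.sub hg2)) hS hrc 0 hρ,
      fc_smul _ (fun _ => ρ⁻¹), fc_sub hg1 hg2 hS hrc 0 hρ, e1, e2]
    simp
  -- continuity
  intro ρ hρ
  have hr0 : 0 < r := lt_of_le_of_lt (abs_nonneg _) hρ.1
  have h1 : PH {0} c r (fun p => fc (fun p => dt F p * EL L F p) 0 p.2) :=
    PH.ofρ (fc_diff (hk2.mul hE) hS hrc 0)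
  have h2 := eq_of_ne h1.diff.continuousOn (continuousOn_const (c := (0 : ℂ)))
    (fun p hp h0 => key p.2 hp.2 h0)
  exact h2 (((0 : ℝ) : ℂ), ρ) (mem_real (by simp) hrc 0 hρ)

end

end Pool.Agent.MP_ae5b4e_an_SM
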