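import Mathlib
import Pool.Agent.Lib.MP_ae5b4e_an_SM.OpsA
import Pool.Agent.Lib.MP_ae5b4e_an_SM.OpsB
import Pool.Agent.Lib.MP_ae5b4e_an_SM.LagF
import Pool.Agent.Lib.MP_ae5b4e_an_SM.IdentA
import Pool.Agent.Lib.MP_ae5b4e_an_SM.IdentB
import Pool.Agent.Lib.MP_ae5b4e_an_SM.Contr

/-!
# MP_ae5b4e_an, project SMOOTH, module SM: the Dirichlet problem on a chain
-/

noncomputable section

namespace Pool.Agent.MP_ae5b4e_an_SM

open Complex Set Filter Topology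

/-! ### Green's function: linearity, reality, holomorphy -/

lemma chainA_green_sub (q : ℕ) (ρ : ℂ) (a R R' : ℕ → ℂ) (j : ℕ) :
    green q ρ a (fun i => R i - R' i) j = green q ρ a R j - green q ρ a R' j := by
  unfold green
  rw [← Finset.sum_sub_distrib]
  refine Finset.sum_congr rfl fun i _ => ?_
  have h1 : ∑ l ∈ Finset.range q, (a l)⁻¹ * ∑ k ∈ Finset.Ioc 0 l, (R k - R' k) =
      ∑ l ∈ Finset.range q, (a l)⁻¹ * ∑ k ∈ Finset.Ioc 0 l, R k -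
        ∑ l ∈ Finset.range q, (a l)⁻¹ * ∑ k ∈ Finset.Ioc 0 l, R' k := by
    rw [← Finset.sum_sub_distrib]
    refine Finset.sum_congr rfl fun l _ => ?_
    rw [Finset.sum_sub_distrib]
    ring
  rw [h1, Finset.sum_sub_distrib]
  ring

/-- the subfield of real numbers -/
def chainA_K : Subfield ℂ := Complex.ofRealHom.fieldRange

lemma chainA_mem_K {z : ℂ} : z ∈ chainA_K ↔ z.im = 0 := by
  constructor
  · rintro ⟨x, rfl⟩
    simp
  · intro h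
    exact ⟨z.re, Complex.ext (by simp) (by simp [h])⟩

lemma chainA_green_real {q : ℕ} {ρ : ℂ} {a R : ℕ → ℂ} (hρ : ρ.im = 0)
    (ha : ∀ j < q, (a j).im = 0) (hR : ∀ j < q, 0 < j → (R j).im = 0) {j : ℕ} (hj : j ≤ q) :
    (green q ρ a R j).im = 0 := by
  rw [← chainA_mem_K] at hρ ⊢
  have ha' : ∀ j < q, a j ∈ chainA_K := fun j hj => chainA_mem_K.2 (ha j hj)
  have hR' : ∀ j < q, 0 < j → R j ∈ chainA_K := fun j hj h0 => chainA_mem_K.2 (hR j hj h0)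
  have hs : ∀ l < q, ∑ k ∈ Finset.Ioc 0 l, R k ∈ chainA_K := fun l hl =>
    sum_mem fun k hk => hR' k ((Finset.mem_Ioc.1 hk).2.trans_lt hl) (Finset.mem_Ioc.1 hk).1
  unfold green
  refine sum_mem fun i hi => ?_
  have hi' : i < q := (Finset.mem_range.1 hi).trans_le hj
  refine mul_mem hρ (div_mem (add_mem (div_mem (mul_mem (neg_mem hρ) ?_) ?_)
    (mul_mem hρ (hs i hi'))) (ha' i hi'))
  · exact sum_mem fun l hl => mul_mem (inv_mem (ha' l (Finset.mem_range.1 hl)))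
      (hs l (Finset.mem_range.1 hl))
  · exact sum_mem fun l hl => inv_mem (ha' l (Finset.mem_range.1 hl))

lemma chainA_near {z : ℂ} (h : ‖z - 1‖ ≤ 1 / 4) : z ≠ 0 ∧ 2 / 3 ≤ (z⁻¹).re := by
  have h1 : 3 / 4 ≤ ‖z‖ := by
    have h2 : ‖(1 : ℂ)‖ ≤ ‖z‖ + ‖1 - z‖ := by
      have := norm_add_le z (1 - z)
      simpa using this
    rw [norm_one, norm_sub_rev] at h2
    linarith
  have h3 : z ≠ 0 := by
    rintro rfl
    rw [norm_zero] at h1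
    norm_num at h1
  refine ⟨h3, ?_⟩
  have h4 : ‖z⁻¹‖ ≤ 4 / 3 := by
    rw [norm_inv]
    calc ‖z‖⁻¹ ≤ (3 / 4 : ℝ)⁻¹ := by gcongr
      _ = 4 / 3 := by norm_num
  have h5 : z⁻¹ - 1 = (1 - z) * z⁻¹ := by
    field_simp
  have h6 : ‖z⁻¹ - 1‖ ≤ 1 / 3 := by
    rw [h5, norm_mul, norm_sub_rev]
    calc ‖z - 1‖ * ‖z⁻¹‖ ≤ (1 / 4) * (4 / 3) := by gcongr
      _ = 1 / 3 := by norm_num
  have h7 := (Complex.abs_re_le_norm (z⁻¹ - 1)).trans h6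
  rw [Complex.sub_re, Complex.one_re, abs_le] at h7
  linarith

lemma chainA_sum_ne {q : ℕ} (hq : 0 < q) {a : ℕ → ℂ} (ha : ∀ j < q, ‖a j - 1‖ ≤ 1 / 4) :
    ∑ l ∈ Finset.range q, (a l)⁻¹ ≠ 0 := by
  intro h
  have h1 : (∑ l ∈ Finset.range q, (a l)⁻¹).re = ∑ l ∈ Finset.range q, ((a l)⁻¹).re := by
    simp
  have h2 : (0:ℝ) < ∑ l ∈ Finset.range q, ((a l)⁻¹).re := by
    refine Finset.sum_pos (fun l hl => ?_) ⟨0, Finset.mem_range.2 hq⟩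
    have := (chainA_near (ha l (Finset.mem_range.1 hl))).2
    linarith
  rw [← h1, h, Complex.zero_re] at h2
  exact lt_irrefl _ h2

lemma chainA_green_diff {U : Set ℂ} {q : ℕ} (hq : 0 < q) (ρ : ℂ) {a R : ℕ → ℂ → ℂ}
    (ha : ∀ j < q, DifferentiableOn ℂ (a j) U)
    (hR : ∀ j < q, 0 < j → DifferentiableOn ℂ (R j) U)
    (ha1 : ∀ t ∈ U, ∀ j < q, ‖a j t - 1‖ ≤ 1 / 4) {j : ℕ} (hj : j ≤ q) :
    DifferentiableOn ℂ (fun t => green q ρ (fun i => a i t) (fun i => R i t) j) U := by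
  have hne : ∀ i < q, ∀ t ∈ U, a i t ≠ 0 := fun i hi t ht => (chainA_near (ha1 t ht i hi)).1
  have hinv : ∀ i < q, DifferentiableOn ℂ (fun t => (a i t)⁻¹) U := fun i hi =>
    (ha i hi).inv (hne i hi)
  have hs : ∀ l < q, DifferentiableOn ℂ (fun t => ∑ k ∈ Finset.Ioc 0 l, R k t) U := fun l hl =>
    DifferentiableOn.fun_sum fun k hk =>
      hR k ((Finset.mem_Ioc.1 hk).2.trans_lt hl) (Finset.mem_Ioc.1 hk).1
  unfold green
  refine DifferentiableOn.fun_sum fun i hi => ?_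
  have hi' : i < q := (Finset.mem_range.1 hi).trans_le hj
  have h1 : DifferentiableOn ℂ (fun t => ∑ l ∈ Finset.range q, (a l t)⁻¹ *
      ∑ k ∈ Finset.Ioc 0 l, R k t) U := DifferentiableOn.fun_sum fun l hl =>
    (hinv l (Finset.mem_range.1 hl)).mul (hs l (Finset.mem_range.1 hl))
  have h2 : DifferentiableOn ℂ (fun t => ∑ l ∈ Finset.range q, (a l t)⁻¹) U :=
    DifferentiableOn.fun_sum fun l hl => hinv l (Finset.mem_range.1 hl)
  have h3 := ((h1.const_mul (-ρ)).div h2 fun t ht => chainA_sum_ne hq (ha1 t ht)).add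
    ((hs i hi').const_mul ρ)
  exact ((h3.div (ha i hi') (hne i hi')).const_mul ρ)

/-! ### The equation at one point -/

/-- the remainder at one point of the chain -/
def chainA_R (L : ℂ × ℂ × ℂ → ℂ) (ρ x0 x1 x2 k0 k1 k2 a0 a1 y0 y1 y2 : ℂ) : ℂ :=
  k1 * el L ρ (x0 + k0 * y0) (x1 + k1 * y1) (x2 + k2 * y2) +
    (a1 * (y2 - y1) - a0 * (y1 - y0)) / ρ ^ 2

lemma chainA_DL {b : ℝ} {P : ℂ × ℂ × ℂ} {z w : ℂ} (hP : P ∈ DL (b / 4)) (hz : ‖z‖ ≤ b / 4)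
    (hw : ‖w‖ ≤ b / 4) : (P.1 + z, P.2.1 + w, P.2.2) ∈ DL (b / 2) := by
  obtain ⟨h1, h2, h3⟩ := hP
  refine ⟨?_, ?_, ?_⟩
  · simp only [Complex.add_im]
    have h4 := abs_add_le P.1.im z.im
    have h5 := Complex.abs_im_le_norm z
    linarith
  · have h4 := norm_add_le (P.2.1 - 1) w
    have h5 : P.2.1 + w - 1 = P.2.1 - 1 + w := by ring
    simp only
    rw [h5]
    linarith
  · have h4 : 0 ≤ ‖P.2.2‖ := norm_nonneg _
    simp only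
    linarith

lemma chainA_el (L : ℂ × ℂ × ℂ → ℂ) {ρ x0 x1 x2 z0 z1 z2 : ℂ} :
    el L ρ (x0 + z0) (x1 + z1) (x2 + z2) =
      Lt L (x1 + z1, (x2 - x1) / ρ + (z2 - z1) / ρ, ρ) -
        (LD L (x1 + z1, (x2 - x1) / ρ + (z2 - z1) / ρ, ρ) -
          LD L (x0 + z0, (x1 - x0) / ρ + (z1 - z0) / ρ, ρ)) / ρ := by
  have h1 : (x2 + z2 - (x1 + z1)) / ρ = (x2 - x1) / ρ + (z2 - z1) / ρ := by ring
  have h2 : (x1 + z1 - (x0 + z0)) / ρ = (x1 - x0) / ρ + (z1 - z0) / ρ := by ring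
  unfold el
  rw [h1, h2]

lemma chainA_incr {ρ k1 k2 y1 y2 : ℂ} {Q R : ℝ} (hQ : 1 ≤ Q) (hρQ : ‖ρ⁻¹‖ ≤ Q) (hk1 : ‖k1‖ ≤ 2)
    (hk2 : ‖k2‖ ≤ 2) (hy1 : ‖y1‖ ≤ R) (hy2 : ‖y2‖ ≤ R) :
    ‖k1 * y1‖ ≤ 2 * R ∧ ‖(k2 * y2 - k1 * y1) / ρ‖ ≤ 4 * Q * R ∧
      ‖k1 * y1‖ + ‖(k2 * y2 - k1 * y1) / ρ‖ ≤ 6 * Q * R := by
  have hR : 0 ≤ R := (norm_nonneg _).trans hy1
  have h1 : ‖k1 * y1‖ ≤ 2 * R := by
    rw [norm_mul]
    gcongr
  have h2 : ‖k2 * y2‖ ≤ 2 * R := by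
    rw [norm_mul]
    gcongr
  have h3 : ‖(k2 * y2 - k1 * y1) / ρ‖ ≤ 4 * Q * R := by
    rw [div_eq_mul_inv, norm_mul]
    have h4 := norm_sub_le (k2 * y2) (k1 * y1)
    calc ‖k2 * y2 - k1 * y1‖ * ‖ρ⁻¹‖ ≤ (4 * R) * Q := by
          gcongr
          linarith
      _ = 4 * Q * R := by ring
  refine ⟨h1, h3, ?_⟩
  nlinarith

/-- the remainder is Lipschitz -/
lemma chainA_lip {L : ℂ × ℂ × ℂ → ℂ} {b M' : ℝ} (hM' : 1 ≤ M')
    (hb2 : ∀ (P : ℂ × ℂ × ℂ) (z w z' w' : ℂ), P ∈ DL (b / 2) →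
      (P.1 + z, P.2.1 + w, P.2.2) ∈ DL (b / 2) → (P.1 + z', P.2.1 + w', P.2.2) ∈ DL (b / 2) →
      ‖Lt L (P.1 + z, P.2.1 + w, P.2.2) - Lt L (P.1 + z', P.2.1 + w', P.2.2) -
        Lt (Lt L) P * (z - z') - LD (Lt L) P * (w - w')‖ ≤
        M' * (‖z‖ + ‖w‖ + ‖z'‖ + ‖w'‖) * (‖z - z'‖ + ‖w - w'‖) ∧
      ‖LD L (P.1 + z, P.2.1 + w, P.2.2) - LD L (P.1 + z', P.2.1 + w', P.2.2) -
        LD (Lt L) P * (z - z') - LD (LD L) P * (w - w')‖ ≤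
        M' * (‖z‖ + ‖w‖ + ‖z'‖ + ‖w'‖) * (‖z - z'‖ + ‖w - w'‖))
    {ρ x0 x1 x2 k0 k1 k2 a0 a1 Et : ℂ} {Q e R d : ℝ} (hρ : ρ ≠ 0) (hQ : 1 ≤ Q)
    (hρQ : ‖ρ⁻¹‖ ≤ Q) (hP0 : (x0, (x1 - x0) / ρ, ρ) ∈ DL (b / 4))
    (hP1 : (x1, (x2 - x1) / ρ, ρ) ∈ DL (b / 4)) (hk0 : ‖k0‖ ≤ 2) (hk1 : ‖k1‖ ≤ 2)
    (hk2 : ‖k2‖ ≤ 2)
    (ha0 : a0 = k0 * k1 * (LD (LD L) (x0, (x1 - x0) / ρ, ρ) -
      ρ * LD (Lt L) (x0, (x1 - x0) / ρ, ρ)))
    (ha1 : a1 = k1 * k2 * (LD (LD L) (x1, (x2 - x1) / ρ, ρ) -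
      ρ * LD (Lt L) (x1, (x2 - x1) / ρ, ρ)))
    (hEt : Et = Lt (Lt L) (x1, (x2 - x1) / ρ, ρ) * k1 +
      LD (Lt L) (x1, (x2 - x1) / ρ, ρ) * ((k2 - k1) / ρ) -
      ((LD (Lt L) (x1, (x2 - x1) / ρ, ρ) * k1 + LD (LD L) (x1, (x2 - x1) / ρ, ρ) *
        ((k2 - k1) / ρ)) - (LD (Lt L) (x0, (x1 - x0) / ρ, ρ) * k0 +
          LD (LD L) (x0, (x1 - x0) / ρ, ρ) * ((k1 - k0) / ρ))) / ρ)
    (hEb : ‖Et‖ ≤ e) {y0 y1 y2 y0' y1' y2' : ℂ} (hy0 : ‖y0‖ ≤ R) (hy1 : ‖y1‖ ≤ R)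
    (hy2 : ‖y2‖ ≤ R) (hy0' : ‖y0'‖ ≤ R) (hy1' : ‖y1'‖ ≤ R) (hy2' : ‖y2'‖ ≤ R)
    (hd0 : ‖y0 - y0'‖ ≤ d) (hd1 : ‖y1 - y1'‖ ≤ d) (hd2 : ‖y2 - y2'‖ ≤ d)
    (hRb : 16 * Q * R ≤ b) :
    ‖chainA_R L ρ x0 x1 x2 k0 k1 k2 a0 a1 y0 y1 y2 -
      chainA_R L ρ x0 x1 x2 k0 k1 k2 a0 a1 y0' y1' y2'‖ ≤ (2 * e + 432 * M' * Q ^ 3 * R) * d := by
  have hR : 0 ≤ R := (norm_nonneg _).trans hy1
  have hd : 0 ≤ d := (norm_nonneg _).trans hd1
  have he : 0 ≤ e := (norm_nonneg _).trans hEb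
  have hQR : 2 * R ≤ 4 * Q * R := by nlinarith
  have hb4 : 4 * Q * R ≤ b / 4 := by linarith
  obtain ⟨i1, i2, i3⟩ := chainA_incr hQ hρQ hk1 hk2 hy1 hy2
  obtain ⟨i1', i2', i3'⟩ := chainA_incr hQ hρQ hk1 hk2 hy1' hy2'
  obtain ⟨j1, j2, j3⟩ := chainA_incr hQ hρQ hk0 hk1 hy0 hy1
  obtain ⟨j1', j2', j3'⟩ := chainA_incr hQ hρQ hk0 hk1 hy0' hy1'
  obtain ⟨-, -, di⟩ := chainA_incr (R := d) hQ hρQ hk1 hk2 hd1 hd2
  obtain ⟨-, -, dj⟩ := chainA_incr (R := d) hQ hρQ hk0 hk1 hd0 hd1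
  have hsub : DL (b / 4) ⊆ DL (b / 2) := by
    intro P hP
    have h1 := chainA_DL (z := 0) (w := 0) hP (by rw [norm_zero]; linarith) (by rw [norm_zero]; linarith)
    simpa using h1
  have q1 := hb2 _ (k1 * y1) ((k2 * y2 - k1 * y1) / ρ) (k1 * y1') ((k2 * y2' - k1 * y1') / ρ)
    (hsub hP1) (chainA_DL hP1 (by linarith) (by linarith))
    (chainA_DL hP1 (by linarith) (by linarith))
  have q0 := hb2 _ (k0 * y0) ((k1 * y1 - k0 * y0) / ρ) (k0 * y0') ((k1 * y1' - k0 * y0') / ρ)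
    (hsub hP0) (chainA_DL hP0 (by linarith) (by linarith))
    (chainA_DL hP0 (by linarith) (by linarith))
  obtain ⟨qT, qD⟩ := q1
  obtain ⟨-, qD0⟩ := q0
  have eΔ1 : k1 * y1 - k1 * y1' = k1 * (y1 - y1') := by ring
  have eΔ0 : k0 * y0 - k0 * y0' = k0 * (y0 - y0') := by ring
  have eW1 : (k2 * y2 - k1 * y1) / ρ - (k2 * y2' - k1 * y1') / ρ =
      (k2 * (y2 - y2') - k1 * (y1 - y1')) / ρ := by ring
  have eW0 : (k1 * y1 - k0 * y0) / ρ - (k1 * y1' - k0 * y0') / ρ =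
      (k1 * (y1 - y1') - k0 * (y0 - y0')) / ρ := by ring
  rw [eΔ1, eW1] at qT qD
  rw [eΔ0, eW0] at qD0
  have hτ1 : M' * (‖k1 * y1‖ + ‖(k2 * y2 - k1 * y1) / ρ‖ + ‖k1 * y1'‖ +
      ‖(k2 * y2' - k1 * y1') / ρ‖) * (‖k1 * (y1 - y1')‖ +
      ‖(k2 * (y2 - y2') - k1 * (y1 - y1')) / ρ‖) ≤ 72 * M' * Q ^ 2 * R * d := by
    calc _ ≤ M' * (12 * Q * R) * (6 * Q * d) := by
          gcongr
          linarith
      _ = 72 * M' * Q ^ 2 * R * d := by ring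
  have hτ0 : M' * (‖k0 * y0‖ + ‖(k1 * y1 - k0 * y0) / ρ‖ + ‖k0 * y0'‖ +
      ‖(k1 * y1' - k0 * y0') / ρ‖) * (‖k0 * (y0 - y0')‖ +
      ‖(k1 * (y1 - y1') - k0 * (y0 - y0')) / ρ‖) ≤ 72 * M' * Q ^ 2 * R * d := by
    calc _ ≤ M' * (12 * Q * R) * (6 * Q * d) := by
          gcongr
          linarith
      _ = 72 * M' * Q ^ 2 * R * d := by ring
  have qT' := qT.trans hτ1
  have qD' := qD.trans hτ1
  have qD0' := qD0.trans hτ0
  simp only at qT' qD' qD0'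
  set τ := 72 * M' * Q ^ 2 * R * d with hτ
  unfold chainA_R
  rw [chainA_el, chainA_el]
  have hI := @I1_alg ρ (Lt (Lt L) (x1, (x2 - x1) / ρ, ρ)) (LD (Lt L) (x1, (x2 - x1) / ρ, ρ))
    (LD (LD L) (x1, (x2 - x1) / ρ, ρ)) (LD (Lt L) (x0, (x1 - x0) / ρ, ρ))
    (LD (LD L) (x0, (x1 - x0) / ρ, ρ)) k0 k1 k2 (y0 - y0') (y1 - y1') (y2 - y2') hρ
  rw [← hEt] at hI
  set T1 := Lt L (x1 + k1 * y1, (x2 - x1) / ρ + (k2 * y2 - k1 * y1) / ρ, ρ)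
  set T1' := Lt L (x1 + k1 * y1', (x2 - x1) / ρ + (k2 * y2' - k1 * y1') / ρ, ρ)
  set D1 := LD L (x1 + k1 * y1, (x2 - x1) / ρ + (k2 * y2 - k1 * y1) / ρ, ρ)
  set D1' := LD L (x1 + k1 * y1', (x2 - x1) / ρ + (k2 * y2' - k1 * y1') / ρ, ρ)
  set D0 := LD L (x0 + k0 * y0, (x1 - x0) / ρ + (k1 * y1 - k0 * y0) / ρ, ρ)
  set D0' := LD L (x0 + k0 * y0', (x1 - x0) / ρ + (k1 * y1' - k0 * y0') / ρ, ρ)
  set A := Lt (Lt L) (x1, (x2 - x1) / ρ, ρ)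
  set B := LD (Lt L) (x1, (x2 - x1) / ρ, ρ)
  set C := LD (LD L) (x1, (x2 - x1) / ρ, ρ)
  set B' := LD (Lt L) (x0, (x1 - x0) / ρ, ρ)
  set C' := LD (LD L) (x0, (x1 - x0) / ρ, ρ)
  set t1 := T1 - T1' - A * (k1 * (y1 - y1')) - B * ((k2 * (y2 - y2') - k1 * (y1 - y1')) / ρ)
    with ht1
  set d1 := D1 - D1' - B * (k1 * (y1 - y1')) - C * ((k2 * (y2 - y2') - k1 * (y1 - y1')) / ρ)
    with hd1'
  set d0 := D0 - D0' - B' * (k0 * (y0 - y0')) - C' * ((k1 * (y1 - y1') - k0 * (y0 - y0')) / ρ)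
    with hd0'
  have key : k1 * (T1 - (D1 - D0) / ρ) + (a1 * (y2 - y1) - a0 * (y1 - y0)) / ρ ^ 2 -
      (k1 * (T1' - (D1' - D0') / ρ) + (a1 * (y2' - y1') - a0 * (y1' - y0')) / ρ ^ 2) =
      k1 * (t1 - (d1 - d0) * ρ⁻¹) + k1 * (y1 - y1') * Et := by
    have e1 : T1 = t1 + T1' + A * (k1 * (y1 - y1')) +
      B * ((k2 * (y2 - y2') - k1 * (y1 - y1')) / ρ) := by rw [ht1]; ring
    have e2 : D1 = d1 + D1' + B * (k1 * (y1 - y1')) +
      C * ((k2 * (y2 - y2') - k1 * (y1 - y1')) / ρ) := by rw [hd1']; ring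
    have e3 : D0 = d0 + D0' + B' * (k0 * (y0 - y0')) +
      C' * ((k1 * (y1 - y1') - k0 * (y0 - y0')) / ρ) := by rw [hd0']; ring
    have e4 : k1 * (T1 - (D1 - D0) / ρ) - k1 * (T1' - (D1' - D0') / ρ) =
        k1 * (t1 - (d1 - d0) * ρ⁻¹) +
        k1 * (A * (k1 * (y1 - y1')) + B * ((k2 * (y2 - y2') - k1 * (y1 - y1')) / ρ) -
          ((B * (k1 * (y1 - y1')) + C * ((k2 * (y2 - y2') - k1 * (y1 - y1')) / ρ)) -
          (B' * (k0 * (y0 - y0')) + C' * ((k1 * (y1 - y1') - k0 * (y0 - y0')) / ρ))) / ρ) := by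
      rw [e1, e2, e3]
      ring
    rw [hI] at e4
    have e5 : k1 * (T1 - (D1 - D0) / ρ) + (a1 * (y2 - y1) - a0 * (y1 - y0)) / ρ ^ 2 -
      (k1 * (T1' - (D1' - D0') / ρ) + (a1 * (y2' - y1') - a0 * (y1' - y0')) / ρ ^ 2) =
      (k1 * (T1 - (D1 - D0) / ρ) - k1 * (T1' - (D1' - D0') / ρ)) +
        (a1 * (y2 - y1) - a0 * (y1 - y0)) / ρ ^ 2 -
        (a1 * (y2' - y1') - a0 * (y1' - y0')) / ρ ^ 2 := by ring
    rw [e5, e4, ha0, ha1]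
    field_simp
    ring
  rw [key]
  have n1 : ‖t1 - (d1 - d0) * ρ⁻¹‖ ≤ τ + 2 * τ * Q := by
    have h1 := norm_sub_le t1 ((d1 - d0) * ρ⁻¹)
    have h2 : ‖(d1 - d0) * ρ⁻¹‖ ≤ (τ + τ) * Q := by
      rw [norm_mul]
      have h3 := norm_sub_le d1 d0
      have h4 : 0 ≤ τ := (norm_nonneg _).trans qT'
      gcongr
      linarith
    linarith
  have hτ0 : 0 ≤ τ := (norm_nonneg _).trans qT'
  calc ‖k1 * (t1 - (d1 - d0) * ρ⁻¹) + k1 * (y1 - y1') * Et‖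
      ≤ ‖k1 * (t1 - (d1 - d0) * ρ⁻¹)‖ + ‖k1 * (y1 - y1') * Et‖ := norm_add_le _ _
    _ ≤ 2 * (τ + 2 * τ * Q) + 2 * d * e := by
        rw [norm_mul, norm_mul, norm_mul]
        gcongr
    _ ≤ 2 * (3 * Q * τ) + 2 * d * e := by nlinarith
    _ = (2 * e + 432 * M' * Q ^ 3 * R) * d := by
        rw [hτ]
        ring

/-! ### The chain -/

/-- the points of the chain -/
def chainA_pt (t ρ : ℂ) (j : ℕ) : ℂ × ℂ := (t + j * ρ, ρ)

lemma chainA_mem {S : Finset ℤ} {c r : ℝ} {t : ℂ} {x : ℝ} (ht : |t.im| < c) (hx : |x| < r)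
    (j : ℕ) : chainA_pt t (x : ℂ) j ∈ Dm S c r := by
  refine ⟨fun s _ => ?_, ?_, ?_⟩
  · simpa [chainA_pt] using ht
  · simpa [chainA_pt] using hx
  · simp only [chainA_pt, ofReal_im, abs_zero]
    exact (abs_nonneg _).trans_lt hx

lemma chainA_diff {S : Finset ℤ} {c r : ℝ} {f : ℂ × ℂ → ℂ} (hf : DifferentiableOn ℂ f (Dm S c r))
    {x : ℝ} (hx : |x| < r) (j : ℕ) :
    DifferentiableOn ℂ (fun t => f (chainA_pt t (x : ℂ) j)) {t | |t.im| < c} := by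
  have h1 : DifferentiableOn ℂ (fun t => chainA_pt t (x : ℂ) j) {t | |t.im| < c} := by
    unfold chainA_pt
    fun_prop
  exact hf.comp h1 fun t ht => chainA_mem ht hx j

lemma chainA_sub (t ρ : ℂ) (j : ℕ) : ((chainA_pt t ρ (j + 1)).1 - (chainA_pt t ρ (j + 1)).2,
    (chainA_pt t ρ (j + 1)).2) = chainA_pt t ρ j := by
  unfold chainA_pt
  ext
  · push_cast
    ring
  · rfl

lemma chainA_add (t ρ : ℂ) (j : ℕ) : ((chainA_pt t ρ j).1 + (chainA_pt t ρ j).2,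
    (chainA_pt t ρ j).2) = chainA_pt t ρ (j + 1) := by
  unfold chainA_pt
  ext
  · push_cast
    ring
  · rfl

lemma chainA_nab {ρ : ℂ} (hρ : ρ ≠ 0) (f : ℂ × ℂ → ℂ) (t : ℂ) (j : ℕ) :
    nab f (chainA_pt t ρ j) = (f (chainA_pt t ρ (j + 1)) - f (chainA_pt t ρ j)) / ρ := by
  rw [nab_of_ne (by simpa [chainA_pt] using hρ), chainA_add]
  rfl

lemma chainA_nabm {ρ : ℂ} (hρ : ρ ≠ 0) (f : ℂ × ℂ → ℂ) (t : ℂ) (j : ℕ) :
    nabm f (chainA_pt t ρ (j + 1)) =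
      (f (chainA_pt t ρ (j + 1)) - f (chainA_pt t ρ j)) / ρ := by
  rw [nabm_of_ne (by simpa [chainA_pt] using hρ), chainA_sub]
  rfl

lemma chainA_br {ρ : ℂ} (hρ : ρ ≠ 0) (F : ℂ × ℂ → ℂ) (t : ℂ) (j : ℕ) :
    br F (chainA_pt t ρ j) = (F (chainA_pt t ρ j),
      (F (chainA_pt t ρ (j + 1)) - F (chainA_pt t ρ j)) / ρ, ρ) := by
  unfold br
  rw [chainA_nab hρ]
  rfl

lemma chainA_aa {ρ : ℂ} (hρ : ρ ≠ 0) (L : ℂ × ℂ × ℂ → ℂ) (F : ℂ × ℂ → ℂ) (t : ℂ) (j : ℕ) :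
    aa L F (chainA_pt t ρ j) = dt F (chainA_pt t ρ j) * dt F (chainA_pt t ρ (j + 1)) *
      (LD (LD L) (F (chainA_pt t ρ j), (F (chainA_pt t ρ (j + 1)) - F (chainA_pt t ρ j)) / ρ, ρ) -
        ρ * LD (Lt L) (F (chainA_pt t ρ j),
          (F (chainA_pt t ρ (j + 1)) - F (chainA_pt t ρ j)) / ρ, ρ)) := by
  have h1 : sh 1 (dt F) (chainA_pt t ρ j) = dt F (chainA_pt t ρ (j + 1)) := by
    rw [← chainA_add]
    simp [sh]
  unfold aa
  rw [h1, chainA_br hρ]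
  rfl

lemma chainA_EL {ρ : ℂ} (hρ : ρ ≠ 0) (L : ℂ × ℂ × ℂ → ℂ) (F : ℂ × ℂ → ℂ) (t : ℂ) (j : ℕ) :
    EL L F (chainA_pt t ρ (j + 1)) = el L ρ (F (chainA_pt t ρ j)) (F (chainA_pt t ρ (j + 1)))
      (F (chainA_pt t ρ (j + 2))) := by
  rw [EL_of_ne (by simpa [chainA_pt] using hρ), chainA_sub, chainA_add]
  rfl

lemma chainA_JJ {ρ : ℂ} (hρ : ρ ≠ 0) (L : ℂ × ℂ × ℂ → ℂ) (F z : ℂ × ℂ → ℂ) (t : ℂ) (j : ℕ)
    {P1 P0 : ℂ × ℂ × ℂ} (hP1 : br F (chainA_pt t ρ (j + 1)) = P1)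
    (hP0 : br F (chainA_pt t ρ j) = P0) :
    JJ L F z (chainA_pt t ρ (j + 1)) = Lt (Lt L) P1 * z (chainA_pt t ρ (j + 1)) +
      LD (Lt L) P1 * ((z (chainA_pt t ρ (j + 2)) - z (chainA_pt t ρ (j + 1))) / ρ) -
      ((LD (Lt L) P1 * z (chainA_pt t ρ (j + 1)) + LD (LD L) P1 *
        ((z (chainA_pt t ρ (j + 2)) - z (chainA_pt t ρ (j + 1))) / ρ)) -
        (LD (Lt L) P0 * z (chainA_pt t ρ j) + LD (LD L) P0 *
          ((z (chainA_pt t ρ (j + 1)) - z (chainA_pt t ρ j)) / ρ))) / ρ := by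
  unfold JJ
  rw [chainA_nabm hρ, chainA_nab hρ, chainA_nab hρ, hP1, hP0]

/-- extension by zero -/
def chainA_ext {q : ℕ} (y : Fin (q + 1) → ℂ) (j : ℕ) : ℂ :=
  if h : j < q + 1 then y ⟨j, h⟩ else 0

lemma chainA_ext_le {q : ℕ} (y : Fin (q + 1) → ℂ) (j : ℕ) : ‖chainA_ext y j‖ ≤ ‖y‖ := by
  unfold chainA_ext
  split_ifs with h
  · exact norm_le_pi_norm y _
  · simp

lemma chainA_ext_sub {q : ℕ} (y y' : Fin (q + 1) → ℂ) (j : ℕ) :
    chainA_ext y j - chainA_ext y' j = chainA_ext (y - y') j := by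
  unfold chainA_ext
  split_ifs with h
  · rfl
  · simp

lemma chainA_ext_diff {q : ℕ} {U : Set ℂ} {y : ℂ → Fin (q + 1) → ℂ}
    (hy : DifferentiableOn ℂ y U) (j : ℕ) : DifferentiableOn ℂ (fun t => chainA_ext (y t) j) U := by
  unfold chainA_ext
  split_ifs with h
  · exact differentiableOn_pi.1 hy _
  · exact differentiableOn_const 0

/-- the remainders along the chain -/
def chainA_RR (L : ℂ × ℂ × ℂ → ℂ) (F : ℂ × ℂ → ℂ) (ρ t : ℂ) (y : ℕ → ℂ) (j : ℕ) : ℂ :=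
  chainA_R L ρ (F (chainA_pt t ρ (j - 1))) (F (chainA_pt t ρ j)) (F (chainA_pt t ρ (j + 1)))
    (dt F (chainA_pt t ρ (j - 1))) (dt F (chainA_pt t ρ j)) (dt F (chainA_pt t ρ (j + 1)))
    (aa L F (chainA_pt t ρ (j - 1))) (aa L F (chainA_pt t ρ j)) (y (j - 1)) (y j) (y (j + 1))

/-- the map of the contraction -/
def chainA_Phi (L : ℂ × ℂ × ℂ → ℂ) (F : ℂ × ℂ → ℂ) (ρ : ℂ) (q : ℕ) (t : ℂ)
    (y : Fin (q + 1) → ℂ) (i : Fin (q + 1)) : ℂ :=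
  green q ρ (fun l => aa L F (chainA_pt t ρ l)) (chainA_RR L F ρ t (chainA_ext y)) i

lemma chainA_dt_le {c r κ : ℝ} {F : ℂ × ℂ → ℂ} (hF : GF c r κ F) (hκ : κ ≤ 1) {p : ℂ × ℂ}
    (hp : p ∈ Dm {0} c r) : ‖dt F p‖ ≤ 2 := by
  have h1 := hF.dt1 p hp
  have h2 := norm_add_le (dt F p - 1) 1
  rw [sub_add_cancel, norm_one] at h2
  linarith

section
variable {L : ℂ × ℂ × ℂ → ℂ} {k1 : ℂ} {b M κ : ℝ} {c r c' δ ε : ℝ} {F : ℂ × ℂ → ℂ} {x : ℝ}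

/-- the Lipschitz estimate along the chain -/
lemma chainA_RR_lip {M' : ℝ} (hL : Lag L k1 b M) (hM' : 1 ≤ M')
    (hb2 : ∀ (P : ℂ × ℂ × ℂ) (z w z' w' : ℂ), P ∈ DL (b / 2) →
      (P.1 + z, P.2.1 + w, P.2.2) ∈ DL (b / 2) → (P.1 + z', P.2.1 + w', P.2.2) ∈ DL (b / 2) →
      ‖Lt L (P.1 + z, P.2.1 + w, P.2.2) - Lt L (P.1 + z', P.2.1 + w', P.2.2) -
        Lt (Lt L) P * (z - z') - LD (Lt L) P * (w - w')‖ ≤
        M' * (‖z‖ + ‖w‖ + ‖z'‖ + ‖w'‖) * (‖z - z'‖ + ‖w - w'‖) ∧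
      ‖LD L (P.1 + z, P.2.1 + w, P.2.2) - LD L (P.1 + z', P.2.1 + w', P.2.2) -
        LD (Lt L) P * (z - z') - LD (LD L) P * (w - w')‖ ≤
        M' * (‖z‖ + ‖w‖ + ‖z'‖ + ‖w'‖) * (‖z - z'‖ + ‖w - w'‖))
    (hδ : 0 < δ) (hcc : c' + δ ≤ c) (hc : c ≤ b / 16) (hr : r ≤ b / 16) (hκ : κ ≤ b / 16)
    (hF : GF c r κ F) (hE : ∀ p ∈ Dm {-1, 0, 1} c r, ‖EL L F p‖ ≤ ε) (hx : |x| < r)
    (hx0 : x ≠ 0) {Q R : ℝ} (hQ : 1 ≤ Q) (hxQ : |x|⁻¹ ≤ Q) (hRb : 16 * Q * R ≤ b) {t : ℂ}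
    (ht : |t.im| < c') {y y' : ℕ → ℂ} {d : ℝ} (hy : ∀ j, ‖y j‖ ≤ R) (hy' : ∀ j, ‖y' j‖ ≤ R)
    (hd : ∀ j, ‖y j - y' j‖ ≤ d) {j : ℕ} (hj : 0 < j) :
    ‖chainA_RR L F (x : ℂ) t y j - chainA_RR L F (x : ℂ) t y' j‖ ≤
      (2 * (ε / δ) + 432 * M' * Q ^ 3 * R) * d := by
  obtain ⟨i, rfl⟩ : ∃ i, j = i + 1 := ⟨j - 1, by omega⟩
  have hxc : (x : ℂ) ≠ 0 := by exact_mod_cast hx0
  have ht' : |t.im| < c := by linarith
  have hb := hL.b0
  have hb1 := hL.b1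
  have hm : ∀ (S : Finset ℤ) (j : ℕ), chainA_pt t (x : ℂ) j ∈ Dm S c r := fun S j =>
    chainA_mem ht' hx j
  have hdt : ∀ j, ‖dt F (chainA_pt t (x : ℂ) j)‖ ≤ 2 := fun j =>
    chainA_dt_le hF (by linarith) (hm {0} j)
  have hbr := br_mem hF hb hc hr hκ
  have hP : ∀ j, (F (chainA_pt t (x : ℂ) j),
      (F (chainA_pt t (x : ℂ) (j + 1)) - F (chainA_pt t (x : ℂ) j)) / (x : ℂ), (x : ℂ)) ∈
      DL (b / 4) := by
    intro j
    rw [← chainA_br hxc]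
    exact hbr _ (hm _ j)
  have hEt := dt_EL hL hF hc hr hκ _ (hm {-1, 0, 1} (i + 1))
  rw [chainA_JJ hxc L F (dt F) t i (chainA_br hxc F t (i + 1)) (chainA_br hxc F t i)] at hEt
  have hEb := bd_dt (EL_RP hL hF hc hr hκ).toPH.diff hE hδ hcc _
    (chainA_mem (S := {-1, 0, 1}) ht hx (i + 1))
  unfold chainA_RR
  simp only [Nat.add_sub_cancel]
  exact chainA_lip hM' hb2 hxc hQ (by rwa [norm_inv, Complex.norm_real]) (hP i) (hP (i + 1))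
    (hdt _) (hdt _) (hdt _) (chainA_aa hxc L F t i) (chainA_aa hxc L F t (i + 1)) hEt hEb
    (hy _) (hy _) (hy _) (hy' _) (hy' _) (hy' _) (hd _) (hd _) (hd _) hRb

lemma chainA_RR_zero (hb : b ≤ 1) (hc' : c' ≤ c) (hκ : κ ≤ b / 16)
    (hF : GF c r κ F) (hE : ∀ p ∈ Dm {-1, 0, 1} c r, ‖EL L F p‖ ≤ ε) (hx : |x| < r)
    (hx0 : x ≠ 0) {t : ℂ} (ht : |t.im| < c') {j : ℕ} (hj : 0 < j) :
    ‖chainA_RR L F (x : ℂ) t (fun _ => 0) j‖ ≤ 2 * ε := by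
  obtain ⟨i, rfl⟩ : ∃ i, j = i + 1 := ⟨j - 1, by omega⟩
  have hxc : (x : ℂ) ≠ 0 := by exact_mod_cast hx0
  have ht' : |t.im| < c := by linarith
  have h1 : chainA_RR L F (x : ℂ) t (fun _ => 0) (i + 1) =
      dt F (chainA_pt t (x : ℂ) (i + 1)) * EL L F (chainA_pt t (x : ℂ) (i + 1)) := by
    rw [chainA_EL hxc]
    unfold chainA_RR chainA_R
    simp
  rw [h1, norm_mul]
  gcongr
  · exact chainA_dt_le hF (by linarith) (chainA_mem ht' hx _)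
  · exact hE _ (chainA_mem ht' hx _)

lemma chainA_DL_sub {b : ℝ} (hb : 0 < b) : DL (b / 2) ⊆ DL b := by
  rintro P ⟨h1, h2, h3⟩
  exact ⟨by linarith, by linarith, by linarith⟩

lemma chainA_RR_diff (hL : Lag L k1 b M) (hcc : c' ≤ c) (hc : c ≤ b / 16)
    (hr : r ≤ b / 16) (hκ : κ ≤ b / 16) (hF : GF c r κ F) (hx : |x| < r)
    (hx0 : x ≠ 0) {Q R : ℝ} (hQ : 1 ≤ Q) (hxQ : |x|⁻¹ ≤ Q) (hRb : 16 * Q * R ≤ b)
    {y : ℂ → ℕ → ℂ} (hy : ∀ j, DifferentiableOn ℂ (fun t => y t j) {t | |t.im| < c'})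
    (hyR : ∀ t : ℂ, |t.im| < c' → ∀ j, ‖y t j‖ ≤ R) {j : ℕ} (hj : 0 < j) :
    DifferentiableOn ℂ (fun t => chainA_RR L F (x : ℂ) t (y t) j) {t | |t.im| < c'} := by
  obtain ⟨i, rfl⟩ : ∃ i, j = i + 1 := ⟨j - 1, by omega⟩
  have hxc : (x : ℂ) ≠ 0 := by exact_mod_cast hx0
  have hb := hL.b0
  have hb1 := hL.b1
  have hlf := lag_facts hL
  have hLt := (hlf.1 (Lt L) (by simp [LL])).1
  have hLD := (hlf.1 (LD L) (by simp [LL])).1
  have hsub : {t : ℂ | |t.im| < c'} ⊆ {t : ℂ | |t.im| < c} := fun t ht =>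
    lt_of_lt_of_le (show |t.im| < c' from ht) hcc
  have hX : ∀ j, DifferentiableOn ℂ (fun t => F (chainA_pt t (x : ℂ) j)) {t | |t.im| < c'} :=
    fun j => (chainA_diff hF.diff hx j).mono hsub
  have hK : ∀ j, DifferentiableOn ℂ (fun t => dt F (chainA_pt t (x : ℂ) j)) {t | |t.im| < c'} :=
    fun j => (chainA_diff hF.dt_RP.toPH.diff hx j).mono hsub
  have hA : ∀ j, DifferentiableOn ℂ (fun t => aa L F (chainA_pt t (x : ℂ) j)) {t | |t.im| < c'} :=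
    fun j => (chainA_diff (aa_RP hL hF hc hr hκ).toPH.diff hx j).mono hsub
  have hbr := br_mem hF hb hc hr hκ
  have hmap : ∀ j, Set.MapsTo (fun t : ℂ => (F (chainA_pt t (x : ℂ) j) +
      dt F (chainA_pt t (x : ℂ) j) * y t j,
      (F (chainA_pt t (x : ℂ) (j + 1)) - F (chainA_pt t (x : ℂ) j)) / (x : ℂ) +
        (dt F (chainA_pt t (x : ℂ) (j + 1)) * y t (j + 1) -
          dt F (chainA_pt t (x : ℂ) j) * y t j) / (x : ℂ), (x : ℂ))) {t | |t.im| < c'} (DL b) := by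
    intro j t ht
    have hm : ∀ (S : Finset ℤ) (j : ℕ), chainA_pt t (x : ℂ) j ∈ Dm S c r := fun S j =>
      chainA_mem (hsub ht) hx j
    have hdt : ∀ j, ‖dt F (chainA_pt t (x : ℂ) j)‖ ≤ 2 := fun j =>
      chainA_dt_le hF (by linarith) (hm {0} j)
    have hP := hbr _ (hm _ j)
    rw [chainA_br hxc] at hP
    obtain ⟨i1, i2, -⟩ := chainA_incr (ρ := (x : ℂ)) hQ (by rwa [norm_inv, Complex.norm_real])
      (hdt j) (hdt (j + 1)) (hyR t ht j) (hyR t ht (j + 1))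
    have hR : 0 ≤ R := (norm_nonneg _).trans (hyR t ht j)
    have hQR : 2 * R ≤ 4 * Q * R := by nlinarith
    exact chainA_DL_sub hb (chainA_DL hP (by linarith) (by linarith))
  have hin : ∀ j, DifferentiableOn ℂ (fun t : ℂ => (F (chainA_pt t (x : ℂ) j) +
      dt F (chainA_pt t (x : ℂ) j) * y t j,
      (F (chainA_pt t (x : ℂ) (j + 1)) - F (chainA_pt t (x : ℂ) j)) / (x : ℂ) +
        (dt F (chainA_pt t (x : ℂ) (j + 1)) * y t (j + 1) -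
          dt F (chainA_pt t (x : ℂ) j) * y t j) / (x : ℂ), (x : ℂ))) {t | |t.im| < c'} := by
    intro j
    exact ((hX j).add ((hK j).mul (hy j))).prodMk
      ((((hX (j + 1)).sub (hX j)).div_const _).add
        ((((hK (j + 1)).mul (hy (j + 1))).sub ((hK j).mul (hy j))).div_const _) |>.prodMk
        (differentiableOn_const _))
  have e : (fun t => chainA_RR L F (x : ℂ) t (y t) (i + 1)) = fun t =>
      dt F (chainA_pt t (x : ℂ) (i + 1)) *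
        (Lt L (F (chainA_pt t (x : ℂ) (i + 1)) +
          dt F (chainA_pt t (x : ℂ) (i + 1)) * y t (i + 1),
          (F (chainA_pt t (x : ℂ) (i + 1 + 1)) - F (chainA_pt t (x : ℂ) (i + 1))) / (x : ℂ) +
          (dt F (chainA_pt t (x : ℂ) (i + 1 + 1)) * y t (i + 1 + 1) -
          dt F (chainA_pt t (x : ℂ) (i + 1)) * y t (i + 1)) / (x : ℂ), (x : ℂ)) -
        (LD L (F (chainA_pt t (x : ℂ) (i + 1)) +
          dt F (chainA_pt t (x : ℂ) (i + 1)) * y t (i + 1),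
          (F (chainA_pt t (x : ℂ) (i + 1 + 1)) - F (chainA_pt t (x : ℂ) (i + 1))) / (x : ℂ) +
          (dt F (chainA_pt t (x : ℂ) (i + 1 + 1)) * y t (i + 1 + 1) -
          dt F (chainA_pt t (x : ℂ) (i + 1)) * y t (i + 1)) / (x : ℂ), (x : ℂ)) -
        LD L (F (chainA_pt t (x : ℂ) i) +
          dt F (chainA_pt t (x : ℂ) i) * y t i,
          (F (chainA_pt t (x : ℂ) (i + 1)) - F (chainA_pt t (x : ℂ) i)) / (x : ℂ) +
          (dt F (chainA_pt t (x : ℂ) (i + 1)) * y t (i + 1) -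
          dt F (chainA_pt t (x : ℂ) i) * y t i) / (x : ℂ), (x : ℂ))) / (x : ℂ)) +
        (aa L F (chainA_pt t (x : ℂ) (i + 1)) * (y t (i + 1 + 1) - y t (i + 1)) -
          aa L F (chainA_pt t (x : ℂ) i) * (y t (i + 1) - y t i)) / (x : ℂ) ^ 2 := by
    funext t
    unfold chainA_RR chainA_R
    rw [chainA_el]
    simp only [Nat.add_sub_cancel]
  rw [e]
  exact ((hK (i + 1)).mul ((hLt.comp (hin (i + 1)) (hmap (i + 1))).sub
    (((hLD.comp (hin (i + 1)) (hmap (i + 1))).sub (hLD.comp (hin i) (hmap i))).div_const _))).add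
    ((((hA (i + 1)).mul ((hy (i + 1 + 1)).sub (hy (i + 1)))).sub
      ((hA i).mul ((hy (i + 1)).sub (hy i)))).div_const _)

lemma chainA_RR_real (hL : Lag L k1 b M) (hcc : c' ≤ c) (hc : c ≤ b / 16)
    (hr : r ≤ b / 16) (hκ : κ ≤ b / 16) (hF : GF c r κ F) (hx : |x| < r)
    (hx0 : x ≠ 0) {Q R : ℝ} (hQ : 1 ≤ Q) (hxQ : |x|⁻¹ ≤ Q) (hRb : 16 * Q * R ≤ b) {t : ℂ}
    (ht : |t.im| < c') (ht0 : t.im = 0) {y : ℕ → ℂ} (hy : ∀ j, (y j).im = 0)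
    (hyR : ∀ j, ‖y j‖ ≤ R) {j : ℕ} (hj : 0 < j) :
    (chainA_RR L F (x : ℂ) t y j).im = 0 := by
  obtain ⟨i, rfl⟩ : ∃ i, j = i + 1 := ⟨j - 1, by omega⟩
  have hxc : (x : ℂ) ≠ 0 := by exact_mod_cast hx0
  have hb := hL.b0
  have hb1 := hL.b1
  have hlf := lag_facts hL
  have ht' : |t.im| < c := by linarith
  have hm : ∀ (S : Finset ℤ) (j : ℕ), chainA_pt t (x : ℂ) j ∈ Dm S c r := fun S j =>
    chainA_mem ht' hx j
  have hp1 : ∀ j : ℕ, (chainA_pt t (x : ℂ) j).1.im = 0 := by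
    intro j
    simp [chainA_pt, ht0]
  have hp2 : ∀ j : ℕ, (chainA_pt t (x : ℂ) j).2.im = 0 := by
    intro j
    simp [chainA_pt]
  have hxK : (x : ℂ) ∈ chainA_K := chainA_mem_K.2 (by simp)
  have hyK : ∀ j, y j ∈ chainA_K := fun j => chainA_mem_K.2 (hy j)
  have hX : ∀ j, F (chainA_pt t (x : ℂ) j) ∈ chainA_K := by
    intro j
    have h1 := hF.ap.real _ (hm {0} j) (hp1 j) (hp2 j)
    rw [Complex.sub_im, hp1 j, sub_zero] at h1
    exact chainA_mem_K.2 h1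
  have hK : ∀ j, dt F (chainA_pt t (x : ℂ) j) ∈ chainA_K := fun j =>
    chainA_mem_K.2 (hF.dt_RP.real _ (hm {0} j) (hp1 j) (hp2 j))
  have hA : ∀ j, aa L F (chainA_pt t (x : ℂ) j) ∈ chainA_K := fun j =>
    chainA_mem_K.2 ((aa_RP hL hF hc hr hκ).real _ (hm {0, 1} j) (hp1 j) (hp2 j))
  have hbr := br_mem hF hb hc hr hκ
  have hmap : ∀ j, (F (chainA_pt t (x : ℂ) j) +
      dt F (chainA_pt t (x : ℂ) j) * y j,
      (F (chainA_pt t (x : ℂ) (j + 1)) - F (chainA_pt t (x : ℂ) j)) / (x : ℂ) +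
        (dt F (chainA_pt t (x : ℂ) (j + 1)) * y (j + 1) -
          dt F (chainA_pt t (x : ℂ) j) * y j) / (x : ℂ), (x : ℂ)) ∈ DL b := by
    intro j
    have hdt : ∀ j, ‖dt F (chainA_pt t (x : ℂ) j)‖ ≤ 2 := fun j =>
      chainA_dt_le hF (by linarith) (hm {0} j)
    have hP := hbr _ (hm _ j)
    rw [chainA_br hxc] at hP
    obtain ⟨i1, i2, -⟩ := chainA_incr (ρ := (x : ℂ)) hQ (by rwa [norm_inv, Complex.norm_real])
      (hdt j) (hdt (j + 1)) (hyR j) (hyR (j + 1))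
    have hR : 0 ≤ R := (norm_nonneg _).trans (hyR j)
    have hQR : 2 * R ≤ 4 * Q * R := by nlinarith
    exact chainA_DL_sub hb (chainA_DL hP (by linarith) (by linarith))
  have hval : ∀ Λ ∈ LL L, ∀ j, Λ (F (chainA_pt t (x : ℂ) j) +
      dt F (chainA_pt t (x : ℂ) j) * y j,
      (F (chainA_pt t (x : ℂ) (j + 1)) - F (chainA_pt t (x : ℂ) j)) / (x : ℂ) +
        (dt F (chainA_pt t (x : ℂ) (j + 1)) * y (j + 1) -
          dt F (chainA_pt t (x : ℂ) j) * y j) / (x : ℂ), (x : ℂ)) ∈ chainA_K := by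
    intro Λ hΛ j
    refine chainA_mem_K.2 ((hlf.1 Λ hΛ).2.2 _ (hmap j) ?_ ?_ ?_)
    · exact chainA_mem_K.1 (add_mem (hX j) (mul_mem (hK j) (hyK j)))
    · exact chainA_mem_K.1 (add_mem (div_mem (sub_mem (hX (j + 1)) (hX j)) hxK)
        (div_mem (sub_mem (mul_mem (hK (j + 1)) (hyK (j + 1))) (mul_mem (hK j) (hyK j))) hxK))
    · simp
  unfold chainA_RR chainA_R
  rw [chainA_el, ← chainA_mem_K]
  simp only [Nat.add_sub_cancel]
  refine add_mem (mul_mem (hK _) (sub_mem (hval (Lt L) (by simp [LL]) (i + 1))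
    (div_mem (sub_mem (hval (LD L) (by simp [LL]) (i + 1)) (hval (LD L) (by simp [LL]) i))
      hxK))) (div_mem (sub_mem (mul_mem (hA _) (sub_mem (hyK _) (hyK _)))
      (mul_mem (hA _) (sub_mem (hyK _) (hyK _)))) (pow_mem hxK 2))

end

theorem chain_dirichlet {L : ℂ × ℂ × ℂ → ℂ} {k1 : ℂ} {b M : ℝ} (hL : Lag L k1 b M) :
    ∃ (κ₀ C : ℝ), 0 < κ₀ ∧ κ₀ ≤ b / 16 ∧ 1 ≤ C ∧ ∀ (c r c' δ ε : ℝ) (F : ℂ × ℂ → ℂ) (q : ℕ)
    (k : ℤ), 0 < δ → δ ≤ 1 → c' + δ ≤ c → c ≤ b / 16 → r ≤ κ₀ → GF c r κ₀ F → 0 ≤ ε →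
    (∀ p ∈ Dm {-1, 0, 1} c r, ‖EL L F p‖ ≤ ε) → 0 < q → k ≠ 0 → |(k / q : ℝ)| < r →
    C * q ^ 7 * ε ≤ δ →
    ∀ ρ : ℂ, ρ = ((k / q : ℝ) : ℂ) →
    ∃ y : ℕ → ℂ → ℂ, (∀ j, DifferentiableOn ℂ (y j) {t | |t.im| < c'}) ∧
      (∀ t, y 0 t = 0) ∧ (∀ t, y q t = 0) ∧
      (∀ j ≤ q, ∀ t : ℂ, |t.im| < c' → ‖y j t‖ ≤ C * q ^ 2 * ε) ∧
      (∀ j ≤ q, ∀ t : ℝ, (y j t).im = 0) ∧
      (∀ j, j + 1 < q → ∀ t : ℂ, |t.im| < c' →
        el L ρ (F (t + j * ρ, ρ) + dt F (t + j * ρ, ρ) * y j t)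
          (F (t + (j + 1) * ρ, ρ) + dt F (t + (j + 1) * ρ, ρ) * y (j + 1) t)
          (F (t + (j + 2) * ρ, ρ) + dt F (t + (j + 2) * ρ, ρ) * y (j + 2) t) = 0) := by
  obtain ⟨κ₀, hκ0, hκb, haa⟩ := aa_near hL
  obtain ⟨M', hM', hb1, hb2⟩ := lag_bounds hL
  have hb := hL.b0
  have hbb := hL.b1
  have hC1 : 1 ≤ 110592 * M' / b + 32 := by
    have : 0 ≤ 110592 * M' / b := by positivity
    linarith
  refine ⟨κ₀, 110592 * M' / b + 32, hκ0, hκb, hC1, ?_⟩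
  intro c r c' δ ε F q k hδ hδ1 hcc hc hr hF hε hE hq hk hx hsm ρ hρ
  subst hρ
  set x : ℝ := (k / q : ℝ) with hxdef
  have hq1 : (1 : ℝ) ≤ q := by exact_mod_cast hq
  have hq0 : (0 : ℝ) < q := by linarith
  have hk1 : (1 : ℝ) ≤ |(k : ℝ)| := by
    have : (1 : ℤ) ≤ |k| := Int.one_le_abs hk
    exact_mod_cast this
  have hxabs : |x| = |(k : ℝ)| / q := by
    rw [hxdef, abs_div, abs_of_pos hq0]
  have hxQ : |x|⁻¹ ≤ q := by
    rw [hxabs, inv_div, div_le_iff₀ (by linarith)]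
    nlinarith
  have hx0 : x ≠ 0 := by
    intro h
    rw [h, abs_zero] at hxabs
    have : 0 < |(k : ℝ)| / q := by positivity
    linarith
  have hxc : (x : ℂ) ≠ 0 := by exact_mod_cast hx0
  have hrb : r ≤ b / 16 := hr.trans hκb
  have hx1 : ‖(x : ℂ)‖ ≤ 1 := by
    rw [Complex.norm_real, Real.norm_eq_abs]
    linarith
  have hc'c : c' ≤ c := by linarith
  set R : ℝ := b / (6912 * M' * q ^ 5) with hR
  have hM0 : 0 < M' := by linarith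
  have hR0 : 0 < R := by positivity
  have hq5 : (1 : ℝ) ≤ (q : ℝ) ^ 5 := one_le_pow₀ hq1
  have hq2 : (1 : ℝ) ≤ (q : ℝ) ^ 2 := one_le_pow₀ hq1
  -- numerical facts
  have hsm1 : 32 * (q : ℝ) ^ 2 * ε ≤ δ := by
    have h1 : 32 * (q : ℝ) ^ 2 * ε ≤ (110592 * M' / b + 32) * q ^ 7 * ε := by
      have h2 : (32 : ℝ) ≤ 110592 * M' / b + 32 := by
        have : 0 ≤ 110592 * M' / b := by positivity
        linarith
      have h3 : (q : ℝ) ^ 2 ≤ q ^ 7 := pow_le_pow_right₀ hq1 (by norm_num)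
      gcongr
    exact h1.trans hsm
  have hsm2 : 16 * (q : ℝ) ^ 2 * ε ≤ R := by
    have h1 : (110592 * M' / b) * q ^ 7 * ε ≤ 1 := by
      have h2 : (110592 * M' / b) * q ^ 7 * ε ≤ (110592 * M' / b + 32) * q ^ 7 * ε := by
        gcongr
        linarith
      linarith
    have h2 : (110592 * M' / b) * q ^ 7 * ε = (16 * (q : ℝ) ^ 2 * ε) / R := by
      rw [hR]
      field_simp
      ring
    rw [h2, div_le_iff₀ hR0, one_mul] at h1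
    exact h1
  have hRb : 16 * (q : ℝ) * R ≤ b := by
    have h1 : 16 * (q : ℝ) * R = b * (16 * q / (6912 * M' * q ^ 5)) := by
      rw [hR]
      ring
    have h2 : 16 * (q : ℝ) / (6912 * M' * q ^ 5) ≤ 1 := by
      rw [div_le_one (by positivity)]
      have h3 : (q : ℝ) ≤ q ^ 5 := le_self_pow₀ hq1 (by norm_num)
      nlinarith
    rw [h1]
    exact mul_le_of_le_one_right hb.le h2
  set lip : ℝ := 2 * (ε / δ) + 432 * M' * (q : ℝ) ^ 3 * R with hlipdef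
  have hlip0 : 0 ≤ lip := by positivity
  have hlip1 : 4 * (q : ℝ) ^ 2 * lip ≤ 1 / 2 := by
    have h1 : 4 * (q : ℝ) ^ 2 * (432 * M' * (q : ℝ) ^ 3 * R) = b / 4 := by
      rw [hR]
      field_simp
      ring
    have h2 : 4 * (q : ℝ) ^ 2 * (2 * (ε / δ)) ≤ 1 / 4 := by
      have h3 : 4 * (q : ℝ) ^ 2 * (2 * (ε / δ)) = (32 * (q : ℝ) ^ 2 * ε) / (4 * δ) := by
        field_simp
        ring
      rw [h3, div_le_div_iff₀ (by positivity) (by norm_num)]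
      linarith
    rw [hlipdef, mul_add, h1]
    linarith
  -- the ingredients
  have hLip := fun (t : ℂ) (ht : |t.im| < c') (y y' : ℕ → ℂ) (d : ℝ) (hy : ∀ j, ‖y j‖ ≤ R)
    (hy' : ∀ j, ‖y' j‖ ≤ R) (hd : ∀ j, ‖y j - y' j‖ ≤ d) (j : ℕ) (hj : 0 < j) =>
    chainA_RR_lip (x := x) hL hM' hb2 hδ hcc hc hrb hκb hF hE hx hx0 hq1 hxQ hRb ht hy hy' hd hj
  have hZero := fun (t : ℂ) (ht : |t.im| < c') (j : ℕ) (hj : 0 < j) =>
    chainA_RR_zero (L := L) (x := x) hbb hc'c hκb hF hE hx hx0 ht hj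
  have haa' : ∀ t : ℂ, |t.im| < c' → ∀ j, ‖aa L F (chainA_pt t (x : ℂ) j) - 1‖ ≤ 1 / 4 :=
    fun t ht j => haa c r F hc hr hF _ (chainA_mem (lt_of_lt_of_le ht hc'c) hx j)
  have hbd : ∀ t : ℂ, |t.im| < c' → ∀ y : ℕ → ℂ, (∀ j, ‖y j‖ ≤ R) → ∀ j, 0 < j →
      ‖chainA_RR L F (x : ℂ) t y j‖ ≤ 2 * ε + lip * R := by
    intro t ht y hy j hj
    have h1 := hLip t ht y (fun _ => 0) R hy (fun j => by simpa using hR0.le)
      (fun j => by simpa using hy j) j hj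
    have h2 := hZero t ht j hj
    have h3 := norm_add_le (chainA_RR L F (x : ℂ) t y j - chainA_RR L F (x : ℂ) t (fun _ => 0) j)
      (chainA_RR L F (x : ℂ) t (fun _ => 0) j)
    rw [sub_add_cancel] at h3
    linarith
  have hnorm2 : ∀ s : ℝ, 0 ≤ s → 4 * ‖(x : ℂ)‖ ^ 2 * (q : ℝ) ^ 2 * s ≤ 4 * (q : ℝ) ^ 2 * s := by
    intro s hs
    have h1 : ‖(x : ℂ)‖ ^ 2 ≤ 1 := pow_le_one₀ (norm_nonneg _) hx1
    have h2 : 0 ≤ 4 * (q : ℝ) ^ 2 * s := by positivity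
    nlinarith
  -- the map is a contraction
  have hΦlip : ∀ t ∈ {t : ℂ | |t.im| < c'}, ∀ y y' : Fin (q + 1) → ℂ, ‖y‖ ≤ R → ‖y'‖ ≤ R →
      ‖chainA_Phi L F (x : ℂ) q t y - chainA_Phi L F (x : ℂ) q t y'‖ ≤ 1 / 2 * ‖y - y'‖ := by
    intro t ht y y' hy hy'
    rw [pi_norm_le_iff_of_nonneg (by positivity)]
    intro i
    have h1 : (chainA_Phi L F (x : ℂ) q t y - chainA_Phi L F (x : ℂ) q t y') i =
        green q (x : ℂ) (fun l => aa L F (chainA_pt t (x : ℂ) l))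
          (fun j => chainA_RR L F (x : ℂ) t (chainA_ext y) j -
            chainA_RR L F (x : ℂ) t (chainA_ext y') j) i := by
      rw [chainA_green_sub]
      rfl
    rw [h1]
    have h2 := green_spec (q := q) hq hxc (fun j _ => haa' t ht j) (s := lip * ‖y - y'‖)
      (R := fun j => chainA_RR L F (x : ℂ) t (chainA_ext y) j -
            chainA_RR L F (x : ℂ) t (chainA_ext y') j)
      (fun j _ hj0 => hLip t ht _ _ _ (fun j => (chainA_ext_le y j).trans hy)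
        (fun j => (chainA_ext_le y' j).trans hy')
        (fun j => by
          rw [chainA_ext_sub]
          exact chainA_ext_le _ j) j hj0) (by positivity)
    have h3 := h2.2.2.2.1 (i : ℕ) (Nat.lt_succ_iff.1 i.2)
    refine h3.trans ((hnorm2 _ (by positivity)).trans ?_)
    have h4 : 0 ≤ ‖y - y'‖ := norm_nonneg _
    calc 4 * (q : ℝ) ^ 2 * (lip * ‖y - y'‖) = (4 * (q : ℝ) ^ 2 * lip) * ‖y - y'‖ := by ring
      _ ≤ 1 / 2 * ‖y - y'‖ := by gcongr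
  have hext0 : (chainA_ext (0 : Fin (q + 1) → ℂ)) = fun _ => 0 := by
    funext j
    unfold chainA_ext
    split_ifs <;> rfl
  have hΦ0 : ∀ t ∈ {t : ℂ | |t.im| < c'},
      ‖chainA_Phi L F (x : ℂ) q t 0‖ ≤ 8 * (q : ℝ) ^ 2 * ε := by
    intro t ht
    rw [pi_norm_le_iff_of_nonneg (by positivity)]
    intro i
    have h2 := green_spec (q := q) hq hxc (fun j _ => haa' t ht j) (s := 2 * ε)
      (R := chainA_RR L F (x : ℂ) t (fun _ => 0))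
      (fun j _ hj0 => hZero t ht j hj0) (by positivity)
    have h3 := h2.2.2.2.1 (i : ℕ) (Nat.lt_succ_iff.1 i.2)
    have h4 : chainA_Phi L F (x : ℂ) q t 0 i = green q (x : ℂ)
        (fun l => aa L F (chainA_pt t (x : ℂ) l)) (chainA_RR L F (x : ℂ) t (fun _ => 0)) i := by
      unfold chainA_Phi
      rw [hext0]
    rw [h4]
    refine h3.trans ((hnorm2 _ (by positivity)).trans (le_of_eq ?_))
    ring
  have hself : ∀ t ∈ {t : ℂ | |t.im| < c'}, ∀ y : Fin (q + 1) → ℂ, ‖y‖ ≤ R →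
      ‖chainA_Phi L F (x : ℂ) q t y‖ ≤ 8 * (q : ℝ) ^ 2 * ε + 1 / 2 * ‖y‖ := by
    intro t ht y hy
    have h1 := hΦlip t ht y 0 hy (by simpa using hR0.le)
    have h2 := hΦ0 t ht
    have h3 := norm_add_le (chainA_Phi L F (x : ℂ) q t y - chainA_Phi L F (x : ℂ) q t 0)
      (chainA_Phi L F (x : ℂ) q t 0)
    rw [sub_add_cancel] at h3
    rw [sub_zero] at h1
    linarith
  obtain ⟨y, hyd, hyf, hyr⟩ := contr {t : ℂ | |t.im| < c'}
    (isOpen_lt (continuous_abs.comp continuous_im) continuous_const)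
    (chainA_Phi L F (x : ℂ) q) R hR0
    (fun t ht y hy => by
      have h1 := hself t ht y hy
      linarith)
    hΦlip
    (fun y hyd hyR => by
      refine differentiableOn_pi.2 fun i => ?_
      refine chainA_green_diff hq (x : ℂ) (a := fun l t => aa L F (chainA_pt t (x : ℂ) l))
        (R := fun j t => chainA_RR L F (x : ℂ) t (chainA_ext (y t)) j) (fun j _ => ?_)
        (fun j _ hj0 => ?_) (fun t ht j _ => haa' t ht j) (Nat.lt_succ_iff.1 i.2)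
      · exact (chainA_diff (aa_RP hL hF hc hrb hκb).toPH.diff hx j).mono fun t ht =>
          lt_of_lt_of_le (show |t.im| < c' from ht) hc'c
      · exact chainA_RR_diff hL hc'c hc hrb hκb hF hx hx0 hq1 hxQ hRb
          (fun j => chainA_ext_diff hyd j)
          (fun t ht j => (chainA_ext_le _ j).trans (hyR t ht)) hj0)
    {v | ∀ i, (v i).im = 0}
    (by
      simp only [Set.ofPred_forall]
      exact isClosed_iInter fun i =>
        isClosed_eq (continuous_im.comp (continuous_apply i)) continuous_const)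
    (fun i => by simp)
    (fun t ht ht0 y hy hyR i => by
      refine chainA_green_real (by simp) (fun j _ => ?_) (fun j _ hj0 => ?_)
        (Nat.lt_succ_iff.1 i.2)
      · refine (aa_RP hL hF hc hrb hκb).real _ (chainA_mem (lt_of_lt_of_le ht hc'c) hx j) ?_ ?_
        · simp [chainA_pt, ht0]
        · simp [chainA_pt]
      · refine chainA_RR_real hL hc'c hc hrb hκb hF hx hx0 hq1 hxQ hRb ht ht0 (fun j => ?_)
          (fun j => (chainA_ext_le _ j).trans hyR) hj0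
        unfold chainA_ext
        split_ifs
        · exact hy _
        · simp)
  -- the solution
  have hfix : ∀ t : ℂ, |t.im| < c' → ∀ j ≤ q, chainA_ext (y t) j =
      green q (x : ℂ) (fun l => aa L F (chainA_pt t (x : ℂ) l))
        (chainA_RR L F (x : ℂ) t (chainA_ext (y t))) j := by
    intro t ht j hj
    have h1 := (hyf t ht).2
    have h2 : chainA_ext (y t) j = y t ⟨j, Nat.lt_succ_iff.2 hj⟩ := by
      unfold chainA_ext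
      rw [dif_pos (Nat.lt_succ_iff.2 hj)]
    have h3 := congrFun h1 ⟨j, Nat.lt_succ_iff.2 hj⟩
    rw [h2, ← h3]
    rfl
  have hspec := fun (t : ℂ) (ht : |t.im| < c') =>
    green_spec (q := q) hq hxc (fun j _ => haa' t ht j) (s := 2 * ε + lip * R)
      (R := chainA_RR L F (x : ℂ) t (chainA_ext (y t)))
      (fun j _ hj0 => hbd t ht _ (fun j => (chainA_ext_le _ j).trans (hyf t ht).1) j hj0)
      (by positivity)
  refine ⟨fun j t => if |t.im| < c' then chainA_ext (y t) j else 0, fun j => ?_, fun t => ?_,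
    fun t => ?_, fun j hj t ht => ?_, fun j hj t => ?_, fun j hj t ht => ?_⟩
  · refine (chainA_ext_diff hyd j).congr fun t ht => ?_
    simp only
    rw [if_pos (show |t.im| < c' from ht)]
  · simp only
    split_ifs with ht
    · rw [hfix t ht 0 (Nat.zero_le _)]
      exact (hspec t ht).1
    · rfl
  · simp only
    split_ifs with ht
    · rw [hfix t ht q le_rfl]
      exact (hspec t ht).2.1
    · rfl
  · simp only
    rw [if_pos ht]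
    have h1 := hself t ht (y t) (hyf t ht).1
    rw [(hyf t ht).2] at h1
    have h2 := chainA_ext_le (y t) j
    have h3 : ‖y t‖ ≤ 16 * (q : ℝ) ^ 2 * ε := by linarith
    have h4 : 16 * (q : ℝ) ^ 2 * ε ≤ (110592 * M' / b + 32) * q ^ 2 * ε := by
      have : 0 ≤ 110592 * M' / b := by positivity
      gcongr
      linarith
    linarith
  · simp only
    split_ifs with ht
    · have h1 := hyr _ ht (by simp)
      unfold chainA_ext
      split_ifs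
      · exact h1 _
      · simp
    · simp
  · simp only [if_pos ht]
    have h1 := (hspec t ht).2.2.1 j hj
    rw [← hfix t ht j (by omega), ← hfix t ht (j + 1) (by omega), ← hfix t ht (j + 2) (by omega)]
      at h1
    have h2 : dt F (chainA_pt t (x : ℂ) (j + 1)) ≠ 0 := by
      have h3 := hF.dt1 _ (chainA_mem (S := {0}) (lt_of_lt_of_le ht hc'c) hx (j + 1))
      intro h4
      rw [h4, zero_sub, norm_neg, norm_one] at h3
      linarith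
    unfold chainA_RR chainA_R at h1
    simp only [Nat.add_sub_cancel] at h1
    have h3 : dt F (chainA_pt t (x : ℂ) (j + 1)) * el L (x : ℂ)
        (F (chainA_pt t (x : ℂ) j) + dt F (chainA_pt t (x : ℂ) j) * chainA_ext (y t) j)
        (F (chainA_pt t (x : ℂ) (j + 1)) +
          dt F (chainA_pt t (x : ℂ) (j + 1)) * chainA_ext (y t) (j + 1))
        (F (chainA_pt t (x : ℂ) (j + 1 + 1)) +
          dt F (chainA_pt t (x : ℂ) (j + 1 + 1)) * chainA_ext (y t) (j + 1 + 1)) = 0 := by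
      have e1 : j + 2 = j + 1 + 1 := rfl
      rw [e1] at h1
      set EE := el L (x : ℂ)
        (F (chainA_pt t (x : ℂ) j) + dt F (chainA_pt t (x : ℂ) j) * chainA_ext (y t) j)
        (F (chainA_pt t (x : ℂ) (j + 1)) +
          dt F (chainA_pt t (x : ℂ) (j + 1)) * chainA_ext (y t) (j + 1))
        (F (chainA_pt t (x : ℂ) (j + 1 + 1)) +
          dt F (chainA_pt t (x : ℂ) (j + 1 + 1)) * chainA_ext (y t) (j + 1 + 1))
      have e3 : (x : ℂ) * (dt F (chainA_pt t (x : ℂ) (j + 1)) * EE) = 0 := by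
        have e4 : (x : ℂ) * ((aa L F (chainA_pt t (x : ℂ) (j + 1)) *
            (chainA_ext (y t) (j + 1 + 1) - chainA_ext (y t) (j + 1)) -
            aa L F (chainA_pt t (x : ℂ) j) *
              (chainA_ext (y t) (j + 1) - chainA_ext (y t) j)) / (x : ℂ) ^ 2) =
            aa L F (chainA_pt t (x : ℂ) (j + 1)) *
            ((chainA_ext (y t) (j + 1 + 1) - chainA_ext (y t) (j + 1)) / (x : ℂ)) -
            aa L F (chainA_pt t (x : ℂ) j) *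
              ((chainA_ext (y t) (j + 1) - chainA_ext (y t) j) / (x : ℂ)) := by
          field_simp
        rw [mul_add, e4] at h1
        linear_combination -h1
      exact (mul_eq_zero.1 e3).resolve_left hxc
    have h4 := (mul_eq_zero.1 h3).resolve_left h2
    have e0 : chainA_pt t (x : ℂ) (j + 1) = (t + ((j : ℂ) + 1) * (x : ℂ), (x : ℂ)) := by
      unfold chainA_pt
      push_cast
      rfl
    have e2 : chainA_pt t (x : ℂ) (j + 1 + 1) = (t + ((j : ℂ) + 2) * (x : ℂ), (x : ℂ)) := by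
      unfold chainA_pt
      ext
      · push_cast
        ring
      · rfl
    rw [e0, e2] at h4
    exact h4

end Pool.Agent.MP_ae5b4e_an_SM
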