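import Mathlib
import Pool.Agent.Lib.MP_ae5b4e_an_SM.OpsB
import Pool.Agent.Lib.MP_ae5b4e_an_SM.LagF
import Pool.Agent.Lib.MP_ae5b4e_an_SM.IdentA
import Pool.Agent.Lib.MP_ae5b4e_an_SM.IdentB
import Pool.Agent.Lib.MP_ae5b4e_an_SM.ChainA

/-!
# MP_ae5b4e_an, project SMOOTH, module SN: the sum over the cycle
-/

noncomputable section

namespace Pool.Agent.MP_ae5b4e_an_SM

open Complex Set Filter Topology
open scoped ContDiff ComplexConjugate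

variable {S S' : Finset ℤ} {c r c' r' M M' δ : ℝ} {f g : ℂ × ℂ → ℂ}

/-- the chain of points -/
def cbP (t : ℂ) (x : ℝ) (j : ℤ) : ℂ × ℂ := (t + (j : ℂ) * (x : ℂ), (x : ℂ))

lemma cbP_mem (S : Finset ℤ) {t : ℂ} (ht : |t.im| < c) {x : ℝ} (hx : |x| < r) (j : ℤ) :
    cbP t x j ∈ Dm S c r := by
  have hr : 0 < r := lt_of_le_of_lt (abs_nonneg x) hx
  rw [mem_Dm]
  refine ⟨fun s _ => ?_, ?_, ?_⟩
  · simp only [cbP, add_im, mul_im, intCast_re, intCast_im, ofReal_re, ofReal_im, mul_zero,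
      zero_mul, add_zero]
    exact ht
  · simpa [cbP] using hx
  · simpa [cbP] using hr

lemma cbP_succ (t : ℂ) (x : ℝ) (j : ℤ) : cbP t x (j + 1) = ((cbP t x j).1 + x, (x : ℂ)) := by
  simp only [cbP]
  push_cast
  ring_nf

lemma cbP_pred (t : ℂ) (x : ℝ) (j : ℤ) : cbP t x (j - 1) = ((cbP t x j).1 - x, (x : ℂ)) := by
  simp only [cbP]
  push_cast
  ring_nf

lemma cb_per_int (h : PH S c r f) {p : ℂ × ℂ} (hp : p ∈ Dm S c r) (n : ℤ) :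
    f (p.1 + n, p.2) = f p := by
  have hm : ∀ n : ℤ, ((p.1 + n, p.2) : ℂ × ℂ) ∈ Dm S c r := by
    intro n
    rw [mem_Dm] at hp ⊢
    refine ⟨fun s hs => ?_, hp.2⟩
    have h1 := hp.1 s hs
    simpa using h1
  induction n using Int.induction_on with
  | zero => simp
  | succ n ih =>
    have h1 := h.per _ (hm n)
    dsimp only at h1
    rw [← ih, ← h1]
    push_cast
    ring_nf
  | pred n ih =>
    have h1 := h.per _ (hm (-(n : ℤ) - 1))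
    dsimp only at h1
    rw [← h1, ← ih]
    push_cast
    ring_nf

lemma cb_F_int {κ : ℝ} {F : ℂ × ℂ → ℂ} (hF : GF c r κ F) {p : ℂ × ℂ} (hp : p ∈ Dm {0} c r)
    (n : ℤ) : F (p.1 + n, p.2) = F p + n := by
  have h1 := cb_per_int hF.ap.toRP.toPH hp n
  dsimp only at h1
  linear_combination h1

lemma cb_L_int {Λ : ℂ × ℂ × ℂ → ℂ} {b : ℝ} (h : ∀ P ∈ DL b, Λ (P.1 + 1, P.2) = Λ P)
    {P : ℂ × ℂ × ℂ} (hP : P ∈ DL b) (n : ℤ) : Λ (P.1 + n, P.2) = Λ P := by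
  have hm : ∀ n : ℤ, ((P.1 + n, P.2) : ℂ × ℂ × ℂ) ∈ DL b := by
    intro n
    refine ⟨?_, hP.2⟩
    have h1 := hP.1
    simpa using h1
  induction n using Int.induction_on with
  | zero => simp
  | succ n ih =>
    have h1 := h _ (hm n)
    dsimp only at h1
    rw [← ih, ← h1]
    push_cast
    ring_nf
  | pred n ih =>
    have h1 := h _ (hm (-(n : ℤ) - 1))
    dsimp only at h1
    rw [← h1, ← ih]
    push_cast
    ring_nf

lemma cb_el_int {L : ℂ × ℂ × ℂ → ℂ} {k1 : ℂ} {b M : ℝ} (hL : Lag L k1 b M) {ρ x y z : ℂ}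
    (h1 : (y, (z - y) / ρ, ρ) ∈ DL b) (h2 : (x, (y - x) / ρ, ρ) ∈ DL b) (n : ℤ) :
    el L ρ (x + n) (y + n) (z + n) = el L ρ x y z := by
  have hf := (lag_facts hL).1
  have hT := (hf (Lt L) (by simp [LL])).2.1
  have hD := (hf (LD L) (by simp [LL])).2.1
  have e1 := cb_L_int hT h1 n
  have e2 := cb_L_int hD h1 n
  have e3 := cb_L_int hD h2 n
  dsimp only at e1 e2 e3
  unfold el
  have a1 : (z + n - (y + n)) / ρ = (z - y) / ρ := by ring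
  have a2 : (y + n - (x + n)) / ρ = (y - x) / ρ := by ring
  rw [a1, a2, e1, e2, e3]

/-- second order Taylor formula for three consecutive points -/
lemma cb_taylor {L : ℂ × ℂ × ℂ → ℂ} {b M' s : ℝ}
    (hB : ∀ (P : ℂ × ℂ × ℂ) (z w z' w' : ℂ), P ∈ DL (b / 2) →
      (P.1 + z, P.2.1 + w, P.2.2) ∈ DL (b / 2) → (P.1 + z', P.2.1 + w', P.2.2) ∈ DL (b / 2) →
      ‖Lt L (P.1 + z, P.2.1 + w, P.2.2) - Lt L (P.1 + z', P.2.1 + w', P.2.2) -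
        Lt (Lt L) P * (z - z') - LD (Lt L) P * (w - w')‖ ≤
        M' * (‖z‖ + ‖w‖ + ‖z'‖ + ‖w'‖) * (‖z - z'‖ + ‖w - w'‖) ∧
      ‖LD L (P.1 + z, P.2.1 + w, P.2.2) - LD L (P.1 + z', P.2.1 + w', P.2.2) -
        LD (Lt L) P * (z - z') - LD (LD L) P * (w - w')‖ ≤
        M' * (‖z‖ + ‖w‖ + ‖z'‖ + ‖w'‖) * (‖z - z'‖ + ‖w - w'‖))
    (hM' : 0 ≤ M') {ρ X₀ X₁ X₂ z₀ z₁ z₂ : ℂ}
    (h1 : (X₁, (X₂ - X₁) / ρ, ρ) ∈ DL (b / 2))
    (h0 : (X₀, (X₁ - X₀) / ρ, ρ) ∈ DL (b / 2))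
    (h1' : (X₁ + z₁, (X₂ + z₂ - (X₁ + z₁)) / ρ, ρ) ∈ DL (b / 2))
    (h0' : (X₀ + z₀, (X₁ + z₁ - (X₀ + z₀)) / ρ, ρ) ∈ DL (b / 2))
    (hs1 : ‖z₁‖ + ‖(z₂ - z₁) / ρ‖ ≤ s) (hs0 : ‖z₀‖ + ‖(z₁ - z₀) / ρ‖ ≤ s) :
    ‖el L ρ (X₀ + z₀) (X₁ + z₁) (X₂ + z₂) - el L ρ X₀ X₁ X₂ -
      (Lt (Lt L) (X₁, (X₂ - X₁) / ρ, ρ) * z₁ + LD (Lt L) (X₁, (X₂ - X₁) / ρ, ρ) *
        ((z₂ - z₁) / ρ) - ((LD (Lt L) (X₁, (X₂ - X₁) / ρ, ρ) * z₁ +
          LD (LD L) (X₁, (X₂ - X₁) / ρ, ρ) * ((z₂ - z₁) / ρ)) -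
          (LD (Lt L) (X₀, (X₁ - X₀) / ρ, ρ) * z₀ +
          LD (LD L) (X₀, (X₁ - X₀) / ρ, ρ) * ((z₁ - z₀) / ρ))) / ρ)‖ ≤
      M' * s ^ 2 * (1 + 2 / ‖ρ‖) := by
  have a1 : (X₂ + z₂ - (X₁ + z₁)) / ρ = (X₂ - X₁) / ρ + (z₂ - z₁) / ρ := by ring
  have a0 : (X₁ + z₁ - (X₀ + z₀)) / ρ = (X₁ - X₀) / ρ + (z₁ - z₀) / ρ := by ring
  rw [a1] at h1'
  rw [a0] at h0'
  set w₁ := (z₂ - z₁) / ρ with hw₁
  set w₀ := (z₁ - z₀) / ρ with hw₀
  set D₁ := (X₂ - X₁) / ρ with hD₁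
  set D₀ := (X₁ - X₀) / ρ with hD₀
  have hb1 := hB (X₁, D₁, ρ) z₁ w₁ 0 0 h1 h1' (by simpa using h1)
  have hb0 := hB (X₀, D₀, ρ) z₀ w₀ 0 0 h0 h0' (by simpa using h0)
  simp only [add_zero, sub_zero, norm_zero] at hb1 hb0
  have hsq1 : M' * (‖z₁‖ + ‖w₁‖) * (‖z₁‖ + ‖w₁‖) ≤ M' * s ^ 2 := by
    have h2 : 0 ≤ ‖z₁‖ + ‖w₁‖ := by positivity
    have h3 : (‖z₁‖ + ‖w₁‖) * (‖z₁‖ + ‖w₁‖) ≤ s ^ 2 := by nlinarith
    calc M' * (‖z₁‖ + ‖w₁‖) * (‖z₁‖ + ‖w₁‖) = M' * ((‖z₁‖ + ‖w₁‖) * (‖z₁‖ + ‖w₁‖)) := by ring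
      _ ≤ M' * s ^ 2 := mul_le_mul_of_nonneg_left h3 hM'
  have hsq0 : M' * (‖z₀‖ + ‖w₀‖) * (‖z₀‖ + ‖w₀‖) ≤ M' * s ^ 2 := by
    have h2 : 0 ≤ ‖z₀‖ + ‖w₀‖ := by positivity
    have h3 : (‖z₀‖ + ‖w₀‖) * (‖z₀‖ + ‖w₀‖) ≤ s ^ 2 := by nlinarith
    calc M' * (‖z₀‖ + ‖w₀‖) * (‖z₀‖ + ‖w₀‖) = M' * ((‖z₀‖ + ‖w₀‖) * (‖z₀‖ + ‖w₀‖)) := by ring
      _ ≤ M' * s ^ 2 := mul_le_mul_of_nonneg_left h3 hM'
  have hT := hb1.1.trans hsq1
  have hD := hb1.2.trans hsq1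
  have hE := hb0.2.trans hsq0
  unfold el
  rw [a1, a0]
  set T := Lt L (X₁ + z₁, D₁ + w₁, ρ) - Lt L (X₁, D₁, ρ) - Lt (Lt L) (X₁, D₁, ρ) * z₁ -
    LD (Lt L) (X₁, D₁, ρ) * w₁ with hTdef
  set U := LD L (X₁ + z₁, D₁ + w₁, ρ) - LD L (X₁, D₁, ρ) - LD (Lt L) (X₁, D₁, ρ) * z₁ -
    LD (LD L) (X₁, D₁, ρ) * w₁ with hUdef
  set V := LD L (X₀ + z₀, D₀ + w₀, ρ) - LD L (X₀, D₀, ρ) - LD (Lt L) (X₀, D₀, ρ) * z₀ -
    LD (LD L) (X₀, D₀, ρ) * w₀ with hVdef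
  have key : Lt L (X₁ + z₁, D₁ + w₁, ρ) - (LD L (X₁ + z₁, D₁ + w₁, ρ) -
      LD L (X₀ + z₀, D₀ + w₀, ρ)) / ρ - (Lt L (X₁, D₁, ρ) - (LD L (X₁, D₁, ρ) -
      LD L (X₀, D₀, ρ)) / ρ) - (Lt (Lt L) (X₁, D₁, ρ) * z₁ + LD (Lt L) (X₁, D₁, ρ) * w₁ -
      (LD (Lt L) (X₁, D₁, ρ) * z₁ + LD (LD L) (X₁, D₁, ρ) * w₁ -
      (LD (Lt L) (X₀, D₀, ρ) * z₀ + LD (LD L) (X₀, D₀, ρ) * w₀)) / ρ) = T - U / ρ + V / ρ := by
    rw [hTdef, hUdef, hVdef]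
    ring
  rw [key]
  calc ‖T - U / ρ + V / ρ‖ ≤ ‖T‖ + ‖U / ρ‖ + ‖V / ρ‖ :=
        (norm_add_le _ _).trans (add_le_add_left (norm_sub_le _ _) _)
    _ = ‖T‖ + ‖U‖ / ‖ρ‖ + ‖V‖ / ‖ρ‖ := by rw [norm_div, norm_div]
    _ ≤ M' * s ^ 2 + M' * s ^ 2 / ‖ρ‖ + M' * s ^ 2 / ‖ρ‖ := by gcongr
    _ = M' * s ^ 2 * (1 + 2 / ‖ρ‖) := by ring

section

variable {L : ℂ × ℂ × ℂ → ℂ} {k1 : ℂ} {b κ ε η : ℝ} {F : ℂ × ℂ → ℂ} {x : ℝ} {t : ℂ}

lemma cb_br (hx0 : x ≠ 0) (t : ℂ) (j : ℤ) : br F (cbP t x j) =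
    (F (cbP t x j), (F (cbP t x (j + 1)) - F (cbP t x j)) / x, (x : ℂ)) := by
  have h : (cbP t x j).2 ≠ 0 := by simpa [cbP] using hx0
  unfold br
  rw [nab_of_ne h, cbP_succ]
  rfl

lemma cb_EL (hx0 : x ≠ 0) (t : ℂ) (j : ℤ) : EL L F (cbP t x j) =
    el L x (F (cbP t x (j - 1))) (F (cbP t x j)) (F (cbP t x (j + 1))) := by
  have h : (cbP t x j).2 ≠ 0 := by simpa [cbP] using hx0
  rw [EL_of_ne h, cbP_succ, cbP_pred]
  rfl

lemma cb_aa (t : ℂ) (j : ℤ) : aa L F (cbP t x j) =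
    dt F (cbP t x j) * dt F (cbP t x (j + 1)) *
      (LD (LD L) (br F (cbP t x j)) - x * LD (Lt L) (br F (cbP t x j))) := by
  unfold aa sh
  rw [cbP_succ]
  have h : (cbP t x j).1 + ((1 : ℤ) : ℂ) * (cbP t x j).2 = (cbP t x j).1 + x := by
    simp [cbP]
  rw [h]
  rfl

lemma cb_JJ (hx0 : x ≠ 0) (z : ℂ × ℂ → ℂ) (t : ℂ) (j : ℤ) : JJ L F z (cbP t x j) =
    Lt (Lt L) (br F (cbP t x j)) * z (cbP t x j) +
      LD (Lt L) (br F (cbP t x j)) * ((z (cbP t x (j + 1)) - z (cbP t x j)) / x) -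
      ((LD (Lt L) (br F (cbP t x j)) * z (cbP t x j) +
        LD (LD L) (br F (cbP t x j)) * ((z (cbP t x (j + 1)) - z (cbP t x j)) / x)) -
        (LD (Lt L) (br F (cbP t x (j - 1))) * z (cbP t x (j - 1)) +
        LD (LD L) (br F (cbP t x (j - 1))) * ((z (cbP t x j) - z (cbP t x (j - 1))) / x))) / x := by
  have h : ∀ j : ℤ, (cbP t x j).2 ≠ 0 := fun j => by simpa [cbP] using hx0
  have hn : ∀ j : ℤ, nab z (cbP t x j) = (z (cbP t x (j + 1)) - z (cbP t x j)) / x := by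
    intro j
    rw [nab_of_ne (h j), cbP_succ]
    rfl
  unfold JJ
  rw [nabm_of_ne (h j)]
  have e1 : (((cbP t x j).1 - (cbP t x j).2, (cbP t x j).2) : ℂ × ℂ) = cbP t x (j - 1) := by
    rw [cbP_pred]
    rfl
  rw [e1, hn j, hn (j - 1), sub_add_cancel]
  rfl

/-- the identity for one term -/
lemma cb_term {M' s : ℝ} (hM' : 0 ≤ M')
    (hB : ∀ (P : ℂ × ℂ × ℂ) (z w z' w' : ℂ), P ∈ DL (b / 2) →
      (P.1 + z, P.2.1 + w, P.2.2) ∈ DL (b / 2) → (P.1 + z', P.2.1 + w', P.2.2) ∈ DL (b / 2) →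
      ‖Lt L (P.1 + z, P.2.1 + w, P.2.2) - Lt L (P.1 + z', P.2.1 + w', P.2.2) -
        Lt (Lt L) P * (z - z') - LD (Lt L) P * (w - w')‖ ≤
        M' * (‖z‖ + ‖w‖ + ‖z'‖ + ‖w'‖) * (‖z - z'‖ + ‖w - w'‖) ∧
      ‖LD L (P.1 + z, P.2.1 + w, P.2.2) - LD L (P.1 + z', P.2.1 + w', P.2.2) -
        LD (Lt L) P * (z - z') - LD (LD L) P * (w - w')‖ ≤
        M' * (‖z‖ + ‖w‖ + ‖z'‖ + ‖w'‖) * (‖z - z'‖ + ‖w - w'‖))
    (hx0 : x ≠ 0) (Y : ℤ → ℂ) (j : ℤ)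
    (hbr : ∀ i : ℤ, br F (cbP t x i) ∈ DL (b / 2))
    (hbr' : ∀ i : ℤ, (F (cbP t x i) + dt F (cbP t x i) * Y i,
      (F (cbP t x (i + 1)) + dt F (cbP t x (i + 1)) * Y (i + 1) -
        (F (cbP t x i) + dt F (cbP t x i) * Y i)) / x, (x : ℂ)) ∈ DL (b / 2))
    (hs : ∀ i : ℤ, ‖dt F (cbP t x i) * Y i‖ + ‖(dt F (cbP t x (i + 1)) * Y (i + 1) -
      dt F (cbP t x i) * Y i) / x‖ ≤ s)
    (hk : ‖dt F (cbP t x j)‖ ≤ 2) (hY : ‖Y j‖ ≤ η) (hη : 0 ≤ η)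
    (hdt : dt (EL L F) (cbP t x j) = JJ L F (dt F) (cbP t x j))
    (hdtb : ‖dt (EL L F) (cbP t x j)‖ ≤ ε)
    (hel : el L x (F (cbP t x (j - 1)) + dt F (cbP t x (j - 1)) * Y (j - 1))
      (F (cbP t x j) + dt F (cbP t x j) * Y j)
      (F (cbP t x (j + 1)) + dt F (cbP t x (j + 1)) * Y (j + 1)) = 0) :
    ‖dt F (cbP t x j) * EL L F (cbP t x j) -
      (aa L F (cbP t x j) * ((Y (j + 1) - Y j) / x) -
        aa L F (cbP t x (j - 1)) * ((Y j - Y (j - 1)) / x)) / x‖ ≤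
      2 * (η * ε) + 2 * (M' * s ^ 2 * (1 + 2 / |x|)) := by
  have hxc : (x : ℂ) ≠ 0 := by exact_mod_cast hx0
  have hj : j - 1 + 1 = j := by ring
  have hP1 := hbr j
  have hP0 := hbr (j - 1)
  have hP1' := hbr' j
  have hP0' := hbr' (j - 1)
  have hs1 := hs j
  have hs0 := hs (j - 1)
  rw [cb_br hx0] at hP1 hP0
  rw [hj] at hP0 hP0' hs0
  have hT := cb_taylor hB hM' hP1 hP0 hP1' hP0' hs1 hs0
  rw [hel, ← cb_EL hx0] at hT
  have e1 : br F (cbP t x j) =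
    (F (cbP t x j), (F (cbP t x (j + 1)) - F (cbP t x j)) / x, (x : ℂ)) := cb_br hx0 t j
  have e0 : br F (cbP t x (j - 1)) =
    (F (cbP t x (j - 1)), (F (cbP t x j) - F (cbP t x (j - 1))) / x, (x : ℂ)) := by
    have := cb_br (F := F) hx0 t (j - 1)
    rwa [hj] at this
  rw [← e1, ← e0] at hT
  have hI := I1_alg (A := Lt (Lt L) (br F (cbP t x j))) (B := LD (Lt L) (br F (cbP t x j)))
    (C := LD (LD L) (br F (cbP t x j))) (B' := LD (Lt L) (br F (cbP t x (j - 1))))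
    (C' := LD (LD L) (br F (cbP t x (j - 1)))) (κm := dt F (cbP t x (j - 1)))
    (κ := dt F (cbP t x j)) (κp := dt F (cbP t x (j + 1))) (ym := Y (j - 1)) (y := Y j)
    (yp := Y (j + 1)) hxc
  have hJ := cb_JJ (L := L) (F := F) hx0 (dt F) t j
  rw [← hdt] at hJ
  rw [← hJ] at hI
  have ha1 := cb_aa (L := L) (F := F) (x := x) t j
  have ha0 := cb_aa (L := L) (F := F) (x := x) t (j - 1)
  rw [hj] at ha0
  rw [ha1, ha0]
  set K := dt F (cbP t x j)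
  set E := EL L F (cbP t x j)
  set DE := dt (EL L F) (cbP t x j)
  set lin := Lt (Lt L) (br F (cbP t x j)) * (K * Y j) +
    LD (Lt L) (br F (cbP t x j)) * ((dt F (cbP t x (j + 1)) * Y (j + 1) - K * Y j) / x) -
    (LD (Lt L) (br F (cbP t x j)) * (K * Y j) +
      LD (LD L) (br F (cbP t x j)) * ((dt F (cbP t x (j + 1)) * Y (j + 1) - K * Y j) / x) -
      (LD (Lt L) (br F (cbP t x (j - 1))) * (dt F (cbP t x (j - 1)) * Y (j - 1)) +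
      LD (LD L) (br F (cbP t x (j - 1))) *
        ((K * Y j - dt F (cbP t x (j - 1)) * Y (j - 1)) / x))) / x with hlin
  set R := (0 : ℂ) - E - lin with hR
  have key : K * E - (K * dt F (cbP t x (j + 1)) *
      (LD (LD L) (br F (cbP t x j)) - x * LD (Lt L) (br F (cbP t x j))) * ((Y (j + 1) - Y j) / x) -
      dt F (cbP t x (j - 1)) * K * (LD (LD L) (br F (cbP t x (j - 1))) -
        x * LD (Lt L) (br F (cbP t x (j - 1)))) * ((Y j - Y (j - 1)) / x)) / x =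
      -(K * Y j * DE) - K * R := by
    rw [hR]
    linear_combination (-1 : ℂ) * hI
  rw [key]
  have n1 : ‖K * Y j * DE‖ ≤ 2 * (η * ε) := by
    rw [norm_mul, norm_mul]
    calc ‖K‖ * ‖Y j‖ * ‖DE‖ ≤ 2 * η * ε := by gcongr
      _ = 2 * (η * ε) := by ring
  have n2 : ‖K * R‖ ≤ 2 * (M' * s ^ 2 * (1 + 2 / |x|)) := by
    rw [norm_mul]
    have hn : ‖(x : ℂ)‖ = |x| := by simp
    rw [hn] at hT
    calc ‖K‖ * ‖R‖ ≤ 2 * ‖R‖ := by gcongr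
      _ ≤ 2 * (M' * s ^ 2 * (1 + 2 / |x|)) := by gcongr
  calc ‖-(K * Y j * DE) - K * R‖ ≤ ‖-(K * Y j * DE)‖ + ‖K * R‖ := norm_sub_le _ _
    _ = ‖K * Y j * DE‖ + ‖K * R‖ := by rw [norm_neg]
    _ ≤ _ := add_le_add n1 n2

end

/-! ### The cyclic sequence -/

/-- the perturbed chain, `q`-periodic perturbation -/
def cbY (q : ℕ) (y : ℕ → ℂ → ℂ) (t : ℂ) (j : ℤ) : ℂ := y (j % (q : ℤ)).toNat t

/-- the perturbed chain -/
def cbZ (F : ℂ × ℂ → ℂ) (x : ℝ) (q : ℕ) (y : ℕ → ℂ → ℂ) (t : ℂ) (j : ℤ) : ℂ :=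
  F (cbP t x j) + dt F (cbP t x j) * cbY q y t j

section

variable {L : ℂ × ℂ × ℂ → ℂ} {k1 : ℂ} {b κ ε η : ℝ} {F : ℂ × ℂ → ℂ} {x : ℝ} {t : ℂ} {q : ℕ}
  {k : ℤ} {y : ℕ → ℂ → ℂ}

lemma cbY_add (q : ℕ) (y : ℕ → ℂ → ℂ) (t : ℂ) (j m : ℤ) :
    cbY q y t (j + m * q) = cbY q y t j := by
  unfold cbY
  rw [Int.add_mul_emod_self_right]

lemma cbY_nat (hq : 0 < q) (hy0 : ∀ t, y 0 t = 0) (hyq : ∀ t, y q t = 0) (t : ℂ) {n : ℕ}
    (hn : n ≤ q) : cbY q y t n = y n t := by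
  unfold cbY
  rcases hn.lt_or_eq with h | h
  · have h1 : ((n : ℤ) % (q : ℤ)).toNat = n := by
      rw [Int.emod_eq_of_lt (by positivity) (by exact_mod_cast h)]
      simp
    rw [h1]
  · subst h
    rw [Int.emod_self, hyq]
    exact hy0 t

lemma cbY_le (hq : 0 < q) (hyb : ∀ j ≤ q, ‖y j t‖ ≤ η) (j : ℤ) : ‖cbY q y t j‖ ≤ η := by
  refine hyb _ ?_
  have h1 := Int.emod_nonneg j (show (q : ℤ) ≠ 0 by positivity)
  have h2 := Int.emod_lt_of_pos j (show (0 : ℤ) < q by exact_mod_cast hq)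
  omega

lemma cbP_add (hqx : (q : ℝ) * x = k) (t : ℂ) (j m : ℤ) :
    cbP t x (j + m * q) = ((cbP t x j).1 + ((m * k : ℤ) : ℂ), (cbP t x j).2) := by
  have h : (q : ℂ) * (x : ℂ) = (k : ℂ) := by exact_mod_cast congrArg (fun u : ℝ => (u : ℂ)) hqx
  simp only [cbP]
  push_cast
  rw [Prod.mk.injEq]
  refine ⟨?_, rfl⟩
  linear_combination (m : ℂ) * h

lemma cbZ_add (hF : GF c r κ F) (hqx : (q : ℝ) * x = k) (ht : |t.im| < c) (hx : |x| < r)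
    (j m : ℤ) : cbZ F x q y t (j + m * q) = cbZ F x q y t j + ((m * k : ℤ) : ℂ) := by
  unfold cbZ
  rw [cbY_add, cbP_add hqx, cb_F_int hF (cbP_mem _ ht hx j),
    cb_per_int hF.dt_RP.toPH (cbP_mem _ ht hx j)]
  ring

lemma cbZ_real (hF : GF c r κ F) (ht : |t.im| < c) (hx : |x| < r) (ht0 : t.im = 0)
    (hq : 0 < q) (hyr : ∀ j ≤ q, (y j t).im = 0) (j : ℤ) : (cbZ F x q y t j).im = 0 := by
  have hm := cbP_mem {0} ht hx j
  have h1 : (cbP t x j).1.im = 0 := by simp [cbP, ht0]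
  have h2 : (cbP t x j).2.im = 0 := by simp [cbP]
  have h3 : (F (cbP t x j)).im = 0 := by
    have := hF.ap.real _ hm h1 h2
    rw [sub_im, h1, sub_zero] at this
    exact this
  have h4 := hF.dt_RP.real _ hm h1 h2
  have h5 : (cbY q y t j).im = 0 := by
    refine hyr _ ?_
    have h1 := Int.emod_nonneg j (show (q : ℤ) ≠ 0 by positivity)
    have h2 := Int.emod_lt_of_pos j (show (0 : ℤ) < q by exact_mod_cast hq)
    omega
  unfold cbZ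
  rw [add_im, mul_im, h3, h4, h5]
  ring

/-- bounds for the increments -/
lemma cb_inc (hF : GF c r κ F) (hκ1 : κ ≤ 1) (hx0 : x ≠ 0) (hxq : 1 ≤ (q : ℝ) * |x|)
    (ht : |t.im| < c) (hx : |x| < r) (hq : 0 < q) (hyb : ∀ j ≤ q, ‖y j t‖ ≤ η) (j : ℤ) :
    ‖dt F (cbP t x j) * cbY q y t j‖ ≤ 2 * η ∧
    ‖(dt F (cbP t x (j + 1)) * cbY q y t (j + 1) - dt F (cbP t x j) * cbY q y t j) / x‖ ≤
      4 * q * η := by
  have hk : ∀ i : ℤ, ‖dt F (cbP t x i)‖ ≤ 2 := by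
    intro i
    have h1 := hF.dt1 _ (cbP_mem _ ht hx i)
    have h2 : ‖dt F (cbP t x i)‖ ≤ ‖dt F (cbP t x i) - 1‖ + ‖(1 : ℂ)‖ := by
      have := norm_add_le (dt F (cbP t x i) - 1) 1
      simpa using this
    rw [norm_one] at h2
    linarith
  have hη : 0 ≤ η := (norm_nonneg _).trans (cbY_le hq hyb 0)
  have hz : ∀ i : ℤ, ‖dt F (cbP t x i) * cbY q y t i‖ ≤ 2 * η := by
    intro i
    rw [norm_mul]
    have h1 := hk i
    have h2 := cbY_le hq hyb i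
    gcongr
  refine ⟨hz j, ?_⟩
  have hx' : 0 < |x| := abs_pos.2 hx0
  rw [norm_div, show ‖(x : ℂ)‖ = |x| by simp, div_le_iff₀ hx']
  calc ‖dt F (cbP t x (j + 1)) * cbY q y t (j + 1) - dt F (cbP t x j) * cbY q y t j‖
      ≤ 2 * η + 2 * η := (norm_sub_le _ _).trans (add_le_add (hz _) (hz _))
    _ = 4 * η * 1 := by ring
    _ ≤ 4 * η * (q * |x|) := by gcongr
    _ = 4 * q * η * |x| := by ring

lemma cb_DL (hF : GF c r κ F) (hb : 0 < b) (hc : c ≤ b / 16) (hr : r ≤ b / 16) (hκ : κ ≤ b / 16)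
    (hb1 : b ≤ 1) (hx0 : x ≠ 0) (hxq : 1 ≤ (q : ℝ) * |x|) (ht : |t.im| < c) (hx : |x| < r)
    (hq : 0 < q) (hyb : ∀ j ≤ q, ‖y j t‖ ≤ η) (hη : 4 * q * η ≤ b / 4) (j : ℤ) :
    br F (cbP t x j) ∈ DL (b / 2) ∧ (cbZ F x q y t j,
      (cbZ F x q y t (j + 1) - cbZ F x q y t j) / x, (x : ℂ)) ∈ DL (b / 2) := by
  have hκ1 : κ ≤ 1 := by linarith
  have h1 := br_mem hF hb hc hr hκ _ (cbP_mem {0, 1} ht hx j)
  obtain ⟨hi1, hi2⟩ := cb_inc hF hκ1 hx0 hxq ht hx hq hyb j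
  rw [cb_br hx0] at h1 ⊢
  obtain ⟨a1, a2, a3⟩ := h1
  dsimp only at a1 a2 a3
  have hη0 : 0 ≤ η := (norm_nonneg _).trans (cbY_le hq hyb 0)
  have hq1 : (1 : ℝ) ≤ q := by exact_mod_cast hq
  have hη1 : 2 * η ≤ 4 * q * η := by nlinarith
  refine ⟨⟨by dsimp only; linarith, by dsimp only; linarith, by dsimp only; linarith⟩,
    ⟨?_, ?_, by dsimp only; linarith⟩⟩
  · dsimp only
    unfold cbZ
    rw [add_im]
    have h2 := (abs_im_le_norm (dt F (cbP t x j) * cbY q y t j)).trans hi1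
    have h3 := abs_add_le (F (cbP t x j)).im (dt F (cbP t x j) * cbY q y t j).im
    linarith
  · dsimp only
    have e : (cbZ F x q y t (j + 1) - cbZ F x q y t j) / x - 1 =
        ((F (cbP t x (j + 1)) - F (cbP t x j)) / x - 1) +
        (dt F (cbP t x (j + 1)) * cbY q y t (j + 1) - dt F (cbP t x j) * cbY q y t j) / x := by
      unfold cbZ
      ring
    rw [e]
    have h3 := norm_add_le ((F (cbP t x (j + 1)) - F (cbP t x j)) / x - 1)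
      ((dt F (cbP t x (j + 1)) * cbY q y t (j + 1) - dt F (cbP t x j) * cbY q y t j) / x)
    linarith

end

lemma cb_DL_mono {b : ℝ} (hb : 0 < b) : DL (b / 2) ⊆ DL b := fun P hP =>
  ⟨hP.1.trans (by linarith), hP.2.1.trans (by linarith), hP.2.2.trans (by linarith)⟩

section

variable {L : ℂ × ℂ × ℂ → ℂ} {k1 : ℂ} {b κ ε η : ℝ} {F : ℂ × ℂ → ℂ} {x : ℝ} {t : ℂ} {q : ℕ}
  {k : ℤ} {y : ℕ → ℂ → ℂ}

/-- the Euler-Lagrange equations at all indices not divisible by `q` -/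
lemma cb_el_ndvd (hL : Lag L k1 b M) (hF : GF c r κ F) (hqx : (q : ℝ) * x = k)
    (ht : |t.im| < c) (hx : |x| < r) (hq : 0 < q) (hy0 : ∀ t, y 0 t = 0) (hyq : ∀ t, y q t = 0)
    (hDL : ∀ j : ℤ, (cbZ F x q y t j,
      (cbZ F x q y t (j + 1) - cbZ F x q y t j) / x, (x : ℂ)) ∈ DL (b / 2))
    (hyel : ∀ j, j + 1 < q →
        el L x (F (t + j * x, (x : ℂ)) + dt F (t + j * x, (x : ℂ)) * y j t)
          (F (t + (j + 1) * x, (x : ℂ)) + dt F (t + (j + 1) * x, (x : ℂ)) * y (j + 1) t)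
          (F (t + (j + 2) * x, (x : ℂ)) + dt F (t + (j + 2) * x, (x : ℂ)) * y (j + 2) t) = 0)
    (j : ℤ) (hj : ¬ ((q : ℤ) ∣ j)) :
    el L x (cbZ F x q y t (j - 1)) (cbZ F x q y t j) (cbZ F x q y t (j + 1)) = 0 := by
  have hqz : (q : ℤ) ≠ 0 := by positivity
  have hm0 := Int.emod_nonneg j hqz
  have hm1 := Int.emod_lt_of_pos j (show (0 : ℤ) < q by exact_mod_cast hq)
  have hm2 : j % (q : ℤ) ≠ 0 := fun h => hj (Int.dvd_of_emod_eq_zero h)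
  obtain ⟨n, hn⟩ : ∃ n : ℕ, j % (q : ℤ) = (n : ℤ) + 1 := ⟨(j % (q : ℤ) - 1).toNat, by omega⟩
  have hnq : n + 1 < q := by omega
  have hjd : j = ((n : ℤ) + 1) + (j / (q : ℤ)) * q := by
    have := Int.emod_add_mul_ediv j q
    rw [hn] at this
    linarith
  set m := j / (q : ℤ) with hm
  have e0 : j - 1 = (n : ℤ) + m * q := by linarith
  have e2 : j + 1 = ((n : ℤ) + 2) + m * q := by linarith
  have hn0 : ((n : ℤ) + 1) - 1 = (n : ℤ) := by ring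
  have hDL1 := cb_DL_mono hL.b0 (hDL ((n : ℤ) + 1))
  have hDL0 := cb_DL_mono hL.b0 (hDL (n : ℤ))
  have e3 : ((n : ℤ) + 1) + 1 = (n : ℤ) + 2 := by ring
  rw [e3] at hDL1
  rw [e0, e2]
  have e4 : cbZ F x q y t j = cbZ F x q y t (((n : ℤ) + 1) + m * q) := by rw [← hjd]
  rw [e4, cbZ_add hF hqx ht hx, cbZ_add hF hqx ht hx, cbZ_add hF hqx ht hx,
    cb_el_int hL hDL1 hDL0]
  have f0 : cbZ F x q y t (n : ℤ) = F (t + n * x, (x : ℂ)) + dt F (t + n * x, (x : ℂ)) * y n t := by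
    unfold cbZ
    rw [cbY_nat hq hy0 hyq t (by omega : n ≤ q)]
    simp [cbP]
  have f1 : cbZ F x q y t ((n : ℤ) + 1) =
      F (t + (n + 1) * x, (x : ℂ)) + dt F (t + (n + 1) * x, (x : ℂ)) * y (n + 1) t := by
    have h := cbY_nat hq hy0 hyq t (by omega : n + 1 ≤ q)
    push_cast at h
    unfold cbZ
    rw [h]
    simp [cbP]
  have f2 : cbZ F x q y t ((n : ℤ) + 2) =
      F (t + (n + 2) * x, (x : ℂ)) + dt F (t + (n + 2) * x, (x : ℂ)) * y (n + 2) t := by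
    have h := cbY_nat hq hy0 hyq t (by omega : n + 2 ≤ q)
    push_cast at h
    unfold cbZ
    rw [h]
    simp [cbP]
  rw [f0, f1, f2]
  exact hyel n hnq

/-- the closing property for real `t` -/
lemma cb_close (hL : Lag L k1 b M) (hH : Closing L b) (hF : GF c r κ F)
    (hqx : (q : ℝ) * x = k) (hxk : x = (k : ℝ) / q) (hk : k ≠ 0) (hxb : |x| < b)
    (ht : |t.im| < c) (hx : |x| < r) (ht0 : t.im = 0) (hq : 0 < q)
    (hyr : ∀ j ≤ q, (y j t).im = 0)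
    (hDL : ∀ j : ℤ, (cbZ F x q y t j,
      (cbZ F x q y t (j + 1) - cbZ F x q y t j) / x, (x : ℂ)) ∈ DL (b / 2))
    (hel : ∀ j : ℤ, ¬ ((q : ℤ) ∣ j) →
      el L x (cbZ F x q y t (j - 1)) (cbZ F x q y t j) (cbZ F x q y t (j + 1)) = 0) :
    el L x (cbZ F x q y t (-1)) (cbZ F x q y t 0) (cbZ F x q y t 1) = 0 := by
  set X : ℤ → ℝ := fun j => (cbZ F x q y t j).re with hX
  have hXc : ∀ j, ((X j : ℝ) : ℂ) = cbZ F x q y t j := by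
    intro j
    apply Complex.ext
    · simp [hX]
    · rw [cbZ_real hF ht hx ht0 hq hyr j]
      simp
  have h1 : ∀ j, X (j + q) = X j + k := by
    intro j
    have h2 := cbZ_add (y := y) hF hqx ht hx j 1
    rw [one_mul, one_mul] at h2
    simp only [hX]
    rw [h2]
    simp
  have h3 : ∀ j, |(X (j + 1) - X j) / ((k : ℝ) / q) - 1| < b := by
    intro j
    have h4 := (hDL j).2.1
    dsimp only at h4
    rw [← hXc, ← hXc] at h4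
    have h5 : (((X (j + 1) : ℝ) : ℂ) - ((X j : ℝ) : ℂ)) / (x : ℂ) - 1 =
        (((X (j + 1) - X j) / x - 1 : ℝ) : ℂ) := by push_cast; ring
    rw [h5, Complex.norm_real, Real.norm_eq_abs] at h4
    rw [← hxk]
    have hb := hL.b0
    linarith
  have h6 := hH q k X hq hk (by rw [← hxk]; exact hxb) h1 h3 (by
    intro j hj
    rw [← hxk, hXc, hXc, hXc]
    exact hel j hj)
  rw [← hxk, hXc, hXc, hXc] at h6
  exact h6

lemma cbZ_diff (hF : GF c r κ F) (hc' : c' ≤ c) (hx : |x| < r)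
    (hyd : ∀ j, DifferentiableOn ℂ (y j) {t | |t.im| < c'}) (j : ℤ) :
    DifferentiableOn ℂ (fun t => cbZ F x q y t j) {t | |t.im| < c'} := by
  have hm : MapsTo (fun t : ℂ => cbP t x j) {t | |t.im| < c'} (Dm {0} c r) := by
    intro t ht
    exact cbP_mem _ (lt_of_lt_of_le ht hc') hx j
  have hd : DifferentiableOn ℂ (fun t : ℂ => cbP t x j) {t | |t.im| < c'} := by
    unfold cbP
    fun_prop
  have h1 := hF.diff.comp hd hm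
  have h2 := hF.dt_RP.diff.comp hd hm
  exact h1.add (h2.mul (hyd _))

/-- the closing property for complex `t` -/
lemma cb_closeC (hL : Lag L k1 b M) (hF : GF c r κ F) (hc' : c' ≤ c) (hc0 : 0 < c')
    (hx : |x| < r) (hyd : ∀ j, DifferentiableOn ℂ (y j) {t | |t.im| < c'})
    (hDL : ∀ t : ℂ, |t.im| < c' → ∀ j : ℤ, (cbZ F x q y t j,
      (cbZ F x q y t (j + 1) - cbZ F x q y t j) / x, (x : ℂ)) ∈ DL (b / 2))
    (hre : ∀ t : ℝ, el L x (cbZ F x q y t (-1)) (cbZ F x q y t 0) (cbZ F x q y t 1) = 0)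
    (ht : |t.im| < c') :
    el L x (cbZ F x q y t (-1)) (cbZ F x q y t 0) (cbZ F x q y t 1) = 0 := by
  set U : Set ℂ := {t | |t.im| < c'} with hU
  have hUo : IsOpen U := isOpen_lt (continuous_abs.comp continuous_im) continuous_const
  have hUc : Convex ℝ U := by
    have h : U = im ⁻¹' Ioo (-c') c' := by
      ext z
      simp [hU, abs_lt]
    rw [h]
    exact (convex_Ioo (-c') c').is_linear_preimage ⟨fun _ _ => by simp, fun _ _ => by simp⟩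
  have hf := (lag_facts hL).1
  have hT := (hf (Lt L) (by simp [LL])).1
  have hD := (hf (LD L) (by simp [LL])).1
  have hz := fun j => cbZ_diff (q := q) hF hc' hx hyd j
  have hP : ∀ j : ℤ, DifferentiableOn ℂ (fun t => ((cbZ F x q y t j,
      (cbZ F x q y t (j + 1) - cbZ F x q y t j) / x, (x : ℂ)) : ℂ × ℂ × ℂ)) U := by
    intro j
    exact (hz j).prodMk ((((hz (j + 1)).sub (hz j)).div_const _).prodMk
      (differentiableOn_const _))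
  have hPm : ∀ j : ℤ, MapsTo (fun t => ((cbZ F x q y t j,
      (cbZ F x q y t (j + 1) - cbZ F x q y t j) / x, (x : ℂ)) : ℂ × ℂ × ℂ)) U (DL b) :=
    fun j t ht => cb_DL_mono hL.b0 (hDL t ht j)
  have hd : DifferentiableOn ℂ
      (fun t => el L x (cbZ F x q y t (-1)) (cbZ F x q y t 0) (cbZ F x q y t 1)) U := by
    have a1 := hT.comp (hP 0) (hPm 0)
    have a2 := hD.comp (hP 0) (hPm 0)
    have a3 := hD.comp (hP (-1)) (hPm (-1))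
    exact a1.sub ((a2.sub a3).div_const _)
  have han := hd.analyticOnNhd hUo
  have h0 : (0 : ℂ) ∈ U := by simpa [hU] using hc0
  have hfr : ∃ᶠ z in 𝓝[≠] (0 : ℂ),
      el L x (cbZ F x q y z (-1)) (cbZ F x q y z 0) (cbZ F x q y z 1) = 0 := by
    have ht : Tendsto (fun s : ℝ => (s : ℂ)) (𝓝[≠] (0 : ℝ)) (𝓝[≠] (0 : ℂ)) := by
      refine tendsto_nhdsWithin_iff.2 ⟨?_, ?_⟩
      · have h := (Complex.continuous_ofReal.tendsto (0 : ℝ)).mono_left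
          (nhdsWithin_le_nhds (s := {(0 : ℝ)}ᶜ))
        simpa using h
      · filter_upwards [self_mem_nhdsWithin] with s hs
        simpa using hs
    exact ht.frequently (Frequently.of_forall hre)
  have hz0 := han.eqOn_zero_of_preconnected_of_frequently_eq_zero hUc.isPreconnected h0 hfr
  exact hz0 ht

end

/-! ### The theorem -/

lemma cb_arith {M' C₀ C δ ε q x : ℝ} (hM'0 : 0 ≤ M') (hC0 : 0 < C₀) (hδ : 0 < δ) (hδ1 : δ ≤ 1)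
    (hq1 : 1 ≤ q) (hx0 : x ≠ 0) (hqxa : 1 ≤ q * |x|) (hC : 2 * C₀ + 216 * M' * C₀ ^ 2 ≤ C) :
    q * (2 * (C₀ * q ^ 2 * ε * (ε / δ)) +
      2 * (M' * (6 * q * (C₀ * q ^ 2 * ε)) ^ 2 * (1 + 2 / |x|))) ≤ C * q ^ 8 * ε ^ 2 / δ := by
  have hq0 : 0 < q := by linarith
  have hx' : 0 < |x| := abs_pos.2 hx0
  have h1 : 1 + 2 / |x| ≤ 3 * q := by
    have h2 : 2 / |x| ≤ 2 * q := by
      rw [div_le_iff₀ hx']
      calc (2 : ℝ) = 2 * 1 := by ring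
        _ ≤ 2 * (q * |x|) := by gcongr
        _ = 2 * q * |x| := by ring
    linarith
  have h3 : M' * (6 * q * (C₀ * q ^ 2 * ε)) ^ 2 * (1 + 2 / |x|) ≤
      M' * (6 * q * (C₀ * q ^ 2 * ε)) ^ 2 * (3 * q) := by gcongr
  have h4 : M' * (6 * q * (C₀ * q ^ 2 * ε)) ^ 2 * (3 * q) =
      108 * M' * C₀ ^ 2 * q ^ 7 * ε ^ 2 := by ring
  have h5 : ε ^ 2 ≤ ε ^ 2 / δ := by
    rw [le_div_iff₀ hδ]
    exact mul_le_of_le_one_right (sq_nonneg ε) hδ1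
  have h6 : q ^ 3 ≤ q ^ 8 := pow_le_pow_right₀ hq1 (by norm_num)
  have h7 : 0 ≤ ε ^ 2 / δ := by positivity
  rw [h4] at h3
  calc q * (2 * (C₀ * q ^ 2 * ε * (ε / δ)) +
        2 * (M' * (6 * q * (C₀ * q ^ 2 * ε)) ^ 2 * (1 + 2 / |x|)))
      ≤ q * (2 * (C₀ * q ^ 2 * ε * (ε / δ)) + 2 * (108 * M' * C₀ ^ 2 * q ^ 7 * ε ^ 2)) := by
        gcongr
    _ = 2 * C₀ * q ^ 3 * (ε ^ 2 / δ) + 216 * M' * C₀ ^ 2 * q ^ 8 * ε ^ 2 := by ring
    _ ≤ 2 * C₀ * q ^ 8 * (ε ^ 2 / δ) + 216 * M' * C₀ ^ 2 * q ^ 8 * (ε ^ 2 / δ) := by gcongr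
    _ = (2 * C₀ + 216 * M' * C₀ ^ 2) * q ^ 8 * (ε ^ 2 / δ) := by ring
    _ ≤ C * q ^ 8 * (ε ^ 2 / δ) := by gcongr
    _ = C * q ^ 8 * ε ^ 2 / δ := by ring

theorem chain_sum {L : ℂ × ℂ × ℂ → ℂ} {k1 : ℂ} {b M : ℝ} (hL : Lag L k1 b M)
    (hH : Closing L b) :
    ∃ (κ₀ C : ℝ), 0 < κ₀ ∧ κ₀ ≤ b / 16 ∧ 1 ≤ C ∧ ∀ (c r c' δ ε : ℝ) (F : ℂ × ℂ → ℂ) (q : ℕ)
    (k : ℤ), 0 < δ → δ ≤ 1 → 0 < c' → c' + δ ≤ c → c ≤ b / 16 → r ≤ κ₀ → GF c r κ₀ F → 0 ≤ ε →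
    (∀ p ∈ Dm {-1, 0, 1} c r, ‖EL L F p‖ ≤ ε) → 0 < q → k ≠ 0 → |(k / q : ℝ)| < r →
    C * q ^ 7 * ε ≤ δ →
    ∀ ρ : ℂ, ρ = ((k / q : ℝ) : ℂ) → ∀ t : ℂ, |t.im| < c' →
      ‖∑ j ∈ Finset.range q, dt F (t + j * ρ, ρ) * EL L F (t + j * ρ, ρ)‖ ≤
        C * q ^ 8 * ε ^ 2 / δ := by
  obtain ⟨κ₀, C₀, hκ0, hκb, hC0, hdir⟩ := chain_dirichlet hL
  obtain ⟨M', hM', -, hB⟩ := lag_bounds hL
  have hb := hL.b0
  have hM'0 : 0 ≤ M' := by linarith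
  have hC0' : 0 < C₀ := by linarith
  refine ⟨κ₀, 16 * C₀ / b + 2 * C₀ + 216 * M' * C₀ ^ 2, hκ0, hκb, ?_, ?_⟩
  · have h1 : 0 ≤ 16 * C₀ / b := by positivity
    have h2 : 0 ≤ 216 * M' * C₀ ^ 2 := by positivity
    linarith
  intro c r c' δ ε F q k hδ hδ1 hc0 hcc hcb hrκ hF hε hE hq hk hkq hCq ρ hρ t ht
  set C := 16 * C₀ / b + 2 * C₀ + 216 * M' * C₀ ^ 2 with hC
  have hCb : 0 ≤ 16 * C₀ / b := by positivity
  have hCM : 0 ≤ 216 * M' * C₀ ^ 2 := by positivity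
  have hCC : C₀ ≤ C := by linarith
  have hC' : 0 ≤ C := by linarith
  have hq1 : (1 : ℝ) ≤ q := by exact_mod_cast hq
  have hq0 : (0 : ℝ) < q := by linarith
  obtain ⟨y, hyd, hy0, hyq, hyb, hyr, hyel⟩ := hdir c r c' δ ε F q k hδ hδ1 hcc hcb hrκ hF hε hE
    hq hk hkq ((by gcongr : C₀ * q ^ 7 * ε ≤ C * q ^ 7 * ε).trans hCq) ρ hρ
  set x : ℝ := (k : ℝ) / q with hxdef
  have hk0 : (k : ℝ) ≠ 0 := by exact_mod_cast hk
  have hx0 : x ≠ 0 := div_ne_zero hk0 hq0.ne'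
  have hqx : (q : ℝ) * x = k := by rw [hxdef]; field_simp
  have hx : |x| < r := hkq
  have hqxa : 1 ≤ (q : ℝ) * |x| := by
    have h1 : (1 : ℝ) ≤ |(k : ℝ)| := by exact_mod_cast Int.one_le_abs hk
    have h2 : (q : ℝ) * |x| = |(k : ℝ)| := by
      rw [← hqx, abs_mul, abs_of_pos hq0]
    rw [h2]
    exact h1
  subst hρ
  have hrb : r ≤ b / 16 := hrκ.trans hκb
  have hc'c : c' ≤ c := by linarith
  set η := C₀ * q ^ 2 * ε with hη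
  have hη0 : 0 ≤ η := by positivity
  have h4 : 4 * q * η ≤ b / 4 := by
    have h5 : 16 * C₀ / b * q ^ 3 * ε ≤ 1 := by
      calc 16 * C₀ / b * q ^ 3 * ε ≤ C * q ^ 7 * ε := by
            have h6 : 16 * C₀ / b ≤ C := by linarith
            have h7 : (q : ℝ) ^ 3 ≤ (q : ℝ) ^ 7 := pow_le_pow_right₀ hq1 (by norm_num)
            gcongr
        _ ≤ 1 := hCq.trans hδ1
    have h8 : 16 * C₀ / b * q ^ 3 * ε = 16 * C₀ * q ^ 3 * ε / b := by ring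
    rw [h8, div_le_one hb] at h5
    have h9 : 4 * q * η = 4 * C₀ * q ^ 3 * ε := by rw [hη]; ring
    rw [h9]
    linarith
  have hDL : ∀ s : ℂ, |s.im| < c' → ∀ j : ℤ, br F (cbP s x j) ∈ DL (b / 2) ∧
      (cbZ F x q y s j, (cbZ F x q y s (j + 1) - cbZ F x q y s j) / x, (x : ℂ)) ∈ DL (b / 2) :=
    fun s hs j => cb_DL hF hb hcb hrb hκb hL.b1 hx0 hqxa (hs.trans_le hc'c) hx hq
      (fun j hj => hyb j hj s hs) h4 j
  have hnd : ∀ s : ℂ, |s.im| < c' → ∀ j : ℤ, ¬ ((q : ℤ) ∣ j) →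
      el L x (cbZ F x q y s (j - 1)) (cbZ F x q y s j) (cbZ F x q y s (j + 1)) = 0 :=
    fun s hs j hj => cb_el_ndvd hL hF hqx (hs.trans_le hc'c) hx hq hy0 hyq
      (fun j => (hDL s hs j).2) (fun j hj => hyel j hj s hs) j hj
  have hrb' : |x| < b := by linarith
  have hcl : ∀ s : ℂ, |s.im| < c' →
      el L x (cbZ F x q y s (-1)) (cbZ F x q y s 0) (cbZ F x q y s 1) = 0 := by
    intro s hs
    refine cb_closeC hL hF hc'c hc0 hx hyd (fun t ht j => (hDL t ht j).2) ?_ hs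
    intro τ
    have hτ : |(τ : ℂ).im| < c' := by simpa using hc0
    exact cb_close hL hH hF hqx hxdef hk hrb' (hτ.trans_le hc'c) hx (by simp) hq
      (fun j hj => hyr j hj τ) (fun j => (hDL τ hτ j).2) (hnd τ hτ)
  -- one term
  set s0 : ℝ := 6 * q * η with hs0
  set B : ℝ := 2 * (η * (ε / δ)) + 2 * (M' * s0 ^ 2 * (1 + 2 / |x|)) with hBdef
  set Gs : ℤ → ℂ := fun j =>
    aa L F (cbP t x j) * ((cbY q y t (j + 1) - cbY q y t j) / x) with hGs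
  have hκ1 : κ₀ ≤ 1 := by
    have := hL.b1
    linarith
  have htc : |t.im| < c := ht.trans_le hc'c
  have hterm : ∀ j : ℕ, j < q → ‖dt F (cbP t x j) * EL L F (cbP t x j) -
      (Gs j - Gs ((j : ℤ) - 1)) / x‖ ≤ B := by
    intro j hj
    have hmem := cbP_mem {-1, 0, 1} htc hx (j : ℤ)
    have hmem' := cbP_mem {-1, 0, 1} ht hx (j : ℤ)
    have hel : el L x (cbZ F x q y t ((j : ℤ) - 1)) (cbZ F x q y t j)
        (cbZ F x q y t ((j : ℤ) + 1)) = 0 := by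
      by_cases hj0 : j = 0
      · subst hj0
        simpa using hcl t ht
      · refine hnd t ht j ?_
        intro hd
        have h1 := Int.le_of_dvd (by positivity) hd
        omega
    have hk2 : ‖dt F (cbP t x j)‖ ≤ 2 := by
      have h1 := hF.dt1 _ (cbP_mem {0} htc hx (j : ℤ))
      have h2 : ‖dt F (cbP t x j)‖ ≤ ‖dt F (cbP t x j) - 1‖ + ‖(1 : ℂ)‖ := by
        have := norm_add_le (dt F (cbP t x j) - 1) 1
        simpa using this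
      rw [norm_one] at h2
      linarith
    have h1 := cb_term (L := L) (F := F) (x := x) (t := t) (η := η) (ε := ε / δ) (s := s0)
      hM'0 hB hx0 (cbY q y t) (j : ℤ) (fun i => (hDL t ht i).1) (fun i => (hDL t ht i).2)
      (by
        intro i
        obtain ⟨a1, a2⟩ := cb_inc hF hκ1 hx0 hqxa htc hx hq (fun j hj => hyb j hj t ht) i
        have h3 : 2 * η ≤ 2 * q * η := by nlinarith
        calc _ ≤ 2 * η + 4 * q * η := add_le_add a1 a2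
          _ ≤ s0 := by rw [hs0]; linarith)
      hk2 (cbY_le hq (fun j hj => hyb j hj t ht) _) hη0
      (dt_EL hL hF hcb hrb hκb _ hmem)
      (bd_dt (EL_RP hL hF hcb hrb hκb).diff hE hδ hcc _ hmem') hel
    have hj1 : (j : ℤ) - 1 + 1 = j := by ring
    simp only [hGs, hj1]
    exact h1
  have htel : ∑ j ∈ Finset.range q, (Gs (j : ℤ) - Gs ((j : ℤ) - 1)) / (x : ℂ) = 0 := by
    rw [← Finset.sum_div]
    have h1 : ∑ j ∈ Finset.range q, (Gs (j : ℤ) - Gs ((j : ℤ) - 1)) =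
        Gs ((q : ℤ) - 1) - Gs ((0 : ℕ) - 1) := by
      rw [← Finset.sum_range_sub (fun n : ℕ => Gs ((n : ℤ) - 1)) q]
      refine Finset.sum_congr rfl fun j _ => ?_
      push_cast
      rw [add_sub_cancel_right]
    have h2 : Gs ((q : ℤ) - 1) = Gs ((0 : ℕ) - 1) := by
      have e1 : (q : ℤ) - 1 = (-1) + 1 * q := by ring
      have e2 : (-1 : ℤ) + 1 * q + 1 = 0 + 1 * q := by ring
      simp only [hGs]
      rw [e1, e2, cbY_add, cbY_add, cbP_add hqx,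
        cb_per_int (aa_RP hL hF hcb hrb hκb).toPH (cbP_mem _ htc hx (-1))]
      simp
    rw [h1, h2, sub_self, zero_div]
  have hsum : ∑ j ∈ Finset.range q, dt F (t + j * ((x : ℝ) : ℂ), ((x : ℝ) : ℂ)) *
      EL L F (t + j * ((x : ℝ) : ℂ), ((x : ℝ) : ℂ)) =
      ∑ j ∈ Finset.range q, (dt F (cbP t x j) * EL L F (cbP t x j) -
        (Gs (j : ℤ) - Gs ((j : ℤ) - 1)) / x) := by
    rw [Finset.sum_sub_distrib, htel, sub_zero]
    refine Finset.sum_congr rfl fun j _ => ?_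
    simp [cbP]
  rw [hsum]
  have hfin : (q : ℝ) * B ≤ C * q ^ 8 * ε ^ 2 / δ :=
    cb_arith hM'0 hC0' hδ hδ1 hq1 hx0 hqxa (by rw [hC]; linarith)
  refine le_trans ?_ hfin
  calc ‖∑ j ∈ Finset.range q, (dt F (cbP t x j) * EL L F (cbP t x j) -
        (Gs (j : ℤ) - Gs ((j : ℤ) - 1)) / x)‖ ≤ ∑ _j ∈ Finset.range q, B :=
        norm_sum_le_of_le _ fun j hj => hterm j (Finset.mem_range.1 hj)
    _ = q * B := by rw [Finset.sum_const, Finset.card_range, nsmul_eq_mul]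

end Pool.Agent.MP_ae5b4e_an_SM
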