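import Mathlib
import Pool.Agent.Lib.MP_ae5b4e_an_SM.Lam
import Pool.Agent.Lib.MP_ae5b4e_an_SM.OpsA
import Pool.Agent.Lib.MP_ae5b4e_an_SM.FourA
import Pool.Agent.Lib.MP_ae5b4e_an_SM.IdentA
import Pool.Agent.Lib.MP_ae5b4e_an_SM.ChainB

/-!
# MP_ae5b4e_an, project SMOOTH, module SO: the nodal values of `F_t E`
-/

noncomputable section

namespace Pool.Agent.MP_ae5b4e_an_SM

open Complex Set Filter Topology
open scoped ContDiff ComplexConjugate

variable {S S' : Finset ℤ} {c r c' r' M M' δ : ℝ} {f g : ℂ × ℂ → ℂ}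


/-- the coefficient of a chain sum at a node -/
private lemma SO_sum_coeff {h : ℂ → ℂ} {c : ℝ} (hc : 0 < c)
    (hd : DifferentiableOn ℂ h {t | -c < t.im ∧ t.im < c})
    (hp : ∀ t : ℂ, -c < t.im → t.im < c → h (t + 1) = h t) (m k : ℤ) (hm : m ≠ 0) (q : ℕ) :
    ∫ s in (0:ℝ)..1, (∑ j ∈ Finset.range q, h (s + j * ((k / m : ℝ) : ℂ))) *
        exp (-(2 * Real.pi * I * m * s)) =
      q * ∫ s in (0:ℝ)..1, h s * exp (-(2 * Real.pi * I * m * s)) := by
  have hm' : (m : ℂ) ≠ 0 := by exact_mod_cast hm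
  have him : ∀ (s : ℝ) (j : ℕ), ((s : ℂ) + j * ((k / m : ℝ) : ℂ)).im = 0 := by
    intro s j
    simp
  have hcont : ∀ j : ℕ, Continuous fun s : ℝ => h (s + j * ((k / m : ℝ) : ℂ)) := by
    intro j
    refine (hd.continuousOn).comp_continuous (by fun_prop) ?_
    intro s
    rw [Set.mem_ofPred_eq, him]
    exact ⟨by linarith, hc⟩
  have hexp : Continuous fun s : ℝ => exp (-(2 * Real.pi * I * m * (s : ℂ))) := by fun_prop
  simp_rw [Finset.sum_mul]
  rw [intervalIntegral.integral_finsetSum]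
  · have hj : ∀ j ∈ Finset.range q,
        ∫ s in (0:ℝ)..1, h (s + j * ((k / m : ℝ) : ℂ)) * exp (-(2 * Real.pi * I * m * s)) =
          ∫ s in (0:ℝ)..1, h s * exp (-(2 * Real.pi * I * m * s)) := by
      intro j _
      rw [strip_shift hd hp m (a := j * ((k / m : ℝ) : ℂ)) (by linarith) hc
        (by simpa using hc) (by simpa using hc)]
      have e : exp (2 * Real.pi * I * m * (j * ((k / m : ℝ) : ℂ))) = 1 := by
        rw [Complex.exp_eq_one_iff]
        refine ⟨j * k, ?_⟩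
        push_cast
        field_simp
      rw [e, one_mul]
    rw [Finset.sum_congr rfl hj]
    simp
  · intro j _
    exact ((hcont j).mul hexp).intervalIntegrable _ _

theorem chain {L : ℂ × ℂ × ℂ → ℂ} {k1 : ℂ} {b M : ℝ} (hL : Lag L k1 b M) (hH : Closing L b) :
    ∃ (κ₀ : ℝ) (n : ℕ), 0 < κ₀ ∧ κ₀ ≤ b / 16 ∧ ∀ (c r c' r' δ ε : ℝ) (F : ℂ × ℂ → ℂ),
    Par c r c' r' δ → c ≤ b / 16 → r ≤ κ₀ → GF c r κ₀ F → 0 ≤ ε →
    (∀ p ∈ Dm {-1, 0, 1} c r, ‖EL L F p‖ ≤ ε) →
    ∀ m k : ℤ, m ≠ 0 → k ≠ 0 → |(k / m : ℝ)| < r →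
      ‖fc (fun p => dt F p * EL L F p) m ((k / m : ℝ) : ℂ)‖ ≤
        lam n δ * ε ^ 2 * Real.exp (-(2 * Real.pi * |(m : ℝ)| * c')) := by
  obtain ⟨κ₀, C, hκ0, hκb, hC, hsum⟩ := chain_sum hL hH
  obtain ⟨n, hn⟩ := absorb (4 * C) 7 1 2 (by norm_num)
  refine ⟨κ₀, n, hκ0, hκb, ?_⟩
  intro c r c' r' δ ε F hP hcb hr hF hε hE m k hm hk hmk
  have hδ := hP.δ0
  have hδ1 := hP.δ1
  have hc := hP.c_pos
  have hc' := hP.c'_pos
  have hr0 := hP.r_pos
  have hcc := hP.cc
  have hC0 : 0 < C := by linarith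
  have hmR : (m : ℝ) ≠ 0 := by exact_mod_cast hm
  have hκ1 : κ₀ ≤ 1 := by linarith [hL.b1]
  set ρ : ℂ := ((k / m : ℝ) : ℂ) with hρ
  have hρre : ρ.re = (k / m : ℝ) := by rw [hρ, ofReal_re]
  have hρim : ρ.im = 0 := by rw [hρ, ofReal_im]
  have hmem : ∀ (S : Finset ℤ) (t : ℂ), |t.im| < c → (t, ρ) ∈ Dm S c r := by
    intro S t ht
    rw [mem_Dm]
    refine ⟨fun s _ => ?_, ?_, ?_⟩
    · rw [hρim, mul_zero, add_zero]
      exact ht
    · rw [hρre]
      exact hmk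
    · rw [hρim, abs_zero]
      exact hr0
  have hRP : RP {-1, 0, 1} c r (fun p => dt F p * EL L F p) :=
    (hF.dt_RP.mono (by simp) le_rfl le_rfl).mul (EL_RP hL hF hcb (hr.trans hκb) hκb)
  set g : ℂ → ℂ := fun t => dt F (t, ρ) * EL L F (t, ρ) with hg
  have hgd : DifferentiableOn ℂ g {t | -c < t.im ∧ t.im < c} := by
    have h1 : DifferentiableOn ℂ (fun t : ℂ => (t, ρ)) {t | -c < t.im ∧ t.im < c} := by fun_prop
    exact hRP.diff.comp h1 fun t ht => hmem _ t (abs_lt.2 ht)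
  have hgp : ∀ t : ℂ, -c < t.im → t.im < c → g (t + 1) = g t := fun t h1 h2 =>
    hRP.per (t, ρ) (hmem _ t (abs_lt.2 ⟨h1, h2⟩))
  have hgb : ∀ t : ℂ, -c < t.im → t.im < c → ‖g t‖ ≤ 2 * ε := by
    intro t h1 h2
    have h3 : ‖dt F (t, ρ)‖ ≤ 2 := by
      have h4 := hF.dt1 (t, ρ) (hmem _ t (abs_lt.2 ⟨h1, h2⟩))
      calc ‖dt F (t, ρ)‖ = ‖(dt F (t, ρ) - 1) + 1‖ := by ring_nf
        _ ≤ ‖dt F (t, ρ) - 1‖ + ‖(1 : ℂ)‖ := norm_add_le _ _
        _ ≤ 2 := by rw [norm_one]; linarith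
    have h5 := hE (t, ρ) (hmem _ t (abs_lt.2 ⟨h1, h2⟩))
    rw [hg]
    simp only [norm_mul]
    exact mul_le_mul h3 h5 (norm_nonneg _) (by norm_num)
  -- the modulus of `m` and the sign
  set q : ℕ := m.natAbs with hq
  have hq0 : 0 < q := Int.natAbs_pos.2 hm
  have hqR : (q : ℝ) = |(m : ℝ)| := by
    rw [hq, Nat.cast_natAbs, Int.cast_abs]
  have hq1 : (0:ℝ) < q := by exact_mod_cast hq0
  have hq1' : (1:ℝ) ≤ q := by exact_mod_cast hq0
  obtain ⟨k', hk', hkq⟩ : ∃ k' : ℤ, k' ≠ 0 ∧ (k' / q : ℝ) = k / m := by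
    rcases le_or_gt 0 m with h | h
    · refine ⟨k, hk, ?_⟩
      rw [hqR, abs_of_nonneg (by exact_mod_cast h)]
    · refine ⟨-k, by simpa using hk, ?_⟩
      rw [hqR, abs_of_neg (by exact_mod_cast h)]
      push_cast
      rw [neg_div_neg_eq]
  have hyy : ∀ y : ℝ, 0 ≤ y → ∃ y' : ℝ, y' ∈ Icc (-y) y ∧ (m : ℝ) * y' = -(q * y) := by
    intro y hy
    rcases le_or_gt 0 m with h | h
    · refine ⟨-y, ⟨le_rfl, by linarith⟩, ?_⟩
      rw [hqR, abs_of_nonneg (by exact_mod_cast h)]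
      ring
    · refine ⟨y, ⟨by linarith, le_rfl⟩, ?_⟩
      rw [hqR, abs_of_neg (by exact_mod_cast h)]
      ring
  have hfc : fc (fun p => dt F p * EL L F p) m ρ =
      ∫ s in (0:ℝ)..1, g s * exp (-(2 * Real.pi * I * m * s)) := rfl
  rw [hfc, ← hqR]
  -- the common bound
  have hX : (q : ℝ) ^ 7 * Real.exp (-(2 * Real.pi * q * (δ / 2))) ≤ lam 7 (δ / 2) :=
    pow_mul_exp_le 7 hq1.le (by positivity)
  have hfin : 4 * C / δ * lam 7 (δ / 2) ≤ lam n δ := by
    refine le_trans ?_ (hn δ hδ hδ1)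
    have h1 : (1:ℝ) / δ ≤ lam 1 (δ / (2 : ℕ)) := by
      have h2 : (1:ℝ) / δ ≤ 1 / (δ / (2 : ℕ)) := by
        push_cast
        rw [one_div_div]
        gcongr
        norm_num
      exact h2.trans (inv_le_lam le_rfl (by positivity) (by push_cast; linarith))
    have h3 := lam_nonneg 7 (δ := δ / (2 : ℕ)) (by positivity)
    have h4 : 4 * C / δ * lam 7 (δ / (2 : ℕ)) = 4 * C * lam 7 (δ / (2 : ℕ)) * (1 / δ) := by ring
    have h5 : (δ / 2 : ℝ) = δ / (2 : ℕ) := by norm_num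
    rw [h5, h4]
    gcongr
  have hgoal : ‖∫ s in (0:ℝ)..1, g s * exp (-(2 * Real.pi * I * m * s))‖ ≤
      4 * C / δ * ε ^ 2 * (q ^ 7 * Real.exp (-(2 * Real.pi * q * (δ / 2)))) *
        Real.exp (-(2 * Real.pi * q * c')) := by
    rcases le_or_gt (C * q ^ 7 * ε) (δ / 2) with hcase | hcase
    · -- small `ε`
      have hG : ∀ t : ℂ, |t.im| < c' + δ / 2 →
          ‖∑ j ∈ Finset.range q, g (t + j * ρ)‖ ≤ C * q ^ 8 * ε ^ 2 / (δ / 2) := by
        intro t ht
        exact hsum c r (c' + δ / 2) (δ / 2) ε F q k' (by positivity) (by linarith) (by positivity)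
          (by linarith) hcb hr hF hε hE hq0 hk' (by rw [hkq]; exact hmk) hcase ρ
          (by rw [hkq]) t ht
      have hsub : ∀ t : ℂ, |t.im| < c' + δ / 2 → |t.im| < c := fun t ht => by linarith
      have him : ∀ (t : ℂ) (j : ℕ), (t + j * ρ).im = t.im := by
        intro t j
        simp [hρim]
      have hGd : DifferentiableOn ℂ (fun t => ∑ j ∈ Finset.range q, g (t + j * ρ))
          {t | -(c' + δ / 2) < t.im ∧ t.im < c' + δ / 2} := by
        refine DifferentiableOn.fun_sum fun j _ => ?_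
        refine hgd.comp (f := fun t : ℂ => t + j * ρ) (by fun_prop) ?_
        intro t ht
        rw [Set.mem_ofPred_eq, him]
        exact abs_lt.1 (hsub t (abs_lt.2 ht))
      have hGp : ∀ t : ℂ, -(c' + δ / 2) < t.im → t.im < c' + δ / 2 →
          (fun t => ∑ j ∈ Finset.range q, g (t + j * ρ)) (t + 1) =
            (fun t => ∑ j ∈ Finset.range q, g (t + j * ρ)) t := by
        intro t h1 h2
        refine Finset.sum_congr rfl fun j _ => ?_
        have h3 := abs_lt.1 (hsub t (abs_lt.2 ⟨h1, h2⟩))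
        have h4 := hgp (t + j * ρ) (by rw [him]; exact h3.1) (by rw [him]; exact h3.2)
        rw [← h4]
        congr 1
        ring
      obtain ⟨y, hy, hmy⟩ := hyy (c' + δ / 2) (by positivity)
      have hB := strip_coeff (by linarith) (by positivity) hGd hGp
        (fun t h1 h2 => hG t (abs_lt.2 ⟨h1, h2⟩)) m hy

      have hS := SO_sum_coeff hc hgd hgp m k hm q
      rw [← hρ] at hS
      rw [hS, norm_mul, norm_natCast] at hB
      have e1 : 2 * Real.pi * m * y = -(2 * Real.pi * q * (δ / 2)) + -(2 * Real.pi * q * c') := by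
        have : 2 * Real.pi * m * y = 2 * Real.pi * (m * y) := by ring
        rw [this, hmy]
        ring
      rw [e1, Real.exp_add] at hB
      have hB2 : ‖∫ s in (0:ℝ)..1, g s * exp (-(2 * Real.pi * I * m * s))‖ ≤
          (C * q ^ 8 * ε ^ 2 / (δ / 2) * (Real.exp (-(2 * Real.pi * q * (δ / 2))) *
            Real.exp (-(2 * Real.pi * q * c')))) / q := by
        rw [le_div_iff₀ hq1, mul_comm]
        exact hB
      refine hB2.trans (le_trans (le_of_eq ?_) (mul_le_mul_of_nonneg_right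
        (mul_le_mul_of_nonneg_right (mul_le_mul_of_nonneg_right
        (show 2 * C / δ ≤ 4 * C / δ by gcongr; norm_num) (sq_nonneg ε)) (by positivity))
        (Real.exp_pos _).le))
      field_simp
    · -- large `ε`
      obtain ⟨y, hy, hmy⟩ := hyy c hc.le
      have hB := strip_coeff (by linarith) hc hgd hgp hgb m hy
      have e1 : 2 * Real.pi * m * y ≤ -(2 * Real.pi * q * (δ / 2)) + -(2 * Real.pi * q * c') := by
        have h1 : 2 * Real.pi * m * y = 2 * Real.pi * (m * y) := by ring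
        rw [h1, hmy]
        have h2 : c' + δ / 2 ≤ c := by linarith
        have h3 : 2 * Real.pi * q * (c' + δ / 2) ≤ 2 * Real.pi * q * c := by
          have := Real.pi_pos
          gcongr
        linarith
      have h4 : 1 ≤ 2 * C / δ * q ^ 7 * ε := by
        have h5 : 2 * C / δ * q ^ 7 * ε = (C * q ^ 7 * ε) / (δ / 2) := by
          field_simp
        rw [h5, le_div_iff₀ (by positivity)]
        linarith
      calc ‖∫ s in (0:ℝ)..1, g s * exp (-(2 * Real.pi * I * m * s))‖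
          ≤ 2 * ε * Real.exp (2 * Real.pi * m * y) := hB
        _ ≤ 2 * ε * (Real.exp (-(2 * Real.pi * q * (δ / 2))) *
            Real.exp (-(2 * Real.pi * q * c'))) := by
            rw [← Real.exp_add]
            gcongr
        _ = 1 * (2 * ε * (Real.exp (-(2 * Real.pi * q * (δ / 2))) *
            Real.exp (-(2 * Real.pi * q * c')))) := by ring
        _ ≤ (2 * C / δ * q ^ 7 * ε) * (2 * ε * (Real.exp (-(2 * Real.pi * q * (δ / 2))) *
            Real.exp (-(2 * Real.pi * q * c')))) := by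
            gcongr
        _ = _ := by ring
  refine hgoal.trans ?_
  have h6 : 4 * C / δ * ε ^ 2 * (q ^ 7 * Real.exp (-(2 * Real.pi * q * (δ / 2)))) ≤
      lam n δ * ε ^ 2 := by
    calc 4 * C / δ * ε ^ 2 * (q ^ 7 * Real.exp (-(2 * Real.pi * q * (δ / 2))))
        ≤ 4 * C / δ * ε ^ 2 * lam 7 (δ / 2) := by gcongr
      _ = 4 * C / δ * lam 7 (δ / 2) * ε ^ 2 := by ring
      _ ≤ _ := by gcongr
  exact mul_le_mul_of_nonneg_right h6 (Real.exp_pos _).le

end Pool.Agent.MP_ae5b4e_an_SM
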