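import Mathlib
import Pool.Agent.Lib.MP_ae5b4e_an_SM.Defs
import Pool.Agent.Lib.MP_ae5b4e_an_SM.Lam
import Pool.Agent.Lib.SCV.Osgood

/-!
# MP_ae5b4e_an, project SMOOTH: synthesis and uniqueness of Fourier series
-/

noncomputable section

namespace Pool.Agent.MP_ae5b4e_an_SM

open Complex Set Filter Topology
open scoped ContDiff ComplexConjugate

variable {S S' : Finset ℤ} {c r c' r' M M' δ : ℝ} {f g : ℂ × ℂ → ℂ}

/-- the sum of a Fourier series -/
def fsum (b : ℤ → ℂ → ℂ) (p : ℂ × ℂ) : ℂ := ∑' m : ℤ, b m p.2 * exp (2 * Real.pi * I * m * p.1)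

private lemma mem_real (hS : Sml S) (hr : r ≤ c) (x : ℝ) {ρ : ℂ} (hρ : ρ ∈ Rq r) :
    ((x : ℂ), ρ) ∈ Dm S c r := by
  rw [mem_Dm]
  refine ⟨fun s hs => ?_, hρ⟩
  have h1 : |(s : ℝ)| ≤ 1 := by exact_mod_cast hS.le s hs
  have h2 : |ρ.im| < r := hρ.2
  simp only [ofReal_im, zero_add]
  rw [abs_mul]
  have h3 : |(s : ℝ)| * |ρ.im| ≤ 1 * |ρ.im| := by gcongr
  linarith

private lemma norm_exp_mul (m : ℤ) (z : ℂ) :
    ‖exp (2 * Real.pi * I * m * z)‖ ≤ Real.exp (2 * Real.pi * |(m : ℝ)| * |z.im|) := by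
  rw [norm_exp]
  have h : (2 * Real.pi * I * m * z).re = -(2 * Real.pi * (m * z.im)) := by
    simp [mul_re, mul_im]
    ring
  rw [h, Real.exp_le_exp]
  have h2 : -(m * z.im) ≤ |(m : ℝ)| * |z.im| := by
    rw [← abs_mul]
    exact neg_le_abs _
  nlinarith [Real.pi_pos]

private lemma card_le (hS : Sml S) : (S.card : ℝ) ≤ 3 := by
  have h : S ⊆ Finset.Icc (-1) 1 := by
    intro s hs
    have := abs_le.1 (hS.le s hs)
    simp only [Finset.mem_Icc]
    exact this
  have h2 := Finset.card_le_card h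
  have h3 : (Finset.Icc (-1 : ℤ) 1).card = 3 := by decide
  rw [h3] at h2
  exact_mod_cast h2

private lemma nonneg_of_bd {b : ℤ → ℂ → ℂ} (hS : Sml S) (hr : 0 < r)
    (hb : ∀ m, ∀ ρ ∈ Rq r, ‖b m ρ‖ ≤ M * Real.exp (-(2 * Real.pi * |(m : ℝ)| * c)) * Wt S m ρ) :
    0 ≤ M := by
  have h0 : (0 : ℂ) ∈ Rq r := by simp [Rq, hr]
  have h := hb 0 0 h0
  have h1 : Wt S 0 0 = S.card := by simp [Wt]
  rw [h1] at h
  have h2 : (0 : ℝ) < S.card := by
    exact_mod_cast Finset.card_pos.2 hS.ne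
  have h3 : 0 ≤ M * S.card := by
    have := (norm_nonneg _).trans h
    simpa using this
  by_contra hM
  push Not at hM
  nlinarith

/-- the term bound -/
private lemma term_bd {b : ℤ → ℂ → ℂ} (hS : Sml S) (hM : 0 ≤ M) (hc : c' + δ ≤ c)
    (hb : ∀ m, ∀ ρ ∈ Rq r, ‖b m ρ‖ ≤ M * Real.exp (-(2 * Real.pi * |(m : ℝ)| * c)) * Wt S m ρ)
    (m : ℤ) {p : ℂ × ℂ} (hp : p ∈ Dm S c' r) :
    ‖b m p.2 * exp (2 * Real.pi * I * m * p.1)‖ ≤
      3 * M * Real.exp (-(2 * Real.pi * |(m : ℝ)| * δ)) := by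
  rw [norm_mul]
  have h1 := hb m p.2 hp.2
  have h2 : Wt S m p.2 * ‖exp (2 * Real.pi * I * m * p.1)‖ ≤
      3 * Real.exp (2 * Real.pi * |(m : ℝ)| * c') := by
    unfold Wt
    rw [Finset.sum_mul]
    calc ∑ s ∈ S, ‖exp (2 * Real.pi * I * m * s * p.2)‖ * ‖exp (2 * Real.pi * I * m * p.1)‖
        ≤ ∑ s ∈ S, Real.exp (2 * Real.pi * |(m : ℝ)| * c') := by
          refine Finset.sum_le_sum fun s hs => ?_
          rw [← norm_mul, ← Complex.exp_add]
          have e : 2 * Real.pi * I * m * s * p.2 + 2 * Real.pi * I * m * p.1 =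
              2 * Real.pi * I * m * (p.1 + s * p.2) := by ring
          rw [e]
          refine (norm_exp_mul m _).trans ?_
          rw [Real.exp_le_exp]
          have := (hp.1 s hs).le
          have := Real.pi_pos
          gcongr
      _ = S.card * Real.exp (2 * Real.pi * |(m : ℝ)| * c') := by
          rw [Finset.sum_const, nsmul_eq_mul]
      _ ≤ _ := by
          have := card_le hS
          gcongr
  calc ‖b m p.2‖ * ‖exp (2 * Real.pi * I * m * p.1)‖
      ≤ (M * Real.exp (-(2 * Real.pi * |(m : ℝ)| * c)) * Wt S m p.2) *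
          ‖exp (2 * Real.pi * I * m * p.1)‖ := by gcongr
    _ = M * Real.exp (-(2 * Real.pi * |(m : ℝ)| * c)) *
          (Wt S m p.2 * ‖exp (2 * Real.pi * I * m * p.1)‖) := by ring
    _ ≤ M * Real.exp (-(2 * Real.pi * |(m : ℝ)| * c)) *
          (3 * Real.exp (2 * Real.pi * |(m : ℝ)| * c')) := by gcongr
    _ = 3 * M * (Real.exp (-(2 * Real.pi * |(m : ℝ)| * c)) *
          Real.exp (2 * Real.pi * |(m : ℝ)| * c')) := by ring
    _ ≤ 3 * M * Real.exp (-(2 * Real.pi * |(m : ℝ)| * δ)) := by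
          rw [← Real.exp_add]
          have h3 : -(2 * Real.pi * |(m : ℝ)| * c) + 2 * Real.pi * |(m : ℝ)| * c' ≤
              -(2 * Real.pi * |(m : ℝ)| * δ) := by
            have h4 : 0 ≤ 2 * Real.pi * |(m : ℝ)| := by positivity
            nlinarith
          gcongr

private lemma geo (hδ : 0 < δ) (hδ1 : δ ≤ 1) :
    Summable (fun m : ℤ => Real.exp (-(2 * Real.pi * |(m : ℝ)| * δ))) ∧
      ∑' m : ℤ, Real.exp (-(2 * Real.pi * |(m : ℝ)| * δ)) ≤ 4 / δ := by
  set q : ℝ := Real.exp (-(2 * Real.pi * δ)) with hq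
  have hq0 : 0 ≤ q := (Real.exp_pos _).le
  have hpos : 0 < 2 * Real.pi * δ := by have := Real.pi_pos; positivity
  have hq1 : q < 1 := by
    rw [hq, Real.exp_lt_one_iff]
    linarith
  have e1 : ∀ n : ℕ, Real.exp (-(2 * Real.pi * |((n : ℤ) : ℝ)| * δ)) = q ^ n := by
    intro n
    rw [hq, ← Real.exp_nat_mul]
    congr 1
    have : |((n : ℤ) : ℝ)| = n := by simp
    rw [this]
    ring
  have e2 : ∀ n : ℕ, Real.exp (-(2 * Real.pi * |((-((n : ℤ) + 1) : ℤ) : ℝ)| * δ)) = q ^ n * q := by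
    intro n
    rw [← pow_succ, hq, ← Real.exp_nat_mul]
    congr 1
    have : |((-((n : ℤ) + 1) : ℤ) : ℝ)| = n + 1 := by
      push_cast
      rw [abs_neg, abs_of_nonneg (by positivity)]
    rw [this]
    push_cast
    ring
  have s1 : Summable (fun n : ℕ => Real.exp (-(2 * Real.pi * |((n : ℤ) : ℝ)| * δ))) := by
    simp_rw [e1]
    exact summable_geometric_of_lt_one hq0 hq1
  have s2 : Summable (fun n : ℕ => Real.exp (-(2 * Real.pi * |((-((n : ℤ) + 1) : ℤ) : ℝ)| * δ))) := by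
    simp_rw [e2]
    exact (summable_geometric_of_lt_one hq0 hq1).mul_right q
  refine ⟨Summable.of_nat_of_neg_add_one s1 s2, ?_⟩
  refine (tsum_of_nat_of_neg_add_one
    (f := fun m : ℤ => Real.exp (-(2 * Real.pi * |(m : ℝ)| * δ))) s1 s2).le.trans ?_
  simp_rw [e1, e2]
  rw [tsum_mul_right, tsum_geometric_of_lt_one hq0 hq1]
  have h1q : 0 < 1 - q := by linarith
  -- `1 - q ≥ δ / 2`
  have h3 : δ / 2 ≤ 1 - q := by
    have h4 : q ≤ Real.exp (-δ) := by
      rw [hq, Real.exp_le_exp]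
      have := Real.pi_gt_three
      nlinarith
    have h5 : Real.exp (-δ) ≤ 1 - δ / 2 := by
      have h6 := Real.add_one_le_exp δ
      rw [Real.exp_neg]
      rw [inv_le_iff_one_le_mul₀ (Real.exp_pos _)]
      nlinarith
    linarith
  have h7 : (1 - q)⁻¹ + (1 - q)⁻¹ * q ≤ 2 * (1 - q)⁻¹ := by
    have : 0 < (1 - q)⁻¹ := inv_pos.2 h1q
    nlinarith
  have h8 : (1 - q)⁻¹ ≤ 2 / δ := by
    rw [inv_le_comm₀ h1q (by positivity)]
    rw [inv_div]
    exact h3
  calc (1 - q)⁻¹ + (1 - q)⁻¹ * q ≤ 2 * (1 - q)⁻¹ := h7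
    _ ≤ 2 * (2 / δ) := by gcongr
    _ = 4 / δ := by ring

theorem synth : ∃ n : ℕ, ∀ (S : Finset ℤ) (c c' r M δ : ℝ) (b : ℤ → ℂ → ℂ), Sml S → 0 < δ →
    δ ≤ 1 → c' + δ ≤ c → 0 < r → r ≤ c' → (∀ m, DifferentiableOn ℂ (b m) (Rq r)) →
    (∀ m, ∀ ρ ∈ Rq r, ‖b m ρ‖ ≤ M * Real.exp (-(2 * Real.pi * |(m : ℝ)| * c)) * Wt S m ρ) →
    HP S c' r (fsum b) (lam n δ * M) ∧ ∀ m, ∀ ρ ∈ Rq r, fc (fsum b) m ρ = b m ρ := by
  refine ⟨12, ?_⟩
  intro S c c' r M δ b hS hδ hδ1 hc hr hrc hbd hb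
  have hM : 0 ≤ M := nonneg_of_bd hS hr hb
  obtain ⟨hsum, hts⟩ := geo hδ hδ1
  have hu : Summable (fun m : ℤ => 3 * M * Real.exp (-(2 * Real.pi * |(m : ℝ)| * δ))) :=
    hsum.mul_left _
  have hT := fun m => fun (p : ℂ × ℂ) (hp : p ∈ Dm S c' r) => term_bd hS hM hc hb m hp
  -- the terms are analytic
  have hdT : ∀ m : ℤ, DifferentiableOn ℂ
      (fun p : ℂ × ℂ => b m p.2 * exp (2 * Real.pi * I * m * p.1)) (Dm S c' r) := by
    intro m
    refine DifferentiableOn.mul ?_ ?_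
    · exact (hbd m).comp differentiable_snd.differentiableOn (fun p hp => hp.2)
    · exact (Differentiable.differentiableOn (by fun_prop))
  have han : AnalyticOnNhd ℂ (fsum b) (Dm S c' r) := by
    refine Pool.Agent.SCV.analyticOnNhd_of_tendstoLocallyUniformlyOn (l := atTop)
      (Dm S c' r) (isOpen_Dm S c' r)
      (fun (F : Finset ℤ) (p : ℂ × ℂ) => ∑ m ∈ F, b m p.2 * exp (2 * Real.pi * I * m * p.1))
      (fsum b) ?_ ?_
    · intro F
      refine Pool.Agent.SCV.differentiableOn_analyticOnNhd _ (isOpen_Dm S c' r) _ ?_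
      exact DifferentiableOn.fun_sum fun m _ => hdT m
    · exact (tendstoUniformlyOn_tsum hu hT).tendstoLocallyUniformlyOn
  refine ⟨⟨⟨han.differentiableOn, ?_⟩, ?_⟩, ?_⟩
  · intro p _
    unfold fsum
    congr 1
    ext m
    congr 1
    have e : 2 * Real.pi * I * m * (p.1 + 1) = 2 * Real.pi * I * m * p.1 + m * (2 * Real.pi * I) := by
      ring
    show exp (2 * Real.pi * I * m * (p.1 + 1)) = _
    rw [e, Complex.exp_add, exp_int_mul_two_pi_mul_I, mul_one]
  · intro p hp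
    have h1 : ‖fsum b p‖ ≤ ∑' m : ℤ, 3 * M * Real.exp (-(2 * Real.pi * |(m : ℝ)| * δ)) :=
      tsum_of_norm_bounded hu.hasSum fun m => hT m p hp
    rw [tsum_mul_left] at h1
    have h2 : (12 : ℝ) / δ ≤ lam 12 δ := by
      unfold lam
      have h3 : (1 : ℝ) ≤ (12 : ℕ) / δ := one_le_div_lam hδ hδ1 (by norm_num)
      calc (12 : ℝ) / δ = ((12 : ℕ) / δ) ^ 1 := by norm_num
        _ ≤ _ := pow_le_pow_right₀ h3 (by norm_num)
    calc ‖fsum b p‖ ≤ 3 * M * ∑' m : ℤ, Real.exp (-(2 * Real.pi * |(m : ℝ)| * δ)) := h1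
      _ ≤ 3 * M * (4 / δ) := by gcongr
      _ = 12 / δ * M := by ring
      _ ≤ lam 12 δ * M := by gcongr
  · intro m ρ hρ
    have hreal : ∀ x : ℝ, ((x : ℂ), ρ) ∈ Dm S c' r := fun x => mem_real hS hrc x hρ
    have h1 : HasSum (fun k : ℤ => ∫ s in (0:ℝ)..1, (b k ρ * exp (2 * Real.pi * I * k * s)) *
        exp (-(2 * Real.pi * I * m * s)))
        (∫ s in (0:ℝ)..1, fsum b ((s : ℂ), ρ) * exp (-(2 * Real.pi * I * m * s))) := by
      refine intervalIntegral.hasSum_integral_of_dominated_convergence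
        (fun k _ => 3 * M * Real.exp (-(2 * Real.pi * |(k : ℝ)| * δ))) ?_ ?_ ?_ ?_ ?_
      · intro k
        refine Continuous.aestronglyMeasurable ?_
        fun_prop
      · intro k
        refine Filter.Eventually.of_forall fun t _ => ?_
        rw [norm_mul]
        have h2 : ‖exp (-(2 * Real.pi * I * m * (t : ℂ)))‖ = 1 := by
          rw [norm_exp]
          simp
        rw [h2, mul_one]
        exact hT k ((t : ℂ), ρ) (hreal t)
      · exact Filter.Eventually.of_forall fun t _ => hu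
      · exact intervalIntegrable_const
      · refine Filter.Eventually.of_forall fun t _ => ?_
        refine HasSum.mul_right _ ?_
        have h3 : Summable (fun k : ℤ => b k ρ * exp (2 * Real.pi * I * k * (t : ℂ))) :=
          Summable.of_norm_bounded hu fun k => hT k ((t : ℂ), ρ) (hreal t)
        exact h3.hasSum
    have h2 : ∀ k : ℤ, (∫ s in (0:ℝ)..1, (b k ρ * exp (2 * Real.pi * I * k * s)) *
        exp (-(2 * Real.pi * I * m * s))) = if k = m then b m ρ else 0 := by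
      intro k
      have e : ∀ s : ℝ, (b k ρ * exp (2 * Real.pi * I * k * s)) *
          exp (-(2 * Real.pi * I * m * s)) =
          b k ρ * exp ((2 * Real.pi * I * (k - m)) * s) := by
        intro s
        rw [mul_assoc, ← Complex.exp_add]
        congr 2
        ring
      simp_rw [e]
      rw [intervalIntegral.integral_const_mul]
      split_ifs with hkm
      · subst hkm
        simp
      · have hne : (2 * Real.pi * I * ((k : ℂ) - m)) ≠ 0 := by
          have h4 : ((k : ℂ) - m) ≠ 0 := by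
            rw [sub_ne_zero]
            exact_mod_cast hkm
          have h5 : (2 * Real.pi * I : ℂ) ≠ 0 := two_pi_I_ne_zero
          exact mul_ne_zero h5 h4
        rw [integral_exp_mul_complex hne]
        have e2 : exp (2 * Real.pi * I * ((k : ℂ) - m) * ((1 : ℝ) : ℂ)) = 1 := by
          have : (2 * Real.pi * I * ((k : ℂ) - m) * ((1 : ℝ) : ℂ)) =
              ((k - m : ℤ) : ℂ) * (2 * Real.pi * I) := by
            push_cast
            ring
          rw [this, exp_int_mul_two_pi_mul_I]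
        rw [e2]
        simp
    simp_rw [h2] at h1
    unfold fc
    exact h1.unique (hasSum_ite_eq m (b m ρ))

/-- a continuous function of period one all of whose Fourier coefficients vanish is zero -/
private lemma eq_zero_of_coeff {F : ℝ → ℂ} (hF : Continuous F) (hp : ∀ x, F (x + 1) = F x)
    (h0 : ∀ m : ℤ, ∫ s in (0:ℝ)..1, F s * exp (-(2 * Real.pi * I * m * s)) = 0) (x : ℝ) :
    F x = 0 := by
  have hper : Function.Periodic F (1 : ℝ) := hp
  have : Fact ((0 : ℝ) < 1) := ⟨one_pos⟩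
  have hc : Continuous (hper.lift : AddCircle (1 : ℝ) → ℂ) := by
    refine continuous_coinduced_dom.2 ?_
    exact hF
  set G : C(AddCircle (1 : ℝ), ℂ) := ⟨hper.lift, hc⟩ with hG
  have hcoe : ∀ y : ℝ, G (y : AddCircle (1 : ℝ)) = F y := fun y => hper.lift_coe y
  have hcf : ∀ m : ℤ, fourierCoeff G m = 0 := by
    intro m
    rw [fourierCoeff_eq_intervalIntegral G m 0]
    have e : ∀ y : ℝ, (fourier (-m) : AddCircle (1 : ℝ) → ℂ) (y : AddCircle (1 : ℝ)) •
        G (y : AddCircle (1 : ℝ)) = F y * exp (-(2 * Real.pi * I * m * y)) := by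
      intro y
      rw [hcoe, fourier_coe_apply, smul_eq_mul, mul_comm]
      congr 2
      push_cast
      ring
    simp_rw [e]
    rw [zero_add, h0 m, smul_zero]
  have hs : Summable (fourierCoeff G) := by
    have : (fourierCoeff G : ℤ → ℂ) = fun _ => 0 := funext hcf
    rw [this]
    exact summable_zero
  have h1 := has_pointwise_sum_fourier_series_of_summable hs (x : AddCircle (1 : ℝ))
  simp_rw [hcf, zero_smul] at h1
  rw [hcoe] at h1
  exact h1.unique hasSum_zero

theorem fc_unique (h : PH S c r f) (h' : PH S c r g) (hS : Sml S) (hr : r ≤ c)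
    (hfg : ∀ m, ∀ ρ ∈ Rq r, fc f m ρ = fc g m ρ) : ∀ p ∈ Dm S c r, f p = g p := by
  rintro ⟨t, ρ⟩ hp
  have hρ : ρ ∈ Rq r := hp.2
  have hreal : ∀ x : ℝ, ((x : ℂ), ρ) ∈ Dm S c r := fun x => mem_real hS hr x hρ
  have hpair : Continuous (fun x : ℝ => ((x : ℂ), ρ)) := by fun_prop
  have hcf : Continuous (fun x : ℝ => f ((x : ℂ), ρ)) :=
    h.diff.continuousOn.comp_continuous hpair hreal
  have hcg : Continuous (fun x : ℝ => g ((x : ℂ), ρ)) :=
    h'.diff.continuousOn.comp_continuous hpair hreal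
  have hz : ∀ x : ℝ, f ((x : ℂ), ρ) - g ((x : ℂ), ρ) = 0 := by
    refine eq_zero_of_coeff (F := fun x : ℝ => f ((x : ℂ), ρ) - g ((x : ℂ), ρ))
      (hcf.sub hcg) ?_ ?_
    · intro x
      have h1 := h.per ((x : ℂ), ρ) (hreal x)
      have h2 := h'.per ((x : ℂ), ρ) (hreal x)
      simp only at h1 h2
      push_cast
      rw [h1, h2]
    · intro m
      have h1 := hfg m ρ hρ
      unfold fc at h1
      simp_rw [sub_mul]
      rw [intervalIntegral.integral_sub, h1, sub_self]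
      · exact Continuous.intervalIntegrable (hcf.mul (by fun_prop)) _ _
      · exact Continuous.intervalIntegrable (hcg.mul (by fun_prop)) _ _
  -- the identity theorem
  set U : Set ℂ := {z | (z, ρ) ∈ Dm S c r} with hU
  have hUo : IsOpen U := (isOpen_Dm S c r).preimage (by fun_prop : Continuous fun z : ℂ => (z, ρ))
  have hUc : IsPreconnected U := by
    refine Convex.isPreconnected ?_
    intro x hx y hy a b ha hb hab
    have h1 := convex_Dm S c r hx hy ha hb hab
    have e : a • (x, ρ) + b • (y, ρ) = (a • x + b • y, ρ) := by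
      ext1
      · simp
      · simp only [Prod.snd_add, Prod.smul_snd]
        rw [← add_smul, hab, one_smul]
    rw [e] at h1
    exact h1
  have hdf : DifferentiableOn ℂ (fun z : ℂ => f (z, ρ)) U :=
    h.diff.comp (by fun_prop) (fun z hz => hz)
  have hdg : DifferentiableOn ℂ (fun z : ℂ => g (z, ρ)) U :=
    h'.diff.comp (by fun_prop) (fun z hz => hz)
  have h0 : (0 : ℂ) ∈ U := by
    have h1 := hreal 0
    rw [ofReal_zero] at h1
    exact h1
  have hfr : ∃ᶠ z in 𝓝[≠] (0 : ℂ), f (z, ρ) = g (z, ρ) := by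
    have ht : Tendsto (fun x : ℝ => (x : ℂ)) (𝓝[≠] (0 : ℝ)) (𝓝[≠] (0 : ℂ)) := by
      refine tendsto_nhdsWithin_iff.2 ⟨?_, ?_⟩
      · have := (continuous_ofReal.tendsto (0 : ℝ))
        rw [ofReal_zero] at this
        exact this.mono_left nhdsWithin_le_nhds
      · filter_upwards [self_mem_nhdsWithin] with x hx
        simpa using hx
    refine ht.frequently (Filter.Eventually.frequently ?_)
    exact Filter.Eventually.of_forall fun x => sub_eq_zero.1 (hz x)
  exact AnalyticOnNhd.eqOn_of_preconnected_of_frequently_eq (hdf.analyticOnNhd hUo)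
    (hdg.analyticOnNhd hUo) hUc h0 hfr hp

end Pool.Agent.MP_ae5b4e_an_SM
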