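import Mathlib
import Pool.Agent.Lib.MP_ae5b4e_an_SM.Lam

/-!
# MP_ae5b4e_an, project SMOOTH: division by the symbol of the difference quotient, a priori estimate
-/

noncomputable section

namespace Pool.Agent.MP_ae5b4e_an_SM

open Complex Set Filter Topology

private lemma divA_exp_left {z : ℂ} {η : ℝ} (h0 : 0 < η) (h1 : η ≤ 1) (hz : z.re ≤ 0)
    (hk : ∀ k : ℤ, η ≤ ‖z - 2 * Real.pi * I * k‖) : 1 / 4 * η ≤ ‖exp z - 1‖ := by
  set k : ℤ := round (z.im / (2 * Real.pi)) with hkd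
  set x : ℝ := -z.re with hx
  set y : ℝ := z.im - 2 * Real.pi * k with hy
  have hx0 : 0 ≤ x := by rw [hx]; linarith
  have hpi := Real.pi_pos
  have hyb : |y| ≤ Real.pi := by
    have h := abs_sub_round (z.im / (2 * Real.pi))
    rw [← hkd] at h
    have e : y = (z.im / (2 * Real.pi) - k) * (2 * Real.pi) := by
      rw [hy]; field_simp
    rw [e, abs_mul, abs_of_pos (by positivity : 0 < 2 * Real.pi)]
    nlinarith
  have hη : η ^ 2 ≤ x ^ 2 + y ^ 2 := by
    have h := hk k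
    have h2 : η ^ 2 ≤ ‖z - 2 * Real.pi * I * k‖ ^ 2 := pow_le_pow_left₀ h0.le h 2
    rw [← Complex.normSq_eq_norm_sq, Complex.normSq_apply] at h2
    have e1 : (z - 2 * Real.pi * I * k).re = z.re := by simp
    have e2 : (z - 2 * Real.pi * I * k).im = y := by simp [hy]
    rw [e1, e2] at h2
    rw [hx]
    nlinarith
  have hcos : Real.cos z.im = Real.cos y := by
    rw [hy, show z.im - 2 * Real.pi * k = z.im - k * (2 * Real.pi) by ring,
      Real.cos_sub_int_mul_two_pi]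
  have hsq : ‖exp z - 1‖ ^ 2 = (1 - Real.exp (-x)) ^ 2 + 2 * Real.exp (-x) * (1 - Real.cos y) := by
    rw [← Complex.normSq_eq_norm_sq, Complex.normSq_apply]
    have e1 : (exp z - 1).re = Real.exp (-x) * Real.cos z.im - 1 := by
      simp [Complex.exp_re, hx]
    have e2 : (exp z - 1).im = Real.exp (-x) * Real.sin z.im := by
      simp [Complex.exp_im, hx]
    rw [e1, e2, hcos.symm]
    have := Real.sin_sq_add_cos_sq z.im
    linear_combination (Real.exp (-x)) ^ 2 * this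
  have hc := Real.cos_le_one_sub_mul_cos_sq hyb
  have hepos : 0 < Real.exp (-x) := Real.exp_pos _
  have hy2 : y ^ 2 * (4 / Real.pi ^ 2) * Real.exp (-x) ≤ 2 * Real.exp (-x) * (1 - Real.cos y) := by
    have : 2 / Real.pi ^ 2 * y ^ 2 ≤ 1 - Real.cos y := by linarith
    have h3 : y ^ 2 * (4 / Real.pi ^ 2) * Real.exp (-x) =
        2 * Real.exp (-x) * (2 / Real.pi ^ 2 * y ^ 2) := by ring
    rw [h3]
    gcongr
  have hmain : (1 / 4 * η) ^ 2 ≤ ‖exp z - 1‖ ^ 2 := by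
    rw [hsq]
    rcases le_or_gt 1 x with hx1 | hx1
    · have h4 : Real.exp (-x) ≤ Real.exp (-1) := Real.exp_le_exp.2 (by linarith)
      have h5 : Real.exp (-1) < 0.3678794412 := Real.exp_neg_one_lt_d9
      have h6 : (0:ℝ) ≤ 2 * Real.exp (-x) * (1 - Real.cos y) := by
        have := Real.cos_le_one y
        have h7 : 0 ≤ 1 - Real.cos y := by linarith
        positivity
      nlinarith
    · have h4 : x / 2 ≤ 1 - Real.exp (-x) := by
        have h7 := Real.add_one_le_exp x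
        have h8 : Real.exp (-x) ≤ 1 - x / 2 := by
          rw [Real.exp_neg, inv_le_comm₀ (Real.exp_pos x) (by linarith)]
          have h9 : (1 - x / 2)⁻¹ ≤ x + 1 := by
            rw [inv_le_comm₀ (by linarith) (by linarith), inv_le_iff_one_le_mul₀ (by linarith)]
            nlinarith
          linarith
        linarith
      have h5 : (1:ℝ) / 3 ≤ Real.exp (-x) := by
        have h8 : Real.exp (-1) ≤ Real.exp (-x) := Real.exp_le_exp.2 (by linarith)
        have h9 : 0.36787944116 < Real.exp (-1) := Real.exp_neg_one_gt_d9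
        linarith
      have h6 : y ^ 2 / 10 ≤ y ^ 2 * (4 / Real.pi ^ 2) * Real.exp (-x) := by
        have hp2 : Real.pi ^ 2 ≤ 10 := by
          have := Real.pi_lt_d2
          nlinarith
        have h8 : (4:ℝ) / 10 ≤ 4 / Real.pi ^ 2 := by
          gcongr
        have h9 : (0:ℝ) ≤ y ^ 2 := sq_nonneg y
        have h10 : (4:ℝ) / 10 * (1 / 3) ≤ 4 / Real.pi ^ 2 * Real.exp (-x) := by
          gcongr
        nlinarith
      have h7 : (x / 2) ^ 2 ≤ (1 - Real.exp (-x)) ^ 2 := by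
        apply pow_le_pow_left₀ (by positivity) h4
      nlinarith
  exact (sq_le_sq₀ (by positivity) (norm_nonneg _)).1 hmain

private lemma divA_exp {z : ℂ} {η : ℝ} (h0 : 0 < η) (h1 : η ≤ 1)
    (hk : ∀ k : ℤ, η ≤ ‖z - 2 * Real.pi * I * k‖) :
    1 / 4 * η * max 1 ‖exp z‖ ≤ ‖exp z - 1‖ := by
  rcases le_or_gt z.re 0 with hz | hz
  · have h2 : ‖exp z‖ ≤ 1 := by
      rw [Complex.norm_exp]
      exact Real.exp_le_one_iff.2 hz
    rw [max_eq_left h2, mul_one]
    exact divA_exp_left h0 h1 hz hk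
  · have h2 : 1 ≤ ‖exp z‖ := by
      rw [Complex.norm_exp]
      exact Real.one_le_exp_iff.2 hz.le
    rw [max_eq_right h2]
    have h3 : 1 / 4 * η ≤ ‖exp (-z) - 1‖ := by
      refine divA_exp_left h0 h1 (by simpa using hz.le) fun k => ?_
      have h4 := hk (-k)
      rwa [← norm_neg, show -(z - 2 * Real.pi * I * ((-k : ℤ) : ℂ)) = -z - 2 * Real.pi * I * k by
        push_cast; ring] at h4
    have h5 : exp z - 1 = -(exp z * (exp (-z) - 1)) := by
      rw [mul_sub, ← Complex.exp_add]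
      simp
    rw [h5, norm_neg, norm_mul, mul_comm]
    gcongr

private lemma divA_norm_exp (m s : ℤ) (ρ : ℂ) :
    ‖exp (2 * Real.pi * I * m * s * ρ)‖ = Real.exp (-(2 * Real.pi * m * s * ρ.im)) := by
  rw [Complex.norm_exp]
  congr 1
  have : (2 * Real.pi * I * m * s * ρ : ℂ) = ((2 * Real.pi * m * s : ℝ) : ℂ) * (I * ρ) := by
    push_cast; ring
  rw [this, Complex.re_ofReal_mul]
  simp

/-- slow variation of the exponentials -/
private lemma divA_slow {m s : ℤ} (hs : |s| ≤ 1) {ρ ρ1 : ℂ} (h : |(m : ℝ)| * ‖ρ1 - ρ‖ ≤ 1 / 2) :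
    ‖exp (2 * Real.pi * I * m * s * ρ1)‖ ≤
      Real.exp Real.pi * ‖exp (2 * Real.pi * I * m * s * ρ)‖ := by
  rw [divA_norm_exp, divA_norm_exp, ← Real.exp_add]
  apply Real.exp_le_exp.2
  have h1 : |(m : ℝ) * s * (ρ1.im - ρ.im)| ≤ 1 / 2 := by
    rw [abs_mul, abs_mul]
    have h2 : |(s : ℝ)| ≤ 1 := by exact_mod_cast hs
    have h3 : |ρ1.im - ρ.im| ≤ ‖ρ1 - ρ‖ := by
      rw [← Complex.sub_im]
      exact Complex.abs_im_le_norm _
    calc |(m : ℝ)| * |(s : ℝ)| * |ρ1.im - ρ.im| ≤ |(m : ℝ)| * 1 * ‖ρ1 - ρ‖ := by gcongr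
      _ ≤ 1 / 2 := by rwa [mul_one]
  have h2 := (abs_le.1 h1).1
  have h3 := (abs_le.1 h1).2
  have hpi := Real.pi_pos
  nlinarith

private lemma divA_wt_pos {S : Finset ℤ} (hS : S.Nonempty) (m : ℤ) (ρ : ℂ) : 0 < Wt S m ρ := by
  unfold Wt
  refine Finset.sum_pos (fun s _ => ?_) hS
  rw [divA_norm_exp]
  exact Real.exp_pos _

private lemma divA_wt_slow {S : Finset ℤ} (hS : Sml S) {m : ℤ} {ρ ρ1 : ℂ}
    (h : |(m : ℝ)| * ‖ρ1 - ρ‖ ≤ 1 / 2) : Wt S m ρ1 ≤ Real.exp Real.pi * Wt S m ρ := by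
  unfold Wt
  rw [Finset.mul_sum]
  exact Finset.sum_le_sum fun s hs => divA_slow (hS.le s hs) h

private lemma divA_max_slow {m : ℤ} {ρ ρ1 : ℂ} (h : |(m : ℝ)| * ‖ρ1 - ρ‖ ≤ 1 / 2) :
    max 1 ‖exp (2 * Real.pi * I * m * ρ1)‖ ≤
      Real.exp Real.pi * max 1 ‖exp (2 * Real.pi * I * m * ρ)‖ := by
  have h1 := divA_slow (s := 1) (by norm_num) h
  simp only [Int.cast_one, mul_one] at h1
  have h2 : 1 ≤ Real.exp Real.pi := Real.one_le_exp Real.pi_pos.le
  apply max_le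
  · calc (1:ℝ) ≤ Real.exp Real.pi * 1 := by rwa [mul_one]
      _ ≤ _ := by gcongr; exact le_max_left _ _
  · refine h1.trans ?_
    gcongr
    exact le_max_right _ _

/-- the estimate away from the nodes -/
private lemma divA_far {S : Finset ℤ} {m : ℤ} {r δ A b : ℝ} {f v : ℂ → ℂ} (hm : m ≠ 0)
    (hδ : 0 < δ) (hr : 0 < r) (hA : 0 ≤ A) (hS : S.Nonempty)
    (hb0 : 0 < b) (hb1 : |(m : ℝ)| * b ≤ 1 / 4) (hb2 : δ * r / 4 ≤ |(m : ℝ)| * b)
    (hv : ∀ ρ ∈ Rq r, theta m ρ * v ρ = f ρ) (hf : ∀ ρ ∈ Rq r, ‖f ρ‖ ≤ A * Wt S m ρ)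
    {ρ : ℂ} (hρ : ρ ∈ Rq r) (hd : ∀ k : ℤ, b ≤ ‖ρ - k / m‖) :
    ‖v ρ‖ * max 1 ‖exp (2 * Real.pi * I * m * ρ)‖ ≤ 32 / δ * A * Wt S m ρ := by
  have hm0 : (0:ℝ) < |(m : ℝ)| := abs_pos.2 (by exact_mod_cast hm)
  have hmc : (m : ℂ) ≠ 0 := by exact_mod_cast hm
  have hρ0 : ρ ≠ 0 := by
    rintro rfl
    have := hd 0
    simp at this
    linarith
  have hρn : ‖ρ‖ ≤ 2 * r := by
    have h1 := Complex.norm_le_abs_re_add_abs_im ρ
    have h2 := hρ.1
    have h3 := hρ.2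
    linarith
  have h1 := divA_exp (z := 2 * Real.pi * I * m * ρ) (η := |(m : ℝ)| * b) (by positivity)
    (by linarith) (fun k => by
      have e : (2 * Real.pi * I * m * ρ - 2 * Real.pi * I * k : ℂ) =
          2 * Real.pi * I * m * (ρ - k / m) := by
        field_simp
      rw [e, norm_mul]
      have e2 : ‖(2 * Real.pi * I * m : ℂ)‖ = 2 * Real.pi * |(m : ℝ)| := by
        simp [abs_of_pos Real.pi_pos]
      rw [e2]
      have h2 := hd k
      have h3 := Real.pi_gt_three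
      have h4 : |(m : ℝ)| * b ≤ |(m : ℝ)| * ‖ρ - k / m‖ := by gcongr
      nlinarith [mul_nonneg hm0.le (norm_nonneg (ρ - k / m))])
  set E := exp (2 * Real.pi * I * m * ρ) with hE
  have h2 : theta m ρ = (E - 1) / ρ := by
    unfold theta
    rw [if_neg hρ0]
  have h3 : ‖E - 1‖ * ‖v ρ‖ = ‖f ρ‖ * ‖ρ‖ := by
    rw [← hv ρ hρ, h2, norm_mul, norm_div]
    have : ‖ρ‖ ≠ 0 := norm_ne_zero_iff.2 hρ0
    field_simp
  have hW := (divA_wt_pos hS m ρ).le
  have h4 : 1 / 4 * (|(m : ℝ)| * b) * (‖v ρ‖ * max 1 ‖E‖) ≤ A * Wt S m ρ * (2 * r) := by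
    calc 1 / 4 * (|(m : ℝ)| * b) * (‖v ρ‖ * max 1 ‖E‖)
        = 1 / 4 * (|(m : ℝ)| * b) * max 1 ‖E‖ * ‖v ρ‖ := by ring
      _ ≤ ‖E - 1‖ * ‖v ρ‖ := by gcongr
      _ = ‖f ρ‖ * ‖ρ‖ := h3
      _ ≤ A * Wt S m ρ * (2 * r) := by
        gcongr
        exact hf ρ hρ
  have h5 : 1 / 4 * (δ * r / 4) * (‖v ρ‖ * max 1 ‖E‖) ≤ A * Wt S m ρ * (2 * r) := by
    refine le_trans ?_ h4
    gcongr
  have h6 : ‖v ρ‖ * max 1 ‖E‖ ≤ A * Wt S m ρ * (2 * r) / (1 / 4 * (δ * r / 4)) := by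
    rw [le_div_iff₀ (by positivity)]
    linarith
  refine h6.trans (le_of_eq ?_)
  field_simp
  ring

theorem div_apriori : ∃ n : ℕ, ∀ (S : Finset ℤ) (m : ℤ) (r r' δ A : ℝ) (f v : ℂ → ℂ), Sml S →
    m ≠ 0 → 0 < δ → δ ≤ 1 → 0 < r' → r' + δ * r ≤ r → r ≤ 1 →
    DifferentiableOn ℂ v (Rq r) → (∀ ρ ∈ Rq r, theta m ρ * v ρ = f ρ) →
    (∀ ρ ∈ Rq r, ‖f ρ‖ ≤ A * Wt S m ρ) → ∀ ρ ∈ Rq r',
    ‖v ρ‖ * max 1 ‖exp (2 * Real.pi * I * m * ρ)‖ ≤ lam n δ * A * Wt S m ρ := by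
  obtain ⟨j, hj⟩ := exists_nat_ge (32 * Real.exp Real.pi ^ 2)
  refine ⟨j + 1, fun S m r r' δ A f v hS hm hδ hδ1 hr' hrr hr1 hvd hv hf ρ hρ => ?_⟩
  have hr : 0 < r := by
    by_contra h
    push Not at h
    nlinarith
  have hm0 : (0:ℝ) < |(m : ℝ)| := abs_pos.2 (by exact_mod_cast hm)
  have hm1 : (1:ℝ) ≤ |(m : ℝ)| := by
    have : (1:ℤ) ≤ |m| := Int.one_le_abs hm
    exact_mod_cast this
  have hmc : (m : ℂ) ≠ 0 := by exact_mod_cast hm
  have hrr' : r' < r := by nlinarith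
  have h0 : (0:ℂ) ∈ Rq r := by simp [Rq, hr]
  have hA : 0 ≤ A := by
    have h1 := (norm_nonneg (f 0)).trans (hf 0 h0)
    exact nonneg_of_mul_nonneg_left h1 (divA_wt_pos hS.ne m 0)
  set b : ℝ := min (1 / (4 * |(m : ℝ)|)) ((r - r') / 2) with hb
  have hb0 : 0 < b := lt_min (by positivity) (by linarith)
  have hb1 : |(m : ℝ)| * b ≤ 1 / 4 := by
    calc |(m : ℝ)| * b ≤ |(m : ℝ)| * (1 / (4 * |(m : ℝ)|)) := by
          gcongr; exact min_le_left _ _
      _ = 1 / 4 := by field_simp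
  have hb3 : 2 * b ≤ r - r' := by
    have := min_le_right (1 / (4 * |(m : ℝ)|)) ((r - r') / 2)
    rw [← hb] at this
    linarith
  have hb2 : δ * r / 4 ≤ |(m : ℝ)| * b := by
    rcases min_choice (1 / (4 * |(m : ℝ)|)) ((r - r') / 2) with h | h
    · rw [hb, h]
      have : |(m : ℝ)| * (1 / (4 * |(m : ℝ)|)) = 1 / 4 := by field_simp
      rw [this]
      nlinarith
    · rw [hb, h]
      have h1 : δ * r / 2 ≤ (r - r') / 2 := by linarith
      have h2 : (0:ℝ) ≤ (r - r') / 2 := by linarith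
      have h3 : 0 ≤ δ * r := by positivity
      nlinarith
  have hfar := fun {ρ : ℂ} (h1 : ρ ∈ Rq r) (h2 : ∀ k : ℤ, b ≤ ‖ρ - k / m‖) =>
    divA_far (S := S) (A := A) hm hδ hr hA hS.ne hb0 hb1 hb2 hv hf h1 h2
  have hexp1 : 1 ≤ Real.exp Real.pi := Real.one_le_exp Real.pi_pos.le
  have hW := (divA_wt_pos hS.ne m ρ).le
  -- the estimate with the explicit constant
  have key : ‖v ρ‖ * max 1 ‖exp (2 * Real.pi * I * m * ρ)‖ ≤
      Real.exp Real.pi ^ 2 * (32 / δ * A * Wt S m ρ) := by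
    by_cases h : ∀ k : ℤ, b ≤ ‖ρ - k / m‖
    · have h1 : ρ ∈ Rq r := ⟨hρ.1.trans hrr', hρ.2.trans hrr'⟩
      refine (hfar h1 h).trans ?_
      have h2 : 0 ≤ 32 / δ * A * Wt S m ρ := by positivity
      have h3 : 1 ≤ Real.exp Real.pi ^ 2 := one_le_pow₀ hexp1
      nlinarith
    · push Not at h
      obtain ⟨k, hk⟩ := h
      set a : ℂ := k / m with ha
      have hdist : ∀ z ∈ Metric.closedBall a b, ‖z - ρ‖ ≤ 2 * b := by
        intro z hz
        rw [Metric.mem_closedBall, dist_eq_norm] at hz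
        calc ‖z - ρ‖ = ‖(z - a) - (ρ - a)‖ := by congr 1; ring
          _ ≤ ‖z - a‖ + ‖ρ - a‖ := norm_sub_le _ _
          _ ≤ 2 * b := by linarith
      have hsub : Metric.closedBall a b ⊆ Rq r := by
        intro z hz
        have h1 := hdist z hz
        have h2 : |z.re| ≤ |ρ.re| + ‖z - ρ‖ := by
          have h3 := Complex.abs_re_le_norm (z - ρ)
          rw [Complex.sub_re] at h3
          have h4 := abs_add_le ρ.re (z.re - ρ.re)
          rw [add_sub_cancel] at h4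
          linarith
        have h2' : |z.im| ≤ |ρ.im| + ‖z - ρ‖ := by
          have h3 := Complex.abs_im_le_norm (z - ρ)
          rw [Complex.sub_im] at h3
          have h4 := abs_add_le ρ.im (z.im - ρ.im)
          rw [add_sub_cancel] at h4
          linarith
        exact ⟨by linarith [hρ.1], by linarith [hρ.2]⟩
      have hclos : closure (Metric.ball a b) = Metric.closedBall a b := closure_ball a hb0.ne'
      have hdc : DiffContOnCl ℂ v (Metric.ball a b) := by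
        apply DifferentiableOn.diffContOnCl
        rw [hclos]
        exact hvd.mono hsub
      have hM : 0 < max 1 ‖exp (2 * Real.pi * I * m * ρ)‖ := lt_max_of_lt_left one_pos
      rw [← le_div_iff₀ hM]
      refine Complex.norm_le_of_forall_mem_frontier_norm_le Metric.isBounded_ball hdc
        (fun z hz => ?_) (by rw [hclos, Metric.mem_closedBall, dist_eq_norm]; exact hk.le)
      rw [frontier_ball a hb0.ne', Metric.mem_sphere, dist_eq_norm] at hz
      have hz1 : z ∈ Metric.closedBall a b := by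
        rw [Metric.mem_closedBall, dist_eq_norm]; exact hz.le
      have hz2 := hdist z hz1
      have hz3 : |(m : ℝ)| * ‖z - ρ‖ ≤ 1 / 2 := by
        calc |(m : ℝ)| * ‖z - ρ‖ ≤ |(m : ℝ)| * (2 * b) := by gcongr
          _ ≤ 1 / 2 := by linarith
      have hz3' : |(m : ℝ)| * ‖ρ - z‖ ≤ 1 / 2 := by rwa [norm_sub_rev]
      have hnode : ∀ k' : ℤ, b ≤ ‖z - k' / m‖ := by
        intro k'
        by_cases hkk : k' = k
        · rw [hkk, ← ha, hz]
        · have h1 : 4 * b ≤ ‖a - k' / m‖ := by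
            have e : a - k' / m = (((k - k' : ℤ) : ℝ) / (m : ℝ) : ℝ) := by
              rw [ha]; push_cast; ring
            rw [e, Complex.norm_real, Real.norm_eq_abs, abs_div, le_div_iff₀ hm0]
            have h2 : (1:ℝ) ≤ |((k - k' : ℤ) : ℝ)| := by
              have : (1:ℤ) ≤ |k - k'| := Int.one_le_abs (by omega)
              exact_mod_cast this
            nlinarith
          have h2 : ‖a - k' / m‖ ≤ ‖z - a‖ + ‖z - k' / m‖ := by
            calc ‖a - k' / m‖ = ‖(z - k' / m) - (z - a)‖ := by congr 1; ring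
              _ ≤ ‖z - k' / m‖ + ‖z - a‖ := norm_sub_le _ _
              _ = _ := add_comm _ _
          linarith
      have h1 := hfar (hsub hz1) hnode
      have h2 := divA_wt_slow hS hz3
      have h3 := divA_max_slow hz3'
      rw [le_div_iff₀ hM]
      have h4 : 0 ≤ 32 / δ * A := by positivity
      calc ‖v z‖ * max 1 ‖exp (2 * Real.pi * I * m * ρ)‖
          ≤ ‖v z‖ * (Real.exp Real.pi * max 1 ‖exp (2 * Real.pi * I * m * z)‖) := by gcongr
        _ = Real.exp Real.pi * (‖v z‖ * max 1 ‖exp (2 * Real.pi * I * m * z)‖) := by ring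
        _ ≤ Real.exp Real.pi * (32 / δ * A * Wt S m z) := by gcongr
        _ ≤ Real.exp Real.pi * (32 / δ * A * (Real.exp Real.pi * Wt S m ρ)) := by gcongr
        _ = _ := by ring
  refine key.trans ?_
  have h1 : 32 * Real.exp Real.pi ^ 2 * (1 / δ) ≤ lam (j + 1) δ := by
    calc 32 * Real.exp Real.pi ^ 2 * (1 / δ) ≤ lam j δ * lam 1 δ := by
          gcongr
          · exact lam_nonneg _ hδ
          · exact le_lam hj hδ hδ1
          · exact inv_le_lam le_rfl hδ hδ1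
      _ ≤ _ := lam_mul_le _ _ hδ
  calc Real.exp Real.pi ^ 2 * (32 / δ * A * Wt S m ρ)
      = 32 * Real.exp Real.pi ^ 2 * (1 / δ) * (A * Wt S m ρ) := by ring
    _ ≤ lam (j + 1) δ * (A * Wt S m ρ) := by gcongr
    _ = _ := by ring

end Pool.Agent.MP_ae5b4e_an_SM
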