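import Mathlib
import Pool.Agent.Lib.MP_ae5b4e_an_SM.Defs

/-!
# MP_ae5b4e_an, project SMOOTH: interpolation at the nodes `k / m` and division
-/

noncomputable section

namespace Pool.Agent.MP_ae5b4e_an_SM

open Complex Set Filter Topology

/-- `(exp z - 1) / z` -/
private def divBE (z : ℂ) : ℂ := dslope exp 0 z

private lemma divBE_mul (z : ℂ) : z * divBE z = exp z - 1 := by
  have h := sub_smul_dslope exp 0 z
  simpa [divBE] using h

private lemma divBE_zero : divBE 0 = 1 := by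
  simp [divBE]

private lemma divBE_diff : Differentiable ℂ divBE := by
  have h := (Complex.differentiableOn_dslope (f := exp) (c := 0) (s := univ) univ_mem).2
    Complex.differentiable_exp.differentiableOn
  exact differentiableOn_univ.1 h

private lemma divBE_norm (z : ℂ) : ‖divBE z‖ ≤ max 1 ‖exp z‖ := by
  rcases eq_or_ne z 0 with rfl | hz
  · simp [divBE_zero]
  · have h1 : ‖exp z - exp 0‖ ≤ max 1 ‖exp z‖ * ‖z - 0‖ := by
      refine Convex.norm_image_sub_le_of_norm_deriv_le (s := segment ℝ 0 z)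
        (fun x _ => Complex.differentiable_exp x) (fun x hx => ?_) (convex_segment 0 z)
        (left_mem_segment ℝ 0 z) (right_mem_segment ℝ 0 z)
      rw [Complex.deriv_exp, Complex.norm_exp]
      obtain ⟨a, b, ha, hb, hab, rfl⟩ := hx
      have e : (a • (0:ℂ) + b • z).re = b * z.re := by simp
      rw [e, Complex.norm_exp]
      rcases le_or_gt z.re 0 with h | h
      · refine le_max_of_le_left (Real.exp_le_one_iff.2 ?_)
        exact mul_nonpos_of_nonneg_of_nonpos hb h
      · refine le_max_of_le_right (Real.exp_le_exp.2 ?_)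
        nlinarith
    rw [Complex.exp_zero, sub_zero, ← divBE_mul, norm_mul, mul_comm] at h1
    exact le_of_mul_le_mul_right h1 (norm_pos_iff.2 hz)

private lemma divB_theta (m : ℤ) (ρ : ℂ) :
    theta m ρ = 2 * Real.pi * I * m * divBE (2 * Real.pi * I * m * ρ) := by
  unfold theta
  split_ifs with h
  · rw [h, mul_zero, divBE_zero, mul_one]
  · rw [← divBE_mul]
    field_simp

private lemma divB_theta_diff (m : ℤ) : Differentiable ℂ (theta m) := by
  have : theta m = fun ρ => 2 * Real.pi * I * m * divBE (2 * Real.pi * I * m * ρ) :=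
    funext (divB_theta m)
  rw [this]
  exact (divBE_diff.comp (by fun_prop)).const_mul _

private lemma divB_theta_mul (m : ℤ) (ρ : ℂ) :
    theta m ρ * ρ = exp (2 * Real.pi * I * m * ρ) - 1 := by
  rw [divB_theta, ← divBE_mul]
  ring

private lemma divB_theta_deriv {m : ℤ} (hm : m ≠ 0) {ρ : ℂ} (h : theta m ρ = 0) :
    deriv (theta m) ρ ≠ 0 := by
  intro h0
  have h1 : HasDerivAt (fun x => theta m x * x) (deriv (theta m) ρ * ρ + theta m ρ * 1) ρ :=
    (divB_theta_diff m ρ).hasDerivAt.mul (hasDerivAt_id ρ)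
  have h2 : HasDerivAt (fun x => exp (2 * Real.pi * I * m * x) - 1)
      (exp (2 * Real.pi * I * m * ρ) * (2 * Real.pi * I * m * 1)) ρ :=
    (((hasDerivAt_id ρ).const_mul (2 * Real.pi * I * m)).cexp).sub_const 1
  have h3 : (fun x => theta m x * x) = fun x => exp (2 * Real.pi * I * m * x) - 1 :=
    funext (divB_theta_mul m)
  rw [h3] at h1
  have h4 := h1.unique h2
  have h5 := divB_theta_mul m ρ
  rw [h, zero_mul] at h5
  have h6 : exp (2 * Real.pi * I * m * ρ) = 1 := (sub_eq_zero.1 h5.symm)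
  rw [h, h0, h6] at h4
  have hmc : (m : ℂ) ≠ 0 := by exact_mod_cast hm
  have hpi : (Real.pi : ℂ) ≠ 0 := by exact_mod_cast Real.pi_ne_zero
  have : (2 * Real.pi * I * m : ℂ) ≠ 0 :=
    mul_ne_zero (mul_ne_zero (mul_ne_zero two_ne_zero hpi) I_ne_zero) hmc
  apply this
  simpa using h4.symm

private lemma divB_zero {m : ℤ} (hm : m ≠ 0) {ρ : ℂ} (h : theta m ρ = 0) :
    ∃ k : ℤ, k ≠ 0 ∧ ρ = ((k / m : ℝ) : ℂ) := by
  have hmc : (m : ℂ) ≠ 0 := by exact_mod_cast hm
  have hpi : (Real.pi : ℂ) ≠ 0 := by exact_mod_cast Real.pi_ne_zero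
  have h5 := divB_theta_mul m ρ
  rw [h, zero_mul] at h5
  have h6 : exp (2 * Real.pi * I * m * ρ) = 1 := (sub_eq_zero.1 h5.symm)
  obtain ⟨k, hk⟩ := Complex.exp_eq_one_iff.1 h6
  have h7 : m * ρ = k := by
    have h8 : (2 * Real.pi * I : ℂ) * (m * ρ) = (2 * Real.pi * I) * k := by
      linear_combination hk
    exact mul_left_cancel₀ (mul_ne_zero (mul_ne_zero two_ne_zero hpi) I_ne_zero) h8
  refine ⟨k, ?_, ?_⟩
  · rintro rfl
    have h8 : ρ = 0 := by
      rcases mul_eq_zero.1 (by simpa using h7 : (m : ℂ) * ρ = 0) with h9 | h9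
      · exact absurd h9 hmc
      · exact h9
    rw [h8] at h
    simp [theta] at h
    exact hm h
  · push_cast
    rw [← h7]
    field_simp

theorem div_interp (m : ℤ) (hm : m ≠ 0) (r N : ℝ) (hr : 0 < r) (hr1 : r ≤ 1) (hN0 : 0 ≤ N)
    (f : ℂ → ℂ) (hf : DifferentiableOn ℂ f (Rq r))
    (hN : ∀ k : ℤ, k ≠ 0 → |(k / m : ℝ)| < r → ‖f ((k / m : ℝ) : ℂ)‖ ≤ N) :
    ∃ s v : ℂ → ℂ, DifferentiableOn ℂ s (Rq r) ∧ DifferentiableOn ℂ v (Rq r) ∧
      (∀ ρ ∈ Rq r, theta m ρ * v ρ = f ρ - s ρ) ∧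
      (∀ ρ ∈ Rq r, ‖s ρ‖ ≤ 2 * |(m : ℝ)| * N * max 1 ‖exp (2 * Real.pi * I * m * ρ)‖) := by
  classical
  have hmc : (m : ℂ) ≠ 0 := by exact_mod_cast hm
  have hmr : (m : ℝ) ≠ 0 := by exact_mod_cast hm
  have hm0 : (0:ℝ) < |(m : ℝ)| := abs_pos.2 hmr
  set K : Finset ℤ := (Finset.Icc (-|m|) |m|).filter (fun k => k ≠ 0 ∧ |(k / m : ℝ)| < r) with hK
  have hKcard : (K.card : ℝ) ≤ 2 * |(m : ℝ)| := by
    have h1 : K ⊆ (Finset.Icc (-|m|) |m|).erase 0 := by
      intro k hk
      rw [hK, Finset.mem_filter] at hk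
      exact Finset.mem_erase.2 ⟨hk.2.1, hk.1⟩
    have h2 := Finset.card_le_card h1
    rw [Finset.card_erase_of_mem (by simp), Int.card_Icc] at h2
    have h3 : (K.card : ℤ) ≤ 2 * |m| := by
      have := abs_nonneg m
      omega
    exact_mod_cast h3
  set s : ℂ → ℂ := fun ρ => ∑ k ∈ K, f ((k / m : ℝ) : ℂ) *
    divBE (2 * Real.pi * I * m * ρ - k * (2 * Real.pi * I)) with hs
  have hsd : Differentiable ℂ s := by
    refine Differentiable.fun_sum fun k _ => Differentiable.const_mul ?_ _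
    exact divBE_diff.comp (by fun_prop)
  have hsnode : ∀ l ∈ K, s ((l / m : ℝ) : ℂ) = f ((l / m : ℝ) : ℂ) := by
    intro l hl
    simp only [hs]
    rw [Finset.sum_eq_single l]
    · have e : (2 * Real.pi * I * m * ((l / m : ℝ) : ℂ) - l * (2 * Real.pi * I) : ℂ) = 0 := by
        push_cast
        field_simp
        ring
      rw [e, divBE_zero, mul_one]
    · intro k _ hkl
      have e : (2 * Real.pi * I * m * ((l / m : ℝ) : ℂ) - k * (2 * Real.pi * I) : ℂ) =
          ((l - k : ℤ) : ℂ) * (2 * Real.pi * I) := by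
        push_cast
        field_simp
      rw [e]
      have h1 := divBE_mul (((l - k : ℤ) : ℂ) * (2 * Real.pi * I))
      rw [Complex.exp_int_mul_two_pi_mul_I, sub_self] at h1
      have h2 : (((l - k : ℤ) : ℂ) * (2 * Real.pi * I)) ≠ 0 := by
        have hpi : (Real.pi : ℂ) ≠ 0 := by exact_mod_cast Real.pi_ne_zero
        have h3 : ((l - k : ℤ) : ℂ) ≠ 0 := by
          exact_mod_cast sub_ne_zero.2 (Ne.symm hkl)
        exact mul_ne_zero h3 (mul_ne_zero (mul_ne_zero two_ne_zero hpi) I_ne_zero)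
      rcases mul_eq_zero.1 h1 with h3 | h3
      · exact absurd h3 h2
      · rw [h3, mul_zero]
    · intro h
      exact absurd hl h
  set g : ℂ → ℂ := fun ρ => f ρ - s ρ with hg
  have hgd : DifferentiableOn ℂ g (Rq r) := hf.sub hsd.differentiableOn
  have hgz : ∀ ρ ∈ Rq r, theta m ρ = 0 → g ρ = 0 := by
    intro ρ hρ h
    obtain ⟨k, hk0, rfl⟩ := divB_zero hm h
    have h1 : |(k / m : ℝ)| < r := by
      have := hρ.1
      rwa [Complex.ofReal_re] at this
    have h2 : k ∈ K := by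
      rw [hK, Finset.mem_filter]
      refine ⟨?_, hk0, h1⟩
      have h3 : |(k : ℝ)| < |(m : ℝ)| := by
        rw [abs_div, div_lt_iff₀ hm0] at h1
        nlinarith
      have h4 : |k| < |m| := by exact_mod_cast h3
      rw [Finset.mem_Icc]
      exact abs_le.1 h4.le
    show f _ - s _ = 0
    rw [hsnode k h2, sub_self]
  set v : ℂ → ℂ := fun ρ => if theta m ρ = 0 then deriv g ρ / deriv (theta m) ρ
    else g ρ / theta m ρ with hv
  refine ⟨s, v, hsd.differentiableOn, ?_, ?_, ?_⟩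
  · intro ρ0 hρ0
    apply DifferentiableAt.differentiableWithinAt
    have hgat : DifferentiableAt ℂ g ρ0 := hgd.differentiableAt ((isOpen_Rq r).mem_nhds hρ0)
    by_cases h : theta m ρ0 = 0
    · have hθ' := divB_theta_deriv hm h
      have hd1 : DifferentiableOn ℂ (dslope g ρ0) (Rq r) :=
        (Complex.differentiableOn_dslope ((isOpen_Rq r).mem_nhds hρ0)).2 hgd
      have hd2 : Differentiable ℂ (dslope (theta m) ρ0) :=
        differentiableOn_univ.1 ((Complex.differentiableOn_dslope univ_mem).2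
          (divB_theta_diff m).differentiableOn)
      have hne : dslope (theta m) ρ0 ρ0 ≠ 0 := by rwa [dslope_same]
      have hev : ∀ᶠ ρ in 𝓝 ρ0, dslope (theta m) ρ0 ρ ≠ 0 :=
        hd2.continuous.continuousAt.eventually_ne hne
      have heq : v =ᶠ[𝓝 ρ0] fun ρ => dslope g ρ0 ρ / dslope (theta m) ρ0 ρ := by
        filter_upwards [hev] with ρ hρ
        by_cases hρρ : ρ = ρ0
        · rw [hρρ]
          simp only [hv, if_pos h, dslope_same]
        · have h1 := sub_smul_dslope (theta m) ρ0 ρ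
          have h2 := sub_smul_dslope g ρ0 ρ
          rw [h, sub_zero, smul_eq_mul] at h1
          rw [hgz ρ0 hρ0 h, sub_zero, smul_eq_mul] at h2
          have h3 : ρ - ρ0 ≠ 0 := sub_ne_zero.2 hρρ
          have h4 : theta m ρ ≠ 0 := by
            rw [← h1]
            exact mul_ne_zero h3 hρ
          simp only [hv, if_neg h4]
          rw [← h1, ← h2, mul_div_mul_left _ _ h3]
      refine DifferentiableAt.congr_of_eventuallyEq ?_ heq
      exact (hd1.differentiableAt ((isOpen_Rq r).mem_nhds hρ0)).div (hd2 ρ0) hne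
    · have hev : ∀ᶠ ρ in 𝓝 ρ0, theta m ρ ≠ 0 :=
        (divB_theta_diff m).continuous.continuousAt.eventually_ne h
      have heq : v =ᶠ[𝓝 ρ0] fun ρ => g ρ / theta m ρ := by
        filter_upwards [hev] with ρ hρ
        simp only [hv, if_neg hρ]
      refine DifferentiableAt.congr_of_eventuallyEq ?_ heq
      exact hgat.div (divB_theta_diff m ρ0) h
  · intro ρ hρ
    by_cases h : theta m ρ = 0
    · rw [h, zero_mul]
      exact (hgz ρ hρ h).symm
    · simp only [hv, if_neg h]
      rw [mul_div_cancel₀ _ h]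
  · intro ρ _
    have hterm : ∀ k ∈ K, ‖f ((k / m : ℝ) : ℂ) *
        divBE (2 * Real.pi * I * m * ρ - k * (2 * Real.pi * I))‖ ≤
        N * max 1 ‖exp (2 * Real.pi * I * m * ρ)‖ := by
      intro k hk
      rw [hK, Finset.mem_filter] at hk
      rw [norm_mul]
      have h1 := divBE_norm (2 * Real.pi * I * m * ρ - k * (2 * Real.pi * I))
      rw [Complex.exp_sub, Complex.exp_int_mul_two_pi_mul_I, div_one] at h1
      exact mul_le_mul (hN k hk.2.1 hk.2.2) h1 (norm_nonneg _) hN0
    have h2 : ‖s ρ‖ ≤ K.card • (N * max 1 ‖exp (2 * Real.pi * I * m * ρ)‖) :=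
      (norm_sum_le _ _).trans (Finset.sum_le_card_nsmul _ _ _ hterm)
    rw [nsmul_eq_mul] at h2
    refine h2.trans ?_
    have h3 : 0 ≤ N * max 1 ‖exp (2 * Real.pi * I * m * ρ)‖ := by positivity
    calc (K.card : ℝ) * (N * max 1 ‖exp (2 * Real.pi * I * m * ρ)‖)
        ≤ 2 * |(m : ℝ)| * (N * max 1 ‖exp (2 * Real.pi * I * m * ρ)‖) := by gcongr
      _ = _ := by ring

end Pool.Agent.MP_ae5b4e_an_SM
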