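import Mathlib
import Pool.Agent.Lib.MP_ae5b4e_an_SM.FourB
import Pool.Agent.Lib.MP_ae5b4e_an_SM.DivA
import Pool.Agent.Lib.MP_ae5b4e_an_SM.DivB
import Pool.Agent.Lib.MP_ae5b4e_an_SM.Lam
import Pool.Agent.Lib.MP_ae5b4e_an_SM.OpsA
import Pool.Agent.Lib.MP_ae5b4e_an_SM.OpsB
import Pool.Agent.Lib.MP_ae5b4e_an_SM.FourA

/-!
# MP_ae5b4e_an, project SMOOTH, module SG: the two difference equations on strips
-/

noncomputable section

namespace Pool.Agent.MP_ae5b4e_an_SM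

open Complex Set Filter Topology
open scoped ContDiff ComplexConjugate

/-! ### Weights -/

/-- `‖e^{2πi m ρ}‖` -/
def Solve_x (m : ℤ) (ρ : ℂ) : ℝ := ‖exp (2 * Real.pi * I * m * ρ)‖

theorem Solve_x_pos (m : ℤ) (ρ : ℂ) : 0 < Solve_x m ρ := norm_pos_iff.mpr (exp_ne_zero _)

theorem Solve_x_neg (m : ℤ) (ρ : ℂ) : Solve_x (-m) ρ = (Solve_x m ρ)⁻¹ := by
  unfold Solve_x
  rw [← norm_inv, ← exp_neg]
  congr 2
  push_cast
  ring

theorem Solve_Wt3 (m : ℤ) (ρ : ℂ) :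
    Wt {-1, 0, 1} m ρ = (Solve_x m ρ)⁻¹ + 1 + Solve_x m ρ := by
  unfold Wt
  rw [Finset.sum_insert (by decide), Finset.sum_insert (by decide), Finset.sum_singleton,
    ← Solve_x_neg, ← add_assoc]
  unfold Solve_x
  congr 2
  · congr 2
    push_cast
    ring
  · simp
  · congr 1
    push_cast
    ring_nf

theorem Solve_Wt2 (m : ℤ) (ρ : ℂ) : Wt {0, 1} m ρ = 1 + Solve_x m ρ := by
  unfold Wt
  rw [Finset.sum_insert (by decide), Finset.sum_singleton]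
  unfold Solve_x
  congr 1
  · simp
  · congr 1
    push_cast
    ring_nf

theorem Solve_Wt1 (m : ℤ) (ρ : ℂ) : Wt {0} m ρ = 1 := by
  unfold Wt
  rw [Finset.sum_singleton]
  simp

theorem Solve_theta_neg (m : ℤ) (ρ : ℂ) : theta m (-ρ) = -theta (-m) ρ := by
  unfold theta
  by_cases h : ρ = 0
  · rw [if_pos h, if_pos (by rw [h, neg_zero])]
    push_cast
    ring
  · rw [if_neg h, if_neg (by simpa using h), div_neg]
    congr 3
    congr 1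
    push_cast
    ring

theorem Solve_theta_zero (ρ : ℂ) : theta 0 ρ = 0 := by
  unfold theta
  split_ifs
  · simp
  · simp

theorem Solve_sml3 : Sml ({-1, 0, 1} : Finset ℤ) := ⟨⟨0, by decide⟩, by decide⟩

theorem Solve_sml2 : Sml ({0, 1} : Finset ℤ) := ⟨⟨0, by decide⟩, by decide⟩

theorem Solve_sml1 : Sml ({0} : Finset ℤ) := ⟨⟨0, by decide⟩, by decide⟩

theorem Solve_max3 {x : ℝ} (hx : 0 < x) : max 1 x⁻¹ ≤ x⁻¹ + 1 + x := by
  have := inv_pos.mpr hx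
  exact max_le (by linarith) (by linarith)

theorem Solve_max2 {x : ℝ} (hx : 0 < x) : max 1 x ≤ 1 + x := max_le (by linarith) (by linarith)

theorem Solve_div3 {x v B : ℝ} (hx : 0 < x) (hv : 0 ≤ v)
    (h : v * max 1 x⁻¹ ≤ B * (x⁻¹ + 1 + x)) : v ≤ 3 * B * (1 + x) := by
  have hi := inv_pos.mpr hx
  have hB : 0 ≤ B := by
    have h1 : 0 ≤ B * (x⁻¹ + 1 + x) := le_trans (mul_nonneg hv (by positivity)) h
    have h2 : 0 < x⁻¹ + 1 + x := by positivity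
    by_contra hneg
    push Not at hneg
    nlinarith
  by_cases h1 : 1 ≤ x
  · have h2 : v ≤ v * max 1 x⁻¹ := le_mul_of_one_le_right hv (le_max_left _ _)
    have h3 : x⁻¹ ≤ 1 := inv_le_one_of_one_le₀ h1
    nlinarith [mul_nonneg hB hx.le]
  · push Not at h1
    have h2 : v * x⁻¹ ≤ v * max 1 x⁻¹ := mul_le_mul_of_nonneg_left (le_max_right _ _) hv
    have h3 : v * x⁻¹ ≤ B * (x⁻¹ + 1 + x) := h2.trans h
    have h4 : v ≤ B * (1 + x + x ^ 2) := by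
      have := mul_le_mul_of_nonneg_right h3 hx.le
      have e1 : v * x⁻¹ * x = v := by field_simp
      have e2 : B * (x⁻¹ + 1 + x) * x = B * (1 + x + x ^ 2) := by field_simp
      rwa [e1, e2] at this
    nlinarith [mul_nonneg hB hx.le, mul_nonneg hB (sub_nonneg.mpr h1.le),
      mul_nonneg (mul_nonneg hB hx.le) (sub_nonneg.mpr h1.le)]

theorem Solve_div2 {x v B : ℝ} (hx : 0 < x) (hv : 0 ≤ v)
    (h : v * max 1 x ≤ B * (1 + x)) : v ≤ 2 * B := by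
  have hB : 0 ≤ B := by
    have h1 : 0 ≤ B * (1 + x) := le_trans (mul_nonneg hv (by positivity)) h
    by_contra hneg
    push Not at hneg
    nlinarith
  by_cases h1 : 1 ≤ x
  · have h2 : v * x ≤ v * max 1 x := mul_le_mul_of_nonneg_left (le_max_right _ _) hv
    have h3 : v * x ≤ 2 * B * x := by nlinarith
    exact le_of_mul_le_mul_right h3 hx
  · push Not at h1
    have h2 : v ≤ v * max 1 x := le_mul_of_one_le_right hv (le_max_left _ _)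
    nlinarith

/-! ### Symmetrisation -/

/-- the symmetrisation -/
def Solve_sym (F : ℂ × ℂ → ℂ) (p : ℂ × ℂ) : ℂ := (F p + conj (F (conj p.1, conj p.2))) / 2

theorem Solve_conj_mem {S : Finset ℤ} {c r : ℝ} {p : ℂ × ℂ} (hp : p ∈ Dm S c r) :
    ((conj p.1, conj p.2) : ℂ × ℂ) ∈ Dm S c r := by
  rw [mem_Dm] at hp ⊢
  refine ⟨fun s hs => ?_, ?_, ?_⟩
  · have := hp.1 s hs
    simp only [conj_im]
    rw [← abs_neg]
    convert this using 2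
    ring
  · simpa using hp.2.1
  · simpa using hp.2.2

theorem Solve_sym_bd {S : Finset ℤ} {c r M : ℝ} {F : ℂ × ℂ → ℂ}
    (h : ∀ p ∈ Dm S c r, ‖F p‖ ≤ M) : ∀ p ∈ Dm S c r, ‖Solve_sym F p‖ ≤ M := by
  intro p hp
  unfold Solve_sym
  rw [norm_div, norm_ofNat]
  have h1 := norm_add_le (F p) (conj (F (conj p.1, conj p.2)))
  have h2 := h p hp
  have h3 := h _ (Solve_conj_mem hp)
  rw [norm_conj] at h1
  linarith

theorem Solve_sym_nabm (F : ℂ × ℂ → ℂ) {p : ℂ × ℂ} (hp : p.2 ≠ 0) :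
    nabm (Solve_sym F) p = (nabm F p + conj (nabm F (conj p.1, conj p.2))) / 2 := by
  have hp' : ((conj p.1, conj p.2) : ℂ × ℂ).2 ≠ 0 := by simpa using hp
  rw [nabm_of_ne hp, nabm_of_ne hp, nabm_of_ne hp']
  unfold Solve_sym
  simp only [map_sub, map_div₀, conj_conj]
  field_simp
  ring

theorem Solve_sym_nab (F : ℂ × ℂ → ℂ) {p : ℂ × ℂ} (hp : p.2 ≠ 0) :
    nab (Solve_sym F) p = (nab F p + conj (nab F (conj p.1, conj p.2))) / 2 := by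
  have hp' : ((conj p.1, conj p.2) : ℂ × ℂ).2 ≠ 0 := by simpa using hp
  rw [nab_of_ne hp, nab_of_ne hp, nab_of_ne hp']
  unfold Solve_sym
  simp only [map_add, map_sub, map_div₀, conj_conj]
  field_simp
  ring

theorem Solve_sym_AP {S : Finset ℤ} {c r M : ℝ} {F : ℂ × ℂ → ℂ} (h : HP S c r F M) :
    AP S c r (Solve_sym F) M :=
  { h.toPH.symm with bd := Solve_sym_bd h.bd }

theorem Solve_sym_fc {S : Finset ℤ} {c r : ℝ} {F : ℂ × ℂ → ℂ} (h : PH S c r F) (hS : Sml S)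
    (hr : r ≤ c) (h0 : ∀ ρ ∈ Rq r, fc F 0 ρ = 0) : ∀ ρ ∈ Rq r, fc (Solve_sym F) 0 ρ = 0 := by
  intro ρ hρ
  set G : ℂ × ℂ → ℂ := fun p => conj (F (conj p.1, conj p.2)) with hG
  have hGP : PH S c r G := by
    have h1 : PH S c r (fun p => 2 * Solve_sym F p - F p) :=
      ((PH.const 2).mul h.symm.toPH).sub h
    refine h1.congr fun p _ => ?_
    simp only [hG, Solve_sym]
    ring
  have hρ' : conj ρ ∈ Rq r := by
    simpa [Rq] using hρ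
  have h1 : fc G 0 ρ = conj (fc F 0 (conj ρ)) := by
    unfold fc
    rw [intervalIntegral.integral_of_le zero_le_one, intervalIntegral.integral_of_le zero_le_one,
      ← integral_conj]
    congr 1
    funext s
    simp [hG]
  have h2 : fc (Solve_sym F) 0 ρ = fc (fun p => (fun _ => (1 / 2 : ℂ)) p.2 * (F p + G p)) 0 ρ := by
    congr 1
    funext p
    simp only [hG, Solve_sym]
    ring
  have h3 := fc_smul (fun p => F p + G p) (fun _ => (1 / 2 : ℂ)) 0 ρ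
  rw [h2, h3, fc_add h hGP hS hr 0 hρ, h0 ρ hρ, h1, h0 _ hρ']
  simp

/-- from the complex solution to the real solution -/
theorem Solve_fin_minus {c r MW MR : ℝ} {W R g : ℂ × ℂ → ℂ} (hr : r ≤ c)
    (hW : HP {0, 1} c r W MW) (hR : HP {-1, 0, 1} c r R MR) (hg : RP {-1, 0, 1} c r g)
    (heq : ∀ p ∈ Dm {-1, 0, 1} c r, nabm W p = g p - R p) (h0 : ∀ ρ ∈ Rq r, fc W 0 ρ = 0) :
    AP {0, 1} c r (Solve_sym W) MW ∧ AP {-1, 0, 1} c r (Solve_sym R) MR ∧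
      (∀ p ∈ Dm {-1, 0, 1} c r, nabm (Solve_sym W) p = g p - Solve_sym R p) ∧
      ∀ ρ ∈ Rq r, fc (Solve_sym W) 0 ρ = 0 := by
  have hsW := Solve_sym_AP hW
  have hsR := Solve_sym_AP hR
  refine ⟨hsW, hsR, ?_, Solve_sym_fc hW.toPH Solve_sml2 hr h0⟩
  have h1 : PH {-1, 0, 1} c r (nabm (Solve_sym W)) :=
    hsW.toPH.hnabm (by decide) (by decide)
  have h2 : PH {-1, 0, 1} c r (fun p => g p - Solve_sym R p) := hg.toPH.sub hsR.toPH
  refine eq_of_ne h1.diff.continuousOn h2.diff.continuousOn fun p hp hp0 => ?_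
  rw [Solve_sym_nabm W hp0, heq p hp, heq _ (Solve_conj_mem hp), hg.conj_eq p hp]
  unfold Solve_sym
  simp only [map_sub, conj_conj]
  ring

theorem Solve_fin_plus {c r MW MR : ℝ} {W R g : ℂ × ℂ → ℂ}
    (hW : HP {0} c r W MW) (hR : HP {0, 1} c r R MR) (hg : RP {0, 1} c r g)
    (heq : ∀ p ∈ Dm {0, 1} c r, nab W p = g p - R p) :
    AP {0} c r (Solve_sym W) MW ∧ AP {0, 1} c r (Solve_sym R) MR ∧
      (∀ p ∈ Dm {0, 1} c r, nab (Solve_sym W) p = g p - Solve_sym R p) := by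
  have hsW := Solve_sym_AP hW
  have hsR := Solve_sym_AP hR
  refine ⟨hsW, hsR, ?_⟩
  have h1 : PH {0, 1} c r (nab (Solve_sym W)) :=
    hsW.toPH.hnab (by decide) (by decide)
  have h2 : PH {0, 1} c r (fun p => g p - Solve_sym R p) := hg.toPH.sub hsR.toPH
  refine eq_of_ne h1.diff.continuousOn h2.diff.continuousOn fun p hp hp0 => ?_
  rw [Solve_sym_nab W hp0, heq p hp, heq _ (Solve_conj_mem hp), hg.conj_eq p hp]
  unfold Solve_sym
  simp only [map_sub, conj_conj]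
  ring

/-! ### The exponential factors -/

/-- absorption of `|m|` -/
theorem Solve_exp {c δ : ℝ} (hδ : 0 < δ) (m : ℤ) :
    |(m : ℝ)| * Real.exp (-(2 * Real.pi * |(m : ℝ)| * c)) ≤
      lam 1 δ * Real.exp (-(2 * Real.pi * |(m : ℝ)| * (c - δ))) := by
  have h1 := pow_mul_exp_le 1 (abs_nonneg (m : ℝ)) hδ
  have h2 : Real.exp (-(2 * Real.pi * |(m : ℝ)| * c)) =
      Real.exp (-(2 * Real.pi * |(m : ℝ)| * δ)) *
        Real.exp (-(2 * Real.pi * |(m : ℝ)| * (c - δ))) := by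
    rw [← Real.exp_add]
    congr 1
    ring
  rw [h2, ← mul_assoc]
  rw [pow_one] at h1
  exact mul_le_mul_of_nonneg_right h1 (Real.exp_pos _).le

theorem Solve_exp' {c δ : ℝ} (hδ : 0 < δ) (m : ℤ) :
    Real.exp (-(2 * Real.pi * |(m : ℝ)| * c)) ≤
      Real.exp (-(2 * Real.pi * |(m : ℝ)| * (c - δ))) := by
  rw [Real.exp_le_exp]
  have h1 : 0 ≤ 2 * Real.pi * |(m : ℝ)| := by positivity
  nlinarith [mul_nonneg h1 hδ.le]

theorem Solve_A_nonneg {S : Finset ℤ} {c r A : ℝ} {g : ℂ × ℂ → ℂ} (hc : 0 < c) (hr : 0 < r)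
    (h : ∀ p ∈ Dm S c r, ‖g p‖ ≤ A) : 0 ≤ A := by
  refine (norm_nonneg (g (0, 0))).trans (h (0, 0) ?_)
  rw [mem_Dm]
  simp [hc, hr]

/-- the coefficients of the solution of the backward equation -/
theorem Solve_coef_minus : ∃ n : ℕ, ∀ (c r c' r' δ A N : ℝ) (g : ℂ × ℂ → ℂ), Par c r c' r' δ →
    HP {-1, 0, 1} c r g A → 0 ≤ N →
    (∀ m k : ℤ, m ≠ 0 → k ≠ 0 → |(k / m : ℝ)| < r →
      ‖fc g m ((k / m : ℝ) : ℂ)‖ ≤ N * Real.exp (-(2 * Real.pi * |(m : ℝ)| * c))) →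
    ∀ m : ℤ, ∃ s w : ℂ → ℂ, DifferentiableOn ℂ s (Rq r') ∧ DifferentiableOn ℂ w (Rq r') ∧
      (m = 0 → s = 0 ∧ w = 0) ∧
      (m ≠ 0 → ∀ ρ ∈ Rq r', theta m (-ρ) * w ρ = fc g m ρ - s ρ) ∧
      (∀ ρ ∈ Rq r', ‖s ρ‖ ≤ 2 * lam 1 δ * N * Real.exp (-(2 * Real.pi * |(m : ℝ)| * (c - δ))) *
        Wt {-1, 0, 1} m ρ) ∧
      (∀ ρ ∈ Rq r', ‖w ρ‖ ≤ 3 * lam n δ * (A + 2 * lam 1 δ * N) *
        Real.exp (-(2 * Real.pi * |(m : ℝ)| * (c - δ))) * Wt {0, 1} m ρ) := by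
  obtain ⟨n, hn⟩ := div_apriori
  refine ⟨n, ?_⟩
  intro c r c' r' δ A N g hP hg hN hk m
  have hδ := hP.δ0
  have hr := hP.r_pos
  have hA : 0 ≤ A := Solve_A_nonneg hP.c_pos hr hg.bd
  have hl1 : 0 ≤ lam 1 δ := lam_nonneg 1 hδ
  have hln : 0 ≤ lam n δ := lam_nonneg n hδ
  have hsub : Rq r' ⊆ Rq r := by
    intro z hz
    exact ⟨lt_of_lt_of_le hz.1 hP.r'_le, lt_of_lt_of_le hz.2 hP.r'_le⟩
  by_cases hm : m = 0
  · refine ⟨0, 0, differentiableOn_const 0, differentiableOn_const 0, fun _ => ⟨rfl, rfl⟩,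
      fun h => absurd hm h, fun ρ _ => ?_, fun ρ _ => ?_⟩
    · simp only [Pi.zero_apply, norm_zero]
      have := Solve_x_pos m ρ
      rw [Solve_Wt3]
      positivity
    · simp only [Pi.zero_apply, norm_zero]
      have := Solve_x_pos m ρ
      rw [Solve_Wt2]
      positivity
  · have hm' : -m ≠ 0 := neg_ne_zero.mpr hm
    have hmc : ((-m : ℤ) : ℝ) = -(m : ℝ) := by push_cast; ring
    set e := Real.exp (-(2 * Real.pi * |(m : ℝ)| * c)) with he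
    set e' := Real.exp (-(2 * Real.pi * |(m : ℝ)| * (c - δ))) with he'
    have he0 : 0 < e := Real.exp_pos _
    have he'0 : 0 < e' := Real.exp_pos _
    have hee : e ≤ e' := Solve_exp' hδ m
    have hme : |(m : ℝ)| * e ≤ lam 1 δ * e' := Solve_exp hδ m
    obtain ⟨s, v, hs, hv, heq, hsb⟩ := div_interp (-m) hm' r (N * e) hr hP.r_le_one
      (by positivity) (fc g m) (fc_diff hg.toPH Solve_sml3 hP.r_le_c m) (by
        intro k hk0 hkr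
        have h1 : ((k / ((-m : ℤ) : ℝ) : ℝ)) = (((-k : ℤ) : ℝ) / m : ℝ) := by
          push_cast
          rw [div_neg, neg_div]
        rw [h1] at hkr ⊢
        exact hk m (-k) hm (neg_ne_zero.mpr hk0) hkr)
    have hxneg : ∀ ρ, ‖exp (2 * Real.pi * I * (-m : ℤ) * ρ)‖ = (Solve_x m ρ)⁻¹ := fun ρ =>
      Solve_x_neg m ρ
    have habs : |((-m : ℤ) : ℝ)| = |(m : ℝ)| := by rw [hmc, abs_neg]
    have hs1 : ∀ ρ ∈ Rq r, ‖s ρ‖ ≤ 2 * lam 1 δ * N * e' * Wt {-1, 0, 1} m ρ := by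
      intro ρ hρ
      have h1 := hsb ρ hρ
      rw [hxneg, habs] at h1
      have hx := Solve_x_pos m ρ
      have h2 := Solve_max3 hx
      rw [Solve_Wt3]
      calc ‖s ρ‖ ≤ 2 * |(m : ℝ)| * (N * e) * max 1 (Solve_x m ρ)⁻¹ := h1
        _ = 2 * N * (|(m : ℝ)| * e) * max 1 (Solve_x m ρ)⁻¹ := by ring
        _ ≤ 2 * N * (lam 1 δ * e') * ((Solve_x m ρ)⁻¹ + 1 + Solve_x m ρ) := by gcongr
        _ = _ := by ring
    have hf1 : ∀ ρ ∈ Rq r, ‖fc g m ρ‖ ≤ A * e' * Wt {-1, 0, 1} m ρ := by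
      intro ρ hρ
      have h1 := fc_bound hg Solve_sml3 hP.r_le_c m hρ
      have hx := Solve_x_pos m ρ
      have hW : 0 ≤ Wt {-1, 0, 1} m ρ := by rw [Solve_Wt3]; positivity
      refine h1.trans ?_
      gcongr
    have hWneg : ∀ ρ, Wt {-1, 0, 1} (-m) ρ = Wt {-1, 0, 1} m ρ := by
      intro ρ
      rw [Solve_Wt3, Solve_Wt3, Solve_x_neg, inv_inv]
      ring
    have hdiv := hn {-1, 0, 1} (-m) r r' δ ((A + 2 * lam 1 δ * N) * e')
      (fun ρ => fc g m ρ - s ρ) v Solve_sml3 hm' hδ hP.δ1 hP.r0 hP.rr hP.r_le_one hv heq (by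
        intro ρ hρ
        rw [hWneg]
        have h1 := norm_sub_le (fc g m ρ) (s ρ)
        have h2 := hs1 ρ hρ
        have h3 := hf1 ρ hρ
        have h4 : (A + 2 * lam 1 δ * N) * e' * Wt {-1, 0, 1} m ρ =
            A * e' * Wt {-1, 0, 1} m ρ + 2 * lam 1 δ * N * e' * Wt {-1, 0, 1} m ρ := by ring
        rw [h4]
        linarith)
    refine ⟨s, fun ρ => -v ρ, hs.mono hsub, (hv.mono hsub).neg, fun h => absurd h hm,
      fun _ ρ hρ => ?_, fun ρ hρ => hs1 ρ (hsub hρ), fun ρ hρ => ?_⟩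
    · rw [Solve_theta_neg, neg_mul_neg]
      exact heq ρ (hsub hρ)
    · have h1 := hdiv ρ hρ
      rw [hxneg, hWneg, Solve_Wt3] at h1
      have hx := Solve_x_pos m ρ
      have h2 := Solve_div3 hx (norm_nonneg _) h1
      rw [norm_neg, Solve_Wt2]
      refine h2.trans (le_of_eq ?_)
      ring

/-- the coefficients of the solution of the forward equation -/
theorem Solve_coef_plus : ∃ n : ℕ, ∀ (c r c' r' δ A N : ℝ) (g : ℂ × ℂ → ℂ), Par c r c' r' δ →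
    HP {0, 1} c r g A → 0 ≤ N →
    (∀ m k : ℤ, m ≠ 0 → k ≠ 0 → |(k / m : ℝ)| < r →
      ‖fc g m ((k / m : ℝ) : ℂ)‖ ≤ N * Real.exp (-(2 * Real.pi * |(m : ℝ)| * c))) →
    ∀ m : ℤ, ∃ s w : ℂ → ℂ, DifferentiableOn ℂ s (Rq r') ∧ DifferentiableOn ℂ w (Rq r') ∧
      (m = 0 → s = 0 ∧ w = 0) ∧
      (m ≠ 0 → ∀ ρ ∈ Rq r', theta m ρ * w ρ = fc g m ρ - s ρ) ∧
      (∀ ρ ∈ Rq r', ‖s ρ‖ ≤ 2 * lam 1 δ * N * Real.exp (-(2 * Real.pi * |(m : ℝ)| * (c - δ))) *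
        Wt {0, 1} m ρ) ∧
      (∀ ρ ∈ Rq r', ‖w ρ‖ ≤ 2 * lam n δ * (A + 2 * lam 1 δ * N) *
        Real.exp (-(2 * Real.pi * |(m : ℝ)| * (c - δ))) * Wt {0} m ρ) := by
  obtain ⟨n, hn⟩ := div_apriori
  refine ⟨n, ?_⟩
  intro c r c' r' δ A N g hP hg hN hk m
  have hδ := hP.δ0
  have hr := hP.r_pos
  have hA : 0 ≤ A := Solve_A_nonneg hP.c_pos hr hg.bd
  have hl1 : 0 ≤ lam 1 δ := lam_nonneg 1 hδ
  have hln : 0 ≤ lam n δ := lam_nonneg n hδ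
  have hsub : Rq r' ⊆ Rq r := by
    intro z hz
    exact ⟨lt_of_lt_of_le hz.1 hP.r'_le, lt_of_lt_of_le hz.2 hP.r'_le⟩
  by_cases hm : m = 0
  · refine ⟨0, 0, differentiableOn_const 0, differentiableOn_const 0, fun _ => ⟨rfl, rfl⟩,
      fun h => absurd hm h, fun ρ _ => ?_, fun ρ _ => ?_⟩
    · simp only [Pi.zero_apply, norm_zero]
      have := Solve_x_pos m ρ
      rw [Solve_Wt2]
      positivity
    · simp only [Pi.zero_apply, norm_zero]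
      rw [Solve_Wt1]
      positivity
  · set e := Real.exp (-(2 * Real.pi * |(m : ℝ)| * c)) with he
    set e' := Real.exp (-(2 * Real.pi * |(m : ℝ)| * (c - δ))) with he'
    have he0 : 0 < e := Real.exp_pos _
    have he'0 : 0 < e' := Real.exp_pos _
    have hee : e ≤ e' := Solve_exp' hδ m
    have hme : |(m : ℝ)| * e ≤ lam 1 δ * e' := Solve_exp hδ m
    obtain ⟨s, v, hs, hv, heq, hsb⟩ := div_interp m hm r (N * e) hr hP.r_le_one
      (by positivity) (fc g m) (fc_diff hg.toPH Solve_sml2 hP.r_le_c m) (by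
        intro k hk0 hkr
        exact hk m k hm hk0 hkr)
    have hs1 : ∀ ρ ∈ Rq r, ‖s ρ‖ ≤ 2 * lam 1 δ * N * e' * Wt {0, 1} m ρ := by
      intro ρ hρ
      have h1 := hsb ρ hρ
      have hx := Solve_x_pos m ρ
      have h2 := Solve_max2 hx
      rw [Solve_Wt2]
      calc ‖s ρ‖ ≤ 2 * |(m : ℝ)| * (N * e) * max 1 (Solve_x m ρ) := h1
        _ = 2 * N * (|(m : ℝ)| * e) * max 1 (Solve_x m ρ) := by ring
        _ ≤ 2 * N * (lam 1 δ * e') * (1 + Solve_x m ρ) := by gcongr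
        _ = _ := by ring
    have hf1 : ∀ ρ ∈ Rq r, ‖fc g m ρ‖ ≤ A * e' * Wt {0, 1} m ρ := by
      intro ρ hρ
      have h1 := fc_bound hg Solve_sml2 hP.r_le_c m hρ
      have hx := Solve_x_pos m ρ
      have hW : 0 ≤ Wt {0, 1} m ρ := by rw [Solve_Wt2]; positivity
      refine h1.trans ?_
      gcongr
    have hdiv := hn {0, 1} m r r' δ ((A + 2 * lam 1 δ * N) * e')
      (fun ρ => fc g m ρ - s ρ) v Solve_sml2 hm hδ hP.δ1 hP.r0 hP.rr hP.r_le_one hv heq (by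
        intro ρ hρ
        have h1 := norm_sub_le (fc g m ρ) (s ρ)
        have h2 := hs1 ρ hρ
        have h3 := hf1 ρ hρ
        have h4 : (A + 2 * lam 1 δ * N) * e' * Wt {0, 1} m ρ =
            A * e' * Wt {0, 1} m ρ + 2 * lam 1 δ * N * e' * Wt {0, 1} m ρ := by ring
        rw [h4]
        linarith)
    refine ⟨s, v, hs.mono hsub, hv.mono hsub, fun h => absurd h hm,
      fun _ ρ hρ => heq ρ (hsub hρ), fun ρ hρ => hs1 ρ (hsub hρ), fun ρ hρ => ?_⟩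
    have h1 := hdiv ρ hρ
    rw [Solve_Wt2] at h1
    have hx := Solve_x_pos m ρ
    have h2 := Solve_div2 hx (norm_nonneg _) h1
    rw [Solve_Wt1]
    refine h2.trans (le_of_eq ?_)
    ring

/-! ### The main theorems -/

theorem Solve_absorb (n1 n2 : ℕ) : ∃ n : ℕ, ∀ δ A N : ℝ, 0 < δ → δ ≤ 1 → 0 ≤ A → 0 ≤ N →
    lam n2 (δ / 4) * (3 * lam n1 (δ / 4) * (A + 2 * lam 1 (δ / 4) * N)) ≤ lam n δ * (A + N) ∧
    lam n2 (δ / 4) * (2 * lam 1 (δ / 4) * N) ≤ lam n δ * N ∧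
    lam n2 (δ / 4) * (3 * lam n1 (δ / 4) * A) ≤ lam n δ * A := by
  obtain ⟨N1, h1⟩ := absorb 6 n2 (n1 + 1) 4 (by norm_num)
  obtain ⟨N2, h2⟩ := absorb 2 n2 1 4 (by norm_num)
  refine ⟨N1 + N2, fun δ A N hδ hδ1 hA hN => ?_⟩
  have k1 := h1 δ hδ hδ1
  have k2 := h2 δ hδ hδ1
  push_cast at k1 k2
  have hd : 0 < δ / 4 := by positivity
  have hd1 : δ / 4 ≤ 1 := by linarith
  have l1 := one_le_lam 1 hd hd1
  have l2 := lam_nonneg n2 hd
  have l3 := lam_nonneg n1 hd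
  have l4 := lam_mul_le n1 1 hd
  have m1 : lam N1 δ ≤ lam (N1 + N2) δ := lam_mono (Nat.le_add_right _ _) hδ hδ1
  have m2 : lam N2 δ ≤ lam (N1 + N2) δ := lam_mono (Nat.le_add_left _ _) hδ hδ1
  have e1 : A + 2 * lam 1 (δ / 4) * N ≤ 2 * lam 1 (δ / 4) * (A + N) := by nlinarith
  have big : ∀ B : ℝ, 0 ≤ B → lam n2 (δ / 4) * (3 * lam n1 (δ / 4) * (2 * lam 1 (δ / 4) * B)) ≤
      lam (N1 + N2) δ * B := by
    intro B hB
    calc lam n2 (δ / 4) * (3 * lam n1 (δ / 4) * (2 * lam 1 (δ / 4) * B))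
        = 6 * lam n2 (δ / 4) * (lam n1 (δ / 4) * lam 1 (δ / 4)) * B := by ring
      _ ≤ 6 * lam n2 (δ / 4) * lam (n1 + 1) (δ / 4) * B := by gcongr
      _ ≤ lam N1 δ * B := by gcongr
      _ ≤ _ := by gcongr
  refine ⟨?_, ?_, ?_⟩
  · calc lam n2 (δ / 4) * (3 * lam n1 (δ / 4) * (A + 2 * lam 1 (δ / 4) * N))
        ≤ lam n2 (δ / 4) * (3 * lam n1 (δ / 4) * (2 * lam 1 (δ / 4) * (A + N))) := by gcongr
      _ ≤ _ := big _ (by positivity)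
  · calc lam n2 (δ / 4) * (2 * lam 1 (δ / 4) * N)
        = 2 * lam n2 (δ / 4) * lam 1 (δ / 4) * N := by ring
      _ ≤ lam N2 δ * N := by gcongr
      _ ≤ _ := by gcongr
  · have e2 : A ≤ 2 * lam 1 (δ / 4) * A := by nlinarith
    calc lam n2 (δ / 4) * (3 * lam n1 (δ / 4) * A)
        ≤ lam n2 (δ / 4) * (3 * lam n1 (δ / 4) * (2 * lam 1 (δ / 4) * A)) := by gcongr
      _ ≤ _ := big _ hA

theorem Solve_par {c r c' r' δ : ℝ} (h : Par c r c' r' δ) :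
    Par c r (c - δ / 4) (r - δ / 4 * r) (δ / 4) ∧ (c - δ / 2) + δ / 4 ≤ c - δ / 4 ∧
      0 < r - δ / 4 * r ∧ r - δ / 4 * r ≤ c - δ / 2 ∧ c' ≤ c - δ / 2 ∧ r' ≤ r - δ / 4 * r ∧
      c - δ / 2 ≤ c ∧ r - δ / 4 * r ≤ r ∧ r ≤ c - δ / 2 := by
  have h0 : Par c r (c - δ / 4) (r - δ / 4 * r) (δ / 4) := by
    have := h.sub (k := 4) (j := 0) (by norm_num)
    simpa using this
  have hδ := h.δ0
  have hr := h.r_pos
  have h1 := h.rc
  have h2 := h.cc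
  have h3 := h.rr
  have h4 := mul_pos hδ hr
  refine ⟨h0, by linarith, h0.r0, ?_, ?_, ?_, ?_, ?_, ?_⟩ <;> nlinarith

theorem solve_minus : ∃ n : ℕ, ∀ (c r c' r' δ A N : ℝ) (g : ℂ × ℂ → ℂ), Par c r c' r' δ →
    AP {-1, 0, 1} c r g A → 0 ≤ N → (∀ ρ ∈ Rq r, fc g 0 ρ = 0) →
    (∀ m k : ℤ, m ≠ 0 → k ≠ 0 → |(k / m : ℝ)| < r →
      ‖fc g m ((k / m : ℝ) : ℂ)‖ ≤ N * Real.exp (-(2 * Real.pi * |(m : ℝ)| * c))) →
    ∃ w res : ℂ × ℂ → ℂ, AP {0, 1} c' r' w (lam n δ * (A + N)) ∧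
      AP {-1, 0, 1} c' r' res (lam n δ * N) ∧
      (∀ p ∈ Dm {-1, 0, 1} c' r', nabm w p = g p - res p) ∧
      (∀ ρ ∈ Rq r', fc w 0 ρ = 0) := by
  obtain ⟨n1, hn1⟩ := Solve_coef_minus
  obtain ⟨n2, hn2⟩ := synth
  obtain ⟨n, hn⟩ := Solve_absorb n1 n2
  refine ⟨n, ?_⟩
  intro c r c' r' δ A N g hP hg hN hg0 hk
  have hδ := hP.δ0
  have hA : 0 ≤ A := Solve_A_nonneg hP.c_pos hP.r_pos hg.bd
  obtain ⟨P0, q1, q2, q3, q4, q5, q6, q7, q8⟩ := Solve_par hP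
  choose s w hs hw hsw0 heq hsb hwb using hn1 c r _ _ (δ / 4) A N g P0 hg.toHP hN hk
  obtain ⟨hW, hWc⟩ := hn2 {0, 1} (c - δ / 4) (c - δ / 2) (r - δ / 4 * r)
    (3 * lam n1 (δ / 4) * (A + 2 * lam 1 (δ / 4) * N)) (δ / 4) w Solve_sml2 P0.δ0 P0.δ1 q1 q2 q3
    hw hwb
  obtain ⟨hR, hRc⟩ := hn2 {-1, 0, 1} (c - δ / 4) (c - δ / 2) (r - δ / 4 * r)
    (2 * lam 1 (δ / 4) * N) (δ / 4) s Solve_sml3 P0.δ0 P0.δ1 q1 q2 q3 hs hsb
  have hg2 : RP {-1, 0, 1} (c - δ / 2) (r - δ / 4 * r) g := hg.toRP.mono subset_rfl q6 q7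
  have hfeq : ∀ p ∈ Dm {-1, 0, 1} (c - δ / 2) (r - δ / 4 * r),
      nabm (fsum w) p = g p - fsum s p := by
    refine fc_unique (f := nabm (fsum w)) (g := fun p => g p - fsum s p)
      (hW.toPH.hnabm (by decide) (by decide)) (hg2.toPH.sub hR.toPH) Solve_sml3 q3 ?_
    intro m ρ hρ
    rw [fc_nabm hW.toPH Solve_sml2 q3 m (by decide) hρ, hWc m ρ hρ,
      fc_sub hg2.toPH hR.toPH Solve_sml3 q3 m hρ, hRc m ρ hρ]
    by_cases hm : m = 0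
    · obtain ⟨e1, e2⟩ := hsw0 m hm
      have hρ' : ρ ∈ Rq r := ⟨lt_of_lt_of_le hρ.1 q7, lt_of_lt_of_le hρ.2 q7⟩
      rw [e1, e2, hm, hg0 ρ hρ']
      simp
    · exact heq m hm ρ hρ
  have hW0 : ∀ ρ ∈ Rq (r - δ / 4 * r), fc (fsum w) 0 ρ = 0 := by
    intro ρ hρ
    rw [hWc 0 ρ hρ, (hsw0 0 rfl).2]
    rfl
  obtain ⟨a1, a2, a3, a4⟩ := Solve_fin_minus q3 hW hR hg2 hfeq hW0
  obtain ⟨b1, b2, -⟩ := hn δ A N hδ hP.δ1 hA hN
  refine ⟨Solve_sym (fsum w), Solve_sym (fsum s), a1.mono subset_rfl q4 q5 b1,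
    a2.mono subset_rfl q4 q5 b2, fun p hp => a3 p (Dm_mono subset_rfl q4 q5 hp),
    fun ρ hρ => a4 ρ ⟨lt_of_lt_of_le hρ.1 q5, lt_of_lt_of_le hρ.2 q5⟩⟩

theorem solve_plus : ∃ n : ℕ, ∀ (c r c' r' δ A N : ℝ) (g : ℂ × ℂ → ℂ), Par c r c' r' δ →
    AP {0, 1} c r g A → 0 ≤ N → (∀ ρ ∈ Rq r, fc g 0 ρ = 0) →
    (∀ m k : ℤ, m ≠ 0 → k ≠ 0 → |(k / m : ℝ)| < r →
      ‖fc g m ((k / m : ℝ) : ℂ)‖ ≤ N * Real.exp (-(2 * Real.pi * |(m : ℝ)| * c))) →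
    ∃ v s : ℂ × ℂ → ℂ, AP {0} c' r' v (lam n δ * (A + N)) ∧
      AP {0, 1} c' r' s (lam n δ * N) ∧
      (∀ p ∈ Dm {0, 1} c' r', nab v p = g p - s p) := by
  obtain ⟨n1, hn1⟩ := Solve_coef_plus
  obtain ⟨n2, hn2⟩ := synth
  obtain ⟨n, hn⟩ := Solve_absorb n1 n2
  refine ⟨n, ?_⟩
  intro c r c' r' δ A N g hP hg hN hg0 hk
  have hδ := hP.δ0
  have hA : 0 ≤ A := Solve_A_nonneg hP.c_pos hP.r_pos hg.bd
  obtain ⟨P0, q1, q2, q3, q4, q5, q6, q7, q8⟩ := Solve_par hP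
  choose s w hs hw hsw0 heq hsb hwb using hn1 c r _ _ (δ / 4) A N g P0 hg.toHP hN hk
  obtain ⟨hW, hWc⟩ := hn2 {0} (c - δ / 4) (c - δ / 2) (r - δ / 4 * r)
    (2 * lam n1 (δ / 4) * (A + 2 * lam 1 (δ / 4) * N)) (δ / 4) w Solve_sml1 P0.δ0 P0.δ1 q1 q2 q3
    hw hwb
  obtain ⟨hR, hRc⟩ := hn2 {0, 1} (c - δ / 4) (c - δ / 2) (r - δ / 4 * r)
    (2 * lam 1 (δ / 4) * N) (δ / 4) s Solve_sml2 P0.δ0 P0.δ1 q1 q2 q3 hs hsb
  have hg2 : RP {0, 1} (c - δ / 2) (r - δ / 4 * r) g := hg.toRP.mono subset_rfl q6 q7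
  have hfeq : ∀ p ∈ Dm {0, 1} (c - δ / 2) (r - δ / 4 * r),
      nab (fsum w) p = g p - fsum s p := by
    refine fc_unique (f := nab (fsum w)) (g := fun p => g p - fsum s p)
      (hW.toPH.hnab (by decide) (by decide)) (hg2.toPH.sub hR.toPH) Solve_sml2 q3 ?_
    intro m ρ hρ
    rw [fc_nab hW.toPH Solve_sml1 q3 m (by decide) hρ, hWc m ρ hρ,
      fc_sub hg2.toPH hR.toPH Solve_sml2 q3 m hρ, hRc m ρ hρ]
    by_cases hm : m = 0
    · obtain ⟨e1, e2⟩ := hsw0 m hm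
      have hρ' : ρ ∈ Rq r := ⟨lt_of_lt_of_le hρ.1 q7, lt_of_lt_of_le hρ.2 q7⟩
      rw [e1, e2, hm, hg0 ρ hρ']
      simp
    · exact heq m hm ρ hρ
  obtain ⟨a1, a2, a3⟩ := Solve_fin_plus hW hR hg2 hfeq
  obtain ⟨b1, b2, -⟩ := hn δ A N hδ hP.δ1 hA hN
  have hd : 0 < δ / 4 := by positivity
  have l2 := lam_nonneg n2 hd
  have l3 := lam_nonneg n1 hd
  have l4 := lam_nonneg 1 hd
  have b1' : lam n2 (δ / 4) * (2 * lam n1 (δ / 4) * (A + 2 * lam 1 (δ / 4) * N)) ≤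
      lam n δ * (A + N) := by
    refine le_trans ?_ b1
    gcongr
    norm_num
  exact ⟨Solve_sym (fsum w), Solve_sym (fsum s), a1.mono subset_rfl q4 q5 b1',
    a2.mono subset_rfl q4 q5 b2, fun p hp => a3 p (Dm_mono subset_rfl q4 q5 hp)⟩

theorem apriori_minus : ∃ n : ℕ, ∀ (c r c' r' δ A : ℝ) (h : ℂ × ℂ → ℂ), Par c r c' r' δ →
    PH {0, 1} c r h → (∀ p ∈ Dm {-1, 0, 1} c r, p.2 ≠ 0 → ‖nabm h p‖ ≤ A) →
    ∀ p ∈ Dm {0, 1} c' r', ‖h p - fc h 0 p.2‖ ≤ lam n δ * A := by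
  obtain ⟨n1, hn1⟩ := div_apriori
  obtain ⟨n2, hn2⟩ := synth
  obtain ⟨n, hn⟩ := Solve_absorb n1 n2
  refine ⟨n, ?_⟩
  intro c r c' r' δ A h hP hh hbd
  have hδ := hP.δ0
  obtain ⟨P0, q1, q2, q3, q4, q5, q6, q7, q8⟩ := Solve_par hP
  have hγ : PH {-1, 0, 1} c r (nabm h) := hh.hnabm (by decide) (by decide)
  -- the bound also holds for `ρ = 0`
  have hbd' : ∀ p ∈ Dm {-1, 0, 1} c r, ‖nabm h p‖ ≤ A := by
    intro p hp
    by_cases hp0 : p.2 = 0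
    · have hcont : ContinuousAt (nabm h) p :=
        hγ.diff.continuousOn.continuousAt ((isOpen_Dm _ _ _).mem_nhds hp)
      have hpath : Tendsto (fun t : ℂ => ((p.1, t) : ℂ × ℂ)) (𝓝[≠] (0 : ℂ)) (𝓝 p) := by
        have h1 : Tendsto (fun t : ℂ => ((p.1, t) : ℂ × ℂ)) (𝓝 (0 : ℂ)) (𝓝 (p.1, 0)) :=
          (by fun_prop : Continuous fun t : ℂ => ((p.1, t) : ℂ × ℂ)).tendsto 0
        have h2 : ((p.1, 0) : ℂ × ℂ) = p := by rw [← hp0]
        rw [h2] at h1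
        exact h1.mono_left nhdsWithin_le_nhds
      have h3 : Tendsto (fun t : ℂ => ‖nabm h (p.1, t)‖) (𝓝[≠] (0 : ℂ)) (𝓝 ‖nabm h p‖) :=
        (hcont.tendsto.comp hpath).norm
      refine le_of_tendsto h3 ?_
      have h4 : ∀ᶠ t in 𝓝[≠] (0 : ℂ), ((p.1, t) : ℂ × ℂ) ∈ Dm {-1, 0, 1} c r :=
        hpath.eventually ((isOpen_Dm _ _ _).mem_nhds hp)
      filter_upwards [h4, self_mem_nhdsWithin] with t ht ht0
      exact hbd _ ht ht0
    · exact hbd p hp hp0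
  have hγHP : HP {-1, 0, 1} c r (nabm h) A := { hγ with bd := hbd' }
  have hA : 0 ≤ A := Solve_A_nonneg hP.c_pos hP.r_pos hbd'
  set b : ℤ → ℂ → ℂ := fun m => if m = 0 then 0 else fc h m with hb
  have hsub : Rq (r - δ / 4 * r) ⊆ Rq r := by
    intro z hz
    exact ⟨lt_of_lt_of_le hz.1 q7, lt_of_lt_of_le hz.2 q7⟩
  have hbd2 : ∀ m, DifferentiableOn ℂ (b m) (Rq (r - δ / 4 * r)) := by
    intro m
    by_cases hm : m = 0
    · simp only [hb, if_pos hm]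
      exact differentiableOn_const 0
    · simp only [hb, if_neg hm]
      exact (fc_diff hh Solve_sml2 hP.r_le_c m).mono hsub
  have hWneg : ∀ (m : ℤ) ρ, Wt {-1, 0, 1} (-m) ρ = Wt {-1, 0, 1} m ρ := by
    intro m ρ
    rw [Solve_Wt3, Solve_Wt3, Solve_x_neg, inv_inv]
    ring
  have hbb : ∀ m, ∀ ρ ∈ Rq (r - δ / 4 * r), ‖b m ρ‖ ≤ (3 * lam n1 (δ / 4) * A) *
      Real.exp (-(2 * Real.pi * |(m : ℝ)| * c)) * Wt {0, 1} m ρ := by
    intro m ρ hρ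
    by_cases hm : m = 0
    · simp only [hb, if_pos hm, Pi.zero_apply, norm_zero]
      have := Solve_x_pos m ρ
      have := lam_nonneg n1 P0.δ0
      rw [Solve_Wt2]
      positivity
    · simp only [hb, if_neg hm]
      have hdiv := hn1 {-1, 0, 1} (-m) r (r - δ / 4 * r) (δ / 4)
        (A * Real.exp (-(2 * Real.pi * |(m : ℝ)| * c))) (fc (nabm h) m) (fun ρ => -fc h m ρ)
        Solve_sml3 (neg_ne_zero.mpr hm) P0.δ0 P0.δ1 P0.r0 P0.rr hP.r_le_one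
        (fc_diff hh Solve_sml2 hP.r_le_c m).neg (by
          intro ρ hρ
          rw [fc_nabm hh Solve_sml2 hP.r_le_c m (by decide) hρ, Solve_theta_neg]
          ring) (by
          intro ρ hρ
          rw [hWneg]
          exact fc_bound hγHP Solve_sml3 hP.r_le_c m hρ) ρ hρ
      have hxneg : ‖exp (2 * Real.pi * I * (-m : ℤ) * ρ)‖ = (Solve_x m ρ)⁻¹ := Solve_x_neg m ρ
      rw [hxneg, hWneg, Solve_Wt3] at hdiv
      have h2 := Solve_div3 (Solve_x_pos m ρ) (norm_nonneg _) hdiv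
      rw [norm_neg] at h2
      rw [Solve_Wt2]
      refine h2.trans (le_of_eq ?_)
      ring
  obtain ⟨hH, hHc⟩ := hn2 {0, 1} c (c - δ / 2) (r - δ / 4 * r) (3 * lam n1 (δ / 4) * A) (δ / 4) b
    Solve_sml2 P0.δ0 P0.δ1 (by linarith) q2 q3 hbd2 hbb
  have hh2 : PH {0, 1} (c - δ / 2) (r - δ / 4 * r) h := hh.mono subset_rfl q6 q7
  have h0P : PH {0, 1} (c - δ / 2) (r - δ / 4 * r) (fun p => fc h 0 p.2) :=
    PH.ofρ ((fc_diff hh Solve_sml2 hP.r_le_c 0).mono hsub)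
  have huniq : ∀ p ∈ Dm {0, 1} (c - δ / 2) (r - δ / 4 * r), h p - fc h 0 p.2 = fsum b p := by
    refine fc_unique (f := fun p => h p - fc h 0 p.2) (g := fsum b) (hh2.sub h0P) hH.toPH
      Solve_sml2 q3 ?_
    intro m ρ hρ
    rw [fc_sub hh2 h0P Solve_sml2 q3 m hρ, fc_ofρ, hHc m ρ hρ]
    by_cases hm : m = 0
    · simp [hb, hm]
    · simp [hb, hm]
  intro p hp
  have hp2 := Dm_mono (S := {0, 1}) subset_rfl q4 q5 hp
  rw [huniq p hp2]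
  exact (hH.bd p hp2).trans (hn δ A 0 hδ hP.δ1 hA le_rfl).2.2

end Pool.Agent.MP_ae5b4e_an_SM
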