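import Mathlib
import Pool.Agent.Lib.MP_ae5b4e_an_SM.Lam
import Pool.Agent.Lib.MP_ae5b4e_an_SM.OpsA
import Pool.Agent.Lib.MP_ae5b4e_an_SM.OpsB
import Pool.Agent.Lib.MP_ae5b4e_an_SM.FourA
import Pool.Agent.Lib.MP_ae5b4e_an_SM.FourB
import Pool.Agent.Lib.MP_ae5b4e_an_SM.Solve
import Pool.Agent.Lib.MP_ae5b4e_an_SM.LagF
import Pool.Agent.Lib.MP_ae5b4e_an_SM.IdentA
import Pool.Agent.Lib.MP_ae5b4e_an_SM.IdentB
import Pool.Agent.Lib.MP_ae5b4e_an_SM.Nodal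
import Pool.Agent.Lib.MP_ae5b4e_an_SM.ChainC

/-!
# MP_ae5b4e_an, project SMOOTH: the Newton step
-/

noncomputable section

namespace Pool.Agent.MP_ae5b4e_an_SM

open Complex Set Filter Topology

/-- mean values of real functions are real -/
theorem fc_real {S : Finset ℤ} {c r : ℝ} {f : ℂ × ℂ → ℂ} (h : RP S c r f) (hS : Sml S)
    (hr : r ≤ c) {ρ : ℂ} (hρ : ρ ∈ Rq r) (hi : ρ.im = 0) : (fc f 0 ρ).im = 0 := by
  have h1 : ∀ s : ℝ, f ((s : ℂ), ρ) = ((f ((s : ℂ), ρ)).re : ℂ) := by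
    intro s
    have h2 := h.real (s, ρ) (mem_real hS.le hr s hρ) (by simp) hi
    apply Complex.ext
    · simp
    · simpa using h2
  unfold fc
  have h3 : (fun s : ℝ => f ((s : ℂ), ρ) * exp (-(2 * Real.pi * I * ((0:ℤ) : ℂ) * s))) =
      fun s : ℝ => ((f ((s : ℂ), ρ)).re : ℂ) := by
    funext s
    rw [h1 s]
    simp
  rw [h3, intervalIntegral.integral_ofReal]
  exact ofReal_im _

/-- bounds for `ρ ≠ 0` are bounds -/
theorem bd_of_ne {S : Finset ℤ} {c r M : ℝ} {f : ℂ × ℂ → ℂ} (hf : ContinuousOn f (Dm S c r))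
    (h : ∀ p ∈ Dm S c r, p.2 ≠ 0 → ‖f p‖ ≤ M) : ∀ p ∈ Dm S c r, ‖f p‖ ≤ M := by
  intro p hp
  have h1 : ContinuousOn (fun q => (max ‖f q‖ M : ℝ)) (Dm S c r) := hf.norm.sup continuousOn_const
  have h1' : ContinuousOn (fun q => ((max ‖f q‖ M : ℝ) : ℂ)) (Dm S c r) :=
    continuous_ofReal.comp_continuousOn h1
  have h2 := eq_of_ne (g := fun _ => (M : ℂ)) h1' continuousOn_const (by
    intro q hq hq0
    simp [max_eq_right (h q hq hq0)]) p hp
  have h3 : max ‖f p‖ M = M := by exact_mod_cast h2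
  exact max_eq_right_iff.1 h3

lemma norm_of_near {a : ℂ} (h : ‖a - 1‖ ≤ 1 / 4) : 3 / 4 ≤ ‖a‖ ∧ ‖a‖ ≤ 5 / 4 := by
  have h1 : ‖a‖ ≤ ‖a - 1‖ + ‖(1:ℂ)‖ := by simpa using norm_add_le (a - 1) 1
  have h2 : ‖(1:ℂ)‖ ≤ ‖a‖ + ‖a - 1‖ := by
    have := norm_sub_le a (a - 1)
    simpa using this
  rw [norm_one] at h1 h2
  constructor <;> linarith

lemma inv_near {a : ℂ} (h : ‖a - 1‖ ≤ 1 / 4) : ‖a⁻¹‖ ≤ 4 / 3 ∧ ‖a⁻¹ - 1‖ ≤ 1 / 3 := by
  obtain ⟨h1, h2⟩ := norm_of_near h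
  have h0 : a ≠ 0 := by
    intro h0
    rw [h0, norm_zero] at h1
    linarith
  have h3 : ‖a⁻¹‖ ≤ 4 / 3 := by
    rw [norm_inv]
    have := inv_anti₀ (by norm_num : (0:ℝ) < 3 / 4) h1
    norm_num at this
    linarith
  refine ⟨h3, ?_⟩
  have e : a⁻¹ - 1 = a⁻¹ * (1 - a) := by field_simp
  rw [e, norm_mul, norm_sub_rev]
  have := mul_le_mul h3 h (norm_nonneg _) (by norm_num)
  linarith

lemma nabm_ofρ (a : ℂ → ℂ) {p : ℂ × ℂ} (h : p.2 ≠ 0) : nabm (fun q => a q.2) p = 0 := by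
  rw [nabm_of_ne h]
  simp

/-- the step, with all losses bounded by one number `l` -/
theorem newton_step {L : ℂ × ℂ × ℂ → ℂ} {k1 : ℂ} {b M : ℝ} (hL : Lag L k1 b M)
    (hH : Closing L b) :
    ∃ (κ₀ : ℝ) (n : ℕ), 0 < κ₀ ∧ κ₀ ≤ b / 16 ∧ ∀ (c r c' r' δ κ ε : ℝ) (F : ℂ × ℂ → ℂ),
    Par c r c' r' δ → c ≤ b / 16 → r ≤ κ₀ → GF c r κ F → 0 ≤ ε → κ + lam n δ * ε ≤ κ₀ →
    (∀ p ∈ Dm {-1, 0, 1} c r, ‖EL L F p‖ ≤ ε) →
    ∃ F' : ℂ × ℂ → ℂ, GF c' r' (κ + lam n δ * ε) F' ∧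
      (∀ p ∈ Dm {0} c' r', ‖F' p - F p‖ ≤ lam n δ * ε) ∧
      (∀ p ∈ Dm {-1, 0, 1} c' r', ‖EL L F' p‖ ≤ lam n δ * ε ^ 2) := by
  obtain ⟨κa, hκa0, hκab, haa⟩ := aa_near hL
  obtain ⟨κc, nc, hκc0, hκcb, hch⟩ := chain hL hH
  obtain ⟨nm, hsm⟩ := solve_minus
  obtain ⟨np, hsp⟩ := solve_plus
  obtain ⟨nn, hnod⟩ := nodal k1
  obtain ⟨nt, htay⟩ := EL_taylor hL
  set n1 : ℕ := nc + nm + np + nn + nt + 1 with hn1
  refine ⟨min κa κc, 12700 + 56 * n1, lt_min hκa0 hκc0, (min_le_left _ _).trans hκab, ?_⟩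
  intro c r c' r' δ κ ε F hP hc hr hF hε hκε hE
  set κ₀ := min κa κc with hκ₀
  have hb0 := hL.b0
  have hb1 := hL.b1
  have hδ0 := hP.δ0
  have hδ1 := hP.δ1
  have hκ₀a : κ₀ ≤ κa := min_le_left _ _
  have hκ₀c : κ₀ ≤ κc := min_le_right _ _
  have hκ₀b : κ₀ ≤ b / 16 := hκ₀a.trans hκab
  have hd0 : 0 < δ / 8 := by positivity
  have hd1 : δ / 8 ≤ 1 := by linarith
  -- the loss
  set l := lam n1 (δ / 8) with hl
  have hl1 : 1 ≤ l := one_le_lam _ hd0 hd1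
  have hl0 : 0 ≤ l := by linarith
  have hlc : lam nc (δ / 8) ≤ l := lam_mono (by omega) hd0 hd1
  have hlm : lam nm (δ / 8) ≤ l := lam_mono (by omega) hd0 hd1
  have hlp : lam np (δ / 8) ≤ l := lam_mono (by omega) hd0 hd1
  have hln : lam nn (δ / 8) ≤ l := lam_mono (by omega) hd0 hd1
  have hlt : lam nt (δ / 8) ≤ l := lam_mono (by omega) hd0 hd1
  have hld : 1 / (δ / 8) ≤ l := inv_le_lam (by omega) hd0 hd1
  have hl7 : 12700 * l ^ 7 ≤ lam (12700 + 56 * n1) δ := by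
    have h1 : l ≤ lam (n1 * 8) δ := by
      have := lam_div_le (k := 8) n1 (by norm_num) hδ0 hδ1
      simpa using this
    have h2 : ∀ j : ℕ, lam (n1 * 8) δ ^ j ≤ lam (n1 * 8 * j) δ := by
      intro j
      induction j with
      | zero => simp [lam]
      | succ j ih =>
        rw [pow_succ]
        calc lam (n1 * 8) δ ^ j * lam (n1 * 8) δ ≤ lam (n1 * 8 * j) δ * lam (n1 * 8) δ := by
              gcongr
              exact lam_nonneg _ hδ0
          _ ≤ lam (n1 * 8 * j + n1 * 8) δ := lam_mul_le _ _ hδ0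
          _ = _ := by ring_nf
    have h3 : (12700 : ℝ) ≤ lam 12700 δ := le_lam (by norm_num) hδ0 hδ1
    calc 12700 * l ^ 7 ≤ lam 12700 δ * lam (n1 * 8) δ ^ 7 := by gcongr
      _ ≤ lam 12700 δ * lam (n1 * 8 * 7) δ := by
          gcongr
          exact h2 7
      _ ≤ lam (12700 + n1 * 8 * 7) δ := lam_mul_le _ _ hδ0
      _ = _ := by ring_nf
  set Λ := lam (12700 + 56 * n1) δ with hΛ
  have hκ0 : 0 ≤ κ := by
    have h0 : ((0:ℂ), (0:ℂ)) ∈ Dm {0} c r := by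
      have h1 := hP.r_pos
      have h2 := hP.c_pos
      rw [mem_Dm]
      simp [h1, h2]
    exact (norm_nonneg _).trans (hF.dt1 _ h0)
  have hΛε : Λ * ε ≤ κ₀ := by linarith
  have hΛε1 : Λ * ε ≤ 1 := by linarith
  have hl7ε : 12700 * l ^ 7 * ε ≤ 1 := (mul_le_mul_of_nonneg_right hl7 hε).trans hΛε1
  have hpow : ∀ i j : ℕ, i ≤ j → l ^ i ≤ l ^ j := fun i j h => pow_le_pow_right₀ hl1 h
  have hl3ε : l ^ 3 * ε ≤ 1 := by
    have h1 := hpow 3 7 (by norm_num)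
    have h2 : l ^ 3 * ε ≤ l ^ 7 * ε := by gcongr
    have h3 : 0 ≤ l ^ 7 * ε := by positivity
    linarith
  have hlε : l * ε ≤ 1 := by
    have h1 := hpow 1 3 (by norm_num)
    rw [pow_one] at h1
    have h2 : l * ε ≤ l ^ 3 * ε := by gcongr
    linarith
  -- the steps
  have hP0 := hP.sub (k := 8) (j := 0) (by norm_num)
  have hP1 := hP.sub (k := 8) (j := 1) (by norm_num)
  have hP2 := hP.sub (k := 8) (j := 2) (by norm_num)
  have hP3 := hP.sub (k := 8) (j := 3) (by norm_num)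
  have hlast := hP.last (k := 8) (by norm_num)
  norm_num at hP0 hP1 hP2 hP3 hlast
  set c1 := c - δ / 8 with hc1
  set r1 := r - δ / 8 * r with hr1
  set c2 := c - 2 * (δ / 8) with hc2
  set r2 := r - 2 * (δ / 8) * r with hr2
  set c3 := c - 3 * (δ / 8) with hc3
  set r3 := r - 3 * (δ / 8) * r with hr3
  set c4 := c - 4 * (δ / 8) with hc4
  set r4 := r - 4 * (δ / 8) * r with hr4
  have hr0 := hP.r_pos
  have hr4' : 0 < r4 := hP3.r0
  have hdr : 0 < δ / 8 * r := by positivity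
  have e1 : c1 ≤ c := by linarith
  have e2 : c2 ≤ c1 := by linarith
  have e3 : c3 ≤ c2 := by linarith
  have e4 : c4 ≤ c3 := by linarith
  have f1 : r1 ≤ r := by linarith
  have f2 : r2 ≤ r1 := by rw [hr1, hr2]; linarith only [hdr]
  have f3 : r3 ≤ r2 := by rw [hr2, hr3]; linarith only [hdr]
  have f4 : r4 ≤ r3 := by rw [hr3, hr4]; linarith only [hdr]
  have hrb : r ≤ b / 16 := hr.trans hκ₀b
  have hκb : κ ≤ b / 16 := by linarith [mul_nonneg (lam_nonneg (12700 + 56 * n1) hδ0) hε]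
  have hκκ₀ : κ ≤ κ₀ := by linarith [mul_nonneg (lam_nonneg (12700 + 56 * n1) hδ0) hε]
  have sF : Sml {0} := ⟨by simp, by simp⟩
  have sW : Sml {0, 1} := ⟨by simp, by simp⟩
  have sE : Sml {-1, 0, 1} := ⟨by simp, by simp⟩
  have iWE : ({0, 1} : Finset ℤ) ⊆ {-1, 0, 1} := by decide
  have iFW : ({0} : Finset ℤ) ⊆ {0, 1} := by decide
  have iFE : ({0} : Finset ℤ) ⊆ {-1, 0, 1} := by decide
  have hFκ₀ : GF c r κ₀ F := hF.mono le_rfl le_rfl hκκ₀
  -- the error and its values at the nodes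
  have hEr : RP {-1, 0, 1} c r (EL L F) := EL_RP hL hF hc hrb hκb
  have hk2 : ∀ p ∈ Dm {0} c r, ‖dt F p‖ ≤ 2 ∧ 1 / 2 ≤ ‖dt F p‖ := by
    intro p hp
    have h1 := hF.dt1 p hp
    have h2 : ‖dt F p‖ ≤ ‖dt F p - 1‖ + ‖(1:ℂ)‖ := by simpa using norm_add_le (dt F p - 1) 1
    have h3 : ‖(1:ℂ)‖ ≤ ‖dt F p‖ + ‖dt F p - 1‖ := by
      have := norm_sub_le (dt F p) (dt F p - 1)
      simpa using this
    rw [norm_one] at h2 h3
    constructor <;> linarith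
  have hdtF : RP {0} c r (dt F) := hF.dt_RP
  have hg : AP {-1, 0, 1} c r (fun p => dt F p * EL L F p) (2 * ε) :=
    { (hdtF.mono iFE le_rfl le_rfl).mul hEr with
      bd := by
        intro p hp
        rw [norm_mul]
        exact mul_le_mul (hk2 p (Dm_mono iFE le_rfl le_rfl hp)).1 (hE p hp) (norm_nonneg _)
          (by norm_num) }
  have hg0 : ∀ ρ ∈ Rq r, fc (fun p => dt F p * EL L F p) 0 ρ = 0 :=
    EL_mean hL hF hc hrb hκb hP.r_le_c
  have hRq : ∀ {x y : ℝ}, x ≤ y → Rq x ⊆ Rq y := by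
    intro x y hxy z hz
    exact ⟨hz.1.trans_le hxy, hz.2.trans_le hxy⟩
  set N1 := lam nc (δ / 8) * ε ^ 2 with hN1
  have hN10 : 0 ≤ N1 := mul_nonneg (lam_nonneg _ hd0) (by positivity)
  have hN1l : N1 ≤ l * ε ^ 2 := by rw [hN1]; gcongr
  have hN1ε : N1 ≤ ε := by
    have : l * ε ^ 2 = (l * ε) * ε := by ring
    rw [this] at hN1l
    exact hN1l.trans (mul_le_of_le_one_left hε hlε)
  have hn1' : ∀ m k : ℤ, m ≠ 0 → k ≠ 0 → |(k / m : ℝ)| < r1 →
      ‖fc (fun p => dt F p * EL L F p) m ((k / m : ℝ) : ℂ)‖ ≤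
        N1 * Real.exp (-(2 * Real.pi * |(m : ℝ)| * c1)) := by
    intro m k hm hk hmk
    exact hch c r c1 r1 (δ / 8) ε F hP0 hc (hr.trans hκ₀c)
      (hF.mono le_rfl le_rfl (hκκ₀.trans hκ₀c)) hε hE m k hm hk (hmk.trans_le f1)
  obtain ⟨w, res, hw, hres, hweq, hw0⟩ := hsm c1 r1 c2 r2 (δ / 8) (2 * ε) N1 _ hP1
    (AP.mono hg (Finset.Subset.refl _) e1 f1 le_rfl) hN10 (fun ρ hρ => hg0 ρ (hRq f1 hρ)) hn1'
  -- the constant of integration
  set a := aa L F with ha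
  have haR : RP {0, 1} c r a := aa_RP hL hF hc hrb hκb
  have han : ∀ p ∈ Dm {0, 1} c r, ‖a p - 1‖ ≤ 1 / 4 :=
    haa c r F hc (hr.trans hκ₀a) (hF.mono le_rfl le_rfl (hκκ₀.trans hκ₀a))
  have ha0 : ∀ p ∈ Dm {0, 1} c r, a p ≠ 0 := by
    intro p hp h0
    have := (norm_of_near (han p hp)).1
    rw [h0, norm_zero] at this
    linarith
  have hsub2 : Dm {0, 1} c2 r2 ⊆ Dm {0, 1} c r :=
    Dm_mono (Finset.Subset.refl _) (e2.trans e1) (f2.trans f1)
  have haR2 : RP {0, 1} c2 r2 a := haR.mono (Finset.Subset.refl _) (e2.trans e1) (f2.trans f1)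
  have hainv : RP {0, 1} c2 r2 (fun p => (a p)⁻¹) := haR2.inv fun p hp => ha0 p (hsub2 hp)
  have hrc2 : r2 ≤ c2 := hP2.r_le_c
  set W := l * (3 * ε) with hW
  have hW0 : 0 ≤ W := by positivity
  have hwW : ∀ p ∈ Dm {0, 1} c2 r2, ‖w p‖ ≤ W := by
    intro p hp
    refine (hw.bd p hp).trans ?_
    rw [hW]
    gcongr
    linarith
  have hwa : HP {0, 1} c2 r2 (fun p => w p * (a p)⁻¹) (W * (4 / 3)) :=
    { (hw.toPH).mul hainv.toPH with
      bd := by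
        intro p hp
        rw [norm_mul]
        exact mul_le_mul (hwW p hp) (inv_near (han p (hsub2 hp))).1 (norm_nonneg _) hW0 }
  have hinv1 : ∀ ρ ∈ Rq r2, 2 / 3 ≤ ‖fc (fun p => (a p)⁻¹) 0 ρ‖ := by
    intro ρ hρ
    have h1 : HP {0, 1} c2 r2 (fun p => (a p)⁻¹ - 1) (1 / 3) :=
      { (hainv.toPH).sub (PH.const 1) with
        bd := fun p hp => (inv_near (han p (hsub2 hp))).2 }
    have h2 := fc_le h1 sW hrc2 0 hρ
    rw [fc_sub hainv.toPH (PH.const 1) sW hrc2 0 hρ, fc_ofρ (fun _ => 1) 0 ρ] at h2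
    simp only [if_true] at h2
    have h3 : ‖(1:ℂ)‖ ≤ ‖fc (fun p => (a p)⁻¹) 0 ρ‖ + ‖fc (fun p => (a p)⁻¹) 0 ρ - 1‖ := by
      have := norm_sub_le (fc (fun p => (a p)⁻¹) 0 ρ) (fc (fun p => (a p)⁻¹) 0 ρ - 1)
      simpa using this
    rw [norm_one] at h3
    linarith
  set c0 : ℂ → ℂ := fun ρ => -(fc (fun p => w p * (a p)⁻¹) 0 ρ / fc (fun p => (a p)⁻¹) 0 ρ)
    with hc0
  have hne : ∀ ρ ∈ Rq r2, fc (fun p => (a p)⁻¹) 0 ρ ≠ 0 := by
    intro ρ hρ h0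
    have := hinv1 ρ hρ
    rw [h0, norm_zero] at this
    linarith
  have hc0d : DifferentiableOn ℂ c0 (Rq r2) :=
    ((fc_diff hwa.toPH sW hrc2 0).div (fc_diff hainv.toPH sW hrc2 0) hne).neg
  have hc0b : ∀ ρ ∈ Rq r2, ‖c0 ρ‖ ≤ 3 * W := by
    intro ρ hρ
    rw [hc0]
    simp only [norm_neg, norm_div]
    rw [div_le_iff₀ (norm_pos_iff.2 (hne ρ hρ))]
    have h1 := fc_le hwa sW hrc2 0 hρ
    have h2 := hinv1 ρ hρ
    have h3 := mul_le_mul_of_nonneg_left h2 hW0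
    linarith only [h1, h3, hW0]
  have hwaR : RP {0, 1} c2 r2 (fun p => w p * (a p)⁻¹) := (hw.toRP).mul hainv
  have hc0r : ∀ ρ ∈ Rq r2, ρ.im = 0 → (c0 ρ).im = 0 := by
    intro ρ hρ hi
    have h1 := fc_real hwaR sW hrc2 hρ hi
    have h2 := fc_real hainv sW hrc2 hρ hi
    rw [hc0]
    simp only [neg_im, div_im, h1, h2]
    simp
  have hc0R : RP {0, 1} c2 r2 (fun p => c0 p.2) := RP.ofρ hc0d hc0r
  -- the right side of the second equation
  set y : ℂ × ℂ → ℂ := fun p => (w p + c0 p.2) / a p with hy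
  have hyR : RP {0, 1} c2 r2 y := ((hw.toRP).add hc0R).div haR2 fun p hp => ha0 p (hsub2 hp)
  have hyb : ∀ p ∈ Dm {0, 1} c2 r2, ‖y p‖ ≤ 6 * W := by
    intro p hp
    have h1 : ‖w p + c0 p.2‖ ≤ W + 3 * W :=
      (norm_add_le _ _).trans (add_le_add (hwW p hp) (hc0b _ hp.2))
    have h2 := (inv_near (han p (hsub2 hp))).1
    rw [hy]
    simp only
    rw [div_eq_mul_inv, norm_mul]
    have h3 := mul_le_mul h1 h2 (norm_nonneg _) (by positivity)
    linarith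
  have hy0 : ∀ ρ ∈ Rq r2, fc y 0 ρ = 0 := by
    intro ρ hρ
    have h1 : y = fun p => w p * (a p)⁻¹ + c0 p.2 * (a p)⁻¹ := by
      funext p
      rw [hy]
      simp only
      rw [div_eq_mul_inv, add_mul]
    have h2 : PH {0, 1} c2 r2 (fun p => c0 p.2 * (a p)⁻¹) := hc0R.toPH.mul hainv.toPH
    rw [h1, fc_add hwa.toPH h2 sW hrc2 0 hρ, fc_smul]
    have h3 := hne ρ hρ
    have h4 : c0 ρ * fc (fun p => (a p)⁻¹) 0 ρ = -fc (fun p => w p * (a p)⁻¹) 0 ρ := by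
      rw [hc0]
      simp only
      rw [neg_mul, div_mul_cancel₀ _ h3]
    rw [h4, add_neg_cancel]
  -- its values at the nodes
  set Nr := lam nm (δ / 8) * N1 with hNr
  have hNr0 : 0 ≤ Nr := mul_nonneg (lam_nonneg _ hd0) hN10
  have hNrl : Nr ≤ l ^ 2 * ε ^ 2 := by
    rw [hNr]
    calc lam nm (δ / 8) * N1 ≤ l * (l * ε ^ 2) := by gcongr
      _ = _ := by ring
  set N2 := lam nn (δ / 8) * (Nr + 3 * W * ε) with hN2
  have hN20 : 0 ≤ N2 := mul_nonneg (lam_nonneg _ hd0) (by positivity)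
  have hN2l : N2 ≤ 10 * l ^ 3 * ε ^ 2 := by
    rw [hN2, hW]
    calc lam nn (δ / 8) * (Nr + 3 * (l * (3 * ε)) * ε) ≤
          l * (l ^ 2 * ε ^ 2 + 3 * (l * (3 * ε)) * ε) := by gcongr
      _ = l ^ 3 * ε ^ 2 + 9 * (l ^ 2 * ε ^ 2) := by ring
      _ ≤ l ^ 3 * ε ^ 2 + 9 * (l ^ 3 * ε ^ 2) := by
          have := hpow 2 3 (by norm_num)
          gcongr
      _ = _ := by ring
  have hnode : ∀ m k : ℤ, m ≠ 0 → k ≠ 0 → |(k / m : ℝ)| < r3 →
      ‖fc y m ((k / m : ℝ) : ℂ)‖ ≤ N2 * Real.exp (-(2 * Real.pi * |(m : ℝ)| * c3)) := by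
    have hEA : AP {-1, 0, 1} c2 r2 (EL L F) ε :=
      { hEr.mono (Finset.Subset.refl _) (e2.trans e1) (f2.trans f1) with
        bd := fun p hp => hE p (Dm_mono (Finset.Subset.refl _) (e2.trans e1) (f2.trans f1) hp) }
    have hwH : HP {0, 1} c2 r2 w (3 * W) :=
      { hw.toPH with bd := fun p hp => (hwW p hp).trans (by linarith) }
    have hrH : HP {-1, 0, 1} c2 r2 res Nr := hres.toHP
    have hI2 : ∀ p ∈ Dm {-1, 0, 1} c2 r2, p.2 ≠ 0 →
        dt F p * (p.2 * dr (EL L F) p + k1 * EL L F p) - p.2 * dr F p * dt (EL L F) p =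
          nabm (Gf a (uu F)) p := fun p hp => EL_I2 hL hF hc hrb hκb p
      (Dm_mono (Finset.Subset.refl _) (e2.trans e1) (f2.trans f1) hp)
    have hF4 : GF c2 r2 (1 / 4) F := hF.mono (e2.trans e1) (f2.trans f1) (by linarith)
    exact hnod c2 r2 c3 r3 (δ / 8) ε (3 * W) Nr F (EL L F) a w res c0 hP2 hF4 hEA haR2.toPH
      (fun p hp => han p (hsub2 hp)) hI2 hwH hrH hweq hc0d hc0b hε hNr0
      ((mul_le_mul_of_nonneg_right hln hε).trans hlε)
  have hy3 : AP {0, 1} c3 r3 y (6 * W) :=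
    { hyR.mono (Finset.Subset.refl _) e3 f3 with
      bd := fun p hp => hyb p (Dm_mono (Finset.Subset.refl _) e3 f3 hp) }
  obtain ⟨v, s, hv, hs, hveq⟩ := hsp c3 r3 c4 r4 (δ / 8) (6 * W) N2 y hP3 hy3 hN20
    (fun ρ hρ => hy0 ρ (hRq f3 hρ)) hnode
  -- the correction
  set V := 28 * l ^ 2 * ε with hV
  have hV0 : 0 ≤ V := by positivity
  have hvV : ∀ p ∈ Dm {0} c4 r4, ‖v p‖ ≤ V := by
    intro p hp
    refine (hv.bd p hp).trans ?_
    have h2 : l ^ 3 * ε ^ 2 ≤ ε := by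
      have : l ^ 3 * ε ^ 2 = (l ^ 3 * ε) * ε := by ring
      rw [this]
      exact mul_le_of_le_one_left hε hl3ε
    have h3 : ε ≤ l * ε := le_mul_of_one_le_left hε hl1
    calc lam np (δ / 8) * (6 * W + N2) ≤ l * (6 * (l * (3 * ε)) + 10 * l ^ 3 * ε ^ 2) := by
          rw [hW]; gcongr
      _ ≤ l * (6 * (l * (3 * ε)) + 10 * (l * ε)) := by
          have h4 : 10 * l ^ 3 * ε ^ 2 ≤ 10 * (l * ε) := by
            have h5 : 10 * l ^ 3 * ε ^ 2 = 10 * (l ^ 3 * ε ^ 2) := by ring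
            linarith
          exact mul_le_mul_of_nonneg_left (by linarith) hl0
      _ = _ := by rw [hV]; ring
  have hsS : ∀ p ∈ Dm {0, 1} c4 r4, ‖s p‖ ≤ 10 * l ^ 4 * ε ^ 2 := by
    intro p hp
    refine (hs.bd p hp).trans ?_
    calc lam np (δ / 8) * N2 ≤ l * (10 * l ^ 3 * ε ^ 2) := by gcongr
      _ = _ := by ring
  have g4 : c4 ≤ c := by linarith
  have h4r : r4 ≤ r := by linarith
  have hF4 : GF c4 r4 κ F := hF.mono g4 h4r le_rfl
  set z : ℂ × ℂ → ℂ := fun p => dt F p * v p with hz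
  have hzR : RP {0} c4 r4 z := (hF4.dt_RP).mul hv.toRP
  have hzb : ∀ p ∈ Dm {0} c4 r4, ‖z p‖ ≤ 2 * V := by
    intro p hp
    rw [hz]
    simp only
    rw [norm_mul]
    exact mul_le_mul (hk2 p (Dm_mono (Finset.Subset.refl _) g4 h4r hp)).1 (hvV p hp)
      (norm_nonneg _) (by norm_num)
  set c5 := c - 5 * (δ / 8) with hc5
  set c6 := c - 6 * (δ / 8) with hc6
  have e5 : c5 + δ / 8 ≤ c4 := by rw [hc4, hc5]; linarith
  have e6 : c6 + δ / 8 ≤ c5 := by rw [hc5, hc6]; linarith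
  have e5' : c5 ≤ c4 := by linarith
  have e6' : c6 ≤ c5 := by linarith
  have e56 : c5 ≤ c := by linarith
  set η := 56 * l ^ 3 * ε with hη
  have hη0 : 0 ≤ η := by positivity
  have hη1 : ∀ p ∈ Dm {0} c5 r4, ‖z p‖ ≤ η := by
    intro p hp
    refine (hzb p (Dm_mono (Finset.Subset.refl _) e5' le_rfl hp)).trans ?_
    rw [hV, hη]
    have h1 := mul_le_mul_of_nonneg_right (hpow 2 3 (by norm_num)) hε
    linarith only [h1]
  have hη2 : ∀ p ∈ Dm {0} c5 r4, ‖dt z p‖ ≤ η := by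
    intro p hp
    refine (bd_dt hzR.diff hzb hd0 e5 p hp).trans ?_
    rw [hV, hη, div_eq_mul_one_div]
    calc 2 * (28 * l ^ 2 * ε) * (1 / (δ / 8)) ≤ 2 * (28 * l ^ 2 * ε) * l := by gcongr
      _ = _ := by ring
  have hηΛ : η ≤ Λ * ε := by
    have h1 : 56 * l ^ 3 ≤ Λ := by
      have := hpow 3 7 (by norm_num)
      have h3 : 0 ≤ l ^ 7 := by positivity
      linarith
    rw [hη]
    exact mul_le_mul_of_nonneg_right h1 hε
  have hGF : GF c5 r4 (κ + Λ * ε) (fun p => F p + z p) :=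
    (hF.mono e56 h4r le_rfl).add (hzR.mono (Finset.Subset.refl _) e5' le_rfl) hη1 hη2
      (by linarith)
  have hc8 : c' ≤ c6 := by linarith [hlast.1]
  have hr8 : r' ≤ r4 := by
    have := hlast.2
    rw [hr4]
    linarith only [this, hdr]
  refine ⟨fun p => F p + z p, hGF.mono (hc8.trans e6') hr8 le_rfl, ?_, ?_⟩
  · intro p hp
    have h1 := hη1 p (Dm_mono (Finset.Subset.refl _) (hc8.trans e6') hr8 hp)
    simpa using h1.trans hηΛ
  -- the new error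
  have hEL' : RP {-1, 0, 1} c5 r4 (EL L (fun p => F p + z p)) :=
    EL_RP hL hGF (e56.trans hc) (h4r.trans hrb) (by linarith)
  have hmain : ∀ p ∈ Dm {-1, 0, 1} c6 r4, p.2 ≠ 0 →
      ‖EL L (fun p => F p + z p) p‖ ≤ Λ * ε ^ 2 := by
    intro p hp hp0
    have hpc5 : p ∈ Dm {-1, 0, 1} c5 r4 := Dm_mono (Finset.Subset.refl _) e6' le_rfl hp
    have hpc4 : p ∈ Dm {-1, 0, 1} c4 r4 := Dm_mono (Finset.Subset.refl _) e5' le_rfl hpc5
    have hpc2 : p ∈ Dm {-1, 0, 1} c2 r2 :=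
      Dm_mono (Finset.Subset.refl _) (e4.trans e3) (f4.trans f3) hpc4
    have hpc : p ∈ Dm {-1, 0, 1} c r := Dm_mono (Finset.Subset.refl _) g4 h4r hpc4
    have hpW : p ∈ Dm {0, 1} c4 r4 := Dm_mono iWE le_rfl le_rfl hpc4
    have hpF : p ∈ Dm {0} c4 r4 := Dm_mono iFE le_rfl le_rfl hpc4
    have hpm : ((p.1 - p.2, p.2) : ℂ × ℂ) ∈ Dm {0, 1} c4 r4 := by
      have := mem_sh (S := {0, 1}) (S' := {-1, 0, 1}) (k := -1) (by decide) hpc4
      simpa [sub_eq_add_neg] using this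
    have hQ := htay c5 r4 c6 (δ / 8) κ η F z hd0 hd1 e6 (e56.trans hc) (h4r.trans hrb)
      (hF.mono e56 h4r le_rfl) hκb (hzR.mono (Finset.Subset.refl _) e5' le_rfl) hη1 hη2
      (by linarith) p hp
    have hI1 := EL_I1 hL hF4 (g4.trans hc) (h4r.trans hrb) hκb hv.toPH p hpc4
    have hav : ∀ q ∈ Dm {0, 1} c4 r4, a q * nab v q = w q + c0 q.2 - a q * s q := by
      intro q hq
      have hq2 : q ∈ Dm {0, 1} c r := Dm_mono (Finset.Subset.refl _) g4 h4r hq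
      rw [hveq q hq, hy]
      simp only
      have := ha0 q hq2
      field_simp
    have h1 : nabm (fun q => a q * nab v q) p =
        nabm w p + nabm (fun q => c0 q.2) p - nabm (fun q => a q * s q) p := by
      rw [nabm_of_ne hp0, nabm_of_ne hp0, nabm_of_ne hp0, nabm_of_ne hp0, hav p hpW, hav _ hpm]
      ring
    rw [nabm_ofρ c0 hp0, hweq p hpc2, add_zero] at h1
    have h2 : dt F p * EL L (fun q => F q + z q) p =
        res p + nabm (fun q => a q * s q) p + dt F p * dt (EL L F) p * v p +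
          dt F p * (EL L (fun q => F q + z q) p - EL L F p - JJ L F z p) := by
      have h3 : dt F p * JJ L F z p =
          -nabm (fun q => a q * nab v q) p + dt F p * dt (EL L F) p * v p := hI1
      rw [h1] at h3
      linear_combination h3
    -- bounds
    have b1 : ‖res p‖ ≤ l ^ 2 * ε ^ 2 := (hres.bd p hpc2).trans hNrl
    have b2 : ‖nabm (fun q => a q * s q) p‖ ≤ 20 * l ^ 5 * ε ^ 2 := by
      have has : PH {0, 1} c4 r4 (fun q => a q * s q) :=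
        (haR.mono (Finset.Subset.refl _) g4 h4r).toPH.mul hs.toPH
      have hasb : ∀ q ∈ Dm {0, 1} c4 r4, ‖a q * s q‖ ≤ 20 * l ^ 4 * ε ^ 2 := by
        intro q hq
        have hq2 : q ∈ Dm {0, 1} c r := Dm_mono (Finset.Subset.refl _) g4 h4r hq
        rw [norm_mul]
        have h4 := (norm_of_near (han q hq2)).2
        have h5 := mul_le_mul (h4.trans (by norm_num : (5:ℝ) / 4 ≤ 2)) (hsS q hq)
          (norm_nonneg _) (by norm_num)
        linarith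
      have hd := bd_dt has.diff hasb hd0 e5
      have hd' := bd_nabm (S := {0, 1}) (S' := {-1, 0, 1})
        (has.diff.mono (Dm_mono (Finset.Subset.refl _) e5' le_rfl)) hd iWE (by decide) p hpc5
      refine hd'.trans ?_
      rw [div_eq_mul_one_div]
      calc 20 * l ^ 4 * ε ^ 2 * (1 / (δ / 8)) ≤ 20 * l ^ 4 * ε ^ 2 * l := by gcongr
        _ = _ := by ring
    have b3 : ‖dt F p * dt (EL L F) p * v p‖ ≤ 56 * l ^ 3 * ε ^ 2 := by
      have h4 := (hk2 p (Dm_mono (Finset.Subset.refl _) g4 h4r hpF)).1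
      have h5 := bd_dt (c' := c5) hEr.diff hE hd0 (by linarith) p
        (Dm_mono (Finset.Subset.refl _) le_rfl h4r hpc5)
      have h6 : ‖dt (EL L F) p‖ ≤ ε * l := by
        refine h5.trans ?_
        rw [div_eq_mul_one_div]
        gcongr
      rw [norm_mul, norm_mul]
      calc ‖dt F p‖ * ‖dt (EL L F) p‖ * ‖v p‖ ≤ 2 * (ε * l) * V := by
            gcongr
            exact hvV p hpF
        _ = _ := by rw [hV]; ring
    have b4 : ‖dt F p * (EL L (fun q => F q + z q) p - EL L F p - JJ L F z p)‖ ≤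
        6272 * l ^ 7 * ε ^ 2 := by
      have h4 := (hk2 p (Dm_mono (Finset.Subset.refl _) g4 h4r hpF)).1
      rw [norm_mul]
      calc ‖dt F p‖ * ‖EL L (fun q => F q + z q) p - EL L F p - JJ L F z p‖ ≤
            2 * (l * η ^ 2) := by
            gcongr
            exact hQ.trans (by gcongr)
        _ = _ := by rw [hη]; ring
    have h7 : ‖dt F p * EL L (fun q => F q + z q) p‖ ≤ 6350 * l ^ 7 * ε ^ 2 := by
      rw [h2]
      have p2 := hpow 2 7 (by norm_num)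
      have p5 := hpow 5 7 (by norm_num)
      have p3 := hpow 3 7 (by norm_num)
      have hε2 : 0 ≤ ε ^ 2 := by positivity
      calc _ ≤ ‖res p‖ + ‖nabm (fun q => a q * s q) p‖ + ‖dt F p * dt (EL L F) p * v p‖ +
            ‖dt F p * (EL L (fun q => F q + z q) p - EL L F p - JJ L F z p)‖ :=
            (norm_add_le _ _).trans (add_le_add_left ((norm_add_le _ _).trans
              (add_le_add_left (norm_add_le _ _) _)) _)
        _ ≤ l ^ 2 * ε ^ 2 + 20 * l ^ 5 * ε ^ 2 + 56 * l ^ 3 * ε ^ 2 + 6272 * l ^ 7 * ε ^ 2 := by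
            gcongr
        _ ≤ l ^ 7 * ε ^ 2 + 20 * l ^ 7 * ε ^ 2 + 56 * l ^ 7 * ε ^ 2 + 6272 * l ^ 7 * ε ^ 2 := by
            gcongr
        _ ≤ _ := by
            have : 0 ≤ l ^ 7 * ε ^ 2 := by positivity
            linarith only [this]
    have h8 := (hk2 p (Dm_mono (Finset.Subset.refl _) g4 h4r hpF)).2
    rw [norm_mul] at h7
    have h9 : ‖EL L (fun q => F q + z q) p‖ ≤ 12700 * l ^ 7 * ε ^ 2 := by
      have h10 := mul_le_mul_of_nonneg_right h8 (norm_nonneg (EL L (fun q => F q + z q) p))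
      linarith only [h7, h10]
    exact h9.trans (mul_le_mul_of_nonneg_right hl7 (by positivity))
  intro p hp
  exact bd_of_ne (hEL'.diff.continuousOn.mono (Dm_mono (Finset.Subset.refl _) e6' le_rfl)) hmain p
    (Dm_mono (Finset.Subset.refl _) hc8 hr8 hp)

end Pool.Agent.MP_ae5b4e_an_SM
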