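import Mathlib
import Pool.Agent.Lib.SCV.Osgood
import Pool.Agent.Lib.MP_ae5b4e_an_SM.Step

/-!
# MP_ae5b4e_an, project SMOOTH: the iteration
-/

noncomputable section

namespace Pool.Agent.MP_ae5b4e_an_SM

open Complex Set Filter Topology

/-- the parameters of the `j`-th step -/
theorem par_seq {c0 r0 : ℝ} (hc0 : 0 < c0) (hc1 : c0 ≤ 1) (hr0 : 0 < r0) (hrc : r0 ≤ c0 / 2)
    (j : ℕ) : Par (c0 * (1 + (1 / 2) ^ j) / 2) (r0 * (1 + (1 / 2) ^ j) / 2)
      (c0 * (1 + (1 / 2) ^ (j + 1)) / 2) (r0 * (1 + (1 / 2) ^ (j + 1)) / 2)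
      (c0 * (1 / 2) ^ j / 4) := by
  have h1 : (0:ℝ) < (1 / 2) ^ j := by positivity
  have h2 : ((1:ℝ) / 2) ^ j ≤ 1 := pow_le_one₀ (by norm_num) (by norm_num)
  set x : ℝ := (1 / 2) ^ j with hx
  have h3 : ((1:ℝ) / 2) ^ (j + 1) = x / 2 := by rw [pow_succ, hx]; ring
  rw [h3]
  have h4 : c0 * x ≤ 1 := mul_le_one₀ hc1 h1.le h2
  have h5 : 0 < c0 * x := by positivity
  have h6 : 0 < r0 * x := by positivity
  refine ⟨by positivity, by linarith, by nlinarith, by linarith, by positivity, ?_, ?_⟩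
  · have h7 : c0 * x / 4 * (r0 * (1 + x) / 2) ≤ x / 4 * r0 := by
      have h8 : c0 * x / 4 ≤ x / 4 := by nlinarith
      have h9 : r0 * (1 + x) / 2 ≤ r0 := by nlinarith
      exact mul_le_mul h8 h9 (by positivity) (by positivity)
    nlinarith
  · nlinarith

/-- dependent choice -/
theorem exists_seq_step {α : Type*} (P : ℕ → α → Prop) (Q : ℕ → α → α → Prop) (a0 : α)
    (h0 : P 0 a0) (hs : ∀ j a, P j a → ∃ a', P (j + 1) a' ∧ Q j a a') :
    ∃ f : ℕ → α, f 0 = a0 ∧ (∀ j, P j (f j)) ∧ ∀ j, Q j (f j) (f (j + 1)) := by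
  choose! g hg1 hg2 using hs
  refine ⟨fun j => Nat.rec a0 (fun j a => g j a) j, rfl, ?_, ?_⟩
  · intro j
    induction j with
    | zero => exact h0
    | succ j ih => exact hg1 j _ ih
  · intro j
    have : P j (Nat.rec a0 (fun j a => g j a) j) := by
      induction j with
      | zero => exact h0
      | succ j ih => exact hg1 j _ ih
    exact hg2 j _ this

theorem GF_id (c r : ℝ) : GF c r 0 (fun q => q.1) where
  ap :=
    { diff := by
        simp only [sub_self]
        exact differentiableOn_const _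
      per := by intro p _; simp
      real := by intro p _ _ _; simp
      bd := by intro p _; simp }
  dt1 := by
    intro p _
    simp [dt]

/-- The difference quotient, the Lagrangian and the limit. -/
theorem EL_tendsto {L : ℂ × ℂ × ℂ → ℂ} {k1 : ℂ} {b M c r : ℝ} (hL : Lag L k1 b M)
    (hc : c ≤ b / 16) (hr : r ≤ b / 16) {f : ℕ → ℂ × ℂ → ℂ} {F : ℂ × ℂ → ℂ}
    (hF : GF c r (b / 16) F)
    (hlim : ∀ p ∈ Dm {0} c r, Tendsto (fun j => f j p) atTop (𝓝 (F p))) {p : ℂ × ℂ}
    (hp : p ∈ Dm {-1, 0, 1} c r) (hp0 : p.2 ≠ 0) :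
    Tendsto (fun j => EL L (f j) p) atTop (𝓝 (EL L F p)) := by
  have h0 : p ∈ Dm {0} c r := Dm_mono (by decide) le_rfl le_rfl hp
  have h1 : ((p.1 + p.2, p.2) : ℂ × ℂ) ∈ Dm {0} c r := by
    have := mem_sh (S := {0}) (S' := {-1, 0, 1}) (k := 1) (by decide) hp
    simpa using this
  have hm : ((p.1 - p.2, p.2) : ℂ × ℂ) ∈ Dm {0} c r := by
    have := mem_sh (S := {0}) (S' := {-1, 0, 1}) (k := -1) (by decide) hp
    simpa [sub_eq_add_neg] using this
  have hbr := br_mem hF hL.b0 hc hr le_rfl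
  have hpW : p ∈ Dm {0, 1} c r := Dm_mono (by decide) le_rfl le_rfl hp
  have hmW : ((p.1 - p.2, p.2) : ℂ × ℂ) ∈ Dm {0, 1} c r := by
    have := mem_sh (S := {0, 1}) (S' := {-1, 0, 1}) (k := -1) (by decide) hp
    simpa [sub_eq_add_neg] using this
  have hsub : DL (b / 4) ⊆ DL b := by
    intro P hP
    have hb := hL.b0
    exact ⟨hP.1.trans (by linarith), hP.2.1.trans (by linarith), hP.2.2.trans (by linarith)⟩
  have hA : ∀ {q : ℂ × ℂ}, q.2 ≠ 0 → q ∈ Dm {0} c r → ((q.1 + q.2, q.2) : ℂ × ℂ) ∈ Dm {0} c r →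
      Tendsto (fun j => br (f j) q) atTop (𝓝 (br F q)) := by
    intro q hq0 hq hq1
    unfold br
    refine (hlim q hq).prodMk_nhds (Tendsto.prodMk_nhds ?_ tendsto_const_nhds)
    simp only [nab_of_ne hq0]
    exact ((hlim _ hq1).sub (hlim _ hq)).div_const _
  have hLt : ContinuousAt (Lt L) (br F p) :=
    (((lag_facts hL).1 (Lt L) (by simp [LL])).1.differentiableAt
      ((isOpen_DL b).mem_nhds (hsub (hbr p hpW)))).continuousAt
  have hLD : ∀ q ∈ Dm {0, 1} c r, ContinuousAt (LD L) (br F q) := fun q hq =>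
    (((lag_facts hL).1 (LD L) (by simp [LL])).1.differentiableAt
      ((isOpen_DL b).mem_nhds (hsub (hbr q hq)))).continuousAt
  unfold EL
  simp only [nabm_of_ne hp0]
  have t1 := hLt.tendsto.comp (hA hp0 h0 h1)
  have t2 := (hLD p hpW).tendsto.comp (hA hp0 h0 h1)
  have t3 := (hLD _ hmW).tendsto.comp (hA (q := (p.1 - p.2, p.2)) hp0 hm (by simpa using h0))
  exact t1.sub ((t2.sub t3).div_const _)

theorem smooth_main {L : ℂ × ℂ × ℂ → ℂ} {k1 : ℂ} {b M : ℝ} (hL : Lag L k1 b M)
    (hH : Closing L b)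
    (hid : ∃ C : ℝ, ∀ p ∈ Dm {-1, 0, 1} (b / 16) (b / 16), ‖EL L (fun q => q.1) p‖ ≤ C * ‖p.2‖) :
    ∃ (c r : ℝ) (F : ℂ × ℂ → ℂ), 0 < c ∧ c ≤ b / 16 ∧ 0 < r ∧ r ≤ c ∧ GF c r (b / 16) F ∧
      ∀ p ∈ Dm {-1, 0, 1} c r, p.2 ≠ 0 → EL L F p = 0 := by
  obtain ⟨κ₀, n, hκ0, hκb, hstep⟩ := newton_step hL hH
  obtain ⟨C, hC⟩ := hid
  have hb0 := hL.b0
  have hb1 := hL.b1
  set c0 : ℝ := b / 16 with hc0
  have hc00 : 0 < c0 := by positivity
  have hc01 : c0 ≤ 1 := by rw [hc0]; linarith
  -- the losses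
  set A : ℝ := (4 * n / c0) ^ n with hA
  set B : ℝ := 2 ^ n with hB
  have hB1 : 1 ≤ B := one_le_pow₀ (by norm_num)
  have hlam : ∀ j : ℕ, lam n (c0 * (1 / 2) ^ j / 4) = A * B ^ j := by
    intro j
    unfold lam
    rw [hA, hB, ← pow_mul, mul_comm n j, pow_mul, ← mul_pow]
    congr 1
    have h1 : ((1:ℝ) / 2) ^ j * 2 ^ j = 1 := by
      rw [← mul_pow]
      norm_num
    have h2 : (0:ℝ) < (1 / 2) ^ j := by positivity
    rw [div_eq_iff (by positivity)]
    calc (n:ℝ) = 4 * n / c0 * (c0 / 4) * (((1:ℝ) / 2) ^ j * 2 ^ j) := by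
          rw [h1]
          field_simp
      _ = _ := by ring
  have hA1 : 1 ≤ A := by
    have h1 := hlam 0
    simp only [pow_zero, mul_one] at h1
    rw [← h1]
    exact one_le_lam n (by positivity) (by linarith)
  have hA0 : 0 < A := by linarith
  have hB0 : 0 < B := by linarith
  set s : ℝ := min (1 / (2 * A * B)) (κ₀ / (2 * A)) with hs
  have hs0 : 0 < s := lt_min (by positivity) (by positivity)
  have hs1 : A * s * (2 * B) ≤ 1 := by
    have h1 : s ≤ 1 / (2 * A * B) := min_le_left _ _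
    rw [le_div_iff₀ (by positivity)] at h1
    linarith
  have hs2 : 2 * A * s ≤ κ₀ := by
    have h1 : s ≤ κ₀ / (2 * A) := min_le_right _ _
    rw [le_div_iff₀ (by positivity)] at h1
    linarith
  set r0 : ℝ := min (min κ₀ (c0 / 2)) (s / (2 * (|C| + 1))) with hr0
  have hC1 : 0 < |C| + 1 := by positivity
  have hr00 : 0 < r0 := lt_min (lt_min hκ0 (by positivity)) (by positivity)
  have hr0κ : r0 ≤ κ₀ := (min_le_left _ _).trans (min_le_left _ _)
  have hr0c : r0 ≤ c0 / 2 := (min_le_left _ _).trans (min_le_right _ _)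
  have hr0s : (|C| + 1) * (2 * r0) ≤ s := by
    have h1 : r0 ≤ s / (2 * (|C| + 1)) := min_le_right _ _
    rw [le_div_iff₀ (by positivity)] at h1
    linarith
  set cs : ℕ → ℝ := fun j => c0 * (1 + (1 / 2) ^ j) / 2 with hcs
  set rs : ℕ → ℝ := fun j => r0 * (1 + (1 / 2) ^ j) / 2 with hrs
  have hhalf : ∀ j : ℕ, (0:ℝ) < (1 / 2) ^ j ∧ ((1:ℝ) / 2) ^ j ≤ 1 := fun j =>
    ⟨by positivity, pow_le_one₀ (by norm_num) (by norm_num)⟩
  have hcs1 : ∀ j, cs j ≤ c0 := by
    intro j
    have := hhalf j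
    simp only [hcs]
    nlinarith
  have hcs2 : ∀ j, c0 / 2 ≤ cs j := by
    intro j
    have := hhalf j
    simp only [hcs]
    nlinarith
  have hrs1 : ∀ j, rs j ≤ r0 := by
    intro j
    have := hhalf j
    simp only [hrs]
    nlinarith
  have hrs2 : ∀ j, r0 / 2 ≤ rs j := by
    intro j
    have := hhalf j
    simp only [hrs]
    nlinarith
  -- the sequence
  obtain ⟨f, hf0, hf1, hf2⟩ := exists_seq_step
    (fun j F => GF (cs j) (rs j) (A * s * (2 - 2 * (1 / 2) ^ j)) F ∧
      ∀ p ∈ Dm {-1, 0, 1} (cs j) (rs j), ‖EL L F p‖ ≤ s * (1 / (2 * B)) ^ j)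
    (fun j F F' => ∀ p ∈ Dm {0} (cs (j + 1)) (rs (j + 1)), ‖F' p - F p‖ ≤ A * s * (1 / 2) ^ j)
    (fun q => q.1) (by
      refine ⟨?_, ?_⟩
      · have h1 : A * s * (2 - 2 * (1 / 2) ^ 0) = 0 := by norm_num
        rw [h1]
        exact GF_id _ _
      · intro p hp
        have h1 : rs 0 = r0 := by
          simp only [hrs, pow_zero]
          ring
        have h2 : cs 0 = c0 := by
          simp only [hcs, pow_zero]
          ring
        rw [h1, h2] at hp
        have h3 := hC p (Dm_mono (Finset.Subset.refl _) le_rfl (by linarith) hp)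
        have h4 : ‖p.2‖ ≤ 2 * r0 := by
          have h5 := Complex.norm_le_abs_re_add_abs_im p.2
          linarith [hp.2.1.le, hp.2.2.le]
        have h6 : C * ‖p.2‖ ≤ (|C| + 1) * (2 * r0) := by
          have h7 : C ≤ |C| + 1 := (le_abs_self C).trans (by linarith)
          exact mul_le_mul h7 h4 (norm_nonneg _) hC1.le
        simp only [pow_zero, mul_one]
        linarith)
    (by
      rintro j F ⟨hG, hE⟩
      have hPj := par_seq hc00 hc01 hr00 hr0c j
      have hx := hhalf j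
      have hlj := hlam j
      have hε0 : 0 ≤ s * (1 / (2 * B)) ^ j := by positivity
      have hprod : A * B ^ j * (s * (1 / (2 * B)) ^ j) = A * s * (1 / 2) ^ j := by
        have h1 : B ^ j * (1 / (2 * B)) ^ j = (1 / 2 : ℝ) ^ j := by
          rw [← mul_pow]
          congr 1
          field_simp
        calc A * B ^ j * (s * (1 / (2 * B)) ^ j) = A * s * (B ^ j * (1 / (2 * B)) ^ j) := by ring
          _ = _ := by rw [h1]
      have hAs : 0 < A * s := by positivity
      have hκ' : A * s * (2 - 2 * (1 / 2) ^ j) +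
          lam n (c0 * (1 / 2) ^ j / 4) * (s * (1 / (2 * B)) ^ j) ≤ κ₀ := by
        rw [hlj, hprod]
        nlinarith
      obtain ⟨F', hG', hd', hE'⟩ := hstep (cs j) (rs j) (cs (j + 1)) (rs (j + 1))
        (c0 * (1 / 2) ^ j / 4) (A * s * (2 - 2 * (1 / 2) ^ j)) (s * (1 / (2 * B)) ^ j) F hPj
        (hcs1 j) ((hrs1 j).trans hr0κ) hG hε0 hκ' hE
      rw [hlj, hprod] at hG' hd'
      refine ⟨F', ⟨?_, ?_⟩, hd'⟩
      · refine hG'.mono le_rfl le_rfl ?_
        rw [pow_succ]
        nlinarith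
      · intro p hp
        refine (hE' p hp).trans ?_
        have h1 : A * B ^ j * (s * (1 / (2 * B)) ^ j) ^ 2 =
            A * s * (1 / 2) ^ j * (s * (1 / (2 * B)) ^ j) := by
          rw [← hprod]
          ring
        rw [hlj, h1]
        have h2 : s * (1 / (2 * B)) ^ (j + 1) = 1 / (2 * B) * (s * (1 / (2 * B)) ^ j) := by
          rw [pow_succ]
          ring
        rw [h2]
        refine mul_le_mul_of_nonneg_right ?_ hε0
        rw [le_div_iff₀ (by positivity)]
        have h3 : A * s * (1 / 2) ^ j * (2 * B) = A * s * (2 * B) * (1 / 2) ^ j := by ring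
        rw [h3]
        exact mul_le_one₀ hs1 hx.1.le hx.2)
  -- the limit
  set c := c0 / 2 with hcdef
  set r := r0 / 2 with hrdef
  have hdom : ∀ j, Dm {0} c r ⊆ Dm {0} (cs j) (rs j) := fun j =>
    Dm_mono (Finset.Subset.refl _) (hcs2 j) (hrs2 j)
  have hcau : ∀ p ∈ Dm {0} c r, ∀ j, dist (f j p) (f (j + 1) p) ≤ A * s * (1 / 2) ^ j := by
    intro p hp j
    rw [dist_comm, dist_eq_norm]
    exact hf2 j p (hdom (j + 1) hp)
  have hex : ∀ p ∈ Dm {0} c r, ∃ y, Tendsto (fun j => f j p) atTop (𝓝 y) := fun p hp =>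
    cauchySeq_tendsto_of_complete (cauchySeq_of_le_geometric _ _ (by norm_num) (hcau p hp))
  choose! F hFlim using hex
  have hunif : TendstoUniformlyOn f F atTop (Dm {0} c r) := by
    rw [Metric.tendstoUniformlyOn_iff]
    intro ε hε
    have h1 : Tendsto (fun j : ℕ => A * s * (1 / 2) ^ j / (1 - 1 / 2)) atTop (𝓝 0) := by
      have h2 : Tendsto (fun j : ℕ => ((1:ℝ) / 2) ^ j) atTop (𝓝 0) :=
        tendsto_pow_atTop_nhds_zero_of_lt_one (by norm_num) (by norm_num)
      have h3 := (h2.const_mul (A * s)).div_const (1 - 1 / 2)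
      simpa using h3
    filter_upwards [h1.eventually_lt_const hε] with j hj p hp
    have h2 := dist_le_of_le_geometric_of_tendsto (1 / 2) (A * s) (by norm_num) (hcau p hp)
      (hFlim p hp) j
    rw [dist_comm]
    exact h2.trans_lt hj
  have hcr : r ≤ c := by rw [hcdef, hrdef]; linarith
  have hrb : r ≤ b / 16 := by rw [hrdef]; linarith
  have hcb : c ≤ b / 16 := by rw [hcdef]; linarith
  have hGj : ∀ j, GF c r κ₀ (f j) := by
    intro j
    refine (hf1 j).1.mono (hcs2 j) (hrs2 j) ?_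
    have := (hhalf j).1
    have hAs : 0 < A * s := by positivity
    nlinarith
  have hopen := isOpen_Dm {0} c r
  have hFd : DifferentiableOn ℂ F (Dm {0} c r) :=
    (SCV.analyticOnNhd_of_tendstoLocallyUniformlyOn _ hopen f F
      (fun j => SCV.differentiableOn_analyticOnNhd _ hopen _ (hGj j).diff)
      hunif.tendstoLocallyUniformlyOn).differentiableOn
  have hG : GF c r (b / 16) F := by
    refine
      { ap :=
          { diff := hFd.sub differentiableOn_fst
            per := ?_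
            real := ?_
            bd := ?_ }
        dt1 := ?_ }
    · intro p hp
      have hp1 : ((p.1 + 1, p.2) : ℂ × ℂ) ∈ Dm {0} c r := by
        rw [mem_Dm] at hp ⊢
        simpa using hp
      have h1 := (hFlim _ hp1).sub_const (p.1 + 1)
      have h2 := (hFlim _ hp).sub_const p.1
      refine tendsto_nhds_unique h1 (h2.congr fun j => ?_)
      exact ((hGj j).ap.per p hp).symm
    · intro p hp h1 h2
      have h3 := (hFlim p hp).sub_const p.1
      have h4 : Tendsto (fun j => (f j p - p.1).im) atTop (𝓝 (F p - p.1).im) :=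
        (continuous_im.tendsto _).comp h3
      refine tendsto_nhds_unique h4 (tendsto_const_nhds.congr fun j => ?_)
      exact ((hGj j).ap.real p hp h1 h2).symm
    · intro p hp
      have h3 := ((hFlim p hp).sub_const p.1).norm
      refine le_of_tendsto h3 (Eventually.of_forall fun j => ?_)
      exact ((hGj j).ap.bd p hp).trans hκb
    · intro p hp
      -- convergence of the derivatives
      have hop : IsOpen ((fun x : ℂ => (x, p.2)) ⁻¹' Dm {0} c r) := hopen.preimage (by fun_prop)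
      have h3 : TendstoLocallyUniformlyOn (fun j x => f j (x, p.2)) (fun x => F (x, p.2)) atTop
          ((fun x : ℂ => (x, p.2)) ⁻¹' Dm {0} c r) :=
        hunif.tendstoLocallyUniformlyOn.comp (fun x : ℂ => (x, p.2)) (mapsTo_preimage _ _)
          (by fun_prop)
      have h4 := h3.deriv (Eventually.of_forall fun j => by
        intro x hx
        have h5 := (((hGj j).diff (x, p.2) hx).differentiableAt (hopen.mem_nhds hx))
        exact (DifferentiableAt.comp x (g := f j) (f := fun x : ℂ => (x, p.2)) h5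
          (by fun_prop)).differentiableWithinAt) hop
      have h5 : Tendsto (fun j => dt (f j) p) atTop (𝓝 (dt F p)) :=
        h4.tendsto_at (a := p.1) hp
      refine le_of_tendsto (h5.sub_const 1).norm (Eventually.of_forall fun j => ?_)
      exact ((hGj j).dt1 p hp).trans hκb
  refine ⟨c, r, F, by positivity, hcb, by positivity, hcr, hG, fun p hp hp0 => ?_⟩
  have h1 := EL_tendsto hL hcb hrb hG hFlim hp hp0
  refine tendsto_nhds_unique h1 ?_
  have h2 : Tendsto (fun j : ℕ => s * (1 / (2 * B)) ^ j) atTop (𝓝 0) := by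
    have h3 : Tendsto (fun j : ℕ => (1 / (2 * B)) ^ j) atTop (𝓝 0) :=
      tendsto_pow_atTop_nhds_zero_of_lt_one (by positivity) (by
        rw [div_lt_one (by positivity)]
        linarith)
    simpa using h3.const_mul s
  refine squeeze_zero_norm (fun j => ?_) h2
  exact (hf1 j).2 p (Dm_mono (Finset.Subset.refl _) (hcs2 j) (hrs2 j) hp)

end Pool.Agent.MP_ae5b4e_an_SM
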