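import Mathlib
import Pool.Agent.Lib.MP_ae5b4e_an_SM.Conic
import Pool.Agent.Lib.SCV.Osgood

/-!
# MP_ae5b4e_an, project SMOOTH: positivity of the Lagrangian of the circle near the diagonal
-/

noncomputable section

namespace Pool.Agent.MP_ae5b4e_an_SM

open Complex Set Filter Topology

private lemma lagC0_isOpen_strip (b : ℝ) : IsOpen {t : ℂ | |t.im| < b} := by
  have h1 : Continuous fun z : ℂ => |z.im| := continuous_abs.comp continuous_im
  exact isOpen_lt h1 continuous_const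

private lemma lagC0_symm (f : ℂ → ℂ) (x y : ℂ) : dslope f x y = dslope f y x := by
  by_cases h : x = y
  · rw [h]
  · rw [dslope_of_ne _ (Ne.symm h), dslope_of_ne _ h, slope_comm]

/-- the difference quotient is continuous in both variables -/
private lemma lagC0_cont {b : ℝ} {f : ℂ → ℂ} (hf : DifferentiableOn ℂ f {t | |t.im| < b}) :
    ContinuousOn (fun p : ℂ × ℂ => dslope f p.1 p.2) ({t | |t.im| < b} ×ˢ {t | |t.im| < b}) := by
  rintro ⟨x, y⟩ ⟨hx, hy⟩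
  apply ContinuousAt.continuousWithinAt
  have ho := lagC0_isOpen_strip b
  have hdx : DifferentiableAt ℂ f x := (hf x hx).differentiableAt (ho.mem_nhds hx)
  have hdy : DifferentiableAt ℂ f y := (hf y hy).differentiableAt (ho.mem_nhds hy)
  by_cases hxy : x = y
  · subst hxy
    have han : AnalyticAt ℂ f x := hf.analyticAt (ho.mem_nhds hx)
    have hst : HasStrictDerivAt f (deriv f x) x := han.hasStrictDerivAt
    have hdc : ContinuousAt (deriv f) x := han.deriv.continuousAt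
    rw [ContinuousAt, dslope_same, Metric.tendsto_nhds]
    intro ε hε
    have h1 : ∀ᶠ p : ℂ × ℂ in 𝓝 (x, x),
        ‖f p.1 - f p.2 - deriv f x * (p.1 - p.2)‖ ≤ ε / 2 * ‖p.1 - p.2‖ := by
      have h2 := (hst.hasStrictFDerivAt.isLittleO).def (half_pos hε)
      filter_upwards [h2] with p hp
      simpa [mul_comm] using hp
    have h3 : ∀ᶠ p : ℂ × ℂ in 𝓝 (x, x), dist (deriv f p.1) (deriv f x) < ε := by
      have h4 : Tendsto (fun p : ℂ × ℂ => deriv f p.1) (𝓝 (x, x)) (𝓝 (deriv f x)) :=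
        hdc.tendsto.comp (continuous_fst.tendsto (x, x))
      exact (Metric.tendsto_nhds.1 h4) ε hε
    filter_upwards [h1, h3] with p hp1 hp3
    by_cases hp : p.1 = p.2
    · show dist (dslope f p.1 p.2) (deriv f x) < ε
      rw [← hp, dslope_same]
      exact hp3
    · show dist (dslope f p.1 p.2) (deriv f x) < ε
      have hne : p.1 - p.2 ≠ 0 := sub_ne_zero.2 hp
      have hne' : p.2 - p.1 ≠ 0 := sub_ne_zero.2 (Ne.symm hp)
      rw [dslope_of_ne _ (Ne.symm hp), slope_def_field, dist_eq_norm]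
      have e : (f p.2 - f p.1) / (p.2 - p.1) - deriv f x =
          (f p.1 - f p.2 - deriv f x * (p.1 - p.2)) / (p.1 - p.2) := by
        field_simp
        ring
      rw [e, norm_div, div_lt_iff₀ (norm_pos_iff.2 hne)]
      have h5 : ε / 2 * ‖p.1 - p.2‖ < ε * ‖p.1 - p.2‖ := by
        have := norm_pos_iff.2 hne
        nlinarith
      exact lt_of_le_of_lt hp1 h5
  · have h1 : (fun p : ℂ × ℂ => dslope f p.1 p.2) =ᶠ[𝓝 (x, y)]
        fun p => (f p.2 - f p.1) / (p.2 - p.1) := by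
      have h2 : ∀ᶠ p : ℂ × ℂ in 𝓝 (x, y), p.1 ≠ p.2 :=
        (isOpen_ne_fun continuous_fst continuous_snd).mem_nhds hxy
      filter_upwards [h2] with p hp
      rw [dslope_of_ne _ (Ne.symm hp), slope_def_field]
    refine ContinuousAt.congr ?_ h1.symm
    have h3 : ContinuousAt (fun p : ℂ × ℂ => f p.2) (x, y) :=
      ContinuousAt.comp (x := (x, y)) (g := f) (f := Prod.snd) hdy.continuousAt continuousAt_snd
    have h4 : ContinuousAt (fun p : ℂ × ℂ => f p.1) (x, y) :=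
      ContinuousAt.comp (x := (x, y)) (g := f) (f := Prod.fst) hdx.continuousAt continuousAt_fst
    exact (h3.sub h4).div (continuousAt_snd.sub continuousAt_fst) (sub_ne_zero.2 (Ne.symm hxy))

/-- the difference quotient is holomorphic in both variables -/
private lemma lagC0_diff {b : ℝ} {f : ℂ → ℂ} (hf : DifferentiableOn ℂ f {t | |t.im| < b}) :
    DifferentiableOn ℂ (fun p : ℂ × ℂ => dslope f p.1 p.2)
      ({t | |t.im| < b} ×ˢ {t | |t.im| < b}) := by
  have ho := lagC0_isOpen_strip b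
  have key : ∀ x y : ℂ, |x.im| < b → |y.im| < b → DifferentiableAt ℂ (dslope f x) y := by
    intro x y hx hy
    have h1 : DifferentiableOn ℂ (dslope f x) {t | |t.im| < b} :=
      (Complex.differentiableOn_dslope (ho.mem_nhds hx)).2 hf
    exact (h1 y hy).differentiableAt (ho.mem_nhds hy)
  have h := SCV.osgood ({t | |t.im| < b} ×ˢ {t | |t.im| < b}) (ho.prod ho)
    (fun p : ℂ × ℂ => dslope f p.1 p.2) (lagC0_cont hf) (by
      rintro ⟨x, y⟩ ⟨hx, hy⟩
      have e : (fun z => dslope f z y) = dslope f y := by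
        ext z
        exact lagC0_symm f z y
      show DifferentiableAt ℂ (fun z => dslope f z y) x
      rw [e]
      exact key y x hy hx) (by
      rintro ⟨x, y⟩ ⟨hx, hy⟩
      exact key x y hx hy)
  exact h.differentiableOn

private def lagC0_O (b : ℝ) : Set (ℂ × ℂ × ℂ) := {P | |P.1.im| < b ∧ |(P.1 + P.2.2 * P.2.1).im| < b}

private lemma lagC0_isOpen_O (b : ℝ) : IsOpen (lagC0_O b) := by
  have h1 : Continuous fun P : ℂ × ℂ × ℂ => |P.1.im| :=
    continuous_abs.comp (continuous_im.comp (by fun_prop))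
  have h2 : Continuous fun P : ℂ × ℂ × ℂ => |(P.1 + P.2.2 * P.2.1).im| :=
    continuous_abs.comp (continuous_im.comp (by fun_prop))
  exact (isOpen_lt h1 continuous_const).inter (isOpen_lt h2 continuous_const)

private lemma lagC0_qdiff {b : ℝ} {ψ : ℂ → ℂ} (hf : DifferentiableOn ℂ ψ {t | |t.im| < b}) :
    DifferentiableOn ℂ (Qc ψ) (lagC0_O b) := by
  have h1 : DifferentiableOn ℂ (fun P : ℂ × ℂ × ℂ => dslope ψ P.1 (P.1 + P.2.2 * P.2.1))
      (lagC0_O b) :=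
    (lagC0_diff hf).comp (f := fun P : ℂ × ℂ × ℂ => (P.1, P.1 + P.2.2 * P.2.1)) (by fun_prop)
      fun P hP => ⟨hP.1, hP.2⟩
  have h2 : Differentiable ℂ (dslope sin 0) := by
    rw [← differentiableOn_univ]
    exact (Complex.differentiableOn_dslope univ_mem).2 Complex.differentiable_sin.differentiableOn
  have h3 : DifferentiableOn ℂ (fun P : ℂ × ℂ × ℂ =>
      P.2.2 * P.2.1 * dslope ψ P.1 (P.1 + P.2.2 * P.2.1) / 2) (lagC0_O b) := by
    have : DifferentiableOn ℂ (fun P : ℂ × ℂ × ℂ => P.2.2 * P.2.1) (lagC0_O b) := by fun_prop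
    exact ((this.mul h1).mul (differentiableOn_const (2 : ℂ)⁻¹)).congr fun _ _ => div_eq_mul_inv _ _
  have h4 : DifferentiableOn ℂ (fun P : ℂ × ℂ × ℂ =>
      dslope sin 0 (P.2.2 * P.2.1 * dslope ψ P.1 (P.1 + P.2.2 * P.2.1) / 2)) (lagC0_O b) :=
    h2.comp_differentiableOn h3
  have h5 : DifferentiableOn ℂ (fun P : ℂ × ℂ × ℂ => P.2.1) (lagC0_O b) := by fun_prop
  exact (h5.mul h1).mul h4

private lemma lagC0_mem {b b' : ℝ} (h0 : 0 < b) (h1 : b ≤ 1) (hb : b' ≤ b / 4) {P : ℂ × ℂ × ℂ}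
    (hP : P ∈ DL b') : P ∈ lagC0_O b := by
  obtain ⟨hP1, hP2, hP3⟩ := hP
  refine ⟨by linarith, ?_⟩
  have h2 : ‖P.2.1‖ ≤ 5 / 4 := by
    have h3 : ‖P.2.1‖ ≤ ‖P.2.1 - 1‖ + ‖(1 : ℂ)‖ := by
      have := norm_add_le (P.2.1 - 1) 1
      rwa [sub_add_cancel] at this
    rw [norm_one] at h3
    linarith
  have h4 : |(P.2.2 * P.2.1).im| ≤ b / 4 * (5 / 4) := by
    refine (Complex.abs_im_le_norm _).trans ?_
    rw [norm_mul]
    gcongr
    linarith
  rw [add_im]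
  have := abs_add_le P.1.im (P.2.2 * P.2.1).im
  linarith

theorem qc_diff {κ : ℝ → ℝ} {b : ℝ} {ψ : ℂ → ℂ} (h : Psi κ b ψ) {b' : ℝ} (hb : b' ≤ b / 4) :
    DifferentiableOn ℂ (Qc ψ) (DL b') :=
  (lagC0_qdiff h.diff).mono fun _ hP => lagC0_mem h.b0 h.b1 hb hP

private lemma lagC0_per {κ : ℝ → ℝ} {b : ℝ} {ψ : ℂ → ℂ} (h : Psi κ b ψ) (n : ℤ) (t : ℂ)
    (ht : |t.im| < b) : ψ (t + n) = ψ t + 2 * Real.pi * n := by
  induction n with
  | zero => simp
  | succ n ih =>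
    have h1 := h.per (t + (n : ℤ)) (by simpa using ht)
    push_cast at h1 ih ⊢
    rw [← add_assoc, h1, ih]
    ring
  | pred n ih =>
    have h1 := h.per (t + ((-(n : ℤ) - 1 : ℤ) : ℂ)) (by simpa using ht)
    have e : t + ((-(n : ℤ) - 1 : ℤ) : ℂ) + 1 = t + ((-(n : ℤ) : ℤ) : ℂ) := by
      push_cast
      ring
    rw [e, ih] at h1
    have h2 : ψ (t + ((-(n : ℤ) - 1 : ℤ) : ℂ)) =
        ψ t + 2 * Real.pi * ((-(n : ℤ) : ℤ) : ℂ) - 2 * Real.pi := by
      rw [h1]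
      ring
    rw [h2]
    push_cast
    ring

private lemma lagC0_dper {κ : ℝ → ℝ} {b : ℝ} {ψ : ℂ → ℂ} (h : Psi κ b ψ) (n : ℤ) (t : ℂ)
    (ht : |t.im| < b) : deriv ψ (t + n) = deriv ψ t := by
  rw [← deriv_comp_add_const ψ (n : ℂ) t]
  have h1 : (fun x => ψ (x + n)) =ᶠ[𝓝 t] fun x => ψ x + 2 * Real.pi * n := by
    filter_upwards [(lagC0_isOpen_strip b).mem_nhds ht] with x hx
    exact lagC0_per h n x hx
  rw [h1.deriv_eq, deriv_add_const]

private lemma lagC0_sper {κ : ℝ → ℝ} {b : ℝ} {ψ : ℂ → ℂ} (h : Psi κ b ψ) (n : ℤ) (t s : ℂ)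
    (ht : |t.im| < b) (hs : |s.im| < b) : dslope ψ (t + n) (s + n) = dslope ψ t s := by
  by_cases hst : s = t
  · rw [hst, dslope_same, dslope_same]
    exact lagC0_dper h n t ht
  · have hst' : s + n ≠ t + n := fun h' => hst (add_right_cancel h')
    rw [dslope_of_ne _ hst, dslope_of_ne _ hst', slope_def_field, slope_def_field,
      lagC0_per h n t ht, lagC0_per h n s hs]
    congr 1 <;> ring

private lemma lagC0_form {ψ : ℂ → ℂ} {t D ρ : ℂ} (hD : D ≠ 0) (hρ : ρ ≠ 0) :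
    Qc ψ (t, D, ρ) = 2 * sin ((ψ (t + ρ * D) - ψ t) / 2) / ρ := by
  have hΔ : ρ * D ≠ 0 := mul_ne_zero hρ hD
  have h1 : dslope ψ t (t + ρ * D) = (ψ (t + ρ * D) - ψ t) / (ρ * D) := by
    rw [dslope_of_ne _ (by simpa using hΔ), slope_def_field, add_sub_cancel_left]
  unfold Qc
  simp only
  rw [h1]
  set d := ψ (t + ρ * D) - ψ t with hd
  have h2 : ρ * D * (d / (ρ * D)) / 2 = d / 2 := by
    field_simp
  rw [h2]
  by_cases hd0 : d = 0
  · rw [hd0]
    simp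
  · have h3 : d / 2 ≠ 0 := div_ne_zero hd0 two_ne_zero
    rw [dslope_of_ne _ h3, slope_def_field, sin_zero, sub_zero, sub_zero]
    field_simp

theorem qc_pos {κ : ℝ → ℝ} {b : ℝ} {ψ : ℂ → ℂ} (h : Psi κ b ψ) :
    ∃ b' m : ℝ, 0 < b' ∧ b' ≤ b / 4 ∧ 0 < m ∧ ∀ P ∈ DL b', |(P.1 + P.2.2 * P.2.1).im| < b ∧
      m ≤ (Qc ψ P).re ∧ m ≤ (deriv ψ P.1).re ∧ m ≤ (deriv ψ (P.1 + P.2.2 * P.2.1)).re ∧
      ‖Qc ψ P‖ ≤ m⁻¹ ∧ ‖deriv ψ P.1‖ ≤ m⁻¹ ∧ ‖deriv ψ (P.1 + P.2.2 * P.2.1)‖ ≤ m⁻¹ ∧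
      (P.2.2 ≠ 0 → Qc ψ P = 2 * sin ((ψ (P.1 + P.2.2 * P.2.1) - ψ P.1) / 2) / P.2.2) := by
  have hb0 := h.b0
  have hb1 := h.b1
  have ho := lagC0_isOpen_strip b
  have hdd : DifferentiableOn ℂ (deriv ψ) {t | |t.im| < b} := h.diff.deriv ho
  have hdr : Continuous fun r : ℝ => deriv ψ (r : ℂ) := by
    rw [continuous_iff_continuousAt]
    intro r
    have h1 : ContinuousAt (deriv ψ) (r : ℂ) :=
      ((hdd r (by simpa using hb0)).differentiableAt (ho.mem_nhds (by simpa using hb0))).continuousAt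
    exact ContinuousAt.comp (x := r) (g := deriv ψ) (f := fun r : ℝ => (r : ℂ)) h1
      Complex.continuous_ofReal.continuousAt
  obtain ⟨r1, hr1, hmin⟩ := (isCompact_Icc (a := (0:ℝ)) (b := 1)).exists_isMinOn
    ⟨0, by norm_num⟩ (Complex.continuous_re.comp hdr).continuousOn
  obtain ⟨r2, hr2, hmax⟩ := (isCompact_Icc (a := (0:ℝ)) (b := 1)).exists_isMaxOn
    ⟨0, by norm_num⟩ (continuous_norm.comp hdr).continuousOn
  set m1 : ℝ := (deriv ψ (r1 : ℂ)).re with hm1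
  set M1 : ℝ := ‖deriv ψ (r2 : ℂ)‖ with hM1
  have hm1p : 0 < m1 := h.pos r1
  have hM1p : 0 ≤ M1 := norm_nonneg _
  -- the three functions
  have cQ : ContinuousOn (Qc ψ) (lagC0_O b) := (lagC0_qdiff h.diff).continuousOn
  have cA : ContinuousOn (fun P : ℂ × ℂ × ℂ => deriv ψ P.1) (lagC0_O b) :=
    hdd.continuousOn.comp (f := fun P : ℂ × ℂ × ℂ => P.1) (by fun_prop) fun P hP => hP.1
  have cB : ContinuousOn (fun P : ℂ × ℂ × ℂ => deriv ψ (P.1 + P.2.2 * P.2.1)) (lagC0_O b) :=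
    hdd.continuousOn.comp (f := fun P : ℂ × ℂ × ℂ => P.1 + P.2.2 * P.2.1) (by fun_prop)
      fun P hP => hP.2
  let V : Set ℂ := {z | m1 / 2 < z.re ∧ ‖z‖ < M1 + 1}
  have hV : IsOpen V := (isOpen_lt continuous_const continuous_re).inter
    (isOpen_lt continuous_norm continuous_const)
  have oO := lagC0_isOpen_O b
  let W : Set (ℂ × ℂ × ℂ) := (lagC0_O b ∩ Qc ψ ⁻¹' V) ∩
    ((lagC0_O b ∩ (fun P : ℂ × ℂ × ℂ => deriv ψ P.1) ⁻¹' V) ∩
      (lagC0_O b ∩ (fun P : ℂ × ℂ × ℂ => deriv ψ (P.1 + P.2.2 * P.2.1)) ⁻¹' V))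
  have hW : IsOpen W := (cQ.isOpen_inter_preimage oO hV).inter
    ((cA.isOpen_inter_preimage oO hV).inter (cB.isOpen_inter_preimage oO hV))
  let P0 : ℝ → ℂ × ℂ × ℂ := fun r => ((r : ℂ), 1, 0)
  have hP0 : Continuous P0 := by
    have : Continuous fun r : ℝ => (r : ℂ) := Complex.continuous_ofReal
    exact this.prodMk continuous_const
  have hK : IsCompact (P0 '' Icc 0 1) := isCompact_Icc.image hP0
  have hKW : P0 '' Icc 0 1 ⊆ W := by
    rintro _ ⟨r, hr, rfl⟩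
    have hv : deriv ψ (r : ℂ) ∈ V := by
      have h1 : m1 ≤ (deriv ψ (r : ℂ)).re := hmin hr
      have h2 : ‖deriv ψ (r : ℂ)‖ ≤ M1 := hmax hr
      exact ⟨by linarith, by linarith⟩
    have hO : P0 r ∈ lagC0_O b := by
      constructor
      · simpa [P0] using hb0
      · simpa [P0] using hb0
    have hQ : Qc ψ (P0 r) = deriv ψ (r : ℂ) := by
      simp [Qc, P0]
    have hB : deriv ψ ((P0 r).1 + (P0 r).2.2 * (P0 r).2.1) = deriv ψ (r : ℂ) := by
      simp [P0]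
    refine ⟨⟨hO, ?_⟩, ⟨hO, ?_⟩, hO, ?_⟩
    · show Qc ψ (P0 r) ∈ V
      rw [hQ]
      exact hv
    · exact hv
    · show deriv ψ ((P0 r).1 + (P0 r).2.2 * (P0 r).2.1) ∈ V
      rw [hB]
      exact hv
  obtain ⟨δ, hδ, hthick⟩ := hK.exists_thickening_subset_open hW hKW
  refine ⟨min (b / 4) δ, min (m1 / 2) (M1 + 1)⁻¹, lt_min (by linarith) hδ, min_le_left _ _,
    lt_min (by linarith) (by positivity), ?_⟩
  intro P hP
  have hPO : P ∈ lagC0_O b := lagC0_mem hb0 hb1 (min_le_left _ _) hP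
  obtain ⟨hP1, hP2, hP3⟩ := hP
  -- translate to the fundamental domain
  set n : ℤ := ⌊P.1.re⌋ with hn
  have hPW : (P.1 - n, P.2) ∈ W := by
    apply hthick
    rw [Metric.mem_thickening_iff]
    refine ⟨P0 (P.1.re - n), ⟨P.1.re - n, ⟨?_, ?_⟩, rfl⟩, ?_⟩
    · have := Int.floor_le P.1.re
      linarith
    · have := (Int.lt_floor_add_one P.1.re).le
      rw [← hn] at this
      linarith
    · have hδ' : min (b / 4) δ ≤ δ := min_le_right _ _
      rw [Prod.dist_eq, Prod.dist_eq, max_lt_iff, max_lt_iff]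
      refine ⟨?_, ?_, ?_⟩
      · show dist (P.1 - n) (((P.1.re - n : ℝ)) : ℂ) < δ
        rw [dist_eq_norm]
        have e : P.1 - n - (((P.1.re - n : ℝ)) : ℂ) = P.1.im * I := by
          apply Complex.ext <;> simp
        rw [e, norm_mul, norm_I, mul_one, Complex.norm_real, Real.norm_eq_abs]
        linarith
      · show dist P.2.1 1 < δ
        rw [dist_eq_norm]
        linarith
      · show dist P.2.2 0 < δ
        rw [dist_eq_norm, sub_zero]
        linarith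
  have hi1 : |(P.1 - n).im| < b := by simpa using hPO.1
  have hi2 : |(P.1 - n + P.2.2 * P.2.1).im| < b := by
    have := hPO.2
    simpa using this
  have e1 : P.1 = P.1 - n + n := by ring
  have e2 : P.1 + P.2.2 * P.2.1 = P.1 - n + P.2.2 * P.2.1 + n := by ring
  have hA : deriv ψ P.1 = deriv ψ (P.1 - n) := by
    conv_lhs => rw [e1]
    exact lagC0_dper h n _ hi1
  have hB : deriv ψ (P.1 + P.2.2 * P.2.1) = deriv ψ (P.1 - n + P.2.2 * P.2.1) := by
    conv_lhs => rw [e2]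
    exact lagC0_dper h n _ hi2
  have hS : dslope ψ P.1 (P.1 + P.2.2 * P.2.1) =
      dslope ψ (P.1 - n) (P.1 - n + P.2.2 * P.2.1) := by
    conv_lhs => rw [e2]
    conv_lhs => rw [show dslope ψ P.1 = dslope ψ (P.1 - n + n) by rw [← e1]]
    exact lagC0_sper h n _ _ hi1 hi2
  have hQ : Qc ψ P = Qc ψ (P.1 - n, P.2) := by
    unfold Qc
    simp only
    rw [hS]
  obtain ⟨⟨_, w1⟩, ⟨_, w2⟩, ⟨_, w3⟩⟩ := hPW
  have w1' : Qc ψ P ∈ V := by rw [hQ]; exact w1
  have w2' : deriv ψ P.1 ∈ V := by rw [hA]; exact w2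
  have w3' : deriv ψ (P.1 + P.2.2 * P.2.1) ∈ V := by rw [hB]; exact w3
  have hM : ∀ z : ℂ, ‖z‖ < M1 + 1 → ‖z‖ ≤ (min (m1 / 2) (M1 + 1)⁻¹)⁻¹ := by
    intro z hz
    have h1 : 0 < min (m1 / 2) (M1 + 1)⁻¹ := lt_min (by linarith) (by positivity)
    have h2 : M1 + 1 ≤ (min (m1 / 2) (M1 + 1)⁻¹)⁻¹ := by
      rw [le_inv_comm₀ (by positivity) h1]
      exact min_le_right _ _
    linarith
  refine ⟨hPO.2, (min_le_left _ _).trans w1'.1.le, (min_le_left _ _).trans w2'.1.le,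
    (min_le_left _ _).trans w3'.1.le, hM _ w1'.2, hM _ w2'.2, hM _ w3'.2, fun hρ => ?_⟩
  refine lagC0_form ?_ hρ
  intro hD
  rw [hD, zero_sub, norm_neg, norm_one] at hP2
  have := min_le_left (b / 4) δ
  linarith

end Pool.Agent.MP_ae5b4e_an_SM
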