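import Mathlib
import Pool.Agent.Lib.MP_ae5b4e_an_SM.IdentA
import Pool.Agent.Lib.MP_ae5b4e_an_SM.LagC0
import Pool.Agent.Lib.SCV.Osgood

/-!
# MP_ae5b4e_an, project SMOOTH, module SW: the Lagrangian of the conic
-/

noncomputable section

namespace Pool.Agent.MP_ae5b4e_an_SM

open Complex Set Filter Topology
open scoped ContDiff ComplexConjugate

namespace LagCA

variable {κ : ℝ → ℝ} {b : ℝ} {ψ : ℂ → ℂ}

lemma isOpen_strip (b : ℝ) : IsOpen {t : ℂ | |t.im| < b} :=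
  isOpen_lt (continuous_abs.comp continuous_im) continuous_const

lemma psi_an (h : Psi κ b ψ) {t : ℂ} (ht : |t.im| < b) : AnalyticAt ℂ ψ t :=
  (h.diff.analyticOnNhd (isOpen_strip b)) t ht

lemma dpsi_an (h : Psi κ b ψ) {t : ℂ} (ht : |t.im| < b) : AnalyticAt ℂ (deriv ψ) t :=
  (psi_an h ht).deriv

/-! ### the difference quotient of `ψ` -/

/-- the difference quotient -/
def Sf (ψ : ℂ → ℂ) (p : ℂ × ℂ) : ℂ := dslope ψ p.1 (p.1 + p.2)

lemma dslope_sub_mul {f : ℂ → ℂ} {t : ℂ} (hf : DifferentiableAt ℂ f t) (a x : ℂ) :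
    dslope (fun s => f s - a * s) t x = dslope f t x - a := by
  rcases eq_or_ne x t with rfl | hx
  · rw [dslope_same, dslope_same]
    have h1 : HasDerivAt (fun s => f s - a * s) (deriv f x - a * 1) x :=
      hf.hasDerivAt.sub ((hasDerivAt_id x).const_mul a)
    rw [h1.deriv, mul_one]
  · rw [dslope_of_ne _ hx, dslope_of_ne _ hx, slope_def_field, slope_def_field]
    have h0 : x - t ≠ 0 := sub_ne_zero.2 hx
    field_simp
    ring

lemma Sf_an (h : Psi κ b ψ) {p : ℂ × ℂ} (h1 : |p.1.im| < b) (h2 : |(p.1 + p.2).im| < b)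
    (h3 : p.2 ∈ Rq 3) : AnalyticAt ℂ (Sf ψ) p := by
  set f : ℂ × ℂ → ℂ := fun q => ψ q.1 - 2 * Real.pi * q.1 with hf
  have hm : ∀ q ∈ Dm {0} b 3, |q.1.im| < b := by
    intro q hq
    have := hq.1 0 (Finset.mem_singleton_self 0)
    simpa using this
  have hph : PH {0} b 3 f := by
    refine ⟨?_, ?_⟩
    · refine DifferentiableOn.sub (h.diff.comp differentiableOn_fst fun q hq => hm q hq) ?_
      exact (differentiable_fst.const_mul _).differentiableOn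
    · intro q hq
      simp only [hf]
      rw [h.per _ (hm q hq)]
      ring
  have hn := hph.hnab (S' := {0, 1}) (by simp) (by simp)
  have han := Pool.Agent.SCV.differentiableOn_analyticOnNhd _ (isOpen_Dm {0, 1} b 3) _ hn.diff
  have hp : p ∈ Dm {0, 1} b 3 := by
    refine ⟨?_, h3⟩
    intro s hs
    rw [Finset.mem_insert, Finset.mem_singleton] at hs
    rcases hs with rfl | rfl
    · simpa using h1
    · simpa using h2
  have h4 := (han p hp).add (analyticAt_const (v := (2 * Real.pi : ℂ)))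
  refine h4.congr ?_
  have h5 : ∀ᶠ q : ℂ × ℂ in 𝓝 p, |q.1.im| < b :=
    continuous_fst.continuousAt.eventually ((isOpen_strip b).mem_nhds h1)
  filter_upwards [h5] with q hq
  show nab f q + 2 * Real.pi = dslope ψ q.1 (q.1 + q.2)
  unfold nab
  rw [dslope_sub_mul (psi_an h hq).differentiableAt]
  ring

lemma Qc_eq (ψ : ℂ → ℂ) (P : ℂ × ℂ × ℂ) : Qc ψ P = P.2.1 * Sf ψ (P.1, P.2.2 * P.2.1) *
    dslope sin 0 (P.2.2 * P.2.1 * Sf ψ (P.1, P.2.2 * P.2.1) / 2) := rfl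

lemma dsin_an (z : ℂ) : AnalyticAt ℂ (dslope sin 0) z := by
  have h1 : DifferentiableOn ℂ (dslope sin 0) univ :=
    (Complex.differentiableOn_dslope univ_mem).2 differentiable_sin.differentiableOn
  exact (h1.analyticOnNhd isOpen_univ) z (mem_univ z)

lemma mem_Rq3 {b' : ℝ} (hb : b' ≤ 1) {P : ℂ × ℂ × ℂ} (hP : P ∈ DL b') :
    P.2.2 * P.2.1 ∈ Rq 3 := by
  have h1 : ‖P.2.1‖ ≤ 2 := by
    have h2 : ‖P.2.1‖ ≤ ‖P.2.1 - 1‖ + ‖(1 : ℂ)‖ := by
      have := norm_add_le (P.2.1 - 1) 1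
      rwa [sub_add_cancel] at this
    have h3 := hP.2.1
    rw [norm_one] at h2
    linarith
  have h2 : ‖P.2.2 * P.2.1‖ < 3 := by
    rw [norm_mul]
    have h3 := hP.2.2
    have h4 : ‖P.2.2‖ ≤ 1 := by linarith
    calc ‖P.2.2‖ * ‖P.2.1‖ ≤ 1 * 2 := mul_le_mul h4 h1 (norm_nonneg _) zero_le_one
      _ < 3 := by norm_num
  exact ⟨lt_of_le_of_lt (abs_re_le_norm _) h2, lt_of_le_of_lt (abs_im_le_norm _) h2⟩

lemma Qc_an (h : Psi κ b ψ) {b' : ℝ} (hb : b' ≤ 1) (hbb : b' ≤ b) {P : ℂ × ℂ × ℂ}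
    (hP : P ∈ DL b') (hu : |(P.1 + P.2.2 * P.2.1).im| < b) : AnalyticAt ℂ (Qc ψ) P := by
  have h1 : AnalyticAt ℂ (Sf ψ) (P.1, P.2.2 * P.2.1) :=
    Sf_an h (lt_of_lt_of_le hP.1 hbb) hu (mem_Rq3 hb hP)
  have hD : AnalyticAt ℂ (fun P : ℂ × ℂ × ℂ => P.2.1) P :=
    analyticAt_fst.comp_of_eq analyticAt_snd rfl
  have hρ : AnalyticAt ℂ (fun P : ℂ × ℂ × ℂ => P.2.2) P :=
    analyticAt_snd.comp_of_eq analyticAt_snd rfl
  have hu' : AnalyticAt ℂ (fun P : ℂ × ℂ × ℂ => P.2.2 * P.2.1) P := hρ.mul hD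
  have hS : AnalyticAt ℂ (fun P : ℂ × ℂ × ℂ => Sf ψ (P.1, P.2.2 * P.2.1)) P :=
    h1.comp_of_eq (analyticAt_fst.prod hu') rfl
  have hs : AnalyticAt ℂ (fun P : ℂ × ℂ × ℂ =>
      dslope sin 0 (P.2.2 * P.2.1 * Sf ψ (P.1, P.2.2 * P.2.1) / 2)) P :=
    (dsin_an _).comp_of_eq ((hu'.mul hS).div_const) rfl
  exact (hD.mul hS).mul hs

lemma Lc_an (h : Psi κ b ψ) {b' : ℝ} (hb : b' ≤ 1) (hbb : b' ≤ b) {P : ℂ × ℂ × ℂ}
    (hP : P ∈ DL b') (hu : |(P.1 + P.2.2 * P.2.1).im| < b) (h1 : 0 < (Qc ψ P).re)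
    (h2 : 0 < (deriv ψ P.1).re) (h3 : 0 < (deriv ψ (P.1 + P.2.2 * P.2.1)).re) :
    AnalyticAt ℂ (Lc ψ) P := by
  have hD : AnalyticAt ℂ (fun P : ℂ × ℂ × ℂ => P.2.1) P :=
    analyticAt_fst.comp_of_eq analyticAt_snd rfl
  have hρ : AnalyticAt ℂ (fun P : ℂ × ℂ × ℂ => P.2.2) P :=
    analyticAt_snd.comp_of_eq analyticAt_snd rfl
  have hx : AnalyticAt ℂ (fun P : ℂ × ℂ × ℂ => P.1 + P.2.2 * P.2.1) P :=
    analyticAt_fst.add (hρ.mul hD)
  have k1 : AnalyticAt ℂ (fun P => log (Qc ψ P)) P := (Qc_an h hb hbb hP hu).clog (Or.inl h1)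
  have k2 : AnalyticAt ℂ (fun P : ℂ × ℂ × ℂ => log (deriv ψ P.1)) P :=
    ((dpsi_an h (lt_of_lt_of_le hP.1 hbb)).comp_of_eq analyticAt_fst rfl).clog (Or.inl h2)
  have k3 : AnalyticAt ℂ (fun P : ℂ × ℂ × ℂ => log (deriv ψ (P.1 + P.2.2 * P.2.1))) P :=
    ((dpsi_an h hu).comp_of_eq hx rfl).clog (Or.inl h3)
  exact (k1.neg.add k2.div_const).add k3.div_const

/-! ### directional derivatives -/

lemma fderiv_lin (f : ℂ × ℂ × ℂ → ℂ) (P : ℂ × ℂ × ℂ) (x y z : ℂ) :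
    fderiv ℂ f P (x, y, z) = x * Lt f P + y * LD f P + z * Lr f P := by
  have : ((x, y, z) : ℂ × ℂ × ℂ) = x • (1, 0, 0) + y • (0, 1, 0) + z • (0, 0, 1) := by simp
  rw [this, map_add, map_add, map_smul, map_smul, map_smul]
  rfl

lemma LD_eq_deriv {f : ℂ × ℂ × ℂ → ℂ} {t D ρ : ℂ} (hf : DifferentiableAt ℂ f (t, D, ρ)) :
    LD f (t, D, ρ) = deriv (fun D => f (t, D, ρ)) D := by
  have h1 : HasDerivAt (fun s : ℂ => ((t, s, ρ) : ℂ × ℂ × ℂ)) (0, 1, 0) D :=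
    (hasDerivAt_const D t).prodMk ((hasDerivAt_id D).prodMk (hasDerivAt_const D ρ))
  exact (hf.hasFDerivAt.comp_hasDerivAt D h1).deriv.symm

lemma Lt_eq_deriv {f : ℂ × ℂ × ℂ → ℂ} {t D ρ : ℂ} (hf : DifferentiableAt ℂ f (t, D, ρ)) :
    Lt f (t, D, ρ) = deriv (fun t => f (t, D, ρ)) t := by
  have h1 : HasDerivAt (fun s : ℂ => ((s, D, ρ) : ℂ × ℂ × ℂ)) (1, 0, 0) t :=
    (hasDerivAt_id t).prodMk ((hasDerivAt_const t D).prodMk (hasDerivAt_const t ρ))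
  exact (hf.hasFDerivAt.comp_hasDerivAt t h1).deriv.symm

lemma LD_an {f : ℂ × ℂ × ℂ → ℂ} {P : ℂ × ℂ × ℂ} (hf : AnalyticAt ℂ f P) :
    AnalyticAt ℂ (LD f) P := by
  have h2 : AnalyticAt ℂ (fun A : (ℂ × ℂ × ℂ) →L[ℂ] ℂ => A (0, 1, 0)) (fderiv ℂ f P) :=
    (ContinuousLinearMap.apply ℂ ℂ ((0, 1, 0) : ℂ × ℂ × ℂ)).analyticAt _
  exact h2.comp hf.fderiv

/-! ### the homogeneity -/

lemma Qc_scale (ψ : ℂ → ℂ) (P : ℂ × ℂ × ℂ) (s : ℂ) :
    Qc ψ (P.1, P.2.1 * exp (-s), P.2.2 * exp s) = exp (-s) * Qc ψ P := by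
  have e : P.2.2 * exp s * (P.2.1 * exp (-s)) = P.2.2 * P.2.1 := by
    have h1 : exp s * exp (-s) = 1 := by rw [← Complex.exp_add]; simp
    linear_combination (P.2.2 * P.2.1) * h1
  rw [Qc_eq, Qc_eq]
  simp only [e]
  ring

lemma Lc_hom {P : ℂ × ℂ × ℂ} (hL : DifferentiableAt ℂ (Lc ψ) P) (h1 : 0 < (Qc ψ P).re) :
    P.2.2 * Lr (Lc ψ) P - P.2.1 * LD (Lc ψ) P = 1 := by
  have hQ0 : Qc ψ P ≠ 0 := by
    intro h0
    rw [h0] at h1
    simp at h1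
  have c1 : HasDerivAt (fun s : ℂ => ((P.1, P.2.1 * exp (-s), P.2.2 * exp s) : ℂ × ℂ × ℂ))
      (0, -P.2.1, P.2.2) 0 := by
    have e1 : HasDerivAt (fun s : ℂ => P.2.1 * exp (-s)) (-P.2.1) 0 := by
      have := ((hasDerivAt_neg (0 : ℂ)).cexp).const_mul P.2.1
      simpa using this
    have e2 : HasDerivAt (fun s : ℂ => P.2.2 * exp s) P.2.2 0 := by
      have := ((hasDerivAt_id (0 : ℂ)).cexp).const_mul P.2.2
      simpa using this
    exact (hasDerivAt_const (0 : ℂ) P.1).prodMk (e1.prodMk e2)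
  have d1 : HasDerivAt (fun s : ℂ => Lc ψ (P.1, P.2.1 * exp (-s), P.2.2 * exp s))
      (fderiv ℂ (Lc ψ) P (0, -P.2.1, P.2.2)) 0 := by
    have hL' : HasFDerivAt (Lc ψ) (fderiv ℂ (Lc ψ) P)
        ((fun s : ℂ => ((P.1, P.2.1 * exp (-s), P.2.2 * exp s) : ℂ × ℂ × ℂ)) 0) := by
      simpa using hL.hasFDerivAt
    exact hL'.comp_hasDerivAt (0 : ℂ) c1
  have d2 : HasDerivAt (fun s : ℂ => Lc ψ (P.1, P.2.1 * exp (-s), P.2.2 * exp s)) 1 0 := by
    have e0 : (fun s : ℂ => Lc ψ (P.1, P.2.1 * exp (-s), P.2.2 * exp s)) = fun s =>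
        -log (exp (-s) * Qc ψ P) + log (deriv ψ P.1) / 2 +
          log (deriv ψ (P.1 + P.2.2 * P.2.1)) / 2 := by
      funext s
      have e : P.2.2 * exp s * (P.2.1 * exp (-s)) = P.2.2 * P.2.1 := by
        have h1 : exp s * exp (-s) = 1 := by rw [← Complex.exp_add]; simp
        linear_combination (P.2.2 * P.2.1) * h1
      unfold Lc
      rw [Qc_scale]
      simp only [e]
    rw [e0]
    have e1 : HasDerivAt (fun s : ℂ => exp (-s) * Qc ψ P) (-Qc ψ P) 0 := by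
      have := ((hasDerivAt_neg (0 : ℂ)).cexp).mul_const (Qc ψ P)
      simpa using this
    have e2 := e1.clog (by
      show exp (-0) * Qc ψ P ∈ slitPlane
      rw [neg_zero, Complex.exp_zero, one_mul]
      exact Or.inl h1)
    have e3 := ((e2.neg).add_const (log (deriv ψ P.1) / 2)).add_const
      (log (deriv ψ (P.1 + P.2.2 * P.2.1)) / 2)
    refine e3.congr_deriv ?_
    rw [neg_zero, Complex.exp_zero, one_mul]
    field_simp
  have h2 := d1.unique d2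
  rw [fderiv_lin] at h2
  linear_combination h2

/-! ### the values for `ρ = 0` -/

lemma Lc_zero {t D : ℂ} (hD : 0 < D.re) (ht : 0 < (deriv ψ t).re) :
    Lc ψ (t, D, 0) = -log D := by
  have hQ : Qc ψ (t, D, 0) = D * deriv ψ t := by
    rw [Qc_eq]
    simp only [zero_mul, zero_div, Sf, add_zero, dslope_same]
    have : deriv sin (0 : ℂ) = 1 := by
      rw [Complex.deriv_sin, Complex.cos_zero]
    rw [this, mul_one]
  unfold Lc
  rw [hQ]
  simp only [zero_mul, add_zero]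
  have hD0 : D ≠ 0 := by
    intro h0
    rw [h0] at hD
    simp at hD
  have ht0 : deriv ψ t ≠ 0 := by
    intro h0
    rw [h0] at ht
    simp at ht
  have h1 : log (D * deriv ψ t) = log D + log (deriv ψ t) := by
    rw [Complex.log_mul_eq_add_log_iff hD0 ht0]
    have a1 := Complex.abs_arg_lt_pi_div_two_iff.2 (Or.inl hD)
    have a2 := Complex.abs_arg_lt_pi_div_two_iff.2 (Or.inl ht)
    rw [abs_lt] at a1 a2
    constructor
    · linarith [a1.1, a2.1]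
    · linarith [a1.2, a2.2]
  rw [h1]
  ring

/-! ### periodicity -/

lemma dpsi_per (h : Psi κ b ψ) {t : ℂ} (ht : |t.im| < b) : deriv ψ (t + 1) = deriv ψ t := by
  have h1 : (fun s => ψ (s + 1)) =ᶠ[𝓝 t] fun s => ψ s + 2 * Real.pi := by
    filter_upwards [(isOpen_strip b).mem_nhds ht] with s hs
    exact h.per s hs
  have h2 := h1.deriv_eq
  rw [deriv_comp_add_const, deriv_add_const] at h2
  exact h2

lemma Sf_per (h : Psi κ b ψ) {p : ℂ × ℂ} (h1 : |p.1.im| < b) (h2 : |(p.1 + p.2).im| < b) :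
    Sf ψ (p.1 + 1, p.2) = Sf ψ p := by
  unfold Sf
  rcases eq_or_ne p.2 0 with h0 | h0
  · rw [h0]
    simp only [add_zero, dslope_same]
    exact dpsi_per h h1
  · have e1 : p.1 + p.2 ≠ p.1 := by simpa using h0
    have e2 : p.1 + 1 + p.2 ≠ p.1 + 1 := by simpa using h0
    simp only
    rw [dslope_of_ne _ e1, dslope_of_ne _ e2, slope_def_field, slope_def_field, h.per _ h1]
    have e3 : p.1 + 1 + p.2 = p.1 + p.2 + 1 := by ring
    rw [e3, h.per _ h2]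
    congr 1
    · ring
    · ring

lemma Lc_per (h : Psi κ b ψ) {P : ℂ × ℂ × ℂ} (h1 : |P.1.im| < b)
    (h2 : |(P.1 + P.2.2 * P.2.1).im| < b) : Lc ψ (P.1 + 1, P.2) = Lc ψ P := by
  have e1 : Sf ψ (P.1 + 1, P.2.2 * P.2.1) = Sf ψ (P.1, P.2.2 * P.2.1) :=
    Sf_per h (p := (P.1, P.2.2 * P.2.1)) h1 h2
  have e2 : P.1 + 1 + P.2.2 * P.2.1 = P.1 + P.2.2 * P.2.1 + 1 := by ring
  unfold Lc
  rw [Qc_eq, Qc_eq]
  simp only [e1, e2]
  rw [dpsi_per h h1, dpsi_per h h2]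

/-! ### reality -/

lemma dpsi_real (h : Psi κ b ψ) (x : ℝ) : (deriv ψ x).im = 0 := by
  have hx : |((x : ℂ)).im| < b := by simpa using h.b0
  have h1 := (psi_an h hx).differentiableAt.hasDerivAt.comp_ofReal
  have h2 := Complex.imCLM.hasFDerivAt.comp_hasDerivAt x h1
  have h3 : (⇑Complex.imCLM ∘ fun y : ℝ => ψ y) = fun _ => 0 := by
    funext y
    exact h.real y
  rw [h3] at h2
  exact (h2.unique (hasDerivAt_const x (0 : ℝ)))

lemma Sf_real (h : Psi κ b ψ) (x u : ℝ) : ∃ s : ℝ, Sf ψ ((x : ℂ), (u : ℂ)) = s := by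
  have key : (Sf ψ ((x : ℂ), (u : ℂ))).im = 0 := by
    unfold Sf
    rcases eq_or_ne u 0 with h0 | h0
    · rw [h0]
      simp only [ofReal_zero, add_zero, dslope_same]
      exact dpsi_real h x
    · have e1 : (x : ℂ) + u ≠ x := by
        rw [Ne, add_eq_left]
        exact_mod_cast h0
      simp only
      rw [dslope_of_ne _ e1, slope_def_field]
      have e2 : (x : ℂ) + u - x = (u : ℂ) := by ring
      rw [e2, Complex.div_ofReal_im, sub_im, h.real x]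
      have e3 := h.real (x + u)
      rw [ofReal_add] at e3
      rw [e3]
      simp
  exact ⟨(Sf ψ ((x : ℂ), (u : ℂ))).re, by apply Complex.ext <;> simp [key]⟩

lemma dsin_real (y : ℝ) : ∃ s : ℝ, dslope sin 0 (y : ℂ) = s := by
  rcases eq_or_ne y 0 with h0 | h0
  · refine ⟨1, ?_⟩
    rw [h0, ofReal_zero, dslope_same, Complex.deriv_sin, Complex.cos_zero, ofReal_one]
  · refine ⟨Real.sin y / y, ?_⟩
    have e1 : (y : ℂ) ≠ 0 := by exact_mod_cast h0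
    rw [dslope_of_ne _ e1, slope_def_field]
    simp

lemma Lc_real (h : Psi κ b ψ) {P : ℂ × ℂ × ℂ} (h1 : P.1.im = 0) (h2 : P.2.1.im = 0)
    (h3 : P.2.2.im = 0) (hQ : 0 < (Qc ψ P).re) (hp : 0 < (deriv ψ P.1).re)
    (hq : 0 < (deriv ψ (P.1 + P.2.2 * P.2.1)).re) : (Lc ψ P).im = 0 := by
  obtain ⟨t, D, ρ⟩ := P
  simp only at h1 h2 h3 hp hq
  obtain ⟨x, rfl⟩ : ∃ x : ℝ, (x : ℂ) = t := ⟨t.re, by apply Complex.ext <;> simp [h1]⟩
  obtain ⟨d, rfl⟩ : ∃ x : ℝ, (x : ℂ) = D := ⟨D.re, by apply Complex.ext <;> simp [h2]⟩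
  obtain ⟨r, rfl⟩ : ∃ x : ℝ, (x : ℂ) = ρ := ⟨ρ.re, by apply Complex.ext <;> simp [h3]⟩
  have key : ∀ z : ℂ, z.im = 0 → 0 < z.re → (log z).im = 0 := by
    intro z hz1 hz2
    rw [Complex.log_im, Complex.arg_eq_zero_iff]
    exact ⟨hz2.le, hz1⟩
  have hQi : (Qc ψ ((x : ℂ), (d : ℂ), (r : ℂ))).im = 0 := by
    rw [Qc_eq]
    simp only
    obtain ⟨s, hs⟩ := Sf_real h x (r * d)
    rw [ofReal_mul] at hs
    rw [hs]
    obtain ⟨w, hw⟩ := dsin_real (r * d * s / 2)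
    have e : ((r * d * s / 2 : ℝ) : ℂ) = (r : ℂ) * d * s / 2 := by push_cast; ring
    rw [e] at hw
    rw [hw, ← ofReal_mul, ← ofReal_mul, ofReal_im]
  have hq' : (deriv ψ ((x : ℂ) + r * d)).im = 0 := by
    have := dpsi_real h (x + r * d)
    push_cast at this
    exact this
  unfold Lc
  simp only
  rw [add_im, add_im, neg_im, key _ hQi hQ]
  have e1 : (log (deriv ψ (x : ℂ)) / 2).im = 0 := by
    have h5 := key _ (dpsi_real h x) hp
    rw [show (2 : ℂ) = ((2 : ℝ) : ℂ) by simp, Complex.div_ofReal_im, h5, zero_div]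
  have e2 : (log (deriv ψ ((x : ℂ) + r * d)) / 2).im = 0 := by
    have h5 := key _ hq' hq
    rw [show (2 : ℂ) = ((2 : ℝ) : ℂ) by simp, Complex.div_ofReal_im, h5, zero_div]
  rw [e1, e2]
  ring

/-! ### bounds -/

lemma norm_log_le {m : ℝ} (hm : 0 < m) {z : ℂ} (h1 : m ≤ z.re) (h2 : ‖z‖ ≤ m⁻¹) :
    ‖log z‖ ≤ Real.log m⁻¹ + Real.pi := by
  have h3 : m ≤ ‖z‖ := h1.trans (re_le_norm z)
  have h4 : 0 < ‖z‖ := lt_of_lt_of_le hm h3
  refine (norm_le_abs_re_add_abs_im _).trans ?_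
  rw [log_re, log_im]
  refine add_le_add ?_ (abs_arg_le_pi z)
  rw [abs_le]
  constructor
  · rw [Real.log_inv, neg_neg]
    exact Real.log_le_log hm h3
  · exact Real.log_le_log h4 h2

end LagCA

open LagCA in
theorem lagc_lag {κ : ℝ → ℝ} {b : ℝ} {ψ : ℂ → ℂ} (h : Psi κ b ψ) :
    ∃ b' M : ℝ, 0 < b' ∧ b' ≤ b ∧ Lag (Lc ψ) 0 b' M ∧
      ∀ t D : ℂ, |t.im| < b' → ‖D - 1‖ < b' → Lc ψ (t, D, 0) = -log D := by
  obtain ⟨b', m, hb', hb4, hm, hP⟩ := qc_pos h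
  have hb0 := h.b0
  have hb1 := h.b1
  have hbb : b' ≤ b := by linarith
  have hb1' : b' ≤ 1 := by linarith
  have han : ∀ P ∈ DL b', AnalyticAt ℂ (Lc ψ) P := by
    intro P hPD
    obtain ⟨u1, u2, u3, u4, -⟩ := hP P hPD
    exact Lc_an h hb1' hbb hPD u1 (lt_of_lt_of_le hm u2) (lt_of_lt_of_le hm u3)
      (lt_of_lt_of_le hm u4)
  have hz : ∀ t D : ℂ, |t.im| < b' → ‖D - 1‖ < b' → Lc ψ (t, D, 0) = -log D := by
    intro t D ht hD
    have hmem : ((t, D, 0) : ℂ × ℂ × ℂ) ∈ DL b' := ⟨ht, hD, by simpa using hb'⟩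
    obtain ⟨-, -, u3, -⟩ := hP _ hmem
    refine Lc_zero ?_ (lt_of_lt_of_le hm u3)
    have h1 := (abs_re_le_norm (D - 1)).trans_lt hD
    rw [abs_lt, sub_re, one_re] at h1
    linarith [h1.1]
  refine ⟨b', 2 * (Real.log m⁻¹ + Real.pi), hb', hbb, ⟨hb', hb1', ?_, ?_, ?_, ?_, ?_, ?_⟩, hz⟩
  · exact fun P hPD => (han P hPD).differentiableAt.differentiableWithinAt
  · intro P hPD
    obtain ⟨u1, u2, u3, u4, u5, u6, u7, -⟩ := hP P hPD
    have k1 := norm_log_le hm u2 u5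
    have k2 := norm_log_le hm u3 u6
    have k3 := norm_log_le hm u4 u7
    unfold Lc
    refine (norm_add_le _ _).trans ?_
    have k4 := norm_add_le (-log (Qc ψ P)) (log (deriv ψ P.1) / 2)
    rw [norm_neg, norm_div] at k4
    rw [norm_div]
    have k5 : ‖(2 : ℂ)‖ = 2 := by simp
    rw [k5] at k4 ⊢
    linarith
  · intro P hPD
    exact Lc_per h (lt_of_lt_of_le hPD.1 hbb) (hP P hPD).1
  · intro P hPD h1 h2 h3
    obtain ⟨u1, u2, u3, u4, -⟩ := hP P hPD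
    exact Lc_real h h1 h2 h3 (lt_of_lt_of_le hm u2) (lt_of_lt_of_le hm u3)
      (lt_of_lt_of_le hm u4)
  · refine ⟨fun _ => 1, ?_⟩
    intro P hPD
    rw [zero_mul, add_zero]
    exact Lc_hom (han P hPD).differentiableAt (lt_of_lt_of_le hm (hP P hPD).2.1)
  · intro t ht
    have hmem : ((t, 1, 0) : ℂ × ℂ × ℂ) ∈ DL b' := ⟨ht, by simpa using hb', by simpa using hb'⟩
    rw [LD_eq_deriv (LD_an (han _ hmem)).differentiableAt]
    have h1 : (fun D => LD (Lc ψ) (t, D, 0)) =ᶠ[𝓝 1] fun D => -D⁻¹ := by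
      have hball : Metric.ball (1 : ℂ) b' ∈ 𝓝 (1 : ℂ) := Metric.ball_mem_nhds _ hb'
      filter_upwards [hball] with D hD
      rw [Metric.mem_ball, dist_eq_norm] at hD
      have hmem' : ((t, D, 0) : ℂ × ℂ × ℂ) ∈ DL b' := ⟨ht, hD, by simpa using hb'⟩
      rw [LD_eq_deriv (han _ hmem').differentiableAt]
      have h2 : (fun D => Lc ψ (t, D, 0)) =ᶠ[𝓝 D] fun D => -log D := by
        filter_upwards [Metric.isOpen_ball.mem_nhds (by
          rw [Metric.mem_ball, dist_eq_norm]; exact hD : D ∈ Metric.ball (1 : ℂ) b')] with D' hD'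
        rw [Metric.mem_ball, dist_eq_norm] at hD'
        exact hz t D' ht hD'
      rw [h2.deriv_eq]
      have hDre : 0 < D.re := by
        have h1 := (abs_re_le_norm (D - 1)).trans_lt hD
        rw [abs_lt, sub_re, one_re] at h1
        linarith [h1.1]
      exact (Complex.hasDerivAt_log (Or.inl hDre)).neg.deriv
    rw [h1.deriv_eq]
    have h3 := ((hasDerivAt_inv (one_ne_zero : (1 : ℂ) ≠ 0)).neg).deriv
    have h4 : deriv (fun D : ℂ => -D⁻¹) 1 = - -((1 : ℂ) ^ 2)⁻¹ := h3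
    rw [h4]
    norm_num

namespace LagCA

lemma per_int {S : Finset ℤ} {c r : ℝ} {f : ℂ × ℂ → ℂ} (h : PH S c r f) {p : ℂ × ℂ}
    (hp : p ∈ Dm S c r) (n : ℤ) : f (p.1 + n, p.2) = f p := by
  have hmem : ∀ n : ℤ, ((p.1 + n, p.2) : ℂ × ℂ) ∈ Dm S c r := by
    intro n
    refine ⟨fun s hs => ?_, hp.2⟩
    have h1 := hp.1 s hs
    simpa using h1
  induction n using Int.induction_on with
  | zero => simp
  | succ n ih =>
    have h1 := h.per _ (hmem n)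
    simp only at h1
    rw [← ih, ← h1]
    congr 2
    push_cast
    ring
  | pred n ih =>
    have h1 := h.per _ (hmem (-n - 1))
    simp only at h1
    rw [← ih, ← h1]
    congr 2
    push_cast
    ring

end LagCA

/-- the identity is almost a solution -/
theorem lagc_id {κ : ℝ → ℝ} {b : ℝ} {ψ : ℂ → ℂ} (h : Psi κ b ψ) :
    ∃ b' C : ℝ, 0 < b' ∧ b' ≤ b ∧
      ∀ p ∈ Dm {-1, 0, 1} b' b', ‖EL (Lc ψ) (fun q => q.1) p‖ ≤ C * ‖p.2‖ := by
  obtain ⟨b₁, M, hb₁, hb₁b, hL, hz⟩ := lagc_lag h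
  set c₁ : ℝ := b₁ / 16 with hc₁
  have hc₁0 : 0 < c₁ := by positivity
  have hdt : ∀ p : ℂ × ℂ, dt (fun q : ℂ × ℂ => q.1) p = 1 := fun p => deriv_id p.1
  have hGF : GF c₁ c₁ 0 (fun q : ℂ × ℂ => q.1) := by
    have e0 : (fun p : ℂ × ℂ => p.1 - p.1) = fun _ => 0 := by
      funext p
      exact sub_self _
    refine ⟨?_, ?_⟩
    · rw [e0]
      exact ⟨⟨⟨differentiableOn_const _, fun _ _ => rfl⟩, fun _ _ _ _ => by simp⟩,
        fun _ _ => by simp⟩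
    · intro p _
      rw [hdt p]
      simp
  have hE := EL_RP hL hGF le_rfl le_rfl (by positivity : (0 : ℝ) ≤ b₁ / 16)
  set E : ℂ × ℂ → ℂ := EL (Lc ψ) (fun q => q.1) with hEdef
  have hbr : ∀ t : ℂ, br (fun q : ℂ × ℂ => q.1) (t, 0) = (t, 1, 0) := by
    intro t
    unfold br
    rw [nab_zero, hdt]
  have hdiff : ∀ t : ℂ, |t.im| < b₁ → DifferentiableAt ℂ (Lc ψ) (t, 1, 0) := by
    intro t ht
    have hmem : ((t, 1, 0) : ℂ × ℂ × ℂ) ∈ DL b₁ :=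
      ⟨ht, by simpa using hb₁, by simpa using hb₁⟩
    exact hL.diff.differentiableAt ((isOpen_DL b₁).mem_nhds hmem)
  have hLD : ∀ t : ℂ, |t.im| < b₁ → LD (Lc ψ) (t, 1, 0) = -1 := by
    intro t ht
    rw [LagCA.LD_eq_deriv (hdiff t ht)]
    have h2 : (fun D => Lc ψ (t, D, 0)) =ᶠ[𝓝 1] fun D => -log D := by
      filter_upwards [Metric.ball_mem_nhds (1 : ℂ) hb₁] with D' hD'
      rw [Metric.mem_ball, dist_eq_norm] at hD'
      exact hz t D' ht hD'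
    have h3 : HasDerivAt (fun D : ℂ => -log D) (-(1 : ℂ)⁻¹) 1 :=
      (Complex.hasDerivAt_log (Or.inl (by simp) : (1 : ℂ) ∈ slitPlane)).neg
    rw [h2.deriv_eq, h3.deriv, inv_one]
  have hLt : ∀ t : ℂ, |t.im| < b₁ → Lt (Lc ψ) (t, 1, 0) = 0 := by
    intro t ht
    rw [LagCA.Lt_eq_deriv (hdiff t ht)]
    have h2 : (fun s => Lc ψ (s, 1, 0)) =ᶠ[𝓝 t] fun _ => 0 := by
      filter_upwards [(LagCA.isOpen_strip b₁).mem_nhds ht] with s hs
      rw [hz s 1 hs (by simpa using hb₁), log_one, neg_zero]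
    rw [h2.deriv_eq, deriv_const]
  have h0 : ∀ t : ℂ, |t.im| < b₁ → E (t, 0) = 0 := by
    intro t ht
    show Lt (Lc ψ) (br (fun q : ℂ × ℂ => q.1) (t, 0)) -
      nabm (fun q => LD (Lc ψ) (br (fun q : ℂ × ℂ => q.1) q)) (t, 0) = 0
    rw [hbr, hLt t ht, nabm_zero]
    have h2 : (fun s => LD (Lc ψ) (br (fun q : ℂ × ℂ => q.1) (s, 0))) =ᶠ[𝓝 t] fun _ => -1 := by
      filter_upwards [(LagCA.isOpen_strip b₁).mem_nhds ht] with s hs
      rw [hbr, hLD s hs]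
    have h3 : dt (fun q => LD (Lc ψ) (br (fun q : ℂ × ℂ => q.1) q)) (t, 0) = 0 := by
      show deriv (fun s => LD (Lc ψ) (br (fun q : ℂ × ℂ => q.1) (s, 0))) t = 0
      rw [h2.deriv_eq, deriv_const]
    rw [h3, sub_zero]
  -- points of the domain
  have hdom : ∀ p : ℂ × ℂ, |p.1.im| ≤ c₁ / 4 → ‖p.2‖ ≤ c₁ / 2 →
      p ∈ Dm {-1, 0, 1} c₁ c₁ := by
    intro p h1 h2
    have h3 := (abs_re_le_norm p.2).trans h2
    have h4 := (abs_im_le_norm p.2).trans h2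
    refine ⟨?_, by linarith, by linarith⟩
    intro s hs
    have e : (p.1 + s * p.2).im = p.1.im + s * p.2.im := by simp
    rw [e]
    rw [abs_le] at h1 h4
    rw [abs_lt]
    rw [Finset.mem_insert, Finset.mem_insert, Finset.mem_singleton] at hs
    rcases hs with rfl | rfl | rfl <;> push_cast <;> constructor <;> linarith [h1.1, h1.2, h4.1, h4.2]
  -- the bound
  obtain ⟨M₁, hM₁⟩ : ∃ M₁ : ℝ, ∀ p : ℂ × ℂ, |p.1.im| ≤ c₁ / 4 → ‖p.2‖ ≤ c₁ / 2 →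
      ‖E p‖ ≤ M₁ := by
    have hK : IsCompact ((Icc (0 : ℝ) 1 ×ℂ Icc (-(c₁ / 4)) (c₁ / 4)) ×ˢ
        Metric.closedBall (0 : ℂ) (c₁ / 2)) :=
      (isCompact_Icc.reProdIm isCompact_Icc).prod (isCompact_closedBall 0 (c₁ / 2))
    have hcont : ContinuousOn E ((Icc (0 : ℝ) 1 ×ℂ Icc (-(c₁ / 4)) (c₁ / 4)) ×ˢ
        Metric.closedBall (0 : ℂ) (c₁ / 2)) := by
      refine hE.diff.continuousOn.mono ?_
      rintro p ⟨hp1, hp2⟩
      refine hdom p (abs_le.2 hp1.2) ?_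
      simpa using hp2
    obtain ⟨M₁, hM₁⟩ := hK.exists_bound_of_continuousOn hcont
    refine ⟨M₁, fun p h1 h2 => ?_⟩
    have h3 := LagCA.per_int hE.toPH (hdom p h1 h2) (-⌊p.1.re⌋)
    rw [← h3]
    refine hM₁ _ ⟨?_, by simpa using h2⟩
    have e1 : (p.1 + ((-⌊p.1.re⌋ : ℤ) : ℂ)).re = p.1.re - ⌊p.1.re⌋ := by
      simp [sub_eq_add_neg]
    have e2 : (p.1 + ((-⌊p.1.re⌋ : ℤ) : ℂ)).im = p.1.im := by simp
    refine ⟨?_, ?_⟩
    · show (p.1 + ((-⌊p.1.re⌋ : ℤ) : ℂ)).re ∈ Icc (0 : ℝ) 1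
      rw [e1]
      exact ⟨by linarith [Int.floor_le p.1.re], by linarith [Int.lt_floor_add_one p.1.re]⟩
    · show (p.1 + ((-⌊p.1.re⌋ : ℤ) : ℂ)).im ∈ Icc (-(c₁ / 4)) (c₁ / 4)
      rw [e2]
      exact abs_le.1 h1
  refine ⟨c₁ / 4, M₁ / (c₁ / 2), by positivity, by linarith, ?_⟩
  intro p hp
  have hp1 : |p.1.im| < c₁ / 4 := by
    have := hp.1 0 (by simp)
    simpa using this
  have hp2 : ‖p.2‖ < c₁ / 2 := by
    refine lt_of_le_of_lt (norm_le_abs_re_add_abs_im _) ?_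
    linarith [hp.2.1, hp.2.2]
  have hd : DifferentiableOn ℂ (fun z => E (p.1, z)) (Metric.ball 0 (c₁ / 2)) := by
    have h1 : DifferentiableOn ℂ (fun z : ℂ => ((p.1, z) : ℂ × ℂ)) (Metric.ball 0 (c₁ / 2)) :=
      ((differentiable_const p.1).prodMk differentiable_id).differentiableOn
    refine hE.diff.comp h1 ?_
    intro z hz'
    exact hdom (p.1, z) hp1.le (by simpa using (Metric.mem_ball.1 hz').le)
  have e0 : E (p.1, 0) = 0 := h0 p.1 (by linarith)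
  have hmaps : MapsTo (fun z => E (p.1, z)) (Metric.ball 0 (c₁ / 2))
      (Metric.closedBall (E (p.1, 0)) M₁) := by
    intro z hz'
    rw [e0, Metric.mem_closedBall, dist_zero_right]
    exact hM₁ (p.1, z) hp1.le (by simpa using (Metric.mem_ball.1 hz').le)
  have h5 := Complex.dist_le_div_mul_dist_of_mapsTo_ball hd hmaps
    (by simpa using hp2 : p.2 ∈ Metric.ball (0 : ℂ) (c₁ / 2))
  simp only [e0, dist_zero_right] at h5
  exact h5

end Pool.Agent.MP_ae5b4e_an_SM
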