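import Mathlib
import Pool.Agent.Lib.MP_ae5b4e_an_SM.LagC0

/-!
# MP_ae5b4e_an, project SMOOTH, module SX: Euler-Lagrange equations of the circle Lagrangian
-/

noncomputable section

namespace Pool.Agent.MP_ae5b4e_an_SM

open Complex Set Filter Topology

private lemma lagCB_strip (b : ℝ) : IsOpen {t : ℂ | |t.im| < b} :=
  isOpen_lt (continuous_abs.comp continuous_im) continuous_const

private lemma lagCB_psi {κ : ℝ → ℝ} {b : ℝ} {ψ : ℂ → ℂ} (h : Psi κ b ψ) {t : ℂ}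
    (ht : |t.im| < b) : HasDerivAt ψ (deriv ψ t) t :=
  ((h.diff t ht).differentiableAt ((lagCB_strip b).mem_nhds ht)).hasDerivAt

private lemma lagCB_psi' {κ : ℝ → ℝ} {b : ℝ} {ψ : ℂ → ℂ} (h : Psi κ b ψ) {t : ℂ}
    (ht : |t.im| < b) : HasDerivAt (deriv ψ) (deriv (deriv ψ) t) t :=
  ((h.diff.deriv (lagCB_strip b) t ht).differentiableAt
    ((lagCB_strip b).mem_nhds ht)).hasDerivAt

private lemma lagCB_slit {z : ℂ} {m : ℝ} (hm : 0 < m) (h : m ≤ z.re) : z ∈ slitPlane :=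
  Or.inl (hm.trans_le h)

private lemma lagCB_ne {z : ℂ} {m : ℝ} (hm : 0 < m) (h : m ≤ z.re) : z ≠ 0 := by
  rintro rfl
  rw [zero_re] at h
  linarith

/-- the derivative of the explicit form along a line -/
private lemma lagCB_line {ψ : ℂ → ℂ} {u w : ℂ → ℂ} {s₀ u' w' ρ : ℂ} {a a' c c' : ℂ}
    (hu : HasDerivAt u u' s₀) (hw : HasDerivAt w w' s₀)
    (h1 : HasDerivAt ψ a (u s₀)) (h2 : HasDerivAt ψ a' (w s₀))
    (h3 : HasDerivAt (deriv ψ) c (u s₀)) (h4 : HasDerivAt (deriv ψ) c' (w s₀))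
    (hρ : ρ ≠ 0) (hs : 2 * sin ((ψ (w s₀) - ψ (u s₀)) / 2) / ρ ∈ slitPlane)
    (h5 : deriv ψ (u s₀) ∈ slitPlane) (h6 : deriv ψ (w s₀) ∈ slitPlane) :
    HasDerivAt (fun s => -log (2 * sin ((ψ (w s) - ψ (u s)) / 2) / ρ) +
        log (deriv ψ (u s)) / 2 + log (deriv ψ (w s)) / 2)
      (-(cos ((ψ (w s₀) - ψ (u s₀)) / 2) * (a' * w' - a * u') /
        (2 * sin ((ψ (w s₀) - ψ (u s₀)) / 2))) + c * u' / (2 * deriv ψ (u s₀)) +
          c' * w' / (2 * deriv ψ (w s₀))) s₀ := by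
  have e1 : HasDerivAt (fun s => ψ (w s)) (a' * w') s₀ := h2.comp s₀ hw
  have e2 : HasDerivAt (fun s => ψ (u s)) (a * u') s₀ := h1.comp s₀ hu
  have e3 : HasDerivAt (fun s => deriv ψ (w s)) (c' * w') s₀ := h4.comp s₀ hw
  have e4 : HasDerivAt (fun s => deriv ψ (u s)) (c * u') s₀ := h3.comp s₀ hu
  have e5 : HasDerivAt (fun s => 2 * sin ((ψ (w s) - ψ (u s)) / 2) / ρ)
      (2 * (cos ((ψ (w s₀) - ψ (u s₀)) / 2) * ((a' * w' - a * u') / 2)) / ρ) s₀ :=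
    (((e1.sub e2).div_const 2).csin.const_mul 2).div_const ρ
  have e6 := ((e5.clog hs).neg.add ((e4.clog h5).div_const 2)).add ((e3.clog h6).div_const 2)
  have hs0 : sin ((ψ (w s₀) - ψ (u s₀)) / 2) ≠ 0 := by
    intro h0
    rw [h0] at hs
    simp at hs
  have h50 : deriv ψ (u s₀) ≠ 0 := slitPlane_ne_zero h5
  have h60 : deriv ψ (w s₀) ≠ 0 := slitPlane_ne_zero h6
  refine e6.congr_deriv ?_
  field_simp

/-- the data provided by `qc_pos` -/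
private structure lagCB_D (b b' m : ℝ) (ψ : ℂ → ℂ) : Prop where
  bb : b' ≤ b / 4
  m0 : 0 < m
  im : ∀ P ∈ DL b', |(P.1 + P.2.2 * P.2.1).im| < b
  q : ∀ P ∈ DL b', m ≤ (Qc ψ P).re
  l : ∀ P ∈ DL b', m ≤ (deriv ψ P.1).re
  r : ∀ P ∈ DL b', m ≤ (deriv ψ (P.1 + P.2.2 * P.2.1)).re
  eq : ∀ P ∈ DL b', P.2.2 ≠ 0 →
    Qc ψ P = 2 * sin ((ψ (P.1 + P.2.2 * P.2.1) - ψ P.1) / 2) / P.2.2

private lemma lagCB_im {b b' : ℝ} (hb : 0 < b) (hbb : b' ≤ b / 4) {P : ℂ × ℂ × ℂ}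
    (hP : P ∈ DL b') : |P.1.im| < b := by
  have := hP.1
  linarith

private lemma lagCB_diff {κ : ℝ → ℝ} {b b' m : ℝ} {ψ : ℂ → ℂ} (h : Psi κ b ψ)
    (hD : lagCB_D b b' m ψ) {P : ℂ × ℂ × ℂ} (hP : P ∈ DL b') :
    DifferentiableAt ℂ (Lc ψ) P := by
  have hQ : DifferentiableAt ℂ (Qc ψ) P :=
    (qc_diff h hD.bb P hP).differentiableAt ((isOpen_DL b').mem_nhds hP)
  have h1 : DifferentiableAt ℂ (fun P : ℂ × ℂ × ℂ => deriv ψ P.1) P :=
    (lagCB_psi' h (lagCB_im h.b0 hD.bb hP)).differentiableAt.comp P differentiableAt_fst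
  have h2 : DifferentiableAt ℂ (fun P : ℂ × ℂ × ℂ => deriv ψ (P.1 + P.2.2 * P.2.1)) P :=
    DifferentiableAt.comp (g := deriv ψ) (f := fun P : ℂ × ℂ × ℂ => P.1 + P.2.2 * P.2.1) P
      (lagCB_psi' h (hD.im P hP)).differentiableAt (by fun_prop)
  have e1 := hQ.clog (lagCB_slit hD.m0 (hD.q P hP))
  have e2 := h1.clog (lagCB_slit hD.m0 (hD.l P hP))
  have e3 := h2.clog (lagCB_slit hD.m0 (hD.r P hP))
  have e4 : Lc ψ = fun P => -log (Qc ψ P) + log (deriv ψ P.1) * (2 : ℂ)⁻¹ +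
      log (deriv ψ (P.1 + P.2.2 * P.2.1)) * (2 : ℂ)⁻¹ := by
    funext P
    unfold Lc
    rw [div_eq_mul_inv, div_eq_mul_inv]
  rw [e4]
  exact (e1.neg.add (e2.mul_const (2 : ℂ)⁻¹)).add (e3.mul_const (2 : ℂ)⁻¹)

/-- the two partial derivatives -/
private lemma lagCB_deriv {κ : ℝ → ℝ} {b b' m : ℝ} {ψ : ℂ → ℂ} (h : Psi κ b ψ)
    (hD : lagCB_D b b' m ψ) {t D ρ : ℂ} (hP : (t, D, ρ) ∈ DL b') (hρ : ρ ≠ 0) :
    Lt (Lc ψ) (t, D, ρ) =
      -(cos ((ψ (t + ρ * D) - ψ t) / 2) * (deriv ψ (t + ρ * D) - deriv ψ t) /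
        (2 * sin ((ψ (t + ρ * D) - ψ t) / 2))) + deriv (deriv ψ) t / (2 * deriv ψ t) +
          deriv (deriv ψ) (t + ρ * D) / (2 * deriv ψ (t + ρ * D)) ∧
    LD (Lc ψ) (t, D, ρ) =
      -(cos ((ψ (t + ρ * D) - ψ t) / 2) * (deriv ψ (t + ρ * D) * ρ) /
        (2 * sin ((ψ (t + ρ * D) - ψ t) / 2))) +
          deriv (deriv ψ) (t + ρ * D) * ρ / (2 * deriv ψ (t + ρ * D)) := by
  have hf := (lagCB_diff h hD hP).hasFDerivAt
  have hq := hD.eq _ hP hρ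
  have hsl : 2 * sin ((ψ (t + ρ * D) - ψ t) / 2) / ρ ∈ slitPlane := by
    have := lagCB_slit hD.m0 (hD.q _ hP)
    rw [hq] at this
    exact this
  have g1 := lagCB_psi h (lagCB_im h.b0 hD.bb hP)
  have g2 := lagCB_psi h (hD.im _ hP)
  have g3 := lagCB_psi' h (lagCB_im h.b0 hD.bb hP)
  have g4 := lagCB_psi' h (hD.im _ hP)
  have g5 := lagCB_slit hD.m0 (hD.l _ hP)
  have g6 := lagCB_slit hD.m0 (hD.r _ hP)
  constructor
  · have c1 : HasDerivAt (fun s : ℂ => (s, D, ρ)) ((1 : ℂ), (0 : ℂ), (0 : ℂ)) t :=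
      (hasDerivAt_id t).prodMk ((hasDerivAt_const t D).prodMk (hasDerivAt_const t ρ))
    have c2 : HasDerivAt (fun s => Lc ψ (s, D, ρ)) (fderiv ℂ (Lc ψ) (t, D, ρ) (1, 0, 0)) t :=
      HasFDerivAt.comp_hasDerivAt (f := fun s : ℂ => (s, D, ρ)) t hf c1
    have c3 := lagCB_line (u := fun s => s) (w := fun s => s + ρ * D) (s₀ := t) (ρ := ρ)
      (hasDerivAt_id' t) ((hasDerivAt_id' t).add_const (ρ * D)) g1 g2 g3 g4 hρ hsl g5 g6
    have c4 : (fun s => Lc ψ (s, D, ρ)) =ᶠ[𝓝 t] fun s =>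
        -log (2 * sin ((ψ (s + ρ * D) - ψ s) / 2) / ρ) + log (deriv ψ s) / 2 +
          log (deriv ψ (s + ρ * D)) / 2 := by
      have c5 : ∀ᶠ s in 𝓝 t, (s, D, ρ) ∈ DL b' :=
        c1.continuousAt.eventually_mem ((isOpen_DL b').mem_nhds hP)
      filter_upwards [c5] with s hs
      have := hD.eq _ hs hρ
      unfold Lc
      rw [this]
    have c6 := c2.unique (c3.congr_of_eventuallyEq c4)
    unfold Lt
    rw [c6]
    simp only [mul_one]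
  · have c1 : HasDerivAt (fun s : ℂ => (t, s, ρ)) ((0 : ℂ), (1 : ℂ), (0 : ℂ)) D :=
      (hasDerivAt_const D t).prodMk ((hasDerivAt_id D).prodMk (hasDerivAt_const D ρ))
    have c2 : HasDerivAt (fun s => Lc ψ (t, s, ρ)) (fderiv ℂ (Lc ψ) (t, D, ρ) (0, 1, 0)) D :=
      HasFDerivAt.comp_hasDerivAt (f := fun s : ℂ => (t, s, ρ)) D hf c1
    have c0 : HasDerivAt (fun s : ℂ => t + ρ * s) ρ D := by
      have := ((hasDerivAt_id' D).const_mul ρ).const_add t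
      rwa [mul_one] at this
    have c3 := lagCB_line (u := fun _ => t) (w := fun s => t + ρ * s) (s₀ := D) (ρ := ρ)
      (hasDerivAt_const D t) c0 g1 g2 g3 g4 hρ hsl g5 g6
    have c4 : (fun s => Lc ψ (t, s, ρ)) =ᶠ[𝓝 D] fun s =>
        -log (2 * sin ((ψ (t + ρ * s) - ψ t) / 2) / ρ) + log (deriv ψ t) / 2 +
          log (deriv ψ (t + ρ * s)) / 2 := by
      have c5 : ∀ᶠ s in 𝓝 D, (t, s, ρ) ∈ DL b' :=
        c1.continuousAt.eventually_mem ((isOpen_DL b').mem_nhds hP)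
      filter_upwards [c5] with s hs
      have := hD.eq _ hs hρ
      unfold Lc
      rw [this]
    have c6 := c2.unique (c3.congr_of_eventuallyEq c4)
    unfold LD
    rw [c6]
    simp only [mul_zero, zero_div, add_zero, sub_zero]

theorem lagc_el {κ : ℝ → ℝ} {b : ℝ} {ψ : ℂ → ℂ} (h : Psi κ b ψ) :
    ∃ b' : ℝ, 0 < b' ∧ b' ≤ b ∧
    ∀ ρ x y z : ℂ, ρ ≠ 0 → ‖ρ‖ < b' → |x.im| < b' → |y.im| < b' → ‖(z - y) / ρ - 1‖ < b' →
      ‖(y - x) / ρ - 1‖ < b' → el (Lc ψ) ρ x y z = elc ψ x y z := by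
  obtain ⟨b', m, hb', hbb, hm, hP⟩ := qc_pos h
  have hD : lagCB_D b b' m ψ :=
    { bb := hbb
      m0 := hm
      im := fun P h => (hP P h).1
      q := fun P h => (hP P h).2.1
      l := fun P h => (hP P h).2.2.1
      r := fun P h => (hP P h).2.2.2.1
      eq := fun P h => (hP P h).2.2.2.2.2.2.2 }
  refine ⟨b', hb', by linarith [h.b0], fun ρ x y z hρ hρb hx hy hz hyx => ?_⟩
  have m1 : (y, (z - y) / ρ, ρ) ∈ DL b' := ⟨hy, hz, hρb⟩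
  have m2 : (x, (y - x) / ρ, ρ) ∈ DL b' := ⟨hx, hyx, hρb⟩
  have e1 : y + ρ * ((z - y) / ρ) = z := by
    field_simp
    ring
  have e2 : x + ρ * ((y - x) / ρ) = y := by
    field_simp
    ring
  obtain ⟨a1, a2⟩ := lagCB_deriv h hD m1 hρ
  obtain ⟨-, a3⟩ := lagCB_deriv h hD m2 hρ
  have n1 : sin ((ψ z - ψ y) / 2) ≠ 0 := by
    intro h0
    have h1 := hD.eq _ m1 hρ
    have h2 := lagCB_ne hm (hD.q _ m1)
    rw [h1, e1, h0] at h2
    simp at h2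
  have n2 : sin ((ψ y - ψ x) / 2) ≠ 0 := by
    intro h0
    have h1 := hD.eq _ m2 hρ
    have h2 := lagCB_ne hm (hD.q _ m2)
    rw [h1, e2, h0] at h2
    simp at h2
  have n3 : deriv ψ y ≠ 0 := lagCB_ne hm (hD.l _ m1)
  have n4 : deriv ψ z ≠ 0 := by
    have := lagCB_ne hm (hD.r _ m1)
    rwa [e1] at this
  rw [e1] at a1 a2
  rw [e2] at a3
  unfold el elc
  rw [a1, a2, a3, cot_eq_cos_div_sin, cot_eq_cos_div_sin]
  field_simp
  ring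

end Pool.Agent.MP_ae5b4e_an_SM
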