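import Mathlib
import Pool.Agent.Lib.MP_ae5b4e_an_LAT.NDCplx

/-!
# MP_ae5b4e_an, project SMOOTH, module ST: periodic real-analytic functions extend to a strip
-/

noncomputable section

namespace Pool.Agent.MP_ae5b4e_an_SM

open Complex Set Filter Topology

/-- local complexification of a real-analytic function of one variable -/
theorem ext_local {f : ℝ → ℝ} {x : ℝ} (hf : AnalyticAt ℝ f x) :
    ∃ r : ℝ, 0 < r ∧ ∃ G : ℂ → ℂ, DifferentiableOn ℂ G (Metric.ball (x : ℂ) r) ∧
      ∀ y : ℝ, |y - x| < r → G y = f y := by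
  have h1 : AnalyticAt ℝ (fun p : ℝ × ℝ => f p.1) (x, 0) :=
    AnalyticAt.fun_comp (f := fun p : ℝ × ℝ => p.1) (g := f) hf analyticAt_fst
  obtain ⟨F, hF, hFf⟩ := Pool.Agent.MP_ae5b4e_an_ND.exists_complexification2 h1
  have hc : Tendsto (fun y : ℝ => (y, (0 : ℝ))) (𝓝 x) (𝓝 (x, 0)) := by
    have : Continuous (fun y : ℝ => (y, (0 : ℝ))) := by fun_prop
    exact this.tendsto x
  have h2 : ∀ᶠ y : ℝ in 𝓝 x, F ((y : ℂ), ((0 : ℝ) : ℂ)) = (f y : ℂ) := hc.eventually hFf
  have hG : AnalyticAt ℂ (fun z : ℂ => F (z, ((0 : ℝ) : ℂ))) (x : ℂ) := by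
    have h3 : AnalyticAt ℂ (fun z : ℂ => (z, ((0 : ℝ) : ℂ))) (x : ℂ) :=
      analyticAt_id.prod analyticAt_const
    exact AnalyticAt.fun_comp (f := fun z : ℂ => (z, ((0 : ℝ) : ℂ))) (g := F) hF h3
  obtain ⟨s, hs, hs'⟩ := Metric.eventually_nhds_iff.1 h2
  obtain ⟨u, hu, hu'⟩ := Metric.eventually_nhds_iff.1 hG.eventually_analyticAt
  refine ⟨min s u, lt_min hs hu, fun z : ℂ => F (z, ((0 : ℝ) : ℂ)), ?_, ?_⟩
  · intro z hz
    have h4 : dist z (x : ℂ) < u := (Metric.mem_ball.1 hz).trans_le (min_le_right _ _)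
    exact (hu' h4).differentiableAt.differentiableWithinAt
  · intro y hy
    exact hs' (by rw [Real.dist_eq]; exact hy.trans_le (min_le_left _ _))

/-- identity theorem -/
theorem ext_ident {U : Set ℂ} (hU : IsOpen U) (hc : IsPreconnected U) {g h : ℂ → ℂ}
    (hg : DifferentiableOn ℂ g U) (hh : DifferentiableOn ℂ h U) {x : ℝ} (hx : (x : ℂ) ∈ U)
    (he : ∀ᶠ y : ℝ in 𝓝 x, g y = h y) : EqOn g h U := by
  refine AnalyticOnNhd.eqOn_of_preconnected_of_frequently_eq (hg.analyticOnNhd hU)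
    (hh.analyticOnNhd hU) hc hx ?_
  have h1 : Tendsto (fun y : ℝ => (y : ℂ)) (𝓝[≠] x) (𝓝[≠] (x : ℂ)) := by
    refine tendsto_nhdsWithin_of_tendsto_nhds_of_eventually_within _
      ((continuous_ofReal.tendsto x).mono_left nhdsWithin_le_nhds) ?_
    filter_upwards [self_mem_nhdsWithin] with y hy h
    have h' : (y : ℂ) = (x : ℂ) := h
    exact hy (ofReal_injective h')
  have h2 : ∀ᶠ y : ℝ in 𝓝[≠] x, g y = h y := he.filter_mono nhdsWithin_le_nhds
  exact h1.frequently h2.frequently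

/-- uniform radius of the local complexifications -/
theorem ext_uniform {f : ℝ → ℝ} (hf : ∀ x, AnalyticAt ℝ f x) {T : ℝ} (hT : 0 < T)
    (hper : ∀ x, f (x + T) = f x) : ∃ r : ℝ, 0 < r ∧ ∀ x : ℝ, ∃ G : ℂ → ℂ,
      DifferentiableOn ℂ G (Metric.ball (x : ℂ) r) ∧ ∀ y : ℝ, |y - x| < r → G y = f y := by
  choose R hR using fun x => ext_local (hf x)
  obtain ⟨F, hF, hcov⟩ := (isCompact_Icc (a := (0 : ℝ)) (b := T)).elim_nhds_subcover
    (fun x => Metric.ball x (R x / 2)) fun x _ => Metric.ball_mem_nhds x (half_pos (hR x).1)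
  have hne : F.Nonempty := by
    by_contra h
    rw [Finset.not_nonempty_iff_eq_empty] at h
    have h1 := hcov (left_mem_Icc.2 hT.le)
    simp [h] at h1
  obtain ⟨x0, hx0, hmin⟩ := F.exists_min_image R hne
  refine ⟨R x0 / 2, half_pos (hR x0).1, ?_⟩
  have hI : ∀ x ∈ Icc (0 : ℝ) T, ∃ G : ℂ → ℂ,
      DifferentiableOn ℂ G (Metric.ball (x : ℂ) (R x0 / 2)) ∧
        ∀ y : ℝ, |y - x| < R x0 / 2 → G y = f y := by
    intro x hx
    obtain ⟨x1, hx1⟩ := mem_iUnion.1 (hcov hx)
    obtain ⟨hx1F, hx1b⟩ := mem_iUnion.1 hx1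
    rw [Metric.mem_ball, Real.dist_eq] at hx1b
    obtain ⟨hpos, G, hG, hGf⟩ := hR x1
    have hm := hmin x1 hx1F
    refine ⟨G, hG.mono ?_, ?_⟩
    · intro z hz
      rw [Metric.mem_ball] at hz ⊢
      calc dist z (x1 : ℂ) ≤ dist z (x : ℂ) + dist (x : ℂ) (x1 : ℂ) := dist_triangle _ _ _
        _ < R x0 / 2 + R x1 / 2 := by
            refine add_lt_add hz ?_
            rw [dist_eq_norm, ← ofReal_sub, norm_real, Real.norm_eq_abs]
            exact hx1b
        _ ≤ R x1 := by linarith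
    · intro y hy
      refine hGf y ?_
      calc |y - x1| = |(y - x) + (x - x1)| := by ring_nf
        _ ≤ |y - x| + |x - x1| := abs_add_le _ _
        _ < R x0 / 2 + R x1 / 2 := add_lt_add hy hx1b
        _ ≤ R x1 := by linarith
  intro x
  set n : ℤ := ⌊x / T⌋ with hn
  obtain ⟨G, hG, hGf⟩ := hI (x - n * T)
    ⟨Int.sub_floor_div_mul_nonneg x hT, (Int.sub_floor_div_mul_lt x hT).le⟩
  refine ⟨fun z => G (z - ((n * T : ℝ) : ℂ)), ?_, ?_⟩
  · refine hG.comp (by fun_prop) ?_
    intro z hz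
    rw [Metric.mem_ball, dist_eq_norm] at hz ⊢
    rw [ofReal_sub]
    convert hz using 2
    ring
  · intro y hy
    have h1 : f (y - n * T) = f y := by
      have h2 : Function.Periodic f T := hper
      exact h2.sub_int_mul_eq n
    have h3 : ((y : ℂ) - ((n * T : ℝ) : ℂ)) = ((y - n * T : ℝ) : ℂ) := by push_cast; ring
    simp only
    rw [h3, hGf (y - n * T) (by convert hy using 2; ring), h1]

theorem exists_strip {f : ℝ → ℝ} (hf : ∀ x, AnalyticAt ℝ f x) {T : ℝ} (hT : 0 < T)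
    (hper : ∀ x, f (x + T) = f x) : ∃ (b : ℝ) (g : ℂ → ℂ), 0 < b ∧
    DifferentiableOn ℂ g {t | |t.im| < b} ∧ (∀ x : ℝ, g x = f x) ∧
    (∀ t : ℂ, |t.im| < b → g (t + T) = g t) := by
  obtain ⟨r, hr, hG⟩ := ext_uniform hf hT hper
  choose G hGd hGf using hG
  have key : ∀ (x : ℝ) (z : ℂ), z ∈ Metric.ball (x : ℂ) r → G z.re z = G x z := by
    intro x z hz
    have hzx : ‖z - x‖ < r := by rwa [Metric.mem_ball, dist_eq_norm] at hz
    have h1 : |z.im| < r := by
      have := (abs_im_le_norm (z - x)).trans_lt hzx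
      simpa using this
    have h2 : |z.re - x| < r := by
      have := (abs_re_le_norm (z - x)).trans_lt hzx
      simpa using this
    have h3 : z ∈ Metric.ball (z.re : ℂ) r := by
      rw [Metric.mem_ball, dist_eq_norm]
      have e : z - (z.re : ℂ) = (z.im : ℂ) * I := by
        apply Complex.ext <;> simp
      rw [e, norm_mul, norm_I, mul_one, norm_real, Real.norm_eq_abs]
      exact h1
    have h4 : (z.re : ℂ) ∈ Metric.ball (z.re : ℂ) r ∩ Metric.ball (x : ℂ) r := by
      refine ⟨Metric.mem_ball_self hr, ?_⟩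
      rw [Metric.mem_ball, dist_eq_norm, ← ofReal_sub, norm_real, Real.norm_eq_abs]
      exact h2
    have h5 : IsPreconnected (Metric.ball (z.re : ℂ) r ∩ Metric.ball (x : ℂ) r) :=
      ((convex_ball _ _).inter (convex_ball _ _)).isPreconnected
    refine ext_ident (Metric.isOpen_ball.inter Metric.isOpen_ball) h5
      ((hGd z.re).mono inter_subset_left) ((hGd x).mono inter_subset_right) h4 ?_ ⟨h3, hz⟩
    have h6 : ∀ᶠ y : ℝ in 𝓝 z.re, |y - z.re| < r := by
      have : Metric.ball z.re r ∈ 𝓝 z.re := Metric.ball_mem_nhds _ hr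
      filter_upwards [this] with y hy
      rwa [Metric.mem_ball, Real.dist_eq] at hy
    have h7 : ∀ᶠ y : ℝ in 𝓝 z.re, |y - x| < r := by
      have : Metric.ball x r ∈ 𝓝 z.re := Metric.isOpen_ball.mem_nhds (by
        rw [Metric.mem_ball, Real.dist_eq]
        exact h2)
      filter_upwards [this] with y hy
      rwa [Metric.mem_ball, Real.dist_eq] at hy
    filter_upwards [h6, h7] with y hy1 hy2
    rw [hGf _ y hy1, hGf _ y hy2]
  have hdiff : DifferentiableOn ℂ (fun z : ℂ => G z.re z) {t | |t.im| < r} := by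
    intro z hz
    have hz' : z ∈ Metric.ball (z.re : ℂ) r := by
      rw [Metric.mem_ball, dist_eq_norm]
      have e : z - (z.re : ℂ) = (z.im : ℂ) * I := by
        apply Complex.ext <;> simp
      rw [e, norm_mul, norm_I, mul_one, norm_real, Real.norm_eq_abs]
      exact hz
    have h1 : DifferentiableAt ℂ (G z.re) z :=
      (hGd z.re).differentiableAt (Metric.isOpen_ball.mem_nhds hz')
    have h2 : (fun w : ℂ => G w.re w) =ᶠ[𝓝 z] G z.re := by
      filter_upwards [Metric.isOpen_ball.mem_nhds hz'] with w hw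
      exact key z.re w hw
    exact (h1.congr_of_eventuallyEq h2).differentiableWithinAt
  have hreal : ∀ x : ℝ, G (x : ℂ).re (x : ℂ) = f x := by
    intro x
    rw [ofReal_re]
    exact hGf x x (by simpa using hr)
  have hopen : IsOpen {t : ℂ | |t.im| < r} :=
    isOpen_lt (continuous_abs.comp continuous_im) continuous_const
  have hconv : Convex ℝ {t : ℂ | |t.im| < r} := by
    have h : {t : ℂ | |t.im| < r} = im ⁻¹' Ioo (-r) r := by
      ext z
      simp [abs_lt]
    rw [h]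
    exact (convex_Ioo (-r) r).is_linear_preimage (f := im) ⟨fun _ _ => rfl, by simp⟩
  refine ⟨r, fun z => G z.re z, hr, hdiff, hreal, ?_⟩
  intro t ht
  have hshift : DifferentiableOn ℂ (fun z : ℂ => (fun w : ℂ => G w.re w) (z + T))
      {t | |t.im| < r} := by
    refine hdiff.comp (by fun_prop) ?_
    intro z hz
    simpa using hz
  refine ext_ident hopen hconv.isPreconnected hshift hdiff (x := 0) (by simpa using hr) ?_ ht
  refine Eventually.of_forall fun y => ?_
  have h1 := hreal (y + T)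
  have h2 := hreal y
  simp only at h1 h2 ⊢
  rw [h2, ← hper y, ← h1]
  push_cast
  rfl

end Pool.Agent.MP_ae5b4e_an_SM
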