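import Mathlib
import Pool.Agent.Lib.MP_ae5b4e_an_SM.Conic
import Pool.Agent.Lib.MP_ae5b4e_an_SM.Ext

/-!
# MP_ae5b4e_an, project SMOOTH: existence of the parametrisation
-/

noncomputable section

namespace Pool.Agent.MP_ae5b4e_an_SM

open Complex Set Filter Topology
open scoped ContDiff

namespace PsiEx

lemma isOpen_str (b : ℝ) : IsOpen {t : ℂ | |t.im| < b} :=
  isOpen_lt (continuous_abs.comp continuous_im) continuous_const

lemma convex_str (b : ℝ) : Convex ℝ {t : ℂ | |t.im| < b} := by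
  have h : {t : ℂ | |t.im| < b} = im ⁻¹' Ioo (-b) b := by
    ext z
    simp [abs_lt]
  rw [h]
  exact (convex_Ioo (-b) b).is_linear_preimage (f := im) ⟨fun _ _ => rfl, by simp⟩

/-- the primitive of a periodic analytic function is analytic -/
lemma prim {f : ℝ → ℝ} (hf : ∀ x, AnalyticAt ℝ f x) {T : ℝ} (hT : 0 < T)
    (hper : ∀ x, f (x + T) = f x) (x : ℝ) : AnalyticAt ℝ (fun x => ∫ s in (0)..x, f s) x := by
  obtain ⟨b, g, hb, hg, hgr, -⟩ := exists_strip hf hT hper
  obtain ⟨K, hK⟩ := (convex_str b).exists_forall_hasDerivWithinAt hg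
  have hmem : ∀ x : ℝ, (x : ℂ) ∈ {t : ℂ | |t.im| < b} := by
    intro x
    show |(x : ℂ).im| < b
    rw [ofReal_im, abs_zero]
    exact hb
  have hK' : ∀ z ∈ {t : ℂ | |t.im| < b}, HasDerivAt K (g z) z := fun z hz =>
    (hK z hz).hasDerivAt ((isOpen_str b).mem_nhds hz)
  have hcont : Continuous f := continuous_iff_continuousAt.2 fun x => (hf x).continuousAt
  have h1 : ∀ x : ℝ, (K x - K 0).re = ∫ s in (0)..x, f s := by
    intro x
    have h2 : ∀ y ∈ uIcc (0 : ℝ) x, HasDerivAt (fun y : ℝ => K (y : ℂ)) ((f y : ℝ) : ℂ) y := by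
      intro y _
      have h3 := (hK' (y : ℂ) (hmem y)).comp_ofReal
      rwa [hgr] at h3
    have h3 := intervalIntegral.integral_eq_sub_of_hasDerivAt h2
      ((continuous_ofReal.comp hcont).intervalIntegrable _ _)
    rw [intervalIntegral.integral_ofReal] at h3
    have h4 := congrArg re h3
    rw [ofReal_re, ofReal_zero] at h4
    exact h4.symm
  have h2 : AnalyticAt ℂ (fun z => K z - K 0) (x : ℂ) := by
    have h3 : DifferentiableOn ℂ (fun z => K z - K 0) {t : ℂ | |t.im| < b} := fun z hz =>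
      ((hK' z hz).differentiableAt.sub_const _).differentiableWithinAt
    exact h3.analyticAt ((isOpen_str b).mem_nhds (hmem x))
  have h3 := h2.re_ofReal
  have h4 : (fun x : ℝ => ((fun z => K z - K 0) (x : ℂ)).re) = fun x => ∫ s in (0)..x, f s :=
    funext h1
  rwa [h4] at h3

/-- a function with positive derivative with `τ (x + T) = τ x + 1`: its inverse -/
lemma inv {τ w : ℝ → ℝ} (hτ : ∀ x, AnalyticAt ℝ τ x) {T : ℝ} (hT : 0 < T)
    (hper : ∀ x, τ (x + T) = τ x + 1) (hd : ∀ x, HasDerivAt τ (w x) x) (hw : ∀ x, 0 < w x) :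
    ∃ σ : ℝ → ℝ, (∀ t, τ (σ t) = t) ∧ (∀ t, σ (t + 1) = σ t + T) ∧ (∀ t, AnalyticAt ℝ σ t) ∧
      ∀ t, HasDerivAt σ (w (σ t))⁻¹ t := by
  have hmono : StrictMono τ := by
    refine strictMono_of_deriv_pos fun x => ?_
    rw [(hd x).deriv]
    exact hw x
  have hcont : Continuous τ := continuous_iff_continuousAt.2 fun x => (hd x).continuousAt
  have hnat : ∀ n : ℕ, ∀ x, τ (x + n * T) = τ x + n := by
    intro n
    induction n with
    | zero => intro x; simp
    | succ n ih =>
      intro x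
      have e : x + ((n + 1 : ℕ) : ℝ) * T = (x + n * T) + T := by push_cast; ring
      rw [e, hper, ih]
      push_cast
      ring
  have hneg : ∀ n : ℕ, ∀ x, τ (x - n * T) = τ x - n := by
    intro n x
    have h := hnat n (x - n * T)
    rw [sub_add_cancel] at h
    linarith
  have hsurj : Function.Surjective τ := by
    intro t
    obtain ⟨n, hn⟩ := exists_nat_gt (|t - τ 0|)
    rw [abs_lt] at hn
    have h1 := hnat n 0
    have h2 := hneg n 0
    rw [zero_add] at h1
    rw [zero_sub] at h2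
    have h3 : (0 : ℝ) ≤ (n : ℝ) * T := by positivity
    obtain ⟨x, -, hx⟩ := intermediate_value_Icc (by linarith : -((n : ℝ) * T) ≤ (n : ℝ) * T)
      hcont.continuousOn (show t ∈ Icc (τ (-((n : ℝ) * T))) (τ ((n : ℝ) * T)) from
        ⟨by rw [h2]; linarith [hn.1], by rw [h1]; linarith [hn.2]⟩)
    exact ⟨x, hx⟩
  set e : ℝ ≃ₜ ℝ := (StrictMono.orderIsoOfSurjective τ hmono hsurj).toHomeomorph with he
  have heτ : ∀ x, e x = τ x := fun x => rfl
  have hinv : ∀ t, τ (e.symm t) = t := fun t => e.apply_symm_apply t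
  have hder : ∀ t, HasDerivAt e.symm (w (e.symm t))⁻¹ t := by
    intro t
    have h1 : HasDerivAt (e : ℝ → ℝ) (w (e.symm t)) (e.symm t) := hd _
    exact h1.of_local_left_inverse e.symm.continuous.continuousAt (hw _).ne'
      (Eventually.of_forall fun y => hinv y)
  refine ⟨e.symm, hinv, fun t => ?_, fun t => ?_, hder⟩
  · apply hmono.injective
    rw [hinv, hper, hinv]
  · have h1 : ContDiff ℝ ω (e : ℝ → ℝ) := by
      rw [contDiff_iff_contDiffAt]
      exact fun x => (hτ x).contDiffAt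
    have h2 : ContDiff ℝ ω (e.symm : ℝ → ℝ) :=
      e.contDiff_symm_deriv (f' := w) (fun x => (hw x).ne') (fun x => hd x) h1
    exact h2.contDiffAt.analyticAt

end PsiEx

theorem exists_psi {κ : ℝ → ℝ} (hκ : ∀ x, AnalyticAt ℝ κ x)
    (hper : ∀ θ, κ (θ + 2 * Real.pi) = κ θ) (hint : ∫ θ in (0)..(2 * Real.pi), κ θ = 0) :
    ∃ (b : ℝ) (ψ : ℂ → ℂ), Psi κ b ψ := by
  have hπ : 0 < 2 * Real.pi := by positivity
  have hcont : Continuous κ := continuous_iff_continuousAt.2 fun x => (hκ x).continuousAt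
  -- the first primitive
  set K : ℝ → ℝ := fun x => ∫ s in (0)..x, κ s with hK
  have hKa : ∀ x, AnalyticAt ℝ K x := PsiEx.prim hκ hπ hper
  have hKd : ∀ x, HasDerivAt K (κ x) x := fun x =>
    intervalIntegral.integral_hasDerivAt_right (hcont.intervalIntegrable _ _)
      (hcont.stronglyMeasurableAtFilter _ _) hcont.continuousAt
  have hKp : ∀ x, K (x + 2 * Real.pi) = K x := by
    intro x
    have h1 : Function.Periodic κ (2 * Real.pi) := hper
    have h2 := h1.intervalIntegral_add_eq x 0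
    rw [zero_add, hint] at h2
    have h3 := intervalIntegral.integral_add_adjacent_intervals
      (hcont.intervalIntegrable (μ := MeasureTheory.volume) 0 x)
      (hcont.intervalIntegrable (μ := MeasureTheory.volume) x (x + 2 * Real.pi))
    show ∫ s in (0)..(x + 2 * Real.pi), κ s = ∫ s in (0)..x, κ s
    rw [← h3, h2, add_zero]
  -- the density
  set w : ℝ → ℝ := fun x => Real.exp (K x / 2) with hw
  have hwa : ∀ x, AnalyticAt ℝ w x := fun x => by
    have h1 : AnalyticAt ℝ (fun x => K x / 2) x := (hKa x).div_const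
    exact h1.rexp
  have hwpos : ∀ x, 0 < w x := fun x => Real.exp_pos _
  have hwp : ∀ x, w (x + 2 * Real.pi) = w x := fun x => by
    show Real.exp (K (x + 2 * Real.pi) / 2) = Real.exp (K x / 2)
    rw [hKp]
  have hwc : Continuous w := continuous_iff_continuousAt.2 fun x => (hwa x).continuousAt
  have hwd : ∀ x, HasDerivAt w (w x * (κ x / 2)) x := fun x => ((hKd x).div_const 2).exp
  set T0 : ℝ := ∫ s in (0)..(2 * Real.pi), w s with hT0
  have hT0pos : 0 < T0 := intervalIntegral.intervalIntegral_pos_of_pos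
    (hwc.intervalIntegrable _ _) hwpos hπ
  -- the primitive of the density
  set τ : ℝ → ℝ := fun x => (∫ s in (0)..x, w s) / T0 with hτ
  have hτa : ∀ x, AnalyticAt ℝ τ x := fun x => (PsiEx.prim hwa hπ hwp x).div_const
  have hτd : ∀ x, HasDerivAt τ (w x / T0) x := fun x =>
    (intervalIntegral.integral_hasDerivAt_right (hwc.intervalIntegrable _ _)
      (hwc.stronglyMeasurableAtFilter _ _) hwc.continuousAt).div_const T0
  have hτp : ∀ x, τ (x + 2 * Real.pi) = τ x + 1 := by
    intro x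
    have h1 : Function.Periodic w (2 * Real.pi) := hwp
    have h2 := h1.intervalIntegral_add_eq x 0
    rw [zero_add] at h2
    have h3 := intervalIntegral.integral_add_adjacent_intervals
      (hwc.intervalIntegrable (μ := MeasureTheory.volume) 0 x)
      (hwc.intervalIntegrable (μ := MeasureTheory.volume) x (x + 2 * Real.pi))
    show (∫ s in (0)..(x + 2 * Real.pi), w s) / T0 = (∫ s in (0)..x, w s) / T0 + 1
    rw [← h3, h2, add_div, div_self hT0pos.ne']
  obtain ⟨σ, hσ, hσp, hσa, hσd⟩ := PsiEx.inv hτa hπ hτp hτd (fun x => div_pos (hwpos x) hT0pos)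
  have hσd2 : ∀ t, HasDerivAt (fun t => (w (σ t) / T0)⁻¹)
      (-(κ (σ t) / 2) * ((w (σ t) / T0)⁻¹) ^ 2) t := by
    intro t
    have h1 := ((hwd (σ t)).comp t (hσd t)).div_const T0
    have h2 := h1.inv (div_pos (hwpos (σ t)) hT0pos).ne'
    refine h2.congr_deriv ?_
    have h3 := (hwpos (σ t)).ne'
    have h4 := hT0pos.ne'
    simp only [Function.comp_apply]
    field_simp
  -- the strip
  have hfa : ∀ t, AnalyticAt ℝ (fun t => σ t - 2 * Real.pi * t) t := fun t =>
    (hσa t).sub (analyticAt_const.mul analyticAt_id)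
  have hfp : ∀ t, (fun t => σ t - 2 * Real.pi * t) (t + 1) =
      (fun t => σ t - 2 * Real.pi * t) t := by
    intro t
    show σ (t + 1) - 2 * Real.pi * (t + 1) = σ t - 2 * Real.pi * t
    rw [hσp]
    ring
  obtain ⟨b1, g, hb1, hg, hgr, hgp⟩ := exists_strip hfa one_pos hfp
  set ψ : ℂ → ℂ := fun t => g t + 2 * Real.pi * t with hψ
  set b : ℝ := min b1 1 with hb
  have hb0 : 0 < b := lt_min hb1 one_pos
  have hmem : ∀ x : ℝ, (x : ℂ) ∈ {t : ℂ | |t.im| < b} := by
    intro x
    show |(x : ℂ).im| < b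
    rw [ofReal_im, abs_zero]
    exact hb0
  have hψd : DifferentiableOn ℂ ψ {t | |t.im| < b} := by
    refine (hg.mono fun t (ht : |t.im| < b) => lt_of_lt_of_le ht (min_le_left b1 1)).add ?_
    exact (differentiable_id.const_mul _).differentiableOn
  have hψr : ∀ t : ℝ, ψ t = (σ t : ℂ) := by
    intro t
    show g t + 2 * Real.pi * t = (σ t : ℂ)
    rw [hgr]
    push_cast
    ring
  have hψD : ∀ t : ℝ, HasDerivAt ψ (((w (σ t) / T0)⁻¹ : ℝ) : ℂ) (t : ℂ) := by
    intro t
    have h1 : HasDerivAt ψ (deriv ψ t) (t : ℂ) :=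
      ((hψd t (hmem t)).differentiableAt ((PsiEx.isOpen_str b).mem_nhds (hmem t))).hasDerivAt
    have h2 := h1.comp_ofReal
    have h3 : (fun y : ℝ => ψ (y : ℂ)) = fun y : ℝ => ((σ y : ℝ) : ℂ) := funext hψr
    rw [h3] at h2
    have h4 := h2.unique (hσd t).ofReal_comp
    rwa [h4] at h1
  have hψD2 : ∀ t : ℝ, HasDerivAt (deriv ψ)
      ((-(κ (σ t) / 2) * ((w (σ t) / T0)⁻¹) ^ 2 : ℝ) : ℂ) (t : ℂ) := by
    intro t
    have h0 : DifferentiableOn ℂ (deriv ψ) {t | |t.im| < b} :=
      hψd.deriv (PsiEx.isOpen_str b)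
    have h1 : HasDerivAt (deriv ψ) (deriv (deriv ψ) t) (t : ℂ) :=
      ((h0 t (hmem t)).differentiableAt ((PsiEx.isOpen_str b).mem_nhds (hmem t))).hasDerivAt
    have h2 := h1.comp_ofReal
    have h3 : (fun y : ℝ => deriv ψ (y : ℂ)) = fun y : ℝ => (((w (σ y) / T0)⁻¹ : ℝ) : ℂ) :=
      funext fun y => (hψD y).deriv
    rw [h3] at h2
    have h4 := h2.unique (hσd2 t).ofReal_comp
    rwa [h4] at h1
  refine ⟨b, ψ, hb0, min_le_right _ _, hψd, ?_, ?_, ?_, ?_⟩
  · intro t ht
    have h1 := hgp t (lt_of_lt_of_le ht (min_le_left _ _))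
    show g (t + 1) + 2 * Real.pi * (t + 1) = g t + 2 * Real.pi * t + 2 * Real.pi
    rw [ofReal_one] at h1
    rw [h1]
    ring
  · intro t
    rw [hψr, ofReal_im]
  · intro t
    rw [(hψD t).deriv, ofReal_re]
    exact inv_pos.2 (div_pos (hwpos _) hT0pos)
  · intro t
    rw [(hψD t).deriv, (hψD2 t).deriv, hψr, ofReal_re]
    push_cast
    ring

end Pool.Agent.MP_ae5b4e_an_SM
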