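import Mathlib
import Pool.Agent.Lib.MP_ae5b4e_an_SM.Iter
import Pool.Agent.Lib.MP_ae5b4e_an_c3.Potential
import Pool.Agent.Lib.MP_ae5b4e_an_SM.PsiEx
import Pool.Agent.Lib.MP_ae5b4e_an_SM.LagCA
import Pool.Agent.Lib.MP_ae5b4e_an_SM.LagCB
import Pool.Agent.Lib.MP_ae5b4e_an_SM.Close
import Pool.Agent.Lib.MP_ae5b4e_an_SM.GoodC

/-!
# MP_ae5b4e_an, project SMOOTH: foliations near a conic with an analytic field of involutions

A `C¹` foliation near the circle whose field of involutions is real-analytic is given by an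
analytic family `θ = ψ(F(t, ρ))` of solutions of the recursion, also for `ρ = 0`.
-/

noncomputable section

namespace Pool.Agent.MP_ae5b4e_an_SM

open Complex Set Filter Topology
open Pool.Agent.MP_ae5b4e_an_rat

theorem smooth_conic' {U : ℝ → ℝ → ℝ} {κ : ℝ → ℝ} (hU : LFam U κ)
    (hκ : ∀ x, AnalyticAt ℝ κ x) :
    ∃ (b c r κ' : ℝ) (ψ : ℂ → ℂ) (F : ℂ × ℂ → ℂ), Psi κ b ψ ∧ 0 < c ∧ 0 < r ∧ r ≤ c ∧
      κ' ≤ 1 / 16 ∧ c + κ' < b ∧ GF c r κ' F ∧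
      ∀ p ∈ Dm {-1, 0, 1} c r, p.2 ≠ 0 →
        elc ψ (F (p.1 - p.2, p.2)) (F p) (F (p.1 + p.2, p.2)) = 0 := by
  obtain ⟨b, ψ, hψ⟩ := exists_psi hκ hU.κ_per (MP_ae5b4e_an_c3.integral_κ hU)
  obtain ⟨b1, M, hb10, hb1b, hLag, -⟩ := lagc_lag hψ
  obtain ⟨b2, C, hb20, hb2b, hid⟩ := lagc_id hψ
  obtain ⟨b3, hb30, hb3b, hel⟩ := lagc_el hψ
  obtain ⟨b4, hb40, hcl⟩ := closing_conic hU hψ hb30 hel
  set b5 := min (min b1 b2) (min b3 b4) with hb5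
  have hb50 : 0 < b5 := lt_min (lt_min hb10 hb20) (lt_min hb30 hb40)
  have h51 : b5 ≤ b1 := (min_le_left _ _).trans (min_le_left _ _)
  have h52 : b5 ≤ b2 := (min_le_left _ _).trans (min_le_right _ _)
  have h53 : b5 ≤ b3 := (min_le_right _ _).trans (min_le_left _ _)
  have h54 : b5 ≤ b4 := (min_le_right _ _).trans (min_le_right _ _)
  have hL := hLag.mono hb50 h51
  obtain ⟨c, r, F, hc, hcb, hr, hrc, hF, hE⟩ := smooth_main hL (hcl b5 h54)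
    ⟨C, fun p hp => hid p (Dm_mono (Finset.Subset.refl _) (by linarith) (by linarith) hp)⟩
  have hb1 := hψ.b1
  refine ⟨b, c, r, b5 / 16, ψ, F, hψ, hc, hr, hrc, by linarith, by linarith, hF, ?_⟩
  intro p hp hp0
  have hpW : p ∈ Dm {0, 1} c r := Dm_mono (by decide) le_rfl le_rfl hp
  have hmW : ((p.1 - p.2, p.2) : ℂ × ℂ) ∈ Dm {0, 1} c r := by
    have := mem_sh (S := {0, 1}) (S' := {-1, 0, 1}) (k := -1) (by decide) hp
    simpa [sub_eq_add_neg] using this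
  have hbr := br_mem hF hb50 hcb (hrc.trans hcb) le_rfl
  have h1 := hbr p hpW
  have h2 := hbr _ hmW
  unfold br at h1 h2
  rw [nab_of_ne hp0] at h1
  rw [nab_of_ne (p := (p.1 - p.2, p.2)) hp0] at h2
  simp only [sub_add_cancel] at h2
  rw [← hel p.2 _ _ _ hp0 (h1.2.2.trans (by linarith)) (h2.1.trans (by linarith))
    (h1.1.trans (by linarith)) (h1.2.1.trans (by linarith)) (h2.2.1.trans (by linarith)),
    ← EL_of_ne hp0]
  exact hE p hp hp0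

/-- the same with the constant `1/16` -/
theorem smooth_conic {U : ℝ → ℝ → ℝ} {κ : ℝ → ℝ} (hU : LFam U κ)
    (hκ : ∀ x, AnalyticAt ℝ κ x) :
    ∃ (b c r : ℝ) (ψ : ℂ → ℂ) (F : ℂ × ℂ → ℂ), Psi κ b ψ ∧ 0 < c ∧ 0 < r ∧ r ≤ c ∧
      GF c r (1 / 16) F ∧ (∀ p ∈ Dm {0} c r, |(F p).im| < b) ∧
      ∀ p ∈ Dm {-1, 0, 1} c r, p.2 ≠ 0 →
        elc ψ (F (p.1 - p.2, p.2)) (F p) (F (p.1 + p.2, p.2)) = 0 := by
  obtain ⟨b, c, r, κ', ψ, F, hψ, hc, hr, hrc, hκ1, hcb, hF, hE⟩ := smooth_conic' hU hκ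
  refine ⟨b, c, r, ψ, F, hψ, hc, hr, hrc, hF.mono le_rfl le_rfl hκ1, fun p hp => ?_, hE⟩
  have h1 := hF.ap.bd p hp
  have h2 : |(F p - p.1).im| ≤ κ' := (abs_im_le_norm _).trans h1
  have h3 : |p.1.im| < c := by
    have := (mem_Dm.1 hp).1 0 (by simp)
    simpa using this
  have h4 : (F p).im = (F p - p.1).im + p.1.im := by simp
  rw [h4]
  exact (abs_add_le _ _).trans_lt (by linarith)

/-- the first integral near the diagonal -/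
theorem good_of_lfam {U : ℝ → ℝ → ℝ} {κ : ℝ → ℝ} (hU : LFam U κ)
    (hκ : ∀ x, AnalyticAt ℝ κ x) :
    ∃ (x₀ : ℝ) (kc : ℂ → ℂ), MP_ae5b4e_an_ND.Good kc x₀ ∧
      ∀ᶠ x : ℝ in 𝓝 x₀, kc x = ((MP_ae5b4e_an_GeoX.kick κ x : ℝ) : ℂ) := by
  obtain ⟨b, c, r, κ', ψ, F, hψ, hc, hr, -, hκ1, hcb, hF, hE⟩ := smooth_conic' hU hκ
  exact good_conic hψ hF hc hr hκ1 hcb hU.κ_per hE

end Pool.Agent.MP_ae5b4e_an_SM
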