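import Mathlib

/-!
# Ana (module SR of the project SMOOTH): a smooth function satisfying a polynomial equation is
real-analytic
-/

noncomputable section

namespace Pool.Agent.MP_ae5b4e_an_SM

open Filter Topology Polynomial Set Asymptotics
open scoped ContDiff nonZeroDivisors

/-! ### Step 1: a squarefree relation with a Bezout identity -/

private lemma ana_bezout {G : ℝ[X][X]} (hG : G ≠ 0) :
    ∃ (P A B H : ℝ[X][X]) (c d : ℝ[X]) (N : ℕ), c ≠ 0 ∧ d ≠ 0 ∧
      C c * P ^ N = H * G ∧ A * P + B * P.derivative = C d := by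
  classical
  let K := FractionRing ℝ[X]
  have hinj : Function.Injective (algebraMap ℝ[X] K) := IsFractionRing.injective _ _
  have hinj' : Function.Injective (Polynomial.map (algebraMap ℝ[X] K)) :=
    Polynomial.map_injective _ hinj
  have hGk : G.map (algebraMap ℝ[X] K) ≠ 0 := by
    intro h
    apply hG
    apply hinj'
    rw [h, Polynomial.map_zero]
  have : CharZero K := by
    refine ⟨fun m n h => ?_⟩
    have h1 : (algebraMap ℝ[X] K) (m : ℝ[X]) = (algebraMap ℝ[X] K) (n : ℝ[X]) := by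
      simpa using h
    exact_mod_cast hinj h1
  obtain ⟨R, N, hsq, -, hdvd⟩ := exists_squarefree_dvd_pow_of_ne_zero hGk
  have hsep : R.Separable := PerfectField.separable_iff_squarefree.2 hsq
  obtain ⟨A0, B0, hAB⟩ := hsep
  obtain ⟨H0, hH⟩ := hdvd
  obtain ⟨b, hb, hP⟩ := IsLocalization.integerNormalization_spec (ℝ[X]⁰) R
  obtain ⟨a1, ha1, hA⟩ := IsLocalization.integerNormalization_spec (ℝ[X]⁰) A0
  obtain ⟨b1, hb1, hB⟩ := IsLocalization.integerNormalization_spec (ℝ[X]⁰) B0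
  obtain ⟨h1, hh1, hHH⟩ := IsLocalization.integerNormalization_spec (ℝ[X]⁰) H0
  set P := IsLocalization.integerNormalization (ℝ[X]⁰) R with hPdef
  set A := IsLocalization.integerNormalization (ℝ[X]⁰) A0 with hAdef
  set B := IsLocalization.integerNormalization (ℝ[X]⁰) B0 with hBdef
  set H := IsLocalization.integerNormalization (ℝ[X]⁰) H0 with hHdef
  have hs : ∀ (a : ℝ[X]) (Q : K[X]), a • Q = C (algebraMap ℝ[X] K a) * Q := by
    intro a Q
    rw [← Polynomial.smul_eq_C_mul, algebraMap_smul]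
  have hP' : P.map (algebraMap ℝ[X] K) = C (algebraMap ℝ[X] K b) * R := by rw [hP, hs]
  have hA' : A.map (algebraMap ℝ[X] K) = C (algebraMap ℝ[X] K a1) * A0 := by rw [hA, hs]
  have hB' : B.map (algebraMap ℝ[X] K) = C (algebraMap ℝ[X] K b1) * B0 := by rw [hB, hs]
  have hH' : H.map (algebraMap ℝ[X] K) = C (algebraMap ℝ[X] K h1) * H0 := by rw [hHH, hs]
  have hPd : P.derivative.map (algebraMap ℝ[X] K)
      = C (algebraMap ℝ[X] K b) * R.derivative := by
    rw [← Polynomial.derivative_map, hP', Polynomial.derivative_C_mul]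
  refine ⟨P, C b1 * A, C a1 * B, C (b ^ N) * H, h1, a1 * b1 * b, N,
    nonZeroDivisors.ne_zero hh1, ?_, ?_, ?_⟩
  · exact mul_ne_zero (mul_ne_zero (nonZeroDivisors.ne_zero ha1) (nonZeroDivisors.ne_zero hb1))
      (nonZeroDivisors.ne_zero hb)
  · apply hinj'
    simp only [Polynomial.map_mul, Polynomial.map_pow, Polynomial.map_C, hP', hH', mul_pow, hH,
      map_pow]
    ring
  · apply hinj'
    simp only [Polynomial.map_mul, Polynomial.map_add, Polynomial.map_C, hP', hA', hB', hPd,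
      map_mul]
    linear_combination (C (algebraMap ℝ[X] K a1) * C (algebraMap ℝ[X] K b1)
      * C (algebraMap ℝ[X] K b)) * hAB

/-! ### Polynomials in two variables as functions -/

private lemma ana_contDiff_eval {n : WithTop ℕ∞} (p : ℝ[X]) :
    ContDiff ℝ n (fun x : ℝ => p.eval x) := by
  have : (fun x : ℝ => p.eval x)
      = fun x => ∑ i ∈ Finset.range (p.natDegree + 1), p.coeff i * x ^ i := by
    funext x
    rw [Polynomial.eval_eq_sum_range]
  rw [this]
  exact ContDiff.sum fun i _ => contDiff_const.mul (contDiff_id.pow i)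

private lemma ana_evalEval_eq_sum (x y : ℝ) (Q : ℝ[X][X]) :
    evalEval x y Q = ∑ j ∈ Finset.range (Q.natDegree + 1), (Q.coeff j).eval x * y ^ j := by
  rw [← eval₂_evalRingHom, eval₂_eq_sum_range]
  simp

private lemma ana_contDiff {n : WithTop ℕ∞} (Q : ℝ[X][X]) :
    ContDiff ℝ n (fun q : ℝ × ℝ => evalEval q.1 q.2 Q) := by
  have : (fun q : ℝ × ℝ => evalEval q.1 q.2 Q)
      = fun q => ∑ j ∈ Finset.range (Q.natDegree + 1), (Q.coeff j).eval q.1 * q.2 ^ j := by
    funext q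
    rw [ana_evalEval_eq_sum]
  rw [this]
  exact ContDiff.sum fun i _ => ((ana_contDiff_eval _).comp contDiff_fst).mul (contDiff_snd.pow i)

private lemma ana_evalEval_C (x : ℝ) (y : ℝ) (p : ℝ[X]) : evalEval x y (C p) = p.eval x := by
  simp [evalEval]

/-- a polynomial that is `o((x - x₀) ^ k)` is divisible by `(X - x₀) ^ (k + 1)` -/
private lemma ana_dvd {p : ℝ[X]} {x₀ : ℝ} {k : ℕ}
    (h : (fun x => p.eval x) =o[𝓝[≠] x₀] fun x => (x - x₀) ^ k) :
    (X - C x₀) ^ (k + 1) ∣ p := by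
  by_cases hp : p = 0
  · rw [hp]; exact dvd_zero _
  obtain ⟨q, hq, hq'⟩ := exists_eq_pow_rootMultiplicity_mul_and_not_dvd p hp x₀
  set m := rootMultiplicity x₀ p with hm
  rw [← le_rootMultiplicity_iff hp, ← hm]
  by_contra hlt
  have hmk : m ≤ k := by omega
  apply hq'
  rw [dvd_iff_isRoot]
  have h1 : ∀ ε > 0, |q.eval x₀| ≤ ε := by
    intro ε hε
    have h2 := h.def hε
    have h3 : ∀ᶠ x in 𝓝[≠] x₀, |q.eval x| ≤ ε := by
      have h4 : ∀ᶠ x in 𝓝 x₀, |x - x₀| < 1 := by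
        have : Tendsto (fun x => |x - x₀|) (𝓝 x₀) (𝓝 |x₀ - x₀|) :=
          ((continuous_id.sub continuous_const).abs).tendsto x₀
        rw [sub_self, abs_zero] at this
        exact this.eventually (gt_mem_nhds one_pos)
      filter_upwards [h2, h4.filter_mono nhdsWithin_le_nhds,
        self_mem_nhdsWithin] with x hx1 hx2 hx3
      have hne : 0 < |x - x₀| := abs_pos.2 (sub_ne_zero.2 hx3)
      rw [hq] at hx1
      simp only [eval_mul, eval_pow, eval_sub, eval_X, eval_C, norm_mul, norm_pow,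
        Real.norm_eq_abs] at hx1
      have h5 : |x - x₀| ^ k = |x - x₀| ^ m * |x - x₀| ^ (k - m) := by
        rw [← pow_add]; congr 1; omega
      have h6 : |x - x₀| ^ (k - m) ≤ 1 := pow_le_one₀ hne.le hx2.le
      have h7 : 0 < |x - x₀| ^ m := pow_pos hne m
      rw [h5] at hx1
      have h8 : |x - x₀| ^ m * |q.eval x| ≤ |x - x₀| ^ m * ε := by
        calc |x - x₀| ^ m * |q.eval x| ≤ ε * (|x - x₀| ^ m * |x - x₀| ^ (k - m)) := hx1
          _ ≤ ε * (|x - x₀| ^ m * 1) := by gcongr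
          _ = |x - x₀| ^ m * ε := by ring
      exact le_of_mul_le_mul_left h8 h7
    have h9 : Tendsto (fun x => |q.eval x|) (𝓝[≠] x₀) (𝓝 |q.eval x₀|) :=
      ((q.continuous.abs).tendsto x₀).mono_left nhdsWithin_le_nhds
    exact le_of_tendsto h9 h3
  have h10 : |q.eval x₀| ≤ 0 := le_of_forall_pos_le_add (fun ε hε => by simpa using h1 ε hε)
  exact abs_eq_zero.1 (le_antisymm h10 (abs_nonneg _))

private lemma ana_abs_lt_one (x₀ : ℝ) : ∀ᶠ x in 𝓝 x₀, |x - x₀| < 1 := by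
  have : Tendsto (fun x => |x - x₀|) (𝓝 x₀) (𝓝 |x₀ - x₀|) :=
    ((continuous_id.sub continuous_const).abs).tendsto x₀
  rw [sub_self, abs_zero] at this
  exact this.eventually (gt_mem_nhds one_pos)

private lemma ana_half (q : ℝ[X]) {x₀ : ℝ} (h : q.eval x₀ ≠ 0) :
    ∀ᶠ x in 𝓝 x₀, |q.eval x₀| / 2 < |q.eval x| :=
  (q.continuous.abs.tendsto x₀).eventually
    (lt_mem_nhds (by have := abs_pos.2 h; linarith))

private lemma ana_factor {p : ℝ[X]} (hp : p ≠ 0) (x₀ : ℝ) :
    ∃ (m : ℕ) (q : ℝ[X]), p = (X - C x₀) ^ m * q ∧ q.eval x₀ ≠ 0 := by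
  obtain ⟨q, hq, hq'⟩ := exists_eq_pow_rootMultiplicity_mul_and_not_dvd p hp x₀
  exact ⟨_, q, hq, fun h => hq' (dvd_iff_isRoot.2 h)⟩

private lemma ana_ne_zero {p : ℝ[X]} (hp : p ≠ 0) (x₀ : ℝ) :
    ∀ᶠ x in 𝓝[≠] x₀, p.eval x ≠ 0 := by
  obtain ⟨m, q, hq, hq0⟩ := ana_factor hp x₀
  filter_upwards [(ana_half q hq0).filter_mono nhdsWithin_le_nhds, self_mem_nhdsWithin]
    with x h1 h2
  rw [hq]
  simp only [eval_mul, eval_pow, eval_sub, eval_X, eval_C]
  have h3 : 0 < |q.eval x| := lt_trans (by have := abs_pos.2 hq0; linarith) h1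
  exact mul_ne_zero (pow_ne_zero _ (sub_ne_zero.2 h2)) (abs_pos.1 h3)

/-- a polynomial which is at least `c |x - x₀| ^ e` near `x₀` has order at most `e` -/
private lemma ana_order_le {p : ℝ[X]} {x₀ c : ℝ} {e : ℕ} (hc : 0 < c)
    (h : ∀ᶠ x in 𝓝[≠] x₀, c * |x - x₀| ^ e ≤ |p.eval x|) :
    ∃ (m : ℕ) (q : ℝ[X]), m ≤ e ∧ p = (X - C x₀) ^ m * q ∧ q.eval x₀ ≠ 0 := by
  have hp : p ≠ 0 := by
    rintro rfl
    obtain ⟨x, hx, hx2⟩ := (h.and self_mem_nhdsWithin).exists
    have : 0 < |x - x₀| := abs_pos.2 (sub_ne_zero.2 hx2)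
    simp only [eval_zero, abs_zero] at hx
    have h2 : 0 < c * |x - x₀| ^ e := by positivity
    linarith
  obtain ⟨m, q, hq, hq0⟩ := ana_factor hp x₀
  refine ⟨m, q, ?_, hq, hq0⟩
  by_contra hlt
  have hme : e + 1 ≤ m := by omega
  have h1 : ∀ᶠ x in 𝓝[≠] x₀, c ≤ |x - x₀| * |q.eval x| := by
    filter_upwards [h, (ana_abs_lt_one x₀).filter_mono nhdsWithin_le_nhds, self_mem_nhdsWithin]
      with x hx1 hx2 hx3
    have hne : 0 < |x - x₀| := abs_pos.2 (sub_ne_zero.2 hx3)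
    rw [hq] at hx1
    simp only [eval_mul, eval_pow, eval_sub, eval_X, eval_C, abs_mul, abs_pow] at hx1
    have h5 : |x - x₀| ^ m = |x - x₀| ^ e * (|x - x₀| * |x - x₀| ^ (m - (e + 1))) := by
      rw [← pow_succ', ← pow_add]; congr 1; omega
    have h6 : |x - x₀| ^ (m - (e + 1)) ≤ 1 := pow_le_one₀ hne.le hx2.le
    have h7 : 0 < |x - x₀| ^ e := pow_pos hne e
    rw [h5] at hx1
    refine le_of_mul_le_mul_left (a := |x - x₀| ^ e) ?_ h7
    calc |x - x₀| ^ e * c = c * |x - x₀| ^ e := by ring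
      _ ≤ |x - x₀| ^ e * (|x - x₀| * |x - x₀| ^ (m - (e + 1))) * |q.eval x| := hx1
      _ ≤ |x - x₀| ^ e * (|x - x₀| * 1) * |q.eval x| := by gcongr
      _ = |x - x₀| ^ e * (|x - x₀| * |q.eval x|) := by ring
  have h9 : Tendsto (fun x => |x - x₀| * |q.eval x|) (𝓝[≠] x₀) (𝓝 (|x₀ - x₀| * |q.eval x₀|)) :=
    ((((continuous_id.sub continuous_const).abs).mul q.continuous.abs).tendsto x₀).mono_left
      nhdsWithin_le_nhds
  have h10 := ge_of_tendsto h9 h1
  simp at h10
  linarith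

/-- the Taylor polynomial -/
private lemma ana_taylor {g : ℝ → ℝ} {x₀ : ℝ} {n : ℕ} (hg : ContDiffAt ℝ n g x₀) :
    ∃ T : ℝ[X], T.eval x₀ = g x₀ ∧ (fun x => g x - T.eval x) =o[𝓝 x₀] fun x => (x - x₀) ^ n := by
  obtain ⟨u, hu, hgu⟩ := hg.contDiffOn (m := n) le_rfl (by simp)
  obtain ⟨ε, hε, hball⟩ := Metric.mem_nhds_iff.1 hu
  set s := Metric.ball x₀ ε with hs
  have h1 := taylor_isLittleO (f := g) (x₀ := x₀) (n := n) (convex_ball x₀ ε)
    (Metric.mem_ball_self hε) (hgu.mono hball)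
  rw [Metric.isOpen_ball.nhdsWithin_eq (Metric.mem_ball_self hε)] at h1
  set T : ℝ[X] := ∑ k ∈ Finset.range (n + 1),
    C (((k.factorial : ℝ))⁻¹ * iteratedDerivWithin k g (Metric.ball x₀ ε) x₀) * (X - C x₀) ^ k
    with hT
  have h2 : ∀ x, T.eval x = taylorWithinEval g n (Metric.ball x₀ ε) x₀ x := by
    intro x
    rw [taylor_within_apply, hT, eval_finsetSum]
    refine Finset.sum_congr rfl fun k _ => ?_
    simp only [eval_mul, eval_C, eval_pow, eval_sub, eval_X, smul_eq_mul]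
    ring
  refine ⟨T, ?_, ?_⟩
  · rw [h2, taylorWithinEval_self]
  · simpa only [h2] using h1

private lemma ana_lip (Q : ℝ[X][X]) {g t : ℝ → ℝ} {x₀ : ℝ} (hg : ContinuousAt g x₀)
    (ht : ContinuousAt t x₀) (h : t x₀ = g x₀) :
    (fun x => evalEval x (t x) Q - evalEval x (g x) Q) =O[𝓝 x₀] fun x => g x - t x := by
  obtain ⟨K, U, hU, hK⟩ := ((ana_contDiff (n := 1) Q).contDiffAt
    (x := (x₀, g x₀))).exists_lipschitzOnWith
  have h1 : Tendsto (fun x => (x, g x)) (𝓝 x₀) (𝓝 (x₀, g x₀)) :=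
    (continuousAt_id.prodMk hg).tendsto
  have h2 : Tendsto (fun x => (x, t x)) (𝓝 x₀) (𝓝 (x₀, g x₀)) := by
    have := (continuousAt_id.prodMk ht).tendsto
    rw [← h]
    exact this
  refine IsBigO.of_bound K ?_
  filter_upwards [h1.eventually hU, h2.eventually hU] with x hx1 hx2
  have h3 := hK.dist_le_mul _ hx2 _ hx1
  rw [Real.dist_eq] at h3
  have h4 : dist ((x, t x) : ℝ × ℝ) (x, g x) = |g x - t x| := by
    rw [Prod.dist_eq]
    simp only [dist_self]
    rw [max_eq_right dist_nonneg, Real.dist_eq, abs_sub_comm]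
  rw [h4] at h3
  simpa [Real.norm_eq_abs] using h3

/-! ### The analytic implicit function theorem in the plane -/

private lemma ana_implicit {F : ℝ × ℝ → ℝ} {x₀ : ℝ} (hF : ContDiff ℝ ω F) (h0 : F (x₀, 0) = 0)
    {u : ℝ} (hu : u ≠ 0) (hd : HasDerivAt (fun w => F (x₀, w)) u 0)
    {w : ℝ → ℝ} (hw : ContinuousAt w x₀) (hw0 : w x₀ = 0)
    (hrel : ∀ᶠ x in 𝓝 x₀, F (x, w x) = 0) : ContDiffAt ℝ ω w x₀ := by
  set a : ℝ × ℝ := (x₀, 0) with ha
  have hFd : HasFDerivAt F (fderiv ℝ F a) a :=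
    (hF.differentiable (by simp)).differentiableAt.hasFDerivAt
  set F' := fderiv ℝ F a with hF'
  set α : ℝ := F' (1, 0) with hα
  have hβ : F' (0, 1) = u := by
    have h1 : HasDerivAt (fun w : ℝ => ((x₀, w) : ℝ × ℝ)) (0, 1) 0 :=
      (hasDerivAt_const _ _).prodMk (hasDerivAt_id _)
    have h2 : HasDerivAt (fun w : ℝ => F (x₀, w)) (F' (0, 1)) 0 :=
      HasFDerivAt.comp_hasDerivAt (0:ℝ) (by simpa [ha] using hFd) h1
    exact h2.unique hd
  have hval : ∀ p : ℝ × ℝ, F' p = α * p.1 + u * p.2 := by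
    intro p
    have : p = p.1 • ((1:ℝ), (0:ℝ)) + p.2 • ((0:ℝ), (1:ℝ)) := by
      ext <;> simp
    rw [this, map_add, map_smul, map_smul, hβ, ← hα]
    simp
    ring
  set f1 : ℝ × ℝ →L[ℝ] ℝ × ℝ := (ContinuousLinearMap.fst ℝ ℝ ℝ).prod F' with hf1
  set f2 : ℝ × ℝ →L[ℝ] ℝ × ℝ := (ContinuousLinearMap.fst ℝ ℝ ℝ).prod
    (u⁻¹ • (ContinuousLinearMap.snd ℝ ℝ ℝ - α • ContinuousLinearMap.fst ℝ ℝ ℝ)) with hf2
  set e : (ℝ × ℝ) ≃L[ℝ] (ℝ × ℝ) := ContinuousLinearEquiv.equivOfInverse f1 f2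
    (by
      intro p
      ext
      · simp [hf1, hf2]
      · simp [hf1, hf2, hval]
        field_simp)
    (by
      intro p
      ext
      · simp [hf1, hf2]
      · simp [hf1, hf2, hval]
        field_simp
        ring) with he
  set Φ : ℝ × ℝ → ℝ × ℝ := fun p => (p.1, F p) with hΦ
  have hΦc : ContDiffAt ℝ ω Φ a := contDiffAt_fst.prodMk hF.contDiffAt
  have hΦd : HasFDerivAt Φ (e : ℝ × ℝ →L[ℝ] ℝ × ℝ) a := hasFDerivAt_fst.prodMk hFd
  have hω : (ω : WithTop ℕ∞) ≠ 0 := by simp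
  set ψ := hΦc.localInverse hΦd hω with hψ
  have hψs : ContDiffAt ℝ ω ψ (Φ a) := hΦc.to_localInverse hΦd hω
  have hstrict : HasStrictFDerivAt Φ (e : ℝ × ℝ →L[ℝ] ℝ × ℝ) a := hΦc.hasStrictFDerivAt' hΦd hω
  have hleft : ∀ᶠ p in 𝓝 a, ψ (Φ p) = p := hstrict.eventually_left_inverse
  have hΦa : Φ a = (x₀, 0) := by
    ext
    · simp [hΦ, ha]
    · exact h0
  have ht : Tendsto (fun x => (x, w x)) (𝓝 x₀) (𝓝 a) := by
    have := (continuousAt_id.prodMk hw).tendsto
    simp only [id, hw0] at this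
    exact this
  have hform : w =ᶠ[𝓝 x₀] fun x => (ψ (x, 0)).2 := by
    filter_upwards [ht.eventually hleft, hrel] with x h1 h2
    have h3 : Φ (x, w x) = (x, 0) := by simp [hΦ, h2]
    rw [h3] at h1
    rw [h1]
  refine ContDiffAt.congr_of_eventuallyEq ?_ hform
  have hψ' : ContDiffAt ℝ ω ψ (x₀, 0) := by rw [← hΦa]; exact hψs
  exact contDiffAt_snd.comp x₀ (hψ'.comp x₀ (contDiffAt_id.prodMk contDiffAt_const))

/-! ### The theorem -/

private lemma ana_evalEval_eval (x : ℝ) (P : ℝ[X][X]) (T : ℝ[X]) :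
    (P.eval T).eval x = evalEval x (T.eval x) P := by
  have h := Polynomial.eval₂_at_apply (p := P) (evalRingHom x) T
  rw [eval₂_evalRingHom] at h
  simpa using h.symm

private lemma ana_binom (P : ℝ[X][X]) (T s : ℝ[X]) :
    ∃ k : ℝ[X][X], ∀ x w : ℝ, evalEval x (T.eval x + s.eval x * w) P
      = (P.eval T).eval x + (P.derivative.eval T).eval x * (s.eval x * w)
        + evalEval x w k * (s.eval x * w) ^ 2 := by
  obtain ⟨k, hk⟩ := (P.map (C : ℝ[X] →+* ℝ[X][X])).binomExpansion (C T) (C s * X)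
  refine ⟨k, fun x w => ?_⟩
  have h1 : ∀ (Q : ℝ[X][X]) (Z : ℝ[X][X]),
      evalEval x w ((Q.map (C : ℝ[X] →+* ℝ[X][X])).eval Z) = evalEval x (evalEval x w Z) Q := by
    intro Q Z
    have h2 : (evalEvalRingHom x w).comp (C : ℝ[X] →+* ℝ[X][X]) = evalRingHom x := by
      ext <;> simp
    have h3 := Polynomial.hom_eval₂ Q (C : ℝ[X] →+* ℝ[X][X]) (evalEvalRingHom x w) Z
    rw [h2, eval₂_evalRingHom, ← eval_map] at h3
    exact h3
  have h4 := congrArg (evalEval x w) hk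
  rw [h1, Polynomial.derivative_map] at h4
  have h5 : ∀ a b : ℝ[X][X], evalEval x w (a + b) = evalEval x w a + evalEval x w b :=
    fun a b => map_add (evalEvalRingHom x w) a b
  have h6 : ∀ a b : ℝ[X][X], evalEval x w (a * b) = evalEval x w a * evalEval x w b :=
    fun a b => map_mul (evalEvalRingHom x w) a b
  have h7 : ∀ (a : ℝ[X][X]) (n : ℕ), evalEval x w (a ^ n) = evalEval x w a ^ n :=
    fun a n => map_pow (evalEvalRingHom x w) a n
  have h8 : evalEval x w (X : ℝ[X][X]) = w := by simp [evalEval]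
  simp only [h5, h6, h7, h1, ana_evalEval_C, h8] at h4
  rw [h4, ana_evalEval_eval, ana_evalEval_eval]

theorem analyticAt_of_algebraic {g : ℝ → ℝ} {x₀ : ℝ} (hg : ContDiffAt ℝ ∞ g x₀)
    {G : Polynomial (Polynomial ℝ)} (hG : G ≠ 0)
    (hrel : ∀ᶠ x in 𝓝 x₀, Polynomial.evalEval x (g x) G = 0) : AnalyticAt ℝ g x₀ := by
  obtain ⟨P, A, B, H, c, d, N, hc, hd, hcP, hAB⟩ := ana_bezout hG
  have hgc : ContinuousAt g x₀ := hg.continuousAt
  -- the relation for `P`
  have hP : ∀ᶠ x in 𝓝[≠] x₀, evalEval x (g x) P = 0 := by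
    filter_upwards [hrel.filter_mono nhdsWithin_le_nhds, ana_ne_zero hc x₀] with x h1 h2
    have h3 := congrArg (evalEvalRingHom x (g x)) hcP
    simp only [map_mul, map_pow, coe_evalEvalRingHom, ana_evalEval_C, h1, mul_zero] at h3
    rcases mul_eq_zero.1 h3 with h4 | h4
    · exact absurd h4 h2
    · exact eq_zero_of_pow_eq_zero h4
  -- the order of `d`
  obtain ⟨e, d1, hde, hd1⟩ := ana_factor hd x₀
  -- Taylor polynomial
  obtain ⟨T, hT0, hT⟩ := ana_taylor (g := g) (x₀ := x₀) (n := 2 * e + 1)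
    (hg.of_le (WithTop.coe_le_coe.2 (le_top (a := (((2 * e + 1 : ℕ)) : ℕ∞)))))
  have hTc : ContinuousAt (fun x => T.eval x) x₀ := T.continuous.continuousAt
  -- lower bound for `P_Y` along the graph of `g`
  have hPY : ∃ c1 > 0, ∀ᶠ x in 𝓝[≠] x₀, c1 * |x - x₀| ^ e ≤ |evalEval x (g x) P.derivative| := by
    set M : ℝ := |evalEval x₀ (g x₀) B| + 1 with hM
    have hMpos : 0 < M := by positivity
    have hBc : ContinuousAt (fun x => evalEval x (g x) B) x₀ :=
      ((ana_contDiff (n := 1) B).continuous.continuousAt (x := (x₀, g x₀))).comp_of_eq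
        (continuousAt_id.prodMk hgc) rfl
    have e1 : ∀ᶠ x in 𝓝 x₀, |evalEval x (g x) B| < M :=
      hBc.abs.eventually (gt_mem_nhds (by rw [hM]; linarith))
    have hd1p := abs_pos.2 hd1
    refine ⟨|d1.eval x₀| / 2 / M, by positivity, ?_⟩
    filter_upwards [hP, e1.filter_mono nhdsWithin_le_nhds,
      (ana_half d1 hd1).filter_mono nhdsWithin_le_nhds] with x h1 h2 h3
    have h4 := congrArg (evalEvalRingHom x (g x)) hAB
    simp only [map_mul, map_add, coe_evalEvalRingHom, ana_evalEval_C, h1, mul_zero, zero_add] at h4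
    rw [hde] at h4
    simp only [eval_mul, eval_pow, eval_sub, eval_X, eval_C] at h4
    have h5 := congrArg abs h4
    rw [abs_mul, abs_mul, abs_pow] at h5
    have h6 : 0 ≤ |x - x₀| ^ e := by positivity
    have h7 : |x - x₀| ^ e * (|d1.eval x₀| / 2) ≤ M * |evalEval x (g x) P.derivative| := by
      calc |x - x₀| ^ e * (|d1.eval x₀| / 2) ≤ |x - x₀| ^ e * |d1.eval x| := by gcongr
        _ = |evalEval x (g x) B| * |evalEval x (g x) P.derivative| := h5.symm
        _ ≤ M * |evalEval x (g x) P.derivative| := by gcongr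
    rw [div_mul_eq_mul_div, div_le_iff₀ hMpos]
    linarith
  obtain ⟨c1, hc1, hc1'⟩ := hPY
  -- order of `P_Y(x, T(x))`
  have hlipD := (ana_lip P.derivative hgc hTc hT0).trans_isLittleO hT
  have hlip := (ana_lip P hgc hTc hT0).trans_isLittleO hT
  obtain ⟨e', u, he', hu, hu0⟩ : ∃ (m : ℕ) (q : ℝ[X]), m ≤ e ∧
      P.derivative.eval T = (X - C x₀) ^ m * q ∧ q.eval x₀ ≠ 0 := by
    refine ana_order_le (c := c1 / 2) (by positivity) ?_
    filter_upwards [hc1', (hlipD.def (c := c1 / 2) (by positivity)).filter_mono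
      nhdsWithin_le_nhds, (ana_abs_lt_one x₀).filter_mono nhdsWithin_le_nhds] with x h1 h2 h3
    rw [ana_evalEval_eval]
    simp only [Real.norm_eq_abs, abs_pow] at h2
    have h4 : |x - x₀| ^ (2 * e + 1) ≤ |x - x₀| ^ e :=
      pow_le_pow_of_le_one (abs_nonneg _) h3.le (by omega)
    have h5 : |evalEval x (g x) P.derivative| ≤ |evalEval x (T.eval x) P.derivative|
        + |evalEval x (T.eval x) P.derivative - evalEval x (g x) P.derivative| := by
      have := abs_sub_abs_le_abs_sub (evalEval x (g x) P.derivative)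
        (evalEval x (T.eval x) P.derivative)
      rw [abs_sub_comm] at this
      linarith
    nlinarith
  -- order of `P(x, T(x))`
  obtain ⟨R2, hR2⟩ : (X - C x₀) ^ (2 * e + 1 + 1) ∣ P.eval T := by
    refine ana_dvd ?_
    refine (hlip.mono nhdsWithin_le_nhds).congr' ?_ EventuallyEq.rfl
    filter_upwards [hP] with x hx
    rw [hx, sub_zero, ana_evalEval_eval]
  -- the substitution
  obtain ⟨k, hk⟩ := ana_binom P T ((X - C x₀) ^ (e' + 1))
  set F : ℝ × ℝ → ℝ := fun q => ((X - C x₀) ^ (2 * e + 1 - 2 * e') * R2).eval q.1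
    + u.eval q.1 * q.2 + (X - C x₀).eval q.1 * evalEval q.1 q.2 k * q.2 ^ 2 with hF
  have hFc : ContDiff ℝ ω F := by
    refine ContDiff.add (ContDiff.add ?_ ?_) ?_
    · exact (ana_contDiff_eval _).comp contDiff_fst
    · exact ((ana_contDiff_eval _).comp contDiff_fst).mul contDiff_snd
    · exact (((ana_contDiff_eval _).comp contDiff_fst).mul (ana_contDiff k)).mul
        (contDiff_snd.pow 2)
  have hF0 : ∀ w, F (x₀, w) = u.eval x₀ * w := by
    intro w
    have : 2 * e + 1 - 2 * e' ≠ 0 := by omega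
    simp [hF, this]
  set w : ℝ → ℝ := fun x => (g x - T.eval x) / (x - x₀) ^ (e' + 1) with hw
  have hw0 : w x₀ = 0 := by simp [hw]
  have hgw : ∀ x, g x = T.eval x + (x - x₀) ^ (e' + 1) * w x := by
    intro x
    by_cases hx : x = x₀
    · rw [hx, hw0, hT0]; ring
    · have : (x - x₀) ^ (e' + 1) ≠ 0 := pow_ne_zero _ (sub_ne_zero.2 hx)
      simp only [hw]
      field_simp
      ring
  have hwc : ContinuousAt w x₀ := by
    have h1 : (fun x => g x - T.eval x) =o[𝓝 x₀] fun x => (x - x₀) ^ (e' + 1) := by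
      refine hT.trans_isBigO (IsBigO.of_bound 1 ?_)
      filter_upwards [ana_abs_lt_one x₀] with x hx
      simp only [norm_pow, Real.norm_eq_abs, one_mul]
      exact pow_le_pow_of_le_one (abs_nonneg _) hx.le (by omega)
    have h2 := h1.tendsto_div_nhds_zero
    rw [ContinuousAt, hw0]
    exact h2
  have hFrel : ∀ᶠ x in 𝓝 x₀, F (x, w x) = 0 := by
    have h1 := eventually_nhdsWithin_iff.1 hP
    filter_upwards [h1] with x hx
    by_cases hx0 : x = x₀
    · rw [hx0, hw0, hF0, mul_zero]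
    · have h2 := hx hx0
      have h3 := hk x (w x)
      simp only [eval_pow, eval_sub, eval_X, eval_C] at h3
      rw [← hgw x, h2, hR2, hu] at h3
      simp only [eval_mul, eval_pow, eval_sub, eval_X, eval_C] at h3
      have hne : (x - x₀) ^ (2 * e' + 1) ≠ 0 := pow_ne_zero _ (sub_ne_zero.2 hx0)
      have h4 : (x - x₀) ^ (2 * e' + 1) * F (x, w x) = 0 := by
        simp only [hF, eval_mul, eval_pow, eval_sub, eval_X, eval_C]
        have h5 : (x - x₀) ^ (2 * e + 1 + 1)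
            = (x - x₀) ^ (2 * e' + 1) * (x - x₀) ^ (2 * e + 1 - 2 * e') := by
          rw [← pow_add]; congr 1; omega
        rw [h5] at h3
        have h6 : (x - x₀) ^ (2 * e' + 1) = (x - x₀) ^ e' * (x - x₀) ^ (e' + 1) := by
          rw [← pow_add]; congr 1; omega
        rw [h3, mul_add, mul_add]
        congr 1
        · congr 1
          · ring
          · rw [h6]; ring
        · rw [h6]; ring
      exact (mul_eq_zero.1 h4).resolve_left hne
  have hwω : ContDiffAt ℝ ω w x₀ := by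
    refine ana_implicit hFc (by rw [hF0, mul_zero]) hu0 ?_ hwc hw0 hFrel
    simp only [hF0]
    simpa using (hasDerivAt_id (0:ℝ)).const_mul (u.eval x₀)
  have hgω : ContDiffAt ℝ ω g x₀ := by
    have h1 : g = fun x => T.eval x + (x - x₀) ^ (e' + 1) * w x := funext hgw
    rw [h1]
    exact (ana_contDiff_eval T).contDiffAt.add
      (((contDiffAt_id.sub contDiffAt_const).pow _).mul hwω)
  exact hgω.analyticAt

end Pool.Agent.MP_ae5b4e_an_SM
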