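import Mathlib
import Pool.Agent.Lib.MP_ae5b4e_an_SM.Ana

/-!
# MP_ae5b4e_an, project SMOOTH, module SS: smooth algebraic functions on the circle are analytic
-/

noncomputable section

namespace Pool.Agent.MP_ae5b4e_an_SM

open Set Filter Topology
open scoped ContDiff

/-- the polynomial `(c - s y) ^ N * p ((s + c y) / (c - s y))` for `p` of degree at most `N` -/
def homP (c s : ℝ) (N : ℕ) (p : Polynomial ℝ) : Polynomial ℝ :=
  ∑ i ∈ Finset.range (N + 1), Polynomial.C (p.coeff i) *
    (Polynomial.C s + Polynomial.C c * Polynomial.X) ^ i *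
    (Polynomial.C c - Polynomial.C s * Polynomial.X) ^ (N - i)

theorem eval_homP {c s : ℝ} {N : ℕ} {p : Polynomial ℝ} (hp : p.natDegree ≤ N) {y : ℝ}
    (hy : c - s * y ≠ 0) :
    (homP c s N p).eval y = (c - s * y) ^ N * p.eval ((s + c * y) / (c - s * y)) := by
  rw [homP, Polynomial.eval_finsetSum, Polynomial.eval_eq_sum_range' (Nat.lt_succ_of_le hp),
    Finset.mul_sum]
  refine Finset.sum_congr rfl fun i hi => ?_
  have hi' : i ≤ N := Nat.lt_succ_iff.1 (Finset.mem_range.1 hi)
  have e : (c - s * y) ^ N = (c - s * y) ^ i * (c - s * y) ^ (N - i) := by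
    rw [← pow_add, Nat.add_sub_cancel' hi']
  simp only [Polynomial.eval_mul, Polynomial.eval_pow, Polynomial.eval_add, Polynomial.eval_sub,
    Polynomial.eval_C, Polynomial.eval_X]
  rw [e, div_pow]
  field_simp

theorem homP_ne_zero {c s : ℝ} (hcs : c ^ 2 + s ^ 2 = 1) {N : ℕ} {p : Polynomial ℝ}
    (hp : p.natDegree ≤ N) (h0 : p ≠ 0) : homP c s N p ≠ 0 := by
  intro h
  -- infinitely many zeros of `p`
  apply h0
  have hinf : Set.Infinite {y : ℝ | c - s * y ≠ 0} := by
    have hfin : Set.Finite {y : ℝ | c - s * y = 0} := by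
      by_cases hs : s = 0
      · have hc : c ≠ 0 := by
          rintro rfl
          simp [hs] at hcs
        have : {y : ℝ | c - s * y = 0} = ∅ := by
          ext y
          simp [hs, hc]
        rw [this]
        exact Set.finite_empty
      · have : {y : ℝ | c - s * y = 0} ⊆ {c / s} := by
          intro y hy
          have hy' : c - s * y = 0 := hy
          rw [Set.mem_singleton_iff, eq_div_iff hs]
          linarith
        exact (Set.finite_singleton _).subset this
    have := hfin.infinite_compl
    have e : {y : ℝ | c - s * y ≠ 0} = {y : ℝ | c - s * y = 0}ᶜ := rfl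
    rw [e]
    exact this
  have hinj : Set.InjOn (fun y : ℝ => (s + c * y) / (c - s * y)) {y : ℝ | c - s * y ≠ 0} := by
    intro y hy z hz hyz
    have hy' : c - s * y ≠ 0 := hy
    have hz' : c - s * z ≠ 0 := hz
    have h1 : (s + c * y) * (c - s * z) = (s + c * z) * (c - s * y) := by
      have := hyz
      simp only at this
      rwa [div_eq_div_iff hy' hz'] at this
    have h2 : (c ^ 2 + s ^ 2) * (y - z) = 0 := by linear_combination h1
    rw [hcs, one_mul] at h2
    linarith
  refine Polynomial.eq_zero_of_infinite_isRoot p ((hinf.image hinj).mono ?_)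
  rintro _ ⟨y, hy, rfl⟩
  have hy' : c - s * y ≠ 0 := hy
  have h1 := eval_homP (N := N) hp hy'
  rw [h, Polynomial.eval_zero] at h1
  have h2 : (c - s * y) ^ N ≠ 0 := pow_ne_zero _ hy'
  exact (mul_eq_zero.1 h1.symm).resolve_left h2

/-- the transformed relation -/
def homG (c s : ℝ) (N : ℕ) (G : Polynomial (Polynomial ℝ)) : Polynomial (Polynomial ℝ) :=
  ∑ j ∈ Finset.range (G.natDegree + 1), Polynomial.monomial j (homP c s N (G.coeff j))

theorem evalEval_eq_sum (G : Polynomial (Polynomial ℝ)) (x y : ℝ) :
    Polynomial.evalEval x y G =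
      ∑ j ∈ Finset.range (G.natDegree + 1), (G.coeff j).eval x * y ^ j := by
  rw [Polynomial.evalEval, Polynomial.eval_eq_sum_range (p := G), Polynomial.eval_finsetSum]
  refine Finset.sum_congr rfl fun j _ => ?_
  simp

theorem evalEval_homG (c s : ℝ) (N : ℕ) (G : Polynomial (Polynomial ℝ)) (x y : ℝ) :
    Polynomial.evalEval x y (homG c s N G) =
      ∑ j ∈ Finset.range (G.natDegree + 1), (homP c s N (G.coeff j)).eval x * y ^ j := by
  rw [homG, Polynomial.evalEval, Polynomial.eval_finsetSum, Polynomial.eval_finsetSum]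
  refine Finset.sum_congr rfl fun j _ => ?_
  simp

theorem homG_ne_zero {c s : ℝ} (hcs : c ^ 2 + s ^ 2 = 1) {N : ℕ}
    {G : Polynomial (Polynomial ℝ)} (hN : ∀ j, (G.coeff j).natDegree ≤ N) (hG : G ≠ 0) :
    homG c s N G ≠ 0 := by
  intro h
  have h1 : (homG c s N G).coeff G.natDegree = 0 := by rw [h, Polynomial.coeff_zero]
  rw [homG, Polynomial.finsetSum_coeff] at h1
  simp only [Polynomial.coeff_monomial] at h1
  rw [Finset.sum_eq_single G.natDegree] at h1
  · rw [if_pos rfl] at h1
    exact homP_ne_zero hcs (hN _)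
      (by simpa [Polynomial.leadingCoeff_eq_zero] using hG) h1
  · intro b _ hb
    rw [if_neg hb]
  · intro hb
    exact absurd (Finset.mem_range.2 (Nat.lt_succ_self _)) hb

theorem exists_natDegree_bound (G : Polynomial (Polynomial ℝ)) :
    ∃ N : ℕ, ∀ j, (G.coeff j).natDegree ≤ N := by
  refine ⟨G.support.sup fun j => (G.coeff j).natDegree, fun j => ?_⟩
  by_cases hj : j ∈ G.support
  · exact Finset.le_sup (f := fun j => (G.coeff j).natDegree) hj
  · rw [Polynomial.notMem_support_iff] at hj
    rw [hj]
    simp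

/-- ## SS: smooth algebraic functions on the circle are analytic -/
theorem analyticAt_circle {κ : ℝ → ℝ} (hκ : ContDiff ℝ ∞ κ)
    (hper : ∀ θ, κ (θ + 2 * Real.pi) = κ θ) {G : Polynomial (Polynomial ℝ)} (hG : G ≠ 0)
    (hrel : ∀ θ, Real.cos (θ / 2) ≠ 0 → Polynomial.evalEval (Real.tan (θ / 2)) (κ θ) G = 0)
    (θ : ℝ) : AnalyticAt ℝ κ θ := by
  obtain ⟨N, hN⟩ := exists_natDegree_bound G
  set c := Real.cos (θ / 2) with hc
  set s := Real.sin (θ / 2) with hs
  have hcs : c ^ 2 + s ^ 2 = 1 := Real.cos_sq_add_sin_sq _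
  set g : ℝ → ℝ := fun y => κ (θ + 2 * Real.arctan y) with hg
  have hgs : ContDiff ℝ ∞ g := hκ.comp (contDiff_const.add (contDiff_const.mul Real.contDiff_arctan))
  -- the relation away from one point
  have hrel1 : ∀ y : ℝ, c - s * y ≠ 0 → Polynomial.evalEval y (g y) (homG c s N G) = 0 := by
    intro y hy
    have hca : Real.cos (Real.arctan y) ≠ 0 := (Real.cos_arctan_pos y).ne'
    have hta : Real.sin (Real.arctan y) = y * Real.cos (Real.arctan y) := by
      have := Real.tan_arctan y
      rw [Real.tan_eq_sin_div_cos] at this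
      rwa [div_eq_iff hca] at this
    have e : (θ + 2 * Real.arctan y) / 2 = θ / 2 + Real.arctan y := by ring
    have hcos : Real.cos ((θ + 2 * Real.arctan y) / 2) =
        (c - s * y) * Real.cos (Real.arctan y) := by
      rw [e, Real.cos_add, hta]
      ring
    have hsin : Real.sin ((θ + 2 * Real.arctan y) / 2) =
        (s + c * y) * Real.cos (Real.arctan y) := by
      rw [e, Real.sin_add, hta]
      ring
    have h0 : Real.cos ((θ + 2 * Real.arctan y) / 2) ≠ 0 := by
      rw [hcos]
      exact mul_ne_zero hy hca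
    have htan : Real.tan ((θ + 2 * Real.arctan y) / 2) = (s + c * y) / (c - s * y) := by
      rw [Real.tan_eq_sin_div_cos, hcos, hsin, mul_div_mul_right _ _ hca]
    have h1 := hrel (θ + 2 * Real.arctan y) h0
    rw [htan, evalEval_eq_sum] at h1
    rw [evalEval_homG]
    have h2 : ∑ j ∈ Finset.range (G.natDegree + 1),
        (homP c s N (G.coeff j)).eval y * (g y) ^ j =
        (c - s * y) ^ N * ∑ j ∈ Finset.range (G.natDegree + 1),
          (G.coeff j).eval ((s + c * y) / (c - s * y)) * (g y) ^ j := by
      rw [Finset.mul_sum]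
      refine Finset.sum_congr rfl fun j _ => ?_
      rw [eval_homP (hN j) hy]
      ring
    rw [h2, h1, mul_zero]
  -- the relation everywhere
  have hcont : Continuous fun y : ℝ => Polynomial.evalEval y (g y) (homG c s N G) := by
    simp only [evalEval_homG]
    refine continuous_finsetSum _ fun j _ => ?_
    exact (Polynomial.continuous _).mul (hgs.continuous.pow j)
  have hrel2 : ∀ y : ℝ, Polynomial.evalEval y (g y) (homG c s N G) = 0 := by
    have hd : Dense {y : ℝ | c - s * y ≠ 0} := by
      have hfin : Set.Finite {y : ℝ | c - s * y = 0} := by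
        by_cases hs0 : s = 0
        · have hc0 : c ≠ 0 := by
            intro hc0
            rw [hc0, hs0] at hcs
            norm_num at hcs
          have : {y : ℝ | c - s * y = 0} = ∅ := by
            ext y
            simp [hs0, hc0]
          rw [this]
          exact Set.finite_empty
        · have : {y : ℝ | c - s * y = 0} ⊆ {c / s} := by
            intro y hy
            have hy' : c - s * y = 0 := hy
            rw [Set.mem_singleton_iff, eq_div_iff hs0]
            linarith
          exact (Set.finite_singleton _).subset this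
      exact hfin.countable.dense_compl ℝ
    have h := hcont.ext_on hd continuous_const (fun y hy => hrel1 y hy)
    exact fun y => congrFun h y
  have hana : AnalyticAt ℝ g 0 :=
    analyticAt_of_algebraic hgs.contDiffAt (homG_ne_zero hcs hN hG)
      (Filter.Eventually.of_forall hrel2)
  -- back to `κ`
  have htan : AnalyticAt ℝ (fun x : ℝ => Real.tan ((x - θ) / 2)) θ := by
    have h1 : AnalyticAt ℝ (fun x : ℝ => (x - θ) / 2) θ := by fun_prop
    have h2 : AnalyticAt ℝ (fun x : ℝ => Real.sin ((x - θ) / 2)) θ :=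
      Real.analyticAt_sin.comp h1
    have h3 : AnalyticAt ℝ (fun x : ℝ => Real.cos ((x - θ) / 2)) θ :=
      Real.analyticAt_cos.comp h1
    have h4 := h2.div h3 (by simp)
    refine h4.congr (Filter.Eventually.of_forall fun x => ?_)
    exact (Real.tan_eq_sin_div_cos _).symm
  have hcomp : AnalyticAt ℝ (fun x : ℝ => g (Real.tan ((x - θ) / 2))) θ := by
    have h0 : AnalyticAt ℝ g ((fun x : ℝ => Real.tan ((x - θ) / 2)) θ) := by simpa using hana
    exact AnalyticAt.comp (g := g) (f := fun x : ℝ => Real.tan ((x - θ) / 2)) h0 htan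
  refine hcomp.congr ?_
  have hnear : ∀ᶠ x in 𝓝 θ, (x - θ) / 2 ∈ Ioo (-(Real.pi / 2)) (Real.pi / 2) := by
    have hct : ContinuousAt (fun x : ℝ => (x - θ) / 2) θ := by fun_prop
    refine hct.eventually_mem (Ioo_mem_nhds ?_ ?_)
    · simp [Real.pi_pos]
    · simp [Real.pi_pos]
  filter_upwards [hnear] with x hx
  simp only [hg]
  rw [Real.arctan_tan hx.1 hx.2]
  congr 1
  ring

end Pool.Agent.MP_ae5b4e_an_SM
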