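import Mathlib
import Pool.Agent.Lib.SCV.Osgood
import Pool.Agent.Lib.MP_ae5b4e_an_SM.Lam
import Pool.Agent.Lib.MP_ae5b4e_an_SM.OpsA
import Pool.Agent.Lib.MP_ae5b4e_an_SM.OpsB
import Pool.Agent.Lib.MP_ae5b4e_an_SM.FourA
import Pool.Agent.Lib.MP_ae5b4e_an_SM.Solve

/-!
# MP_ae5b4e_an, project SMOOTH, module SK: the second equation at the nodes
-/

noncomputable section

namespace Pool.Agent.MP_ae5b4e_an_SM

open Complex Set Filter Topology

variable {S S' : Finset ℤ} {c r c' r' M M' δ : ℝ} {f g : ℂ × ℂ → ℂ}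

/-! ### Derivatives -/

lemma nodal_dt_eq (h : DifferentiableOn ℂ f (Dm S c r)) {p : ℂ × ℂ} (hp : p ∈ Dm S c r) :
    HasDerivAt (fun s => f (s, p.2)) (dt f p) p.1 ∧ dt f p = fderiv ℂ f p (1, 0) := by
  have h1 : HasFDerivAt f (fderiv ℂ f p) p :=
    (h.differentiableAt ((isOpen_Dm S c r).mem_nhds hp)).hasFDerivAt
  have h2 : HasDerivAt (fun s : ℂ => (s, p.2)) ((1 : ℂ), (0 : ℂ)) p.1 :=
    (hasDerivAt_id p.1).prodMk (hasDerivAt_const p.1 p.2)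
  have h3 : HasDerivAt (fun s => f (s, p.2)) (fderiv ℂ f p (1, 0)) p.1 :=
    HasFDerivAt.comp_hasDerivAt (f := fun s : ℂ => (s, p.2)) p.1 h1 h2
  have h4 : dt f p = fderiv ℂ f p (1, 0) := h3.deriv
  exact ⟨h4 ▸ h3, h4⟩

lemma nodal_dr_eq (h : DifferentiableOn ℂ f (Dm S c r)) {p : ℂ × ℂ} (hp : p ∈ Dm S c r) :
    HasDerivAt (fun s => f (p.1, s)) (dr f p) p.2 ∧ dr f p = fderiv ℂ f p (0, 1) := by
  have h1 : HasFDerivAt f (fderiv ℂ f p) p :=
    (h.differentiableAt ((isOpen_Dm S c r).mem_nhds hp)).hasFDerivAt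
  have h2 : HasDerivAt (fun s : ℂ => (p.1, s)) ((0 : ℂ), (1 : ℂ)) p.2 :=
    (hasDerivAt_const p.2 p.1).prodMk (hasDerivAt_id p.2)
  have h3 : HasDerivAt (fun s => f (p.1, s)) (fderiv ℂ f p (0, 1)) p.2 :=
    HasFDerivAt.comp_hasDerivAt (f := fun s : ℂ => (p.1, s)) p.2 h1 h2
  have h4 : dr f p = fderiv ℂ f p (0, 1) := h3.deriv
  exact ⟨h4 ▸ h3, h4⟩

lemma nodal_dt_mul (h : DifferentiableOn ℂ f (Dm S c r)) (h' : DifferentiableOn ℂ g (Dm S c r))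
    {p : ℂ × ℂ} (hp : p ∈ Dm S c r) :
    dt (fun q => f q * g q) p = dt f p * g p + f p * dt g p :=
  (((nodal_dt_eq h hp).1).mul ((nodal_dt_eq h' hp).1)).deriv

lemma nodal_dr_mul (h : DifferentiableOn ℂ f (Dm S c r)) (h' : DifferentiableOn ℂ g (Dm S c r))
    {p : ℂ × ℂ} (hp : p ∈ Dm S c r) :
    dr (fun q => f q * g q) p = dr f p * g p + f p * dr g p :=
  (((nodal_dr_eq h hp).1).mul ((nodal_dr_eq h' hp).1)).deriv

/-- mixed derivatives -/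
lemma nodal_mixed (h : DifferentiableOn ℂ f (Dm S c r)) {p : ℂ × ℂ} (hp : p ∈ Dm S c r) :
    dr (dt f) p = dt (dr f) p := by
  have ho := isOpen_Dm S c r
  have hA : AnalyticOnNhd ℂ f (Dm S c r) :=
    Pool.Agent.SCV.differentiableOn_analyticOnNhd _ ho f h
  have hp' : AnalyticAt ℂ f p := hA p hp
  have hsym : IsSymmSndFDerivAt ℂ f p := by
    refine (hp'.contDiffAt (n := 2)).isSymmSndFDerivAt ?_
    simp
  have hd : DifferentiableAt ℂ (fderiv ℂ f) p := hp'.fderiv.differentiableAt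
  -- the derivative of `q ↦ fderiv f q v` in the direction `w`
  have key : ∀ v w : ℂ × ℂ, fderiv ℂ (fun q => fderiv ℂ f q v) p w =
      fderiv ℂ (fderiv ℂ f) p w v := by
    intro v w
    have h1 : HasFDerivAt (fun q => fderiv ℂ f q v)
        ((ContinuousLinearMap.apply ℂ ℂ v).comp (fderiv ℂ (fderiv ℂ f) p)) p :=
      (ContinuousLinearMap.apply ℂ ℂ v).hasFDerivAt.comp p hd.hasFDerivAt
    rw [h1.fderiv]
    rfl
  have hdd : ∀ v : ℂ × ℂ, DifferentiableOn ℂ (fun q => fderiv ℂ f q v) (Dm S c r) := by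
    intro v q hq
    have h1 : DifferentiableAt ℂ (fderiv ℂ f) q := (hA q hq).fderiv.differentiableAt
    exact (h1.clm_apply (differentiableAt_const v)).differentiableWithinAt
  have e1 : ∀ q ∈ Dm S c r, dt f q = fderiv ℂ f q (1, 0) := fun q hq => (nodal_dt_eq h hq).2
  have e2 : ∀ q ∈ Dm S c r, dr f q = fderiv ℂ f q (0, 1) := fun q hq => (nodal_dr_eq h hq).2
  have e3 : dr (dt f) p = dr (fun q => fderiv ℂ f q (1, 0)) p := by
    unfold dr
    refine Filter.EventuallyEq.deriv_eq ?_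
    have hc : ContinuousAt (fun s : ℂ => ((p.1, s) : ℂ × ℂ)) p.2 := by fun_prop
    filter_upwards [hc.preimage_mem_nhds (ho.mem_nhds hp)] with s hs
    exact e1 _ hs
  have e4 : dt (dr f) p = dt (fun q => fderiv ℂ f q (0, 1)) p := by
    unfold dt
    refine Filter.EventuallyEq.deriv_eq ?_
    have hc : ContinuousAt (fun s : ℂ => ((s, p.2) : ℂ × ℂ)) p.1 := by fun_prop
    filter_upwards [hc.preimage_mem_nhds (ho.mem_nhds hp)] with s hs
    exact e2 _ hs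
  rw [e3, e4, (nodal_dr_eq (hdd (1, 0)) hp).2, (nodal_dt_eq (hdd (0, 1)) hp).2, key, key]
  exact hsym (0, 1) (1, 0)

/-! ### Fourier coefficients -/

lemma nodal_congr (hS : Sml S) (hr : r ≤ c) {ρ : ℂ} (hρ : ρ ∈ Rq r)
    (h : ∀ p ∈ Dm S c r, p.2 = ρ → f p = g p) (m : ℤ) : fc f m ρ = fc g m ρ := by
  unfold fc
  refine intervalIntegral.integral_congr fun s _ => ?_
  have h1 := h _ (mem_real (c := c) hS.le hr s hρ) rfl
  change f _ * _ = g _ * _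
  rw [h1]

lemma nodal_sml0 : Sml {0} := ⟨⟨0, by simp⟩, by simp⟩

lemma nodal_sml01 : Sml {0, 1} := ⟨⟨0, by simp⟩, by simp⟩

lemma nodal_sml3 : Sml {-1, 0, 1} := ⟨⟨0, by simp⟩, by simp⟩

lemma nodal_smlm : Sml {-1, 0} := ⟨⟨0, by simp⟩, by simp⟩

lemma nodal_exp {m k : ℤ} (hm : m ≠ 0) (j : ℤ) :
    exp (2 * Real.pi * I * m * j * ((k / m : ℝ) : ℂ)) = 1 := by
  have h1 : (2 * Real.pi * I * m * j * ((k / m : ℝ) : ℂ)) = ((j * k : ℤ) : ℂ) * (2 * Real.pi * I) := by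
    have : (m : ℂ) ≠ 0 := by exact_mod_cast hm
    push_cast
    field_simp
  rw [h1]
  exact Complex.exp_int_mul_two_pi_mul_I _

lemma nodal_rho_ne {m k : ℤ} (hm : m ≠ 0) (hk : k ≠ 0) : ((k / m : ℝ) : ℂ) ≠ 0 := by
  have h1 : (m : ℝ) ≠ 0 := by exact_mod_cast hm
  have h2 : (k : ℝ) ≠ 0 := by exact_mod_cast hk
  exact_mod_cast div_ne_zero h2 h1

lemma nodal_mem {x r : ℝ} (h : |x| < r) : ((x : ℝ) : ℂ) ∈ Rq r := by
  refine ⟨by simpa using h, ?_⟩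
  simp only [ofReal_im, abs_zero]
  exact (abs_nonneg _).trans_lt h

lemma nodal_theta {m k : ℤ} (hm : m ≠ 0) (hk : k ≠ 0) :
    theta m (-((k / m : ℝ) : ℂ)) = 0 := by
  have h0 := nodal_rho_ne hm hk
  unfold theta
  rw [if_neg (neg_ne_zero.2 h0)]
  have h1 := nodal_exp (k := k) hm (-1)
  have h2 : 2 * Real.pi * I * m * ((-1 : ℤ) : ℂ) * ((k / m : ℝ) : ℂ) =
      2 * Real.pi * I * m * -((k / m : ℝ) : ℂ) := by
    push_cast
    ring
  rw [h2] at h1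
  rw [h1]
  simp

lemma nodal_Wt {m : ℤ} {x : ℝ} : Wt S m ((x : ℝ) : ℂ) = S.card := by
  unfold Wt
  have : ∀ s ∈ S, ‖exp (2 * Real.pi * I * m * s * ((x : ℝ) : ℂ))‖ = 1 := by
    intro s _
    have h1 : 2 * Real.pi * I * m * s * ((x : ℝ) : ℂ) = ((2 * Real.pi * m * s * x : ℝ) : ℂ) * I := by
      push_cast
      ring
    rw [h1]
    exact Complex.norm_exp_ofReal_mul_I _
  rw [Finset.sum_congr rfl this]
  simp

/-- the Fourier coefficients at a real point -/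
lemma nodal_bound (h : HP S c r f M) (hS : Sml S) (hr : r ≤ c) (m : ℤ) {x : ℝ} (hx : |x| < r) :
    ‖fc f m ((x : ℝ) : ℂ)‖ ≤ S.card * M * Real.exp (-(2 * Real.pi * |(m : ℝ)| * c)) := by
  have h1 := fc_bound h hS hr m (nodal_mem hx)
  rw [nodal_Wt] at h1
  linarith

lemma nodal_norm_le {ρ : ℂ} (hρ : ρ ∈ Rq r) : ‖ρ‖ ≤ 2 * r := by
  have h1 := Complex.norm_le_abs_re_add_abs_im ρ
  have h2 := hρ.1
  have h3 := hρ.2
  linarith

lemma nodal_two_pi {m : ℤ} (hm : m ≠ 0) : 1 ≤ ‖(2 * Real.pi * I * m : ℂ)‖ := by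
  have h1 : (1 : ℝ) ≤ |(m : ℝ)| := by
    have : (1 : ℤ) ≤ |m| := Int.one_le_abs hm
    exact_mod_cast this
  have h2 : ‖(2 * Real.pi * I * m : ℂ)‖ = 2 * Real.pi * |(m : ℝ)| := by
    simp [abs_of_pos Real.pi_pos]
  rw [h2]
  have h3 := Real.pi_gt_three
  nlinarith

/-! ### The family `F` -/

variable {F E G w res u : ℂ × ℂ → ℂ}

lemma nodal_Fdiff (hF : GF c r (1 / 4) F) : DifferentiableOn ℂ F (Dm {0} c r) := by
  have h1 : DifferentiableOn ℂ (fun p : ℂ × ℂ => (F p - p.1) + p.1) (Dm {0} c r) :=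
    hF.ap.toRP.toPH.diff.add differentiable_fst.differentiableOn
  simpa using h1

lemma nodal_F (hF : GF c r (1 / 4) F) : PH {0} c r (dt F) ∧ PH {0} c r (dr F) ∧
    PH {0} c r (uu F) ∧ (∀ p ∈ Dm {0} c r, dt F p ≠ 0 ∧ 3 / 4 ≤ ‖dt F p‖ ∧ ‖dt F p‖ ≤ 5 / 4) ∧
    ∀ p ∈ Dm {0} c r, dr (dt F) p = dt (dr F) p := by
  have h0 : PH {0} c r (fun p => F p - p.1) := hF.ap.toRP.toPH
  have h1 : PH {0} c r (dt F) := by
    refine PH.congr (h0.hdt.add (PH.const 1)) fun p hp => ?_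
    have h2 := dt_add_id h0.diff hp
    simp only [sub_add_cancel] at h2
    exact h2
  have h3 : PH {0} c r (dr F) := by
    have e : dr F = dr (fun p => F p - p.1) := by
      funext p
      unfold dr
      simp only
      rw [deriv_sub_const]
    rw [e]
    exact h0.hdr
  have h4 : ∀ p ∈ Dm {0} c r, dt F p ≠ 0 ∧ 3 / 4 ≤ ‖dt F p‖ ∧ ‖dt F p‖ ≤ 5 / 4 := by
    intro p hp
    have h5 := hF.dt1 p hp
    have h6 : ‖(1 : ℂ)‖ ≤ ‖dt F p‖ + ‖1 - dt F p‖ := by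
      have := norm_add_le (dt F p) (1 - dt F p)
      simpa using this
    have h7 : ‖dt F p‖ ≤ ‖(1 : ℂ)‖ + ‖dt F p - 1‖ := by
      have := norm_add_le (1 : ℂ) (dt F p - 1)
      simpa using this
    rw [norm_one] at h6 h7
    rw [norm_sub_rev] at h6
    have h8 : 3 / 4 ≤ ‖dt F p‖ := by linarith
    refine ⟨fun h => ?_, h8, by linarith⟩
    rw [h, norm_zero] at h8
    norm_num at h8
  exact ⟨h1, h3, h3.div h1 fun p hp => (h4 p hp).1, h4,
    fun p hp => nodal_mixed (nodal_Fdiff hF) hp⟩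

lemma nodal_rdr (h : Par c r c' r' δ) (hF : GF c r (1 / 4) F) :
    ∀ p ∈ Dm {0} c' r', ‖p.2 * dr F p‖ ≤ 1 / (2 * δ) := by
  intro p hp
  have h0 : PH {0} c r (fun p => F p - p.1) := hF.ap.toRP.toPH
  obtain ⟨h1, h2, h3⟩ := h.δr
  have e : dr F = dr (fun p => F p - p.1) := by
    funext p
    unfold dr
    simp only
    rw [deriv_sub_const]
  have h4 := bd_dr h0.diff hF.ap.bd (by simp) h1 h2 h3 p hp
  have h5 := nodal_norm_le hp.2
  have h6 := h.r'_le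
  have h7 := h.r_pos
  have h8 := h.δ0
  rw [norm_mul, e]
  calc ‖p.2‖ * ‖dr (fun p => F p - p.1) p‖ ≤ (2 * r) * (1 / 4 / (δ * r)) := by
        gcongr
        linarith
    _ = 1 / (2 * δ) := by
        field_simp
        norm_num

/-! ### The first coefficient -/

/-- the equation `w - w⁻ = ρ (g - res)`, its value and its derivative at the node -/
lemma nodal_c (hr : r ≤ c) (hw : PH {0, 1} c r w) (hg : PH {-1, 0, 1} c r g)
    (hres : PH {-1, 0, 1} c r res)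
    (heq : ∀ p ∈ Dm {-1, 0, 1} c r, nabm w p = g p - res p) {m k : ℤ} (hm : m ≠ 0)
    (hk : k ≠ 0) (hρ : |(k / m : ℝ)| < r) :
    fc g m ((k / m : ℝ) : ℂ) = fc res m ((k / m : ℝ) : ℂ) ∧
    2 * Real.pi * I * m * fc w m ((k / m : ℝ) : ℂ) =
      ((k / m : ℝ) : ℂ) * (fc (dr g) m ((k / m : ℝ) : ℂ) - fc (dr res) m ((k / m : ℝ) : ℂ)) := by
  set ρ0 : ℂ := ((k / m : ℝ) : ℂ) with hρ0
  have h0 : ρ0 ∈ Rq r := nodal_mem hρ
  have hne : ρ0 ≠ 0 := nodal_rho_ne hm hk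
  have hwp : PH {-1, 0, 1} c r w := hw.mono (by decide) le_rfl le_rfl
  have hwm : PH {-1, 0, 1} c r (sh (-1) w) := hw.hsh (-1) (by decide)
  have key : ∀ ρ ∈ Rq r, (1 - exp (2 * Real.pi * I * m * (-1) * ρ)) * fc w m ρ =
      ρ * (fc g m ρ - fc res m ρ) := by
    intro ρ hρ
    have h1 : fc (fun p => w p - sh (-1) w p) m ρ = fc (fun p => p.2 * (g p - res p)) m ρ := by
      refine nodal_congr nodal_sml3 hr hρ (fun p hp _ => ?_) m
      rw [← heq p hp, rho_mul_nabm]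
    rw [fc_sub hwp hwm nodal_sml3 hr m hρ, fc_smul (fun p => g p - res p) (fun z => z) m ρ,
      fc_sub hg hres nodal_sml3 hr m hρ, fc_sh hw nodal_sml01 hr m (-1) (by decide) hρ] at h1
    push_cast at h1
    rw [← h1]
    ring
  have hexp : exp (2 * Real.pi * I * m * (-1) * ρ0) = 1 := by
    have := nodal_exp (k := k) hm (-1)
    push_cast at this ⊢
    rw [hρ0]
    push_cast
    exact this
  have hcg : fc g m ρ0 = fc res m ρ0 := by
    have h1 := key ρ0 h0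
    rw [hexp, sub_self, zero_mul] at h1
    have h2 := (mul_eq_zero.1 h1.symm).resolve_left hne
    exact sub_eq_zero.1 h2
  refine ⟨hcg, ?_⟩
  have hmem := (isOpen_Rq r).mem_nhds h0
  have d1 : HasDerivAt (fc w m) (deriv (fc w m) ρ0) ρ0 :=
    ((fc_diff hw nodal_sml01 hr m).differentiableAt hmem).hasDerivAt
  have d2 : HasDerivAt (fc g m) (deriv (fc g m) ρ0) ρ0 :=
    ((fc_diff hg nodal_sml3 hr m).differentiableAt hmem).hasDerivAt
  have d3 : HasDerivAt (fc res m) (deriv (fc res m) ρ0) ρ0 :=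
    ((fc_diff hres nodal_sml3 hr m).differentiableAt hmem).hasDerivAt
  have d4 : HasDerivAt (fun ρ : ℂ => 1 - exp (2 * Real.pi * I * m * (-1) * ρ))
      (2 * Real.pi * I * m) ρ0 := by
    have h1 : HasDerivAt (fun ρ : ℂ => 2 * Real.pi * I * m * (-1) * ρ)
        (2 * Real.pi * I * m * (-1)) ρ0 := by
      simpa using (hasDerivAt_id ρ0).const_mul (2 * Real.pi * I * m * (-1) : ℂ)
    have h2 := (h1.cexp).const_sub 1
    rw [hexp] at h2
    have h3 : -(1 * (2 * Real.pi * I * m * (-1)) : ℂ) = 2 * Real.pi * I * m := by ring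
    rw [h3] at h2
    exact h2
  have d5 := d4.mul d1
  have d6 := (hasDerivAt_id ρ0).mul (d2.sub d3)
  have e1 : (fun ρ : ℂ => 1 - exp (2 * Real.pi * I * m * (-1) * ρ)) * fc w m =ᶠ[𝓝 ρ0]
      id * (fc g m - fc res m) := by
    filter_upwards [hmem] with ρ hρ
    simpa using key ρ hρ
  have e2 := (d5.congr_of_eventuallyEq e1.symm).unique d6
  rw [hexp, Pi.sub_apply, hcg, sub_self, zero_mul, sub_self, mul_zero, add_zero, zero_add,
    id] at e2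
  rw [fc_dr hg nodal_sml3 hr m h0, fc_dr hres nodal_sml3 hr m h0]
  exact e2

/-- step (d): the coefficient of `w` at the node -/
lemma nodal_d (hr : r ≤ c) (k1 : ℂ) (hF : GF c r (1 / 4) F) (hE : PH {-1, 0, 1} c r E)
    (hG : PH {0, 1} c r G)
    (hI : ∀ p ∈ Dm {-1, 0, 1} c r, p.2 ≠ 0 →
      dt F p * (p.2 * dr E p + k1 * E p) - p.2 * dr F p * dt E p = nabm G p)
    (hw : PH {0, 1} c r w) (hres : PH {-1, 0, 1} c r res)
    (heq : ∀ p ∈ Dm {-1, 0, 1} c r, nabm w p = dt F p * E p - res p) {m k : ℤ} (hm : m ≠ 0)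
    (hk : k ≠ 0) (hρ : |(k / m : ℝ)| < r) :
    2 * Real.pi * I * m * fc w m ((k / m : ℝ) : ℂ) =
      2 * Real.pi * I * m * (((k / m : ℝ) : ℂ) *
        fc (fun p => dr F p * E p) m ((k / m : ℝ) : ℂ)) -
      (k1 * fc res m ((k / m : ℝ) : ℂ) + ((k / m : ℝ) : ℂ) * fc (dr res) m ((k / m : ℝ) : ℂ)) := by
  obtain ⟨f1, f2, f3, f4, f5⟩ := nodal_F hF
  have hk3 : PH {-1, 0, 1} c r (dt F) := f1.mono (by decide) le_rfl le_rfl
  have hd3 : PH {-1, 0, 1} c r (dr F) := f2.mono (by decide) le_rfl le_rfl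
  have hg : PH {-1, 0, 1} c r (fun p => dt F p * E p) := hk3.mul hE
  have hq : PH {-1, 0, 1} c r (fun p => dr F p * E p) := hd3.mul hE
  obtain ⟨c1, c2⟩ := nodal_c hr hw hg hres heq hm hk hρ
  set ρ0 : ℂ := ((k / m : ℝ) : ℂ) with hρ0
  have h0 : ρ0 ∈ Rq r := nodal_mem hρ
  have hne : ρ0 ≠ 0 := nodal_rho_ne hm hk
  have e1 : fc (fun p => p.2 * dr (fun q => dt F q * E q) p) m ρ0 =
      fc (fun p => (p.2 * dt (fun q => dr F q * E q) p + nabm G p) -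
        k1 * (dt F p * E p)) m ρ0 := by
    refine nodal_congr nodal_sml3 hr h0 (fun p hp hp2 => ?_) m
    have hp0 : p ∈ Dm {0} c r := Dm_mono (by decide) le_rfl le_rfl hp
    rw [nodal_dr_mul hk3.diff hE.diff hp, nodal_dt_mul hd3.diff hE.diff hp, f5 p hp0,
      ← hI p hp (hp2 ▸ hne)]
    ring
  have hnG : PH {-1, 0, 1} c r (nabm G) := hG.hnabm (by decide) (by decide)
  have hρq : PH {-1, 0, 1} c r (fun p => p.2 * dt (fun q => dr F q * E q) p) :=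
    (PH.ofρ (a := fun z => z) differentiableOn_id).mul hq.hdt
  have hkg : PH {-1, 0, 1} c r (fun p => k1 * (dt F p * E p)) := (PH.const k1).mul hg
  rw [fc_sub (hρq.add hnG) hkg nodal_sml3 hr m h0, fc_add hρq hnG nodal_sml3 hr m h0,
    fc_smul (dr (fun q => dt F q * E q)) (fun z => z) m ρ0,
    fc_smul (dt (fun q => dr F q * E q)) (fun z => z) m ρ0,
    fc_smul (fun p => dt F p * E p) (fun _ => k1) m ρ0,
    fc_dt hq nodal_sml3 hr m h0, fc_nabm hG nodal_sml01 hr m (by decide) h0,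
    nodal_theta hm hk, c1] at e1
  rw [c2, mul_sub, e1]
  ring

/-- step (e): the coefficient of `w (u⁺ - u)` at the node -/
lemma nodal_e (hr : r ≤ c) (hF : GF c r (1 / 4) F) (hE : PH {-1, 0, 1} c r E)
    (hw : PH {0, 1} c r w) (hres : PH {-1, 0, 1} c r res)
    (heq : ∀ p ∈ Dm {-1, 0, 1} c r, nabm w p = dt F p * E p - res p) {m k : ℤ} (hm : m ≠ 0)
    (hρ : |(k / m : ℝ)| < r) :
    fc (fun p => w p * (sh 1 (uu F) p - uu F p)) m ((k / m : ℝ) : ℂ) =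
      -(((k / m : ℝ) : ℂ) * fc (fun p => dr F p * E p) m ((k / m : ℝ) : ℂ)) +
      ((k / m : ℝ) : ℂ) * fc (fun p => res p * uu F p) m ((k / m : ℝ) : ℂ) := by
  obtain ⟨f1, f2, f3, f4, f5⟩ := nodal_F hF
  have hd3 : PH {-1, 0, 1} c r (dr F) := f2.mono (by decide) le_rfl le_rfl
  have hu3 : PH {-1, 0, 1} c r (uu F) := f3.mono (by decide) le_rfl le_rfl
  have hw3 : PH {-1, 0, 1} c r w := hw.mono (by decide) le_rfl le_rfl
  have hum : PH {-1, 0} c r (uu F) := f3.mono (by decide) le_rfl le_rfl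
  have hu1 : PH {0, 1} c r (uu F) := f3.mono (by decide) le_rfl le_rfl
  have hus : PH {0, 1} c r (sh 1 (uu F)) := f3.hsh 1 (by decide)
  have hwm : PH {-1, 0} c r (sh (-1) w) := hw.hsh (-1) (by decide)
  have hwu : PH {-1, 0} c r (fun p => sh (-1) w p * uu F p) := hwm.mul hum
  set ρ0 : ℂ := ((k / m : ℝ) : ℂ) with hρ0
  have h0 : ρ0 ∈ Rq r := nodal_mem hρ
  have hq : PH {-1, 0, 1} c r (fun p => dr F p * E p) := hd3.mul hE
  have hρq : PH {-1, 0, 1} c r (fun p => p.2 * (dr F p * E p)) :=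
    (PH.ofρ (a := fun z => z) differentiableOn_id).mul hq
  have hρr : PH {-1, 0, 1} c r (fun p => p.2 * (res p * uu F p)) :=
    (PH.ofρ (a := fun z => z) differentiableOn_id).mul (hres.mul hu3)
  -- `w u⁺ = (w⁻ u)⁺`
  have e1 : fc (fun p => w p * sh 1 (uu F) p) m ρ0 = fc (fun p => sh (-1) w p * uu F p) m ρ0 := by
    have h1 : (fun p => w p * sh 1 (uu F) p) = sh 1 (fun p => sh (-1) w p * uu F p) := by
      funext p
      simp [sh]
    rw [h1, fc_sh hwu nodal_smlm hr m 1 (by decide) h0, hρ0, nodal_exp hm 1, one_mul]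
  -- `w⁻ u = w u - ρ (F_ρ E) + ρ (res u)`
  have e2 : fc (fun p => sh (-1) w p * uu F p) m ρ0 =
      fc (fun p => (w p * uu F p - p.2 * (dr F p * E p)) + p.2 * (res p * uu F p)) m ρ0 := by
    refine nodal_congr nodal_sml3 hr h0 (fun p hp _ => ?_) m
    have hp0 : p ∈ Dm {0} c r := Dm_mono (by decide) le_rfl le_rfl hp
    have h1 := rho_mul_nabm w p
    rw [heq p hp] at h1
    have h2 : sh (-1) w p = w p - p.2 * (dt F p * E p - res p) := by rw [h1]; ring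
    have h3 : dt F p * uu F p = dr F p := by
      unfold uu
      rw [mul_div_cancel₀ _ (f4 p hp0).1]
    rw [h2, ← h3]
    ring
  have e3 : fc (fun p => w p * (sh 1 (uu F) p - uu F p)) m ρ0 =
      fc (fun p => w p * sh 1 (uu F) p - w p * uu F p) m ρ0 := by
    congr 1
    funext p
    ring
  rw [e3, fc_sub (hw.mul hus) (hw.mul hu1) nodal_sml01 hr m h0, e1, e2,
    fc_add ((hw3.mul hu3).sub hρq) hρr nodal_sml3 hr m h0,
    fc_sub (hw3.mul hu3) hρq nodal_sml3 hr m h0,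
    fc_smul (fun p => dr F p * E p) (fun z => z) m ρ0,
    fc_smul (fun p => res p * uu F p) (fun z => z) m ρ0]
  ring

/-! ### The function `G` -/

lemma nodal_half (h : Par c r c' r' δ) : Par c r (c - δ / 2) (r - δ / 2 * r) (δ / 2) ∧
    Par (c - δ / 2) (r - δ / 2 * r) c' r' (δ / 2) := by
  have h1 := h.δ0
  have h2 := h.δ1
  have h3 := h.cc
  have h4 := h.rr
  have h5 := h.r0
  have h6 := h.rc
  have h7 := h.c1
  have h8 := h.r_pos
  have h9 : 0 < δ * r := mul_pos h1 h8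
  refine ⟨⟨by linarith, by linarith, h7, by linarith, by nlinarith, by linarith, by linarith⟩,
    ⟨by linarith, by linarith, by linarith, by linarith, h5, ?_, by nlinarith⟩⟩
  nlinarith [mul_pos h1 h9]

lemma nodal_G {a : ℂ × ℂ → ℂ} (hu : PH {0} c r u) (ha : PH {0, 1} c r a) :
    PH {0, 1} c r (Gf a u) := by
  have h1 : PH {0, 1} c r (sh 1 u) := hu.hsh 1 (by decide)
  have h2 : PH {0, 1} c r u := hu.mono (by decide) le_rfl le_rfl
  exact (ha.mul (((PH.const 1).add h1).sub h2)).neg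

/-- step (a) -/
lemma nodal_a (k1 : ℂ) : ∃ n : ℕ, ∀ (c r c' r' δ ε : ℝ) (F E a : ℂ × ℂ → ℂ),
    Par c r c' r' δ → GF c r (1 / 4) F → AP {-1, 0, 1} c r E ε → PH {0, 1} c r a →
    (∀ p ∈ Dm {-1, 0, 1} c r, p.2 ≠ 0 →
      dt F p * (p.2 * dr E p + k1 * E p) - p.2 * dr F p * dt E p = nabm (Gf a (uu F)) p) →
    0 ≤ ε → ∀ p ∈ Dm {0, 1} c' r', ‖Gf a (uu F) p - fc (Gf a (uu F)) 0 p.2‖ ≤
      lam n (δ / 2) * ((7 + 2 * ‖k1‖) * ε / δ ^ 2) := by
  obtain ⟨n, hn⟩ := apriori_minus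
  refine ⟨n, fun c r c' r' δ ε F E a h hF hE ha hI hε => ?_⟩
  obtain ⟨s0, s1⟩ := nodal_half h
  obtain ⟨f1, f2, f3, f4, f5⟩ := nodal_F hF
  have hG := nodal_G f3 ha
  have hc1 := s0.c'_le
  have hr1 := s0.r'_le
  refine hn _ _ _ _ _ _ _ s1 (hG.mono (Finset.Subset.refl _) hc1 hr1) fun p hp hp2 => ?_
  have hp3 : p ∈ Dm {-1, 0, 1} c r := Dm_mono (Finset.Subset.refl _) hc1 hr1 hp
  have hp4 : p ∈ Dm {-1, 0, 1} (c - δ / 2) r :=
    Dm_mono (Finset.Subset.refl _) le_rfl hr1 hp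
  have hp0 : p ∈ Dm {0} c r := Dm_mono (by decide) le_rfl le_rfl hp3
  have hp1 : p ∈ Dm {0} (c - δ / 2) (r - δ / 2 * r) := Dm_mono (by decide) le_rfl le_rfl hp
  rw [← hI p hp3 hp2]
  obtain ⟨g1, g2, g3⟩ := s0.δr
  have b1 := bd_dr hE.toRP.toPH.diff hE.bd (by simp) g1 g2 g3 p hp
  have b2 := bd_dt hE.toRP.toPH.diff hE.bd s0.δ0 s0.cc p hp4
  have b3 := nodal_rdr s0 hF p hp1
  have b4 := (f4 p hp0).2.2
  have b5 := hE.bd p hp3
  have b6 := nodal_norm_le hp.2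
  have hδ := h.δ0
  have hδ1 := h.δ1
  have hr := h.r_pos
  have b7 : ‖p.2 * dr E p‖ ≤ 4 * ε / δ := by
    rw [norm_mul]
    calc ‖p.2‖ * ‖dr E p‖ ≤ (2 * r) * (ε / (δ / 2 * r)) := by
          gcongr
          linarith
      _ = 4 * ε / δ := by
          field_simp
          ring
  have b8 : ‖dt F p * (p.2 * dr E p + k1 * E p)‖ ≤ 5 / 4 * (4 * ε / δ + ‖k1‖ * ε) := by
    rw [norm_mul]
    have h1 : ‖p.2 * dr E p + k1 * E p‖ ≤ 4 * ε / δ + ‖k1‖ * ε := by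
      refine (norm_add_le _ _).trans (add_le_add b7 ?_)
      rw [norm_mul]
      gcongr
    gcongr
  have b9 : ‖p.2 * dr F p * dt E p‖ ≤ (1 / (2 * (δ / 2))) * (ε / (δ / 2)) := by
    rw [norm_mul]
    gcongr
  have b10 := norm_sub_le (dt F p * (p.2 * dr E p + k1 * E p)) (p.2 * dr F p * dt E p)
  refine b10.trans ((add_le_add b8 b9).trans ?_)
  rw [le_div_iff₀ (by positivity)]
  have e1 : (5 / 4 * (4 * ε / δ + ‖k1‖ * ε) + 1 / (2 * (δ / 2)) * (ε / (δ / 2))) * δ ^ 2 =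
      5 * (ε * δ) + 5 / 4 * (‖k1‖ * (ε * δ ^ 2)) + 2 * ε := by
    field_simp
  rw [e1]
  have e2 : ε * δ ≤ ε := by nlinarith
  have e3 : ε * δ ^ 2 ≤ ε := by nlinarith [mul_nonneg hε hδ.le]
  have e4 : ‖k1‖ * (ε * δ ^ 2) ≤ ‖k1‖ * ε := mul_le_mul_of_nonneg_left e3 (norm_nonneg _)
  have e5 : 0 ≤ ‖k1‖ * ε := mul_nonneg (norm_nonneg _) hε
  nlinarith

/-- facts on numbers near one -/
lemma nodal_near {z : ℂ} (h : ‖z - 1‖ ≤ 1 / 4) : z ≠ 0 ∧ ‖z⁻¹‖ ≤ 4 / 3 ∧ ‖z⁻¹ - 1‖ ≤ 1 / 3 := by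
  have h1 : 3 / 4 ≤ ‖z‖ := by
    have h2 : ‖(1 : ℂ)‖ ≤ ‖z‖ + ‖1 - z‖ := by
      have := norm_add_le z (1 - z)
      simpa using this
    rw [norm_one, norm_sub_rev] at h2
    linarith
  have h3 : z ≠ 0 := by
    rintro rfl
    rw [norm_zero] at h1
    norm_num at h1
  have h4 : ‖z⁻¹‖ ≤ 4 / 3 := by
    rw [norm_inv]
    calc ‖z‖⁻¹ ≤ (3 / 4 : ℝ)⁻¹ := by gcongr
      _ = 4 / 3 := by norm_num
  refine ⟨h3, h4, ?_⟩
  have h5 : z⁻¹ - 1 = (1 - z) * z⁻¹ := by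
    field_simp
  rw [h5, norm_mul, norm_sub_rev]
  calc ‖z - 1‖ * ‖z⁻¹‖ ≤ (1 / 4) * (4 / 3) := by gcongr
    _ = 1 / 3 := by norm_num

/-- step (b) -/
lemma nodal_b {a : ℂ × ℂ → ℂ} (hr : r ≤ c) (hu : PH {0} c r u) (ha : PH {0, 1} c r a)
    (ha1 : ∀ p ∈ Dm {0, 1} c r, ‖a p - 1‖ ≤ 1 / 4)
    (hη : ∀ p ∈ Dm {0, 1} c r, ‖Gf a u p - fc (Gf a u) 0 p.2‖ ≤ 1 / 8) {ρ : ℂ}
    (hρ : ρ ∈ Rq r) : 5 / 8 ≤ ‖fc (Gf a u) 0 ρ‖ ∧ ‖fc (Gf a u) 0 ρ‖ ≤ 7 / 4 := by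
  have hG := nodal_G hu ha
  have h1 : PH {0, 1} c r (sh 1 u) := hu.hsh 1 (by decide)
  have h2 : PH {0, 1} c r u := hu.mono (by decide) le_rfl le_rfl
  have hn := fun p hp => nodal_near (ha1 p hp)
  have hi : PH {0, 1} c r (fun p => (a p)⁻¹) := ha.inv fun p hp => (hn p hp).1
  have hG0 : PH {0, 1} c r (fun p => fc (Gf a u) 0 p.2) :=
    PH.ofρ (fc_diff hG nodal_sml01 hr 0)
  have hd : PH {0, 1} c r (fun p => (Gf a u p - fc (Gf a u) 0 p.2) * (a p)⁻¹) :=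
    (hG.sub hG0).mul hi
  have hdb : HP {0, 1} c r (fun p => (Gf a u p - fc (Gf a u) 0 p.2) * (a p)⁻¹) (1 / 6) := by
    refine { hd with bd := fun p hp => ?_ }
    rw [norm_mul]
    calc _ ≤ (1 / 8 : ℝ) * (4 / 3) := by
          gcongr
          · exact hη p hp
          · exact (hn p hp).2.1
      _ = 1 / 6 := by norm_num
  have hib : HP {0, 1} c r (fun p => (a p)⁻¹) (4 / 3) :=
    { hi with bd := fun p hp => (hn p hp).2.1 }
  have hic : HP {0, 1} c r (fun p => (a p)⁻¹ - 1) (1 / 3) :=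
    { (hi.sub (PH.const 1)) with bd := fun p hp => (hn p hp).2.2 }
  have e1 : fc (fun p => (1 + sh 1 u p) - u p) 0 ρ =
      fc (fun p => -(fc (Gf a u) 0 p.2 * (a p)⁻¹) -
        (Gf a u p - fc (Gf a u) 0 p.2) * (a p)⁻¹) 0 ρ := by
    refine nodal_congr nodal_sml01 hr hρ (fun p hp _ => ?_) 0
    have h3 := (hn p hp).1
    unfold Gf
    field_simp
    ring
  have e2 : fc (fun p => (1 + sh 1 u p) - u p) 0 ρ = 1 := by
    rw [fc_sub ((PH.const 1).add h1) h2 nodal_sml01 hr 0 hρ,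
      fc_add (PH.const 1) h1 nodal_sml01 hr 0 hρ, fc_sh hu nodal_sml0 hr 0 1 (by decide) hρ,
      fc_ofρ (fun _ => 1) 0 ρ]
    simp
  have e3 : fc (fun p => -(fc (Gf a u) 0 p.2 * (a p)⁻¹) -
        (Gf a u p - fc (Gf a u) 0 p.2) * (a p)⁻¹) 0 ρ =
      -(fc (Gf a u) 0 ρ * fc (fun p => (a p)⁻¹) 0 ρ) -
        fc (fun p => (Gf a u p - fc (Gf a u) 0 p.2) * (a p)⁻¹) 0 ρ := by
    have h3 : (fun p : ℂ × ℂ => -(fc (Gf a u) 0 p.2 * (a p)⁻¹)) =
        fun p => (-fc (Gf a u) 0 p.2) * (a p)⁻¹ := by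
      funext p
      ring
    rw [fc_sub (hG0.mul hi).neg hd nodal_sml01 hr 0 hρ, h3,
      fc_smul (fun p => (a p)⁻¹) (fun z => -fc (Gf a u) 0 z) 0 ρ]
    ring
  have b1 := fc_le hdb nodal_sml01 hr 0 hρ
  have b2 := fc_le hib nodal_sml01 hr 0 hρ
  have b3 := fc_le hic nodal_sml01 hr 0 hρ
  rw [fc_sub hi (PH.const 1) nodal_sml01 hr 0 hρ, fc_ofρ (fun _ => 1) 0 ρ, if_pos rfl] at b3
  rw [e2, e3] at e1
  set G0 := fc (Gf a u) 0 ρ
  set A := fc (fun p => (a p)⁻¹) 0 ρ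
  set D := fc (fun p => (Gf a u p - fc (Gf a u) 0 p.2) * (a p)⁻¹) 0 ρ
  have e4 : G0 * A = -(1 + D) := by
    linear_combination e1
  have e5 : ‖G0‖ * ‖A‖ = ‖1 + D‖ := by
    rw [← norm_mul, e4, norm_neg]
  have b4 : ‖1 + D‖ ≤ 7 / 6 := by
    have := norm_add_le 1 D
    rw [norm_one] at this
    linarith
  have b5 : 5 / 6 ≤ ‖1 + D‖ := by
    have := norm_sub_le (1 + D) D
    rw [add_sub_cancel_right, norm_one] at this
    linarith
  have b6 : 2 / 3 ≤ ‖A‖ := by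
    have := norm_sub_le A (A - 1)
    rw [sub_sub_cancel, norm_one] at this
    linarith
  have b7 := norm_nonneg G0
  constructor
  · nlinarith
  · nlinarith

/-- step (f): the decomposition at the node -/
lemma nodal_f {a : ℂ × ℂ → ℂ} {c0 : ℂ → ℂ} (hr : r ≤ c) (hu : PH {0} c r u)
    (ha : PH {0, 1} c r a) (ha1 : ∀ p ∈ Dm {0, 1} c r, ‖a p - 1‖ ≤ 1 / 4)
    (hw : PH {0, 1} c r w) (hc0 : DifferentiableOn ℂ c0 (Rq r))
    (hG : ∀ p ∈ Dm {0, 1} c r, Gf a u p ≠ 0)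
    (hG0 : ∀ ρ ∈ Rq r, fc (Gf a u) 0 ρ ≠ 0) {m k : ℤ} (hm : m ≠ 0)
    (hρ : |(k / m : ℝ)| < r) :
    fc (fun p => (w p + c0 p.2) / a p) m ((k / m : ℝ) : ℂ) =
      -((fc (Gf a u) 0 ((k / m : ℝ) : ℂ))⁻¹ * (fc w m ((k / m : ℝ) : ℂ) +
        fc (fun p => w p * (sh 1 u p - u p)) m ((k / m : ℝ) : ℂ))) +
      fc (fun p => (w p + c0 p.2) * (1 + sh 1 u p - u p) *
        ((Gf a u p - fc (Gf a u) 0 p.2) / (Gf a u p * fc (Gf a u) 0 p.2))) m
        ((k / m : ℝ) : ℂ) := by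
  have hGp := nodal_G hu ha
  have h1 : PH {0, 1} c r (sh 1 u) := hu.hsh 1 (by decide)
  have h2 : PH {0, 1} c r u := hu.mono (by decide) le_rfl le_rfl
  have hc : PH {0, 1} c r (fun p => c0 p.2) := PH.ofρ hc0
  have hG0p : PH {0, 1} c r (fun p => fc (Gf a u) 0 p.2) := PH.ofρ (fc_diff hGp nodal_sml01 hr 0)
  have hG00 : ∀ p ∈ Dm {0, 1} c r, fc (Gf a u) 0 p.2 ≠ 0 := fun p hp => hG0 _ hp.2
  have hG0i : DifferentiableOn ℂ (fun z => -(fc (Gf a u) 0 z)⁻¹) (Rq r) :=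
    ((fc_diff hGp nodal_sml01 hr 0).inv hG0).neg
  have hs := h1.sub h2
  -- the three pieces of the main term
  have hA : PH {0, 1} c r (fun p => (w p + w p * (sh 1 u p - u p)) +
      (c0 p.2 + c0 p.2 * (sh 1 u p - u p))) :=
    (hw.add (hw.mul hs)).add (hc.add (hc.mul hs))
  have hB : PH {0, 1} c r (fun p => (w p + c0 p.2) * (1 + sh 1 u p - u p) *
        ((Gf a u p - fc (Gf a u) 0 p.2) / (Gf a u p * fc (Gf a u) 0 p.2))) :=
    ((hw.add hc).mul (((PH.const 1).add h1).sub h2)).mul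
      ((hGp.sub hG0p).div (hGp.mul hG0p) fun p hp => mul_ne_zero (hG p hp) (hG00 p hp))
  set ρ0 : ℂ := ((k / m : ℝ) : ℂ) with hρ0
  have h0 : ρ0 ∈ Rq r := nodal_mem hρ
  have e1 : fc (fun p => (w p + c0 p.2) / a p) m ρ0 =
      fc (fun p => (-(fc (Gf a u) 0 p.2)⁻¹) * ((w p + w p * (sh 1 u p - u p)) +
        (c0 p.2 + c0 p.2 * (sh 1 u p - u p))) +
        (w p + c0 p.2) * (1 + sh 1 u p - u p) *
        ((Gf a u p - fc (Gf a u) 0 p.2) / (Gf a u p * fc (Gf a u) 0 p.2))) m ρ0 := by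
    refine nodal_congr nodal_sml01 hr h0 (fun p hp _ => ?_) m
    have h3 := (nodal_near (ha1 p hp)).1
    have h4 := hG p hp
    have h5 := hG00 p hp
    set G0 := fc (Gf a u) 0 p.2
    have h6 : (1 + sh 1 u p - u p) = -(Gf a u p / a p) := by
      unfold Gf
      field_simp
    have h7 : (w p + w p * (sh 1 u p - u p)) + (c0 p.2 + c0 p.2 * (sh 1 u p - u p)) =
        (w p + c0 p.2) * (1 + sh 1 u p - u p) := by ring
    rw [h7, h6]
    field_simp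
    ring
  have e2 : fc (fun p => c0 p.2 * (sh 1 u p - u p)) m ρ0 = 0 := by
    rw [fc_smul (fun p => sh 1 u p - u p) c0 m ρ0, fc_sub h1 h2 nodal_sml01 hr m h0,
      fc_sh hu nodal_sml0 hr m 1 (by decide) h0, hρ0, nodal_exp hm 1]
    ring
  rw [e1, fc_add ((PH.ofρ hG0i).mul hA) hB nodal_sml01 hr m h0,
    fc_smul (fun p => (w p + w p * (sh 1 u p - u p)) + (c0 p.2 + c0 p.2 * (sh 1 u p - u p)))
      (fun z => -(fc (Gf a u) 0 z)⁻¹) m ρ0,
    fc_add (hw.add (hw.mul hs)) (hc.add (hc.mul hs)) nodal_sml01 hr m h0,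
    fc_add hw (hw.mul hs) nodal_sml01 hr m h0, fc_add hc (hc.mul hs) nodal_sml01 hr m h0, e2,
    fc_ofρ c0 m ρ0, if_neg hm]
  ring

theorem nodal (k1 : ℂ) : ∃ n : ℕ, ∀ (c r c' r' δ ε W N : ℝ) (F E a w res : ℂ × ℂ → ℂ)
    (c0 : ℂ → ℂ), Par c r c' r' δ → GF c r (1 / 4) F → AP {-1, 0, 1} c r E ε →
    PH {0, 1} c r a → (∀ p ∈ Dm {0, 1} c r, ‖a p - 1‖ ≤ 1 / 4) →
    (∀ p ∈ Dm {-1, 0, 1} c r, p.2 ≠ 0 →
      dt F p * (p.2 * dr E p + k1 * E p) - p.2 * dr F p * dt E p = nabm (Gf a (uu F)) p) →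
    HP {0, 1} c r w W → HP {-1, 0, 1} c r res N →
    (∀ p ∈ Dm {-1, 0, 1} c r, nabm w p = dt F p * E p - res p) →
    DifferentiableOn ℂ c0 (Rq r) → (∀ ρ ∈ Rq r, ‖c0 ρ‖ ≤ W) → 0 ≤ ε → 0 ≤ N →
    lam n δ * ε ≤ 1 →
    ∀ m k : ℤ, m ≠ 0 → k ≠ 0 → |(k / m : ℝ)| < r' →
      ‖fc (fun p => (w p + c0 p.2) / a p) m ((k / m : ℝ) : ℂ)‖ ≤
        lam n δ * (N + W * ε) * Real.exp (-(2 * Real.pi * |(m : ℝ)| * c')) := by
  obtain ⟨n0, hn0⟩ := nodal_a k1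
  obtain ⟨n, hn⟩ := absorb (64 * (18 + 2 * ‖k1‖)) n0 2 2 (by norm_num)
  refine ⟨n, fun c r c' r' δ ε W N F E a w res c0 h hF hE ha ha1 hI hw hres heq hc0 hc0b hε hN
    hsmall m k hm hk hρ => ?_⟩
  have hδ := h.δ0
  have hδ1 := h.δ1
  have hrp := h.r_pos
  obtain ⟨f1, f2, f3, f4, f5⟩ := nodal_F hF
  have hr'c' := h.r'_le_c'
  have hcc := h.c'_le
  have hrr := h.r'_le
  have hρr : |(k / m : ℝ)| < r := hρ.trans_le hrr
  set ρ0 : ℂ := ((k / m : ℝ) : ℂ) with hρ0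
  have h0 : ρ0 ∈ Rq r' := nodal_mem hρ
  have h0r : ρ0 ∈ Rq r := nodal_mem hρr
  -- the smallness
  have hL0 : 1 ≤ lam n0 (δ / (2 : ℕ)) := one_le_lam _ (by positivity) (by push_cast; linarith)
  have hL2 : 1 / δ ^ 2 ≤ lam 2 (δ / (2 : ℕ)) := by
    unfold lam
    rw [div_pow, div_le_div_iff₀ (by positivity) (by positivity)]
    push_cast
    nlinarith [sq_nonneg δ]
  have hLn := hn δ hδ hδ1
  have hk0 := norm_nonneg k1
  set Λ := lam n δ with hΛ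
  set l0 := lam n0 (δ / (2 : ℕ)) with hl0
  set l2 := lam 2 (δ / (2 : ℕ)) with hl2
  have hΛ0 : 0 ≤ Λ := lam_nonneg n hδ
  have hinv : 1 ≤ 1 / δ ^ 2 := by
    rw [le_div_iff₀ (by positivity)]
    nlinarith
  set η : ℝ := l0 * ((7 + 2 * ‖k1‖) * ε / δ ^ 2) with hη
  have hη0 : 0 ≤ η := by positivity
  have hη1 : 64 * η ≤ Λ * ε := by
    have e1 : 64 * η ≤ 64 * (18 + 2 * ‖k1‖) * l0 * l2 * ε := by
      have e2 : η = (7 + 2 * ‖k1‖) * l0 * (1 / δ ^ 2) * ε := by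
        rw [hη]
        ring
      rw [e2]
      have e3 : (7 + 2 * ‖k1‖) * l0 * (1 / δ ^ 2) * ε ≤ (18 + 2 * ‖k1‖) * l0 * l2 * ε := by
        gcongr
        norm_num
      linarith
    exact e1.trans (mul_le_mul_of_nonneg_right hLn hε)
  have hη2 : η ≤ 1 / 8 := by linarith
  -- the function `G`
  have hGa := hn0 c r c' r' δ ε F E a h hF hE ha hI hε
  have ha' : PH {0, 1} c' r' a := ha.mono (Finset.Subset.refl _) hcc hrr
  have hu' : PH {0} c' r' (uu F) := f3.mono (Finset.Subset.refl _) hcc hrr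
  have hsub : Dm {0, 1} c' r' ⊆ Dm {0, 1} c r := Dm_mono (Finset.Subset.refl _) hcc hrr
  have ha1' : ∀ p ∈ Dm {0, 1} c' r', ‖a p - 1‖ ≤ 1 / 4 := fun p hp => ha1 p (hsub hp)
  have hGη : ∀ p ∈ Dm {0, 1} c' r', ‖Gf a (uu F) p - fc (Gf a (uu F)) 0 p.2‖ ≤ η := by
    intro p hp
    have := hGa p hp
    rw [hη, hl0]
    push_cast
    exact this
  have hb := fun (ρ : ℂ) (hρ : ρ ∈ Rq r') =>
    nodal_b hr'c' hu' ha' ha1' (fun p hp => (hGη p hp).trans hη2) hρ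
  have hG1 : ∀ p ∈ Dm {0, 1} c' r', 1 / 2 ≤ ‖Gf a (uu F) p‖ ∧ ‖Gf a (uu F) p‖ ≤ 2 := by
    intro p hp
    have b1 := (hGη p hp).trans hη2
    obtain ⟨b2, b3⟩ := hb p.2 hp.2
    have b4 := norm_sub_le (Gf a (uu F) p) (Gf a (uu F) p - fc (Gf a (uu F)) 0 p.2)
    rw [sub_sub_cancel] at b4
    have b5 := norm_add_le (fc (Gf a (uu F)) 0 p.2) (Gf a (uu F) p - fc (Gf a (uu F)) 0 p.2)
    rw [add_sub_cancel] at b5
    constructor <;> linarith
  have hG0 : ∀ p ∈ Dm {0, 1} c' r', Gf a (uu F) p ≠ 0 := by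
    intro p hp h1
    have h2 := (hG1 p hp).1
    rw [h1, norm_zero] at h2
    norm_num at h2
  have hG00 : ∀ ρ ∈ Rq r', fc (Gf a (uu F)) 0 ρ ≠ 0 := by
    intro ρ hρ h1
    have h2 := (hb ρ hρ).1
    rw [h1, norm_zero] at h2
    norm_num at h2
  have hw' : HP {0, 1} c' r' w W := hw.mono (Finset.Subset.refl _) hcc hrr le_rfl
  have hc0' : DifferentiableOn ℂ c0 (Rq r') := hc0.mono fun z hz =>
    ⟨hz.1.trans_le hrr, hz.2.trans_le hrr⟩
  rw [nodal_f hr'c' hu' ha' ha1' hw'.toPH hc0' hG0 hG00 hm hρ,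
    nodal_e h.r_le_c hF hE.toRP.toPH hw.toPH hres.toPH heq hm hρr]
  have hd := nodal_d h.r_le_c k1 hF hE.toRP.toPH (nodal_G f3 ha) hI hw.toPH hres.toPH heq hm hk hρr
  have hpi := nodal_two_pi hm
  have hpi0 : (2 * Real.pi * I * m : ℂ) ≠ 0 := by
    intro h1
    rw [h1, norm_zero] at hpi
    norm_num at hpi
  rw [← hρ0] at hd ⊢
  set X : ℂ := k1 * fc res m ρ0 + ρ0 * fc (dr res) m ρ0 with hX
  set Y : ℂ := fc (fun p => dr F p * E p) m ρ0 with hY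
  have hw1 : fc w m ρ0 = ρ0 * Y - X / (2 * Real.pi * I * m) := by
    field_simp
    linear_combination hd
  rw [hw1]
  have e1 : ρ0 * Y - X / (2 * Real.pi * I * m) + (-(ρ0 * Y) +
      ρ0 * fc (fun p => res p * uu F p) m ρ0) =
      -(X / (2 * Real.pi * I * m)) + ρ0 * fc (fun p => res p * uu F p) m ρ0 := by ring
  rw [e1]
  set e : ℝ := Real.exp (-(2 * Real.pi * |(m : ℝ)| * c')) with he
  have he0 : 0 < e := Real.exp_pos _
  -- bounds
  have hρ0n : ‖ρ0‖ ≤ r := by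
    rw [hρ0, Complex.norm_real]
    exact hρr.le
  have card3 : (({-1, 0, 1} : Finset ℤ).card : ℝ) = 3 := by simp
  have hres' : HP {-1, 0, 1} c' r' res N := hres.mono (Finset.Subset.refl _) hcc hrr le_rfl
  have b1 : ‖fc res m ρ0‖ ≤ 3 * N * e := by
    have h1 := nodal_bound hres' nodal_sml3 hr'c' m hρ
    rw [card3] at h1
    exact h1
  obtain ⟨g1, g2, g3⟩ := h.δr
  have hdres : HP {-1, 0, 1} c' r' (dr res) (N / (δ * r)) :=
    { hres.toPH.hdr.mono (Finset.Subset.refl _) hcc hrr with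
      bd := bd_dr hres.toPH.diff hres.bd (by simp) g1 g2 g3 }
  have b2 : ‖ρ0 * fc (dr res) m ρ0‖ ≤ 3 * N / δ * e := by
    have h1 := nodal_bound hdres nodal_sml3 hr'c' m hρ
    rw [card3] at h1
    rw [norm_mul]
    calc ‖ρ0‖ * ‖fc (dr res) m ρ0‖ ≤ r * (3 * (N / (δ * r)) * e) := by
          gcongr
      _ = 3 * N / δ * e := by
          field_simp
  have b3 : ‖ρ0 * fc (fun p => res p * uu F p) m ρ0‖ ≤ 3 * N / δ * e := by
    have hP : HP {-1, 0, 1} c' r' (fun p => p.2 * (res p * uu F p)) (N / δ) := by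
      have h1 : PH {-1, 0, 1} c' r' (fun p => p.2 * (res p * uu F p)) :=
        (PH.ofρ (a := fun z => z) differentiableOn_id).mul
          (hres'.toPH.mul (hu'.mono (by decide) le_rfl le_rfl))
      refine { h1 with bd := fun p hp => ?_ }
      have hp0 : p ∈ Dm {0} c' r' := Dm_mono (by decide) le_rfl le_rfl hp
      have hp1 : p ∈ Dm {0} c r := Dm_mono (Finset.Subset.refl _) hcc hrr hp0
      have h2 := nodal_rdr h hF p hp0
      have h3 := hres'.bd p hp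
      obtain ⟨h4, h5, h6⟩ := f4 p hp1
      have h7 : p.2 * (res p * uu F p) = res p * (p.2 * dr F p) * (dt F p)⁻¹ := by
        unfold uu
        field_simp
      rw [h7, norm_mul, norm_mul, norm_inv]
      calc ‖res p‖ * ‖p.2 * dr F p‖ * ‖dt F p‖⁻¹ ≤ N * (1 / (2 * δ)) * (3 / 4 : ℝ)⁻¹ := by
            gcongr
        _ = (2 / 3) * (N / δ) := by
            field_simp
            norm_num
        _ ≤ N / δ := by
            have : 0 ≤ N / δ := by positivity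
            linarith
    have h3 := nodal_bound hP nodal_sml3 hr'c' m hρ
    rw [fc_smul (fun p => res p * uu F p) (fun z => z) m, card3] at h3
    calc _ ≤ 3 * (N / δ) * e := h3
      _ = 3 * N / δ * e := by ring
  have hW0 : 0 ≤ W := (norm_nonneg _).trans (hc0b ρ0 h0r)
  have b4 : ‖fc (fun p => (w p + c0 p.2) * (1 + sh 1 (uu F) p - uu F p) *
        ((Gf a (uu F) p - fc (Gf a (uu F)) 0 p.2) /
          (Gf a (uu F) p * fc (Gf a (uu F)) 0 p.2))) m ρ0‖ ≤ 2 * (32 * W * η) * e := by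
    have hGp := nodal_G hu' ha'
    have h1 : PH {0, 1} c' r' (sh 1 (uu F)) := hu'.hsh 1 (by decide)
    have h2 : PH {0, 1} c' r' (uu F) := hu'.mono (by decide) le_rfl le_rfl
    have hG0p : PH {0, 1} c' r' (fun p => fc (Gf a (uu F)) 0 p.2) :=
      PH.ofρ (fc_diff hGp nodal_sml01 hr'c' 0)
    have hB : PH {0, 1} c' r' (fun p => (w p + c0 p.2) * (1 + sh 1 (uu F) p - uu F p) *
        ((Gf a (uu F) p - fc (Gf a (uu F)) 0 p.2) /
          (Gf a (uu F) p * fc (Gf a (uu F)) 0 p.2))) :=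
      ((hw'.toPH.add (PH.ofρ hc0')).mul (((PH.const 1).add h1).sub h2)).mul
        ((hGp.sub hG0p).div (hGp.mul hG0p) fun p hp => mul_ne_zero (hG0 p hp) (hG00 _ hp.2))
    have hBb : HP {0, 1} c' r' (fun p => (w p + c0 p.2) * (1 + sh 1 (uu F) p - uu F p) *
        ((Gf a (uu F) p - fc (Gf a (uu F)) 0 p.2) /
          (Gf a (uu F) p * fc (Gf a (uu F)) 0 p.2))) (32 * W * η) := by
      refine { hB with bd := fun p hp => ?_ }
      obtain ⟨g1, g2⟩ := hG1 p hp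
      obtain ⟨g3, g4⟩ := hb p.2 hp.2
      obtain ⟨g5, g6, g7⟩ := nodal_near (ha1' p hp)
      have h3 : 1 + sh 1 (uu F) p - uu F p = -(Gf a (uu F) p * (a p)⁻¹) := by
        unfold Gf
        field_simp
      have h4 : ‖1 + sh 1 (uu F) p - uu F p‖ ≤ 8 / 3 := by
        rw [h3, norm_neg, norm_mul]
        calc _ ≤ (2 : ℝ) * (4 / 3) := by gcongr
          _ = 8 / 3 := by norm_num
      have h5 : ‖w p + c0 p.2‖ ≤ 2 * W := by
        have h6 := norm_add_le (w p) (c0 p.2)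
        have h7 := hw'.bd p hp
        have h8 := hc0b p.2 (hsub hp).2
        linarith
      have h6 : ‖Gf a (uu F) p * fc (Gf a (uu F)) 0 p.2‖ ≥ 5 / 16 := by
        rw [norm_mul]
        calc (5 / 16 : ℝ) = (1 / 2) * (5 / 8) := by norm_num
          _ ≤ _ := by gcongr
      rw [norm_mul, norm_mul, norm_div]
      calc _ ≤ (2 * W) * (8 / 3) * (η / (5 / 16)) := by
            gcongr
            exact hGη p hp
        _ = (256 / 15) * (W * η) := by ring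
        _ ≤ 32 * W * η := by nlinarith [mul_nonneg hW0 hη0]
    have h1 := nodal_bound hBb nodal_sml01 hr'c' m hρ
    have h2 : (({0, 1} : Finset ℤ).card : ℝ) = 2 := by simp
    rw [h2] at h1
    exact h1
  -- conclusion
  have b5 : ‖(fc (Gf a (uu F)) 0 ρ0)⁻¹‖ ≤ 2 := by
    rw [norm_inv]
    calc _ ≤ (5 / 8 : ℝ)⁻¹ := by
          gcongr
          exact (hb ρ0 h0).1
      _ ≤ 2 := by norm_num
  have b6 : ‖X / (2 * Real.pi * I * m)‖ ≤ (3 * ‖k1‖ * N + 3 * N / δ) * e := by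
    rw [norm_div]
    have h1 : ‖X‖ ≤ (3 * ‖k1‖ * N + 3 * N / δ) * e := by
      have h2 := norm_add_le (k1 * fc res m ρ0) (ρ0 * fc (dr res) m ρ0)
      rw [norm_mul] at h2
      have h3 : ‖k1‖ * ‖fc res m ρ0‖ ≤ ‖k1‖ * (3 * N * e) := by gcongr
      calc ‖X‖ ≤ _ := h2
        _ ≤ ‖k1‖ * (3 * N * e) + 3 * N / δ * e := add_le_add h3 b2
        _ = _ := by ring
    exact (div_le_self (norm_nonneg _) hpi).trans h1
  refine (norm_add_le _ _).trans ?_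
  have b7 : ‖-((fc (Gf a (uu F)) 0 ρ0)⁻¹ * (-(X / (2 * Real.pi * I * m)) +
      ρ0 * fc (fun p => res p * uu F p) m ρ0))‖ ≤
      2 * ((3 * ‖k1‖ * N + 3 * N / δ) * e + 3 * N / δ * e) := by
    rw [norm_neg, norm_mul]
    have h1 := norm_add_le (-(X / (2 * Real.pi * I * m))) (ρ0 * fc (fun p => res p * uu F p) m ρ0)
    rw [norm_neg] at h1
    have h2 := h1.trans (add_le_add b6 b3)
    gcongr
  refine (add_le_add b7 b4).trans ?_
  have e2 : 2 * ((3 * ‖k1‖ * N + 3 * N / δ) * e + 3 * N / δ * e) + 2 * (32 * W * η) * e =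
      ((6 * ‖k1‖ + 12 / δ) * N + W * (64 * η)) * e := by
    ring
  rw [e2]
  refine mul_le_mul_of_nonneg_right ?_ he0.le
  have e3 : 6 * ‖k1‖ + 12 / δ ≤ Λ := by
    have h1 : (1 : ℝ) / δ ≤ 1 / δ ^ 2 := by
      rw [div_le_div_iff₀ hδ (by positivity)]
      nlinarith
    have h2 : 12 / δ = 12 * (1 / δ) := by ring
    have h3 : 6 * ‖k1‖ + 12 / δ ≤ (12 + 6 * ‖k1‖) * (1 / δ ^ 2) := by
      rw [h2]
      nlinarith
    have h4 : (12 + 6 * ‖k1‖) * (1 / δ ^ 2) ≤ (64 * (18 + 2 * ‖k1‖)) * l0 * l2 := by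
      have h5 : (12 + 6 * ‖k1‖) ≤ (64 * (18 + 2 * ‖k1‖)) * l0 := by
        have : 0 ≤ 64 * (18 + 2 * ‖k1‖) := by positivity
        nlinarith
      gcongr
    exact (h3.trans h4).trans hLn
  have e4 : W * (64 * η) ≤ W * (Λ * ε) := mul_le_mul_of_nonneg_left hη1 hW0
  have e5 : (6 * ‖k1‖ + 12 / δ) * N ≤ Λ * N := mul_le_mul_of_nonneg_right e3 hN
  calc _ ≤ Λ * N + W * (Λ * ε) := add_le_add e5 e4
    _ = Λ * (N + W * ε) := by ring

end Pool.Agent.MP_ae5b4e_an_SM
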